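import Pool.Agent.MRS.Kus

set_option autoImplicit false

/-! Module SEG: mean value theorem for iterated differences and the segment estimate. -/

open Finset

namespace Pool.Agent.MRS

open Pool.Agent.H33

/-- Mean value theorem for iterated differences of `i ↦ F 0 (a + s i)`. -/
theorem DL_mvt (F : ℕ → ℝ → ℝ) (hF : ∀ j x, HasDerivAt (F j) (F (j + 1) x) x) (a s : ℝ) (hs : 0 < s)
    (qs : List ℕ) (hq : ∀ q ∈ qs, 1 ≤ q) (i : ℕ) :
    ∃ x : ℝ, a + s * i ≤ x ∧ x ≤ a + s * (i + qs.sum) ∧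
      DL qs (fun i : ℕ => F 0 (a + s * i)) i = s ^ qs.length * (qs.prod : ℝ) * F qs.length x := by
  induction qs generalizing F with
  | nil =>
    refine ⟨a + s * i, le_rfl, by simp, ?_⟩
    simp [DL]
  | cons q qs ih =>
    have hq1 : 1 ≤ q := hq q (by simp)
    have hq1' : (1 : ℝ) ≤ q := by exact_mod_cast hq1
    have hsq : 0 < s * q := by positivity
    obtain ⟨x, hx1, hx2, hx3⟩ := ih (fun j x => F j (x + s * q) - F j x) (by
      intro j x
      have h1 : HasDerivAt (fun x => F j (x + s * q)) (F (j + 1) (x + s * q)) x :=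
        HasDerivAt.comp_add_const x (s * q) (hF j (x + s * q))
      exact h1.sub (hF j x)) (fun p hp => hq p (by simp [hp]))
    have hlt : x < x + s * q := by linarith
    obtain ⟨y, hy, hy2⟩ := exists_hasDerivAt_eq_slope (F qs.length) (F (qs.length + 1)) hlt
      (fun z _ => (hF qs.length z).continuousAt.continuousWithinAt)
      (fun z _ => hF qs.length z)
    refine ⟨y, ?_, ?_, ?_⟩
    · exact hx1.trans hy.1.le
    · have : (((q :: qs).sum : ℕ) : ℝ) = q + qs.sum := by simp
      rw [this]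
      have := hy.2.le
      nlinarith
    · have e1 : DL (q :: qs) (fun i : ℕ => F 0 (a + s * i)) i
          = DL qs (fun i : ℕ => F 0 (a + s * i + s * q) - F 0 (a + s * i)) i := by
        simp only [DL]
        congr 1
        funext j
        simp only [Df]
        congr 2
        push_cast
        ring
      rw [e1, hx3]
      have e2 : F qs.length (x + s * q) - F qs.length x = s * q * F (qs.length + 1) y := by
        rw [hy2]
        have : x + s * q - x = s * q := by ring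
        rw [this]
        field_simp
      rw [e2, List.length_cons, List.prod_cons]
      push_cast
      ring

lemma seg_DL_append (qs : List ℕ) (q : ℕ) (g : ℕ → ℝ) : DL (qs ++ [q]) g = Df q (DL qs g) := by
  induction qs generalizing g with
  | nil => rfl
  | cons p ps ih =>
    rw [List.cons_append]
    simp only [DL]
    exact ih _

lemma seg_prod_ge {r : ℕ} {H : ℕ} {Y : ℝ} (hY : 0 < Y) (qs : List ℕ) (hl : qs.length = r)
    (hq : ∀ q ∈ qs, (H : ℝ) ≤ q * Y) : (H : ℝ) ^ r ≤ (qs.prod : ℝ) * Y ^ r := by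
  induction qs generalizing r with
  | nil =>
    subst hl
    simp
  | cons q qs ih =>
    subst hl
    have h1 := ih (r := qs.length) rfl (fun p hp => hq p (by simp [hp]))
    have h2 := hq q (by simp)
    rw [List.length_cons, List.prod_cons, Nat.cast_mul]
    calc (H : ℝ) ^ (qs.length + 1) = H * H ^ qs.length := by ring
      _ ≤ (q * Y) * ((qs.prod : ℝ) * Y ^ qs.length) := by
          apply mul_le_mul h2 h1 (by positivity) (by positivity)
      _ = _ := by ring

lemma seg_prod_le {r : ℕ} {H : ℕ} (qs : List ℕ) (hl : qs.length = r)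
    (hq : ∀ q ∈ qs, q ≤ H) : (qs.prod : ℝ) ≤ (H : ℝ) ^ r := by
  induction qs generalizing r with
  | nil =>
    subst hl
    simp
  | cons q qs ih =>
    subst hl
    have h1 := ih (r := qs.length) rfl (fun p hp => hq p (by simp [hp]))
    have h2 : (q : ℝ) ≤ H := by exact_mod_cast hq q (by simp)
    rw [List.length_cons, List.prod_cons, Nat.cast_mul]
    calc (q : ℝ) * qs.prod ≤ H * H ^ qs.length := by
          apply mul_le_mul h2 h1 (by positivity) (by positivity)
      _ = _ := by ring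

/-- positive derivative -/
theorem seg_pos (r : ℕ) (F : ℕ → ℝ → ℝ) (hF : ∀ j x, HasDerivAt (F j) (F (j + 1) x) x)
    (a s : ℝ) (hs : 0 < s) {N H : ℕ} {Y E L U U' : ℝ} (hY : 1 ≤ Y) (hE : 0 < E) (hE1 : E ≤ 1)
    (hH : 1 ≤ H) (hHN : H ≤ N) (hYE : 1 ≤ Y * E) (hHE : 1 ≤ H * E) (hL : 0 < L)
    (h1 : ∀ x, a ≤ x → x ≤ a + s * (N + 1) → L ≤ F (r + 1) x ∧ F (r + 1) x ≤ U)
    (h2 : ∀ x, a ≤ x → x ≤ a + s * (N + 1) → |F (r + 2) x| ≤ U')
    (hup : s ^ (r + 1) * (H : ℝ) ^ r * U ≤ 1 / 2)
    (hlo : Y ^ r / (s ^ (r + 1) * (H : ℝ) ^ r * L)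
      + N * U' * Y ^ r / (s ^ r * (H : ℝ) ^ r * L ^ 2) ≤ N * E) :
    ‖∑ i ∈ range N, ee (F 0 (a + s * i))‖ ≤ 16 * N * E ^ ((1 : ℝ) / 2 ^ r) := by
  have hU' : 0 ≤ U' := (abs_nonneg _).trans (h2 a le_rfl (by nlinarith [Nat.cast_nonneg (α := ℝ) N]))
  have hY0 : 0 < Y := by linarith
  have hH0 : (0 : ℝ) < H := by exact_mod_cast hH
  apply vdc_iter (g := fun i : ℕ => F 0 (a + s * i)) r hY hE hE1 hH hHN hYE hHE
  intro qs hqs hq X hX
  have hX' : (X : ℝ) + qs.sum ≤ N := by exact_mod_cast hX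
  set P : ℝ := (qs.prod : ℝ) with hP
  have hPge : (H : ℝ) ^ r ≤ P * Y ^ r := seg_prod_ge hY0 qs hqs (fun q hq' => (hq q hq').2.2)
  have hPle : P ≤ (H : ℝ) ^ r := seg_prod_le qs hqs (fun q hq' => (hq q hq').2.1.le)
  have hP0 : 0 < P := by
    have : 0 < (H : ℝ) ^ r := by positivity
    have h3 : 0 < P * Y ^ r := lt_of_lt_of_le this hPge
    exact (pos_iff_pos_of_mul_pos h3).mpr (by positivity)
  set l : ℝ := s ^ (r + 1) * P * L with hl
  have hl0 : 0 < l := by positivity
  set V : ℝ := s ^ (r + 2) * P * U' with hV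
  have hV0 : 0 ≤ V := by positivity
  -- first differences
  have hd1 : ∀ n < X, ∃ x : ℝ, a ≤ x ∧ x ≤ a + s * (N + 1) ∧
      DL qs (fun i : ℕ => F 0 (a + s * i)) (n + 1) - DL qs (fun i : ℕ => F 0 (a + s * i)) n
        = s ^ (r + 1) * P * F (r + 1) x := by
    intro n hn
    obtain ⟨x, hx1, hx2, hx3⟩ := DL_mvt F hF a s hs (qs ++ [1]) (by
      intro q hq'
      rw [List.mem_append, List.mem_singleton] at hq'
      rcases hq' with hq' | rfl
      · exact (hq q hq').1
      · exact le_rfl) n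
    refine ⟨x, ?_, ?_, ?_⟩
    · refine le_trans ?_ hx1
      have : (0 : ℝ) ≤ s * n := by positivity
      linarith
    · refine hx2.trans ?_
      have h3 : (n : ℝ) + 1 ≤ X := by exact_mod_cast hn
      have h5 : (((qs ++ [1]).sum : ℕ) : ℝ) = (qs.sum : ℝ) + 1 := by simp
      rw [h5]
      nlinarith
    · have e1 : DL qs (fun i : ℕ => F 0 (a + s * i)) (n + 1)
          - DL qs (fun i : ℕ => F 0 (a + s * i)) n
          = DL (qs ++ [1]) (fun i : ℕ => F 0 (a + s * i)) n := by
        rw [seg_DL_append]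
        rfl
      rw [e1, hx3]
      have e2 : (qs ++ [1]).length = r + 1 := by simp [hqs]
      rw [e2]
      have e3 : (((qs ++ [1]).prod : ℕ) : ℝ) = P := by simp [hP]
      rw [e3]
  have hd2 : ∀ n, n + 1 < X → |(DL qs (fun i : ℕ => F 0 (a + s * i)) (n + 2)
        - DL qs (fun i : ℕ => F 0 (a + s * i)) (n + 1))
      - (DL qs (fun i : ℕ => F 0 (a + s * i)) (n + 1)
        - DL qs (fun i : ℕ => F 0 (a + s * i)) n)| ≤ V := by
    intro n hn
    obtain ⟨x, hx1, hx2, hx3⟩ := DL_mvt F hF a s hs (qs ++ [1] ++ [1]) (by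
      intro q hq'
      rw [List.mem_append, List.mem_append, List.mem_singleton] at hq'
      rcases hq' with (hq' | rfl) | rfl
      · exact (hq q hq').1
      · exact le_rfl
      · exact le_rfl) n
    have e1 : (DL qs (fun i : ℕ => F 0 (a + s * i)) (n + 2)
        - DL qs (fun i : ℕ => F 0 (a + s * i)) (n + 1))
      - (DL qs (fun i : ℕ => F 0 (a + s * i)) (n + 1)
        - DL qs (fun i : ℕ => F 0 (a + s * i)) n)
        = DL (qs ++ [1] ++ [1]) (fun i : ℕ => F 0 (a + s * i)) n := by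
      rw [seg_DL_append, seg_DL_append]
      rfl
    rw [e1, hx3]
    have e2 : (qs ++ [1] ++ [1]).length = r + 2 := by simp [hqs]
    rw [e2]
    have e3 : (((qs ++ [1] ++ [1]).prod : ℕ) : ℝ) = P := by simp [hP]
    rw [e3, abs_mul, abs_of_nonneg (by positivity : (0 : ℝ) ≤ s ^ (r + 2) * P), hV]
    apply mul_le_mul_of_nonneg_left _ (by positivity)
    apply h2 x
    · refine le_trans ?_ hx1
      have : (0 : ℝ) ≤ s * n := by positivity
      linarith
    · refine hx2.trans ?_
      have h3 : (n : ℝ) + 2 ≤ X := by exact_mod_cast hn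
      have h5 : (((qs ++ [1] ++ [1]).sum : ℕ) : ℝ) = (qs.sum : ℝ) + 1 + 1 := by
        have h6 : (qs ++ [1] ++ [1]).sum = qs.sum + 1 + 1 := by simp [add_assoc]
        rw [h6, Nat.cast_add, Nat.cast_add, Nat.cast_one]
      rw [h5]
      nlinarith
  have hk := kusmin_var (DL qs (fun i : ℕ => F 0 (a + s * i))) X hl0 hV0
    (fun n hn => by
      obtain ⟨x, hx1, hx2, hx3⟩ := hd1 n hn
      rw [hx3, hl]
      exact mul_le_mul_of_nonneg_left (h1 x hx1 hx2).1 (by positivity))
    (fun n hn => by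
      obtain ⟨x, hx1, hx2, hx3⟩ := hd1 n hn
      rw [hx3]
      refine le_trans ?_ hup
      have hFU := (h1 x hx1 hx2).2
      have hF0 := hL.le.trans (h1 x hx1 hx2).1
      have hU0 : 0 ≤ U := hF0.trans hFU
      calc s ^ (r + 1) * P * F (r + 1) x ≤ s ^ (r + 1) * P * U :=
            mul_le_mul_of_nonneg_left hFU (by positivity)
        _ ≤ s ^ (r + 1) * (H : ℝ) ^ r * U := by
            apply mul_le_mul_of_nonneg_right _ hU0
            exact mul_le_mul_of_nonneg_left hPle (by positivity)) hd2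
  refine hk.trans (le_trans ?_ hlo)
  have hXN : (X : ℝ) ≤ N := by
    have : (0 : ℝ) ≤ (qs.sum : ℝ) := Nat.cast_nonneg _
    linarith
  have hinvP : 1 / P ≤ Y ^ r / (H : ℝ) ^ r := by
    rw [div_le_div_iff₀ hP0 (by positivity)]
    linarith
  apply add_le_add
  · calc 1 / l = (1 / P) * (1 / (s ^ (r + 1) * L)) := by
          rw [hl]
          field_simp
      _ ≤ (Y ^ r / (H : ℝ) ^ r) * (1 / (s ^ (r + 1) * L)) :=
          mul_le_mul_of_nonneg_right hinvP (by positivity)
      _ = _ := by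
          field_simp
  · calc X * V / l ^ 2 ≤ N * V / l ^ 2 := by
          apply div_le_div_of_nonneg_right _ (by positivity)
          exact mul_le_mul_of_nonneg_right hXN hV0
      _ = (1 / P) * (N * U' / (s ^ r * L ^ 2)) := by
          rw [hl, hV]
          field_simp
          ring
      _ ≤ (Y ^ r / (H : ℝ) ^ r) * (N * U' / (s ^ r * L ^ 2)) := by
          apply mul_le_mul_of_nonneg_right hinvP
          positivity
      _ = _ := by
          field_simp

/-- Exponential sum over a segment, derivative of order `r + 1` under control: with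
`L ≤ |F^(r+1)| ≤ U`, `|F^(r+2)| ≤ U'`. -/
theorem segment (r : ℕ) (F : ℕ → ℝ → ℝ) (hF : ∀ j x, HasDerivAt (F j) (F (j + 1) x) x)
    (a s : ℝ) (hs : 0 < s) {N H : ℕ} {Y E L U U' : ℝ} (hY : 1 ≤ Y) (hE : 0 < E) (hE1 : E ≤ 1)
    (hH : 1 ≤ H) (hHN : H ≤ N) (hYE : 1 ≤ Y * E) (hHE : 1 ≤ H * E) (hL : 0 < L)
    (h1 : ∀ x, a ≤ x → x ≤ a + s * (N + 1) → L ≤ |F (r + 1) x| ∧ |F (r + 1) x| ≤ U)
    (h2 : ∀ x, a ≤ x → x ≤ a + s * (N + 1) → |F (r + 2) x| ≤ U')
    (hup : s ^ (r + 1) * (H : ℝ) ^ r * U ≤ 1 / 2)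
    (hlo : Y ^ r / (s ^ (r + 1) * (H : ℝ) ^ r * L)
      + N * U' * Y ^ r / (s ^ r * (H : ℝ) ^ r * L ^ 2) ≤ N * E) :
    ‖∑ i ∈ range N, ee (F 0 (a + s * i))‖ ≤ 16 * N * E ^ ((1 : ℝ) / 2 ^ r) := by
  have hle : a ≤ a + s * (N + 1) := by
    have : 0 ≤ s * ((N : ℝ) + 1) := by positivity
    linarith
  have hcont : ContinuousOn (F (r + 1)) (Set.Icc a (a + s * (N + 1))) :=
    fun x _ => (hF (r + 1) x).continuousAt.continuousWithinAt
  have hconn : IsPreconnected (F (r + 1) '' Set.Icc a (a + s * (N + 1))) :=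
    isPreconnected_Icc.image _ hcont
  have hne0 : ∀ x ∈ Set.Icc a (a + s * (N + 1)), F (r + 1) x ≠ 0 := by
    intro x hx h0
    have := (h1 x hx.1 hx.2).1
    rw [h0, abs_zero] at this
    linarith
  have hamem : a ∈ Set.Icc a (a + s * ((N : ℝ) + 1)) := ⟨le_rfl, hle⟩
  rcases lt_or_gt_of_ne (hne0 a hamem) with hneg | hpos
  · -- negative
    have hall : ∀ x ∈ Set.Icc a (a + s * (N + 1)), F (r + 1) x < 0 := by
      intro x hx
      by_contra hx0
      rw [not_lt] at hx0
      have h3 : (0 : ℝ) ∈ F (r + 1) '' Set.Icc a (a + s * (N + 1)) :=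
        hconn.ordConnected.out (Set.mem_image_of_mem _ hamem) (Set.mem_image_of_mem _ hx)
          ⟨hneg.le, hx0⟩
      obtain ⟨y, hy, hy0⟩ := h3
      exact hne0 y hy hy0
    have h := seg_pos r (fun j x => - F j x) (fun j x => (hF j x).neg) a s hs hY hE hE1 hH hHN
      hYE hHE hL (U := U) (U' := U') (by
        intro x hx1 hx2
        have h3 := h1 x hx1 hx2
        rw [abs_of_neg (hall x ⟨hx1, hx2⟩)] at h3
        exact h3) (by
        intro x hx1 hx2
        rw [abs_neg]
        exact h2 x hx1 hx2) hup hlo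
    have e : ∑ i ∈ range N, ee (- F 0 (a + s * i))
        = (starRingEnd ℂ) (∑ i ∈ range N, ee (F 0 (a + s * i))) := by
      rw [map_sum]
      exact sum_congr rfl (fun i _ => ee_neg _)
    simp only [e, Complex.norm_conj] at h
    exact h
  · have hall : ∀ x ∈ Set.Icc a (a + s * (N + 1)), 0 < F (r + 1) x := by
      intro x hx
      by_contra hx0
      rw [not_lt] at hx0
      have h3 : (0 : ℝ) ∈ F (r + 1) '' Set.Icc a (a + s * (N + 1)) :=
        hconn.ordConnected.out (Set.mem_image_of_mem _ hx) (Set.mem_image_of_mem _ hamem)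
          ⟨hx0, hpos.le⟩
      obtain ⟨y, hy, hy0⟩ := h3
      exact hne0 y hy hy0
    exact seg_pos r F hF a s hs hY hE hE1 hH hHN
      hYE hHE hL (U := U) (U' := U') (by
        intro x hx1 hx2
        have h3 := h1 x hx1 hx2
        rw [abs_of_pos (hall x ⟨hx1, hx2⟩)] at h3
        exact h3) h2 hup hlo

end Pool.Agent.MRS
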