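import Pool.Agent.MRS.Basic
import Pool.Agent.MRS.Seg

set_option autoImplicit false

/-! Module ARG, first part: the derivatives of the argument. -/

open Finset

namespace Pool.Agent.MRS

open Pool.Agent.H33

/-- the point `t + i y` -/
noncomputable def ARG_z (y t : ℝ) : ℂ := (t : ℂ) + (y : ℂ) * Complex.I

/-- iterated derivatives of `log (t + i y)` -/
noncomputable def ARG_G (y : ℝ) : ℕ → ℝ → ℂ
  | 0, t => Complex.log (ARG_z y t)
  | j + 1, t => (-1) ^ j * (j.factorial : ℂ) * ((ARG_z y t) ^ (j + 1))⁻¹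

theorem ARG_z_im (y t : ℝ) : (ARG_z y t).im = y := by simp [ARG_z]

theorem ARG_z_re (y t : ℝ) : (ARG_z y t).re = t := by simp [ARG_z]

theorem ARG_z_ne {y : ℝ} (hy : y ≠ 0) (t : ℝ) : ARG_z y t ≠ 0 := by
  intro h
  have := ARG_z_im y t
  rw [h] at this
  exact hy (by simpa using this.symm)

theorem ARG_slit {y : ℝ} (hy : y ≠ 0) (t : ℝ) : ARG_z y t ∈ Complex.slitPlane := by
  rw [Complex.mem_slitPlane_iff]
  right
  rw [ARG_z_im]
  exact hy

theorem ARG_normSq (y t : ℝ) : ‖ARG_z y t‖ ^ 2 = t ^ 2 + y ^ 2 := by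
  rw [Complex.sq_norm, Complex.normSq_apply, ARG_z_im, ARG_z_re]
  ring

theorem ARG_z_deriv (y t : ℝ) : HasDerivAt (ARG_z y) 1 t := by
  have h : HasDerivAt (fun t : ℝ => (t : ℂ)) 1 t := Complex.ofRealCLM.hasDerivAt
  exact h.add_const _

theorem ARG_G_deriv {y : ℝ} (hy : y ≠ 0) (j : ℕ) (t : ℝ) :
    HasDerivAt (ARG_G y j) (ARG_G y (j + 1) t) t := by
  cases j with
  | zero =>
    have h := (ARG_z_deriv y t).clog_real (ARG_slit hy t)
    have e1 : ARG_G y (0 + 1) t = 1 / ARG_z y t := by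
      simp [ARG_G]
    rw [e1]
    exact h
  | succ j =>
    have hz := ARG_z_ne hy t
    have h1 := ((ARG_z_deriv y t).pow (j + 1)).inv (pow_ne_zero (j + 1) hz)
    have h2 := h1.const_mul ((-1 : ℂ) ^ j * (j.factorial : ℂ))
    have e1 : ARG_G y (j + 1 + 1) t =
        (-1 : ℂ) ^ j * (j.factorial : ℂ) *
          (-(((j + 1 : ℕ) : ℂ) * ARG_z y t ^ (j + 1 - 1) * 1) / (ARG_z y t ^ (j + 1)) ^ 2) := by
      have e2 : ARG_z y t ^ (j + 1 - 1) = ARG_z y t ^ j := by simp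
      rw [e2]
      simp only [ARG_G, Nat.factorial_succ]
      push_cast
      field_simp
      ring
    rw [e1]
    exact h2

/-- the function and its derivatives -/
noncomputable def ARG_F (κ : ℤ) (y : ℝ) (j : ℕ) (t : ℝ) : ℝ :=
  (κ : ℝ) / Real.pi * (ARG_G y j t).im

theorem ARG_F_deriv (κ : ℤ) {y : ℝ} (hy : y ≠ 0) (j : ℕ) (t : ℝ) :
    HasDerivAt (ARG_F κ y j) (ARG_F κ y (j + 1) t) t := by
  have h := Complex.imCLM.hasFDerivAt.comp_hasDerivAt t (ARG_G_deriv hy j t)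
  exact h.const_mul _

theorem ARG_pow_im (z : ℂ) (n : ℕ) : (z ^ n).im = ‖z‖ ^ n * Real.sin (n * Complex.arg z) := by
  have h : z ^ n = ((‖z‖ ^ n : ℝ) : ℂ) * Complex.exp (((n * Complex.arg z : ℝ) : ℂ) * Complex.I) := by
    conv_lhs => rw [← Complex.norm_mul_exp_arg_mul_I z]
    rw [mul_pow, ← Complex.exp_nat_mul]
    push_cast
    ring_nf
  rw [h, Complex.im_ofReal_mul, Complex.exp_ofReal_mul_I_im]

theorem ARG_G_im {y : ℝ} (hy : y ≠ 0) (j : ℕ) (t : ℝ) :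
    |(ARG_G y (j + 1) t).im| =
      j.factorial * |Real.sin ((j + 1 : ℕ) * Complex.arg (ARG_z y t))| / ‖ARG_z y t‖ ^ (j + 1) := by
  have hz : 0 < ‖ARG_z y t‖ := norm_pos_iff.2 (ARG_z_ne hy t)
  have e1 : ARG_G y (j + 1) t =
      (((-1) ^ j * (j.factorial : ℝ) : ℝ) : ℂ) * ((ARG_z y t) ^ (j + 1))⁻¹ := by
    simp only [ARG_G]; push_cast; ring
  rw [e1, Complex.im_ofReal_mul, Complex.inv_im, ARG_pow_im, Complex.normSq_eq_norm_sq, norm_pow,
    abs_mul, abs_mul, abs_pow, abs_neg, abs_one, one_pow, one_mul, abs_div, abs_neg, abs_mul,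
    abs_of_pos (pow_pos hz _), abs_of_nonneg (by positivity : (0 : ℝ) ≤ j.factorial),
    abs_of_pos (pow_pos (pow_pos hz _) 2)]
  field_simp

theorem ARG_F_abs (κ : ℤ) {y : ℝ} (hy : y ≠ 0) (j : ℕ) (t : ℝ) :
    |ARG_F κ y (j + 1) t| = |(κ : ℝ)| / Real.pi * (j.factorial *
      |Real.sin ((j + 1 : ℕ) * Complex.arg (ARG_z y t))| / ‖ARG_z y t‖ ^ (j + 1)) := by
  unfold ARG_F
  rw [abs_mul, ARG_G_im hy, abs_div, abs_of_pos Real.pi_pos]

/-- `u(z)^κ = ee (F 0)` -/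
theorem ARG_uu (κ : ℤ) (x y : ℤ) (hy : y ≠ 0) :
    uu (⟨x, y⟩ : GI) ^ κ = ee (ARG_F κ y 0 x) := by
  have hyr : (y : ℝ) ≠ 0 := by exact_mod_cast hy
  have hz0 : (⟨x, y⟩ : GI) ≠ 0 := by
    intro h
    have := congrArg Zsqrtd.im h
    simp at this
    exact hy this
  have hzc : GaussianInt.toComplex (⟨x, y⟩ : GI) = ARG_z y x := by
    rw [GaussianInt.toComplex_def]
    simp [ARG_z]
  set z : ℂ := ARG_z y x with hz
  have hzne : z ≠ 0 := ARG_z_ne hyr x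
  have hnorm : ((nm (⟨x, y⟩ : GI) : ℕ) : ℂ) = ((‖z‖ : ℝ) : ℂ) ^ 2 := by
    have h := BAS_norm_sq (⟨x, y⟩ : GI)
    rw [hzc] at h
    have h2 : (((nm (⟨x, y⟩ : GI) : ℕ) : ℝ) : ℂ) = ((‖z‖ ^ 2 : ℝ) : ℂ) := by rw [h]
    push_cast at h2
    exact h2
  have hnz : ((‖z‖ : ℝ) : ℂ) ≠ 0 := by
    rw [Ne, Complex.ofReal_eq_zero, norm_eq_zero]
    exact hzne
  have hu : uu (⟨x, y⟩ : GI) = Complex.exp (2 * (Complex.arg z : ℂ) * Complex.I) := by
    unfold uu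
    rw [hzc, hnorm]
    have h3 : z ^ 2 = ((‖z‖ : ℝ) : ℂ) ^ 2 * Complex.exp (2 * (Complex.arg z : ℂ) * Complex.I) := by
      conv_lhs => rw [← Complex.norm_mul_exp_arg_mul_I z]
      rw [mul_pow, ← Complex.exp_nat_mul]
      push_cast
      ring_nf
    rw [h3]
    field_simp
  rw [hu, ← Complex.exp_int_mul]
  unfold ee ARG_F
  congr 1
  have h4 : (ARG_G y 0 x).im = Complex.arg z := by
    simp only [ARG_G]
    rw [Complex.log_im]
  rw [h4]
  have hpi : (Real.pi : ℂ) ≠ 0 := by exact_mod_cast Real.pi_ne_zero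
  push_cast
  field_simp

/-- variation of the argument -/
theorem ARG_arg_sub {y : ℝ} (hy : y ≠ 0) {a b ρ : ℝ} (hab : a ≤ b) (hρ : 0 < ρ)
    (h : ∀ t, a ≤ t → t ≤ b → ρ ^ 2 ≤ t ^ 2 + y ^ 2) :
    |Complex.arg (ARG_z y b) - Complex.arg (ARG_z y a)| ≤ 1 / ρ * (b - a) := by
  have hd : ∀ t ∈ Set.Icc a b, HasDerivWithinAt (fun t => (ARG_G y 0 t).im)
      ((ARG_G y 1 t).im) (Set.Icc a b) t := by
    intro t _
    exact (Complex.imCLM.hasFDerivAt.comp_hasDerivAt t (ARG_G_deriv hy 0 t)).hasDerivWithinAt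
  have hb : ∀ t ∈ Set.Icc a b, ‖(ARG_G y 1 t).im‖ ≤ 1 / ρ := by
    intro t ht
    rw [Real.norm_eq_abs, ARG_G_im hy]
    have h1 := h t ht.1 ht.2
    rw [← ARG_normSq] at h1
    have h2 : ρ ≤ ‖ARG_z y t‖ := le_of_sq_le_sq h1 (norm_nonneg _)
    have h3 := Real.abs_sin_le_one ((0 + 1 : ℕ) * Complex.arg (ARG_z y t))
    have hpos : 0 < ‖ARG_z y t‖ := hρ.trans_le h2
    rw [Nat.factorial_zero, Nat.cast_one, one_mul, zero_add, pow_one]
    rw [zero_add] at h3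
    have h4 : 1 / ‖ARG_z y t‖ ≤ 1 / ρ := by gcongr
    refine le_trans ?_ h4
    gcongr
    simpa using h3
  have := Convex.norm_image_sub_le_of_norm_hasDerivWithin_le hd hb (convex_Icc a b)
    (Set.left_mem_Icc.2 hab) (Set.right_mem_Icc.2 hab)
  rw [Real.norm_eq_abs, Real.norm_eq_abs, abs_of_nonneg (by linarith : 0 ≤ b - a)] at this
  simp only [ARG_G, Complex.log_im] at this
  exact this

theorem ARG_sin_sub (a b : ℝ) : |Real.sin a - Real.sin b| ≤ |a - b| := by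
  rw [Real.sin_sub_sin, abs_mul, abs_mul, abs_two]
  have h1 : |Real.sin ((a - b) / 2)| ≤ |(a - b) / 2| := Real.abs_sin_le_abs
  have h2 := Real.abs_cos_le_one ((a + b) / 2)
  have h3 : |(a - b) / 2| = |a - b| / 2 := by rw [abs_div, abs_two]
  have h4 : 0 ≤ |Real.sin ((a - b) / 2)| := abs_nonneg _
  calc 2 * |Real.sin ((a - b) / 2)| * |Real.cos ((a + b) / 2)|
      ≤ 2 * |Real.sin ((a - b) / 2)| * 1 := by gcongr
    _ ≤ |a - b| := by rw [h3] at h1; linarith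

end Pool.Agent.MRS
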