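import Mathlib

set_option autoImplicit false

/-! Module ARG, second part: the choice of the parameters. -/

open Finset

namespace Pool.Agent.MRS

theorem ARG_h (m : ℕ) (hm : 1 ≤ m) (A B : ℝ) (hA : 0 < A) (hB : 0 < B) :
    ∃ h : ℝ, 0 < h ∧ h ≤ B ∧ h ^ m ≤ A ∧ 1 / h ^ m ≤ 1 / A + 1 / B ^ m ∧
      ∀ T : ℝ, 0 ≤ T → T ≤ B → T ^ m ≤ A → T ≤ h := by
  have hm0 : m ≠ 0 := by omega
  set a : ℝ := A ^ ((m : ℝ)⁻¹) with ha
  have ha0 : 0 < a := Real.rpow_pos_of_pos hA _
  have ham : a ^ m = A := Real.rpow_inv_natCast_pow hA.le hm0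
  rcases le_total a B with h | h
  · refine ⟨a, ha0, h, ham.le, ?_, ?_⟩
    · rw [ham]
      have : (0 : ℝ) ≤ 1 / B ^ m := by positivity
      linarith
    · intro T hT _ hT2
      rw [← ham] at hT2
      exact le_of_pow_le_pow_left₀ hm0 ha0.le hT2
  · refine ⟨B, hB, le_rfl, ?_, ?_, fun T _ h1 _ => h1⟩
    · rw [← ham]; gcongr
    · have : (0 : ℝ) ≤ 1 / A := by positivity
      linarith

theorem ARG_core (m : ℕ) (hm : 1 ≤ m) : ∃ c4 : ℝ, 4 ≤ c4 ∧ ∀ (P S K R : ℝ) (N : ℕ), R = S ^ 2 →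
    1 ≤ P → c4 * P ^ (3 * m + 3) ≤ S → S ≤ K → K * S ≤ R ^ (m + 1) →
    R / (2 * P) ≤ N → (N : ℝ) ≤ R / P → ∀ L U U' : ℝ,
    L = K / Real.pi * (m.factorial * (1 / (2 * P)) / (2 * R) ^ (m + 1)) →
    U = K / Real.pi * (m.factorial * 1 / (R / 4) ^ (m + 1)) →
    U' = K / Real.pi * ((m + 1).factorial * 1 / (R / 4) ^ (m + 2)) →
    ∃ H : ℕ, 1 ≤ H ∧ H ≤ N ∧ P ≤ H ∧ 2 ^ (m + 1) * (H : ℝ) ^ m * U ≤ 1 / 2 ∧
      P ^ m / (2 ^ (m + 1) * (H : ℝ) ^ m * L) + N * U' * P ^ m / (2 ^ m * (H : ℝ) ^ m * L ^ 2)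
        ≤ N * (1 / P) := by
  set f : ℝ := (m.factorial : ℝ) with hf
  have hf1 : 1 ≤ f := by rw [hf]; exact_mod_cast Nat.factorial_pos m
  set c1 : ℝ := 2 ^ (m + 2) * 4 ^ (m + 1) * f with hc1
  have hc1pos : 0 < c1 := by positivity
  set c2 : ℝ := 2 ^ m * (c1 + 2 ^ m) with hc2
  set c3 : ℝ := 4 * (m + 1) * 4 ^ (2 * m + 4) * (c1 + 2 ^ m) with hc3
  have hc2pos : 0 < c2 := by positivity
  have hc3pos : 0 < c3 := by positivity
  refine ⟨4 + c1 * 2 ^ m + 32 * c2 + 2 * c3, ?_, ?_⟩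
  · have : 0 ≤ c1 * 2 ^ m := by positivity
    linarith
  intro P S K R N hR hP hPS hSK hKS hN1 hN2 L U U' hL hU hU'
  have hpi := Real.pi_pos
  have hpi4 : Real.pi < 4 := Real.pi_lt_four
  have hP0 : 0 < P := by linarith
  have hPp : 1 ≤ P ^ (3 * m + 3) := one_le_pow₀ hP
  have hcc : 0 ≤ c1 * 2 ^ m := by positivity
  -- consequences of the lower bound for `S`
  have hS1 : 4 * P ^ (3 * m + 3) ≤ S := by
    refine le_trans ?_ hPS
    apply mul_le_mul_of_nonneg_right _ (by positivity)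
    linarith
  have hS2 : c1 * 2 ^ m * P ^ (3 * m + 3) ≤ S := by
    refine le_trans ?_ hPS
    apply mul_le_mul_of_nonneg_right _ (by positivity)
    linarith
  have hS3 : 32 * c2 * P ^ (3 * m + 3) ≤ S := by
    refine le_trans ?_ hPS
    apply mul_le_mul_of_nonneg_right _ (by positivity)
    linarith
  have hS4 : 2 * c3 * P ^ (3 * m + 3) ≤ S := by
    refine le_trans ?_ hPS
    apply mul_le_mul_of_nonneg_right _ (by positivity)
    linarith
  have hS0 : 1 ≤ S := by linarith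
  have hSpos : 0 < S := by linarith
  have hKpos : 0 < K := by linarith
  have hRpos : 0 < R := by rw [hR]; positivity
  have hNpos : (0 : ℝ) < N := lt_of_lt_of_le (by positivity) hN1
  -- the real parameter
  set A : ℝ := R ^ (m + 1) / (K * c1) with hA
  have hApos : 0 < A := by positivity
  obtain ⟨h, hh0, hhB, hhA, hhinv, hhT⟩ := ARG_h m hm A (N / P) hApos (by positivity)
  have hh2P : 2 * P ≤ h := by
    apply hhT (2 * P) (by positivity)
    · -- 2 P ≤ N / P
      rw [le_div_iff₀ hP0]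
      have h1 : 4 * P ^ 3 ≤ S := by
        refine le_trans ?_ hS1
        apply mul_le_mul_of_nonneg_left _ (by norm_num)
        exact pow_le_pow_right₀ hP (by omega)
      have h2 : 4 * P ^ 3 ≤ R := by
        rw [hR]
        nlinarith
      have h3 : 2 * P * P ≤ R / (2 * P) := by
        rw [le_div_iff₀ (by positivity)]
        linarith
      linarith
    · -- (2 P)^m ≤ A
      rw [hA, le_div_iff₀ (by positivity)]
      have h1 : (2 * P) ^ m * c1 ≤ S := by
        refine le_trans ?_ hS2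
        have : P ^ m ≤ P ^ (3 * m + 3) := pow_le_pow_right₀ hP (by omega)
        calc (2 * P) ^ m * c1 = c1 * 2 ^ m * P ^ m := by rw [mul_pow]; ring
          _ ≤ c1 * 2 ^ m * P ^ (3 * m + 3) := by gcongr
      calc (2 * P) ^ m * (K * c1) = K * ((2 * P) ^ m * c1) := by ring
        _ ≤ K * S := by gcongr
        _ ≤ R ^ (m + 1) := hKS
  have hh2 : 2 ≤ h := by linarith
  set H : ℕ := ⌊h⌋₊ with hH
  have hHle : (H : ℝ) ≤ h := Nat.floor_le hh0.le
  have hHlt : h < H + 1 := Nat.lt_floor_add_one h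
  have hHhalf : h / 2 ≤ H := by linarith
  have hHpos : (0 : ℝ) < H := by linarith
  have hHP : P ≤ H := by linarith
  refine ⟨H, ?_, ?_, hHP, ?_, ?_⟩
  · have : (1 : ℝ) ≤ H := by linarith
    exact_mod_cast this
  · have : (H : ℝ) ≤ N := by
      refine hHle.trans (hhB.trans ?_)
      exact div_le_self hNpos.le hP
    exact_mod_cast this
  · -- upper condition
    have h1 : (H : ℝ) ^ m ≤ A := le_trans (by gcongr) hhA
    have hUpos : 0 ≤ U := by rw [hU]; positivity
    calc 2 ^ (m + 1) * (H : ℝ) ^ m * U ≤ 2 ^ (m + 1) * A * U := by gcongr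
      _ = 1 / (2 * Real.pi) := by
          rw [hA, hU, hc1, div_pow]
          field_simp
          ring
      _ ≤ 1 / 2 := by
          apply one_div_le_one_div_of_le (by norm_num)
          have := Real.pi_gt_three
          linarith
  · -- lower condition
    have hg : 1 / (H : ℝ) ^ m ≤ 2 ^ m * (c1 * K / R ^ (m + 1) + (2 * P ^ 2) ^ m / R ^ m) := by
      have h1 : (h / 2) ^ m ≤ (H : ℝ) ^ m := by gcongr
      have h2 : 1 / (H : ℝ) ^ m ≤ 1 / (h / 2) ^ m := by gcongr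
      have h3 : 1 / (h / 2) ^ m = 2 ^ m * (1 / h ^ m) := by
        rw [div_pow]; field_simp
      have h4 : 1 / ((N : ℝ) / P) ^ m ≤ (2 * P ^ 2) ^ m / R ^ m := by
        have h5 : 1 / ((N : ℝ) / P) ^ m = (P / N) ^ m := by
          rw [div_pow, div_pow, one_div_div]
        rw [h5, ← div_pow]
        apply pow_le_pow_left₀ (by positivity)
        rw [div_le_div_iff₀ hNpos hRpos]
        rw [div_le_iff₀ (by positivity)] at hN1
        nlinarith
      have h6 : 1 / A = c1 * K / R ^ (m + 1) := by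
        rw [hA]; field_simp
      calc 1 / (H : ℝ) ^ m ≤ 2 ^ m * (1 / h ^ m) := by rw [← h3]; exact h2
        _ ≤ 2 ^ m * (1 / A + 1 / ((N : ℝ) / P) ^ m) := by gcongr
        _ ≤ _ := by rw [h6]; gcongr
    have hHm : (0 : ℝ) < (H : ℝ) ^ m := by positivity
    have hLpos : 0 < L := by rw [hL]; positivity
    have hR1 : 1 ≤ R := by rw [hR]; exact one_le_pow₀ hS0
    -- 1/L
    have hLinv : 1 / L ≤ Real.pi / K * (2 * P * (2 * R) ^ (m + 1)) := by
      have h1 : 1 / L = Real.pi / K * (2 * P * (2 * R) ^ (m + 1)) / f := by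
        rw [hL]; field_simp
      rw [h1]
      exact div_le_self (by positivity) hf1
    -- first term
    have ht1 : P ^ m / (2 ^ (m + 1) * (H : ℝ) ^ m * L) ≤ N * (1 / P) / 2 := by
      have h1 : P ^ m / (2 ^ (m + 1) * (H : ℝ) ^ m * L) =
          P ^ m / 2 ^ (m + 1) * (1 / (H : ℝ) ^ m) * (1 / L) := by
        field_simp
      have h2 : P ^ m / 2 ^ (m + 1) * (1 / (H : ℝ) ^ m) * (1 / L) ≤
          P ^ m / 2 ^ (m + 1) * (2 ^ m * (c1 * K / R ^ (m + 1) + (2 * P ^ 2) ^ m / R ^ m)) *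
            (Real.pi / K * (2 * P * (2 * R) ^ (m + 1))) := by gcongr
      have h3 : P ^ m / 2 ^ (m + 1) * (2 ^ m * (c1 * K / R ^ (m + 1) + (2 * P ^ 2) ^ m / R ^ m)) *
            (Real.pi / K * (2 * P * (2 * R) ^ (m + 1))) =
          2 * Real.pi * 2 ^ m * P ^ (m + 1) * (c1 + 2 ^ m * P ^ (2 * m) * (R / K)) := by
        rw [mul_pow, mul_pow, ← pow_mul]
        field_simp
        ring
      have h4 : R / K ≤ S := by
        rw [div_le_iff₀ hKpos, hR, sq]
        gcongr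
      have h5 : c1 + 2 ^ m * P ^ (2 * m) * (R / K) ≤ (c1 + 2 ^ m) * (P ^ (2 * m) * S) := by
        have h6 : 1 ≤ P ^ (2 * m) * S := one_le_mul_of_one_le_of_one_le (one_le_pow₀ hP) hS0
        calc c1 + 2 ^ m * P ^ (2 * m) * (R / K) ≤ c1 * (P ^ (2 * m) * S) + 2 ^ m * P ^ (2 * m) * S := by
              gcongr
              · exact le_mul_of_one_le_right hc1pos.le h6
          _ = (c1 + 2 ^ m) * (P ^ (2 * m) * S) := by ring
      have h7 : 2 * Real.pi * 2 ^ m * P ^ (m + 1) * (c1 + 2 ^ m * P ^ (2 * m) * (R / K)) ≤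
          8 * c2 * P ^ (3 * m + 1) * S := by
        calc 2 * Real.pi * 2 ^ m * P ^ (m + 1) * (c1 + 2 ^ m * P ^ (2 * m) * (R / K))
            ≤ 2 * 4 * 2 ^ m * P ^ (m + 1) * ((c1 + 2 ^ m) * (P ^ (2 * m) * S)) := by gcongr
          _ = 8 * c2 * P ^ (3 * m + 1) * S := by
              rw [hc2, show 3 * m + 1 = (m + 1) + 2 * m by ring, pow_add P (m + 1)]; ring
      have h8 : 8 * c2 * P ^ (3 * m + 1) * S ≤ N * (1 / P) / 2 := by
        have h9 : R / (4 * P ^ 2) ≤ N * (1 / P) / 2 := by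
          have h10 : R / (4 * P ^ 2) = R / (2 * P) * (1 / P) / 2 := by field_simp; norm_num
          rw [h10]; gcongr
        refine le_trans ?_ h9
        rw [le_div_iff₀ (by positivity), hR]
        calc 8 * c2 * P ^ (3 * m + 1) * S * (4 * P ^ 2)
            = (32 * c2 * P ^ (3 * m + 3)) * S := by
              rw [show 3 * m + 3 = (3 * m + 1) + 2 by ring, pow_add P (3 * m + 1) 2]; ring
          _ ≤ S * S := by gcongr
          _ = S ^ 2 := by ring
      rw [h1]
      exact h2.trans (h3.le.trans (h7.trans h8))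
    -- second term
    have ht2 : N * U' * P ^ m / (2 ^ m * (H : ℝ) ^ m * L ^ 2) ≤ N * (1 / P) / 2 := by
      have hU'pos : 0 ≤ U' := by rw [hU']; positivity
      have h1 : N * U' * P ^ m / (2 ^ m * (H : ℝ) ^ m * L ^ 2) =
          N * P ^ m * ((1 / 2 ^ m) * (1 / (H : ℝ) ^ m)) * (U' * (1 / L) ^ 2) := by
        field_simp
      have h2 : (1 / 2 ^ m) * (1 / (H : ℝ) ^ m) ≤
          c1 * K / R ^ (m + 1) + (2 * P ^ 2) ^ m / R ^ m := by
        calc (1 / 2 ^ m) * (1 / (H : ℝ) ^ m) ≤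
            (1 / 2 ^ m) * (2 ^ m * (c1 * K / R ^ (m + 1) + (2 * P ^ 2) ^ m / R ^ m)) := by gcongr
          _ = _ := by field_simp
      have h3 : U' * (1 / L) ^ 2 ≤ Real.pi * (m + 1) * 4 ^ (2 * m + 4) * P ^ 2 * R ^ m / K := by
        have h4 : U' * (1 / L) ^ 2 = Real.pi * (m + 1) * 4 ^ (2 * m + 4) * P ^ 2 * R ^ m / K / f := by
          rw [hU', hL, Nat.factorial_succ, div_pow, mul_pow, show (2 * m + 4) = (m + 2) + (m + 1) + 1 by ring,
            pow_succ (4 : ℝ) ((m + 2) + (m + 1)), pow_add (4 : ℝ) (m + 2) (m + 1),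
            show (4 : ℝ) ^ (m + 1) = 2 ^ (m + 1) * 2 ^ (m + 1) by
              rw [← mul_pow]; norm_num,
            show R ^ (m + 2) = R ^ m * R ^ 2 by ring, show R ^ (m + 1) = R ^ m * R by ring]
          push_cast
          rw [← hf]
          field_simp
          ring
        rw [h4]
        exact div_le_self (by positivity) hf1
      have h5 : N * P ^ m * ((1 / 2 ^ m) * (1 / (H : ℝ) ^ m)) * (U' * (1 / L) ^ 2) ≤
          N * P ^ m * (c1 * K / R ^ (m + 1) + (2 * P ^ 2) ^ m / R ^ m) *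
            (Real.pi * (m + 1) * 4 ^ (2 * m + 4) * P ^ 2 * R ^ m / K) := by gcongr
      have h6 : N * P ^ m * (c1 * K / R ^ (m + 1) + (2 * P ^ 2) ^ m / R ^ m) *
            (Real.pi * (m + 1) * 4 ^ (2 * m + 4) * P ^ 2 * R ^ m / K) =
          N * (Real.pi * (m + 1) * 4 ^ (2 * m + 4)) * P ^ (m + 2) *
            (c1 / R + 2 ^ m * P ^ (2 * m) / K) := by
        rw [mul_pow, ← pow_mul, pow_succ R m, pow_add P m 2]
        field_simp
      have h7 : c1 / R + 2 ^ m * P ^ (2 * m) / K ≤ (c1 + 2 ^ m) * P ^ (2 * m) / S := by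
        have h8 : c1 / R ≤ c1 * P ^ (2 * m) / S := by
          have h9 : S ≤ R := by rw [hR, sq]; nlinarith
          calc c1 / R ≤ c1 / S := by gcongr
            _ ≤ c1 * P ^ (2 * m) / S := by
              gcongr
              exact le_mul_of_one_le_right hc1pos.le (one_le_pow₀ hP)
        have h10 : 2 ^ m * P ^ (2 * m) / K ≤ 2 ^ m * P ^ (2 * m) / S := by gcongr
        calc c1 / R + 2 ^ m * P ^ (2 * m) / K ≤ c1 * P ^ (2 * m) / S + 2 ^ m * P ^ (2 * m) / S :=
              add_le_add h8 h10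
          _ = (c1 + 2 ^ m) * P ^ (2 * m) / S := by ring
      have h11 : N * (Real.pi * (m + 1) * 4 ^ (2 * m + 4)) * P ^ (m + 2) *
            (c1 / R + 2 ^ m * P ^ (2 * m) / K) ≤ N * (c3 * P ^ (3 * m + 2) / S) := by
        calc N * (Real.pi * (m + 1) * 4 ^ (2 * m + 4)) * P ^ (m + 2) *
              (c1 / R + 2 ^ m * P ^ (2 * m) / K)
            ≤ N * (4 * (m + 1) * 4 ^ (2 * m + 4)) * P ^ (m + 2) *
              ((c1 + 2 ^ m) * P ^ (2 * m) / S) := by gcongr
          _ = N * (c3 * P ^ (3 * m + 2) / S) := by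
              rw [hc3, show 3 * m + 2 = (m + 2) + 2 * m by ring, pow_add P (m + 2)]; ring
      have h12 : N * (c3 * P ^ (3 * m + 2) / S) ≤ N * (1 / P) / 2 := by
        rw [mul_div_assoc (N : ℝ) (1 / P) 2]
        apply mul_le_mul_of_nonneg_left _ hNpos.le
        rw [div_div, div_le_div_iff₀ hSpos (by positivity)]
        calc c3 * P ^ (3 * m + 2) * (P * 2) = 2 * c3 * P ^ (3 * m + 3) := by
              rw [show 3 * m + 3 = (3 * m + 2) + 1 by ring, pow_succ P (3 * m + 2)]; ring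
          _ ≤ S := hS4
          _ = 1 * S := (one_mul S).symm
      rw [h1]
      exact h5.trans (h6.le.trans (h11.trans h12))
    calc _ ≤ N * (1 / P) / 2 + N * (1 / P) / 2 := add_le_add ht1 ht2
      _ = N * (1 / P) := by ring

end Pool.Agent.MRS
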