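import Pool.Agent.MRS.Basic
import Pool.Agent.MRS.Seg
import Pool.Agent.MRS.ArgA
import Pool.Agent.MRS.ArgB

set_option autoImplicit false

/-! Module ARG: exponential sums of `u(x + 2 i + y √-1)^κ` over short segments. -/

open Finset

namespace Pool.Agent.MRS

open Pool.Agent.H33

theorem ARG_large {B e R : ℝ} (hB : 0 ≤ B) (he : 0 < e) (h : B ^ (1 / e) ≤ R) : B ≤ R ^ e := by
  have h1 : (B ^ (1 / e)) ^ e ≤ R ^ e := Real.rpow_le_rpow (Real.rpow_nonneg hB _) h he.le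
  rwa [← Real.rpow_mul hB, one_div_mul_cancel he.ne', Real.rpow_one] at h1

theorem seg_arg (r : ℕ) (hr : 2 ≤ r) : ∃ c1 : ℝ, 0 < c1 ∧ ∀ c0 : ℝ, 0 < c0 → c0 ≤ c1 →
    ∃ c R0 : ℝ, 0 < c ∧ 1 ≤ R0 ∧ ∀ R : ℝ, R0 ≤ R → ∀ κ : ℤ, R ^ (1 / 2 : ℝ) ≤ |(κ : ℝ)| →
    |(κ : ℝ)| ≤ R ^ ((r : ℝ) - 1 / 2) → ∀ x y : ℤ, y ≠ 0 → ∀ N : ℕ, R ^ (1 - c0) / 2 ≤ N →
    (N : ℝ) ≤ R ^ (1 - c0) →
    (∀ t : ℝ, (x : ℝ) ≤ t → t ≤ x + 2 * (N + 1) → (R / 4) ^ 2 ≤ t ^ 2 + (y : ℝ) ^ 2 ∧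
      t ^ 2 + (y : ℝ) ^ 2 ≤ (2 * R) ^ 2) →
    R ^ (-(c0 / 2)) ≤ |Real.sin (r * Complex.arg ((x : ℂ) + (y : ℂ) * Complex.I))| →
    ‖∑ i ∈ range N, uu (⟨x + 2 * i, y⟩ : GI) ^ κ‖ ≤ N * R ^ (-c) := by
  obtain ⟨m, rfl⟩ : ∃ m, r = m + 1 := ⟨r - 1, by omega⟩
  have hm : 1 ≤ m := by omega
  obtain ⟨c4, hc4, hcore⟩ := ARG_core m hm
  have hrr : (0 : ℝ) < ((m + 1 : ℕ) : ℝ) := by positivity
  refine ⟨1 / (12 * ((m + 1 : ℕ) : ℝ)), by positivity, ?_⟩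
  intro c0 hc0 hc01
  set c : ℝ := c0 / 2 ^ (m + 1) with hc
  have hcpos : 0 < c := by positivity
  refine ⟨c, 1 + c4 ^ (1 / (1 / 4 : ℝ)) + (16 * (m + 1) + 1 : ℝ) ^ (1 / (c0 / 2)) + (16 : ℝ) ^ (1 / c),
    hcpos, ?_, ?_⟩
  · have h1 : (0 : ℝ) ≤ c4 ^ (1 / (1 / 4 : ℝ)) := Real.rpow_nonneg (by linarith) _
    have h2 : (0 : ℝ) ≤ (16 * (m + 1) + 1 : ℝ) ^ (1 / (c0 / 2)) := Real.rpow_nonneg (by positivity) _
    have h3 : (0 : ℝ) ≤ (16 : ℝ) ^ (1 / c) := Real.rpow_nonneg (by norm_num) _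
    linarith
  intro R hR0 κ hκ1 hκ2 x y hy N hN1 hN2 ht hsin
  have hq1 : (0 : ℝ) ≤ c4 ^ (1 / (1 / 4 : ℝ)) := Real.rpow_nonneg (by linarith) _
  have hq2 : (0 : ℝ) ≤ (16 * (m + 1) + 1 : ℝ) ^ (1 / (c0 / 2)) := Real.rpow_nonneg (by positivity) _
  have hq3 : (0 : ℝ) ≤ (16 : ℝ) ^ (1 / c) := Real.rpow_nonneg (by norm_num) _
  have hR1 : 1 ≤ R := by linarith
  have hRpos : 0 < R := by linarith
  have hA1 : c4 ≤ R ^ (1 / 4 : ℝ) := ARG_large (by linarith) (by norm_num) (by linarith)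
  have hA2 : (16 * (m + 1) + 1 : ℝ) ≤ R ^ (c0 / 2) :=
    ARG_large (by positivity) (by positivity) (by linarith)
  have hA3 : (16 : ℝ) ≤ R ^ c := ARG_large (by norm_num) hcpos (by linarith)
  set P : ℝ := R ^ c0 with hP
  set S : ℝ := R ^ (1 / 2 : ℝ) with hS
  set K : ℝ := |(κ : ℝ)| with hK
  have hRS : R = S ^ 2 := by
    rw [hS, ← Real.rpow_natCast, ← Real.rpow_mul hRpos.le]; norm_num
  have hP1 : 1 ≤ P := Real.one_le_rpow hR1 hc0.le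
  have hPpos : 0 < P := by linarith
  have hPS : c4 * P ^ (3 * m + 3) ≤ S := by
    have h1 : P ^ (3 * m + 3) ≤ R ^ (1 / 4 : ℝ) := by
      rw [hP, ← Real.rpow_natCast, ← Real.rpow_mul hRpos.le]
      apply Real.rpow_le_rpow_of_exponent_le hR1
      rw [le_div_iff₀ (by positivity)] at hc01
      push_cast at hc01 ⊢
      nlinarith
    calc c4 * P ^ (3 * m + 3) ≤ R ^ (1 / 4 : ℝ) * R ^ (1 / 4 : ℝ) := by
          apply mul_le_mul hA1 h1 (by positivity) (by positivity)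
      _ = S := by rw [hS, ← Real.rpow_add hRpos]; norm_num
  have hKS : K * S ≤ R ^ (m + 1) := by
    calc K * S ≤ R ^ (((m + 1 : ℕ) : ℝ) - 1 / 2) * R ^ (1 / 2 : ℝ) := by
          apply mul_le_mul_of_nonneg_right hκ2 (by positivity)
      _ = R ^ (m + 1) := by
          rw [← Real.rpow_add hRpos, sub_add_cancel, Real.rpow_natCast]
  have hRP : R ^ (1 - c0) = R / P := by
    rw [Real.rpow_sub hRpos, Real.rpow_one]
  rw [hRP] at hN1 hN2
  have hN1' : R / (2 * P) ≤ N := by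
    refine le_trans (le_of_eq ?_) hN1
    field_simp
  obtain ⟨H, hH1, hHN, hHP, hup, hlo⟩ := hcore P S K R N hRS hP1 hPS hκ1 hKS hN1' hN2 _ _ _ rfl rfl rfl
  have hHpos : (0 : ℝ) < H := by linarith
  have hKpos : 0 < K := by
    have : 0 < S := by positivity
    linarith
  have hpi := Real.pi_pos
  have hyr : (y : ℝ) ≠ 0 := by exact_mod_cast hy
  have hN1n : 1 ≤ N := hH1.trans hHN
  have hN1r : (1 : ℝ) ≤ N := by exact_mod_cast hN1n
  -- norms on the segment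
  have hnorm : ∀ t : ℝ, (x : ℝ) ≤ t → t ≤ x + 2 * (N + 1) →
      R / 4 ≤ ‖ARG_z y t‖ ∧ ‖ARG_z y t‖ ≤ 2 * R := by
    intro t h1 h2
    obtain ⟨h3, h4⟩ := ht t h1 h2
    rw [← ARG_normSq] at h3 h4
    exact ⟨le_of_sq_le_sq h3 (norm_nonneg _), le_of_sq_le_sq h4 (by positivity)⟩
  -- the sine on the segment
  have hsin2 : ∀ t : ℝ, (x : ℝ) ≤ t → t ≤ x + 2 * (N + 1) →
      1 / (2 * P) ≤ |Real.sin (((m + 1 : ℕ) : ℝ) * Complex.arg (ARG_z y t))| := by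
    intro t h1 h2
    have h3 : |Complex.arg (ARG_z y t) - Complex.arg (ARG_z y x)| ≤ 1 / (R / 4) * (t - x) := by
      apply ARG_arg_sub hyr h1 (by positivity)
      intro t' h4 h5
      exact (ht t' h4 (h5.trans h2)).1
    have h4 : 1 / (R / 4) * (t - x) ≤ 16 / P := by
      have h5 : t - x ≤ 4 * (R / P) := by linarith
      calc 1 / (R / 4) * (t - x) ≤ 1 / (R / 4) * (4 * (R / P)) := by gcongr
        _ = 16 / P := by field_simp; norm_num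
    have h6 := ARG_sin_sub (((m + 1 : ℕ) : ℝ) * Complex.arg (ARG_z y x))
      (((m + 1 : ℕ) : ℝ) * Complex.arg (ARG_z y t))
    rw [← mul_sub, abs_mul, abs_of_pos hrr, abs_sub_comm (Complex.arg (ARG_z y x))] at h6
    have h7 : ((m + 1 : ℕ) : ℝ) * |Complex.arg (ARG_z y t) - Complex.arg (ARG_z y x)| ≤
        ((m + 1 : ℕ) : ℝ) * (16 / P) := by
      apply mul_le_mul_of_nonneg_left (h3.trans h4) hrr.le
    have h8 : R ^ (-(c0 / 2)) ≤ |Real.sin (((m + 1 : ℕ) : ℝ) * Complex.arg (ARG_z y x))| := by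
      have h9 : ARG_z y x = (x : ℂ) + (y : ℂ) * Complex.I := by
        unfold ARG_z; push_cast; rfl
      rw [h9]; exact hsin
    -- δ = R^(-c0/2), δ ^ 2 = 1 / P
    have hδP : R ^ (-(c0 / 2)) = R ^ (c0 / 2) / P := by
      rw [hP, ← Real.rpow_sub hRpos]
      congr 1
      ring
    rw [hδP] at h8
    have h10 : (16 * (m + 1) + 1 : ℝ) / P ≤ R ^ (c0 / 2) / P := by gcongr
    have h11 : |Real.sin (((m + 1 : ℕ) : ℝ) * Complex.arg (ARG_z y x))| ≤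
        |Real.sin (((m + 1 : ℕ) : ℝ) * Complex.arg (ARG_z y t))| + ((m + 1 : ℕ) : ℝ) * (16 / P) := by
      have h12 := abs_sub_abs_le_abs_sub (Real.sin (((m + 1 : ℕ) : ℝ) * Complex.arg (ARG_z y x)))
        (Real.sin (((m + 1 : ℕ) : ℝ) * Complex.arg (ARG_z y t)))
      linarith
    have h13 : (16 * (m + 1) + 1 : ℝ) / P = ((m + 1 : ℕ) : ℝ) * (16 / P) + 1 / P := by
      push_cast; ring
    have h14 : 1 / (2 * P) ≤ 1 / P := by
      apply one_div_le_one_div_of_le hPpos; linarith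
    linarith
  have hHE : 1 ≤ (H : ℝ) * (1 / P) := by
    rw [mul_one_div, le_div_iff₀ hPpos]; linarith
  have hseg := segment m (ARG_F κ y) (ARG_F_deriv κ hyr) (x : ℝ) 2 (by norm_num) (N := N) (H := H)
    (Y := P) (E := 1 / P) (L := K / Real.pi * (m.factorial * (1 / (2 * P)) / (2 * R) ^ (m + 1)))
    (U := K / Real.pi * (m.factorial * 1 / (R / 4) ^ (m + 1)))
    (U' := K / Real.pi * ((m + 1).factorial * 1 / (R / 4) ^ (m + 2)))
    hP1 (by positivity) (by rw [div_le_one hPpos]; exact hP1) hH1 hHN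
    (by rw [mul_one_div_cancel hPpos.ne']) hHE (by positivity) ?_ ?_ hup hlo
  · have hsum : ∑ i ∈ range N, uu (⟨x + 2 * i, y⟩ : GI) ^ κ =
        ∑ i ∈ range N, ee (ARG_F κ y 0 ((x : ℝ) + 2 * i)) := by
      apply sum_congr rfl
      intro i _
      rw [ARG_uu κ (x + 2 * i) y hy]
      push_cast
      rfl
    rw [hsum]
    refine hseg.trans ?_
    have h1 : (1 / P) ^ ((1 : ℝ) / 2 ^ m) = R ^ (-c) * R ^ (-c) := by
      rw [one_div P, ← Real.rpow_neg_one, hP, ← Real.rpow_mul hRpos.le, ← Real.rpow_mul hRpos.le,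
        ← Real.rpow_add hRpos]
      congr 1
      rw [hc, pow_succ]
      field_simp
      ring
    have h2 : 16 * R ^ (-c) ≤ 1 := by
      rw [Real.rpow_neg hRpos.le, ← div_eq_mul_inv, div_le_one (by positivity)]
      exact hA3
    rw [h1]
    calc 16 * (N : ℝ) * (R ^ (-c) * R ^ (-c)) = (16 * R ^ (-c)) * (N * R ^ (-c)) := by ring
      _ ≤ 1 * (N * R ^ (-c)) := by gcongr
      _ = N * R ^ (-c) := one_mul _
  · intro t h1 h2
    obtain ⟨h3, h4⟩ := hnorm t h1 h2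
    have h5 := hsin2 t h1 h2
    have hzpos : 0 < ‖ARG_z y t‖ := by
      have : 0 < R / 4 := by positivity
      linarith
    rw [ARG_F_abs κ hyr]
    constructor
    · gcongr
    · have := Real.abs_sin_le_one (((m + 1 : ℕ) : ℝ) * Complex.arg (ARG_z y t))
      gcongr
  · intro t h1 h2
    obtain ⟨h3, h4⟩ := hnorm t h1 h2
    have hzpos : 0 < ‖ARG_z y t‖ := by
      have : 0 < R / 4 := by positivity
      linarith
    rw [ARG_F_abs κ hyr]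
    have := Real.abs_sin_le_one (((m + 1 + 1 : ℕ) : ℝ) * Complex.arg (ARG_z y t))
    gcongr

/-- `max(|sin rθ|, |sin (r+1)θ|) ≥ |sin θ|/2`: use `seg_arg` for `r` or `r + 1` -/
theorem seg_any (C : ℝ) : ∃ c0 c R0 : ℝ, 0 < c0 ∧ c0 ≤ 1 / 4 ∧ 0 < c ∧ 1 ≤ R0 ∧ ∀ R : ℝ, R0 ≤ R →
    ∀ κ : ℤ, R ^ (1 / 2 : ℝ) ≤ |(κ : ℝ)| → |(κ : ℝ)| ≤ R ^ C →
    ∀ x y : ℤ, 8 * R ^ (1 - c0 / 2) ≤ |(y : ℝ)| → ∀ N : ℕ, R ^ (1 - c0) / 2 ≤ N →
    (N : ℝ) ≤ R ^ (1 - c0) →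
    (∀ t : ℝ, (x : ℝ) ≤ t → t ≤ x + 2 * (N + 1) → (R / 4) ^ 2 ≤ t ^ 2 + (y : ℝ) ^ 2 ∧
      t ^ 2 + (y : ℝ) ^ 2 ≤ (2 * R) ^ 2) →
    ‖∑ i ∈ range N, uu (⟨x + 2 * i, y⟩ : GI) ^ κ‖ ≤ N * R ^ (-c) := by
  obtain ⟨r, hr2, hrC⟩ : ∃ r : ℕ, 2 ≤ r ∧ C + 1 / 2 ≤ r := by
    obtain ⟨n, hn⟩ := exists_nat_ge (C + 1 / 2)
    refine ⟨n + 2, by omega, ?_⟩
    push_cast
    linarith
  obtain ⟨c1, hc1, h1⟩ := seg_arg r hr2
  obtain ⟨c2, hc2, h2⟩ := seg_arg (r + 1) (by omega)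
  set c0 : ℝ := min (min c1 c2) (1 / 4) with hc0
  have hc0pos : 0 < c0 := lt_min (lt_min hc1 hc2) (by norm_num)
  have hc0c1 : c0 ≤ c1 := (min_le_left _ _).trans (min_le_left _ _)
  have hc0c2 : c0 ≤ c2 := (min_le_left _ _).trans (min_le_right _ _)
  obtain ⟨d1, R1, hd1, hR1, h1'⟩ := h1 c0 hc0pos hc0c1
  obtain ⟨d2, R2, hd2, hR2, h2'⟩ := h2 c0 hc0pos hc0c2
  refine ⟨c0, min d1 d2, max R1 R2, hc0pos, min_le_right _ _, lt_min hd1 hd2,
    hR1.trans (le_max_left _ _), ?_⟩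
  intro R hR κ hκ1 hκ2 x y hy N hN1 hN2 ht
  have hRR1 : R1 ≤ R := (le_max_left _ _).trans hR
  have hRR2 : R2 ≤ R := (le_max_right _ _).trans hR
  have hRone : 1 ≤ R := hR1.trans hRR1
  have hRpos : 0 < R := by linarith
  have hy0 : y ≠ 0 := by
    rintro rfl
    have : 0 < R ^ (1 - c0 / 2) := Real.rpow_pos_of_pos hRpos _
    simp only [Int.cast_zero, abs_zero] at hy
    linarith
  set θ : ℝ := Complex.arg ((x : ℂ) + (y : ℂ) * Complex.I) with hθ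
  have hkey : 2 * R ^ (-(c0 / 2)) ≤ |Real.sin (r * θ)| ∨
      2 * R ^ (-(c0 / 2)) ≤ |Real.sin ((r + 1 : ℕ) * θ)| := by
    by_contra hcon
    push Not at hcon
    obtain ⟨g1, g2⟩ := hcon
    have hs : |Real.sin θ| ≤ |Real.sin ((r + 1 : ℕ) * θ)| + |Real.sin (r * θ)| := by
      have e1 : Real.sin θ = Real.sin ((r + 1 : ℕ) * θ) * Real.cos (r * θ) -
          Real.cos ((r + 1 : ℕ) * θ) * Real.sin (r * θ) := by
        rw [← Real.sin_sub]
        congr 1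
        push_cast
        ring
      rw [e1]
      refine (abs_sub _ _).trans ?_
      rw [abs_mul, abs_mul]
      have h3 := Real.abs_cos_le_one (r * θ)
      have h4 := Real.abs_cos_le_one ((r + 1 : ℕ) * θ)
      have h5 := abs_nonneg (Real.sin ((r + 1 : ℕ) * θ))
      have h6 := abs_nonneg (Real.sin (r * θ))
      nlinarith
    have hsy : |(y : ℝ)| = ‖(x : ℂ) + (y : ℂ) * Complex.I‖ * |Real.sin θ| := by
      have h3 := ARG_pow_im ((x : ℂ) + (y : ℂ) * Complex.I) 1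
      rw [pow_one, pow_one, Nat.cast_one, one_mul] at h3
      have h4 : ((x : ℂ) + (y : ℂ) * Complex.I).im = y := by simp
      rw [h4] at h3
      rw [h3, abs_mul, abs_of_nonneg (norm_nonneg _)]
    have hz : ‖(x : ℂ) + (y : ℂ) * Complex.I‖ ≤ 2 * R := by
      have h3 := (ht x le_rfl (by have : (0 : ℝ) ≤ N := Nat.cast_nonneg N; linarith)).2
      have h4 := ARG_normSq (y : ℝ) (x : ℝ)
      have h5 : ARG_z (y : ℝ) (x : ℝ) = (x : ℂ) + (y : ℂ) * Complex.I := by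
        unfold ARG_z; push_cast; rfl
      rw [h5] at h4
      rw [← h4] at h3
      exact le_of_sq_le_sq h3 (by positivity)
    have h7 : R ^ (1 - c0 / 2) = R * R ^ (-(c0 / 2)) := by
      rw [sub_eq_add_neg, Real.rpow_add hRpos, Real.rpow_one]
    rw [h7] at hy
    have h8 : |Real.sin θ| < 4 * R ^ (-(c0 / 2)) := by linarith
    have h9 : |(y : ℝ)| ≤ 2 * R * |Real.sin θ| := by
      rw [hsy]
      exact mul_le_mul_of_nonneg_right hz (abs_nonneg _)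
    have h10 : 2 * R * |Real.sin θ| < 2 * R * (4 * R ^ (-(c0 / 2))) := by
      apply mul_lt_mul_of_pos_left h8 (by positivity)
    linarith
  have hpw : 0 < R ^ (-(c0 / 2)) := Real.rpow_pos_of_pos hRpos _
  have hfin : ∀ d : ℝ, min d1 d2 ≤ d → (N : ℝ) * R ^ (-d) ≤ N * R ^ (-(min d1 d2)) := by
    intro d hd
    apply mul_le_mul_of_nonneg_left _ (by positivity)
    exact Real.rpow_le_rpow_of_exponent_le hRone (by linarith)
  rcases hkey with h | h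
  · refine (h1' R hRR1 κ hκ1 ?_ x y hy0 N hN1 hN2 ht (by linarith)).trans (hfin d1 (min_le_left _ _))
    refine hκ2.trans (Real.rpow_le_rpow_of_exponent_le hRone (by linarith))
  · refine (h2' R hRR2 κ hκ1 ?_ x y hy0 N hN1 hN2 ht (by linarith)).trans (hfin d2 (min_le_right _ _))
    refine hκ2.trans (Real.rpow_le_rpow_of_exponent_le hRone ?_)
    push_cast
    linarith

end Pool.Agent.MRS
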