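import Pool.Agent.MRS.LCount
import Pool.Agent.MRS.Arg

set_option autoImplicit false

/-! Module STW: power saving for `∑_{N(z) ≤ Y} u(z)^κ`. -/

open Finset

namespace Pool.Agent.MRS

/-- cutting a sum into blocks -/
theorem STW_cut (N : ℕ) (hN : 1 ≤ N) (B : ℝ) (hB0 : 0 ≤ B) (m : ℕ) : ∀ g : ℕ → ℂ,
    (∀ i, ‖g i‖ ≤ 1) → (∀ j, j + N ≤ m → ‖∑ i ∈ range N, g (j + i)‖ ≤ B) →
    ‖∑ i ∈ range m, g i‖ ≤ (m : ℝ) / N * B + N := by
  have hN' : (0 : ℝ) < N := by exact_mod_cast hN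
  induction m using Nat.strong_induction_on with
  | _ m ih =>
    intro g hg hB
    rcases lt_or_ge m N with h | h
    · have h1 : ‖∑ i ∈ range m, g i‖ ≤ m := by
        calc ‖∑ i ∈ range m, g i‖ ≤ ∑ i ∈ range m, ‖g i‖ := norm_sum_le _ _
          _ ≤ ∑ i ∈ range m, (1 : ℝ) := Finset.sum_le_sum (fun i _ => hg i)
          _ = m := by simp
      have h2 : (m : ℝ) ≤ N := by exact_mod_cast h.le
      have h3 : 0 ≤ (m : ℝ) / N * B := by positivity
      linarith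
    · have h1 := ih (m - N) (by omega) (fun i => g (N + i)) (fun i => hg _) (by
        intro j hj
        have h2 := hB (N + j) (by omega)
        have e : ∀ i, g (N + (j + i)) = g (N + j + i) := fun i => by rw [add_assoc]
        simp only [e]
        exact h2)
      have h2 := hB 0 (by omega)
      simp only [zero_add] at h2
      have e : ∑ i ∈ range m, g i = ∑ i ∈ range N, g i + ∑ i ∈ range (m - N), g (N + i) := by
        have : m = N + (m - N) := by omega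
        conv_lhs => rw [this]
        rw [Finset.sum_range_add]
      rw [e]
      have h3 : ((m - N : ℕ) : ℝ) = (m : ℝ) - N := by rw [Nat.cast_sub h]
      rw [h3] at h1
      calc ‖∑ i ∈ range N, g i + ∑ i ∈ range (m - N), g (N + i)‖
          ≤ ‖∑ i ∈ range N, g i‖ + ‖∑ i ∈ range (m - N), g (N + i)‖ := norm_add_le _ _
        _ ≤ B + (((m : ℝ) - N) / N * B + N) := add_le_add h2 h1
        _ = (m : ℝ) / N * B + N := by field_simp; ring

/-- one row -/
theorem STW_row (R : ℝ) (hR : 8 ≤ R) (κ y : ℤ) (N : ℕ) (hN : 1 ≤ N) (B : ℝ) (hB0 : 0 ≤ B)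
    (hy : y % 2 = 0)
    (hseg : ∀ x : ℤ, (∀ t : ℝ, (x : ℝ) ≤ t → t ≤ x + 2 * (N + 1) →
      (R / 4) ^ 2 ≤ t ^ 2 + (y : ℝ) ^ 2 ∧ t ^ 2 + (y : ℝ) ^ 2 ≤ (2 * R) ^ 2) →
      ‖∑ i ∈ range N, uu (⟨x + 2 * i, y⟩ : GI) ^ κ‖ ≤ B) :
    ‖∑ z ∈ (ann (R ^ 2 / 4) (R ^ 2)).filter (fun z : GI => 0 < z.re ∧ z.im = y), uu z ^ κ‖ ≤
      R / N * B + N := by
  classical
  set a : ℕ := ⌊√(R ^ 2 / 4 - (y : ℝ) ^ 2)⌋₊ with ha
  set b : ℕ := ⌊√(R ^ 2 - (y : ℝ) ^ 2)⌋₊ with hb
  set k1 := (a + 1) / 2 with hk1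
  set k2 := (b + 1) / 2 with hk2
  have hsum : ∑ z ∈ (ann (R ^ 2 / 4) (R ^ 2)).filter (fun z : GI => 0 < z.re ∧ z.im = y), uu z ^ κ =
      ∑ k ∈ Finset.Ico k1 k2, uu (⟨2 * (k : ℤ) + 1, y⟩ : GI) ^ κ := by
    symm
    apply Finset.sum_nbij (fun k : ℕ => (⟨2 * (k : ℤ) + 1, y⟩ : GI))
    · intro k hk
      rw [Finset.mem_Ico] at hk
      rw [Finset.mem_filter, mem_ann, nm_real]
      have e1 : a < 2 * k + 1 := by omega
      have e2 : 2 * k + 1 ≤ b := by omega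
      have e3 : √(R ^ 2 / 4 - (y : ℝ) ^ 2) < ((2 * k + 1 : ℕ) : ℝ) :=
        (Nat.floor_lt (Real.sqrt_nonneg _)).mp e1
      have e4 : ((2 * k + 1 : ℕ) : ℝ) ≤ √(R ^ 2 - (y : ℝ) ^ 2) :=
        (Nat.le_floor_iff (Real.sqrt_nonneg _)).mp e2
      have hpos : (0 : ℝ) < ((2 * k + 1 : ℕ) : ℝ) := by positivity
      rw [Real.sqrt_lt' hpos] at e3
      rw [Real.le_sqrt' hpos] at e4
      push_cast at e3 e4 ⊢
      refine ⟨⟨⟨?_, ?_⟩, ?_, ?_⟩, ?_, rfl⟩
      · show (2 * (k : ℤ) + 1) % 2 = 1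
        omega
      · exact hy
      · linarith
      · linarith
      · show 0 < 2 * (k : ℤ) + 1
        omega
    · intro k _ l _ hkl
      have := congrArg Zsqrtd.re hkl
      simp at this
      exact this
    · intro z hz
      rw [Finset.mem_coe, Finset.mem_filter, mem_ann, nm_real] at hz
      obtain ⟨⟨⟨h1, h2⟩, h3, h4⟩, h5, h6⟩ := hz
      refine ⟨(z.re / 2).toNat, ?_, ?_⟩
      · rw [Finset.mem_coe, Finset.mem_Ico]
        have hpos : (0 : ℝ) < (z.re : ℝ) := by exact_mod_cast h5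
        have hzc : ((z.re.toNat : ℕ) : ℝ) = (z.re : ℝ) := by
          have : ((z.re.toNat : ℕ) : ℤ) = z.re := Int.toNat_of_nonneg h5.le
          exact_mod_cast this
        rw [h6] at h3 h4
        have e3 : a < z.re.toNat := by
          rw [ha, Nat.floor_lt (Real.sqrt_nonneg _), hzc, Real.sqrt_lt' hpos]
          linarith
        have e4 : z.re.toNat ≤ b := by
          rw [hb, Nat.le_floor_iff (Real.sqrt_nonneg _), hzc, Real.le_sqrt' hpos]
          linarith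
        omega
      · apply Zsqrtd.ext
        · show 2 * (((z.re / 2).toNat : ℕ) : ℤ) + 1 = z.re
          omega
        · exact h6.symm
    · intro k _
      rfl
  rw [hsum, Finset.sum_Ico_eq_sum_range]
  have hcut := STW_cut N hN B hB0 (k2 - k1)
    (fun i => uu (⟨2 * ((k1 + i : ℕ) : ℤ) + 1, y⟩ : GI) ^ κ) (fun i => norm_uu_zpow_le _ _) (by
      intro j hj
      have h1 := hseg (2 * ((k1 + j : ℕ) : ℤ) + 1) (by
        intro t ht1 ht2
        have e1 : a < 2 * (k1 + j) + 1 := by omega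
        have e2 : 2 * (k1 + j + N - 1) + 1 ≤ b := by omega
        have e3 : √(R ^ 2 / 4 - (y : ℝ) ^ 2) < ((2 * (k1 + j) + 1 : ℕ) : ℝ) :=
          (Nat.floor_lt (Real.sqrt_nonneg _)).mp e1
        have e4 : ((2 * (k1 + j + N - 1) + 1 : ℕ) : ℝ) ≤ √(R ^ 2 - (y : ℝ) ^ 2) :=
          (Nat.le_floor_iff (Real.sqrt_nonneg _)).mp e2
        have hpos : (0 : ℝ) < ((2 * (k1 + j) + 1 : ℕ) : ℝ) := by positivity
        have hpos2 : (0 : ℝ) < ((2 * (k1 + j + N - 1) + 1 : ℕ) : ℝ) := by positivity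
        rw [Real.sqrt_lt' hpos] at e3
        rw [Real.le_sqrt' hpos2] at e4
        have e5 : ((2 * (k1 + j + N - 1) + 1 : ℕ) : ℝ) = 2 * ((k1 : ℝ) + j + N - 1) + 1 := by
          have : 1 ≤ k1 + j + N := by omega
          push_cast [Nat.cast_sub this]
          ring
        have e6 : ((2 * (k1 + j) + 1 : ℕ) : ℝ) = 2 * ((k1 : ℝ) + j) + 1 := by push_cast; ring
        rw [e5] at e4 hpos2
        rw [e6] at e3 hpos
        push_cast at ht1 ht2
        set x : ℝ := 2 * ((k1 : ℝ) + j) + 1 with hx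
        have hxt : x ≤ t := by linarith
        have hxN : 2 * ((k1 : ℝ) + j + N - 1) + 1 = x + 2 * N - 2 := by rw [hx]; ring
        rw [hxN] at e4 hpos2
        have htN : t ≤ x + 2 * N - 2 + 4 := by linarith
        have hw : x + 2 * N - 2 ≤ R := by
          have : (x + 2 * N - 2) ^ 2 ≤ R ^ 2 := by nlinarith [sq_nonneg (y : ℝ)]
          exact le_of_sq_le_sq this (by linarith)
        have ht0 : 0 ≤ t := by linarith
        constructor
        · nlinarith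
        · have h7 : t ^ 2 ≤ (x + 2 * N - 2 + 4) ^ 2 := by
            apply pow_le_pow_left₀ ht0 htN
          nlinarith)
      have e : ∀ i : ℕ, (⟨2 * ((k1 + j : ℕ) : ℤ) + 1 + 2 * i, y⟩ : GI) =
          ⟨2 * ((k1 + (j + i) : ℕ) : ℤ) + 1, y⟩ := by
        intro i
        apply Zsqrtd.ext
        · simp only []
          push_cast
          ring
        · rfl
      simp only [e] at h1
      exact h1)
  refine hcut.trans ?_
  have hbR : (b : ℝ) ≤ R := by
    have h1 : (b : ℝ) ≤ √(R ^ 2 - (y : ℝ) ^ 2) := Nat.floor_le (Real.sqrt_nonneg _)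
    have h2 : √(R ^ 2 - (y : ℝ) ^ 2) ≤ √(R ^ 2) := Real.sqrt_le_sqrt (by nlinarith [sq_nonneg (y : ℝ)])
    rw [Real.sqrt_sq (by linarith)] at h2
    linarith
  have hm : ((k2 - k1 : ℕ) : ℝ) ≤ R := by
    have h1 : k2 - k1 ≤ b := by omega
    have h2 : ((k2 - k1 : ℕ) : ℝ) ≤ (b : ℝ) := by exact_mod_cast h1
    linarith
  have hN' : (0 : ℝ) < N := by exact_mod_cast hN
  gcongr

theorem annulus (C : ℝ) : ∃ c R0 : ℝ, 0 < c ∧ 1 ≤ R0 ∧ ∀ R : ℝ, R0 ≤ R → ∀ κ : ℤ,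
    R ^ (1 / 2 : ℝ) ≤ |(κ : ℝ)| → |(κ : ℝ)| ≤ R ^ C →
    ‖∑ z ∈ ann (R ^ 2 / 4) (R ^ 2), uu z ^ κ‖ ≤ R ^ (2 - c) := by
  classical
  obtain ⟨c0, c1, R1, hc0, hc04, hc1, hR1, hseg⟩ := seg_any C
  set c : ℝ := min c1 (c0 / 2) / 2 with hc
  have hcpos : 0 < c := by
    have : 0 < min c1 (c0 / 2) := lt_min hc1 (by linarith)
    linarith
  have hcc1 : 2 * c ≤ c1 := by
    have : min c1 (c0 / 2) ≤ c1 := min_le_left _ _
    linarith
  have hcc0 : 2 * c ≤ c0 / 2 := by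
    have : min c1 (c0 / 2) ≤ c0 / 2 := min_le_right _ _
    linarith
  have hev : ∀ᶠ R : ℝ in Filter.atTop, 64 ≤ R ^ c := by
    exact (tendsto_rpow_atTop hcpos).eventually_ge_atTop 64
  have hev2 : ∀ᶠ R : ℝ in Filter.atTop, 2 ≤ R ^ (1 - c0) := by
    exact (tendsto_rpow_atTop (by linarith)).eventually_ge_atTop 2
  obtain ⟨R2, hR2⟩ := Filter.eventually_atTop.mp (hev.and hev2)
  refine ⟨c, max (max R1 R2) 8, hcpos, ?_, ?_⟩
  · exact le_trans (by norm_num) (le_max_right _ _)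
  intro R hR κ hκ1 hκ2
  have hRR1 : R1 ≤ R := ((le_max_left _ _).trans (le_max_left _ _)).trans hR
  have hRR2 : R2 ≤ R := ((le_max_right _ _).trans (le_max_left _ _)).trans hR
  have hR8 : 8 ≤ R := (le_max_right _ _).trans hR
  have hR0 : 0 < R := by linarith
  have hR1' : 1 ≤ R := by linarith
  obtain ⟨h64, h2⟩ := hR2 R hRR2
  set N : ℕ := ⌊R ^ (1 - c0)⌋₊ with hN
  have hN1 : 1 ≤ N := Nat.le_floor (by push_cast; linarith)
  have hNle : (N : ℝ) ≤ R ^ (1 - c0) := Nat.floor_le (by positivity)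
  have hNge : R ^ (1 - c0) / 2 ≤ N := by
    have := Nat.lt_floor_add_one (R ^ (1 - c0))
    linarith
  have hN0 : (0 : ℝ) < N := by exact_mod_cast hN1
  set A := ann (R ^ 2 / 4) (R ^ 2) with hA
  -- rows
  have hrow_big : ∀ y : ℤ, y % 2 = 0 → 8 * R ^ (1 - c0 / 2) ≤ |(y : ℝ)| →
      ‖∑ z ∈ A.filter (fun z : GI => 0 < z.re ∧ z.im = y), uu z ^ κ‖ ≤
        R ^ (1 - c1) + R ^ (1 - c0) := by
    intro y hy hyb
    have h := STW_row R hR8 κ y N hN1 (N * R ^ (-c1)) (by positivity) hy (by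
      intro x hx
      exact hseg R hRR1 κ hκ1 hκ2 x y hyb N hNge hNle hx)
    refine h.trans ?_
    have e : R / N * (N * R ^ (-c1)) = R ^ (1 - c1) := by
      have : R ^ (1 - c1) = R * R ^ (-c1) := by
        rw [sub_eq_add_neg, Real.rpow_add hR0, Real.rpow_one]
      rw [this]
      field_simp
    rw [e]
    linarith
  have hrow_any : ∀ y : ℤ,
      ‖∑ z ∈ A.filter (fun z : GI => 0 < z.re ∧ z.im = y), uu z ^ κ‖ ≤ R := by
    intro y
    calc ‖∑ z ∈ A.filter (fun z : GI => 0 < z.re ∧ z.im = y), uu z ^ κ‖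
        ≤ ∑ z ∈ A.filter (fun z : GI => 0 < z.re ∧ z.im = y), ‖uu z ^ κ‖ := norm_sum_le _ _
      _ ≤ ∑ z ∈ A.filter (fun z : GI => 0 < z.re ∧ z.im = y), (1 : ℝ) :=
          Finset.sum_le_sum (fun z _ => norm_uu_zpow_le z κ)
      _ = ((A.filter (fun z : GI => 0 < z.re ∧ z.im = y)).card : ℝ) := by simp
      _ ≤ (((Finset.Icc 1 ⌊R⌋₊)).card : ℝ) := by
          have : (A.filter (fun z : GI => 0 < z.re ∧ z.im = y)).card ≤
              (Finset.Icc 1 ⌊R⌋₊).card := by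
            apply Finset.card_le_card_of_injOn (fun z : GI => z.re.toNat)
            · intro z hz
              rw [Finset.mem_coe, Finset.mem_filter, hA, mem_ann, nm_real] at hz
              obtain ⟨⟨_, _, h4⟩, h5, _⟩ := hz
              rw [Finset.mem_coe, Finset.mem_Icc]
              have hpos : 1 ≤ z.re.toNat := by omega
              refine ⟨hpos, ?_⟩
              apply Nat.le_floor
              have hzc : ((z.re.toNat : ℕ) : ℝ) = (z.re : ℝ) := by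
                have : ((z.re.toNat : ℕ) : ℤ) = z.re := Int.toNat_of_nonneg h5.le
                exact_mod_cast this
              rw [hzc]
              have : (z.re : ℝ) ^ 2 ≤ R ^ 2 := by nlinarith [sq_nonneg (z.im : ℝ)]
              exact le_of_sq_le_sq this hR0.le
            · intro z hz w hw hzw
              rw [Finset.mem_coe, Finset.mem_filter] at hz hw
              obtain ⟨_, h5, h6⟩ := hz
              obtain ⟨_, h7, h8⟩ := hw
              simp only at hzw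
              apply Zsqrtd.ext
              · omega
              · rw [h6, h8]
          exact_mod_cast this
      _ ≤ R := by
          rw [Nat.card_Icc, Nat.add_sub_cancel]
          exact Nat.floor_le hR0.le
  -- the sum over the half plane
  set Ap := A.filter (fun z : GI => 0 < z.re) with hAp
  have hmem_im : ∀ z ∈ Ap, z.im ∈ Finset.Icc (-(⌊R⌋₊ : ℤ)) (⌊R⌋₊ : ℤ) ∧ z.im % 2 = 0 := by
    intro z hz
    rw [hAp, Finset.mem_filter, hA, mem_ann, nm_real] at hz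
    obtain ⟨⟨h1, _, h4⟩, _⟩ := hz
    refine ⟨?_, h1.2⟩
    have h5 : (z.im : ℝ) ^ 2 ≤ R ^ 2 := by nlinarith [sq_nonneg (z.re : ℝ)]
    have h6 : |(z.im : ℝ)| ≤ R := by
      rw [← sq_abs (z.im : ℝ)] at h5
      exact le_of_sq_le_sq h5 hR0.le
    have h7 : z.im.natAbs ≤ ⌊R⌋₊ := by
      apply Nat.le_floor
      rw [Nat.cast_natAbs]
      push_cast
      exact h6
    rw [Finset.mem_Icc]
    omega
  set I := (Finset.Icc (-(⌊R⌋₊ : ℤ)) (⌊R⌋₊ : ℤ)).filter (fun y => y % 2 = 0) with hI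
  have hIcard : (I.card : ℝ) ≤ 3 * R := by
    have h1 : I.card ≤ 2 * ⌊R⌋₊ + 1 := by
      calc I.card ≤ (Finset.Icc (-(⌊R⌋₊ : ℤ)) (⌊R⌋₊ : ℤ)).card := Finset.card_filter_le _ _
        _ = 2 * ⌊R⌋₊ + 1 := by rw [Int.card_Icc]; omega
    have h2 : (I.card : ℝ) ≤ 2 * ⌊R⌋₊ + 1 := by exact_mod_cast h1
    have h3 := Nat.floor_le hR0.le
    linarith
  set W : ℝ := 8 * R ^ (1 - c0 / 2) with hW
  have hW0 : 0 < W := by positivity
  have hIs : ((I.filter (fun y : ℤ => ¬ W ≤ |(y : ℝ)|)).card : ℝ) ≤ 2 * W + 1 := by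
    have h1 : (I.filter (fun y : ℤ => ¬ W ≤ |(y : ℝ)|)).card ≤ 2 * ⌊W⌋₊ + 1 := by
      calc (I.filter (fun y : ℤ => ¬ W ≤ |(y : ℝ)|)).card ≤
            (Finset.Icc (-(⌊W⌋₊ : ℤ)) (⌊W⌋₊ : ℤ)).card := by
            apply Finset.card_le_card
            intro y hy
            rw [Finset.mem_filter] at hy
            have h2 : |(y : ℝ)| ≤ W := (not_le.mp hy.2).le
            have h7 : y.natAbs ≤ ⌊W⌋₊ := by
              apply Nat.le_floor
              rw [Nat.cast_natAbs]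
              push_cast
              exact h2
            rw [Finset.mem_Icc]
            omega
        _ = 2 * ⌊W⌋₊ + 1 := by rw [Int.card_Icc]; omega
    have h2 : ((I.filter (fun y : ℤ => ¬ W ≤ |(y : ℝ)|)).card : ℝ) ≤ 2 * ⌊W⌋₊ + 1 := by
      exact_mod_cast h1
    have h3 := Nat.floor_le hW0.le
    linarith
  have hhalf : ‖∑ z ∈ Ap, uu z ^ κ‖ ≤ 3 * R * (R ^ (1 - c1) + R ^ (1 - c0)) + (2 * W + 1) * R := by
    have e1 : ∑ z ∈ Ap, uu z ^ κ = ∑ y ∈ I, ∑ z ∈ Ap.filter (fun z : GI => z.im = y), uu z ^ κ := by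
      symm
      apply Finset.sum_fiberwise_of_maps_to
      intro z hz
      have := hmem_im z hz
      rw [hI, Finset.mem_filter]
      exact this
    have e2 : ∀ y : ℤ, Ap.filter (fun z : GI => z.im = y) =
        A.filter (fun z : GI => 0 < z.re ∧ z.im = y) := by
      intro y
      rw [hAp, Finset.filter_filter]
    rw [e1]
    simp only [e2]
    calc ‖∑ y ∈ I, ∑ z ∈ A.filter (fun z : GI => 0 < z.re ∧ z.im = y), uu z ^ κ‖
        ≤ ∑ y ∈ I, ‖∑ z ∈ A.filter (fun z : GI => 0 < z.re ∧ z.im = y), uu z ^ κ‖ :=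
          norm_sum_le _ _
      _ = ∑ y ∈ I.filter (fun y : ℤ => W ≤ |(y : ℝ)|),
            ‖∑ z ∈ A.filter (fun z : GI => 0 < z.re ∧ z.im = y), uu z ^ κ‖ +
          ∑ y ∈ I.filter (fun y : ℤ => ¬ W ≤ |(y : ℝ)|),
            ‖∑ z ∈ A.filter (fun z : GI => 0 < z.re ∧ z.im = y), uu z ^ κ‖ :=
          (Finset.sum_filter_add_sum_filter_not _ _ _).symm
      _ ≤ ∑ y ∈ I.filter (fun y : ℤ => W ≤ |(y : ℝ)|), (R ^ (1 - c1) + R ^ (1 - c0)) +
          ∑ y ∈ I.filter (fun y : ℤ => ¬ W ≤ |(y : ℝ)|), R := by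
          apply add_le_add
          · apply Finset.sum_le_sum
            intro y hy
            rw [Finset.mem_filter, hI, Finset.mem_filter] at hy
            exact hrow_big y hy.1.2 hy.2
          · apply Finset.sum_le_sum
            intro y _
            exact hrow_any y
      _ = ((I.filter (fun y : ℤ => W ≤ |(y : ℝ)|)).card : ℝ) * (R ^ (1 - c1) + R ^ (1 - c0)) +
          ((I.filter (fun y : ℤ => ¬ W ≤ |(y : ℝ)|)).card : ℝ) * R := by
          rw [Finset.sum_const, Finset.sum_const, nsmul_eq_mul, nsmul_eq_mul]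
      _ ≤ 3 * R * (R ^ (1 - c1) + R ^ (1 - c0)) + (2 * W + 1) * R := by
          have h5 : ((I.filter (fun y : ℤ => W ≤ |(y : ℝ)|)).card : ℝ) ≤ 3 * R := by
            refine le_trans ?_ hIcard
            exact_mod_cast Finset.card_filter_le _ _
          gcongr
  -- symmetry
  have hsym : ∑ z ∈ A, uu z ^ κ = 2 * ∑ z ∈ Ap, uu z ^ κ := by
    have e1 : ∑ z ∈ A, uu z ^ κ = ∑ z ∈ Ap, uu z ^ κ +
        ∑ z ∈ A.filter (fun z : GI => ¬ 0 < z.re), uu z ^ κ :=
      (Finset.sum_filter_add_sum_filter_not _ _ _).symm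
    have e2 : ∑ z ∈ A.filter (fun z : GI => ¬ 0 < z.re), uu z ^ κ = ∑ z ∈ Ap, uu z ^ κ := by
      apply Finset.sum_nbij (fun z => -z)
      · intro z hz
        rw [Finset.mem_filter, hA, mem_ann] at hz
        rw [hAp, Finset.mem_filter, hA, mem_ann, nm_neg]
        obtain ⟨⟨h1, h2, h3⟩, h4⟩ := hz
        refine ⟨⟨Od_neg h1, h2, h3⟩, ?_⟩
        have := h1.1
        show 0 < (-z).re
        rw [Zsqrtd.re_neg]
        omega
      · intro z _ w _ hzw
        exact neg_injective hzw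
      · intro z hz
        rw [Finset.mem_coe, hAp, Finset.mem_filter, hA, mem_ann] at hz
        refine ⟨-z, ?_, neg_neg z⟩
        rw [Finset.mem_coe, Finset.mem_filter, hA, mem_ann, nm_neg]
        obtain ⟨⟨h1, h2, h3⟩, h4⟩ := hz
        refine ⟨⟨Od_neg h1, h2, h3⟩, ?_⟩
        rw [Zsqrtd.re_neg]
        omega
      · intro z _
        rw [uu_neg]
    rw [e1, e2]
    ring
  rw [hsym, norm_mul]
  have h2n : ‖(2 : ℂ)‖ = 2 := by simp
  rw [h2n]
  -- powers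
  have hp : ∀ e : ℝ, 2 * c ≤ e → R * R ^ (1 - e) ≤ R ^ (2 - 2 * c) := by
    intro e he
    have h1 : R * R ^ (1 - e) = R ^ (2 - e) := by
      have : (2 : ℝ) - e = 1 + (1 - e) := by ring
      rw [this, Real.rpow_add hR0, Real.rpow_one]
    rw [h1]
    exact Real.rpow_le_rpow_of_exponent_le hR1' (by linarith)
  have hp1 := hp c1 hcc1
  have hp2 := hp c0 (by linarith)
  have hp3 := hp (c0 / 2) hcc0
  have hp4 : R ≤ R * R ^ (1 - c0 / 2) := by
    have : (1 : ℝ) ≤ R ^ (1 - c0 / 2) := Real.one_le_rpow hR1' (by linarith)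
    nlinarith
  have hfin : R ^ (2 - 2 * c) * R ^ c = R ^ (2 - c) := by
    rw [← Real.rpow_add hR0]; congr 1; ring
  have hpos : 0 < R ^ (2 - 2 * c) := by positivity
  calc 2 * ‖∑ z ∈ Ap, uu z ^ κ‖ ≤
        2 * (3 * R * (R ^ (1 - c1) + R ^ (1 - c0)) + (2 * W + 1) * R) := by linarith
    _ = 6 * (R * R ^ (1 - c1)) + 6 * (R * R ^ (1 - c0)) + 32 * (R * R ^ (1 - c0 / 2)) + 2 * R := by
        rw [hW]; ring
    _ ≤ R ^ (2 - 2 * c) * 64 := by nlinarith
    _ ≤ R ^ (2 - 2 * c) * R ^ c := by gcongr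
    _ = R ^ (2 - c) := hfin

theorem st_all (C : ℝ) : ∃ c K : ℝ, 0 < c ∧ c ≤ 1 / 4 ∧ 0 < K ∧ ∀ Y : ℝ, 1 ≤ Y → ∀ κ : ℤ, κ ≠ 0 →
    |(κ : ℝ)| ≤ Y ^ C → ‖∑ z ∈ ann 0 Y, uu z ^ κ‖ ≤ K * Y ^ (1 - c) := by
  classical
  obtain ⟨c0, R0, hc0, hR0, hann⟩ := annulus (4 * |C|)
  obtain ⟨K0, hK0, hsmall⟩ := count_small
  set c1 : ℝ := min c0 (1 / 2) with hc1
  have hc1pos : 0 < c1 := lt_min hc0 (by norm_num)
  have hc1le : c1 ≤ 1 / 2 := min_le_right _ _
  have hc1c0 : c1 ≤ c0 := min_le_left _ _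
  refine ⟨c1 / 2, 2 * K0 + 4 * R0 ^ 4 + 6, by linarith, by linarith, by positivity, ?_⟩
  intro Y hY κ hκ hκC
  have hY0 : 0 < Y := by linarith
  have htriv : ∀ y : ℝ, 0 ≤ y → ‖∑ z ∈ ann 0 y, uu z ^ κ‖ ≤ 4 * y := by
    intro y hy
    calc ‖∑ z ∈ ann 0 y, uu z ^ κ‖ ≤ ∑ z ∈ ann 0 y, ‖uu z ^ κ‖ := norm_sum_le _ _
      _ ≤ ∑ z ∈ ann 0 y, (1 : ℝ) := Finset.sum_le_sum (fun z _ => norm_uu_zpow_le z κ)
      _ = ((ann 0 y).card : ℝ) := by simp
      _ ≤ 4 * y := card_ann_le 0 hy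
  have hYp1 : (1 : ℝ) ≤ Y ^ (1 - c1 / 2) := Real.one_le_rpow hY (by linarith)
  have hκ1 : (1 : ℝ) ≤ |(κ : ℝ)| := by
    have : (1 : ℤ) ≤ |κ| := Int.one_le_abs hκ
    exact_mod_cast this
  by_cases hsm : |(κ : ℝ)| ≤ Y ^ (1 / 4 : ℝ)
  · have h1 := hsmall κ Y hY0.le
    rw [if_neg hκ, sub_zero] at h1
    have h2 : Y ^ (1 / 4 : ℝ) * √Y ≤ Y ^ (1 - c1 / 2) := by
      rw [Real.sqrt_eq_rpow, ← Real.rpow_add hY0]
      exact Real.rpow_le_rpow_of_exponent_le hY (by linarith)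
    have h3 : K0 * (1 + |(κ : ℝ)|) * √Y ≤ 2 * K0 * (Y ^ (1 / 4 : ℝ) * √Y) := by
      have h4 : 1 + |(κ : ℝ)| ≤ 2 * Y ^ (1 / 4 : ℝ) := by linarith
      calc K0 * (1 + |(κ : ℝ)|) * √Y ≤ K0 * (2 * Y ^ (1 / 4 : ℝ)) * √Y := by gcongr
        _ = 2 * K0 * (Y ^ (1 / 4 : ℝ) * √Y) := by ring
    calc ‖∑ z ∈ ann 0 Y, uu z ^ κ‖ ≤ K0 * (1 + |(κ : ℝ)|) * √Y := h1
      _ ≤ 2 * K0 * (Y ^ (1 / 4 : ℝ) * √Y) := h3
      _ ≤ 2 * K0 * Y ^ (1 - c1 / 2) := by gcongr
      _ ≤ (2 * K0 + 4 * R0 ^ 4 + 6) * Y ^ (1 - c1 / 2) := by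
          apply mul_le_mul_of_nonneg_right _ (by positivity)
          have : 0 < R0 ^ 4 := by positivity
          linarith
  · push Not at hsm
    rcases lt_or_ge Y (R0 ^ 4) with hYs | hYb
    · calc ‖∑ z ∈ ann 0 Y, uu z ^ κ‖ ≤ 4 * Y := htriv Y hY0.le
        _ ≤ 4 * R0 ^ 4 := by linarith
        _ ≤ (4 * R0 ^ 4) * Y ^ (1 - c1 / 2) := by
            have : 0 < R0 ^ 4 := by positivity
            nlinarith
        _ ≤ (2 * K0 + 4 * R0 ^ 4 + 6) * Y ^ (1 - c1 / 2) := by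
            apply mul_le_mul_of_nonneg_right _ (by positivity)
            linarith
    · set T : ℝ := Y ^ (1 / 4 : ℝ) with hT
      have hTR : R0 ≤ T := by
        rw [hT]
        have : R0 = (R0 ^ 4) ^ (1 / 4 : ℝ) := by
          rw [← Real.rpow_natCast, ← Real.rpow_mul (by linarith)]
          norm_num
        rw [this]
        apply Real.rpow_le_rpow (by positivity) hYb (by norm_num)
      have hT1 : 1 ≤ T := hR0.trans hTR
      have hT2 : T ^ 2 = √Y := by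
        rw [hT, Real.sqrt_eq_rpow, ← Real.rpow_natCast, ← Real.rpow_mul hY0.le]
        norm_num
      -- induction
      have key : ∀ n : ℕ, ∀ R : ℝ, 0 < R → R ≤ √Y → R < 2 ^ n * T →
          ‖∑ z ∈ ann 0 (R ^ 2), uu z ^ κ‖ ≤ 4 * √Y + 2 * R ^ (2 - c1) := by
        intro n
        induction n with
        | zero =>
          intro R hR0' hRY hRn
          rw [pow_zero, one_mul] at hRn
          have h1 := htriv (R ^ 2) (by positivity)
          have h2 : R ^ 2 ≤ T ^ 2 := by gcongr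
          rw [hT2] at h2
          have h3 : 0 ≤ R ^ (2 - c1) := by positivity
          linarith
        | succ n ih =>
          intro R hR0' hRY hRn
          rcases lt_or_ge R T with hRT | hRT
          · have h1 := htriv (R ^ 2) (by positivity)
            have h2 : R ^ 2 ≤ T ^ 2 := by gcongr
            rw [hT2] at h2
            have h3 : 0 ≤ R ^ (2 - c1) := by positivity
            linarith
          · have h1 := ih (R / 2) (by linarith) (by linarith) (by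
              rw [pow_succ] at hRn
              linarith)
            have hR1 : 1 ≤ R := hT1.trans hRT
            have e1 : (R / 2) ^ 2 = R ^ 2 / 4 := by ring
            rw [e1] at h1
            have hd : ∑ z ∈ ann 0 (R ^ 2), uu z ^ κ = ∑ z ∈ ann 0 (R ^ 2 / 4), uu z ^ κ +
                ∑ z ∈ ann (R ^ 2 / 4) (R ^ 2), uu z ^ κ := by
              rw [← Finset.sum_union]
              · congr 1
                ext z
                rw [Finset.mem_union, mem_ann, mem_ann, mem_ann]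
                have hR2 : 0 < R ^ 2 := by positivity
                constructor
                · rintro ⟨g1, g2, g3⟩
                  rcases le_or_gt (nm z : ℝ) (R ^ 2 / 4) with g4 | g4
                  · exact Or.inl ⟨g1, g2, g4⟩
                  · exact Or.inr ⟨g1, g4, g3⟩
                · rintro (⟨g1, g2, g3⟩ | ⟨g1, g2, g3⟩)
                  · exact ⟨g1, g2, by linarith⟩
                  · exact ⟨g1, by linarith, g3⟩
              · rw [Finset.disjoint_left]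
                intro z g1 g2
                rw [mem_ann] at g1 g2
                linarith [g1.2.2, g2.2.1]
            have h2 := hann R (hTR.trans hRT) κ (by
              have : R ^ (1 / 2 : ℝ) ≤ (√Y) ^ (1 / 2 : ℝ) :=
                Real.rpow_le_rpow hR0'.le hRY (by norm_num)
              have e2 : (√Y) ^ (1 / 2 : ℝ) = T := by
                rw [hT, Real.sqrt_eq_rpow, ← Real.rpow_mul hY0.le]
                norm_num
              rw [e2] at this
              linarith) (by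
              have g1 : Y ^ C ≤ Y ^ |C| := Real.rpow_le_rpow_of_exponent_le hY (le_abs_self C)
              have g2 : Y ^ |C| = T ^ (4 * |C|) := by
                rw [hT, ← Real.rpow_mul hY0.le]
                congr 1
                ring
              have g3 : T ^ (4 * |C|) ≤ R ^ (4 * |C|) :=
                Real.rpow_le_rpow (by linarith) hRT (by positivity)
              linarith)
            have h3 : R ^ (2 - c0) ≤ R ^ (2 - c1) :=
              Real.rpow_le_rpow_of_exponent_le hR1 (by linarith)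
            have h4 : (R / 2) ^ (2 - c1) ≤ R ^ (2 - c1) / 2 := by
              rw [Real.div_rpow hR0'.le (by norm_num)]
              have g1 : (2 : ℝ) ^ (1 : ℝ) ≤ 2 ^ (2 - c1) :=
                Real.rpow_le_rpow_of_exponent_le (by norm_num) (by linarith)
              rw [Real.rpow_one] at g1
              exact div_le_div_of_nonneg_left (by positivity) (by norm_num) g1
            rw [hd]
            calc ‖∑ z ∈ ann 0 (R ^ 2 / 4), uu z ^ κ + ∑ z ∈ ann (R ^ 2 / 4) (R ^ 2), uu z ^ κ‖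
                ≤ ‖∑ z ∈ ann 0 (R ^ 2 / 4), uu z ^ κ‖ +
                  ‖∑ z ∈ ann (R ^ 2 / 4) (R ^ 2), uu z ^ κ‖ := norm_add_le _ _
              _ ≤ (4 * √Y + 2 * (R / 2) ^ (2 - c1)) + R ^ (2 - c0) := add_le_add h1 h2
              _ ≤ 4 * √Y + 2 * R ^ (2 - c1) := by linarith
      obtain ⟨n, hn⟩ : ∃ n : ℕ, √Y < 2 ^ n * T := by
        obtain ⟨n, hn⟩ := pow_unbounded_of_one_lt (√Y) (by norm_num : (1 : ℝ) < 2)
        refine ⟨n, ?_⟩
        have : (2 : ℝ) ^ n ≤ 2 ^ n * T := by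
          have : (0 : ℝ) < 2 ^ n := by positivity
          nlinarith
        linarith
      have hfin := key n (√Y) (Real.sqrt_pos.mpr hY0) le_rfl hn
      rw [Real.sq_sqrt hY0.le] at hfin
      have e1 : (√Y) ^ (2 - c1) = Y ^ (1 - c1 / 2) := by
        rw [Real.sqrt_eq_rpow, ← Real.rpow_mul hY0.le]
        congr 1
        ring
      have e2 : √Y ≤ Y ^ (1 - c1 / 2) := by
        rw [Real.sqrt_eq_rpow]
        exact Real.rpow_le_rpow_of_exponent_le hY (by linarith)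
      rw [e1] at hfin
      calc ‖∑ z ∈ ann 0 Y, uu z ^ κ‖ ≤ 4 * √Y + 2 * Y ^ (1 - c1 / 2) := hfin
        _ ≤ 6 * Y ^ (1 - c1 / 2) := by linarith
        _ ≤ (2 * K0 + 4 * R0 ^ 4 + 6) * Y ^ (1 - c1 / 2) := by
            apply mul_le_mul_of_nonneg_right _ (by positivity)
            have : 0 < R0 ^ 4 := by positivity
            linarith

/-- divisors of elements of the class -/
theorem STW_nat_dvd {z : GI} (_hz : Od z) (t : ℕ) : (((t : ℕ) : GI) ∣ z) ↔
    t ∣ Int.gcd z.re z.im := by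
  constructor
  · rintro ⟨w, hw⟩
    apply Nat.dvd_gcd
    · have : z.re = (t : ℤ) * w.re := by rw [hw]; simp
      rw [this, Int.natAbs_mul, Int.natAbs_natCast]
      exact dvd_mul_right _ _
    · have : z.im = (t : ℤ) * w.im := by rw [hw]; simp
      rw [this, Int.natAbs_mul, Int.natAbs_natCast]
      exact dvd_mul_right _ _
  · intro h
    have h1 : (t : ℤ) ∣ z.re := (Int.natCast_dvd_natCast.mpr h).trans (Int.gcd_dvd_left ..)
    have h2 : (t : ℤ) ∣ z.im := (Int.natCast_dvd_natCast.mpr h).trans (Int.gcd_dvd_right ..)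
    obtain ⟨a, ha⟩ := h1
    obtain ⟨c, hc⟩ := h2
    refine ⟨⟨a, c⟩, ?_⟩
    apply Zsqrtd.ext
    · simp [ha]
    · simp [hc]

/-- Moebius inversion -/
theorem STW_moebius (Y : ℝ) (κ : ℤ) :
    ∑ z ∈ pan 0 Y, uu z ^ κ = ∑ t ∈ (Icc 1 ⌊√Y⌋₊).filter (fun t => t % 2 = 1),
      ((ArithmeticFunction.moebius t : ℤ) : ℂ) * ∑ w ∈ ann 0 (Y / (t : ℝ) ^ 2), uu w ^ κ := by
  classical
  set O := (Icc 1 ⌊√Y⌋₊).filter (fun t => t % 2 = 1) with hO
  have h1 : ∀ t ∈ O, ∑ w ∈ ann 0 (Y / (t : ℝ) ^ 2), uu w ^ κ =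
      ∑ z ∈ (ann 0 Y).filter (((t : ℕ) : GI) ∣ ·), uu z ^ κ := by
    intro t ht
    rw [hO, Finset.mem_filter, Finset.mem_Icc] at ht
    have hOd := LCT_Od_nat ht.2
    rw [sum_mult 0 Y ((t : ℕ) : GI) hOd κ, uu_natCast (by omega), one_zpow, one_mul, zero_div]
    have : ((nm ((t : ℕ) : GI) : ℕ) : ℝ) = (t : ℝ) ^ 2 := by
      rw [LCT_nm_nat]; push_cast; ring
    rw [this]
  have h2 : ∑ t ∈ O, ((ArithmeticFunction.moebius t : ℤ) : ℂ) *
      ∑ w ∈ ann 0 (Y / (t : ℝ) ^ 2), uu w ^ κ =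
      ∑ z ∈ ann 0 Y, ∑ t ∈ O, if ((t : ℕ) : GI) ∣ z then
        ((ArithmeticFunction.moebius t : ℤ) : ℂ) * uu z ^ κ else 0 := by
    rw [Finset.sum_comm]
    apply Finset.sum_congr rfl
    intro t ht
    rw [h1 t ht, Finset.mul_sum, Finset.sum_filter]
  rw [h2]
  have h3 : ∀ z ∈ ann 0 Y, (∑ t ∈ O, if ((t : ℕ) : GI) ∣ z then
        ((ArithmeticFunction.moebius t : ℤ) : ℂ) * uu z ^ κ else 0) =
      if Pr z then uu z ^ κ else 0 := by
    intro z hz
    have hz' := mem_ann.mp hz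
    have hOd := hz'.1
    set g := Int.gcd z.re z.im with hg
    have hre : z.re ≠ 0 := by have := hOd.1; omega
    have hg0 : g ≠ 0 := by
      rw [hg]
      intro h0
      rw [Int.gcd_eq_zero_iff] at h0
      exact hre h0.1
    have hodd : g % 2 = 1 := by
      by_contra hcon
      have h3 : g % 2 = 0 := by omega
      have h4 : (2 : ℤ) ∣ z.re := by
        refine dvd_trans ?_ (Int.gcd_dvd_left (a := z.re) (b := z.im))
        omega
      have := hOd.1
      omega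
    have e1 : O.filter (fun t : ℕ => ((t : ℕ) : GI) ∣ z) = g.divisors := by
      ext t
      rw [Finset.mem_filter, hO, Finset.mem_filter, Finset.mem_Icc, Nat.mem_divisors,
        STW_nat_dvd hOd]
      constructor
      · rintro ⟨_, h⟩
        exact ⟨h, hg0⟩
      · rintro ⟨h, _⟩
        have ht0 : 0 < t := Nat.pos_of_dvd_of_pos h (Nat.pos_of_ne_zero hg0)
        have htodd : t % 2 = 1 := by
          by_contra hcon
          have h5 : 2 ∣ t := by omega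
          have h6 : 2 ∣ g := h5.trans h
          omega
        refine ⟨⟨⟨ht0, ?_⟩, htodd⟩, h⟩
        apply Nat.le_floor
        apply Real.le_sqrt_of_sq_le
        have hdvd : ((t : ℕ) : GI) ∣ z := (STW_nat_dvd hOd t).mpr h
        have h7 : nm ((t : ℕ) : GI) ≤ nm z := by
          obtain ⟨w, hw⟩ := hdvd
          rw [hw, nm_mul]
          have : 0 < nm w := by
            apply nm_pos
            rintro rfl
            apply Od_ne hOd
            rw [hw, mul_zero]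
          exact Nat.le_mul_of_pos_right _ this
        rw [LCT_nm_nat] at h7
        calc ((t : ℕ) : ℝ) ^ 2 ≤ (nm z : ℝ) := by exact_mod_cast h7
          _ ≤ Y := hz'.2.2
    rw [← Finset.sum_filter, e1, ← Finset.sum_mul]
    have e2 : ∑ t ∈ g.divisors, ((ArithmeticFunction.moebius t : ℤ) : ℂ) =
        if g = 1 then 1 else 0 := by
      have h5 : ((ArithmeticFunction.moebius : ArithmeticFunction ℤ) *
          (ArithmeticFunction.zeta : ArithmeticFunction ℤ)) g =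
          ∑ i ∈ g.divisors, ArithmeticFunction.moebius i :=
        ArithmeticFunction.coe_mul_zeta_apply
      rw [ArithmeticFunction.moebius_mul_coe_zeta, ArithmeticFunction.one_apply] at h5
      have h6 : ((∑ i ∈ g.divisors, ArithmeticFunction.moebius i : ℤ) : ℂ) =
          if g = 1 then 1 else 0 := by
        rw [← h5]
        split_ifs <;> simp
      rw [← h6]
      push_cast
      rfl
    rw [e2]
    by_cases hg1 : g = 1
    · have : Pr z := hg1
      rw [if_pos hg1, if_pos this, one_mul]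
    · have : ¬ Pr z := hg1
      rw [if_neg hg1, if_neg this, zero_mul]
  rw [Finset.sum_congr rfl h3, ← Finset.sum_filter]
  apply Finset.sum_congr _ (fun _ _ => rfl)
  ext z
  rw [mem_pan, Finset.mem_filter, mem_ann]
  tauto

theorem st_prim (C : ℝ) : ∃ c K : ℝ, 0 < c ∧ c ≤ 1 / 4 ∧ 0 < K ∧ ∀ Y : ℝ, 1 ≤ Y → ∀ κ : ℤ, κ ≠ 0 →
    |(κ : ℝ)| ≤ Y ^ C → ‖∑ z ∈ pan 0 Y, uu z ^ κ‖ ≤ K * Y ^ (1 - c) := by
  classical
  obtain ⟨c0, K0, hc0, hc04, hK0, hall⟩ := st_all (2 * |C|)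
  set c : ℝ := min c0 (1 / 8) with hc
  have hcpos : 0 < c := lt_min hc0 (by norm_num)
  have hc8 : c ≤ 1 / 8 := min_le_right _ _
  have hcc0 : c ≤ c0 := min_le_left _ _
  have hsumm : Summable (fun n : ℕ => ((n : ℝ) ^ (3 / 2 : ℝ))⁻¹) :=
    Real.summable_nat_rpow_inv.mpr (by norm_num)
  set S : ℝ := ∑' n : ℕ, ((n : ℝ) ^ (3 / 2 : ℝ))⁻¹ with hS
  have hS0 : 0 ≤ S := tsum_nonneg (fun n => by positivity)
  refine ⟨c, (K0 + 4) * (S + 1), hcpos, by linarith, by positivity, ?_⟩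
  intro Y hY κ hκ hκC
  have hY0 : 0 < Y := by linarith
  rw [STW_moebius]
  set O := (Icc 1 ⌊√Y⌋₊).filter (fun t => t % 2 = 1) with hO
  have hterm : ∀ t ∈ O, ‖((ArithmeticFunction.moebius t : ℤ) : ℂ) *
      ∑ w ∈ ann 0 (Y / (t : ℝ) ^ 2), uu w ^ κ‖ ≤
      (K0 + 4) * Y ^ (1 - c) * ((t : ℝ) ^ (3 / 2 : ℝ))⁻¹ := by
    intro t ht
    rw [hO, Finset.mem_filter, Finset.mem_Icc] at ht
    have ht1 : (1 : ℝ) ≤ t := by exact_mod_cast ht.1.1
    have ht0 : (0 : ℝ) < t := by linarith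
    have htY : (t : ℝ) ^ 2 ≤ Y := by
      have h1 : (t : ℝ) ≤ √Y := (Nat.le_floor_iff (Real.sqrt_nonneg _)).mp ht.1.2
      calc (t : ℝ) ^ 2 ≤ (√Y) ^ 2 := by gcongr
        _ = Y := Real.sq_sqrt hY0.le
    have hmu : ‖((ArithmeticFunction.moebius t : ℤ) : ℂ)‖ ≤ 1 := by
      rw [Complex.norm_intCast]
      have := ArithmeticFunction.abs_moebius_le_one (n := t)
      exact_mod_cast this
    rw [norm_mul]
    have hY1 : 1 ≤ Y / (t : ℝ) ^ 2 := by
      rw [le_div_iff₀ (by positivity)]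
      linarith
    have hmain : ‖∑ w ∈ ann 0 (Y / (t : ℝ) ^ 2), uu w ^ κ‖ ≤
        (K0 + 4) * Y ^ (1 - c) * ((t : ℝ) ^ (3 / 2 : ℝ))⁻¹ := by
      rcases le_or_gt (t : ℝ) (Y ^ (1 / 4 : ℝ)) with hts | htb
      · have h1 := hall (Y / (t : ℝ) ^ 2) hY1 κ hκ (by
          have g1 : Y ^ C ≤ Y ^ |C| := Real.rpow_le_rpow_of_exponent_le hY (le_abs_self C)
          have g2 : Y ^ (1 / 2 : ℝ) ≤ Y / (t : ℝ) ^ 2 := by
            rw [le_div_iff₀ (by positivity)]
            have g3 : (t : ℝ) ^ 2 ≤ (Y ^ (1 / 4 : ℝ)) ^ 2 := by gcongr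
            have g4 : (Y ^ (1 / 4 : ℝ)) ^ 2 = Y ^ (1 / 2 : ℝ) := by
              rw [← Real.rpow_natCast, ← Real.rpow_mul hY0.le]
              norm_num
            rw [g4] at g3
            have g5 : Y ^ (1 / 2 : ℝ) * Y ^ (1 / 2 : ℝ) = Y := by
              rw [← Real.rpow_add hY0]
              norm_num
            have g6 : 0 < Y ^ (1 / 2 : ℝ) := by positivity
            nlinarith
          have g3 : Y ^ |C| = (Y ^ (1 / 2 : ℝ)) ^ (2 * |C|) := by
            rw [← Real.rpow_mul hY0.le]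
            congr 1
            ring
          have g4 : (Y ^ (1 / 2 : ℝ)) ^ (2 * |C|) ≤ (Y / (t : ℝ) ^ 2) ^ (2 * |C|) :=
            Real.rpow_le_rpow (by positivity) g2 (by positivity)
          linarith)
        have h2 : (Y / (t : ℝ) ^ 2) ^ (1 - c0) ≤ Y ^ (1 - c) * ((t : ℝ) ^ (3 / 2 : ℝ))⁻¹ := by
          rw [Real.div_rpow hY0.le (by positivity), div_eq_mul_inv]
          have g1 : Y ^ (1 - c0) ≤ Y ^ (1 - c) :=
            Real.rpow_le_rpow_of_exponent_le hY (by linarith)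
          have g2 : (t : ℝ) ^ (3 / 2 : ℝ) ≤ ((t : ℝ) ^ 2) ^ (1 - c0) := by
            rw [← Real.rpow_natCast, ← Real.rpow_mul ht0.le]
            apply Real.rpow_le_rpow_of_exponent_le ht1
            push_cast
            linarith
          have g3 : (((t : ℝ) ^ 2) ^ (1 - c0))⁻¹ ≤ ((t : ℝ) ^ (3 / 2 : ℝ))⁻¹ :=
            inv_anti₀ (by positivity) g2
          exact mul_le_mul g1 g3 (by positivity) (by positivity)
        calc ‖∑ w ∈ ann 0 (Y / (t : ℝ) ^ 2), uu w ^ κ‖ ≤ K0 * (Y / (t : ℝ) ^ 2) ^ (1 - c0) := h1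
          _ ≤ K0 * (Y ^ (1 - c) * ((t : ℝ) ^ (3 / 2 : ℝ))⁻¹) := by gcongr
          _ ≤ (K0 + 4) * (Y ^ (1 - c) * ((t : ℝ) ^ (3 / 2 : ℝ))⁻¹) := by
              apply mul_le_mul_of_nonneg_right (by linarith) (by positivity)
          _ = (K0 + 4) * Y ^ (1 - c) * ((t : ℝ) ^ (3 / 2 : ℝ))⁻¹ := by ring
      · have h1 : ‖∑ w ∈ ann 0 (Y / (t : ℝ) ^ 2), uu w ^ κ‖ ≤ 4 * (Y / (t : ℝ) ^ 2) := by
          calc ‖∑ w ∈ ann 0 (Y / (t : ℝ) ^ 2), uu w ^ κ‖
              ≤ ∑ w ∈ ann 0 (Y / (t : ℝ) ^ 2), ‖uu w ^ κ‖ := norm_sum_le _ _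
            _ ≤ ∑ w ∈ ann 0 (Y / (t : ℝ) ^ 2), (1 : ℝ) :=
                Finset.sum_le_sum (fun z _ => norm_uu_zpow_le z κ)
            _ = ((ann 0 (Y / (t : ℝ) ^ 2)).card : ℝ) := by simp
            _ ≤ 4 * (Y / (t : ℝ) ^ 2) := card_ann_le 0 (by positivity)
        have h2 : Y / (t : ℝ) ^ 2 ≤ Y ^ (1 - c) * ((t : ℝ) ^ (3 / 2 : ℝ))⁻¹ := by
          rw [div_eq_mul_inv]
          have g1 : Y ^ (1 / 8 : ℝ) ≤ (t : ℝ) ^ (1 / 2 : ℝ) := by
            have : Y ^ (1 / 8 : ℝ) = (Y ^ (1 / 4 : ℝ)) ^ (1 / 2 : ℝ) := by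
              rw [← Real.rpow_mul hY0.le]; norm_num
            rw [this]
            exact Real.rpow_le_rpow (by positivity) htb.le (by norm_num)
          have g2 : (t : ℝ) ^ 2 = (t : ℝ) ^ (1 / 2 : ℝ) * (t : ℝ) ^ (3 / 2 : ℝ) := by
            rw [← Real.rpow_add ht0, ← Real.rpow_natCast]
            norm_num
          have g3 : Y = Y ^ (7 / 8 : ℝ) * Y ^ (1 / 8 : ℝ) := by
            rw [← Real.rpow_add hY0]
            norm_num
          have g4 : Y ^ (7 / 8 : ℝ) ≤ Y ^ (1 - c) :=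
            Real.rpow_le_rpow_of_exponent_le hY (by linarith)
          rw [g2, mul_inv]
          calc Y * (((t : ℝ) ^ (1 / 2 : ℝ))⁻¹ * ((t : ℝ) ^ (3 / 2 : ℝ))⁻¹)
              = Y ^ (7 / 8 : ℝ) * (Y ^ (1 / 8 : ℝ) * ((t : ℝ) ^ (1 / 2 : ℝ))⁻¹) *
                ((t : ℝ) ^ (3 / 2 : ℝ))⁻¹ := by
                conv_lhs => rw [g3]
                ring
            _ ≤ Y ^ (1 - c) * 1 * ((t : ℝ) ^ (3 / 2 : ℝ))⁻¹ := by
                have g5 : Y ^ (1 / 8 : ℝ) * ((t : ℝ) ^ (1 / 2 : ℝ))⁻¹ ≤ 1 := by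
                  rw [← div_eq_mul_inv, div_le_one (by positivity)]
                  exact g1
                gcongr
            _ = Y ^ (1 - c) * ((t : ℝ) ^ (3 / 2 : ℝ))⁻¹ := by ring
        calc ‖∑ w ∈ ann 0 (Y / (t : ℝ) ^ 2), uu w ^ κ‖ ≤ 4 * (Y / (t : ℝ) ^ 2) := h1
          _ ≤ 4 * (Y ^ (1 - c) * ((t : ℝ) ^ (3 / 2 : ℝ))⁻¹) := by gcongr
          _ ≤ (K0 + 4) * (Y ^ (1 - c) * ((t : ℝ) ^ (3 / 2 : ℝ))⁻¹) := by
              apply mul_le_mul_of_nonneg_right (by linarith) (by positivity)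
          _ = (K0 + 4) * Y ^ (1 - c) * ((t : ℝ) ^ (3 / 2 : ℝ))⁻¹ := by ring
    calc ‖((ArithmeticFunction.moebius t : ℤ) : ℂ)‖ * ‖∑ w ∈ ann 0 (Y / (t : ℝ) ^ 2), uu w ^ κ‖
        ≤ 1 * ‖∑ w ∈ ann 0 (Y / (t : ℝ) ^ 2), uu w ^ κ‖ := by gcongr
      _ ≤ _ := by rw [one_mul]; exact hmain
  calc ‖∑ t ∈ O, ((ArithmeticFunction.moebius t : ℤ) : ℂ) *
      ∑ w ∈ ann 0 (Y / (t : ℝ) ^ 2), uu w ^ κ‖
      ≤ ∑ t ∈ O, ‖((ArithmeticFunction.moebius t : ℤ) : ℂ) *
        ∑ w ∈ ann 0 (Y / (t : ℝ) ^ 2), uu w ^ κ‖ := norm_sum_le _ _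
    _ ≤ ∑ t ∈ O, (K0 + 4) * Y ^ (1 - c) * ((t : ℝ) ^ (3 / 2 : ℝ))⁻¹ := Finset.sum_le_sum hterm
    _ = (K0 + 4) * Y ^ (1 - c) * ∑ t ∈ O, ((t : ℝ) ^ (3 / 2 : ℝ))⁻¹ := by rw [Finset.mul_sum]
    _ ≤ (K0 + 4) * Y ^ (1 - c) * S := by
        have : ∑ t ∈ O, ((t : ℝ) ^ (3 / 2 : ℝ))⁻¹ ≤ S :=
          hsumm.sum_le_tsum O (fun n _ => by positivity)
        gcongr
    _ ≤ (K0 + 4) * (S + 1) * Y ^ (1 - c) := by
        have : 0 < (K0 + 4) * Y ^ (1 - c) := by positivity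
        nlinarith

end Pool.Agent.MRS
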