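import Pool.Agent.MRS.Basic

set_option autoImplicit false

/-! Module DTC: points on a line `dt z w = d`.  Two solutions differ by an integer multiple of `z`
(`z` primitive), and `Re (w * star z)` lies in `[-√(Y N(z)), √(Y N(z))]` and moves by `N(z)`. -/

open Finset

namespace Pool.Agent.MRS

theorem det_count {z : GI} (hz : Pr z) {Y : ℝ} (hY : (nm z : ℝ) ≤ Y) (d : ℤ) (S : Finset GI)
    (hS : ∀ w ∈ S, (nm w : ℝ) ≤ Y ∧ dt z w = d) : (S.card : ℝ) ≤ 3 * √(Y / nm z) := by
  classical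
  have hz0 : z ≠ 0 := Pr_ne hz
  have hN : (0 : ℝ) < nm z := by exact_mod_cast nm_pos hz0
  have hY0 : 0 < Y := lt_of_lt_of_le hN hY
  have h1 : 1 ≤ √(Y / nm z) := by
    rw [Real.one_le_sqrt, le_div_iff₀ hN]
    linarith
  rcases S.eq_empty_or_nonempty with he | ⟨w0, hw0⟩
  · rw [he]
    simp only [Finset.card_empty, Nat.cast_zero]
    positivity
  have hbez : z.re * Int.gcdA z.re z.im + z.im * Int.gcdB z.re z.im = 1 := by
    have h := Int.gcd_eq_gcd_ab z.re z.im
    unfold Pr at hz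
    rw [hz] at h
    exact_mod_cast h.symm
  set u := Int.gcdA z.re z.im with hu
  set v := Int.gcdB z.re z.im with hv
  let k : GI → ℤ := fun w => u * (w.re - w0.re) + v * (w.im - w0.im)
  have hk : ∀ w ∈ S, w.re - w0.re = k w * z.re ∧ w.im - w0.im = k w * z.im := by
    intro w hw
    have e1 := (hS w hw).2
    have e2 := (hS w0 hw0).2
    unfold dt at e1 e2
    have e3 : z.re * (w.im - w0.im) = z.im * (w.re - w0.re) := by linarith
    constructor
    · show w.re - w0.re = (u * (w.re - w0.re) + v * (w.im - w0.im)) * z.re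
      calc w.re - w0.re = (z.re * u + z.im * v) * (w.re - w0.re) := by rw [hbez]; ring
        _ = u * (w.re - w0.re) * z.re + v * (z.im * (w.re - w0.re)) := by ring
        _ = _ := by rw [← e3]; ring
    · show w.im - w0.im = (u * (w.re - w0.re) + v * (w.im - w0.im)) * z.im
      calc w.im - w0.im = (z.re * u + z.im * v) * (w.im - w0.im) := by rw [hbez]; ring
        _ = u * (z.re * (w.im - w0.im)) + v * (w.im - w0.im) * z.im := by ring
        _ = _ := by rw [e3]; ring
  have hinj : Set.InjOn k S := by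
    intro a ha b hb hab
    have h1 := hk a ha
    have h2 := hk b hb
    rw [hab] at h1
    have e1 : a.re = b.re := by linarith [h1.1, h2.1]
    have e2 : a.im = b.im := by linarith [h1.2, h2.2]
    exact Zsqrtd.ext e1 e2
  have hcard : S.card = (S.image k).card := (Finset.card_image_of_injOn hinj).symm
  set R : ℝ := √(Y * nm z) with hR
  have hR0 : 0 ≤ R := Real.sqrt_nonneg _
  let t0 : ℝ := (z.re : ℝ) * w0.re + z.im * w0.im
  have hmem : ∀ w ∈ S, |t0 + k w * nm z| ≤ R := by
    intro w hw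
    have h1 := hk w hw
    have e1 : (w.re : ℝ) = w0.re + k w * z.re := by
      have : w.re = w0.re + k w * z.re := by linarith [h1.1]
      exact_mod_cast this
    have e2 : (w.im : ℝ) = w0.im + k w * z.im := by
      have : w.im = w0.im + k w * z.im := by linarith [h1.2]
      exact_mod_cast this
    have e3 : t0 + k w * nm z = (z.re : ℝ) * w.re + z.im * w.im := by
      rw [e1, e2, nm_real z]
      show (z.re : ℝ) * w0.re + z.im * w0.im + _ = _
      ring
    rw [e3]
    apply Real.abs_le_sqrt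
    have e4 : ((z.re : ℝ) * w.re + z.im * w.im) ^ 2 + ((z.re : ℝ) * w.im - z.im * w.re) ^ 2
        = nm w * nm z := by
      rw [nm_real z, nm_real w]; ring
    have e5 : (nm w : ℝ) * nm z ≤ Y * nm z :=
      mul_le_mul_of_nonneg_right (hS w hw).1 hN.le
    nlinarith [sq_nonneg ((z.re : ℝ) * w.im - z.im * w.re)]
  have hsub : S.image k ⊆ Finset.Icc ⌈(-R - t0) / nm z⌉ ⌊(R - t0) / nm z⌋ := by
    intro m hm
    obtain ⟨w, hw, rfl⟩ := Finset.mem_image.mp hm
    have h := abs_le.mp (hmem w hw)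
    rw [Finset.mem_Icc]
    constructor
    · rw [Int.ceil_le, div_le_iff₀ hN]
      linarith [h.1]
    · rw [Int.le_floor, le_div_iff₀ hN]
      linarith [h.2]
  have hk0 : (0 : ℤ) ∈ Finset.Icc ⌈(-R - t0) / nm z⌉ ⌊(R - t0) / nm z⌋ := by
    apply hsub
    rw [Finset.mem_image]
    exact ⟨w0, hw0, by simp [k]⟩
  have hk0' := Finset.mem_Icc.mp hk0
  have hc : (S.card : ℝ) ≤ ((⌊(R - t0) / nm z⌋ + 1 - ⌈(-R - t0) / nm z⌉ : ℤ) : ℝ) := by
    rw [hcard]
    have h2 := Finset.card_le_card hsub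
    rw [Int.card_Icc] at h2
    have h3 : (((S.image k).card : ℤ)) ≤ ⌊(R - t0) / nm z⌋ + 1 - ⌈(-R - t0) / nm z⌉ := by
      have h4 : 0 ≤ ⌊(R - t0) / nm z⌋ + 1 - ⌈(-R - t0) / nm z⌉ := by linarith [hk0'.1, hk0'.2]
      have h5 := Int.toNat_of_nonneg h4
      rw [← h5]
      exact_mod_cast h2
    exact_mod_cast h3
  have hb : ((⌊(R - t0) / nm z⌋ + 1 - ⌈(-R - t0) / nm z⌉ : ℤ) : ℝ) ≤ 2 * (R / nm z) + 1 := by
    push_cast
    have a1 := Int.floor_le ((R - t0) / (nm z : ℝ))
    have a2 := Int.le_ceil ((-R - t0) / (nm z : ℝ))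
    have a3 : (R - t0) / (nm z : ℝ) - (-R - t0) / nm z = 2 * (R / nm z) := by
      field_simp
      ring
    linarith
  have hRd : R / nm z = √(Y / nm z) := by
    rw [hR, Real.sqrt_mul hY0.le, Real.sqrt_div hY0.le]
    have : √(nm z : ℝ) ≠ 0 := by positivity
    have h2 : (nm z : ℝ) = √(nm z : ℝ) * √(nm z : ℝ) := (Real.mul_self_sqrt hN.le).symm
    field_simp
    rw [sq, ← h2]
  rw [hRd] at hb
  linarith

end Pool.Agent.MRS
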