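import Pool.Agent.MRS.Defs

set_option autoImplicit false

/-! Module BAS: basic facts -/

open Finset

namespace Pool.Agent.MRS

theorem nm_int (z : GI) : (nm z : ℤ) = z.re ^ 2 + z.im ^ 2 := by
  unfold nm
  rw [GaussianInt.natAbs_norm_eq]
  push_cast
  rw [sq, sq, abs_mul_abs_self, abs_mul_abs_self]

theorem nm_real (z : GI) : (nm z : ℝ) = (z.re : ℝ) ^ 2 + (z.im : ℝ) ^ 2 := by
  have h := nm_int z
  exact_mod_cast h

theorem nm_mul (z w : GI) : nm (z * w) = nm z * nm w := by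
  unfold nm
  rw [Zsqrtd.norm_mul, Int.natAbs_mul]

theorem nm_one : nm 1 = 1 := by
  unfold nm
  rw [Zsqrtd.norm_one]
  rfl

theorem nm_neg (z : GI) : nm (-z) = nm z := by
  have h1 := nm_int z
  have h2 := nm_int (-z)
  simp only [Zsqrtd.re_neg, Zsqrtd.im_neg, neg_sq] at h2
  have : (nm (-z) : ℤ) = nm z := by rw [h1, h2]
  exact_mod_cast this

theorem nm_star (z : GI) : nm (star z) = nm z := by
  have h1 := nm_int z
  have h2 := nm_int (star z)
  simp only [Zsqrtd.re_star, Zsqrtd.im_star, neg_sq] at h2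
  have : (nm (star z) : ℤ) = nm z := by rw [h1, h2]
  exact_mod_cast this

theorem nm_eq_zero {z : GI} : nm z = 0 ↔ z = 0 := by
  constructor
  · intro h
    have h1 := nm_int z
    rw [h] at h1
    have h2 : z.re = 0 := by
      have : z.re ^ 2 = 0 := by push_cast at h1; nlinarith [sq_nonneg z.re, sq_nonneg z.im]
      exact pow_eq_zero_iff (two_ne_zero) |>.1 this
    have h3 : z.im = 0 := by
      have : z.im ^ 2 = 0 := by push_cast at h1; nlinarith [sq_nonneg z.re, sq_nonneg z.im]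
      exact pow_eq_zero_iff (two_ne_zero) |>.1 this
    apply Zsqrtd.ext
    · exact h2
    · exact h3
  · rintro rfl
    unfold nm
    rw [Zsqrtd.norm_zero]
    rfl

theorem nm_pos {z : GI} (hz : z ≠ 0) : 0 < nm z :=
  Nat.pos_of_ne_zero (fun h => hz (nm_eq_zero.1 h))

theorem Od_one : Od 1 := by
  unfold Od
  simp [Zsqrtd.re_one, Zsqrtd.im_one]

theorem Od_mul {z w : GI} (hz : Od z) (hw : Od w) : Od (z * w) := by
  obtain ⟨h1, h2⟩ := hz
  obtain ⟨h3, h4⟩ := hw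
  unfold Od
  rw [Zsqrtd.re_mul, Zsqrtd.im_mul]
  constructor
  · rw [Int.add_emod, Int.mul_emod, h1, h3, show -1 * z.im * w.im = (-z.im) * w.im by ring,
      Int.mul_emod (-z.im), h4]
    simp
  · rw [Int.add_emod, Int.mul_emod, h4, Int.mul_emod z.im, h2]
    simp

theorem Od_neg {z : GI} (hz : Od z) : Od (-z) := by
  obtain ⟨h1, h2⟩ := hz
  unfold Od
  rw [Zsqrtd.re_neg, Zsqrtd.im_neg]
  omega

theorem Od_star {z : GI} (hz : Od z) : Od (star z) := by
  obtain ⟨h1, h2⟩ := hz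
  unfold Od
  rw [Zsqrtd.re_star, Zsqrtd.im_star]
  omega

theorem Od_ne {z : GI} (hz : Od z) : z ≠ 0 := by
  rintro rfl
  obtain ⟨h1, h2⟩ := hz
  simp at h1

theorem Od_nm {z : GI} (hz : Od z) : nm z % 4 = 1 := by
  obtain ⟨h1, h2⟩ := hz
  have h := nm_int z
  obtain ⟨a, ha⟩ : ∃ a, z.re = 2 * a + 1 := ⟨z.re / 2, by omega⟩
  obtain ⟨b, hb⟩ : ∃ b, z.im = 2 * b := ⟨z.im / 2, by omega⟩
  rw [ha, hb] at h
  have h5 : (nm z : ℤ) = 4 * (a ^ 2 + a + b ^ 2) + 1 := by rw [h]; ring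
  omega

/-- if `z` and `z * w` are in the class then so is `w` -/
theorem Od_of_mul {z w : GI} (hz : Od z) (hzw : Od (z * w)) : Od w := by
  obtain ⟨h1, h2⟩ := hz
  obtain ⟨h3, h4⟩ := hzw
  rw [Zsqrtd.re_mul] at h3
  rw [Zsqrtd.im_mul] at h4
  obtain ⟨a, ha⟩ : ∃ a, z.re = 2 * a + 1 := ⟨z.re / 2, by omega⟩
  obtain ⟨b, hb⟩ : ∃ b, z.im = 2 * b := ⟨z.im / 2, by omega⟩
  rw [ha, hb] at h3 h4
  constructor
  · have : (2 * a + 1) * w.re + -1 * (2 * b) * w.im = w.re + 2 * (a * w.re - b * w.im) := by ring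
    rw [this] at h3
    omega
  · have : (2 * a + 1) * w.im + 2 * b * w.re = w.im + 2 * (a * w.im + b * w.re) := by ring
    rw [this] at h4
    omega

theorem Pr_neg {z : GI} (hz : Pr z) : Pr (-z) := by
  unfold Pr at *
  rw [Zsqrtd.re_neg, Zsqrtd.im_neg, Int.gcd_neg, Int.neg_gcd]
  exact hz

theorem Pr_star {z : GI} (hz : Pr z) : Pr (star z) := by
  unfold Pr at *
  rw [Zsqrtd.re_star, Zsqrtd.im_star, Int.gcd_neg]
  exact hz

theorem Pr_ne {z : GI} (hz : Pr z) : z ≠ 0 := by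
  rintro rfl
  unfold Pr at hz
  simp at hz

/-- divisors of primitive elements are primitive -/
theorem Pr_of_dvd {z w : GI} (h : w ∣ z) (hz : Pr z) : Pr w := by
  obtain ⟨v, rfl⟩ := h
  unfold Pr at *
  have h1 : ((Int.gcd w.re w.im : ℕ) : ℤ) ∣ w.re := Int.gcd_dvd_left ..
  have h2 : ((Int.gcd w.re w.im : ℕ) : ℤ) ∣ w.im := Int.gcd_dvd_right ..
  have h3 : ((Int.gcd w.re w.im : ℕ) : ℤ) ∣ (w * v).re := by
    rw [Zsqrtd.re_mul]
    exact dvd_add (Dvd.dvd.mul_right h1 _) (Dvd.dvd.mul_right (Dvd.dvd.mul_left h2 _) _)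
  have h4 : ((Int.gcd w.re w.im : ℕ) : ℤ) ∣ (w * v).im := by
    rw [Zsqrtd.im_mul]
    exact dvd_add (Dvd.dvd.mul_right h1 _) (Dvd.dvd.mul_right h2 _)
  have h5 : ((Int.gcd w.re w.im : ℕ) : ℤ) ∣ ((Int.gcd (w * v).re (w * v).im : ℕ) : ℤ) :=
    Int.dvd_coe_gcd h3 h4
  rw [hz] at h5
  have h6 : (Int.gcd w.re w.im) ∣ 1 := by exact_mod_cast h5
  exact Nat.dvd_one.1 h6

theorem uu_mul (z w : GI) : uu (z * w) = uu z * uu w := by
  unfold uu
  rw [map_mul, nm_mul, mul_pow, Nat.cast_mul, mul_div_mul_comm]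

theorem uu_neg (z : GI) : uu (-z) = uu z := by
  unfold uu
  rw [map_neg, nm_neg, neg_sq]

theorem uu_one : uu 1 = 1 := by
  unfold uu
  rw [map_one, nm_one]
  simp

theorem BAS_normSq (z : GI) : Complex.normSq (GaussianInt.toComplex z) = (nm z : ℝ) := by
  rw [← GaussianInt.intCast_real_norm]
  unfold nm
  have h : (0 : ℤ) ≤ Zsqrtd.norm z := GaussianInt.norm_nonneg z
  have h2 : ((Zsqrtd.norm z).natAbs : ℤ) = Zsqrtd.norm z := Int.natAbs_of_nonneg h
  have h3 : (((Zsqrtd.norm z).natAbs : ℤ) : ℝ) = (Zsqrtd.norm z : ℝ) := by rw [h2]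
  rw [← h3]
  exact Int.cast_natCast _

theorem BAS_norm_sq (z : GI) : ‖GaussianInt.toComplex z‖ ^ 2 = (nm z : ℝ) := by
  rw [Complex.sq_norm, BAS_normSq]

theorem BAS_nm_natCast (n : ℕ) : nm (n : GI) = n * n := by
  unfold nm
  rw [Zsqrtd.norm_natCast]
  norm_cast

theorem uu_natCast {n : ℕ} (hn : n ≠ 0) : uu (n : GI) = 1 := by
  unfold uu
  rw [map_natCast, BAS_nm_natCast]
  have : (n : ℂ) ≠ 0 := by exact_mod_cast hn
  push_cast
  field_simp

theorem norm_uu {z : GI} (hz : z ≠ 0) : ‖uu z‖ = 1 := by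
  unfold uu
  rw [norm_div, norm_pow, BAS_norm_sq]
  have h := nm_pos hz
  have h2 : (0 : ℝ) < nm z := by exact_mod_cast h
  rw [Complex.norm_natCast]
  exact div_self h2.ne'

theorem BAS_uu_zero : uu 0 = 0 := by
  unfold uu
  simp

theorem norm_uu_le (z : GI) : ‖uu z‖ ≤ 1 := by
  by_cases h : z = 0
  · rw [h, BAS_uu_zero]
    simp
  · exact (norm_uu h).le

theorem uu_ne {z : GI} (hz : z ≠ 0) : uu z ≠ 0 := by
  intro h
  have := norm_uu hz
  rw [h, norm_zero] at this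
  exact zero_ne_one this

theorem uu_star (z : GI) : uu (star z) = (starRingEnd ℂ) (uu z) := by
  unfold uu
  rw [GaussianInt.toComplex_star, nm_star, map_div₀, map_pow, map_natCast]

theorem uu_inv {z : GI} (hz : z ≠ 0) : (uu z)⁻¹ = (starRingEnd ℂ) (uu z) := by
  rw [Complex.inv_def, Complex.normSq_eq_norm_sq, norm_uu hz]
  simp

theorem uu_mul_zpow (z w : GI) (k : ℤ) : uu (z * w) ^ k = uu z ^ k * uu w ^ k := by
  rw [uu_mul, mul_zpow]

theorem norm_uu_zpow {z : GI} (hz : z ≠ 0) (k : ℤ) : ‖uu z ^ k‖ = 1 := by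
  rw [norm_zpow, norm_uu hz, one_zpow]

theorem norm_uu_zpow_le (z : GI) (k : ℤ) : ‖uu z ^ k‖ ≤ 1 := by
  by_cases h : z = 0
  · rw [h, BAS_uu_zero]
    by_cases hk : k = 0
    · rw [hk]; simp
    · rw [zero_zpow k hk]; simp
  · exact (norm_uu_zpow h k).le

theorem mem_ann {a b : ℝ} {z : GI} : z ∈ ann a b ↔ Od z ∧ a < (nm z : ℝ) ∧ (nm z : ℝ) ≤ b := by
  classical
  unfold ann
  rw [mem_filter, mem_image]
  constructor
  · rintro ⟨_, h⟩
    exact h
  · intro h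
    refine ⟨⟨(z.re, z.im), ?_, rfl⟩, h⟩
    obtain ⟨h1, h2, h3⟩ := h
    have h4 : nm z ≤ ⌊b⌋₊ := Nat.le_floor h3
    have h5 := nm_int z
    have h6 : (nm z : ℤ) ≤ (⌊b⌋₊ : ℤ) := by exact_mod_cast h4
    rw [mem_product, mem_Icc, mem_Icc]
    have key : ∀ x : ℤ, x ^ 2 ≤ (⌊b⌋₊ : ℤ) → -(⌊b⌋₊ : ℤ) ≤ x ∧ x ≤ (⌊b⌋₊ : ℤ) := by
      intro x hx
      have h7 : |x| ≤ x ^ 2 := by
        rw [← sq_abs]
        rcases eq_or_ne x 0 with rfl | hx0
        · simp
        · have : 1 ≤ |x| := Int.one_le_abs hx0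
          nlinarith
      exact abs_le.1 (h7.trans hx)
    refine ⟨key _ ?_, key _ ?_⟩
    · nlinarith [sq_nonneg z.im]
    · nlinarith [sq_nonneg z.re]

theorem mem_pan {a b : ℝ} {z : GI} :
    z ∈ pan a b ↔ Od z ∧ Pr z ∧ a < (nm z : ℝ) ∧ (nm z : ℝ) ≤ b := by
  classical
  unfold pan
  rw [mem_filter, mem_ann]
  tauto

theorem pan_subset (a b : ℝ) : pan a b ⊆ ann a b := by
  classical
  unfold pan
  exact filter_subset _ _

/-- odd (or even) integers in a symmetric interval -/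
theorem BAS_card_odd (s : ℕ) (r : ℤ) :
    ((Icc (-(s : ℤ)) (s : ℤ)).filter (fun x => x % 2 = r)).card ≤ s + 1 := by
  have h : ((Icc (-(s : ℤ)) (s : ℤ)).filter (fun x => x % 2 = r)).card ≤ (range (s + 1)).card := by
    apply card_le_card_of_injOn (fun x : ℤ => ((x + (s : ℤ)) / 2).toNat)
    · intro x hx
      rw [mem_coe, mem_filter, mem_Icc] at hx
      rw [mem_coe, mem_range]
      show ((x + (s : ℤ)) / 2).toNat < s + 1
      omega
    · intro x hx y hy hxy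
      rw [mem_coe, mem_filter, mem_Icc] at hx hy
      simp only at hxy
      omega
  rw [card_range] at h
  exact h

theorem card_ann_le (a : ℝ) {b : ℝ} (hb : 0 ≤ b) : ((ann a b).card : ℝ) ≤ 4 * b := by
  classical
  by_cases hb1 : b < 1
  · have : ann a b = ∅ := by
      rw [eq_empty_iff_forall_notMem]
      intro z hz
      rw [mem_ann] at hz
      obtain ⟨h1, _, h2⟩ := hz
      have h3 := nm_pos (Od_ne h1)
      have h4 : (1 : ℝ) ≤ nm z := by exact_mod_cast h3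
      linarith
    rw [this]
    simp only [card_empty, Nat.cast_zero]
    linarith
  push Not at hb1
  set s := ⌊Real.sqrt b⌋₊ with hs
  have hcard : (ann a b).card ≤
      (((Icc (-(s : ℤ)) (s : ℤ)).filter (fun x => x % 2 = 1)) ×ˢ
        ((Icc (-(s : ℤ)) (s : ℤ)).filter (fun x => x % 2 = 0))).card := by
    apply card_le_card_of_injOn (fun z : GI => (z.re, z.im))
    · intro z hz
      rw [mem_coe, mem_ann] at hz
      obtain ⟨h1, _, h2⟩ := hz
      rw [nm_real] at h2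
      have key : ∀ x : ℤ, (x : ℝ) ^ 2 ≤ b → -(s : ℤ) ≤ x ∧ x ≤ (s : ℤ) := by
        intro x hx
        have h3 : |(x : ℝ)| ≤ Real.sqrt b := Real.abs_le_sqrt hx
        have h4 : x.natAbs ≤ s := by
          apply Nat.le_floor
          rw [Nat.cast_natAbs, Int.cast_abs]
          exact h3
        omega
      rw [mem_coe, mem_product, mem_filter, mem_filter, mem_Icc, mem_Icc]
      refine ⟨⟨key _ ?_, h1.1⟩, ⟨key _ ?_, h1.2⟩⟩
      · nlinarith [sq_nonneg (z.im : ℝ)]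
      · nlinarith [sq_nonneg (z.re : ℝ)]
    · intro z _ w _ hzw
      simp only [Prod.mk.injEq] at hzw
      exact Zsqrtd.ext hzw.1 hzw.2
  rw [card_product] at hcard
  have h1 := BAS_card_odd s 1
  have h2 := BAS_card_odd s 0
  have h3 : (ann a b).card ≤ (s + 1) * (s + 1) := hcard.trans (Nat.mul_le_mul h1 h2)
  have h4 : ((ann a b).card : ℝ) ≤ ((s : ℝ) + 1) * ((s : ℝ) + 1) := by exact_mod_cast h3
  have h5 : (s : ℝ) ≤ Real.sqrt b := Nat.floor_le (Real.sqrt_nonneg b)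
  have h6 : Real.sqrt b * Real.sqrt b = b := Real.mul_self_sqrt hb
  have h7 : 1 ≤ Real.sqrt b := by
    rw [Real.one_le_sqrt]
    exact hb1
  have h8 : (0 : ℝ) ≤ s := Nat.cast_nonneg s
  nlinarith

theorem dt_mul (d z w : GI) : dt (d * z) (d * w) = nm d * dt z w := by
  rw [nm_int]
  unfold dt
  rw [Zsqrtd.re_mul, Zsqrtd.im_mul, Zsqrtd.re_mul, Zsqrtd.im_mul]
  ring

theorem dt_self (z : GI) : dt z z = 0 := by
  unfold dt
  ring

theorem dt_neg_right (z w : GI) : dt z (-w) = -dt z w := by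
  unfold dt
  rw [Zsqrtd.re_neg, Zsqrtd.im_neg]
  ring

theorem dt_neg_left (z w : GI) : dt (-z) w = -dt z w := by
  unfold dt
  rw [Zsqrtd.re_neg, Zsqrtd.im_neg]
  ring

theorem dt_swap (z w : GI) : dt w z = -dt z w := by
  unfold dt
  ring

theorem dt_add_right (z w x : GI) : dt z (w + x) = dt z w + dt z x := by
  unfold dt
  rw [Zsqrtd.re_add, Zsqrtd.im_add]
  ring

theorem dt_add_left (z w x : GI) : dt (z + w) x = dt z x + dt w x := by
  unfold dt
  rw [Zsqrtd.re_add, Zsqrtd.im_add]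
  ring

/-- elements of the class have even determinants -/
theorem dt_even {z w : GI} (hz : Od z) (hw : Od w) : dt z w % 2 = 0 := by
  obtain ⟨h1, h2⟩ := hz
  obtain ⟨h3, h4⟩ := hw
  obtain ⟨b, hb⟩ : ∃ b, z.im = 2 * b := ⟨z.im / 2, by omega⟩
  obtain ⟨c, hc⟩ : ∃ b, w.im = 2 * b := ⟨w.im / 2, by omega⟩
  unfold dt
  rw [hb, hc, show z.re * (2 * c) - 2 * b * w.re = 2 * (z.re * c - b * w.re) by ring]
  omega

theorem eq_or_neg_of_dt {z w : GI} (hz : Pr z) (hw : Pr w) (h : dt z w = 0) :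
    w = z ∨ w = -z := by
  unfold dt at h
  unfold Pr at hz hw
  have h1 : z.re * w.im = z.im * w.re := by linarith
  have hz' : IsCoprime z.re z.im := Int.isCoprime_iff_gcd_eq_one.2 hz
  have hw' : IsCoprime w.re w.im := Int.isCoprime_iff_gcd_eq_one.2 hw
  have d1 : z.re ∣ w.re := by
    have : z.re ∣ z.im * w.re := ⟨w.im, h1.symm⟩
    exact hz'.dvd_of_dvd_mul_left this
  have d2 : w.re ∣ z.re := by
    have : w.re ∣ w.im * z.re := ⟨z.im, by linarith⟩
    exact hw'.dvd_of_dvd_mul_left this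
  have d3 : z.im ∣ w.im := by
    have : z.im ∣ z.re * w.im := ⟨w.re, h1⟩
    exact hz'.symm.dvd_of_dvd_mul_left this
  have d4 : w.im ∣ z.im := by
    have : w.im ∣ w.re * z.im := ⟨z.re, by linarith⟩
    exact hw'.symm.dvd_of_dvd_mul_left this
  have e1 : w.re = z.re ∨ w.re = -z.re := by
    have := Int.natAbs_dvd_natAbs.2 d1
    have h' := Int.natAbs_dvd_natAbs.2 d2
    exact Int.natAbs_eq_natAbs_iff.1 (Nat.dvd_antisymm h' this)
  have e2 : w.im = z.im ∨ w.im = -z.im := by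
    have := Int.natAbs_dvd_natAbs.2 d3
    have h' := Int.natAbs_dvd_natAbs.2 d4
    exact Int.natAbs_eq_natAbs_iff.1 (Nat.dvd_antisymm h' this)
  rcases e1 with e1 | e1 <;> rcases e2 with e2 | e2
  · left; exact Zsqrtd.ext e1 e2
  · rw [e1, e2] at h1
    have h3 : z.re * z.im = 0 := by linarith
    rcases mul_eq_zero.1 h3 with h4 | h4
    · right
      apply Zsqrtd.ext
      · rw [Zsqrtd.re_neg, e1, h4]; simp
      · rw [Zsqrtd.im_neg, e2]
    · left
      apply Zsqrtd.ext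
      · exact e1
      · rw [e2, h4]; simp
  · rw [e1, e2] at h1
    have h3 : z.re * z.im = 0 := by linarith
    rcases mul_eq_zero.1 h3 with h4 | h4
    · left
      apply Zsqrtd.ext
      · rw [e1, h4]; simp
      · exact e2
    · right
      apply Zsqrtd.ext
      · rw [Zsqrtd.re_neg, e1]
      · rw [Zsqrtd.im_neg, e2, h4]; simp
  · right
    apply Zsqrtd.ext
    · rw [Zsqrtd.re_neg, e1]
    · rw [Zsqrtd.im_neg, e2]

theorem norm_uu_sub {z w : GI} (hz : z ≠ 0) (hw : w ≠ 0) :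
    ‖uu z - uu w‖ ^ 2 * ((nm z : ℝ) * nm w) = 4 * (dt z w : ℝ) ^ 2 := by
  have hnz : (nm z : ℝ) ≠ 0 := by exact_mod_cast (nm_pos hz).ne'
  have hnw : (nm w : ℝ) ≠ 0 := by exact_mod_cast (nm_pos hw).ne'
  have ez : GaussianInt.toComplex z = (z.re : ℂ) + (z.im : ℂ) * Complex.I :=
    GaussianInt.toComplex_def z
  have ew : GaussianInt.toComplex w = (w.re : ℂ) + (w.im : ℂ) * Complex.I :=
    GaussianInt.toComplex_def w
  have huz : uu z = ((((z.re : ℝ) ^ 2 - (z.im : ℝ) ^ 2) / nm z : ℝ) : ℂ) +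
      (((2 * (z.re : ℝ) * (z.im : ℝ)) / nm z : ℝ) : ℂ) * Complex.I := by
    unfold uu
    rw [ez]
    push_cast
    have h1 : ((z.re : ℂ) + (z.im : ℂ) * Complex.I) ^ 2 =
      (z.re : ℂ) ^ 2 - (z.im : ℂ) ^ 2 + 2 * (z.re : ℂ) * (z.im : ℂ) * Complex.I := by
      have := Complex.I_sq
      linear_combination (z.im : ℂ) ^ 2 * this
    rw [h1]
    ring
  have huw : uu w = ((((w.re : ℝ) ^ 2 - (w.im : ℝ) ^ 2) / nm w : ℝ) : ℂ) +
      (((2 * (w.re : ℝ) * (w.im : ℝ)) / nm w : ℝ) : ℂ) * Complex.I := by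
    unfold uu
    rw [ew]
    push_cast
    have h1 : ((w.re : ℂ) + (w.im : ℂ) * Complex.I) ^ 2 =
      (w.re : ℂ) ^ 2 - (w.im : ℂ) ^ 2 + 2 * (w.re : ℂ) * (w.im : ℂ) * Complex.I := by
      have := Complex.I_sq
      linear_combination (w.im : ℂ) ^ 2 * this
    rw [h1]
    ring
  have hdiff : uu z - uu w =
      (((((z.re : ℝ) ^ 2 - (z.im : ℝ) ^ 2) / nm z - ((w.re : ℝ) ^ 2 - (w.im : ℝ) ^ 2) / nm w : ℝ)) : ℂ) +
      ((((2 * (z.re : ℝ) * (z.im : ℝ)) / nm z - (2 * (w.re : ℝ) * (w.im : ℝ)) / nm w : ℝ)) : ℂ)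
        * Complex.I := by
    rw [huz, huw]
    push_cast
    ring
  rw [Complex.sq_norm, hdiff, Complex.normSq_add_mul_I]
  have hdt : (dt z w : ℝ) = (z.re : ℝ) * w.im - (z.im : ℝ) * w.re := by
    unfold dt
    push_cast
    ring
  rw [hdt]
  have rz := nm_real z
  have rw' := nm_real w
  have hnz' : ((z.re : ℝ) ^ 2 + (z.im : ℝ) ^ 2) ≠ 0 := by rw [← rz]; exact hnz
  have hnw' : ((w.re : ℝ) ^ 2 + (w.im : ℝ) ^ 2) ≠ 0 := by rw [← rw']; exact hnw
  rw [rz, rw']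
  field_simp
  ring

theorem norm_sp_le (s : Finset GI) (c : GI → ℂ) (k : ℤ) : ‖sp s c k‖ ≤ ∑ z ∈ s, ‖c z‖ := by
  unfold sp
  refine (norm_sum_le _ _).trans (sum_le_sum fun z _ => ?_)
  rw [norm_mul]
  calc ‖c z‖ * ‖uu z ^ k‖ ≤ ‖c z‖ * 1 :=
        mul_le_mul_of_nonneg_left (norm_uu_zpow_le z k) (norm_nonneg _)
    _ = ‖c z‖ := mul_one _

theorem gf_mul {f : ℕ → ℂ} (hf : CM f) {z w : GI} (hz : z ≠ 0) (hw : w ≠ 0) :
    gf f (z * w) = gf f z * gf f w := by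
  unfold gf
  rw [nm_mul, hf.mul _ _ (nm_pos hz) (nm_pos hw)]

theorem norm_gf_le {f : ℕ → ℂ} (hf : CM f) (z : GI) : ‖gf f z‖ ≤ 1 := hf.norm_le _

theorem PP_prime {p : GI} (hp : PP p) : Prime p := by
  obtain ⟨h1, h2, h3, h4⟩ := hp
  have hirr : Irreducible p := by
    constructor
    · intro hu
      have := Zsqrtd.norm_eq_one_iff.2 hu
      have h5 : nm p = 1 := this
      rw [h5] at h4
      exact Nat.not_prime_one h4
    · intro a b hab
      rw [hab, nm_mul] at h4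
      rcases Nat.prime_mul_iff.1 h4 with ⟨_, h6⟩ | ⟨_, h6⟩
      · right; exact Zsqrtd.norm_eq_one_iff.1 h6
      · left; exact Zsqrtd.norm_eq_one_iff.1 h6
  exact hirr.prime

theorem PP_three_le {p : GI} (hp : PP p) : 5 ≤ nm p := by
  obtain ⟨h1, h2, h3, h4⟩ := hp
  have h5 := Od_nm h1
  have h6 := h4.two_le
  omega

theorem PP_Pr {p : GI} (hp : PP p) : Pr p := by
  obtain ⟨h1, h2, h3, h4⟩ := hp
  unfold Pr
  by_contra hc
  obtain ⟨q, hq, hqd⟩ := Nat.exists_prime_and_dvd hc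
  have h5 : (q : ℤ) ∣ p.re := (Int.natCast_dvd_natCast.2 hqd).trans (Int.gcd_dvd_left ..)
  have h6 : (q : ℤ) ∣ p.im := (Int.natCast_dvd_natCast.2 hqd).trans (Int.gcd_dvd_right ..)
  obtain ⟨a, ha⟩ := h5
  obtain ⟨b, hb⟩ := h6
  have h7 := nm_int p
  have h8 : (nm p : ℤ) = q * (q * (a ^ 2 + b ^ 2)) := by rw [h7, ha, hb]; ring
  have h9 : (q : ℤ) ∣ nm p := ⟨_, h8⟩
  have h10 : q ∣ nm p := by exact_mod_cast h9
  have h11 : q = nm p := (Nat.prime_dvd_prime_iff_eq hq h4).1 h10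
  have h12 : (0 : ℤ) < q := by exact_mod_cast hq.pos
  rw [← h11] at h8
  have h13 : (1 : ℤ) = q * (a ^ 2 + b ^ 2) := by
    have : (q : ℤ) * 1 = q * (q * (a ^ 2 + b ^ 2)) := by linarith
    exact mul_left_cancel₀ h12.ne' this
  have h14 : (q : ℤ) ∣ 1 := ⟨_, h13⟩
  have h15 : q ∣ 1 := by exact_mod_cast h14
  exact hq.one_lt.ne' (Nat.dvd_one.1 h15)

/-- units of the Gaussian integers -/
theorem BAS_unit {u : GI} (h : IsUnit u) : u = 1 ∨ u = -1 ∨ u = ⟨0, 1⟩ ∨ u = ⟨0, -1⟩ := by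
  have h1 : nm u = 1 := Zsqrtd.norm_eq_one_iff.2 h
  have h2 := nm_int u
  rw [h1] at h2
  push_cast at h2
  have h3 : u.re ^ 2 ≤ 1 := by nlinarith [sq_nonneg u.im]
  have h4 : u.im ^ 2 ≤ 1 := by nlinarith [sq_nonneg u.re]
  have h5 : -1 ≤ u.re ∧ u.re ≤ 1 := abs_le.1 (by
    have := sq_le_one_iff_abs_le_one u.re |>.1 h3
    exact this)
  have h6 : -1 ≤ u.im ∧ u.im ≤ 1 := abs_le.1 (by
    have := sq_le_one_iff_abs_le_one u.im |>.1 h4
    exact this)
  obtain ⟨x, y⟩ := u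
  simp only at h2 h3 h4 h5 h6
  obtain ⟨h5a, h5b⟩ := h5
  obtain ⟨h6a, h6b⟩ := h6
  have hx : x = -1 ∨ x = 0 ∨ x = 1 := by omega
  have hy : y = -1 ∨ y = 0 ∨ y = 1 := by omega
  rcases hx with rfl | rfl | rfl <;> rcases hy with rfl | rfl | rfl
  · norm_num at h2
  · right; left; rfl
  · norm_num at h2
  · right; right; right; rfl
  · norm_num at h2
  · right; right; left; rfl
  · norm_num at h2
  · left; rfl
  · norm_num at h2

theorem BAS_assoc {p q : GI} (hp : Od p) (hq : Od q) (h : Associated p q) : q = p ∨ q = -p := by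
  obtain ⟨u, hu⟩ := h
  obtain ⟨h1, h2⟩ := hp
  obtain ⟨h3, h4⟩ := hq
  rcases BAS_unit u.isUnit with e | e | e | e
  · left; rw [← hu, e, mul_one]
  · right; rw [← hu, e]; ring
  · exfalso
    rw [e] at hu
    have := congrArg Zsqrtd.re hu
    rw [Zsqrtd.re_mul] at this
    simp at this
    omega
  · exfalso
    rw [e] at hu
    have := congrArg Zsqrtd.re hu
    rw [Zsqrtd.re_mul] at this
    simp at this
    omega

theorem BAS_assoc_of_dvd {p q : GI} (hp : (nm p).Prime) (hq : (nm q).Prime) (h : p ∣ q) :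
    Associated p q := by
  obtain ⟨v, hv⟩ := h
  have h1 : nm q = nm p * nm v := by rw [hv, nm_mul]
  have h2 : nm p ∣ nm q := ⟨_, h1⟩
  have h3 : nm p = nm q := (Nat.prime_dvd_prime_iff_eq hp hq).1 h2
  have h4 : nm v = 1 := by
    rw [← h3] at h1
    have h5 : nm p * 1 = nm p * nm v := by rw [mul_one]; exact h1
    exact (Nat.eq_of_mul_eq_mul_left hp.pos h5).symm
  have h5 : IsUnit v := Zsqrtd.norm_eq_one_iff.1 h4
  exact ⟨h5.unit, by rw [hv]; rfl⟩

theorem PP_not_dvd_star {p q : GI} (hp : PP p) (hq : PP q) : ¬ p ∣ star q := by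
  intro h
  have h1 : (nm (star q)).Prime := by rw [nm_star]; exact hq.2.2.2
  have h2 := BAS_assoc_of_dvd hp.2.2.2 h1 h
  rcases BAS_assoc hp.1 (Od_star hq.1) h2 with e | e
  · have := congrArg Zsqrtd.im e
    rw [Zsqrtd.im_star] at this
    have h3 := hp.2.2.1
    have h4 := hq.2.2.1
    omega
  · have := congrArg Zsqrtd.re e
    rw [Zsqrtd.re_star, Zsqrtd.re_neg] at this
    have h3 := hp.2.1
    have h4 := hq.2.1
    omega

theorem PP_dvd_PP {p q : GI} (hp : PP p) (hq : PP q) (h : p ∣ q) : p = q := by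
  have h2 := BAS_assoc_of_dvd hp.2.2.2 hq.2.2.2 h
  rcases BAS_assoc hp.1 hq.1 h2 with e | e
  · exact e.symm
  · exfalso
    have := congrArg Zsqrtd.re e
    rw [Zsqrtd.re_neg] at this
    have h3 := hp.2.1
    have h4 := hq.2.1
    omega

theorem BAS_mul_star (q : GI) : q * star q = (nm q : GI) := by
  have h := nm_int q
  apply Zsqrtd.ext
  · rw [Zsqrtd.re_mul, Zsqrtd.re_star, Zsqrtd.im_star, Zsqrtd.re_natCast]
    rw [h]; ring
  · rw [Zsqrtd.im_mul, Zsqrtd.re_star, Zsqrtd.im_star, Zsqrtd.im_natCast]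
    ring

/-- `p` and `star p` are not associated; distinct elements of `PP` have distinct norms -/
theorem PP_inj {p q : GI} (hp : PP p) (hq : PP q) (h : nm p = nm q) : p = q := by
  have h1 : p ∣ q * star q := by
    rw [BAS_mul_star, ← h, ← BAS_mul_star]
    exact Dvd.intro _ rfl
  rcases (PP_prime hp).dvd_or_dvd h1 with h2 | h2
  · exact PP_dvd_PP hp hq h2
  · exact absurd h2 (PP_not_dvd_star hp hq)

theorem PP_exists {p : ℕ} (hp : p.Prime) (h4 : p % 4 = 1) : ∃ q : GI, PP q ∧ nm q = p := by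
  have : Fact p.Prime := ⟨hp⟩
  obtain ⟨a, b, hab⟩ := Nat.Prime.sq_add_sq (p := p) (by omega)
  have key : ∀ a b : ℕ, a ^ 2 + b ^ 2 = p → a % 2 = 1 → b % 2 = 0 → ∃ q : GI, PP q ∧ nm q = p := by
    intro a b hab ha hb
    have hb0 : b ≠ 0 := by
      rintro rfl
      have : a ^ 2 = p := by simpa using hab
      rw [← this] at hp
      exact (Nat.Prime.not_prime_pow (le_refl 2)) hp
    have hn : nm ⟨a, b⟩ = p := by
      have := nm_int ⟨a, b⟩
      simp only at this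
      have h2 : ((a ^ 2 + b ^ 2 : ℕ) : ℤ) = p := by exact_mod_cast hab
      push_cast at h2
      rw [h2] at this
      exact_mod_cast this
    refine ⟨⟨a, b⟩, ⟨⟨?_, ?_⟩, ?_, ?_, ?_⟩, hn⟩
    · show (a : ℤ) % 2 = 1
      omega
    · show (b : ℤ) % 2 = 0
      omega
    · show (0 : ℤ) < a
      omega
    · show (0 : ℤ) < b
      omega
    · rw [hn]; exact hp
  rcases Nat.even_or_odd a with ha | ha <;> rcases Nat.even_or_odd b with hb | hb
  · exfalso
    obtain ⟨c, hc⟩ := ha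
    obtain ⟨d, hd⟩ := hb
    have : a ^ 2 + b ^ 2 = 4 * (c ^ 2 + d ^ 2) := by rw [hc, hd]; ring
    omega
  · exact key b a (by rw [add_comm]; exact hab) (Nat.odd_iff.1 hb) (Nat.even_iff.1 ha)
  · exact key a b hab (Nat.odd_iff.1 ha) (Nat.even_iff.1 hb)
  · exfalso
    obtain ⟨c, hc⟩ := ha
    obtain ⟨d, hd⟩ := hb
    have : a ^ 2 + b ^ 2 = 4 * (c ^ 2 + d ^ 2 + c + d) + 2 := by rw [hc, hd]; ring
    omega

end Pool.Agent.MRS
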