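import Pool.Agent.MRS.Basic

set_option autoImplicit false

/-! Module FEJ: Fejer kernel.  `∑_{|k| ≤ K} (1 - |k|/(K+1)) w^k = (1/(K+1)) |∑_{j ≤ K} w^j|^2` for `|w| = 1`. -/

open Finset

namespace Pool.Agent.MRS

/-- the Fejer kernel -/
noncomputable def ff (K : ℕ) (w : ℂ) : ℝ := (1 / ((K : ℝ) + 1)) * ‖∑ j ∈ range (K + 1), w ^ j‖ ^ 2

theorem fw_nonneg {K : ℕ} {k : ℤ} (hk : k ∈ Icc (-(K : ℤ)) (K : ℤ)) : 0 ≤ fw K k := by
  unfold fw
  have hk' := Finset.mem_Icc.mp hk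
  have h1 : |(k : ℝ)| ≤ K := by
    rw [abs_le]
    constructor
    · exact_mod_cast hk'.1
    · exact_mod_cast hk'.2
  have hK : (0 : ℝ) < K + 1 := by positivity
  rw [sub_nonneg, div_le_one hK]
  linarith

theorem fw_le_one (K : ℕ) (k : ℤ) : fw K k ≤ 1 := by
  unfold fw
  have : 0 ≤ |(k : ℝ)| / (K + 1) := by positivity
  linarith

theorem fw_zero (K : ℕ) : fw K 0 = 1 := by
  unfold fw
  simp

/-- weight at least `1/2` on `|k| ≤ K` for the kernel of order `2 K` -/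
theorem fw_half {K : ℕ} {k : ℤ} (hk : k ∈ Icc (-(K : ℤ)) (K : ℤ)) : 1 / 2 ≤ fw (2 * K) k := by
  unfold fw
  have hk' := Finset.mem_Icc.mp hk
  have h1 : |(k : ℝ)| ≤ K := by
    rw [abs_le]
    constructor
    · exact_mod_cast hk'.1
    · exact_mod_cast hk'.2
  have hK : (0 : ℝ) < ((2 * K : ℕ) : ℝ) + 1 := by positivity
  have h2 : |(k : ℝ)| / (((2 * K : ℕ) : ℝ) + 1) ≤ 1 / 2 := by
    rw [div_le_iff₀ hK]
    push_cast
    linarith
  linarith

theorem ff_nonneg (K : ℕ) (w : ℂ) : 0 ≤ ff K w := by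
  unfold ff
  positivity

theorem ff_le {K : ℕ} {w : ℂ} (hw : ‖w‖ = 1) : ff K w ≤ (K : ℝ) + 1 := by
  unfold ff
  have hK : (0 : ℝ) < K + 1 := by positivity
  have h1 : ‖∑ j ∈ range (K + 1), w ^ j‖ ≤ (K : ℝ) + 1 := by
    calc ‖∑ j ∈ range (K + 1), w ^ j‖ ≤ ∑ j ∈ range (K + 1), ‖w ^ j‖ := norm_sum_le _ _
      _ = ∑ j ∈ range (K + 1), (1 : ℝ) := by
          apply Finset.sum_congr rfl
          intro j _
          rw [norm_pow, hw, one_pow]
      _ = (K : ℝ) + 1 := by simp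
  have h2 : ‖∑ j ∈ range (K + 1), w ^ j‖ ^ 2 ≤ ((K : ℝ) + 1) ^ 2 :=
    pow_le_pow_left₀ (norm_nonneg _) h1 2
  calc 1 / ((K : ℝ) + 1) * ‖∑ j ∈ range (K + 1), w ^ j‖ ^ 2
      ≤ 1 / ((K : ℝ) + 1) * ((K : ℝ) + 1) ^ 2 := by
        apply mul_le_mul_of_nonneg_left h2
        positivity
    _ = (K : ℝ) + 1 := by
        field_simp

theorem ff_le_sq {K : ℕ} {w : ℂ} (hw : ‖w‖ = 1) (h1 : w ≠ 1) :
    ff K w ≤ 4 / (((K : ℝ) + 1) * ‖1 - w‖ ^ 2) := by
  unfold ff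
  have hK : (0 : ℝ) < K + 1 := by positivity
  have hw1 : w - 1 ≠ 0 := sub_ne_zero.mpr h1
  have hn : 0 < ‖1 - w‖ := by
    rw [norm_pos_iff]
    intro h
    apply hw1
    rw [← neg_sub, h, neg_zero]
  have h2 : ‖∑ j ∈ range (K + 1), w ^ j‖ ≤ 2 / ‖1 - w‖ := by
    rw [geom_sum_eq h1, norm_div, norm_sub_rev w 1]
    apply div_le_div_of_nonneg_right _ hn.le
    calc ‖w ^ (K + 1) - 1‖ ≤ ‖w ^ (K + 1)‖ + ‖(1 : ℂ)‖ := norm_sub_le _ _
      _ = 2 := by rw [norm_pow, hw, one_pow, norm_one]; norm_num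
  have h3 : ‖∑ j ∈ range (K + 1), w ^ j‖ ^ 2 ≤ (2 / ‖1 - w‖) ^ 2 :=
    pow_le_pow_left₀ (norm_nonneg _) h2 2
  calc 1 / ((K : ℝ) + 1) * ‖∑ j ∈ range (K + 1), w ^ j‖ ^ 2
      ≤ 1 / ((K : ℝ) + 1) * (2 / ‖1 - w‖) ^ 2 := by
        apply mul_le_mul_of_nonneg_left h3
        positivity
    _ = 4 / (((K : ℝ) + 1) * ‖1 - w‖ ^ 2) := by
        field_simp
        norm_num

theorem FEJ_conj_pow {w : ℂ} (hw : ‖w‖ = 1) (j : ℕ) : (starRingEnd ℂ) w ^ j = w ^ (-(j : ℤ)) := by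
  have hw0 : w ≠ 0 := by
    intro h
    rw [h, norm_zero] at hw
    exact zero_ne_one hw
  have h1 : (starRingEnd ℂ) w = w⁻¹ := by
    rw [Complex.inv_def, Complex.normSq_eq_norm_sq, hw]
    simp
  rw [h1, zpow_neg, zpow_natCast, inv_pow]

/-- `|∑_{j ≤ K} w^j|^2 = ∑_k (K + 1 - |k|) w^k` -/
theorem FEJ_sq {w : ℂ} (hw : ‖w‖ = 1) (K : ℕ) :
    ((‖∑ j ∈ range (K + 1), w ^ j‖ ^ 2 : ℝ) : ℂ)
      = ∑ k ∈ Icc (-(K : ℤ)) (K : ℤ), (((K : ℝ) + 1 - |(k : ℝ)| : ℝ) : ℂ) * w ^ k := by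
  have hw0 : w ≠ 0 := by
    intro h
    rw [h, norm_zero] at hw
    exact zero_ne_one hw
  have e1 : ((‖∑ j ∈ range (K + 1), w ^ j‖ ^ 2 : ℝ) : ℂ)
      = ∑ p ∈ range (K + 1) ×ˢ range (K + 1), w ^ ((p.1 : ℤ) - p.2) := by
    rw [Complex.ofReal_pow, ← Complex.mul_conj', map_sum, Finset.sum_mul_sum, Finset.sum_product]
    apply Finset.sum_congr rfl
    intro i _
    apply Finset.sum_congr rfl
    intro j _
    rw [map_pow, FEJ_conj_pow hw, sub_eq_add_neg, zpow_add₀ hw0, zpow_natCast]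
  rw [e1]
  have hmap : ∀ p ∈ range (K + 1) ×ˢ range (K + 1), (p.1 : ℤ) - p.2 ∈ Icc (-(K : ℤ)) (K : ℤ) := by
    intro p hp
    rw [Finset.mem_product, Finset.mem_range, Finset.mem_range] at hp
    rw [Finset.mem_Icc]
    omega
  rw [← Finset.sum_fiberwise_of_maps_to hmap]
  apply Finset.sum_congr rfl
  intro k hk
  have hk' := Finset.mem_Icc.mp hk
  have e2 : ∑ p ∈ (range (K + 1) ×ˢ range (K + 1)).filter (fun p => (p.1 : ℤ) - p.2 = k),
      w ^ ((p.1 : ℤ) - p.2)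
      = ((range (K + 1) ×ˢ range (K + 1)).filter (fun p => (p.1 : ℤ) - p.2 = k)).card * w ^ k := by
    rw [Finset.sum_congr rfl (g := fun _ => w ^ k), Finset.sum_const, nsmul_eq_mul]
    intro p hp
    rw [(Finset.mem_filter.mp hp).2]
  rw [e2]
  congr 1
  have e3 : ((range (K + 1) ×ˢ range (K + 1)).filter (fun p => (p.1 : ℤ) - p.2 = k)).card
      = K + 1 - k.natAbs := by
    rcases le_total 0 k with h0 | h0
    · obtain ⟨m, rfl⟩ := Int.eq_ofNat_of_zero_le h0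
      have : (range (K + 1) ×ˢ range (K + 1)).filter (fun p => (p.1 : ℤ) - p.2 = (m : ℤ))
          = (range (K + 1 - m)).image (fun j => (j + m, j)) := by
        ext ⟨a, b⟩
        simp only [Finset.mem_filter, Finset.mem_product, Finset.mem_range, Finset.mem_image,
          Prod.mk.injEq]
        constructor
        · intro h
          exact ⟨b, by omega, by omega, rfl⟩
        · rintro ⟨j, hj, h1, h2⟩
          omega
      rw [this, Finset.card_image_of_injective, Finset.card_range]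
      · simp
      · intro a b hab
        simpa using hab
    · obtain ⟨m, hm⟩ := Int.eq_ofNat_of_zero_le (neg_nonneg.mpr h0)
      have hkm : k = -(m : ℤ) := by linarith
      subst hkm
      have : (range (K + 1) ×ˢ range (K + 1)).filter (fun p => (p.1 : ℤ) - p.2 = -(m : ℤ))
          = (range (K + 1 - m)).image (fun j => (j, j + m)) := by
        ext ⟨a, b⟩
        simp only [Finset.mem_filter, Finset.mem_product, Finset.mem_range, Finset.mem_image,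
          Prod.mk.injEq]
        constructor
        · intro h
          exact ⟨a, by omega, rfl, by omega⟩
        · rintro ⟨j, hj, h1, h2⟩
          omega
      rw [this, Finset.card_image_of_injective, Finset.card_range]
      · simp
      · intro a b hab
        simpa using hab
  rw [e3]
  have h4 : k.natAbs ≤ K + 1 := by omega
  have h5 : ((K + 1 - k.natAbs : ℕ) : ℝ) = (K : ℝ) + 1 - |(k : ℝ)| := by
    rw [Nat.cast_sub h4]
    push_cast
    rw [Nat.cast_natAbs]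
    push_cast
    ring
  rw [← h5]
  push_cast
  rfl

theorem sum_fw {K : ℕ} {w : ℂ} (hw : ‖w‖ = 1) :
    ∑ k ∈ Icc (-(K : ℤ)) (K : ℤ), (fw K k : ℂ) * w ^ k = (ff K w : ℂ) := by
  unfold ff
  have hK : (K : ℝ) + 1 ≠ 0 := by positivity
  rw [Complex.ofReal_mul, FEJ_sq hw, Finset.mul_sum]
  apply Finset.sum_congr rfl
  intro k _
  rw [← mul_assoc, ← Complex.ofReal_mul]
  congr 2
  unfold fw
  field_simp

/-- kernel for two vectors -/
noncomputable def fk (K : ℕ) (z w : GI) : ℝ := ff K (uu z * (starRingEnd ℂ) (uu w))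

theorem fk_nonneg (K : ℕ) (z w : GI) : 0 ≤ fk K z w := ff_nonneg _ _

theorem FEJ_norm {z w : GI} (hz : z ≠ 0) (hw : w ≠ 0) :
    ‖uu z * (starRingEnd ℂ) (uu w)‖ = 1 := by
  rw [norm_mul, RCLike.norm_conj, norm_uu hz, norm_uu hw, one_mul]

theorem fk_le {K : ℕ} {z w : GI} (hz : z ≠ 0) (hw : w ≠ 0) : fk K z w ≤ (K : ℝ) + 1 :=
  ff_le (FEJ_norm hz hw)

/-- `|1 - u(z) conj u(w)| = |u(z) - u(w)|` -/
theorem FEJ_sub {z w : GI} (hw : w ≠ 0) :
    ‖1 - uu z * (starRingEnd ℂ) (uu w)‖ = ‖uu z - uu w‖ := by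
  have h1 : uu w * (starRingEnd ℂ) (uu w) = 1 := by
    rw [← uu_inv hw, mul_inv_cancel₀ (uu_ne hw)]
  calc ‖1 - uu z * (starRingEnd ℂ) (uu w)‖
      = ‖(uu w - uu z) * (starRingEnd ℂ) (uu w)‖ := by rw [sub_mul, h1]
    _ = ‖uu z - uu w‖ := by
        rw [norm_mul, RCLike.norm_conj, norm_uu hw, mul_one, norm_sub_rev]

/-- `F ≤ N(z) N(w) / ((K+1) det^2)` -/
theorem fk_le_dt {K : ℕ} {z w : GI} (hz : z ≠ 0) (hw : w ≠ 0) (h : dt z w ≠ 0) :
    fk K z w ≤ (nm z : ℝ) * nm w / (((K : ℝ) + 1) * (dt z w : ℝ) ^ 2) := by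
  have hNz : (0 : ℝ) < nm z := by exact_mod_cast nm_pos hz
  have hNw : (0 : ℝ) < nm w := by exact_mod_cast nm_pos hw
  have hd : (0 : ℝ) < (dt z w : ℝ) ^ 2 := by
    have : (dt z w : ℝ) ≠ 0 := by exact_mod_cast h
    positivity
  have hs := norm_uu_sub hz hw
  have hK : (0 : ℝ) < K + 1 := by positivity
  have hne : uu z * (starRingEnd ℂ) (uu w) ≠ 1 := by
    intro he
    have h0 : ‖uu z - uu w‖ = 0 := by
      rw [← FEJ_sub hw, he, sub_self, norm_zero]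
    rw [h0] at hs
    nlinarith
  have h1 := ff_le_sq (K := K) (FEJ_norm hz hw) hne
  unfold fk
  refine h1.trans (le_of_eq ?_)
  rw [FEJ_sub hw]
  have h2 : ‖uu z - uu w‖ ^ 2 = 4 * (dt z w : ℝ) ^ 2 / ((nm z : ℝ) * nm w) := by
    rw [eq_div_iff (by positivity)]
    exact hs
  rw [h2]
  field_simp

theorem ms_nonneg {K : ℕ} {F : ℤ → ℝ} (hF : ∀ k, 0 ≤ F k) : 0 ≤ ms K F := by
  unfold ms
  exact Finset.sum_nonneg (fun k hk => mul_nonneg (fw_nonneg hk) (hF k))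

/-- expansion of the mean square -/
theorem ms_expand {ι : Type} (K : ℕ) (s : Finset ι) (z : ι → GI) (hz : ∀ i ∈ s, z i ≠ 0)
    (c : ι → ℂ) :
    ((ms K (fun k => ‖∑ i ∈ s, c i * uu (z i) ^ k‖ ^ 2) : ℝ) : ℂ)
      = ∑ i ∈ s, ∑ j ∈ s, c i * (starRingEnd ℂ) (c j) * (fk K (z i) (z j) : ℂ) := by
  unfold ms
  rw [Complex.ofReal_sum]
  have e1 : ∀ k ∈ Icc (-(K : ℤ)) (K : ℤ),
      ((fw K k * ‖∑ i ∈ s, c i * uu (z i) ^ k‖ ^ 2 : ℝ) : ℂ)
        = ∑ i ∈ s, ∑ j ∈ s, c i * (starRingEnd ℂ) (c j) *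
            ((fw K k : ℂ) * (uu (z i) * (starRingEnd ℂ) (uu (z j))) ^ k) := by
    intro k _
    rw [Complex.ofReal_mul, Complex.ofReal_pow, ← Complex.mul_conj', map_sum, Finset.sum_mul_sum,
      Finset.mul_sum]
    apply Finset.sum_congr rfl
    intro i _
    rw [Finset.mul_sum]
    apply Finset.sum_congr rfl
    intro j _
    rw [map_mul, map_zpow₀, mul_zpow]
    ring
  rw [Finset.sum_congr rfl e1, Finset.sum_comm]
  apply Finset.sum_congr rfl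
  intro i hi
  rw [Finset.sum_comm]
  apply Finset.sum_congr rfl
  intro j hj
  rw [← Finset.mul_sum, sum_fw (FEJ_norm (hz i hi) (hz j hj))]
  rfl

end Pool.Agent.MRS
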