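import Pool.Agent.MRS.Basic

set_option autoImplicit false

/-! Module PMU: the multiplicative function `b_κ(n) = (1/2) ∑_{z primitive, N(z) = n} u(z)^κ`.
Coprime `m, n`: `(x,y) ↦ x y` maps pairs (primitive, norms `m`, `n`) two-to-one onto the primitive `z` of norm
`m n` (surjective: `x = gcd(z, m)`).  Norm `p^j`: `z = ± π^j, ± star π^j`. -/

open Finset

namespace Pool.Agent.MRS

/-- primitive elements of norm `n` -/
noncomputable def pn (n : ℕ) : Finset GI := open Classical in (pan 0 n).filter (fun z => nm z = n)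

theorem mem_pn {n : ℕ} {z : GI} : z ∈ pn n ↔ Od z ∧ Pr z ∧ nm z = n := by
  unfold pn
  rw [Finset.mem_filter, mem_pan]
  constructor
  · rintro ⟨⟨h1, h2, _, _⟩, h3⟩
    exact ⟨h1, h2, h3⟩
  · rintro ⟨h1, h2, h3⟩
    refine ⟨⟨h1, h2, ?_, ?_⟩, h3⟩
    · exact_mod_cast nm_pos (Od_ne h1)
    · rw [h3]

/-- `b_κ(n)` -/
noncomputable def bb (κ : ℤ) (n : ℕ) : ℂ := (1 / 2) * ∑ z ∈ pn n, uu z ^ κ

theorem PMU_nm_cast (z : GI) : ((nm z : ℕ) : GI) = z * star z := by
  apply Zsqrtd.ext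
  · have h := nm_int z
    simp only [Zsqrtd.re_natCast, Zsqrtd.re_mul, Zsqrtd.re_star, Zsqrtd.im_star]
    rw [h]; ring
  · simp only [Zsqrtd.im_natCast, Zsqrtd.im_mul, Zsqrtd.re_star, Zsqrtd.im_star]
    ring

theorem PMU_unit_of_nm {z : GI} (h : nm z = 1) : IsUnit z := by
  have := PMU_nm_cast z
  rw [h, Nat.cast_one] at this
  exact IsUnit.of_mul_eq_one _ this.symm

theorem PMU_nm_of_unit {z : GI} (h : IsUnit z) : nm z = 1 := by
  obtain ⟨w, hw⟩ := h.exists_right_inv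
  have h1 : nm z * nm w = 1 := by rw [← nm_mul, hw, nm_one]
  exact Nat.eq_one_of_mul_eq_one_right h1

theorem PMU_Od_unit {z : GI} (h : Od z) (h1 : nm z = 1) : z = 1 ∨ z = -1 := by
  have h2 := nm_int z
  rw [h1] at h2
  push_cast at h2
  obtain ⟨hr, hi⟩ := h
  have him : z.im = 0 := by
    by_contra hne
    have h3 : 1 ≤ z.im ^ 2 := by
      have := sq_nonneg z.im
      have h4 : z.im ^ 2 ≠ 0 := pow_ne_zero 2 hne
      omega
    have h5 : z.re ^ 2 = 0 := by
      have := sq_nonneg z.re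
      omega
    have h6 : z.re = 0 := pow_eq_zero_iff two_ne_zero |>.1 h5
    omega
  rw [him] at h2
  have h3 : (z.re - 1) * (z.re + 1) = 0 := by linarith
  rcases mul_eq_zero.1 h3 with h4 | h4
  · left
    apply Zsqrtd.ext
    · simp; omega
    · simpa using him
  · right
    apply Zsqrtd.ext
    · simp; omega
    · simpa using him

/-- two associated elements of the class differ by a sign -/
theorem PMU_assoc {z w : GI} (hz : Od z) (hw : Od w) (h : Associated z w) : w = z ∨ w = -z := by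
  obtain ⟨u, hu⟩ := h
  have h1 : Od (z * (u : GI)) := by rw [hu]; exact hw
  have h2 : Od (u : GI) := Od_of_mul hz h1
  rcases PMU_Od_unit h2 (PMU_nm_of_unit u.isUnit) with h3 | h3
  · left; rw [← hu, h3, mul_one]
  · right; rw [← hu, h3, mul_neg, mul_one]

theorem bb_one (κ : ℤ) : bb κ 1 = 1 := by
  have h : pn 1 = {1, -1} := by
    ext z
    rw [mem_pn, Finset.mem_insert, Finset.mem_singleton]
    constructor
    · rintro ⟨h1, _, h3⟩
      exact PMU_Od_unit h1 h3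
    · rintro (rfl | rfl)
      · refine ⟨Od_one, ?_, nm_one⟩
        unfold Pr; simp
      · refine ⟨Od_neg Od_one, ?_, by rw [nm_neg, nm_one]⟩
        apply Pr_neg
        unfold Pr; simp
  have hne : (1 : GI) ≠ -1 := by
    intro h
    have := congrArg Zsqrtd.re h
    simp at this
  unfold bb
  rw [h, Finset.sum_pair hne, uu_neg, uu_one]
  simp
  norm_num

theorem bb_zero (κ : ℤ) : bb κ 0 = 0 := by
  have h : pn 0 = ∅ := by
    apply Finset.eq_empty_of_forall_notMem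
    intro z hz
    rw [mem_pn] at hz
    exact Od_ne hz.1 (nm_eq_zero.1 hz.2.2)
  unfold bb
  rw [h, Finset.sum_empty, mul_zero]

theorem bb_im (κ : ℤ) (n : ℕ) : (bb κ n).im = 0 := by
  have h : (starRingEnd ℂ) (bb κ n) = bb κ n := by
    unfold bb
    rw [map_mul, map_sum]
    congr 1
    · simp [map_ofNat]
    · apply Finset.sum_nbij' (fun z => star z) (fun z => star z)
      · intro z hz
        rw [mem_pn] at hz ⊢
        exact ⟨Od_star hz.1, Pr_star hz.2.1, by rw [nm_star]; exact hz.2.2⟩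
      · intro z hz
        rw [mem_pn] at hz ⊢
        exact ⟨Od_star hz.1, Pr_star hz.2.1, by rw [nm_star]; exact hz.2.2⟩
      · intro z _; exact star_star z
      · intro z _; exact star_star z
      · intro z _
        rw [map_zpow₀, uu_star]
  exact Complex.conj_eq_iff_im.1 h

theorem PMU_coprime {x y : GI} (h : Nat.Coprime (nm x) (nm y)) : IsCoprime x y := by
  have h1 : IsCoprime ((nm x : ℕ) : ℤ) ((nm y : ℕ) : ℤ) := Nat.isCoprime_iff_coprime.2 h
  have h2 : IsCoprime ((nm x : ℕ) : GI) ((nm y : ℕ) : GI) := by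
    have := h1.map (Int.castRingHom GI)
    simpa using this
  rw [PMU_nm_cast, PMU_nm_cast] at h2
  exact h2.of_mul_left_left.of_mul_right_left

/-- the class up to units -/
theorem PMU_rot {x : GI} (h : nm x % 2 = 1) : Od x ∨ Od (x * ⟨0, 1⟩) := by
  have h2 := nm_int x
  have h3 : (x.re ^ 2 + x.im ^ 2) % 2 = 1 := by
    rw [← h2]; omega
  rcases Int.emod_two_eq_zero_or_one x.re with hr | hr
  · right
    have hi : x.im % 2 = 1 := by
      rcases Int.emod_two_eq_zero_or_one x.im with hi | hi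
      · exfalso
        have h4 : (x.re ^ 2 + x.im ^ 2) % 2 = 0 := by
          rw [Int.add_emod, pow_two, pow_two, Int.mul_emod, hr, Int.mul_emod x.im, hi]
          norm_num
        omega
      · exact hi
    constructor
    · simp only [Zsqrtd.re_mul]
      omega
    · simp only [Zsqrtd.im_mul]
      omega
  · left
    have hi : x.im % 2 = 0 := by
      rcases Int.emod_two_eq_zero_or_one x.im with hi | hi
      · exact hi
      · exfalso
        have h4 : (x.re ^ 2 + x.im ^ 2) % 2 = 0 := by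
          rw [Int.add_emod, pow_two, pow_two, Int.mul_emod, hr, Int.mul_emod x.im, hi]
          norm_num
        omega
    exact ⟨hr, hi⟩

/-- splitting a primitive element -/
theorem PMU_split {m n : ℕ} (h : Nat.Coprime m n) {z : GI} (hz : z ∈ pn (m * n)) :
    ∃ x ∈ pn m, ∃ y ∈ pn n, x * y = z := by
  rw [mem_pn] at hz
  obtain ⟨h1, h2, h3⟩ := hz
  have hd : z ∣ ((m : ℕ) : GI) * ((n : ℕ) : GI) := by
    refine ⟨star z, ?_⟩
    rw [← PMU_nm_cast, h3]
    push_cast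
    rfl
  obtain ⟨x, y, hx, hy, hxy⟩ := exists_dvd_and_dvd_of_dvd_mul hd
  have hpos : 0 < m * n := by rw [← h3]; exact nm_pos (Od_ne h1)
  have hm : 0 < m := Nat.pos_of_mul_pos_right hpos |> fun _ => Nat.pos_of_ne_zero (by rintro rfl; simp at hpos)
  have hn : 0 < n := Nat.pos_of_ne_zero (by rintro rfl; simp at hpos)
  have hnm : ∀ k : ℕ, nm ((k : ℕ) : GI) = k ^ 2 := by
    intro k
    have := nm_int ((k : ℕ) : GI)
    simp only [Zsqrtd.re_natCast, Zsqrtd.im_natCast] at this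
    have h' : (nm ((k : ℕ) : GI) : ℤ) = ((k ^ 2 : ℕ) : ℤ) := by rw [this]; push_cast; ring
    exact_mod_cast h'
  have hdx : nm x ∣ m ^ 2 := by
    obtain ⟨c, hc⟩ := hx
    refine ⟨nm c, ?_⟩
    rw [← nm_mul, ← hc, hnm]
  have hdy : nm y ∣ n ^ 2 := by
    obtain ⟨c, hc⟩ := hy
    refine ⟨nm c, ?_⟩
    rw [← nm_mul, ← hc, hnm]
  have hprod : nm x * nm y = m * n := by rw [← nm_mul, ← hxy, h3]
  have hcx : Nat.Coprime (nm x) n := Nat.Coprime.coprime_dvd_left hdx (Nat.Coprime.pow_left 2 h)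
  have hcy : Nat.Coprime (nm y) m := Nat.Coprime.coprime_dvd_left hdy (Nat.Coprime.pow_left 2 h.symm)
  have hx1 : nm x ∣ m := hcx.dvd_of_dvd_mul_right (hprod ▸ Dvd.intro _ rfl)
  have hy1 : nm y ∣ n := hcy.dvd_of_dvd_mul_left (hprod ▸ Dvd.intro_left _ rfl)
  have hxle := Nat.le_of_dvd hm hx1
  have hyle := Nat.le_of_dvd hn hy1
  have hxm : nm x = m := by
    by_contra hne
    have hlt : nm x < m := lt_of_le_of_ne hxle hne
    have : nm x * nm y < m * n := by
      calc nm x * nm y ≤ nm x * n := Nat.mul_le_mul_left _ hyle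
        _ < m * n := Nat.mul_lt_mul_of_pos_right hlt hn
    omega
  have hyn : nm y = n := by
    rw [hxm] at hprod
    exact Nat.eq_of_mul_eq_mul_left hm hprod
  have hodd : nm x % 2 = 1 := by
    have := Od_nm h1
    rw [h3, ← hprod] at this
    by_contra hne
    have h4 : nm x % 2 = 0 := by omega
    have h5 : (nm x * nm y) % 2 = 0 := by rw [Nat.mul_mod, h4]; simp
    omega
  rcases PMU_rot hodd with ho | ho
  · refine ⟨x, ?_, y, ?_, hxy.symm⟩
    · rw [mem_pn]
      exact ⟨ho, Pr_of_dvd ⟨y, hxy⟩ h2, hxm⟩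
    · rw [mem_pn]
      refine ⟨Od_of_mul ho (by rw [← hxy]; exact h1), Pr_of_dvd ⟨x, by rw [hxy, mul_comm]⟩ h2, hyn⟩
  · set I : GI := ⟨0, 1⟩ with hI
    have hII : I * (-I) = 1 := by
      apply Zsqrtd.ext <;> simp [hI]
    have hIn : nm I = 1 := PMU_nm_of_unit (IsUnit.of_mul_eq_one _ hII)
    have hxy' : z = (x * I) * (y * (-I)) := by
      rw [hxy]
      calc x * y = x * y * (I * (-I)) := by rw [hII, mul_one]
        _ = _ := by ring
    refine ⟨x * I, ?_, y * (-I), ?_, hxy'.symm⟩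
    · rw [mem_pn]
      exact ⟨ho, Pr_of_dvd ⟨_, hxy'⟩ h2, by rw [nm_mul, hIn, mul_one, hxm]⟩
    · rw [mem_pn]
      refine ⟨Od_of_mul ho (by rw [← hxy']; exact h1), Pr_of_dvd ⟨x * I, by rw [hxy', mul_comm]⟩ h2, ?_⟩
      rw [nm_mul, nm_neg, hIn, mul_one, hyn]

theorem PMU_fiber {m n : ℕ} (h : Nat.Coprime m n) {x y x' y' : GI} (hx : x ∈ pn m) (hy : y ∈ pn n)
    (hx' : x' ∈ pn m) (hy' : y' ∈ pn n) (he : x' * y' = x * y) :
    (x' = x ∧ y' = y) ∨ (x' = -x ∧ y' = -y) := by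
  rw [mem_pn] at hx hy hx' hy'
  have hc : IsCoprime x y' := by
    apply PMU_coprime
    rw [hx.2.2, hy'.2.2]; exact h
  have hc' : IsCoprime x' y := by
    apply PMU_coprime
    rw [hx'.2.2, hy.2.2]; exact h
  have h1 : x ∣ x' := hc.dvd_of_dvd_mul_right (he ▸ Dvd.intro _ rfl)
  have h2 : x' ∣ x := hc'.dvd_of_dvd_mul_right (he ▸ Dvd.intro _ rfl)
  have h3 : Associated x x' := associated_of_dvd_dvd h1 h2
  have hx0 : x ≠ 0 := Od_ne hx.1
  rcases PMU_assoc hx.1 hx'.1 h3 with h4 | h4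
  · left
    refine ⟨h4, ?_⟩
    rw [h4] at he
    exact mul_left_cancel₀ hx0 he
  · right
    refine ⟨h4, ?_⟩
    rw [h4] at he
    have : x * (-y') = x * y := by rw [← he]; ring
    have := mul_left_cancel₀ hx0 this
    rw [← this, neg_neg]

theorem PMU_dvd_iff (q : ℕ) (z : GI) : ((q : ℕ) : GI) ∣ z ↔ (q : ℤ) ∣ z.re ∧ (q : ℤ) ∣ z.im := by
  have := Zsqrtd.intCast_dvd (q : ℤ) z
  simpa using this

theorem PMU_Pr_iff (z : GI) : Pr z ↔ ∀ q : ℕ, q.Prime → ¬ ((q : ℕ) : GI) ∣ z := by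
  constructor
  · intro h q hq hd
    rw [PMU_dvd_iff] at hd
    have h1 : (q : ℤ) ∣ Int.gcd z.re z.im := Int.dvd_coe_gcd hd.1 hd.2
    unfold Pr at h
    rw [h] at h1
    have h2 : q ∣ 1 := by exact_mod_cast h1
    exact hq.one_lt.ne' (Nat.dvd_one.1 h2)
  · intro h
    by_contra hne
    unfold Pr at hne
    obtain ⟨q, hq, hd⟩ := Nat.exists_prime_and_dvd hne
    apply h q hq
    rw [PMU_dvd_iff]
    have h1 : (q : ℤ) ∣ (Int.gcd z.re z.im : ℤ) := by exact_mod_cast hd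
    exact ⟨h1.trans (Int.gcd_dvd_left ..), h1.trans (Int.gcd_dvd_right ..)⟩

theorem PMU_coprime_nat {q : ℕ} {y : GI} (h : Nat.Coprime q (nm y)) : IsCoprime ((q : ℕ) : GI) y := by
  have h1 : IsCoprime ((q : ℕ) : ℤ) ((nm y : ℕ) : ℤ) := Nat.isCoprime_iff_coprime.2 h
  have h2 : IsCoprime ((q : ℕ) : GI) ((nm y : ℕ) : GI) := by
    have := h1.map (Int.castRingHom GI)
    simpa using this
  rw [PMU_nm_cast] at h2
  exact h2.of_mul_right_left

theorem PMU_Pr_mul {x y : GI} (hx : Pr x) (hy : Pr y) (h : Nat.Coprime (nm x) (nm y)) : Pr (x * y) := by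
  rw [PMU_Pr_iff] at hx hy ⊢
  intro q hq hd
  by_cases h1 : q ∣ nm y
  · have h2 : ¬ q ∣ nm x := by
      intro h3
      exact hq.one_lt.ne' (Nat.dvd_one.1 (h ▸ Nat.dvd_gcd h3 h1))
    have h3 : IsCoprime ((q : ℕ) : GI) x := PMU_coprime_nat ((Nat.Prime.coprime_iff_not_dvd hq).2 h2)
    exact hy q hq (h3.dvd_of_dvd_mul_left hd)
  · have h3 : IsCoprime ((q : ℕ) : GI) y := PMU_coprime_nat ((Nat.Prime.coprime_iff_not_dvd hq).2 h1)
    exact hx q hq (h3.dvd_of_dvd_mul_right hd)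

theorem bb_mul (κ : ℤ) {m n : ℕ} (h : Nat.Coprime m n) : bb κ (m * n) = bb κ m * bb κ n := by
  classical
  have key : ∑ p ∈ pn m ×ˢ pn n, uu (p.1 * p.2) ^ κ = 2 * ∑ z ∈ pn (m * n), uu z ^ κ := by
    have hmaps : ∀ p ∈ pn m ×ˢ pn n, p.1 * p.2 ∈ pn (m * n) := by
      rintro ⟨x, y⟩ hp
      rw [Finset.mem_product] at hp
      obtain ⟨hx, hy⟩ := hp
      have hx0 := hx
      have hy0 := hy
      rw [mem_pn] at hx hy ⊢
      exact ⟨Od_mul hx.1 hy.1, PMU_Pr_mul hx.2.1 hy.2.1 (by rw [hx.2.2, hy.2.2]; exact h),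
        by rw [nm_mul, hx.2.2, hy.2.2]⟩
    rw [← Finset.sum_fiberwise_of_maps_to hmaps, Finset.mul_sum]
    apply Finset.sum_congr rfl
    intro z hz
    obtain ⟨x, hx, y, hy, hxy⟩ := PMU_split h hz
    have hfib : (pn m ×ˢ pn n).filter (fun p => p.1 * p.2 = z) = {(x, y), (-x, -y)} := by
      ext ⟨x', y'⟩
      rw [Finset.mem_filter, Finset.mem_product, Finset.mem_insert, Finset.mem_singleton]
      constructor
      · rintro ⟨⟨h1, h2⟩, h3⟩
        rcases PMU_fiber h hx hy h1 h2 (by rw [hxy]; exact h3) with ⟨h4, h5⟩ | ⟨h4, h5⟩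
        · left; exact Prod.ext h4 h5
        · right; exact Prod.ext h4 h5
      · rintro (h1 | h1)
        · rw [Prod.mk.injEq] at h1
          obtain ⟨rfl, rfl⟩ := h1
          exact ⟨⟨hx, hy⟩, hxy⟩
        · rw [Prod.mk.injEq] at h1
          obtain ⟨rfl, rfl⟩ := h1
          refine ⟨⟨?_, ?_⟩, ?_⟩
          · rw [mem_pn] at hx ⊢
            exact ⟨Od_neg hx.1, Pr_neg hx.2.1, by rw [nm_neg]; exact hx.2.2⟩
          · rw [mem_pn] at hy ⊢
            exact ⟨Od_neg hy.1, Pr_neg hy.2.1, by rw [nm_neg]; exact hy.2.2⟩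
          · simp only [neg_mul_neg]; exact hxy
    have hne : (x, y) ≠ (-x, -y) := by
      intro he
      rw [Prod.mk.injEq] at he
      have hx1 := (mem_pn.1 hx).1.1
      have := congrArg Zsqrtd.re he.1
      rw [Zsqrtd.re_neg] at this
      omega
    rw [hfib, Finset.sum_pair hne]
    simp only [neg_mul_neg]
    rw [hxy]; ring
  have h2 : ∑ p ∈ pn m ×ˢ pn n, uu (p.1 * p.2) ^ κ
      = (∑ x ∈ pn m, uu x ^ κ) * ∑ y ∈ pn n, uu y ^ κ := by
    rw [Finset.sum_product, Finset.sum_mul_sum]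
    apply Finset.sum_congr rfl
    intro x _
    apply Finset.sum_congr rfl
    intro y _
    rw [uu_mul_zpow]
  unfold bb
  have h3 : ∑ z ∈ pn (m * n), uu z ^ κ = (1 / 2) * ((∑ x ∈ pn m, uu x ^ κ) * ∑ y ∈ pn n, uu y ^ κ) := by
    rw [← h2, key]; ring
  rw [h3]; ring

/-- local values at split primes -/
theorem bb_prime_pow (κ : ℤ) {p : GI} (hp : PP p) {j : ℕ} (hj : 1 ≤ j) :
    bb κ (nm p ^ j) = uu p ^ (κ * j) + uu p ^ (-(κ * j)) := by
  have hpr : Prime p := PP_prime hp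
  have hOd : Od p := hp.1
  have hnmpow : ∀ (w : GI) (i : ℕ), nm (w ^ i) = nm w ^ i := by
    intro w i
    induction i with
    | zero => simp [nm_one]
    | succ i ih => rw [pow_succ, nm_mul, ih, pow_succ]
  have hOdpow : ∀ (w : GI) (i : ℕ), Od w → Od (w ^ i) := by
    intro w i hw
    induction i with
    | zero => rw [pow_zero]; exact Od_one
    | succ i ih => rw [pow_succ]; exact Od_mul ih hw
  have hstar : ∀ i : ℕ, star (p ^ i) = (star p) ^ i := fun i => star_pow p i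
  have hq5 := PP_three_le hp
  have hsp : Prime (star p) := by
    have h1 : star p ≠ 0 := Od_ne (Od_star hOd)
    have := (MulEquiv.prime_iff (starRingAut (R := GI)).toMulEquiv (p := p)).2 hpr
    exact this
  -- p and star p not dividing each other
  have hnd : ¬ p ∣ star p := PP_not_dvd_star hp hp
  have hPrpow : Pr (p ^ j) := by
    rw [PMU_Pr_iff]
    intro q hq hd
    have h1 : q ^ 2 ∣ nm p ^ j := by
      obtain ⟨c, hc⟩ := hd
      have h2 : nm (p ^ j) = nm ((q : ℕ) : GI) * nm c := by rw [← nm_mul, ← hc]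
      have h3 : nm ((q : ℕ) : GI) = q ^ 2 := by
        have := nm_int ((q : ℕ) : GI)
        simp only [Zsqrtd.re_natCast, Zsqrtd.im_natCast] at this
        have h' : (nm ((q : ℕ) : GI) : ℤ) = ((q ^ 2 : ℕ) : ℤ) := by rw [this]; push_cast; ring
        exact_mod_cast h'
      rw [hnmpow, h3] at h2
      exact ⟨_, h2⟩
    have h2 : q ∣ nm p ^ j := (Dvd.intro_left _ (by rw [pow_two])).trans h1
    have h3 : q ∣ nm p := hq.dvd_of_dvd_pow h2
    have h4 : q = nm p := (Nat.prime_dvd_prime_iff_eq hq hp.2.2.2).1 h3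
    rw [h4, PMU_nm_cast] at hd
    have h5 : star p ∣ p ^ j := (Dvd.intro_left _ rfl).trans hd
    have h6 : star p ∣ p := hsp.dvd_of_dvd_pow h5
    have h7 : p ∣ star p := by
      obtain ⟨c, hc⟩ := h6
      refine ⟨star c, ?_⟩
      have := congrArg star hc
      rw [star_mul, star_star] at this
      rw [this, mul_comm]
    exact hnd h7
  have hset : pn (nm p ^ j) = {p ^ j, -p ^ j, star (p ^ j), -star (p ^ j)} := by
    ext z
    rw [mem_pn]
    simp only [Finset.mem_insert, Finset.mem_singleton]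
    constructor
    · rintro ⟨h1, h2, h3⟩
      have hd : z ∣ p ^ j * (star p) ^ j := by
        refine ⟨star z, ?_⟩
        rw [← PMU_nm_cast, h3, ← mul_pow, ← PMU_nm_cast]
        push_cast
        rfl
      obtain ⟨x, y, hx, hy, hxy⟩ := exists_dvd_and_dvd_of_dvd_mul hd
      obtain ⟨a, ha, hxa⟩ := (dvd_prime_pow hpr _).1 hx
      obtain ⟨b, hb, hyb⟩ := (dvd_prime_pow hsp _).1 hy
      have hza : Associated (p ^ a * (star p) ^ b) z := by
        rw [hxy]; exact (hxa.mul_mul hyb).symm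
      have hnz : nm z = nm p ^ a * nm p ^ b := by
        obtain ⟨u, hu⟩ := hza
        rw [← hu, nm_mul, nm_mul, hnmpow, hnmpow, nm_star, PMU_nm_of_unit u.isUnit, mul_one]
      have hab : a + b = j := by
        rw [h3, ← pow_add] at hnz
        exact (Nat.pow_right_injective (by omega : 2 ≤ nm p) hnz).symm
      by_cases ha0 : a = 0
      · subst ha0
        rw [zero_add] at hab
        subst hab
        rw [pow_zero, one_mul, ← hstar] at hza
        rcases PMU_assoc (Od_star (hOdpow p b hOd)) h1 hza with h4 | h4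
        · right; right; left; exact h4
        · right; right; right; exact h4
      by_cases hb0 : b = 0
      · subst hb0
        rw [add_zero] at hab
        subst hab
        rw [pow_zero, mul_one] at hza
        rcases PMU_assoc (hOdpow p a hOd) h1 hza with h4 | h4
        · left; exact h4
        · right; left; exact h4
      exfalso
      have h4 : ((nm p : ℕ) : GI) ∣ z := by
        rw [PMU_nm_cast]
        refine (mul_dvd_mul (dvd_pow_self p ha0) (dvd_pow_self (star p) hb0)).trans ?_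
        exact hza.dvd
      exact (PMU_Pr_iff z).1 h2 _ hp.2.2.2 h4
    · rintro (h | h | h | h)
      · rw [h]; exact ⟨hOdpow p j hOd, hPrpow, hnmpow p j⟩
      · rw [h]; exact ⟨Od_neg (hOdpow p j hOd), Pr_neg hPrpow, by rw [nm_neg]; exact hnmpow p j⟩
      · rw [h]; exact ⟨Od_star (hOdpow p j hOd), Pr_star hPrpow, by rw [nm_star]; exact hnmpow p j⟩
      · rw [h]
        exact ⟨Od_neg (Od_star (hOdpow p j hOd)), Pr_neg (Pr_star hPrpow),
          by rw [nm_neg, nm_star]; exact hnmpow p j⟩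
  have hneg : ∀ w : GI, Od w → w ≠ -w := by
    intro w hw he
    have := congrArg Zsqrtd.re he
    rw [Zsqrtd.re_neg] at this
    have := hw.1
    omega
  have hj0 : j ≠ 0 := by omega
  have hns : ¬ p ∣ star (p ^ j) := by
    rw [hstar]
    intro h
    exact hnd (hpr.dvd_of_dvd_pow h)
  have hn1 : p ^ j ≠ star (p ^ j) := by
    intro h
    exact hns (h ▸ dvd_pow_self p hj0)
  have hn2 : p ^ j ≠ -star (p ^ j) := by
    intro h
    have : p ∣ -star (p ^ j) := h ▸ dvd_pow_self p hj0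
    exact hns ((dvd_neg).1 this)
  have hsum : ∑ z ∈ pn (nm p ^ j), uu z ^ κ
      = uu (p ^ j) ^ κ + (uu (p ^ j) ^ κ + (uu (star (p ^ j)) ^ κ + uu (star (p ^ j)) ^ κ)) := by
    rw [hset, Finset.sum_insert, Finset.sum_insert, Finset.sum_pair, uu_neg, uu_neg]
    · exact hneg _ (Od_star (hOdpow p j hOd))
    · simp only [Finset.mem_insert, Finset.mem_singleton, not_or]
      refine ⟨fun h => hn2 ?_, fun h => hn1 (neg_injective h)⟩
      rw [← h, neg_neg]
    · simp only [Finset.mem_insert, Finset.mem_singleton, not_or]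
      exact ⟨hneg _ (hOdpow p j hOd), hn1, hn2⟩
  have hupow : ∀ i : ℕ, uu (p ^ i) = uu p ^ i := by
    intro i
    induction i with
    | zero => rw [pow_zero, pow_zero, uu_one]
    | succ i ih => rw [pow_succ, uu_mul, ih, pow_succ]
  have h1 : uu (p ^ j) ^ κ = uu p ^ (κ * j) := by
    rw [hupow, ← zpow_natCast, ← zpow_mul, mul_comm]
  have h2 : uu (star (p ^ j)) ^ κ = uu p ^ (-(κ * j)) := by
    rw [uu_star, ← uu_inv (Od_ne (hOdpow p j hOd)), inv_zpow, h1, zpow_neg]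
  unfold bb
  rw [hsum, h1, h2]; ring

/-- other primes -/
theorem bb_prime_pow_zero (κ : ℤ) {p : ℕ} (hp : p.Prime) (h : p % 4 ≠ 1) {j : ℕ} (hj : 1 ≤ j) :
    bb κ (p ^ j) = 0 := by
  have hj0 : j ≠ 0 := by omega
  have hemp : pn (p ^ j) = ∅ := by
    apply Finset.eq_empty_of_forall_notMem
    intro z hz
    rw [mem_pn] at hz
    obtain ⟨h1, h2, h3⟩ := hz
    have h4 := Od_nm h1
    rw [h3] at h4
    rcases hp.eq_two_or_odd with h5 | h5
    · subst h5
      have h6 : 2 ∣ 2 ^ j := dvd_pow_self 2 hj0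
      omega
    · have h6 : p % 4 = 3 := by omega
      have : Fact p.Prime := ⟨hp⟩
      have h7 : Prime ((p : ℕ) : GI) := GaussianInt.prime_of_nat_prime_of_mod_four_eq_three p h6
      have h8 : ((p : ℕ) : GI) ∣ z * star z := by
        rw [← PMU_nm_cast, h3]
        push_cast
        exact dvd_pow_self _ hj0
      rcases h7.dvd_or_dvd h8 with h9 | h9
      · exact (PMU_Pr_iff z).1 h2 p hp h9
      · exact (PMU_Pr_iff (star z)).1 (Pr_star h2) p hp h9
  unfold bb
  rw [hemp, Finset.sum_empty, mul_zero]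

theorem PMU_bb0 (n : ℕ) : (bb 0 n).re = (1 / 2) * ((pn n).card : ℝ) := by
  have : bb 0 n = (((1 / 2) * ((pn n).card : ℝ) : ℝ) : ℂ) := by
    unfold bb
    simp only [zpow_zero, Finset.sum_const, nsmul_eq_mul, mul_one]
    push_cast
    ring
  rw [this, Complex.ofReal_re]

theorem norm_bb_le (κ : ℤ) (n : ℕ) : ‖bb κ n‖ ≤ (bb 0 n).re := by
  rw [PMU_bb0]
  unfold bb
  rw [norm_mul]
  have h1 : ‖(1 / 2 : ℂ)‖ = 1 / 2 := by norm_num
  rw [h1]
  have h2 : ‖∑ z ∈ pn n, uu z ^ κ‖ ≤ ((pn n).card : ℝ) := by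
    calc ‖∑ z ∈ pn n, uu z ^ κ‖ ≤ ∑ z ∈ pn n, ‖uu z ^ κ‖ := norm_sum_le _ _
      _ ≤ ∑ z ∈ pn n, (1 : ℝ) := Finset.sum_le_sum (fun z _ => norm_uu_zpow_le z κ)
      _ = ((pn n).card : ℝ) := by simp
  linarith

theorem PMU_fib {a b : ℝ} (_ha : 0 ≤ a) (hb : 0 ≤ b) (g : GI → ℂ) :
    ∑ z ∈ pan a b, g z = ∑ n ∈ (Icc 1 ⌊b⌋₊).filter (fun n : ℕ => a < (n : ℝ)), ∑ z ∈ pn n, g z := by
  classical
  have hmaps : ∀ z ∈ pan a b, nm z ∈ (Icc 1 ⌊b⌋₊).filter (fun n : ℕ => a < (n : ℝ)) := by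
    intro z hz
    rw [mem_pan] at hz
    obtain ⟨h1, h2, h3, h4⟩ := hz
    rw [Finset.mem_filter, Finset.mem_Icc]
    exact ⟨⟨nm_pos (Od_ne h1), Nat.le_floor h4⟩, h3⟩
  rw [← Finset.sum_fiberwise_of_maps_to hmaps]
  apply Finset.sum_congr rfl
  intro n hn
  rw [Finset.mem_filter, Finset.mem_Icc] at hn
  apply Finset.sum_congr _ (fun _ _ => rfl)
  ext z
  rw [Finset.mem_filter, mem_pan, mem_pn]
  constructor
  · rintro ⟨⟨h1, h2, _, _⟩, h5⟩
    exact ⟨h1, h2, h5⟩
  · rintro ⟨h1, h2, h3⟩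
    refine ⟨⟨h1, h2, ?_, ?_⟩, h3⟩
    · rw [h3]; exact hn.2
    · rw [h3]; exact (Nat.le_floor_iff hb).1 hn.1.2

/-- partial sums -/
theorem sum_bb (κ : ℤ) (x : ℝ) (hx : 0 ≤ x) :
    ∑ n ∈ Icc 1 ⌊x⌋₊, bb κ n = (1 / 2) * ∑ z ∈ pan 0 x, uu z ^ κ := by
  rw [PMU_fib le_rfl hx, Finset.mul_sum]
  have h1 : (Icc 1 ⌊x⌋₊).filter (fun n : ℕ => (0 : ℝ) < (n : ℝ)) = Icc 1 ⌊x⌋₊ := by
    apply Finset.filter_true_of_mem
    intro n hn
    rw [Finset.mem_Icc] at hn
    exact_mod_cast hn.1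
  rw [h1]
  rfl

/-- the sums of `G(z) u(z)^k` over primitive `z` are bounded by the sums of `|b_k(n)|` -/
theorem sp_le_bb (f : ℕ → ℂ) (hf : CM f) (k : ℤ) (a b : ℝ) (ha : 0 ≤ a) :
    ‖sp (pan a b) (gf f) k‖ ≤ 2 * ∑ n ∈ Icc 1 ⌊b⌋₊, ‖bb k n‖ := by
  classical
  by_cases hb : 0 ≤ b
  · unfold sp
    rw [PMU_fib ha hb]
    have h1 : ∀ n ∈ (Icc 1 ⌊b⌋₊).filter (fun n : ℕ => a < (n : ℝ)),
        ‖∑ z ∈ pn n, gf f z * uu z ^ k‖ ≤ 2 * ‖bb k n‖ := by
      intro n _
      have h2 : ∑ z ∈ pn n, gf f z * uu z ^ k = f n * (2 * bb k n) := by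
        unfold bb
        rw [← mul_assoc (2 : ℂ), show (2 : ℂ) * (1 / 2) = 1 by norm_num, one_mul, Finset.mul_sum]
        apply Finset.sum_congr rfl
        intro z hz
        rw [mem_pn] at hz
        unfold gf
        rw [hz.2.2]
      rw [h2, norm_mul, norm_mul]
      have h3 : ‖(2 : ℂ)‖ = 2 := by norm_num
      rw [h3]
      have h4 := hf.norm_le n
      have h5 : 0 ≤ 2 * ‖bb k n‖ := by positivity
      nlinarith
    calc ‖∑ n ∈ (Icc 1 ⌊b⌋₊).filter (fun n : ℕ => a < (n : ℝ)), ∑ z ∈ pn n, gf f z * uu z ^ k‖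
        ≤ ∑ n ∈ (Icc 1 ⌊b⌋₊).filter (fun n : ℕ => a < (n : ℝ)), ‖∑ z ∈ pn n, gf f z * uu z ^ k‖ :=
          norm_sum_le _ _
      _ ≤ ∑ n ∈ (Icc 1 ⌊b⌋₊).filter (fun n : ℕ => a < (n : ℝ)), 2 * ‖bb k n‖ := Finset.sum_le_sum h1
      _ ≤ ∑ n ∈ Icc 1 ⌊b⌋₊, 2 * ‖bb k n‖ := by
          apply Finset.sum_le_sum_of_subset_of_nonneg (Finset.filter_subset _ _)
          intro n _ _
          positivity
      _ = 2 * ∑ n ∈ Icc 1 ⌊b⌋₊, ‖bb k n‖ := by rw [Finset.mul_sum]
  · have h1 : pan a b = ∅ := by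
      apply Finset.eq_empty_of_forall_notMem
      intro z hz
      rw [mem_pan] at hz
      have : (0 : ℝ) ≤ (nm z : ℝ) := Nat.cast_nonneg _
      linarith [hz.2.2.2]
    unfold sp
    rw [h1, Finset.sum_empty, norm_zero]
    positivity

end Pool.Agent.MRS
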