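import Pool.Agent.MRS.Basic

set_option autoImplicit false

/-! Module LCT: lattice points in discs with a slowly oscillating weight. -/

open Finset MeasureTheory

namespace Pool.Agent.MRS


/-- maximum norm -/
def mx (z : GI) : ℕ := max z.re.natAbs z.im.natAbs

theorem LCT_mx_sq (z : GI) : (mx z) ^ 2 ≤ nm z := by
  have h := nm_int z
  have h1 : ((mx z : ℕ) : ℤ) ^ 2 ≤ z.re ^ 2 + z.im ^ 2 := by
    unfold mx
    rcases le_total z.re.natAbs z.im.natAbs with hle | hle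
    · rw [max_eq_right hle, Int.natCast_natAbs, sq_abs]
      nlinarith [sq_nonneg z.re]
    · rw [max_eq_left hle, Int.natCast_natAbs, sq_abs]
      nlinarith [sq_nonneg z.im]
  have : ((mx z ^ 2 : ℕ) : ℤ) ≤ (nm z : ℤ) := by
    rw [h]; push_cast; exact h1
  exact_mod_cast this

theorem LCT_mx_pos {z : GI} (hz : Od z) : 1 ≤ mx z := by
  have h := hz.1
  unfold mx
  have : z.re ≠ 0 := by omega
  have h2 : 1 ≤ z.re.natAbs := Int.natAbs_pos.mpr this
  exact le_trans h2 (le_max_left _ _)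

theorem LCT_fiber_card (s : Finset GI) (m : ℕ) (hm : 1 ≤ m) (hs : ∀ z ∈ s, mx z = m) :
    s.card ≤ 12 * m := by
  classical
  let A : Finset (ℤ × ℤ) := (({(m : ℤ), -(m : ℤ)} : Finset ℤ) ×ˢ (Icc (-(m : ℤ)) m)) ∪
    ((Icc (-(m : ℤ)) m) ×ˢ ({(m : ℤ), -(m : ℤ)} : Finset ℤ))
  have hA : A.card ≤ 12 * m := by
    have h1 : ({(m : ℤ), -(m : ℤ)} : Finset ℤ).card ≤ 2 := Finset.card_le_two
    have h2 : (Icc (-(m : ℤ)) m).card = 2 * m + 1 := by
      rw [Int.card_Icc]; omega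
    calc A.card ≤ _ + _ := Finset.card_union_le _ _
      _ ≤ 2 * (2 * m + 1) + (2 * m + 1) * 2 := by
          rw [Finset.card_product, Finset.card_product, h2]
          gcongr
      _ ≤ 12 * m := by omega
  have hinj : s.card ≤ A.card := by
    apply Finset.card_le_card_of_injOn (fun z : GI => (z.re, z.im))
    · intro z hz
      have h := hs z hz
      unfold mx at h
      simp only [A, Finset.coe_union, Finset.coe_product, Set.mem_union, Set.mem_prod,
        Finset.coe_insert, Finset.coe_singleton, Set.mem_insert_iff, Set.mem_singleton_iff,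
        Finset.coe_Icc, Set.mem_Icc]
      rcases le_total z.re.natAbs z.im.natAbs with hle | hle
      · rw [max_eq_right hle] at h
        right
        omega
      · rw [max_eq_left hle] at h
        left
        omega
    · intro z _ w _ h
      simp only [Prod.mk.injEq] at h
      exact Zsqrtd.ext h.1 h.2
  exact hinj.trans hA

theorem LCT_mx_le {Y : ℝ} {z : GI} (hz : z ∈ ann 0 Y) : mx z ≤ ⌊√Y⌋₊ := by
  rw [mem_ann] at hz
  obtain ⟨_, _, h3⟩ := hz
  have h := LCT_mx_sq z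
  apply Nat.le_floor
  apply Real.le_sqrt_of_sq_le
  calc ((mx z : ℕ) : ℝ) ^ 2 ≤ (nm z : ℝ) := by exact_mod_cast h
    _ ≤ Y := h3

theorem LCT_sum_le (Y : ℝ) (φ : ℕ → ℝ) (hφ : ∀ m, 0 ≤ φ m) :
    ∑ z ∈ ann 0 Y, φ (mx z) ≤ ∑ m ∈ Icc 1 ⌊√Y⌋₊, (12 * m : ℝ) * φ m := by
  classical
  have hmaps : ∀ z ∈ ann 0 Y, mx z ∈ Icc 1 ⌊√Y⌋₊ := by
    intro z hz
    rw [Finset.mem_Icc]
    exact ⟨LCT_mx_pos (mem_ann.mp hz).1, LCT_mx_le hz⟩
  rw [← Finset.sum_fiberwise_of_maps_to hmaps]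
  apply Finset.sum_le_sum
  intro m hm
  rw [Finset.mem_Icc] at hm
  have h1 : ∑ z ∈ (ann 0 Y).filter (fun z => mx z = m), φ (mx z) =
      ∑ z ∈ (ann 0 Y).filter (fun z => mx z = m), φ m := by
    apply Finset.sum_congr rfl
    intro z hz
    rw [(Finset.mem_filter.mp hz).2]
  rw [h1, Finset.sum_const, nsmul_eq_mul]
  apply mul_le_mul_of_nonneg_right _ (hφ m)
  have := LCT_fiber_card ((ann 0 Y).filter (fun z => mx z = m)) m hm.1
    (fun z hz => (Finset.mem_filter.mp hz).2)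
  exact_mod_cast this

theorem LCT_sum_inv_mx (Y : ℝ) : ∑ z ∈ ann 0 Y, (1 : ℝ) / mx z ≤ 12 * √Y := by
  have h := LCT_sum_le Y (fun m => (1 : ℝ) / m) (fun m => by positivity)
  refine h.trans ?_
  have h2 : ∑ m ∈ Icc 1 ⌊√Y⌋₊, (12 * m : ℝ) * ((1 : ℝ) / m) = ∑ m ∈ Icc 1 ⌊√Y⌋₊, (12 : ℝ) := by
    apply Finset.sum_congr rfl
    intro m hm
    rw [Finset.mem_Icc] at hm
    have : (m : ℝ) ≠ 0 := by
      have : 0 < m := hm.1
      positivity
    field_simp
  rw [h2, Finset.sum_const, Nat.card_Icc, nsmul_eq_mul]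
  have h3 : ((⌊√Y⌋₊ + 1 - 1 : ℕ) : ℝ) ≤ √Y := by
    simp only [Nat.add_sub_cancel]
    exact Nat.floor_le (Real.sqrt_nonneg _)
  linarith

/-- `∑_{N(z) ≤ Y} 1 / N(z) ≤ C (1 + log Y)` -/
theorem sum_inv_le : ∃ C : ℝ, 0 < C ∧ ∀ Y : ℝ, 1 ≤ Y →
    ∑ z ∈ ann 0 Y, (1 : ℝ) / nm z ≤ C * (1 + Real.log Y) := by
  refine ⟨12, by norm_num, fun Y hY => ?_⟩
  have h1 : ∑ z ∈ ann 0 Y, (1 : ℝ) / nm z ≤ ∑ z ∈ ann 0 Y, (1 : ℝ) / (mx z : ℝ) ^ 2 := by
    apply Finset.sum_le_sum
    intro z hz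
    have hm := LCT_mx_pos (mem_ann.mp hz).1
    have hm' : (0 : ℝ) < mx z := by exact_mod_cast hm
    apply one_div_le_one_div_of_le (by positivity)
    exact_mod_cast LCT_mx_sq z
  have h2 := LCT_sum_le Y (fun m => (1 : ℝ) / (m : ℝ) ^ 2) (fun m => by positivity)
  have h3 : ∑ m ∈ Icc 1 ⌊√Y⌋₊, (12 * m : ℝ) * ((1 : ℝ) / (m : ℝ) ^ 2) =
      12 * ∑ m ∈ Icc 1 ⌊√Y⌋₊, ((m : ℝ))⁻¹ := by
    rw [Finset.mul_sum]
    apply Finset.sum_congr rfl
    intro m hm
    rw [Finset.mem_Icc] at hm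
    have : (m : ℝ) ≠ 0 := by
      have : 0 < m := hm.1
      positivity
    field_simp
  have h4 : ∑ m ∈ Icc 1 ⌊√Y⌋₊, ((m : ℝ))⁻¹ ≤ 1 + Real.log ⌊√Y⌋₊ := by
    have := harmonic_le_one_add_log ⌊√Y⌋₊
    rw [harmonic_eq_sum_Icc] at this
    push_cast at this
    exact this
  have hs1 : 1 ≤ √Y := Real.one_le_sqrt.mpr hY
  have hf : 1 ≤ ⌊√Y⌋₊ := Nat.le_floor (by exact_mod_cast hs1)
  have h5 : Real.log ⌊√Y⌋₊ ≤ Real.log Y := by
    apply Real.log_le_log (by exact_mod_cast hf)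
    calc ((⌊√Y⌋₊ : ℕ) : ℝ) ≤ √Y := Nat.floor_le (Real.sqrt_nonneg _)
      _ ≤ √Y * √Y := by nlinarith
      _ = Y := Real.mul_self_sqrt (by linarith)
  calc ∑ z ∈ ann 0 Y, (1 : ℝ) / nm z ≤ _ := h1
    _ ≤ _ := h2
    _ = _ := h3
    _ ≤ 12 * (1 + Real.log Y) := by linarith


/-- `w ^ 2 / |w| ^ 2` -/
noncomputable def UU (w : ℂ) : ℂ := w ^ 2 / (((‖w‖ ^ 2 : ℝ)) : ℂ)

theorem LCT_norm_toC (z : GI) : ‖GaussianInt.toComplex z‖ ^ 2 = (nm z : ℝ) := by
  rw [Complex.sq_norm, Complex.normSq_apply, nm_real, ← GaussianInt.intCast_re,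
    ← GaussianInt.intCast_im]
  ring

theorem LCT_uu_eq (z : GI) : uu z = UU (GaussianInt.toComplex z) := by
  unfold uu UU
  rw [LCT_norm_toC]
  simp

theorem LCT_UU_eq (w : ℂ) : UU w = (w / (‖w‖ : ℂ)) ^ 2 := by
  unfold UU
  push_cast
  rw [div_pow]

theorem LCT_norm_div {w : ℂ} (hw : w ≠ 0) : ‖w / (‖w‖ : ℂ)‖ = 1 := by
  rw [norm_div, Complex.norm_real, norm_norm]
  exact div_self (norm_ne_zero_iff.mpr hw)

theorem LCT_norm_UU {w : ℂ} (hw : w ≠ 0) : ‖UU w‖ = 1 := by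
  rw [LCT_UU_eq, norm_pow, LCT_norm_div hw, one_pow]

theorem LCT_norm_UU_zpow (w : ℂ) (κ : ℤ) : ‖UU w ^ κ‖ ≤ 1 := by
  rw [norm_zpow]
  by_cases hw : w = 0
  · subst hw
    have : UU 0 = 0 := by simp [UU]
    rw [this, norm_zero]
    by_cases hκ : κ = 0
    · simp [hκ]
    · rw [zero_zpow _ hκ]; norm_num
  · rw [LCT_norm_UU hw, one_zpow]

theorem LCT_pow_sub (a b : ℂ) (ha : ‖a‖ = 1) (hb : ‖b‖ = 1) (n : ℕ) :
    ‖a ^ n - b ^ n‖ ≤ n * ‖a - b‖ := by
  induction n with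
  | zero => simp
  | succ n ih =>
    have h : a ^ (n + 1) - b ^ (n + 1) = a * (a ^ n - b ^ n) + (a - b) * b ^ n := by ring
    rw [h]
    calc ‖a * (a ^ n - b ^ n) + (a - b) * b ^ n‖
        ≤ ‖a * (a ^ n - b ^ n)‖ + ‖(a - b) * b ^ n‖ := norm_add_le _ _
      _ = ‖a ^ n - b ^ n‖ + ‖a - b‖ := by
          rw [norm_mul, norm_mul, norm_pow, ha, hb]; simp
      _ ≤ n * ‖a - b‖ + ‖a - b‖ := by linarith
      _ = ((n + 1 : ℕ) : ℝ) * ‖a - b‖ := by push_cast; ring

theorem LCT_zpow_sub (a b : ℂ) (ha : ‖a‖ = 1) (hb : ‖b‖ = 1) (κ : ℤ) :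
    ‖a ^ κ - b ^ κ‖ ≤ |(κ : ℝ)| * ‖a - b‖ := by
  obtain ⟨n, rfl | rfl⟩ := κ.eq_nat_or_neg
  · rw [zpow_natCast, zpow_natCast]
    have := LCT_pow_sub a b ha hb n
    simpa using this
  · rw [zpow_neg, zpow_neg, zpow_natCast, zpow_natCast]
    have ha' : (a ^ n)⁻¹ = (starRingEnd ℂ) (a ^ n) := by
      rw [Complex.inv_def, Complex.normSq_eq_norm_sq, norm_pow, ha]; simp
    have hb' : (b ^ n)⁻¹ = (starRingEnd ℂ) (b ^ n) := by
      rw [Complex.inv_def, Complex.normSq_eq_norm_sq, norm_pow, hb]; simp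
    rw [ha', hb', ← map_sub, RCLike.norm_conj]
    have := LCT_pow_sub a b ha hb n
    simpa using this

theorem LCT_UU_sub {z w : ℂ} (hz : z ≠ 0) (hw : w ≠ 0) :
    ‖UU z - UU w‖ ≤ 4 * ‖z - w‖ / ‖z‖ := by
  have hz' : (0 : ℝ) < ‖z‖ := norm_pos_iff.mpr hz
  have hw' : (0 : ℝ) < ‖w‖ := norm_pos_iff.mpr hw
  rw [LCT_UU_eq, LCT_UU_eq]
  set a := z / (‖z‖ : ℂ) with ha
  set b := w / (‖w‖ : ℂ) with hb
  have h1 : ‖a‖ = 1 := LCT_norm_div hz
  have h2 : ‖b‖ = 1 := LCT_norm_div hw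
  have h3 : ‖a - b‖ ≤ 2 * ‖z - w‖ / ‖z‖ := by
    have e : a - b = ((z - w) + b * ((‖w‖ - ‖z‖ : ℝ) : ℂ)) / (‖z‖ : ℂ) := by
      rw [ha, hb]
      have hzc : (‖z‖ : ℂ) ≠ 0 := by exact_mod_cast hz'.ne'
      have hwc : (‖w‖ : ℂ) ≠ 0 := by exact_mod_cast hw'.ne'
      push_cast
      field_simp
      ring
    rw [e, norm_div, Complex.norm_real, norm_norm]
    apply div_le_div_of_nonneg_right _ hz'.le
    calc ‖(z - w) + b * ((‖w‖ - ‖z‖ : ℝ) : ℂ)‖ ≤ ‖z - w‖ + ‖b * ((‖w‖ - ‖z‖ : ℝ) : ℂ)‖ :=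
          norm_add_le _ _
      _ = ‖z - w‖ + |‖w‖ - ‖z‖| := by
          rw [norm_mul, h2, Complex.norm_real, one_mul, Real.norm_eq_abs]
      _ ≤ ‖z - w‖ + ‖w - z‖ := by
          have := abs_norm_sub_norm_le w z
          linarith
      _ = 2 * ‖z - w‖ := by rw [norm_sub_rev w z]; ring
  have h4 : a ^ 2 - b ^ 2 = (a - b) * (a + b) := by ring
  rw [h4, norm_mul]
  have h5 : ‖a + b‖ ≤ 2 := by
    calc ‖a + b‖ ≤ ‖a‖ + ‖b‖ := norm_add_le _ _
      _ = 2 := by rw [h1, h2]; norm_num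
  calc ‖a - b‖ * ‖a + b‖ ≤ (2 * ‖z - w‖ / ‖z‖) * 2 := by gcongr
    _ = 4 * ‖z - w‖ / ‖z‖ := by ring

theorem LCT_UU_zpow_sub {z : ℂ} (hz : z ≠ 0) (w : ℂ) (κ : ℤ) :
    ‖UU z ^ κ - UU w ^ κ‖ ≤ |(κ : ℝ)| * (4 * ‖z - w‖ / ‖z‖) := by
  have hz' : (0 : ℝ) < ‖z‖ := norm_pos_iff.mpr hz
  by_cases hw : w = 0
  · subst hw
    have h0 : UU 0 = 0 := by simp [UU]
    by_cases hκ : κ = 0
    · subst hκ; simp
    · rw [h0, zero_zpow _ hκ, sub_zero, sub_zero]
      have h1 : ‖UU z ^ κ‖ ≤ 1 := LCT_norm_UU_zpow z κ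
      have h2 : (1 : ℝ) ≤ |(κ : ℝ)| := by
        have : (1 : ℤ) ≤ |κ| := Int.one_le_abs hκ
        exact_mod_cast this
      have h3 : 4 * ‖z‖ / ‖z‖ = 4 := by field_simp
      rw [h3]
      linarith
  · calc ‖UU z ^ κ - UU w ^ κ‖ ≤ |(κ : ℝ)| * ‖UU z - UU w‖ :=
          LCT_zpow_sub _ _ (LCT_norm_UU hz) (LCT_norm_UU hw) κ
      _ ≤ _ := by
          gcongr
          exact LCT_UU_sub hz hw

theorem LCT_UU_measurable (κ : ℤ) : Measurable (fun w : ℂ => UU w ^ κ) := by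
  unfold UU
  fun_prop

theorem LCT_integrableOn (κ : ℤ) (s : Set ℂ) (hs : volume s ≠ ⊤) :
    IntegrableOn (fun w : ℂ => UU w ^ κ) s := by
  apply Measure.integrableOn_of_bounded (M := 1) hs
    (LCT_UU_measurable κ).aestronglyMeasurable
  exact Filter.Eventually.of_forall (fun w => LCT_norm_UU_zpow w κ)

/-- the square around `z` -/
def SQ (z : GI) : Set ℂ :=
  {w : ℂ | (z.re : ℝ) - 1 ≤ w.re ∧ w.re < z.re + 1 ∧ (z.im : ℝ) - 1 ≤ w.im ∧ w.im < z.im + 1}

theorem LCT_SQ_eq (z : GI) : SQ z = Complex.measurableEquivRealProd ⁻¹'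
    ((Set.Ico ((z.re : ℝ) - 1) (z.re + 1)) ×ˢ (Set.Ico ((z.im : ℝ) - 1) (z.im + 1))) := by
  ext w
  simp [SQ, Complex.measurableEquivRealProd, and_assoc]

theorem LCT_SQ_meas (z : GI) : MeasurableSet (SQ z) := by
  rw [LCT_SQ_eq]
  exact Complex.measurableEquivRealProd.measurable
    (measurableSet_Ico.prod measurableSet_Ico)

theorem LCT_SQ_vol (z : GI) : volume (SQ z) = 4 := by
  rw [LCT_SQ_eq, Complex.volume_preserving_equiv_real_prod.measure_preimage
    (measurableSet_Ico.prod measurableSet_Ico).nullMeasurableSet]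
  rw [Measure.volume_eq_prod, Measure.prod_prod, Real.volume_Ico, Real.volume_Ico]
  have : ∀ x : ℝ, x + 1 - (x - 1) = 2 := fun x => by ring
  rw [this, this, ← ENNReal.ofReal_mul (by norm_num)]
  norm_num

theorem LCT_SQ_disj {z w : GI} (hz : Od z) (hw : Od w) (h : z ≠ w) : Disjoint (SQ z) (SQ w) := by
  rw [Set.disjoint_left]
  intro x hx hy
  apply h
  obtain ⟨h1, h2, h3, h4⟩ := hx
  obtain ⟨k1, k2, k3, k4⟩ := hy
  obtain ⟨o1, o2⟩ := hz
  obtain ⟨p1, p2⟩ := hw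
  have e1 : z.re < w.re + 2 := by
    have : (z.re : ℝ) < w.re + 2 := by linarith
    exact_mod_cast this
  have e2 : w.re < z.re + 2 := by
    have : (w.re : ℝ) < z.re + 2 := by linarith
    exact_mod_cast this
  have e3 : z.im < w.im + 2 := by
    have : (z.im : ℝ) < w.im + 2 := by linarith
    exact_mod_cast this
  have e4 : w.im < z.im + 2 := by
    have : (w.im : ℝ) < z.im + 2 := by linarith
    exact_mod_cast this
  exact Zsqrtd.ext (by omega) (by omega)

theorem LCT_SQ_norm {z : GI} {w : ℂ} (h : w ∈ SQ z) :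
    ‖GaussianInt.toComplex z - w‖ ≤ 2 := by
  obtain ⟨h1, h2, h3, h4⟩ := h
  have e : ‖GaussianInt.toComplex z - w‖ ^ 2 ≤ 2 ^ 2 := by
    rw [Complex.sq_norm, Complex.normSq_apply, Complex.sub_re, Complex.sub_im,
      ← GaussianInt.intCast_re, ← GaussianInt.intCast_im]
    have a1 : ((z.re : ℝ) - w.re) ^ 2 ≤ 1 := by
      rw [sq_le_one_iff_abs_le_one, abs_le]
      constructor <;> linarith
    have a2 : ((z.im : ℝ) - w.im) ^ 2 ≤ 1 := by
      rw [sq_le_one_iff_abs_le_one, abs_le]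
      constructor <;> linarith
    nlinarith
  exact le_of_sq_le_sq e (by norm_num)

/-- the lattice point of `w` -/
theorem LCT_SQ_cover (w : ℂ) : ∃ z : GI, Od z ∧ w ∈ SQ z := by
  refine ⟨⟨2 * ⌊w.re / 2⌋ + 1, 2 * ⌊(w.im + 1) / 2⌋⟩, ?_, ?_⟩
  · constructor
    · show (2 * ⌊w.re / 2⌋ + 1) % 2 = 1
      omega
    · show (2 * ⌊(w.im + 1) / 2⌋) % 2 = 0
      omega
  · have h1 := Int.floor_le (w.re / 2)
    have h2 := Int.lt_floor_add_one (w.re / 2)
    have h3 := Int.floor_le ((w.im + 1) / 2)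
    have h4 := Int.lt_floor_add_one ((w.im + 1) / 2)
    refine ⟨?_, ?_, ?_, ?_⟩ <;> push_cast <;> linarith


theorem LCT_exists_rot (κ : ℤ) (hκ : κ ≠ 0) : ∃ a : Circle, ((a : ℂ) ^ 2) ^ κ = -1 := by
  refine ⟨Circle.exp (Real.pi / (2 * κ)), ?_⟩
  rw [Circle.coe_exp, ← Complex.exp_nat_mul, ← Complex.exp_int_mul]
  have hκ' : (κ : ℂ) ≠ 0 := by exact_mod_cast hκ
  have : (κ : ℂ) * (((2 : ℕ) : ℂ) * (((Real.pi / (2 * κ) : ℝ) : ℂ) * Complex.I)) =
      Real.pi * Complex.I := by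
    push_cast
    field_simp
  rw [this, Complex.exp_pi_mul_I]

theorem LCT_UU_rot (a : Circle) (w : ℂ) (κ : ℤ) :
    UU ((a : ℂ) * w) ^ κ = ((a : ℂ) ^ 2) ^ κ * UU w ^ κ := by
  have h : UU ((a : ℂ) * w) = (a : ℂ) ^ 2 * UU w := by
    unfold UU
    rw [norm_mul, Circle.norm_coe, one_mul]
    ring
  rw [h, mul_zpow]

theorem LCT_int_disc (κ : ℤ) (hκ : κ ≠ 0) (r : ℝ) :
    ∫ w in Metric.closedBall (0 : ℂ) r, UU w ^ κ = 0 := by
  obtain ⟨a, ha⟩ := LCT_exists_rot κ hκ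
  have h1 : ∫ w in (rotation a) ⁻¹' (Metric.closedBall (0 : ℂ) r), UU ((rotation a) w) ^ κ =
      ∫ w in Metric.closedBall (0 : ℂ) r, UU w ^ κ :=
    (rotation a).measurePreserving.setIntegral_preimage_emb
      (rotation a).toHomeomorph.measurableEmbedding (fun w => UU w ^ κ) _
  have h2 : (rotation a) ⁻¹' (Metric.closedBall (0 : ℂ) r) = Metric.closedBall (0 : ℂ) r := by
    ext w
    simp only [Set.mem_preimage, mem_closedBall_zero_iff, rotation_apply, norm_mul,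
      Circle.norm_coe, one_mul]
  rw [h2] at h1
  have h3 : ∀ w : ℂ, UU ((rotation a) w) ^ κ = -(UU w ^ κ) := by
    intro w
    rw [rotation_apply, LCT_UU_rot, ha]
    ring
  simp_rw [h3] at h1
  rw [integral_neg] at h1
  have h4 : (2 : ℂ) * ∫ w in Metric.closedBall (0 : ℂ) r, UU w ^ κ = 0 := by
    linear_combination -h1
  simpa using h4

theorem LCT_int_disc0 (r : ℝ) (hr : 0 ≤ r) :
    ∫ w in Metric.closedBall (0 : ℂ) r, UU w ^ (0 : ℤ) = ((Real.pi * r ^ 2 : ℝ) : ℂ) := by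
  simp only [zpow_zero]
  rw [integral_const]
  simp only [MeasurableSet.univ, measureReal_restrict_apply, Set.univ_inter]
  rw [measureReal_def, Complex.volume_closedBall]
  rw [ENNReal.toReal_mul, ENNReal.toReal_pow, ENNReal.toReal_ofReal hr]
  simp
  ring

/-- volume of the ring -/
theorem LCT_ring {s : ℝ} (hs : 1 ≤ s) (A : Set ℂ)
    (hA : ∀ w ∈ A, s - 2 < ‖w‖ ∧ ‖w‖ ≤ s + 2) :
    volume A ≠ ⊤ ∧ volume.real A ≤ 18 * Real.pi * s := by
  have hsub : A ⊆ Metric.closedBall (0 : ℂ) (s + 2) := by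
    intro w hw
    simpa using (hA w hw).2
  have hfin : volume (Metric.closedBall (0 : ℂ) (s + 2)) ≠ ⊤ := by
    rw [Complex.volume_closedBall]
    finiteness
  have hreal : ∀ r : ℝ, 0 ≤ r → volume.real (Metric.closedBall (0 : ℂ) r) = Real.pi * r ^ 2 := by
    intro r hr
    rw [measureReal_def, Complex.volume_closedBall, ENNReal.toReal_mul, ENNReal.toReal_pow,
      ENNReal.toReal_ofReal hr]
    simp
    ring
  refine ⟨measure_ne_top_of_subset hsub hfin, ?_⟩
  have hpi := Real.pi_pos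
  by_cases h2 : s ≤ 2
  · calc volume.real A ≤ volume.real (Metric.closedBall (0 : ℂ) (s + 2)) :=
          measureReal_mono hsub hfin
      _ = Real.pi * (s + 2) ^ 2 := hreal _ (by linarith)
      _ ≤ Real.pi * (18 * s) := by
          apply mul_le_mul_of_nonneg_left _ hpi.le
          nlinarith
      _ = 18 * Real.pi * s := by ring
  · push Not at h2
    have hsub2 : A ⊆ Metric.closedBall (0 : ℂ) (s + 2) \ Metric.closedBall (0 : ℂ) (s - 2) := by
      intro w hw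
      refine ⟨hsub hw, ?_⟩
      have := (hA w hw).1
      simpa using this
    calc volume.real A ≤
          volume.real (Metric.closedBall (0 : ℂ) (s + 2) \ Metric.closedBall (0 : ℂ) (s - 2)) := by
          exact measureReal_mono hsub2 (measure_ne_top_of_subset Set.sdiff_subset hfin)
      _ = volume.real (Metric.closedBall (0 : ℂ) (s + 2)) -
          volume.real (Metric.closedBall (0 : ℂ) (s - 2)) :=
          measureReal_sdiff (Metric.closedBall_subset_closedBall (by linarith))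
            measurableSet_closedBall hfin
      _ = Real.pi * (s + 2) ^ 2 - Real.pi * (s - 2) ^ 2 := by
          rw [hreal _ (by linarith), hreal _ (by linarith)]
      _ = 8 * Real.pi * s := by ring
      _ ≤ 18 * Real.pi * s := by nlinarith

theorem count_small : ∃ K : ℝ, 0 < K ∧ ∀ (κ : ℤ) (Y : ℝ), 0 ≤ Y →
    ‖∑ z ∈ ann 0 Y, uu z ^ κ - (if κ = 0 then ((Real.pi / 4 * Y : ℝ) : ℂ) else 0)‖
      ≤ K * (1 + |(κ : ℝ)|) * √Y := by
  classical
  refine ⟨96, by norm_num, fun κ Y hY => ?_⟩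
  have hpi4 : Real.pi < 4 := Real.pi_lt_four
  have hpi := Real.pi_pos
  have hκ0 : (0 : ℝ) ≤ |(κ : ℝ)| := abs_nonneg _
  rcases lt_or_ge Y 1 with hY1 | hY1
  · have hemp : ann 0 Y = ∅ := by
      rw [Finset.eq_empty_iff_forall_notMem]
      intro z hz
      rw [mem_ann] at hz
      have h1 : 0 < nm z := nm_pos (Od_ne hz.1)
      have h2 : (1 : ℝ) ≤ nm z := by exact_mod_cast h1
      linarith [hz.2.2]
    rw [hemp, Finset.sum_empty, zero_sub, norm_neg]
    have hs : Y ≤ √Y := by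
      have : Y * Y ≤ Y := by nlinarith
      apply Real.le_sqrt_of_sq_le
      nlinarith
    split_ifs
    · rw [Complex.norm_real, Real.norm_eq_abs, abs_of_nonneg (by positivity)]
      have hs0 := Real.sqrt_nonneg Y
      nlinarith
    · rw [norm_zero]; positivity
  · set s := √Y with hs
    have hs1 : 1 ≤ s := Real.one_le_sqrt.mpr hY1
    have hsq : s ^ 2 = Y := Real.sq_sqrt hY
    set D : Set ℂ := Metric.closedBall (0 : ℂ) s with hD
    set A : Set ℂ := ⋃ z ∈ ann 0 Y, SQ z with hA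
    have hDfin : volume D ≠ ⊤ := by
      rw [hD, Complex.volume_closedBall]
      finiteness
    have hDm : MeasurableSet D := measurableSet_closedBall
    have hAm : MeasurableSet A := by
      rw [hA]
      exact Finset.measurableSet_biUnion _ (fun z _ => LCT_SQ_meas z)
    have hSfin : ∀ z, volume (SQ z) ≠ ⊤ := by
      intro z; rw [LCT_SQ_vol]; norm_num
    have hAfin : volume A ≠ ⊤ := by
      rw [hA]
      exact (measure_biUnion_lt_top (Finset.finite_toSet _) (fun z _ => (hSfin z).lt_top)).ne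
    -- membership facts
    have hzn : ∀ z ∈ ann 0 Y, ‖GaussianInt.toComplex z‖ ≤ s := by
      intro z hz
      have h1 := LCT_norm_toC z
      have h2 := (mem_ann.mp hz).2.2
      rw [hs]
      apply Real.le_sqrt_of_sq_le
      rw [h1]; exact h2
    have hAD : ∀ w ∈ A \ D, s - 2 < ‖w‖ ∧ ‖w‖ ≤ s + 2 := by
      intro w hw
      obtain ⟨hwA, hwD⟩ := hw
      rw [hA, Set.mem_iUnion₂] at hwA
      obtain ⟨z, hz, hwz⟩ := hwA
      have h1 := hzn z hz
      have h2 := LCT_SQ_norm hwz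
      have h3 : s < ‖w‖ := by simpa [hD] using hwD
      constructor
      · linarith
      · calc ‖w‖ = ‖GaussianInt.toComplex z - (GaussianInt.toComplex z - w)‖ := by
              congr 1; ring
          _ ≤ ‖GaussianInt.toComplex z‖ + ‖GaussianInt.toComplex z - w‖ := norm_sub_le _ _
          _ ≤ s + 2 := by linarith
    have hDA : ∀ w ∈ D \ A, s - 2 < ‖w‖ ∧ ‖w‖ ≤ s + 2 := by
      intro w hw
      obtain ⟨hwD, hwA⟩ := hw
      obtain ⟨z, hz, hwz⟩ := LCT_SQ_cover w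
      have h1 : z ∉ ann 0 Y := by
        intro hmem
        apply hwA
        rw [hA, Set.mem_iUnion₂]
        exact ⟨z, hmem, hwz⟩
      have h2 : Y < (nm z : ℝ) := by
        by_contra hcon
        push Not at hcon
        apply h1
        rw [mem_ann]
        refine ⟨hz, ?_, hcon⟩
        exact_mod_cast nm_pos (Od_ne hz)
      have h3 := LCT_norm_toC z
      have h4 : s < ‖GaussianInt.toComplex z‖ := by
        rw [hs]
        apply (Real.sqrt_lt' ?_).mpr
        · rw [h3]; exact h2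
        · rw [norm_pos_iff]
          intro h0
          rw [GaussianInt.toComplex_eq_zero] at h0
          exact Od_ne hz h0
      have h5 := LCT_SQ_norm hwz
      have h6 : ‖w‖ ≤ s := by simpa [hD] using hwD
      constructor
      · have : ‖GaussianInt.toComplex z‖ ≤ ‖w‖ + ‖GaussianInt.toComplex z - w‖ := by
          calc ‖GaussianInt.toComplex z‖ = ‖w + (GaussianInt.toComplex z - w)‖ := by
                congr 1; ring
            _ ≤ _ := norm_add_le _ _
        linarith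
      · linarith
    have hintA := LCT_integrableOn κ A hAfin
    have hintD := LCT_integrableOn κ D hDfin
    -- decomposition
    have hsplit : (∫ w in A, UU w ^ κ) - (∫ w in D, UU w ^ κ) =
        (∫ w in A \ D, UU w ^ κ) - (∫ w in D \ A, UU w ^ κ) := by
      rw [← integral_inter_add_sdiff hDm hintA, ← integral_inter_add_sdiff hAm hintD,
        Set.inter_comm D A]
      ring
    have hn : ∀ E : Set ℂ, (∀ w ∈ E, s - 2 < ‖w‖ ∧ ‖w‖ ≤ s + 2) →
        ‖∫ w in E, UU w ^ κ‖ ≤ 18 * Real.pi * s := by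
      intro E hE
      obtain ⟨h1, h2⟩ := LCT_ring hs1 E hE
      calc ‖∫ w in E, UU w ^ κ‖ ≤ 1 * volume.real E :=
            norm_setIntegral_le_of_norm_le_const h1.lt_top (fun w _ => LCT_norm_UU_zpow w κ)
        _ ≤ _ := by rw [one_mul]; exact h2
    have hintAsum : ∫ w in A, UU w ^ κ = ∑ z ∈ ann 0 Y, ∫ w in SQ z, UU w ^ κ := by
      rw [hA]
      apply integral_biUnion_finset
      · intro z _; exact LCT_SQ_meas z
      · intro z hz w hw hzw
        exact LCT_SQ_disj (mem_ann.mp hz).1 (mem_ann.mp hw).1 hzw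
      · intro z _; exact LCT_integrableOn κ _ (hSfin z)
    have hlocal : ∀ z ∈ ann 0 Y, ‖4 * uu z ^ κ - (∫ w in SQ z, UU w ^ κ)‖ ≤
        32 * |(κ : ℝ)| * (1 / mx z) := by
      intro z hz
      have hOd := (mem_ann.mp hz).1
      have hzne : GaussianInt.toComplex z ≠ 0 := by
        intro h0
        rw [GaussianInt.toComplex_eq_zero] at h0
        exact Od_ne hOd h0
      have hmx : (1 : ℝ) ≤ mx z := by exact_mod_cast LCT_mx_pos hOd
      have hmxn : (mx z : ℝ) ≤ ‖GaussianInt.toComplex z‖ := by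
        have h1 : ((mx z : ℕ) : ℝ) ^ 2 ≤ ‖GaussianInt.toComplex z‖ ^ 2 := by
          rw [LCT_norm_toC]
          exact_mod_cast LCT_mx_sq z
        exact le_of_sq_le_sq h1 (norm_nonneg _)
      have h4 : ∫ w in SQ z, (uu z ^ κ) = 4 * uu z ^ κ := by
        rw [integral_const]
        simp only [MeasurableSet.univ, measureReal_restrict_apply, Set.univ_inter]
        rw [measureReal_def, LCT_SQ_vol]
        simp
      rw [← h4, ← integral_sub]
      · have hb : ∀ w ∈ SQ z, ‖uu z ^ κ - UU w ^ κ‖ ≤ 8 * |(κ : ℝ)| * (1 / mx z) := by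
          intro w hw
          rw [LCT_uu_eq]
          calc ‖UU (GaussianInt.toComplex z) ^ κ - UU w ^ κ‖
              ≤ |(κ : ℝ)| * (4 * ‖GaussianInt.toComplex z - w‖ / ‖GaussianInt.toComplex z‖) :=
                LCT_UU_zpow_sub hzne w κ
            _ ≤ |(κ : ℝ)| * (4 * 2 / mx z) := by
                have h5 := LCT_SQ_norm hw
                gcongr
            _ = 8 * |(κ : ℝ)| * (1 / mx z) := by ring
        calc ‖∫ w in SQ z, (uu z ^ κ - UU w ^ κ)‖ ≤
              (8 * |(κ : ℝ)| * (1 / mx z)) * volume.real (SQ z) :=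
              norm_setIntegral_le_of_norm_le_const (hSfin z).lt_top hb
          _ = 32 * |(κ : ℝ)| * (1 / mx z) := by
              rw [measureReal_def, LCT_SQ_vol]
              have : (4 : ENNReal).toReal = 4 := by simp
              rw [this]; ring
      · apply Measure.integrableOn_of_bounded (M := 1) (hSfin z)
          aestronglyMeasurable_const
        exact Filter.Eventually.of_forall (fun w => norm_uu_zpow_le z κ)
      · exact LCT_integrableOn κ _ (hSfin z)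
    have hsum : ‖(∑ z ∈ ann 0 Y, 4 * uu z ^ κ) - (∫ w in A, UU w ^ κ)‖ ≤
        32 * |(κ : ℝ)| * (12 * s) := by
      rw [hintAsum, ← Finset.sum_sub_distrib]
      calc ‖∑ z ∈ ann 0 Y, (4 * uu z ^ κ - (∫ w in SQ z, UU w ^ κ))‖
          ≤ ∑ z ∈ ann 0 Y, ‖4 * uu z ^ κ - (∫ w in SQ z, UU w ^ κ)‖ := norm_sum_le _ _
        _ ≤ ∑ z ∈ ann 0 Y, 32 * |(κ : ℝ)| * (1 / mx z) := Finset.sum_le_sum hlocal
        _ = 32 * |(κ : ℝ)| * ∑ z ∈ ann 0 Y, (1 : ℝ) / mx z := by rw [Finset.mul_sum]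
        _ ≤ 32 * |(κ : ℝ)| * (12 * s) := by
            apply mul_le_mul_of_nonneg_left (LCT_sum_inv_mx Y) (by positivity)
    have hdisc : ∫ w in D, UU w ^ κ = 4 * (if κ = 0 then ((Real.pi / 4 * Y : ℝ) : ℂ) else 0) := by
      split_ifs with h0
      · subst h0
        rw [hD, LCT_int_disc0 s (by linarith), hsq]
        push_cast; ring
      · rw [hD, LCT_int_disc κ h0 s, mul_zero]
    have hfin : ‖4 * (∑ z ∈ ann 0 Y, uu z ^ κ -
        (if κ = 0 then ((Real.pi / 4 * Y : ℝ) : ℂ) else 0))‖ ≤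
        32 * |(κ : ℝ)| * (12 * s) + 36 * Real.pi * s := by
      have e : 4 * (∑ z ∈ ann 0 Y, uu z ^ κ -
          (if κ = 0 then ((Real.pi / 4 * Y : ℝ) : ℂ) else 0)) =
          ((∑ z ∈ ann 0 Y, 4 * uu z ^ κ) - (∫ w in A, UU w ^ κ)) +
          ((∫ w in A \ D, UU w ^ κ) - (∫ w in D \ A, UU w ^ κ)) := by
        rw [← hsplit, hdisc, ← Finset.mul_sum]
        ring
      rw [e]
      calc _ ≤ ‖(∑ z ∈ ann 0 Y, 4 * uu z ^ κ) - (∫ w in A, UU w ^ κ)‖ +
            ‖(∫ w in A \ D, UU w ^ κ) - (∫ w in D \ A, UU w ^ κ)‖ := norm_add_le _ _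
        _ ≤ 32 * |(κ : ℝ)| * (12 * s) + (‖∫ w in A \ D, UU w ^ κ‖ + ‖∫ w in D \ A, UU w ^ κ‖) := by
            gcongr
            exact norm_sub_le _ _
        _ ≤ 32 * |(κ : ℝ)| * (12 * s) + (18 * Real.pi * s + 18 * Real.pi * s) := by
            gcongr
            · exact hn _ hAD
            · exact hn _ hDA
        _ = _ := by ring
    rw [norm_mul] at hfin
    have h4 : ‖(4 : ℂ)‖ = 4 := by simp
    rw [h4] at hfin
    nlinarith


theorem LCT_card0 : ∃ K : ℝ, 0 < K ∧ ∀ Y : ℝ, 0 ≤ Y →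
    |((ann 0 Y).card : ℝ) - Real.pi / 4 * Y| ≤ K * √Y := by
  obtain ⟨K, hK, h⟩ := count_small
  refine ⟨K, hK, fun Y hY => ?_⟩
  have h1 := h 0 Y hY
  simp only [zpow_zero, Finset.sum_const, nsmul_eq_mul, mul_one, if_true, Int.cast_zero,
    abs_zero, add_zero] at h1
  have h2 : (((ann 0 Y).card : ℂ) - ((Real.pi / 4 * Y : ℝ) : ℂ)) =
      ((((ann 0 Y).card : ℝ) - Real.pi / 4 * Y : ℝ) : ℂ) := by
    push_cast; ring
  rw [h2, Complex.norm_real, Real.norm_eq_abs] at h1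
  exact h1

theorem LCT_ann_union (a b : ℝ) (ha : 0 ≤ a) (hab : a ≤ b) :
    (ann 0 b).card = (ann 0 a).card + (ann a b).card := by
  classical
  rw [← Finset.card_union_of_disjoint]
  · congr 1
    ext z
    rw [Finset.mem_union, mem_ann, mem_ann, mem_ann]
    constructor
    · rintro ⟨h1, h2, h3⟩
      rcases le_or_gt (nm z : ℝ) a with h4 | h4
      · exact Or.inl ⟨h1, h2, h4⟩
      · exact Or.inr ⟨h1, h4, h3⟩
    · rintro (⟨h1, h2, h3⟩ | ⟨h1, h2, h3⟩)
      · exact ⟨h1, h2, h3.trans hab⟩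
      · exact ⟨h1, lt_of_le_of_lt ha h2, h3⟩
  · rw [Finset.disjoint_left]
    intro z h1 h2
    rw [mem_ann] at h1 h2
    linarith [h1.2.2, h2.2.1]

/-- cardinality of `ann a b` -/
theorem card_ann : ∃ K : ℝ, 0 < K ∧ ∀ a b : ℝ, 0 ≤ a → a ≤ b →
    |((ann a b).card : ℝ) - Real.pi / 4 * (b - a)| ≤ K * √b := by
  obtain ⟨K, hK, h⟩ := LCT_card0
  refine ⟨2 * K, by positivity, fun a b ha hab => ?_⟩
  have h1 := h a ha
  have h2 := h b (ha.trans hab)
  have h3 : ((ann 0 b).card : ℝ) = (ann 0 a).card + (ann a b).card := by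
    exact_mod_cast LCT_ann_union a b ha hab
  have h4 : √a ≤ √b := Real.sqrt_le_sqrt hab
  have h5 : K * √a ≤ K * √b := by gcongr
  rw [abs_le] at h1 h2 ⊢
  constructor <;> nlinarith [h1.1, h1.2, h2.1, h2.2]

theorem LCT_mult_image (a b : ℝ) (d : GI) (hd : Od d) :
    open Classical in
    (ann a b).filter (d ∣ ·) = (ann (a / nm d) (b / nm d)).image (fun w => d * w) := by
  classical
  have hn : (0 : ℝ) < nm d := by exact_mod_cast nm_pos (Od_ne hd)
  ext z
  rw [Finset.mem_filter, Finset.mem_image, mem_ann]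
  constructor
  · rintro ⟨⟨h1, h2, h3⟩, ⟨w, hw⟩⟩
    refine ⟨w, ?_, hw.symm⟩
    rw [mem_ann]
    subst hw
    rw [nm_mul] at h2 h3
    push_cast at h2 h3
    refine ⟨Od_of_mul hd h1, ?_, ?_⟩
    · rw [div_lt_iff₀ hn]; linarith
    · rw [le_div_iff₀ hn]; linarith
  · rintro ⟨w, hw, rfl⟩
    rw [mem_ann] at hw
    obtain ⟨h1, h2, h3⟩ := hw
    rw [div_lt_iff₀ hn] at h2
    rw [le_div_iff₀ hn] at h3
    refine ⟨⟨Od_mul hd h1, ?_, ?_⟩, dvd_mul_right d w⟩
    · rw [nm_mul]; push_cast; linarith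
    · rw [nm_mul]; push_cast; linarith

/-- multiples of `d` in `ann a b` -/
theorem card_mult : ∃ K : ℝ, 0 < K ∧ ∀ a b : ℝ, 0 ≤ a → a ≤ b → ∀ d : GI, Od d →
    open Classical in
    |(((ann a b).filter (d ∣ ·)).card : ℝ) - Real.pi / 4 * (b - a) / nm d| ≤ K * √(b / nm d) := by
  classical
  obtain ⟨K, hK, h⟩ := card_ann
  refine ⟨K, hK, fun a b ha hab d hd => ?_⟩
  have hn : (0 : ℝ) < nm d := by exact_mod_cast nm_pos (Od_ne hd)
  have h1 := h (a / nm d) (b / nm d) (by positivity) (by gcongr)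
  have h2 : ((ann a b).filter (d ∣ ·)).card = (ann (a / nm d) (b / nm d)).card := by
    rw [LCT_mult_image a b d hd]
    apply Finset.card_image_of_injective
    intro x y hxy
    exact mul_left_cancel₀ (Od_ne hd) hxy
  have h3 : Real.pi / 4 * (b / nm d - a / nm d) = Real.pi / 4 * (b - a) / nm d := by
    field_simp
  rw [h2]
  rw [h3] at h1
  exact h1

/-- `∑_{d ∣ z} u(z)^κ = u(d)^κ ∑_w u(w)^κ` -/
theorem sum_mult (a b : ℝ) (d : GI) (hd : Od d) (κ : ℤ) :
    open Classical in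
    ∑ z ∈ (ann a b).filter (d ∣ ·), uu z ^ κ = uu d ^ κ * ∑ w ∈ ann (a / nm d) (b / nm d), uu w ^ κ := by
  classical
  rw [LCT_mult_image a b d hd, Finset.sum_image, Finset.mul_sum]
  · apply Finset.sum_congr rfl
    intro w _
    exact uu_mul_zpow d w κ
  · intro x _ y _ hxy
    exact mul_left_cancel₀ (Od_ne hd) hxy

/-- sum over odd numbers -/
theorem LCT_odd_sum (N : ℕ) :
    ∑ n ∈ (Icc 3 N).filter (fun n => n % 2 = 1), (1 : ℝ) / (n : ℝ) ^ 2 ≤ 1 / 4 := by
  classical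
  have key : ∀ M : ℕ, ∑ n ∈ (Icc 3 (2 * M + 1)).filter (fun n => n % 2 = 1),
      (1 : ℝ) / (n : ℝ) ^ 2 ≤ 1 / 4 - 1 / (4 * (M + 1)) := by
    intro M
    induction M with
    | zero => simp
    | succ M ih =>
      have e : (Icc 3 (2 * (M + 1) + 1)).filter (fun n => n % 2 = 1) =
          insert (2 * M + 3) ((Icc 3 (2 * M + 1)).filter (fun n => n % 2 = 1)) := by
        ext n
        simp only [Finset.mem_filter, Finset.mem_Icc, Finset.mem_insert]
        omega
      rw [e, Finset.sum_insert (by simp)]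
      have h1 : (1 : ℝ) / ((2 * M + 3 : ℕ) : ℝ) ^ 2 ≤ 1 / (4 * ((M : ℝ) + 1)) -
          1 / (4 * ((M : ℝ) + 2)) := by
        have hM : (0 : ℝ) ≤ M := Nat.cast_nonneg M
        rw [div_sub_div _ _ (by positivity) (by positivity), div_le_div_iff₀ (by positivity)
          (by positivity)]
        push_cast
        nlinarith
      have h2 : (((M + 1 : ℕ) : ℝ) + 1) = (M : ℝ) + 2 := by push_cast; ring
      rw [h2]
      linarith
  have h := key N
  calc ∑ n ∈ (Icc 3 N).filter (fun n => n % 2 = 1), (1 : ℝ) / (n : ℝ) ^ 2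
      ≤ ∑ n ∈ (Icc 3 (2 * N + 1)).filter (fun n => n % 2 = 1), (1 : ℝ) / (n : ℝ) ^ 2 := by
        apply Finset.sum_le_sum_of_subset_of_nonneg
        · intro n hn
          simp only [Finset.mem_filter, Finset.mem_Icc] at hn ⊢
          omega
        · intro n _ _; positivity
    _ ≤ 1 / 4 - 1 / (4 * (N + 1)) := h
    _ ≤ 1 / 4 := by
        have : (0 : ℝ) ≤ 1 / (4 * ((N : ℝ) + 1)) := by positivity
        linarith

theorem LCT_Od_nat {n : ℕ} (hn : n % 2 = 1) : Od (n : GI) := by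
  constructor
  · simp; omega
  · simp

theorem LCT_nm_nat (n : ℕ) : nm (n : GI) = n ^ 2 := by
  have h := nm_int (n : GI)
  simp at h
  exact_mod_cast h

/-- nonprimitive elements of the class have an odd divisor -/
theorem LCT_nonprim {z : GI} (hz : Od z) (hp : ¬ Pr z) {b : ℝ} (hb : (nm z : ℝ) ≤ b) :
    ∃ n ∈ (Icc 3 ⌊√b⌋₊).filter (fun n => n % 2 = 1), ((n : ℕ) : GI) ∣ z := by
  classical
  set g := Int.gcd z.re z.im with hg
  have h1 : (g : ℤ) ∣ z.re := Int.gcd_dvd_left ..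
  have h2 : (g : ℤ) ∣ z.im := Int.gcd_dvd_right ..
  have hg1 : g ≠ 1 := hp
  have hre : z.re ≠ 0 := by have := hz.1; omega
  have hodd : g % 2 = 1 := by
    by_contra hcon
    have h3 : g % 2 = 0 := by omega
    have h4 : (2 : ℤ) ∣ z.re := by
      refine dvd_trans ?_ h1
      omega
    have := hz.1
    omega
  have hdvd : ((g : ℕ) : GI) ∣ z := by
    obtain ⟨a, ha⟩ := h1
    obtain ⟨c, hc⟩ := h2
    refine ⟨⟨a, c⟩, ?_⟩
    apply Zsqrtd.ext
    · simp [ha]
    · simp [hc]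
  refine ⟨g, ?_, hdvd⟩
  rw [Finset.mem_filter, Finset.mem_Icc]
  refine ⟨⟨?_, ?_⟩, hodd⟩
  · omega
  · apply Nat.le_floor
    apply Real.le_sqrt_of_sq_le
    have h5 : nm ((g : ℕ) : GI) ≤ nm z := by
      obtain ⟨w, hw⟩ := hdvd
      rw [hw, nm_mul]
      have : 0 < nm w := by
        apply nm_pos
        rintro rfl
        apply Od_ne hz
        rw [hw, mul_zero]
      exact Nat.le_mul_of_pos_right _ this
    rw [LCT_nm_nat] at h5
    calc ((g : ℕ) : ℝ) ^ 2 ≤ (nm z : ℝ) := by exact_mod_cast h5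
      _ ≤ b := hb

/-- primitive points, lower bound -/
theorem card_pan : ∃ c Y0 : ℝ, 0 < c ∧ 1 ≤ Y0 ∧ ∀ Y : ℝ, Y0 ≤ Y →
    ∀ p : GI, Od p → 5 ≤ nm p → ∀ b : ℝ, 11 / 10 * Y ≤ b → b ≤ 10 * Y →
    open Classical in
    c * Y ≤ (((pan Y b).filter (fun z => ¬ p ∣ z)).card : ℝ) := by
  classical
  obtain ⟨K1, hK1, h1⟩ := card_ann
  obtain ⟨K2, hK2, h2⟩ := card_mult
  -- the error term is small for large `Y`
  have herr : ∀ᶠ Y : ℝ in Filter.atTop, (K1 + 2 * K2) * √(10 * Y) +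
      K2 * √(10 * Y) * Real.log (√(10 * Y)) ≤ 1 / 100 * Y := by
    have t1 : Filter.Tendsto (fun Y : ℝ => √(10 * Y)) Filter.atTop Filter.atTop := by
      apply Real.tendsto_sqrt_atTop.comp
      exact Filter.tendsto_id.const_mul_atTop (by norm_num)
    have l1 : ∀ᶠ s : ℝ in Filter.atTop, (K1 + 2 * K2) * s + K2 * s * Real.log s ≤
        1 / 1000 * s ^ 2 := by
      have hlog : (fun s : ℝ => Real.log s) =o[Filter.atTop] (fun s : ℝ => s) :=
        Real.isLittleO_log_id_atTop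
      have e1 := hlog.bound (c := 1 / (2000 * K2)) (by positivity)
      have e2 : ∀ᶠ s : ℝ in Filter.atTop, 2000 * (K1 + 2 * K2) ≤ s :=
        Filter.eventually_ge_atTop _
      have e3 : ∀ᶠ s : ℝ in Filter.atTop, 1 ≤ s := Filter.eventually_ge_atTop _
      filter_upwards [e1, e2, e3] with s f1 f2 f3
      have f4 : Real.log s ≤ 1 / (2000 * K2) * s := by
        rw [Real.norm_eq_abs, Real.norm_eq_abs, abs_of_nonneg (by linarith : (0:ℝ) ≤ s)] at f1
        exact (le_abs_self _).trans f1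
      have f5 : K2 * s * Real.log s ≤ K2 * s * (1 / (2000 * K2) * s) := by gcongr
      have f6 : K2 * s * (1 / (2000 * K2) * s) = 1 / 2000 * s ^ 2 := by
        field_simp
      nlinarith
    have l2 := t1.eventually l1
    filter_upwards [l2, Filter.eventually_ge_atTop (0 : ℝ)] with Y g1 g2
    have : √(10 * Y) ^ 2 = 10 * Y := Real.sq_sqrt (by linarith)
    rw [this] at g1
    linarith
  obtain ⟨Y1, hY1⟩ := Filter.eventually_atTop.mp herr
  refine ⟨1 / 100, max Y1 1, by norm_num, le_max_right _ _, fun Y hY p hp hp5 b hb1 hb2 => ?_⟩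
  have hYY1 : Y1 ≤ Y := (le_max_left _ _).trans hY
  have hY1' : 1 ≤ Y := (le_max_right _ _).trans hY
  have herrY := hY1 Y hYY1
  have hY0 : 0 ≤ Y := by linarith
  have hYb : Y ≤ b := by linarith
  have hb0 : 0 ≤ b := by linarith
  set N := ⌊√b⌋₊ with hN
  set O := (Icc 3 N).filter (fun n => n % 2 = 1) with hO
  have hsub : ann Y b ⊆ (pan Y b).filter (fun z => ¬ p ∣ z) ∪
      ((ann Y b).filter (p ∣ ·) ∪ O.biUnion (fun n => (ann Y b).filter (((n : ℕ) : GI) ∣ ·))) := by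
    intro z hz
    rw [Finset.mem_union, Finset.mem_union, Finset.mem_filter, Finset.mem_filter,
      Finset.mem_biUnion]
    by_cases hpz : p ∣ z
    · right; left; exact ⟨hz, hpz⟩
    · by_cases hprim : Pr z
      · left
        refine ⟨?_, hpz⟩
        rw [mem_pan]
        rw [mem_ann] at hz
        exact ⟨hz.1, hprim, hz.2⟩
      · right; right
        have hz' := mem_ann.mp hz
        obtain ⟨n, hn1, hn2⟩ := LCT_nonprim hz'.1 hprim hz'.2.2
        exact ⟨n, hn1, Finset.mem_filter.mpr ⟨hz, hn2⟩⟩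
  have hcard : ((ann Y b).card : ℝ) ≤ (((pan Y b).filter (fun z => ¬ p ∣ z)).card : ℝ) +
      ((((ann Y b).filter (p ∣ ·)).card : ℝ) +
        ∑ n ∈ O, (((ann Y b).filter (((n : ℕ) : GI) ∣ ·)).card : ℝ)) := by
    have := (Finset.card_le_card hsub).trans ((Finset.card_union_le _ _).trans
      (Nat.add_le_add_left ((Finset.card_union_le _ _).trans
        (Nat.add_le_add_left Finset.card_biUnion_le _)) _))
    exact_mod_cast this
  have hA := h1 Y b hY0 hYb
  have hP := h2 Y b hY0 hYb p hp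
  rw [abs_le] at hA hP
  have hpi3 := Real.pi_gt_three
  have hpi4 := Real.pi_lt_four
  have hnp : (5 : ℝ) ≤ nm p := by exact_mod_cast hp5
  have hPb : (((ann Y b).filter (p ∣ ·)).card : ℝ) ≤ Real.pi / 4 * (b - Y) / 5 + K2 * √b := by
    have e1 : Real.pi / 4 * (b - Y) / nm p ≤ Real.pi / 4 * (b - Y) / 5 := by
      apply div_le_div_of_nonneg_left _ (by norm_num) hnp
      have : 0 ≤ b - Y := by linarith
      positivity
    have e2 : √(b / nm p) ≤ √b := by
      apply Real.sqrt_le_sqrt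
      apply div_le_self hb0
      linarith
    have e3 : K2 * √(b / nm p) ≤ K2 * √b := by gcongr
    linarith [hP.2]
  have hOb : ∑ n ∈ O, (((ann Y b).filter (((n : ℕ) : GI) ∣ ·)).card : ℝ) ≤
      Real.pi / 4 * (b - Y) * (1 / 4) + K2 * √b * (1 + Real.log (√b)) := by
    have e1 : ∀ n ∈ O, (((ann Y b).filter (((n : ℕ) : GI) ∣ ·)).card : ℝ) ≤
        Real.pi / 4 * (b - Y) * (1 / (n : ℝ) ^ 2) + K2 * √b * (n : ℝ)⁻¹ := by
      intro n hn
      rw [hO, Finset.mem_filter, Finset.mem_Icc] at hn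
      have e2 := h2 Y b hY0 hYb ((n : ℕ) : GI) (LCT_Od_nat hn.2)
      rw [abs_le] at e2
      have e3 : ((nm ((n : ℕ) : GI) : ℕ) : ℝ) = (n : ℝ) ^ 2 := by
        rw [LCT_nm_nat]; push_cast; ring
      rw [e3] at e2
      have e4 : √(b / (n : ℝ) ^ 2) = √b * (n : ℝ)⁻¹ := by
        rw [Real.sqrt_div hb0, Real.sqrt_sq (Nat.cast_nonneg n)]
        rfl
      rw [e4] at e2
      have e5 : Real.pi / 4 * (b - Y) / (n : ℝ) ^ 2 = Real.pi / 4 * (b - Y) * (1 / (n : ℝ) ^ 2) := by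
        ring
      rw [e5] at e2
      linarith [e2.2]
    calc ∑ n ∈ O, (((ann Y b).filter (((n : ℕ) : GI) ∣ ·)).card : ℝ)
        ≤ ∑ n ∈ O, (Real.pi / 4 * (b - Y) * (1 / (n : ℝ) ^ 2) + K2 * √b * (n : ℝ)⁻¹) :=
          Finset.sum_le_sum e1
      _ = Real.pi / 4 * (b - Y) * ∑ n ∈ O, (1 / (n : ℝ) ^ 2) + K2 * √b * ∑ n ∈ O, (n : ℝ)⁻¹ := by
          rw [Finset.sum_add_distrib, Finset.mul_sum, Finset.mul_sum]
      _ ≤ Real.pi / 4 * (b - Y) * (1 / 4) + K2 * √b * (1 + Real.log (√b)) := by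
          have f1 := LCT_odd_sum N
          have f2 : ∑ n ∈ O, (n : ℝ)⁻¹ ≤ 1 + Real.log (√b) := by
            have hs1 : 1 ≤ √b := Real.one_le_sqrt.mpr (by linarith)
            have hN1 : 1 ≤ N := Nat.le_floor (by exact_mod_cast hs1)
            calc ∑ n ∈ O, (n : ℝ)⁻¹ ≤ ∑ n ∈ Icc 1 N, (n : ℝ)⁻¹ := by
                  apply Finset.sum_le_sum_of_subset_of_nonneg
                  · intro n hn
                    rw [hO, Finset.mem_filter, Finset.mem_Icc] at hn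
                    rw [Finset.mem_Icc]
                    omega
                  · intro n _ _; positivity
              _ ≤ 1 + Real.log N := by
                  have := harmonic_le_one_add_log N
                  rw [harmonic_eq_sum_Icc] at this
                  push_cast at this
                  exact this
              _ ≤ 1 + Real.log (√b) := by
                  gcongr
                  exact Nat.floor_le (Real.sqrt_nonneg _)
          have f3 : 0 ≤ Real.pi / 4 * (b - Y) := by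
            have : 0 ≤ b - Y := by linarith
            positivity
          gcongr
  -- combine
  have hsb : √b ≤ √(10 * Y) := Real.sqrt_le_sqrt hb2
  have hs1 : 1 ≤ √b := Real.one_le_sqrt.mpr (by linarith)
  have hlog : Real.log (√b) ≤ Real.log (√(10 * Y)) := Real.log_le_log (by linarith) hsb
  have hlog0 : 0 ≤ Real.log (√b) := Real.log_nonneg hs1
  have hE : K1 * √b + K2 * √b + K2 * √b * (1 + Real.log (√b)) ≤ 1 / 100 * Y := by
    calc K1 * √b + K2 * √b + K2 * √b * (1 + Real.log (√b)) =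
        (K1 + 2 * K2) * √b + K2 * √b * Real.log (√b) := by ring
      _ ≤ (K1 + 2 * K2) * √(10 * Y) + K2 * √(10 * Y) * Real.log (√(10 * Y)) := by gcongr
      _ ≤ 1 / 100 * Y := herrY
  have hmain : Real.pi / 4 * (b - Y) * (11 / 20) ≥ 3 / 4 * (Y / 10) * (11 / 20) := by
    have e1 : Y / 10 ≤ b - Y := by linarith
    have e2 : 3 / 4 ≤ Real.pi / 4 := by linarith
    gcongr
  nlinarith [hA.1]

/-- `∑_{N(z) ≤ Y} 1 / N(z) ≥ c log Y` -/
theorem sum_inv_ge : ∃ c Y0 : ℝ, 0 < c ∧ 1 ≤ Y0 ∧ ∀ Y : ℝ, Y0 ≤ Y →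
    c * Real.log Y ≤ ∑ z ∈ ann 0 Y, (1 : ℝ) / nm z := by
  classical
  obtain ⟨K, hK, h⟩ := card_ann
  -- dyadic block
  set Y1 : ℝ := (4 * K) ^ 2 + 1 with hY1
  have hY1' : 1 ≤ Y1 := by rw [hY1]; nlinarith [sq_nonneg (4 * K)]
  have hblock : ∀ Y : ℝ, Y1 ≤ Y → 1 / 16 ≤ ∑ z ∈ ann Y (4 * Y), (1 : ℝ) / nm z := by
    intro Y hY
    have hY0 : 0 < Y := by linarith
    have h1 := h Y (4 * Y) hY0.le (by linarith)
    rw [abs_le] at h1
    have h2 : √(4 * Y) = 2 * √Y := by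
      rw [Real.sqrt_mul (by norm_num)]
      norm_num
    rw [h2] at h1
    have h3 : 4 * K ≤ √Y := by
      apply Real.le_sqrt_of_sq_le
      linarith
    have h4 : √Y * √Y = Y := Real.mul_self_sqrt hY0.le
    have h5 : K * (2 * √Y) ≤ Y / 2 := by nlinarith [Real.sqrt_nonneg Y]
    have hpi3 := Real.pi_gt_three
    have h6 : (Y : ℝ) ≤ ((ann Y (4 * Y)).card : ℝ) := by nlinarith [h1.1]
    calc (1 : ℝ) / 16 ≤ Y * (1 / (4 * Y)) := by
          have : Y * (1 / (4 * Y)) = 1 / 4 := by field_simp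
          rw [this]; norm_num
      _ ≤ ((ann Y (4 * Y)).card : ℝ) * (1 / (4 * Y)) := by gcongr
      _ = ∑ z ∈ ann Y (4 * Y), (1 : ℝ) / (4 * Y) := by
          rw [Finset.sum_const, nsmul_eq_mul]
      _ ≤ ∑ z ∈ ann Y (4 * Y), (1 : ℝ) / nm z := by
          apply Finset.sum_le_sum
          intro z hz
          have hz' := mem_ann.mp hz
          have : (0 : ℝ) < nm z := by exact_mod_cast nm_pos (Od_ne hz'.1)
          apply one_div_le_one_div_of_le this hz'.2.2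
  have hind : ∀ k : ℕ, (k : ℝ) / 16 ≤ ∑ z ∈ ann 0 (4 ^ k * Y1), (1 : ℝ) / nm z := by
    intro k
    induction k with
    | zero =>
      simp only [Nat.cast_zero, zero_div]
      apply Finset.sum_nonneg
      intro z _; positivity
    | succ k ih =>
      have hge : Y1 ≤ 4 ^ k * Y1 := by
        have : (1 : ℝ) ≤ 4 ^ k := one_le_pow₀ (by norm_num)
        nlinarith
      have hb := hblock (4 ^ k * Y1) hge
      have hdisj : Disjoint (ann 0 (4 ^ k * Y1)) (ann (4 ^ k * Y1) (4 * (4 ^ k * Y1))) := by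
        rw [Finset.disjoint_left]
        intro z h1 h2
        rw [mem_ann] at h1 h2
        linarith [h1.2.2, h2.2.1]
      have hsub : ann 0 (4 ^ k * Y1) ∪ ann (4 ^ k * Y1) (4 * (4 ^ k * Y1)) ⊆
          ann 0 (4 ^ (k + 1) * Y1) := by
        intro z hz
        rw [Finset.mem_union, mem_ann, mem_ann] at hz
        rw [mem_ann]
        have e : (4 : ℝ) ^ (k + 1) * Y1 = 4 * (4 ^ k * Y1) := by ring
        rw [e]
        rcases hz with ⟨h1, h2, h3⟩ | ⟨h1, h2, h3⟩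
        · exact ⟨h1, h2, by linarith⟩
        · exact ⟨h1, by linarith, h3⟩
      calc (((k + 1 : ℕ)) : ℝ) / 16 = (k : ℝ) / 16 + 1 / 16 := by push_cast; ring
        _ ≤ ∑ z ∈ ann 0 (4 ^ k * Y1), (1 : ℝ) / nm z +
            ∑ z ∈ ann (4 ^ k * Y1) (4 * (4 ^ k * Y1)), (1 : ℝ) / nm z := add_le_add ih hb
        _ = ∑ z ∈ ann 0 (4 ^ k * Y1) ∪ ann (4 ^ k * Y1) (4 * (4 ^ k * Y1)), (1 : ℝ) / nm z := by
            rw [Finset.sum_union hdisj]
        _ ≤ _ := by
            apply Finset.sum_le_sum_of_subset_of_nonneg hsub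
            intro z _ _; positivity
  have hlog4 : (0 : ℝ) < Real.log 4 := Real.log_pos (by norm_num)
  refine ⟨1 / (64 * Real.log 4), (4 * Y1) ^ 2, by positivity, ?_, fun Y hY => ?_⟩
  · nlinarith
  · have hY0 : 0 < Y := by nlinarith
    have hYY1 : 1 ≤ Y / Y1 := by
      rw [le_div_iff₀ (by linarith)]
      nlinarith
    set k := ⌊Real.log (Y / Y1) / Real.log 4⌋₊ with hk
    have hk1 : (k : ℝ) ≤ Real.log (Y / Y1) / Real.log 4 :=
      Nat.floor_le (div_nonneg (Real.log_nonneg hYY1) hlog4.le)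
    have hk2 : Real.log (Y / Y1) / Real.log 4 < k + 1 := Nat.lt_floor_add_one _
    have hsub : ann 0 (4 ^ k * Y1) ⊆ ann 0 Y := by
      intro z hz
      rw [mem_ann] at hz ⊢
      refine ⟨hz.1, hz.2.1, hz.2.2.trans ?_⟩
      have e1 : (k : ℝ) * Real.log 4 ≤ Real.log (Y / Y1) := by
        rwa [le_div_iff₀ hlog4] at hk1
      have e2 : (4 : ℝ) ^ k ≤ Y / Y1 := by
        rw [← Real.log_le_log_iff (by positivity) (by positivity), Real.log_pow]
        exact e1
      rwa [le_div_iff₀ (by linarith)] at e2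
    have hsum : (k : ℝ) / 16 ≤ ∑ z ∈ ann 0 Y, (1 : ℝ) / nm z := by
      refine (hind k).trans ?_
      apply Finset.sum_le_sum_of_subset_of_nonneg hsub
      intro z _ _; positivity
    have hlogY : Real.log (Y / Y1) = Real.log Y - Real.log Y1 :=
      Real.log_div (by linarith) (by linarith)
    have hY1log : 2 * Real.log (4 * Y1) ≤ Real.log Y := by
      have e : Real.log ((4 * Y1) ^ 2) ≤ Real.log Y := Real.log_le_log (by positivity) hY
      rw [Real.log_pow] at e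
      exact_mod_cast e
    have hl4 : Real.log (4 * Y1) = Real.log 4 + Real.log Y1 :=
      Real.log_mul (by norm_num) (by linarith)
    have hl1 : 0 ≤ Real.log Y1 := Real.log_nonneg hY1'
    have hk3 : Real.log Y / (2 * Real.log 4) ≤ k := by
      have : Real.log Y / 2 ≤ Real.log Y - Real.log Y1 - Real.log 4 := by linarith
      have e1 : Real.log Y / (2 * Real.log 4) ≤ (Real.log Y - Real.log Y1 - Real.log 4) / Real.log 4 := by
        rw [div_le_div_iff₀ (by positivity) hlog4]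
        nlinarith
      have e2 : (Real.log Y - Real.log Y1 - Real.log 4) / Real.log 4 =
          Real.log (Y / Y1) / Real.log 4 - 1 := by
        rw [hlogY]
        field_simp
      linarith
    calc 1 / (64 * Real.log 4) * Real.log Y ≤ (Real.log Y / (2 * Real.log 4)) / 16 := by
          have hlY : 0 ≤ Real.log Y := by nlinarith
          rw [div_mul_eq_mul_div, one_mul, div_div, div_le_div_iff₀ (by positivity) (by positivity)]
          nlinarith
      _ ≤ (k : ℝ) / 16 := by gcongr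
      _ ≤ _ := hsum

end Pool.Agent.MRS
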