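import Pool.Agent.MRS.Mulb

set_option autoImplicit false

/-! Module PEU (euler_cmp): Euler products for the multiplicative functions `‖b_k‖`, `b_0`, `b_{2k}` at `1 + α`, local factors at
`p = 1 mod 4` with `x = p^{-1-α} ≤ 1/5`: `A ≤ 1 + |2cos kφ| x + 2x²/(1-x)`, `B ≥ 1 + 2x - 2x²/(1-x)`, `D ≥ 1 + 2cos(2kφ) x - 2x²/(1-x) ≥ 1/2`;
`|2 cos kφ| ≤ 3/2 + cos(2kφ)/2`; `log A - (3/4) log B - (1/4) log D ≤ 9 x²`, `∑ p^{-2} < ∞`.
`D > 0` follows from the comparison, because `A ≥ 1`. -/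

open Finset

namespace Pool.Agent.MRS

theorem peu_bb0_nonneg (n : ℕ) : 0 ≤ (bb 0 n).re := (norm_nonneg _).trans (norm_bb_le 0 n)

theorem peu_bb_ofReal (κ : ℤ) (n : ℕ) : bb κ n = (((bb κ n).re : ℝ) : ℂ) := by
  apply Complex.ext
  · simp
  · simp [bb_im]

theorem peu_norm_bb0 (n : ℕ) : ‖bb 0 n‖ = (bb 0 n).re := by
  have h := peu_bb_ofReal 0 n
  rw [h, Complex.norm_real, Real.norm_of_nonneg]
  · simp
  · exact peu_bb0_nonneg n

theorem peu_sum (n : ℕ) : ∑ k ∈ Icc 1 n, ‖bb 0 k‖ ≤ 2 * (n : ℝ) := by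
  have h := sum_bb 0 (n : ℝ) (Nat.cast_nonneg n)
  rw [Nat.floor_natCast] at h
  have h2 : ∑ k ∈ Icc 1 n, ‖bb 0 k‖ = (∑ k ∈ Icc 1 n, bb 0 k).re := by
    rw [Complex.re_sum]
    exact Finset.sum_congr rfl (fun k _ => peu_norm_bb0 k)
  rw [h2, h]
  have h3 : ((pan 0 (n : ℝ)).card : ℝ) ≤ 4 * (n : ℝ) := by
    refine le_trans ?_ (card_ann_le 0 (Nat.cast_nonneg n))
    exact_mod_cast Finset.card_le_card (pan_subset 0 (n : ℝ))
  simp only [zpow_zero, Finset.sum_const, nsmul_eq_mul, mul_one]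
  have h4 : ((1 / 2 : ℂ) * (((pan 0 (n : ℝ)).card : ℕ) : ℂ)) = (((1 / 2 : ℝ) * ((pan 0 (n : ℝ)).card : ℝ) : ℝ) : ℂ) := by
    push_cast
    rfl
  rw [h4, Complex.ofReal_re]
  linarith

theorem peu_summable {α : ℝ} (hα : 0 < α) :
    Summable (fun n : ℕ => (bb 0 n).re * (n : ℝ) ^ (-(1 + α))) := by
  have hO : (fun n : ℕ ↦ ∑ k ∈ Icc 1 n, ‖bb 0 k‖) =O[Filter.atTop] fun n ↦ (n : ℝ) ^ (1 : ℝ) := by
    refine Asymptotics.IsBigO.of_bound 2 (Filter.Eventually.of_forall (fun n => ?_))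
    rw [Real.rpow_one, Real.norm_of_nonneg (Finset.sum_nonneg (fun _ _ => norm_nonneg _)),
      Real.norm_of_nonneg (Nat.cast_nonneg n)]
    exact peu_sum n
  have h := LSeriesSummable_of_sum_norm_bigO (f := fun n => bb 0 n) (s := ((1 + α : ℝ) : ℂ)) hO
    zero_le_one (by simp; exact hα)
  have h2 := h.norm
  refine h2.congr (fun n => ?_)
  rcases Nat.eq_zero_or_pos n with rfl | hn
  · simp [bb_zero]
  · rw [LSeries.norm_term_eq, if_neg hn.ne', peu_norm_bb0, Complex.ofReal_re,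
      Real.rpow_neg (Nat.cast_nonneg n), div_eq_mul_inv]

/-- the local series -/
theorem peu_local {x : ℝ} (hx0 : 0 ≤ x) (hx : x ≤ 1 / 5) {c : ℕ → ℝ} (h0 : c 0 = 1) (hc : ∀ j, |c j| ≤ 2) :
    |∑' j : ℕ, c j * x ^ j - (1 + c 1 * x)| ≤ 5 / 2 * x ^ 2 := by
  have hx1 : x < 1 := by linarith
  have hg : Summable (fun j : ℕ => 2 * x ^ j) := (summable_geometric_of_lt_one hx0 hx1).mul_left 2
  have hb : ∀ j : ℕ, ‖c j * x ^ j‖ ≤ 2 * x ^ j := fun j => by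
    rw [norm_mul, Real.norm_eq_abs, Real.norm_of_nonneg (pow_nonneg hx0 j)]
    exact mul_le_mul_of_nonneg_right (hc j) (pow_nonneg hx0 j)
  have hs : Summable (fun j : ℕ => c j * x ^ j) := Summable.of_norm_bounded hg hb
  have h1 := hs.sum_add_tsum_nat_add 2
  have h2 : ∑' j : ℕ, c j * x ^ j - (1 + c 1 * x) = ∑' j : ℕ, c (j + 2) * x ^ (j + 2) := by
    rw [← h1, Finset.sum_range_succ, Finset.sum_range_one, h0]
    ring
  rw [h2]
  have hs2 : Summable (fun j : ℕ => 2 * x ^ 2 * x ^ j) :=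
    (summable_geometric_of_lt_one hx0 hx1).mul_left (2 * x ^ 2)
  have h3 : ‖∑' j : ℕ, c (j + 2) * x ^ (j + 2)‖ ≤ ∑' j : ℕ, 2 * x ^ 2 * x ^ j := by
    refine tsum_of_norm_bounded hs2.hasSum (fun j => ?_)
    refine (hb (j + 2)).trans (le_of_eq ?_)
    ring
  rw [tsum_mul_left, tsum_geometric_of_lt_one hx0 hx1] at h3
  rw [Real.norm_eq_abs] at h3
  refine h3.trans ?_
  have h4 : (1 - x)⁻¹ ≤ 5 / 4 := by
    rw [inv_le_comm₀ (by linarith) (by norm_num)]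
    linarith
  nlinarith [sq_nonneg x, mul_nonneg (sq_nonneg x) (sub_nonneg.2 h4)]

theorem peu_log1 {y : ℝ} (hy : -(1 / 2) ≤ y) : y - 2 * y ^ 2 ≤ Real.log (1 + y) := by
  have h1 : (0 : ℝ) < 1 + y := by linarith
  have h := Real.one_sub_inv_le_log_of_pos h1
  refine le_trans ?_ h
  have h2 : (1 + y)⁻¹ ≤ 1 - y + 2 * y ^ 2 := by
    rw [inv_eq_one_div, div_le_iff₀ h1]
    nlinarith [sq_nonneg y, mul_nonneg (sq_nonneg y) (by linarith : (0 : ℝ) ≤ 1 + 2 * y)]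
  linarith

/-- a local factor -/
theorem peu_log {x L y : ℝ} (hx0 : 0 ≤ x) (hx : x ≤ 1 / 5) (hL : |L| ≤ 2)
    (h : |y - (1 + L * x)| ≤ 5 / 2 * x ^ 2) : 0 < y ∧ L * x - 15 * x ^ 2 ≤ Real.log y := by
  have hx2 : x ^ 2 ≤ x / 5 := by nlinarith
  rw [abs_le] at hL h
  have h1 : -(5 / 2 * x) ≤ y - 1 := by nlinarith
  have h2 : y - 1 ≤ 5 / 2 * x := by nlinarith
  have h3 : (y - 1) ^ 2 ≤ 25 / 4 * x ^ 2 := by
    have : |y - 1| ≤ 5 / 2 * x := abs_le.2 ⟨h1, h2⟩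
    have h4 := pow_le_pow_left₀ (abs_nonneg _) this 2
    rw [sq_abs] at h4
    linarith [h4, show (5 / 2 * x) ^ 2 = 25 / 4 * x ^ 2 by ring]
  refine ⟨by linarith, ?_⟩
  have h5 := peu_log1 (y := y - 1) (by linarith)
  rw [show 1 + (y - 1) = y by ring] at h5
  linarith

/-- the numerical inequality between the local factors -/
theorem peu_num {x t A B D : ℝ} (hx0 : 0 ≤ x) (hx : x ≤ 1 / 5) (ht : |t| ≤ 1)
    (hA : |A - (1 + |2 * t| * x)| ≤ 5 / 2 * x ^ 2)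
    (hB : |B - (1 + 2 * x)| ≤ 5 / 2 * x ^ 2)
    (hD : |D - (1 + 2 * (2 * t ^ 2 - 1) * x)| ≤ 5 / 2 * x ^ 2) :
    0 < A ∧ 0 < B ∧ 0 < D ∧ A ≤ Real.exp (18 * x ^ 2) * B ^ (3 / 4 : ℝ) * D ^ (1 / 4 : ℝ) := by
  have h2t : |2 * t| = 2 * |t| := by rw [abs_mul, abs_two]
  have htt : t ^ 2 ≤ 1 := by
    rw [← sq_abs]
    nlinarith [abs_nonneg t]
  rw [h2t] at hA
  have h2 : |(2 : ℝ) * (|t|)| ≤ 2 := by
    rw [abs_of_nonneg (by positivity)]
    linarith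
  obtain ⟨hA0, -⟩ := peu_log hx0 hx h2 hA
  obtain ⟨hB0, hlB⟩ := peu_log hx0 hx (le_of_eq abs_two) hB
  obtain ⟨hD0, hlD⟩ := peu_log hx0 hx (L := 2 * (2 * t ^ 2 - 1))
    (by rw [abs_le]; constructor <;> nlinarith [sq_nonneg t]) hD
  refine ⟨hA0, hB0, hD0, ?_⟩
  have hlA : Real.log A ≤ 2 * |t| * x + 5 / 2 * x ^ 2 := by
    refine (Real.log_le_sub_one_of_pos hA0).trans ?_
    rw [abs_le] at hA
    linarith [hA.2]
  have hexp : A ≤ Real.exp (18 * x ^ 2 + 3 / 4 * Real.log B + 1 / 4 * Real.log D) := by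
    rw [← Real.log_le_iff_le_exp hA0]
    have h3 : 2 * |t| ≤ 1 + t ^ 2 := by
      have := sq_nonneg (1 - |t|)
      rw [sub_sq, sq_abs] at this
      linarith
    have h4 := mul_le_mul_of_nonneg_right h3 hx0
    nlinarith [sq_nonneg x]
  refine hexp.trans (le_of_eq ?_)
  rw [Real.exp_add, Real.exp_add, Real.rpow_def_of_pos hB0, Real.rpow_def_of_pos hD0,
    mul_comm (3 / 4 : ℝ), mul_comm (1 / 4 : ℝ)]

/-- Euler product of a multiplicative function bounded by `b_0` -/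
theorem peu_euler {h : ℕ → ℝ} (h0 : h 0 = 0) (h1 : h 1 = 1)
    (hm : ∀ {m n : ℕ}, Nat.Coprime m n → h (m * n) = h m * h n)
    (hb : ∀ n, |h n| ≤ (bb 0 n).re) {α : ℝ} (hα : 0 < α) :
    HasProd (fun p : Nat.Primes => ∑' e : ℕ, h ((p : ℕ) ^ e) * (((p : ℕ) : ℝ) ^ (-(1 + α))) ^ e)
      (∑' n : ℕ, h n * (n : ℝ) ^ (-(1 + α))) := by
  have key := EulerProduct.eulerProduct_hasProd (f := fun n : ℕ => h n * (n : ℝ) ^ (-(1 + α)))
    (by simp [h1])
    (by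
      intro m n hmn
      rw [hm hmn, Nat.cast_mul, Real.mul_rpow (Nat.cast_nonneg m) (Nat.cast_nonneg n)]
      ring)
    (by
      refine Summable.of_nonneg_of_le (fun _ => norm_nonneg _) (fun n => ?_) (peu_summable hα)
      rw [norm_mul, Real.norm_eq_abs,
        Real.norm_of_nonneg (Real.rpow_nonneg (Nat.cast_nonneg n) _)]
      exact mul_le_mul_of_nonneg_right (hb n) (Real.rpow_nonneg (Nat.cast_nonneg n) _))
    (by simp [h0])
  have e : (fun p : Nat.Primes => ∑' e : ℕ, h ((p : ℕ) ^ e) * (((p : ℕ) : ℝ) ^ (-(1 + α))) ^ e) =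
      fun p : Nat.Primes => ∑' e : ℕ, h ((p : ℕ) ^ e) * (((p : ℕ) ^ e : ℕ) : ℝ) ^ (-(1 + α)) := by
    funext p
    refine tsum_congr (fun e => ?_)
    rw [Nat.cast_pow, Real.rpow_pow_comm (Nat.cast_nonneg _)]
  rw [e]
  exact key

theorem peu_uu_re {q : GI} (hq : PP q) (m : ℤ) : uu q ^ m + uu q ^ (-m) = ((2 * (uu q ^ m).re : ℝ) : ℂ) := by
  have hz : q ≠ 0 := Od_ne hq.1
  rw [zpow_neg, ← inv_zpow, uu_inv hz, ← map_zpow₀, Complex.add_conj]

theorem peu_bb_re {q : GI} (hq : PP q) (κ : ℤ) {j : ℕ} (hj : 1 ≤ j) :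
    (bb κ (nm q ^ j)).re = 2 * (uu q ^ (κ * j)).re := by
  rw [bb_prime_pow κ hq hj, peu_uu_re hq, Complex.ofReal_re]

theorem peu_bb0_le {p : ℕ} (hp : p.Prime) (j : ℕ) : (bb 0 (p ^ j)).re ≤ 2 := by
  rcases Nat.eq_zero_or_pos j with rfl | hj
  · rw [pow_zero, bb_one]
    norm_num
  · by_cases h4 : p % 4 = 1
    · obtain ⟨q, hq, hn⟩ := PP_exists hp h4
      rw [← hn, peu_bb_re hq 0 hj]
      simp
    · rw [bb_prime_pow_zero 0 hp h4 hj]
      norm_num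

/-- the real part of `u^2` -/
theorem peu_double {u : ℂ} (hu : ‖u‖ = 1) : (u ^ 2).re = 2 * u.re ^ 2 - 1 := by
  have h1 : u.re ^ 2 + u.im ^ 2 = 1 := by
    have := Complex.sq_norm u
    rw [hu, Complex.normSq_apply] at this
    nlinarith
  rw [sq, Complex.mul_re]
  nlinarith

/-- comparison of the local factors -/
theorem peu_factor (k : ℤ) {α : ℝ} (hα : 0 < α) {p : ℕ} (hp : p.Prime) :
    0 < ∑' e : ℕ, ‖bb k (p ^ e)‖ * ((p : ℝ) ^ (-(1 + α))) ^ e ∧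
    0 < ∑' e : ℕ, (bb 0 (p ^ e)).re * ((p : ℝ) ^ (-(1 + α))) ^ e ∧
    0 < ∑' e : ℕ, (bb (2 * k) (p ^ e)).re * ((p : ℝ) ^ (-(1 + α))) ^ e ∧
    ∑' e : ℕ, ‖bb k (p ^ e)‖ * ((p : ℝ) ^ (-(1 + α))) ^ e ≤
      Real.exp (18 * ((p : ℝ) ^ 2)⁻¹) *
        (∑' e : ℕ, (bb 0 (p ^ e)).re * ((p : ℝ) ^ (-(1 + α))) ^ e) ^ (3 / 4 : ℝ) *
        (∑' e : ℕ, (bb (2 * k) (p ^ e)).re * ((p : ℝ) ^ (-(1 + α))) ^ e) ^ (1 / 4 : ℝ) := by
  by_cases h4 : p % 4 = 1
  · obtain ⟨q, hq, hn⟩ := PP_exists hp h4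
    have h5 : (5 : ℝ) ≤ p := by
      rw [← hn]
      exact_mod_cast PP_three_le hq
    set x : ℝ := (p : ℝ) ^ (-(1 + α)) with hxd
    have hx0 : 0 ≤ x := Real.rpow_nonneg (Nat.cast_nonneg p) _
    have hxp : x ≤ (p : ℝ)⁻¹ := by
      rw [hxd, ← Real.rpow_neg_one]
      exact Real.rpow_le_rpow_of_exponent_le (by linarith) (by linarith)
    have hx : x ≤ 1 / 5 := by
      refine hxp.trans ?_
      rw [inv_eq_one_div]
      exact one_div_le_one_div_of_le (by norm_num) h5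
    have hz : q ≠ 0 := Od_ne hq.1
    have hnu : ‖uu q ^ k‖ = 1 := norm_uu_zpow hz k
    have ht : |(uu q ^ k).re| ≤ 1 := (Complex.abs_re_le_norm _).trans hnu.le
    have hA := peu_local hx0 hx (c := fun e => ‖bb k (p ^ e)‖) (by simp [bb_one])
      (fun j => by
        rw [abs_of_nonneg (norm_nonneg _)]
        exact (norm_bb_le _ _).trans (peu_bb0_le hp j))
    have hB := peu_local hx0 hx (c := fun e => (bb 0 (p ^ e)).re) (by simp [bb_one])
      (fun j => by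
        rw [abs_of_nonneg (peu_bb0_nonneg _)]
        exact peu_bb0_le hp j)
    have hD := peu_local hx0 hx (c := fun e => (bb (2 * k) (p ^ e)).re) (by simp [bb_one])
      (fun j => (Complex.abs_re_le_norm _).trans ((norm_bb_le _ _).trans (peu_bb0_le hp j)))
    have e1 : ‖bb k (p ^ 1)‖ = |2 * (uu q ^ k).re| := by
      have := peu_bb_re hq k (le_refl 1)
      rw [hn, Nat.cast_one, mul_one] at this
      rw [peu_bb_ofReal, Complex.norm_real, Real.norm_eq_abs, this]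
    have e2 : (bb 0 (p ^ 1)).re = 2 := by
      have := peu_bb_re hq 0 (le_refl 1)
      rw [hn, zero_mul, zpow_zero] at this
      rw [this]
      norm_num
    have e3 : (bb (2 * k) (p ^ 1)).re = 2 * (2 * (uu q ^ k).re ^ 2 - 1) := by
      have := peu_bb_re hq (2 * k) (le_refl 1)
      rw [hn, Nat.cast_one, mul_one] at this
      rw [this, ← peu_double hnu, ← zpow_natCast, ← zpow_mul, mul_comm (2 : ℤ)]
      norm_num
    simp only [e1] at hA
    simp only [e2] at hB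
    simp only [e3] at hD
    obtain ⟨q1, q2, q3, q4⟩ := peu_num hx0 hx ht hA hB hD
    refine ⟨q1, q2, q3, q4.trans ?_⟩
    refine mul_le_mul_of_nonneg_right (mul_le_mul_of_nonneg_right (Real.exp_le_exp.2 ?_)
      (Real.rpow_nonneg q2.le _)) (Real.rpow_nonneg q3.le _)
    rw [← inv_pow]
    exact mul_le_mul_of_nonneg_left (pow_le_pow_left₀ hx0 hxp 2) (by norm_num)
  · have hz : ∀ (κ : ℤ) (e : ℕ), e ≠ 0 → bb κ (p ^ e) = 0 := fun κ e he =>
      bb_prime_pow_zero κ hp h4 (Nat.one_le_iff_ne_zero.2 he)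
    have a1 : ∑' e : ℕ, ‖bb k (p ^ e)‖ * ((p : ℝ) ^ (-(1 + α))) ^ e = 1 := by
      rw [tsum_eq_single 0 (fun e he => by rw [hz k e he]; simp)]
      simp [bb_one]
    have a2 : ∀ κ : ℤ, ∑' e : ℕ, (bb κ (p ^ e)).re * ((p : ℝ) ^ (-(1 + α))) ^ e = 1 := by
      intro κ
      rw [tsum_eq_single 0 (fun e he => by rw [hz κ e he]; simp)]
      simp [bb_one]
    rw [a1, a2, a2]
    refine ⟨one_pos, one_pos, one_pos, ?_⟩
    rw [Real.one_rpow, Real.one_rpow, mul_one, mul_one]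
    exact Real.one_le_exp (by positivity)

theorem euler_cmp : ∃ C : ℝ, 0 < C ∧ ∀ (k : ℤ) (α : ℝ), 0 < α → α ≤ 1 →
    0 < ∑' n : ℕ, (bb (2 * k) n).re * (n : ℝ) ^ (-(1 + α)) ∧
    ∑' n : ℕ, ‖bb k n‖ * (n : ℝ) ^ (-(1 + α)) ≤
      C * (∑' n : ℕ, (bb 0 n).re * (n : ℝ) ^ (-(1 + α))) ^ (3 / 4 : ℝ) *
        (∑' n : ℕ, (bb (2 * k) n).re * (n : ℝ) ^ (-(1 + α))) ^ (1 / 4 : ℝ) := by
  have hZ : Summable (fun p : Nat.Primes => (((p : ℕ) : ℝ) ^ 2)⁻¹) :=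
    (Real.summable_nat_pow_inv.2 (by norm_num : 1 < 2)).comp_injective Nat.Primes.coe_nat_injective
  refine ⟨Real.exp (18 * ∑' p : Nat.Primes, (((p : ℕ) : ℝ) ^ 2)⁻¹), Real.exp_pos _, ?_⟩
  intro k α hα _
  have hre : ∀ (κ : ℤ) {m n : ℕ}, Nat.Coprime m n → (bb κ (m * n)).re = (bb κ m).re * (bb κ n).re := by
    intro κ m n hmn
    rw [bb_mul κ hmn, Complex.mul_re, bb_im, zero_mul, sub_zero]
  have PA := peu_euler (h := fun n => ‖bb k n‖) (by simp [bb_zero]) (by simp [bb_one])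
    (fun hmn => by rw [bb_mul k hmn, norm_mul])
    (fun n => by rw [abs_of_nonneg (norm_nonneg _)]; exact norm_bb_le k n) hα
  have PB := peu_euler (h := fun n => (bb 0 n).re) (by simp [bb_zero]) (by simp [bb_one])
    (fun hmn => hre 0 hmn) (fun n => by rw [abs_of_nonneg (peu_bb0_nonneg n)]) hα
  have PD := peu_euler (h := fun n => (bb (2 * k) n).re) (by simp [bb_zero]) (by simp [bb_one])
    (fun hmn => hre (2 * k) hmn)
    (fun n => (Complex.abs_re_le_norm _).trans (norm_bb_le _ n)) hα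
  have main : ∑' n : ℕ, ‖bb k n‖ * (n : ℝ) ^ (-(1 + α)) ≤
      Real.exp (18 * ∑' p : Nat.Primes, (((p : ℕ) : ℝ) ^ 2)⁻¹) *
        (∑' n : ℕ, (bb 0 n).re * (n : ℝ) ^ (-(1 + α))) ^ (3 / 4 : ℝ) *
        (∑' n : ℕ, (bb (2 * k) n).re * (n : ℝ) ^ (-(1 + α))) ^ (1 / 4 : ℝ) := by
    refine le_of_tendsto_of_tendsto PA
      (((PB.rpow_const (Or.inr (by norm_num))).const_mul _).mul
        (PD.rpow_const (Or.inr (by norm_num)))) (Filter.Eventually.of_forall (fun S => ?_))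
    refine (Finset.prod_le_prod (fun p _ => (peu_factor k hα p.2).1.le)
      (fun p _ => (peu_factor k hα p.2).2.2.2)).trans ?_
    rw [Finset.prod_mul_distrib, Finset.prod_mul_distrib, ← Real.exp_sum,
      Real.finsetProd_rpow _ _ (fun p _ => (peu_factor k hα p.2).2.1.le),
      Real.finsetProd_rpow _ _ (fun p _ => (peu_factor k hα p.2).2.2.1.le)]
    refine mul_le_mul_of_nonneg_right (mul_le_mul_of_nonneg_right (Real.exp_le_exp.2 ?_) ?_) ?_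
    · rw [← Finset.mul_sum]
      exact mul_le_mul_of_nonneg_left (hZ.sum_le_tsum _ (fun _ _ => by positivity)) (by norm_num)
    · exact Real.rpow_nonneg (Finset.prod_nonneg (fun p _ => (peu_factor k hα p.2).2.1.le)) _
    · exact Real.rpow_nonneg (Finset.prod_nonneg (fun p _ => (peu_factor k hα p.2).2.2.1.le)) _
  refine ⟨?_, main⟩
  have hD0 : 0 ≤ ∑' n : ℕ, (bb (2 * k) n).re * (n : ℝ) ^ (-(1 + α)) :=
    ge_of_tendsto PD (Filter.Eventually.of_forall (fun S =>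
      Finset.prod_nonneg (fun p _ => (peu_factor k hα p.2).2.2.1.le)))
  have hA1 : 1 ≤ ∑' n : ℕ, ‖bb k n‖ * (n : ℝ) ^ (-(1 + α)) := by
    have hs : Summable (fun n : ℕ => ‖bb k n‖ * (n : ℝ) ^ (-(1 + α))) := by
      refine Summable.of_nonneg_of_le
        (fun n => mul_nonneg (norm_nonneg _) (Real.rpow_nonneg (Nat.cast_nonneg n) _))
        (fun n => ?_) (peu_summable hα)
      exact mul_le_mul_of_nonneg_right (norm_bb_le k n) (Real.rpow_nonneg (Nat.cast_nonneg n) _)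
    have := hs.le_tsum 1
      (fun n _ => mul_nonneg (norm_nonneg _) (Real.rpow_nonneg (Nat.cast_nonneg n) _))
    simpa [bb_one] using this
  rcases hD0.lt_or_eq with h | h
  · exact h
  · exfalso
    rw [← h, Real.zero_rpow (by norm_num), mul_zero] at main
    linarith

end Pool.Agent.MRS
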