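import Pool.Agent.MRS.LCount
import Pool.Agent.MertensAP.Main
import Pool.Agent.H6.HR.Mertens

set_option autoImplicit false

/-! Module LFA: primes of `PP` in windows. -/

open Finset

namespace Pool.Agent.MRS

theorem mem_pset {A : ℝ} {j : ℕ} {p : GI} : p ∈ pset A j ↔
    PP p ∧ Real.exp (lp A j) < nm p ∧ (nm p : ℝ) ≤ Real.exp ((lp A j) ^ 2) := by
  classical
  unfold pset
  rw [Finset.mem_filter, mem_ann]
  constructor
  · rintro ⟨⟨_, h2, h3⟩, h4⟩
    exact ⟨h4, h2, h3⟩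
  · rintro ⟨h1, h2, h3⟩
    exact ⟨⟨h1.1, h2, h3⟩, h1⟩

/-- `log p / p` on the primes `1` modulo `4` -/
noncomputable def LFAmc (k : ℕ) : ℝ := if k.Prime ∧ k ≡ 1 [MOD 4] then Real.log k / k else 0

theorem LFA_sum_mc (x : ℝ) : ∑ k ∈ Finset.Icc 0 ⌊x⌋₊, LFAmc k =
    ∑ p ∈ (Icc 1 ⌊x⌋₊).filter (fun p : ℕ => p.Prime ∧ p ≡ 1 [MOD 4]), Real.log p / p := by
  unfold LFAmc
  rw [← Finset.sum_filter]
  apply Finset.sum_congr _ (fun _ _ => rfl)
  ext p
  simp only [mem_filter, mem_Icc]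
  constructor
  · rintro ⟨⟨_, h2⟩, h3, h4⟩
    exact ⟨⟨h3.pos, h2⟩, h3, h4⟩
  · rintro ⟨⟨h1, h2⟩, h3, h4⟩
    exact ⟨⟨by omega, h2⟩, h3, h4⟩

theorem LFA_mertens_lower : ∃ C : ℝ, 0 ≤ C ∧ ∀ a b : ℝ, 2 ≤ a → a ≤ b →
    1 / 2 * Real.log (Real.log b / Real.log a) - C / Real.log a ≤
      ∑ p ∈ (Ioc ⌊a⌋₊ ⌊b⌋₊).filter (fun p : ℕ => p.Prime ∧ p ≡ 1 [MOD 4]), (1:ℝ) / p := by
  obtain ⟨C, hC, hM0⟩ := Pool.Agent.MertensAP.mertens_ap_mod 4 (by norm_num)
  have htot : ((Nat.totient 4 : ℕ) : ℝ) = 2 := by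
    have : Nat.totient 4 = 2 := by decide
    rw [this]; norm_num
  have hM : ∀ x : ℝ, 1 ≤ x → |∑ k ∈ Finset.Icc 0 ⌊x⌋₊, LFAmc k - Real.log x / 2| ≤ C := by
    intro x hx
    have h := hM0 1 (by norm_num) x hx
    rw [htot, ← LFA_sum_mc] at h
    exact h
  refine ⟨2 * C, by linarith, ?_⟩
  intro a b ha hab
  have hloga : 0 < Real.log a := Real.log_pos (by linarith)
  have hlogb : 0 < Real.log b := Real.log_pos (by linarith)
  have hlog : ∀ t ∈ Set.Icc a b, 0 < Real.log t := fun t ht => Real.log_pos (by linarith [ht.1])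
  have hpos : ∀ t ∈ Set.Icc a b, 0 < t := fun t ht => by linarith [ht.1]
  have hderiv : ∀ t ∈ Set.Icc a b, HasDerivAt (fun t => (Real.log t)⁻¹) (-(t⁻¹) / (Real.log t)^2) t := by
    intro t ht
    exact (Real.hasDerivAt_log (hpos t ht).ne').inv (hlog t ht).ne'
  have hderiv' : ∀ t ∈ Set.Icc a b, deriv (fun t => (Real.log t)⁻¹) t = -(t⁻¹) / (Real.log t)^2 :=
    fun t ht => (hderiv t ht).deriv
  have hcont : ContinuousOn (fun t : ℝ => -(t⁻¹) / (Real.log t)^2) (Set.Icc a b) := by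
    apply ContinuousOn.div
    · apply ContinuousOn.neg
      apply ContinuousOn.inv₀ continuousOn_id
      intro t ht; exact (hpos t ht).ne'
    · apply ContinuousOn.pow
      apply Real.continuousOn_log.mono
      intro t ht
      simp only [Set.mem_compl_iff, Set.mem_singleton_iff]
      exact (hpos t ht).ne'
    · intro t ht
      have := hlog t ht
      positivity
  have hint : MeasureTheory.IntegrableOn (deriv (fun t => (Real.log t)⁻¹)) (Set.Icc a b) := by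
    apply (hcont.integrableOn_Icc).congr_fun _ measurableSet_Icc
    intro t ht
    exact (hderiv' t ht).symm
  have key := sum_mul_eq_sub_sub_integral_mul (𝕜 := ℝ) LFAmc (f := fun t => (Real.log t)⁻¹)
    (a := a) (b := b)
    (by linarith) hab (fun t ht => (hderiv t ht).differentiableAt) hint
  have hLHS : ∑ k ∈ Finset.Ioc ⌊a⌋₊ ⌊b⌋₊, (Real.log (k:ℝ))⁻¹ * LFAmc k
      = ∑ p ∈ (Ioc ⌊a⌋₊ ⌊b⌋₊).filter (fun p : ℕ => p.Prime ∧ p ≡ 1 [MOD 4]), (1:ℝ) / p := by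
    rw [Finset.sum_filter]
    apply Finset.sum_congr rfl
    intro k _
    unfold LFAmc
    split_ifs with h
    · have hk : 0 < Real.log k := Real.log_pos (by exact_mod_cast h.1.one_lt)
      have hk0 : (0:ℝ) < k := by exact_mod_cast h.1.pos
      field_simp
    · simp
  rw [hLHS] at key
  rw [key]
  -- bound the integral
  have hmE : ∀ t ∈ Set.Icc a b, Real.log t / 2 - C ≤ ∑ k ∈ Finset.Icc 0 ⌊t⌋₊, LFAmc k := by
    intro t ht
    have := (abs_le.mp (hM t (by linarith [ht.1]))).1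
    linarith
  have hint2 : MeasureTheory.IntegrableOn (fun t => deriv (fun t => (Real.log t)⁻¹) t *
      ∑ k ∈ Finset.Icc 0 ⌊t⌋₊, LFAmc k) (Set.Icc a b) :=
    integrableOn_mul_sum_Icc LFAmc (by linarith) hint
  have hint3 : ContinuousOn (fun t : ℝ => -(t⁻¹) / (Real.log t)^2 * (Real.log t / 2 - C))
      (Set.Icc a b) := by
    apply hcont.mul
    apply ContinuousOn.sub _ continuousOn_const
    apply ContinuousOn.div_const
    apply Real.continuousOn_log.mono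
    intro t ht
    simp only [Set.mem_compl_iff, Set.mem_singleton_iff]
    exact (hpos t ht).ne'
  have hI : ∫ t in Set.Ioc a b, deriv (fun t => (Real.log t)⁻¹) t * ∑ k ∈ Finset.Icc 0 ⌊t⌋₊, LFAmc k
      ≤ ∫ t in Set.Ioc a b, -(t⁻¹) / (Real.log t)^2 * (Real.log t / 2 - C) := by
    apply MeasureTheory.setIntegral_mono_on
    · exact hint2.mono_set Set.Ioc_subset_Icc_self
    · exact hint3.integrableOn_Icc.mono_set Set.Ioc_subset_Icc_self
    · exact measurableSet_Ioc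
    · intro t ht
      have ht' := Set.Ioc_subset_Icc_self ht
      rw [hderiv' t ht']
      have h1 := hmE t ht'
      have h2 : -(t⁻¹) / (Real.log t)^2 ≤ 0 := by
        apply div_nonpos_of_nonpos_of_nonneg
        · have := hpos t ht'
          simp only [Left.neg_nonpos_iff]
          positivity
        · positivity
      nlinarith
  have hI2 : ∫ t in Set.Ioc a b, -(t⁻¹) / (Real.log t)^2 * (Real.log t / 2 - C)
      = (-(1 / 2 * Real.log (Real.log b)) + (-C) * (Real.log b)⁻¹) -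
        (-(1 / 2 * Real.log (Real.log a)) + (-C) * (Real.log a)⁻¹) := by
    rw [← intervalIntegral.integral_of_le hab]
    apply intervalIntegral.integral_eq_sub_of_hasDerivAt
    · intro t ht
      rw [Set.uIcc_of_le hab] at ht
      have h0 := hpos t ht
      have h1 := hlog t ht
      have h2 : HasDerivAt (fun t => Real.log (Real.log t)) (t⁻¹ / Real.log t) t :=
        (Real.hasDerivAt_log h0.ne').log h1.ne'
      have h3 := (h2.const_mul (1 / 2)).neg.add ((hderiv t ht).const_mul (-C))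
      refine h3.congr_deriv ?_
      field_simp
      ring
    · apply ContinuousOn.intervalIntegrable
      rw [Set.uIcc_of_le hab]
      exact hint3
  have h1 := (abs_le.mp (hM b (by linarith))).1
  have h2 := (abs_le.mp (hM a (by linarith))).2
  set Eb := ∑ k ∈ Finset.Icc 0 ⌊b⌋₊, LFAmc k with hEb
  set Ea := ∑ k ∈ Finset.Icc 0 ⌊a⌋₊, LFAmc k with hEa
  have h3 : 1 / 2 - C * (Real.log b)⁻¹ ≤ (Real.log b)⁻¹ * Eb := by
    have : (Real.log b)⁻¹ * (Real.log b / 2 - C) ≤ (Real.log b)⁻¹ * Eb :=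
      mul_le_mul_of_nonneg_left (by linarith) (by positivity)
    have e : (Real.log b)⁻¹ * (Real.log b / 2 - C) = 1 / 2 - C * (Real.log b)⁻¹ := by
      field_simp
    linarith
  have h4 : (Real.log a)⁻¹ * Ea ≤ 1 / 2 + C * (Real.log a)⁻¹ := by
    have : (Real.log a)⁻¹ * Ea ≤ (Real.log a)⁻¹ * (Real.log a / 2 + C) :=
      mul_le_mul_of_nonneg_left (by linarith) (by positivity)
    have e : (Real.log a)⁻¹ * (Real.log a / 2 + C) = 1 / 2 + C * (Real.log a)⁻¹ := by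
      field_simp
    linarith
  rw [Real.log_div hlogb.ne' hloga.ne']
  have e2 : 2 * C / Real.log a = 2 * (C * (Real.log a)⁻¹) := by rw [div_eq_mul_inv]; ring
  rw [e2]
  linarith

/-- sums over `PP` in a window -/
theorem LFA_rs_eq (a b : ℝ) (ha : 0 ≤ a) (hab : a ≤ b) :
    open Classical in
    rs ((ann a b).filter PP) =
      ∑ p ∈ (Ioc ⌊a⌋₊ ⌊b⌋₊).filter (fun p : ℕ => p.Prime ∧ p ≡ 1 [MOD 4]), (1:ℝ) / p := by
  classical
  unfold rs
  apply Finset.sum_nbij nm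
  · intro p hp
    rw [Finset.mem_filter, mem_ann] at hp
    obtain ⟨⟨h1, h2, h3⟩, h4⟩ := hp
    rw [Finset.mem_filter, Finset.mem_Ioc]
    refine ⟨⟨(Nat.floor_lt ha).mpr h2, Nat.le_floor h3⟩, h4.2.2.2, ?_⟩
    have := Od_nm h1
    show nm p % 4 = 1 % 4
    omega
  · intro p hp q hq hpq
    have hp' := (Finset.mem_filter.mp (Finset.mem_coe.mp hp)).2
    have hq' := (Finset.mem_filter.mp (Finset.mem_coe.mp hq)).2
    exact PP_inj hp' hq' hpq
  · intro n hn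
    rw [Finset.mem_coe, Finset.mem_filter, Finset.mem_Ioc] at hn
    obtain ⟨⟨h1, h2⟩, h3, h4⟩ := hn
    have h4' : n % 4 = 1 := h4
    obtain ⟨q, hq, hqn⟩ := PP_exists h3 h4'
    refine ⟨q, ?_, hqn⟩
    rw [Finset.mem_coe, Finset.mem_filter, mem_ann]
    refine ⟨⟨hq.1, ?_, ?_⟩, hq⟩
    · rw [hqn]
      exact (Nat.floor_lt ha).mp h1
    · rw [hqn]
      exact (Nat.le_floor_iff (by linarith)).mp h2
  · intro p _
    rfl

theorem rs_window : ∃ C : ℝ, 0 < C ∧ ∀ a b : ℝ, 2 ≤ a → a ≤ b →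
    open Classical in
    1 / 2 * Real.log (Real.log b / Real.log a) - C ≤ rs ((ann a b).filter PP) := by
  classical
  obtain ⟨C, hC, h⟩ := LFA_mertens_lower
  have hl2 : 0 < Real.log 2 := Real.log_pos (by norm_num)
  refine ⟨C / Real.log 2 + 1, by positivity, fun a b ha hab => ?_⟩
  have h1 := h a b ha hab
  rw [LFA_rs_eq a b (by linarith) hab]
  have h2 : C / Real.log a ≤ C / Real.log 2 := by
    apply div_le_div_of_nonneg_left hC hl2
    exact Real.log_le_log (by norm_num) ha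
  linarith

theorem card_PP : ∃ C : ℝ, 0 < C ∧ ∀ z : ℝ, 2 ≤ z → ∀ S : Finset GI,
    (∀ p ∈ S, PP p ∧ (nm p : ℝ) ≤ z) → (S.card : ℝ) ≤ C * z / Real.log z := by
  classical
  obtain ⟨C, hC, h⟩ := Pool.Agent.H6.HR.pi_le
  refine ⟨C, hC, fun z hz S hS => ?_⟩
  have h1 : S.card ≤ Nat.primeCounting ⌊z⌋₊ := by
    have h2 : Nat.primeCounting ⌊z⌋₊ = ((Finset.range (⌊z⌋₊ + 1)).filter Nat.Prime).card := by
      rw [Nat.primeCounting, Nat.primeCounting', Nat.count_eq_card_filter_range]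
    rw [h2]
    apply Finset.card_le_card_of_injOn nm
    · intro p hp
      have hp' := hS p (Finset.mem_coe.mp hp)
      rw [Finset.mem_coe, Finset.mem_filter, Finset.mem_range, Nat.lt_add_one_iff]
      exact ⟨Nat.le_floor hp'.2, hp'.1.2.2.2⟩
    · intro p hp q hq hpq
      exact PP_inj (hS p (Finset.mem_coe.mp hp)).1 (hS q (Finset.mem_coe.mp hq)).1 hpq
  calc (S.card : ℝ) ≤ (Nat.primeCounting ⌊z⌋₊ : ℝ) := by exact_mod_cast h1
    _ ≤ C * z / Real.log z := h z hz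

theorem mem_pb {H : ℕ} (hH : 1 ≤ H) {P : Finset GI} (hP : ∀ p ∈ P, PP p) {v : ℕ} {p : GI}
    (h : p ∈ pb H P v) : p ∈ P ∧ Real.exp (v / H) ≤ nm p ∧ (nm p : ℝ) < Real.exp ((v + 1) / H) := by
  unfold pb at h
  rw [Finset.mem_filter] at h
  obtain ⟨hp, hv⟩ := h
  have hPP := hP p hp
  have h5 : (5 : ℝ) ≤ nm p := by exact_mod_cast PP_three_le hPP
  have hpos : (0 : ℝ) < nm p := by linarith
  have hH' : (0 : ℝ) < H := by exact_mod_cast hH
  have hlog : 0 ≤ Real.log (nm p : ℝ) := Real.log_nonneg (by linarith)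
  unfold bi at hv
  have h1 := Nat.floor_le (a := (H : ℝ) * Real.log (nm p : ℝ)) (by positivity)
  have h2 := Nat.lt_floor_add_one ((H : ℝ) * Real.log (nm p : ℝ))
  rw [hv] at h1 h2
  refine ⟨hp, ?_, ?_⟩
  · rw [← Real.le_log_iff_exp_le hpos, div_le_iff₀ hH']
    linarith
  · rw [← Real.log_lt_iff_lt_exp hpos, lt_div_iff₀ hH']
    linarith

theorem rs_pb_le {H : ℕ} (hH : 2 ≤ H) {P : Finset GI} (hP : ∀ p ∈ P, PP p) (v : ℕ) :
    rs (pb H P v) ≤ 1 := by
  classical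
  have hH1 : 1 ≤ H := by omega
  have hH2 : (2 : ℝ) ≤ H := by exact_mod_cast hH
  set M : ℝ := max (Real.exp (v / H)) 5 with hM
  have hM5 : 5 ≤ M := le_max_right _ _
  have hM0 : 0 < M := by linarith
  have hexp : Real.exp (1 / 2) < 1.65 := by
    have h1 : Real.exp (1 / 2) ^ 2 = Real.exp 1 := by
      rw [← Real.exp_nat_mul]; norm_num
    have h2 := Real.exp_one_lt_d9
    have h3 := Real.exp_pos (1 / 2)
    nlinarith
  have hmem : ∀ p ∈ pb H P v, M ≤ nm p ∧ (nm p : ℝ) < 1.65 * M := by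
    intro p hp
    obtain ⟨h1, h2, h3⟩ := mem_pb hH1 hP hp
    refine ⟨max_le h2 (by exact_mod_cast PP_three_le (hP p h1)), ?_⟩
    have h4 : Real.exp (((v : ℝ) + 1) / H) = Real.exp (v / H) * Real.exp (1 / H) := by
      rw [← Real.exp_add]; congr 1; ring
    have h5 : Real.exp (1 / (H : ℝ)) ≤ Real.exp (1 / 2) := by
      rw [Real.exp_le_exp]
      exact one_div_le_one_div_of_le (by norm_num) hH2
    rw [h4] at h3
    have h6 : Real.exp (v / H) ≤ M := le_max_left _ _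
    calc (nm p : ℝ) < Real.exp (v / H) * Real.exp (1 / H) := h3
      _ ≤ M * Real.exp (1 / 2) := by gcongr
      _ ≤ M * 1.65 := by gcongr
      _ = 1.65 * M := by ring
  have hcard : ((pb H P v).card : ℝ) ≤ 0.65 * M + 1 := by
    have h1 : (pb H P v).card ≤ (Finset.Ico ⌈M⌉₊ ⌈1.65 * M⌉₊).card := by
      apply Finset.card_le_card_of_injOn nm
      · intro p hp
        obtain ⟨h1, h2⟩ := hmem p (Finset.mem_coe.mp hp)
        rw [Finset.mem_coe, Finset.mem_Ico]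
        exact ⟨Nat.ceil_le.mpr h1, Nat.lt_ceil.mpr h2⟩
      · intro p hp q hq hpq
        exact PP_inj (hP p (mem_pb hH1 hP (Finset.mem_coe.mp hp)).1)
          (hP q (mem_pb hH1 hP (Finset.mem_coe.mp hq)).1) hpq
    rw [Nat.card_Ico] at h1
    have h2 : ⌈M⌉₊ ≤ ⌈1.65 * M⌉₊ := Nat.ceil_le_ceil (by linarith)
    have h3 : ((⌈1.65 * M⌉₊ - ⌈M⌉₊ : ℕ) : ℝ) = (⌈1.65 * M⌉₊ : ℝ) - ⌈M⌉₊ := by
      rw [Nat.cast_sub h2]
    have h4 := Nat.ceil_lt_add_one (a := 1.65 * M) (by positivity)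
    have h5 := Nat.le_ceil M
    calc ((pb H P v).card : ℝ) ≤ ((⌈1.65 * M⌉₊ - ⌈M⌉₊ : ℕ) : ℝ) := by exact_mod_cast h1
      _ = (⌈1.65 * M⌉₊ : ℝ) - ⌈M⌉₊ := h3
      _ ≤ 0.65 * M + 1 := by linarith
  unfold rs
  calc ∑ p ∈ pb H P v, (1 : ℝ) / nm p ≤ ∑ p ∈ pb H P v, 1 / M := by
        apply Finset.sum_le_sum
        intro p hp
        exact one_div_le_one_div_of_le hM0 (hmem p hp).1
    _ = ((pb H P v).card : ℝ) * (1 / M) := by rw [Finset.sum_const, nsmul_eq_mul]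
    _ ≤ (0.65 * M + 1) * (1 / M) := by gcongr
    _ = 0.65 + 1 / M := by field_simp
    _ ≤ 0.65 + 1 / 5 := by
        have : 1 / M ≤ 1 / 5 := one_div_le_one_div_of_le (by norm_num) hM5
        linarith
    _ ≤ 1 := by norm_num

theorem LFA_HH_pos {A : ℝ} (hA : 1 ≤ A) (j : ℕ) : 1 ≤ HH A j := by
  unfold HH
  have h1 : 1 ≤ ⌈A⌉₊ := Nat.one_le_ceil_iff.2 (by linarith)
  have h2 : 1 ≤ 2 ^ j := Nat.one_le_two_pow
  calc 1 = 1 * 1 := rfl
    _ ≤ ⌈A⌉₊ * 2 ^ j := Nat.mul_le_mul h1 h2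

theorem LFA_pow3 {A : ℝ} (hA : 1 ≤ A) {j : ℕ} (hj : 1 ≤ j) : 3 * A ≤ A * 3 ^ j := by
  have h1 : (3 : ℝ) ≤ 3 ^ j := by
    calc (3 : ℝ) = 3 ^ 1 := by norm_num
      _ ≤ 3 ^ j := pow_le_pow_right₀ (by norm_num) hj
  nlinarith

theorem LFA_lp_ge {A : ℝ} (hA : 1 ≤ A) {j : ℕ} (hj : 1 ≤ j) : 4 ≤ lp A j := by
  unfold lp
  have h1 := LFA_pow3 hA hj
  have h2 := Real.add_one_le_exp (A * 3 ^ j)
  linarith

theorem LFA_vs {A : ℝ} (hA : 1 ≤ A) {j : ℕ} {v : ℕ} (hv : v ∈ vs (HH A j) (pset A j)) :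
    lp A j - 1 ≤ (v : ℝ) / HH A j ∧ (v : ℝ) / HH A j ≤ (lp A j) ^ 2 ∧
      (v : ℝ) ≤ HH A j * (lp A j) ^ 2 := by
  unfold vs at hv
  rw [Finset.mem_image] at hv
  obtain ⟨p, hp, rfl⟩ := hv
  obtain ⟨hpp, h1, h2⟩ := mem_pset.mp hp
  have h5 : (5 : ℝ) ≤ nm p := by exact_mod_cast PP_three_le hpp
  have hp1 : (1 : ℝ) < nm p := by linarith
  have hp0 : (0 : ℝ) < nm p := by linarith
  have hH : (1 : ℝ) ≤ HH A j := by exact_mod_cast LFA_HH_pos hA j
  have hH0 : (0 : ℝ) < HH A j := by linarith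
  have hl1 : lp A j < Real.log (nm p) := (Real.lt_log_iff_exp_lt hp0).2 h1
  have hl2 : Real.log (nm p) ≤ (lp A j) ^ 2 := (Real.log_le_iff_le_exp hp0).2 h2
  have hlog : 0 ≤ (HH A j : ℝ) * Real.log (nm p) := mul_nonneg hH0.le (Real.log_nonneg hp1.le)
  have h3 := Nat.floor_le hlog
  have h4 := Nat.lt_floor_add_one ((HH A j : ℝ) * Real.log (nm p))
  have h6 : (HH A j : ℝ) * Real.log (nm p) ≤ HH A j * (lp A j) ^ 2 :=
    mul_le_mul_of_nonneg_left hl2 hH0.le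
  unfold bi
  refine ⟨?_, ?_, h3.trans h6⟩
  · rw [le_div_iff₀ hH0]
    nlinarith
  · rw [div_le_iff₀ hH0]
    linarith

theorem pset_facts : ∃ A0 : ℝ, 1 ≤ A0 ∧ ∀ A : ℝ, A0 ≤ A → ∀ j : ℕ, 1 ≤ j →
    A * 3 ^ j / 4 ≤ rs (pset A j) ∧
    ((vs (HH A j) (pset A j)).card : ℝ) ≤ (HH A j) * (lp A j) ^ 2 + 1 ∧
    (∀ v ∈ vs (HH A j) (pset A j),
      lp A j - 1 ≤ (v : ℝ) / HH A j ∧ (v : ℝ) / HH A j ≤ (lp A j) ^ 2) := by
  classical
  obtain ⟨C, hC, hM⟩ := rs_window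
  refine ⟨max 1 (2 * C), le_max_left _ _, ?_⟩
  intro A hA j hj
  have hA1 : 1 ≤ A := (le_max_left _ _).trans hA
  have hAC : 2 * C ≤ A := (le_max_right _ _).trans hA
  have hlp := LFA_lp_ge hA1 hj
  have hlp0 : 0 < lp A j := by linarith
  refine ⟨?_, ?_, ?_⟩
  · have hab : Real.exp (lp A j) ≤ Real.exp ((lp A j) ^ 2) := by
      rw [Real.exp_le_exp]
      nlinarith
    have h2 : 2 ≤ Real.exp (lp A j) := by
      have := Real.add_one_le_exp (lp A j)
      linarith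
    have h := hM _ _ h2 hab
    rw [Real.log_exp, Real.log_exp] at h
    have h3 : (lp A j) ^ 2 / lp A j = lp A j := by field_simp
    rw [h3] at h
    have h4 : Real.log (lp A j) = A * 3 ^ j := by rw [lp, Real.log_exp]
    rw [h4] at h
    have h5 : rs ((ann (Real.exp (lp A j)) (Real.exp ((lp A j) ^ 2))).filter PP) =
        rs (pset A j) := by
      unfold pset
      rfl
    have h7 := LFA_pow3 hA1 hj
    rw [← h5]
    linarith
  · have hsub : vs (HH A j) (pset A j) ⊆ range (⌊(HH A j : ℝ) * (lp A j) ^ 2⌋₊ + 1) := by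
      intro v hv
      rw [Finset.mem_range, Nat.lt_add_one_iff, Nat.le_floor_iff (by positivity)]
      exact (LFA_vs hA1 hv).2.2
    have h1 := Finset.card_le_card hsub
    rw [Finset.card_range] at h1
    have h2 : ((vs (HH A j) (pset A j)).card : ℝ) ≤ (⌊(HH A j : ℝ) * (lp A j) ^ 2⌋₊ : ℝ) + 1 := by
      exact_mod_cast h1
    have h3 := Nat.floor_le (a := (HH A j : ℝ) * (lp A j) ^ 2) (by positivity)
    linarith
  · intro v hv
    exact ⟨(LFA_vs hA1 hv).1, (LFA_vs hA1 hv).2.1⟩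

end Pool.Agent.MRS
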