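import Pool.Agent.MRS.Basic

set_option autoImplicit false

/-! Module SCH: duality.  `T = ∑_{k∈U} |D(k)|^2 = ∑_{p∈S} c_p ∑_{k∈U} conj(D(k)) u(p)^k`; Cauchy-Schwarz, `1_S ≤ ν`, expand, symmetry
of `|∑ ν u^m|` in `m`.  (Discrete version of `Pool/Agent/MR/ASchur.lean`.) -/

open Finset

namespace Pool.Agent.MRS

open scoped ComplexConjugate

theorem SCH_conj_zpow {z : GI} (hz : z ≠ 0) (k : ℤ) : conj (uu z ^ k) = uu z ^ (-k) := by
  rw [map_zpow₀, ← uu_inv hz, inv_zpow, zpow_neg]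

theorem SCH_mul_conj {z : GI} (hz : z ≠ 0) (k k' : ℤ) :
    uu z ^ k * conj (uu z ^ k') = uu z ^ (k - k') := by
  rw [SCH_conj_zpow hz, ← zpow_add₀ (uu_ne hz), sub_eq_add_neg]

/-- the kernel -/
noncomputable def SCH_K (W : Finset GI) (ν : GI → ℝ) (m : ℤ) : ℂ := ∑ z ∈ W, (ν z : ℂ) * uu z ^ m

theorem SCH_K_symm (W : Finset GI) (ν : GI → ℝ) (hW : ∀ z ∈ W, z ≠ 0) (m : ℤ) :
    ‖SCH_K W ν (-m)‖ = ‖SCH_K W ν m‖ := by
  have : SCH_K W ν (-m) = conj (SCH_K W ν m) := by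
    unfold SCH_K
    rw [map_sum]
    apply sum_congr rfl
    intro z hz
    rw [map_mul, Complex.conj_ofReal, SCH_conj_zpow (hW z hz)]
  rw [this, Complex.norm_conj]

theorem schur (S W : Finset GI) (c : GI → ℂ) (ν : GI → ℝ) (hν : ∀ z, 0 ≤ ν z) (hS : S ⊆ W)
    (h1 : ∀ p ∈ S, 1 ≤ ν p) (hW : ∀ z ∈ W, z ≠ 0) (U : Finset ℤ) (B : ℝ) (hB0 : 0 ≤ B)
    (hB : ∀ k ∈ U, ∑ k' ∈ U, ‖∑ z ∈ W, (ν z : ℂ) * uu z ^ (k' - k)‖ ≤ B) :
    ∑ k ∈ U, ‖sp S c k‖ ^ 2 ≤ (∑ p ∈ S, ‖c p‖ ^ 2) * B := by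
  set E : ℤ → ℂ := sp S c with hE
  set b : GI → ℂ := fun z => ∑ k ∈ U, conj (E k) * uu z ^ k with hb
  set I : ℝ := ∑ k ∈ U, ‖E k‖ ^ 2 with hI
  have hI0 : 0 ≤ I := sum_nonneg (fun k _ => by positivity)
  have hIb : (I : ℂ) = ∑ p ∈ S, c p * b p := by
    rw [hI, hb]
    push_cast
    have e1 : ∀ k ∈ U, ((‖E k‖ : ℂ)) ^ 2 = ∑ p ∈ S, c p * (conj (E k) * uu p ^ k) := by
      intro k _
      have e2 : ((‖E k‖ : ℂ)) ^ 2 = conj (E k) * E k := by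
        rw [Complex.conj_mul']
      rw [e2]
      conv_lhs => rw [hE]
      unfold sp
      rw [mul_sum]
      apply sum_congr rfl
      intro p _
      rw [hE]
      unfold sp
      ring
    rw [sum_congr rfl e1, sum_comm]
    apply sum_congr rfl
    intro p _
    rw [mul_sum]
  have hIle : I ≤ ∑ p ∈ S, ‖c p‖ * ‖b p‖ := by
    have h1 : ‖(I : ℂ)‖ = I := by rw [Complex.norm_real, Real.norm_of_nonneg hI0]
    rw [← h1, hIb]
    refine (norm_sum_le _ _).trans ?_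
    apply sum_le_sum
    intro p _
    rw [norm_mul]
  -- the quadratic form
  have hquad : ∑ z ∈ W, ν z * ‖b z‖ ^ 2 ≤ B * I := by
    have e1 : ((∑ z ∈ W, ν z * ‖b z‖ ^ 2 : ℝ) : ℂ) =
        ∑ k ∈ U, ∑ k' ∈ U, conj (E k) * E k' * SCH_K W ν (k - k') := by
      have e2 : ∀ k k', conj (E k) * E k' * SCH_K W ν (k - k') =
          ∑ z ∈ W, ((ν z : ℂ) * (conj (E k) * uu z ^ k)) * conj (conj (E k') * uu z ^ k') := by
        intro k k'
        unfold SCH_K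
        rw [mul_sum]
        apply sum_congr rfl
        intro z hz
        rw [← SCH_mul_conj (hW z hz), map_mul, Complex.conj_conj]
        ring
      simp_rw [e2]
      have e3 : ∀ k, ∑ k' ∈ U, ∑ z ∈ W, ((ν z : ℂ) * (conj (E k) * uu z ^ k)) *
          conj (conj (E k') * uu z ^ k') =
          ∑ z ∈ W, ((ν z : ℂ) * (conj (E k) * uu z ^ k)) * conj (b z) := by
        intro k
        rw [sum_comm]
        apply sum_congr rfl
        intro z _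
        rw [← mul_sum, hb, map_sum]
      simp_rw [e3]
      rw [sum_comm]
      push_cast
      apply sum_congr rfl
      intro z _
      rw [← sum_mul, ← mul_sum, mul_assoc, Complex.mul_conj']
    have hsec : ∀ k ∈ U, ∑ k' ∈ U, ‖SCH_K W ν (k - k')‖ ≤ B := by
      intro k hk
      refine le_trans (le_of_eq ?_) (hB k hk)
      apply sum_congr rfl
      intro k' _
      rw [← SCH_K_symm W ν hW, neg_sub]
      rfl
    have hA1 : ∑ k ∈ U, ∑ k' ∈ U, ‖E k‖ ^ 2 * ‖SCH_K W ν (k - k')‖ ≤ B * I := by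
      rw [hI, mul_sum]
      apply sum_le_sum
      intro k hk
      rw [← mul_sum, mul_comm B]
      exact mul_le_mul_of_nonneg_left (hsec k hk) (by positivity)
    have hA2 : ∑ k ∈ U, ∑ k' ∈ U, ‖E k'‖ ^ 2 * ‖SCH_K W ν (k - k')‖ ≤ B * I := by
      rw [sum_comm]
      refine le_trans (le_of_eq ?_) hA1
      apply sum_congr rfl
      intro k _
      apply sum_congr rfl
      intro k' _
      rw [← SCH_K_symm W ν hW, neg_sub]
    have hnn : 0 ≤ ∑ z ∈ W, ν z * ‖b z‖ ^ 2 :=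
      sum_nonneg (fun n _ => mul_nonneg (hν n) (by positivity))
    have hnorm : ∑ z ∈ W, ν z * ‖b z‖ ^ 2 = ‖((∑ z ∈ W, ν z * ‖b z‖ ^ 2 : ℝ) : ℂ)‖ := by
      rw [Complex.norm_real, Real.norm_of_nonneg hnn]
    rw [hnorm, e1]
    calc ‖∑ k ∈ U, ∑ k' ∈ U, conj (E k) * E k' * SCH_K W ν (k - k')‖
        ≤ ∑ k ∈ U, ∑ k' ∈ U, ‖conj (E k) * E k' * SCH_K W ν (k - k')‖ := by
          refine (norm_sum_le _ _).trans ?_
          apply sum_le_sum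
          intro k _
          exact norm_sum_le _ _
      _ ≤ ∑ k ∈ U, ∑ k' ∈ U, ((1 / 2 : ℝ) * (‖E k‖ ^ 2 * ‖SCH_K W ν (k - k')‖) +
            (1 / 2 : ℝ) * (‖E k'‖ ^ 2 * ‖SCH_K W ν (k - k')‖)) := by
          apply sum_le_sum
          intro k _
          apply sum_le_sum
          intro k' _
          rw [norm_mul, norm_mul, Complex.norm_conj]
          have h1 : ‖E k‖ * ‖E k'‖ ≤ 1 / 2 * ‖E k‖ ^ 2 + 1 / 2 * ‖E k'‖ ^ 2 := by
            nlinarith [sq_nonneg (‖E k‖ - ‖E k'‖)]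
          have h2 := norm_nonneg (SCH_K W ν (k - k'))
          nlinarith [mul_le_mul_of_nonneg_right h1 h2]
      _ = (1 / 2 : ℝ) * ∑ k ∈ U, ∑ k' ∈ U, ‖E k‖ ^ 2 * ‖SCH_K W ν (k - k')‖ +
            (1 / 2 : ℝ) * ∑ k ∈ U, ∑ k' ∈ U, ‖E k'‖ ^ 2 * ‖SCH_K W ν (k - k')‖ := by
          simp only [sum_add_distrib, ← mul_sum]
      _ ≤ B * I := by linarith
  -- conclusion
  have hbS : ∑ p ∈ S, ‖b p‖ ^ 2 ≤ B * I := by
    refine le_trans ?_ hquad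
    have h2 : ∑ p ∈ S, ‖b p‖ ^ 2 ≤ ∑ p ∈ S, ν p * ‖b p‖ ^ 2 := by
      apply sum_le_sum
      intro p hp
      have := h1 p hp
      have h2 : 0 ≤ ‖b p‖ ^ 2 := by positivity
      nlinarith
    refine h2.trans ?_
    apply sum_le_sum_of_subset_of_nonneg hS
    intro n _ _
    exact mul_nonneg (hν n) (by positivity)
  have hCS := Finset.sum_mul_sq_le_sq_mul_sq S (fun p => ‖c p‖) (fun p => ‖b p‖)
  have hC0 : 0 ≤ ∑ p ∈ S, ‖c p‖ ^ 2 := sum_nonneg (fun p _ => by positivity)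
  have hI2 : I ^ 2 ≤ (∑ p ∈ S, ‖c p‖ ^ 2) * (B * I) := by
    calc I ^ 2 ≤ (∑ p ∈ S, ‖c p‖ * ‖b p‖) ^ 2 := by gcongr
      _ ≤ (∑ p ∈ S, ‖c p‖ ^ 2) * (∑ p ∈ S, ‖b p‖ ^ 2) := hCS
      _ ≤ _ := by gcongr
  change I ≤ _
  rcases eq_or_lt_of_le hI0 with h | h
  · rw [← h]; positivity
  · have h3 : I * I ≤ ((∑ p ∈ S, ‖c p‖ ^ 2) * B) * I := by nlinarith
    exact le_of_mul_le_mul_right h3 h

end Pool.Agent.MRS
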