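import Pool.Agent.MRS.Major
import Pool.Agent.MRS.Schur
import Pool.Agent.MRS.LevFacts

set_option autoImplicit false

/-! Module LAR (large_values): port of `MR/ALarge.lean`: `schur` with `W = ann 0 (3Z)`, `majorant (C+1)`, `card_PP`. -/

open Finset

namespace Pool.Agent.MRS

theorem large_values (C : ℝ) (hC : 0 ≤ C) : ∃ δ K Z0 : ℝ, 0 < δ ∧ 0 < K ∧ 2 ≤ Z0 ∧ ∀ Z : ℝ, Z0 ≤ Z →
    ∀ S : Finset GI, (∀ p ∈ S, PP p ∧ Z ≤ nm p ∧ (nm p : ℝ) ≤ 3 * Z) → ∀ c : GI → ℂ,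
    (∀ z, ‖c z‖ ≤ 1) → ∀ U : Finset ℤ, (∀ k ∈ U, |(k : ℝ)| ≤ Z ^ C) → (U.card : ℝ) ≤ Z ^ δ →
    ∑ k ∈ U, ‖sp S c k‖ ^ 2 ≤ K * (Z / Real.log Z) ^ 2 := by
  classical
  obtain ⟨δ', K1, Z1, hδ', hK1, hZ1, hmaj⟩ := majorant (C + 1) (by linarith)
  obtain ⟨C2, hC2, hpi⟩ := card_PP
  have hlog : ∀ᶠ Z : ℝ in Filter.atTop, Real.log Z ≤ Z ^ (δ' / 2) := by
    have := (isLittleO_log_rpow_atTop (by positivity : 0 < δ' / 2)).bound (one_pos)
    filter_upwards [this, Filter.eventually_ge_atTop 1] with Z hZ hZ1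
    have hZpos : 0 < Z := by linarith
    rw [Real.norm_eq_abs, Real.norm_eq_abs, one_mul, abs_of_nonneg (Real.log_nonneg hZ1),
      abs_of_nonneg (by positivity)] at hZ
    exact hZ
  have hev : ∀ᶠ Z : ℝ in Filter.atTop, 3 ≤ Z ∧ Z1 ≤ Z ∧ Real.log Z ≤ Z ^ (δ' / 2) :=
    (Filter.eventually_ge_atTop 3).and ((Filter.eventually_ge_atTop Z1).and hlog)
  obtain ⟨Z2, hZ2⟩ := Filter.eventually_atTop.1 hev
  refine ⟨δ' / 2, 3 * C2 * (K1 + 1), max Z2 2, by positivity, by positivity,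
    le_max_right _ _, ?_⟩
  intro Z hZ S hS c hc U hUC hUcard
  obtain ⟨hZ3, hZZ1, hlogZ⟩ := hZ2 Z ((le_max_left _ _).trans hZ)
  have hZpos : 0 < Z := by linarith
  have hlpos : 0 < Real.log Z := Real.log_pos (by linarith)
  obtain ⟨ν, hν0, hν1, hνsum, hνF⟩ := hmaj Z hZZ1
  set B : ℝ := (K1 + 1) * (Z / Real.log Z) with hB
  have hB0 : 0 ≤ B := by positivity
  have hmain : ∀ k ∈ U, ∑ k' ∈ U, ‖∑ z ∈ ann 0 (3 * Z), (ν z : ℂ) * uu z ^ (k' - k)‖ ≤ B := by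
    intro k hk
    have hdiag : ‖∑ z ∈ ann 0 (3 * Z), (ν z : ℂ) * uu z ^ (k - k)‖ ≤ K1 * Z / Real.log Z := by
      refine (norm_sum_le _ _).trans (le_trans (Finset.sum_le_sum ?_) hνsum)
      intro z _
      rw [sub_self, zpow_zero, mul_one, Complex.norm_real, Real.norm_of_nonneg (hν0 z)]
    have hoff : ∀ k' ∈ U.erase k,
        ‖∑ z ∈ ann 0 (3 * Z), (ν z : ℂ) * uu z ^ (k' - k)‖ ≤ Z ^ (1 - δ') := by
      intro k' hk'
      rw [Finset.mem_erase] at hk'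
      apply hνF (k' - k) (sub_ne_zero.mpr hk'.1)
      have h2 : |((k' - k : ℤ) : ℝ)| ≤ |(k' : ℝ)| + |(k : ℝ)| := by
        push_cast
        exact abs_sub _ _
      have h3 := hUC k hk
      have h4 := hUC k' hk'.2
      have h5 : Z ^ (C + 1) = Z ^ C * Z := by
        rw [Real.rpow_add hZpos, Real.rpow_one]
      have h6 : 0 ≤ Z ^ C := by positivity
      rw [h5]
      nlinarith
    rw [← Finset.add_sum_erase U _ hk]
    have h3 : ∑ k' ∈ U.erase k, ‖∑ z ∈ ann 0 (3 * Z), (ν z : ℂ) * uu z ^ (k' - k)‖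
        ≤ Z / Real.log Z := by
      calc ∑ k' ∈ U.erase k, ‖∑ z ∈ ann 0 (3 * Z), (ν z : ℂ) * uu z ^ (k' - k)‖
          ≤ ∑ k' ∈ U.erase k, Z ^ (1 - δ') := Finset.sum_le_sum hoff
        _ = ((U.erase k).card : ℝ) * Z ^ (1 - δ') := by rw [Finset.sum_const, nsmul_eq_mul]
        _ ≤ Z ^ (δ' / 2) * Z ^ (1 - δ') := by
            apply mul_le_mul_of_nonneg_right _ (by positivity)
            refine le_trans ?_ hUcard
            exact_mod_cast Finset.card_le_card (Finset.erase_subset _ _)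
        _ = Z ^ (1 - δ' / 2) := by
            rw [← Real.rpow_add hZpos]; congr 1; ring
        _ = Z / Z ^ (δ' / 2) := by
            rw [Real.rpow_sub hZpos, Real.rpow_one]
        _ ≤ Z / Real.log Z := by gcongr
    have h4 : K1 * Z / Real.log Z = K1 * (Z / Real.log Z) := by ring
    rw [hB]
    linarith
  have hsub : S ⊆ ann 0 (3 * Z) := by
    intro p hp
    obtain ⟨h1, h2, h3⟩ := hS p hp
    rw [mem_ann]
    exact ⟨h1.1, by linarith, h3⟩
  have hsch := schur S (ann 0 (3 * Z)) c ν hν0 hsub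
    (fun p hp => hν1 p (hS p hp).1 (hS p hp).2.1)
    (fun z hz => Od_ne (mem_ann.mp hz).1) U B hB0 hmain
  refine hsch.trans ?_
  have hcard : (S.card : ℝ) ≤ 3 * C2 * (Z / Real.log Z) := by
    have h2 := hpi (3 * Z) (by linarith) S (fun p hp => ⟨(hS p hp).1, (hS p hp).2.2⟩)
    have h4 : C2 * (3 * Z) / Real.log (3 * Z) ≤ C2 * (3 * Z) / Real.log Z := by
      have : Real.log Z ≤ Real.log (3 * Z) := Real.log_le_log hZpos (by linarith)
      gcongr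
    have h5 : C2 * (3 * Z) / Real.log Z = 3 * C2 * (Z / Real.log Z) := by ring
    linarith
  have hsum : ∑ p ∈ S, ‖c p‖ ^ 2 ≤ S.card := by
    calc ∑ p ∈ S, ‖c p‖ ^ 2 ≤ ∑ p ∈ S, (1 : ℝ) := by
          apply Finset.sum_le_sum
          intro p _
          have h1 := hc p
          have h0 := norm_nonneg (c p)
          nlinarith
      _ = S.card := by simp
  calc (∑ p ∈ S, ‖c p‖ ^ 2) * B ≤ (3 * C2 * (Z / Real.log Z)) * B := by
        have := hsum.trans hcard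
        gcongr
    _ = 3 * C2 * (K1 + 1) * (Z / Real.log Z) ^ 2 := by
        rw [hB]; ring

end Pool.Agent.MRS
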