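import Mathlib

set_option autoImplicit false

/-! Module PHR: sums of non-negative multiplicative functions (Halberstam-Richert / Hall-Tenenbaum).
`∑_{n ≤ x} f(n) log n = ∑_m f(m) ∑_{p^a ≤ x/m, p ∤ m} f(p^a) log p^a ≤ C ∑_m f(m) x/m` (Chebyshev), and
`∑_{n ≤ x} f(n) log(x/n) ≤ ∑ f(n) x/n`. -/

open Finset

namespace Pool.Agent.MRS

open Chebyshev ArithmeticFunction in
theorem hr_pp : ∃ C : ℝ, 0 < C ∧ ∀ y : ℝ, 1 ≤ y →
    ∑ q ∈ (Icc 1 ⌊y⌋₊).filter IsPrimePow, Real.log q ≤ C * y := by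
  refine ⟨Real.log 4 + 32 / Real.log 2, by positivity, fun y hy => ?_⟩
  have hlog2 : 0 < Real.log 2 := Real.log_pos (by norm_num)
  have hlogy : 0 ≤ Real.log y := Real.log_nonneg hy
  have hy0 : 0 < y := by linarith
  -- termwise
  have hterm : ∀ q ∈ (Icc 1 ⌊y⌋₊).filter IsPrimePow, Real.log q ≤
      (if q.Prime then Real.log q else 0) +
        Real.log y / Real.log 2 * (if q.Prime then 0 else vonMangoldt q) := by
    intro q hq
    rw [mem_filter, mem_Icc] at hq
    obtain ⟨⟨h1, h2⟩, h3⟩ := hq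
    split_ifs with hp
    · simp
    · rw [isPrimePow_nat_iff] at h3
      obtain ⟨p, k, hp', hk, rfl⟩ := h3
      rw [vonMangoldt_apply_pow hk.ne', vonMangoldt_apply_prime hp']
      have hqy : ((p ^ k : ℕ) : ℝ) ≤ y := by
        calc ((p ^ k : ℕ) : ℝ) ≤ (⌊y⌋₊ : ℝ) := by exact_mod_cast h2
          _ ≤ y := Nat.floor_le hy0.le
      have hp2 : (2 : ℝ) ≤ p := by exact_mod_cast hp'.two_le
      have hlp : Real.log 2 ≤ Real.log p := Real.log_le_log (by norm_num) hp2
      have hkl : (k : ℝ) * Real.log 2 ≤ Real.log y := by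
        calc (k : ℝ) * Real.log 2 ≤ k * Real.log p := by gcongr
          _ = Real.log ((p ^ k : ℕ) : ℝ) := by push_cast; rw [Real.log_pow]
          _ ≤ Real.log y := Real.log_le_log (by exact_mod_cast h1) hqy
      rw [Nat.cast_pow, Real.log_pow, zero_add]
      apply mul_le_mul_of_nonneg_right _ (by linarith)
      rw [le_div_iff₀ hlog2]
      exact hkl
  refine (sum_le_sum hterm).trans ?_
  rw [sum_add_distrib, ← mul_sum]
  have h1 : ∑ q ∈ (Icc 1 ⌊y⌋₊).filter IsPrimePow, (if q.Prime then Real.log q else 0) ≤ θ y := by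
    rw [← sum_filter, theta]
    apply sum_le_sum_of_subset_of_nonneg
    · intro q hq
      simp only [mem_filter, mem_Icc, mem_Ioc] at hq ⊢
      exact ⟨⟨by omega, hq.1.1.2⟩, hq.2⟩
    · intro q hq _
      simp only [mem_filter, mem_Ioc] at hq
      exact Real.log_nonneg (by exact_mod_cast hq.1.1)
  have h2 : ∑ q ∈ (Icc 1 ⌊y⌋₊).filter IsPrimePow, (if q.Prime then 0 else vonMangoldt q) ≤
      ψ y - θ y := by
    rw [psi_sub_theta_eq_sum_not_prime]
    have e : ∀ q ∈ (Icc 1 ⌊y⌋₊).filter IsPrimePow, (if q.Prime then (0 : ℝ) else vonMangoldt q) =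
      (if ¬ q.Prime then vonMangoldt q else 0) := by
      intro q _
      split_ifs <;> simp_all
    rw [sum_congr rfl e, ← sum_filter]
    apply sum_le_sum_of_subset_of_nonneg
    · intro q hq
      simp only [mem_filter, mem_Icc, mem_Ioc] at hq ⊢
      exact ⟨⟨by omega, hq.1.1.2⟩, hq.2⟩
    · intro q hq _
      exact vonMangoldt_nonneg
  have h3 := psi_sub_theta_le hy
  have h4 := theta_le_log4_mul_x hy0.le
  have h5 : Real.log y ≤ y ^ ((1 : ℝ) / 4) / (1 / 4) := Real.log_le_rpow_div hy0.le (by norm_num)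
  have h6 : Real.log y ^ 2 ≤ 16 * √y := by
    have e1 : (y ^ ((1 : ℝ) / 4)) ^ 2 = √y := by
      rw [Real.sqrt_eq_rpow, ← Real.rpow_natCast, ← Real.rpow_mul hy0.le]
      norm_num
    calc Real.log y ^ 2 ≤ (y ^ ((1 : ℝ) / 4) / (1 / 4)) ^ 2 := pow_le_pow_left₀ hlogy h5 2
      _ = 16 * (y ^ ((1 : ℝ) / 4)) ^ 2 := by ring
      _ = 16 * √y := by rw [e1]
  have h7 : Real.log y / Real.log 2 * (2 * √y * Real.log y) ≤ 32 / Real.log 2 * y := by
    have e1 : Real.log y / Real.log 2 * (2 * √y * Real.log y) =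
      2 * √y / Real.log 2 * Real.log y ^ 2 := by ring
    rw [e1]
    calc 2 * √y / Real.log 2 * Real.log y ^ 2 ≤ 2 * √y / Real.log 2 * (16 * √y) := by gcongr
      _ = 32 / Real.log 2 * (√y * √y) := by ring
      _ = 32 / Real.log 2 * y := by rw [Real.mul_self_sqrt hy0.le]
  have h8 : Real.log y / Real.log 2 * ∑ q ∈ (Icc 1 ⌊y⌋₊).filter IsPrimePow,
      (if q.Prime then 0 else vonMangoldt q) ≤ Real.log y / Real.log 2 * (2 * √y * Real.log y) := by
    apply mul_le_mul_of_nonneg_left _ (by positivity)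
    linarith
  linarith

theorem hr_bound : ∃ C : ℝ, 0 < C ∧ ∀ f : ℕ → ℝ, (∀ n, 0 ≤ f n) → f 1 = 1 →
    (∀ m n : ℕ, Nat.Coprime m n → f (m * n) = f m * f n) →
    (∀ p a : ℕ, p.Prime → 1 ≤ a → f (p ^ a) ≤ 2) → ∀ x : ℝ, 2 ≤ x →
    ∑ n ∈ Icc 1 ⌊x⌋₊, f n ≤ C * (x / Real.log x) * ∑ n ∈ Icc 1 ⌊x⌋₊, f n / n := by
  obtain ⟨C, hC0, hC⟩ := hr_pp
  refine ⟨2 * C + 1, by positivity, ?_⟩
  intro f hf0 hf1 hfm hfp x hx
  have hx0 : 0 < x := by linarith
  have hlogx : 0 < Real.log x := Real.log_pos (by linarith)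
  obtain ⟨N, hN⟩ : ∃ N : ℕ, N = ⌊x⌋₊ := ⟨_, rfl⟩
  rw [← hN]
  have hNx : (N : ℝ) ≤ x := by rw [hN]; exact Nat.floor_le hx0.le
  -- the first sum
  have A : ∑ n ∈ Icc 1 N, f n * Real.log n ≤ 2 * C * x * ∑ n ∈ Icc 1 N, f n / n := by
    have step1 : ∀ n ∈ Icc 1 N, f n * Real.log n ≤
        ∑ p ∈ n.primeFactors, 2 * (f (n / p ^ n.factorization p) *
          Real.log ((p ^ n.factorization p : ℕ) : ℝ)) := by
      intro n hn
      rw [mem_Icc] at hn
      have hn0 : n ≠ 0 := by omega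
      rw [Real.log_nat_eq_sum_factorization, Finsupp.sum, mul_sum, Nat.support_factorization]
      apply sum_le_sum
      intro p hp
      have hpp := Nat.prime_of_mem_primeFactors hp
      have hpd := Nat.dvd_of_mem_primeFactors hp
      have hv : 1 ≤ n.factorization p := (hpp.dvd_iff_one_le_factorization hn0).mp hpd
      have hfac : f n = f (p ^ n.factorization p) * f (n / p ^ n.factorization p) := by
        conv_lhs => rw [← Nat.ordProj_mul_ordCompl_eq_self n p]
        exact hfm _ _ ((Nat.coprime_ordCompl hpp hn0).pow_left _)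
      have h2 := hfp p _ hpp hv
      have hlogp : 0 ≤ Real.log p := Real.log_nonneg (by exact_mod_cast hpp.one_lt.le)
      rw [Nat.cast_pow, Real.log_pow, hfac]
      have h3 : 0 ≤ f (n / p ^ n.factorization p) * (n.factorization p * Real.log p) := by
        have := hf0 (n / p ^ n.factorization p)
        positivity
      calc f (p ^ n.factorization p) * f (n / p ^ n.factorization p) *
            (n.factorization p * Real.log p)
          = f (p ^ n.factorization p) * (f (n / p ^ n.factorization p) *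
            (n.factorization p * Real.log p)) := by ring
        _ ≤ 2 * (f (n / p ^ n.factorization p) * (n.factorization p * Real.log p)) :=
            mul_le_mul_of_nonneg_right h2 h3
    refine (sum_le_sum step1).trans ?_
    rw [sum_sigma']
    have step2 : ∑ a ∈ (Icc 1 N).sigma (fun n => n.primeFactors),
        2 * (f (a.1 / a.2 ^ a.1.factorization a.2) *
          Real.log ((a.2 ^ a.1.factorization a.2 : ℕ) : ℝ)) ≤
        ∑ b ∈ (Icc 1 N).sigma (fun m => (Icc 1 (N / m)).filter IsPrimePow),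
          2 * (f b.1 * Real.log (b.2 : ℝ)) := by
      have hinj : Set.InjOn (fun a : (Σ _ : ℕ, ℕ) =>
          (⟨a.1 / a.2 ^ a.1.factorization a.2, a.2 ^ a.1.factorization a.2⟩ : (Σ _ : ℕ, ℕ)))
          ((Icc 1 N).sigma (fun n => n.primeFactors) : Set (Σ _ : ℕ, ℕ)) := by
        rintro ⟨n, p⟩ h1 ⟨n', p'⟩ h2 h
        simp only [coe_sigma, Set.mem_sigma_iff, mem_coe, mem_Icc] at h1 h2
        simp only [Sigma.mk.injEq, heq_eq_eq] at h
        obtain ⟨e1, e2⟩ := h
        have hp := Nat.prime_of_mem_primeFactors h1.2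
        have hp' := Nat.prime_of_mem_primeFactors h2.2
        have hv : 1 ≤ n.factorization p :=
          (hp.dvd_iff_one_le_factorization (by omega)).mp (Nat.dvd_of_mem_primeFactors h1.2)
        have hv' : 1 ≤ n'.factorization p' :=
          (hp'.dvd_iff_one_le_factorization (by omega)).mp (Nat.dvd_of_mem_primeFactors h2.2)
        have hpe : p = p' := by
          have : p ∣ p' ^ n'.factorization p' := by
            rw [← e2]; exact dvd_pow_self p (by omega)
          exact (Nat.prime_dvd_prime_iff_eq hp hp').mp (hp.dvd_of_dvd_pow this)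
        have hne : n = n' := by
          rw [← Nat.ordProj_mul_ordCompl_eq_self n p, ← Nat.ordProj_mul_ordCompl_eq_self n' p',
            e1, e2]
        subst hpe hne
        rfl
      rw [← sum_image (f := fun b : (Σ _ : ℕ, ℕ) => 2 * (f b.1 * Real.log (b.2 : ℝ))) hinj]
      apply sum_le_sum_of_subset_of_nonneg
      · intro b hb
        rw [mem_image] at hb
        obtain ⟨⟨n, p⟩, h1, rfl⟩ := hb
        simp only [mem_sigma, mem_Icc] at h1
        simp only [mem_sigma, mem_Icc, mem_filter]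
        have hp := Nat.prime_of_mem_primeFactors h1.2
        have hn0 : n ≠ 0 := by omega
        have hv : 1 ≤ n.factorization p :=
          (hp.dvd_iff_one_le_factorization (by omega)).mp (Nat.dvd_of_mem_primeFactors h1.2)
        have hdvd : p ^ n.factorization p ∣ n := Nat.ordProj_dvd n p
        have hpos : 0 < p ^ n.factorization p := Nat.pow_pos hp.pos
        have hq1 : 1 ≤ n / p ^ n.factorization p := Nat.div_pos (Nat.le_of_dvd (by omega) hdvd) hpos
        refine ⟨⟨hq1, (Nat.div_le_self _ _).trans h1.1.2⟩, ⟨hpos, ?_⟩, ?_⟩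
        · rw [Nat.le_div_iff_mul_le hq1]
          rw [Nat.mul_div_cancel' hdvd]
          exact h1.1.2
        · exact hp.isPrimePow.pow (by omega)
      · intro b hb _
        simp only [mem_sigma, mem_Icc, mem_filter] at hb
        have h1 := hf0 b.1
        have h2 : 0 ≤ Real.log (b.2 : ℝ) := Real.log_nonneg (by exact_mod_cast hb.2.1.1)
        positivity
    refine step2.trans ?_
    rw [sum_sigma, mul_sum]
    apply sum_le_sum
    intro m hm
    rw [mem_Icc] at hm
    have hm0 : (0 : ℝ) < m := by exact_mod_cast hm.1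
    have hmN : (m : ℝ) ≤ N := by exact_mod_cast hm.2
    show ∑ q ∈ (Icc 1 (N / m)).filter IsPrimePow, 2 * (f m * Real.log (q : ℝ)) ≤ _
    rw [← mul_sum, ← mul_sum]
    have hfl : N / m = ⌊x / m⌋₊ := by rw [hN, Nat.floor_div_natCast]
    rw [hfl]
    have h1 := hC (x / m) (by rw [le_div_iff₀ hm0]; linarith)
    have h2 := mul_le_mul_of_nonneg_left h1 (hf0 m)
    calc 2 * (f m * ∑ q ∈ (Icc 1 ⌊x / m⌋₊).filter IsPrimePow, Real.log q)
        ≤ 2 * (f m * (C * (x / m))) := by linarith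
      _ = 2 * C * x * (f m / m) := by ring
  have B : ∑ n ∈ Icc 1 N, f n * Real.log (x / n) ≤ x * ∑ n ∈ Icc 1 N, f n / n := by
    rw [mul_sum]
    apply sum_le_sum
    intro n hn
    rw [mem_Icc] at hn
    have hn0 : (0 : ℝ) < n := by exact_mod_cast hn.1
    have h1 : Real.log (x / n) ≤ x / n := by
      have := Real.log_le_sub_one_of_pos (show 0 < x / n by positivity)
      linarith
    calc f n * Real.log (x / n) ≤ f n * (x / n) := mul_le_mul_of_nonneg_left h1 (hf0 n)
      _ = x * (f n / n) := by ring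
  have D : Real.log x * ∑ n ∈ Icc 1 N, f n =
      ∑ n ∈ Icc 1 N, f n * Real.log n + ∑ n ∈ Icc 1 N, f n * Real.log (x / n) := by
    rw [← sum_add_distrib, mul_sum]
    apply sum_congr rfl
    intro n hn
    rw [mem_Icc] at hn
    have hn0 : (0 : ℝ) < n := by exact_mod_cast hn.1
    rw [Real.log_div hx0.ne' hn0.ne']
    ring
  have E : Real.log x * ∑ n ∈ Icc 1 N, f n ≤ (2 * C + 1) * x * ∑ n ∈ Icc 1 N, f n / n := by
    rw [D]; linarith
  calc ∑ n ∈ Icc 1 N, f n = (Real.log x * ∑ n ∈ Icc 1 N, f n) / Real.log x := by field_simp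
    _ ≤ ((2 * C + 1) * x * ∑ n ∈ Icc 1 N, f n / n) / Real.log x := by gcongr
    _ = (2 * C + 1) * (x / Real.log x) * ∑ n ∈ Icc 1 N, f n / n := by ring

/-- Rankin: `∑_{n ≤ x} f(n)/n ≤ e ∑ f(n) n^{-1-1/log x}` -/
theorem rankin (f : ℕ → ℝ) (hf : ∀ n, 0 ≤ f n) (x : ℝ) (hx : 3 ≤ x)
    (hs : Summable (fun n : ℕ => f n * (n : ℝ) ^ (-(1 + 1 / Real.log x)))) :
    ∑ n ∈ Icc 1 ⌊x⌋₊, f n / n ≤ 3 * ∑' n : ℕ, f n * (n : ℝ) ^ (-(1 + 1 / Real.log x)) := by
  have hx0 : 0 < x := by linarith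
  have hlogx : 0 < Real.log x := Real.log_pos (by linarith)
  have h1 : ∑ n ∈ Icc 1 ⌊x⌋₊, f n / n ≤
      ∑ n ∈ Icc 1 ⌊x⌋₊, 3 * (f n * (n : ℝ) ^ (-(1 + 1 / Real.log x))) := by
    apply sum_le_sum
    intro n hn
    rw [mem_Icc] at hn
    have hn0 : (0 : ℝ) < n := by exact_mod_cast hn.1
    have hnx : (n : ℝ) ≤ x := by
      calc (n : ℝ) ≤ (⌊x⌋₊ : ℝ) := by exact_mod_cast hn.2
        _ ≤ x := Nat.floor_le hx0.le
    have e1 : (n : ℝ) ^ (-(1 + 1 / Real.log x)) = (n : ℝ)⁻¹ * ((n : ℝ) ^ (1 / Real.log x))⁻¹ := by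
      rw [Real.rpow_neg hn0.le, Real.rpow_add hn0, Real.rpow_one, mul_inv]
    have e2 : (n : ℝ) ^ (1 / Real.log x) ≤ 3 := by
      calc (n : ℝ) ^ (1 / Real.log x) ≤ x ^ (1 / Real.log x) :=
            Real.rpow_le_rpow hn0.le hnx (by positivity)
        _ = Real.exp 1 := by
            rw [Real.rpow_def_of_pos hx0]
            congr 1
            field_simp
        _ ≤ 3 := by linarith [Real.exp_one_lt_d9]
    have hpos : 0 < (n : ℝ) ^ (1 / Real.log x) := Real.rpow_pos_of_pos hn0 _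
    have e3 : 1 ≤ 3 * ((n : ℝ) ^ (1 / Real.log x))⁻¹ := by
      rw [← div_eq_mul_inv, le_div_iff₀ hpos]
      linarith
    rw [e1]
    have hfn : 0 ≤ f n * (n : ℝ)⁻¹ := mul_nonneg (hf n) (by positivity)
    calc f n / n = f n * (n : ℝ)⁻¹ * 1 := by rw [mul_one]; rfl
      _ ≤ f n * (n : ℝ)⁻¹ * (3 * ((n : ℝ) ^ (1 / Real.log x))⁻¹) :=
          mul_le_mul_of_nonneg_left e3 hfn
      _ = 3 * (f n * ((n : ℝ)⁻¹ * ((n : ℝ) ^ (1 / Real.log x))⁻¹)) := by ring
  refine h1.trans ?_
  rw [← mul_sum]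
  apply mul_le_mul_of_nonneg_left _ (by norm_num)
  exact hs.sum_le_tsum _ (fun n _ => mul_nonneg (hf n) (by positivity))

end Pool.Agent.MRS
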