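import Pool.Agent.MRS.PwA
import Pool.Agent.MRS.PwB
import Pool.Agent.MRS.Hr

set_option autoImplicit false

/-! Module PPW (pw): combine `sp_le_bb`, `hr_bound` (`f n = ‖bb k n‖`), `rankin`, `euler_cmp`, `L_bound`, `L_zero`, `x = 3M`. -/

open Finset

namespace Pool.Agent.MRS

theorem ppw_le_two (k : ℤ) (p a : ℕ) (hp : p.Prime) (ha : 1 ≤ a) : ‖bb k (p ^ a)‖ ≤ 2 := by
  by_cases h : p % 4 = 1
  · obtain ⟨q, hq, hqp⟩ := PP_exists hp h
    rw [← hqp, bb_prime_pow k hq ha]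
    refine (norm_add_le _ _).trans ?_
    have h1 := norm_uu_zpow_le q (k * a)
    have h2 := norm_uu_zpow_le q (-(k * a))
    linarith
  · rw [bb_prime_pow_zero k hp h ha, norm_zero]
    norm_num

theorem pw (η : ℝ) (hη : 0 < η) : ∃ M0 : ℝ, 1 ≤ M0 ∧ ∀ M : ℝ, M0 ≤ M → ∀ k : ℤ, k ≠ 0 →
    |(k : ℝ)| ≤ M ^ 2 → ∀ f : ℕ → ℂ, CM f → ‖sp (pan M (3 * M)) (gf f) k‖ ≤ η * M := by
  obtain ⟨C1, hC1, hhr⟩ := hr_bound
  obtain ⟨C2, hC2, hec⟩ := euler_cmp
  obtain ⟨K, hK, hL0⟩ := L_zero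
  set ε : ℝ := (η / (18 * C1 * C2 * K ^ (3 / 4 : ℝ))) ^ 4 with hε
  have hK34 : 0 < K ^ (3 / 4 : ℝ) := Real.rpow_pos_of_pos hK _
  have hε0 : 0 < ε := by positivity
  obtain ⟨a0, ha0, hLb⟩ := L_bound 2 ε hε0
  refine ⟨max 1 (Real.exp (1 / a0)), le_max_left _ _, ?_⟩
  intro M hM k hk hkM f hf
  have hM1 : 1 ≤ M := (le_max_left _ _).trans hM
  have hMe : Real.exp (1 / a0) ≤ M := (le_max_right _ _).trans hM
  have hM0 : 0 < M := by linarith
  set x : ℝ := 3 * M with hx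
  have hx3 : 3 ≤ x := by rw [hx]; linarith
  have hx0 : 0 < x := by linarith
  have hlog1 : 1 ≤ Real.log x := by
    rw [Real.le_log_iff_exp_le hx0]
    have := Real.exp_one_lt_d9
    linarith
  have hlog0 : 0 < Real.log x := by linarith
  have hloga : 1 / a0 ≤ Real.log x := by
    rw [Real.le_log_iff_exp_le hx0]
    rw [hx]
    linarith
  set α : ℝ := 1 / Real.log x with hα
  have hα0 : 0 < α := by positivity
  have hα1 : α ≤ 1 := by
    rw [hα, div_le_one hlog0]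
    exact hlog1
  have hαa : α ≤ a0 := by
    rw [hα, div_le_iff₀ hlog0]
    rw [div_le_iff₀ ha0] at hloga
    linarith
  obtain ⟨hs0, hb0⟩ := hL0 α hα0 hα1
  have hsk : Summable (fun n : ℕ => ‖bb k n‖ * (n : ℝ) ^ (-(1 + α))) := by
    refine Summable.of_nonneg_of_le (fun n => by positivity) (fun n => ?_) hs0
    exact mul_le_mul_of_nonneg_right (norm_bb_le k n) (by positivity)
  have h1 := sp_le_bb f hf k M (3 * M) hM0.le
  have h2 := hhr (fun n => ‖bb k n‖) (fun n => norm_nonneg _) (by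
      show ‖bb k 1‖ = 1
      rw [bb_one, norm_one]) (fun m n hmn => by
      show ‖bb k (m * n)‖ = ‖bb k m‖ * ‖bb k n‖
      rw [bb_mul k hmn, norm_mul]) (fun p a hp ha => ppw_le_two k p a hp ha) x (by linarith)
  have h3 := rankin (fun n => ‖bb k n‖) (fun n => norm_nonneg _) x hx3 hsk
  obtain ⟨hD0, h4⟩ := hec k α hα0 hα1
  have h2k : (2 * k : ℤ) ≠ 0 := by omega
  have h5 := hLb α hα0 hαa (2 * k) h2k (by
    have e1 : (2 : ℝ) / α = 2 * Real.log x := by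
      rw [hα]; field_simp
    rw [e1, two_mul (Real.log x), Real.exp_add, Real.exp_log hx0]
    push_cast
    rw [abs_mul, abs_two]
    rw [hx]
    nlinarith)
  set B0 : ℝ := ∑' n : ℕ, (bb 0 n).re * (n : ℝ) ^ (-(1 + α)) with hB0
  set D : ℝ := ∑' n : ℕ, (bb (2 * k) n).re * (n : ℝ) ^ (-(1 + α)) with hD
  have hB00 : 0 ≤ B0 := by
    apply tsum_nonneg
    intro n
    have : 0 ≤ (bb 0 n).re := (norm_nonneg _).trans (norm_bb_le 0 n)
    positivity
  have hDle : D ≤ ε * Real.log x := by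
    have e1 : ε / α = ε * Real.log x := by rw [hα]; field_simp
    rw [← e1]
    exact (le_abs_self _).trans h5
  have hBle : B0 ≤ K * Real.log x := by
    have e1 : K / α = K * Real.log x := by rw [hα]; field_simp
    rw [← e1]
    exact hb0
  have h6 : B0 ^ (3 / 4 : ℝ) ≤ K ^ (3 / 4 : ℝ) * (Real.log x) ^ (3 / 4 : ℝ) := by
    rw [← Real.mul_rpow hK.le hlog0.le]
    exact Real.rpow_le_rpow hB00 hBle (by norm_num)
  have h7 : D ^ (1 / 4 : ℝ) ≤ ε ^ (1 / 4 : ℝ) * (Real.log x) ^ (1 / 4 : ℝ) := by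
    rw [← Real.mul_rpow hε0.le hlog0.le]
    exact Real.rpow_le_rpow hD0.le hDle (by norm_num)
  have h8 : (Real.log x) ^ (3 / 4 : ℝ) * (Real.log x) ^ (1 / 4 : ℝ) = Real.log x := by
    rw [← Real.rpow_add hlog0]
    norm_num
  have h9 : ε ^ (1 / 4 : ℝ) = η / (18 * C1 * C2 * K ^ (3 / 4 : ℝ)) := by
    have hb : 0 ≤ η / (18 * C1 * C2 * K ^ (3 / 4 : ℝ)) := by positivity
    rw [hε, ← Real.rpow_natCast, ← Real.rpow_mul hb]
    norm_num
  have hlog34 : 0 < (Real.log x) ^ (3 / 4 : ℝ) := Real.rpow_pos_of_pos hlog0 _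
  have hlog14 : 0 < (Real.log x) ^ (1 / 4 : ℝ) := Real.rpow_pos_of_pos hlog0 _
  have h10 : ∑' n : ℕ, ‖bb k n‖ * (n : ℝ) ^ (-(1 + α)) ≤ η / (18 * C1) * Real.log x := by
    calc ∑' n : ℕ, ‖bb k n‖ * (n : ℝ) ^ (-(1 + α)) ≤ C2 * B0 ^ (3 / 4 : ℝ) * D ^ (1 / 4 : ℝ) := h4
      _ ≤ C2 * (K ^ (3 / 4 : ℝ) * (Real.log x) ^ (3 / 4 : ℝ)) *
          (ε ^ (1 / 4 : ℝ) * (Real.log x) ^ (1 / 4 : ℝ)) := by
          apply mul_le_mul (mul_le_mul_of_nonneg_left h6 hC2.le) h7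
            (Real.rpow_nonneg hD0.le _) (by positivity)
      _ = C2 * K ^ (3 / 4 : ℝ) * ε ^ (1 / 4 : ℝ) *
          ((Real.log x) ^ (3 / 4 : ℝ) * (Real.log x) ^ (1 / 4 : ℝ)) := by ring
      _ = η / (18 * C1) * Real.log x := by
          rw [h8, h9]
          field_simp
  calc ‖sp (pan M (3 * M)) (gf f) k‖ ≤ 2 * ∑ n ∈ Icc 1 ⌊x⌋₊, ‖bb k n‖ := h1
    _ ≤ 2 * (C1 * (x / Real.log x) * ∑ n ∈ Icc 1 ⌊x⌋₊, ‖bb k n‖ / n) := by linarith
    _ ≤ 2 * (C1 * (x / Real.log x) * (3 * (η / (18 * C1) * Real.log x))) := by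
        apply mul_le_mul_of_nonneg_left _ (by norm_num)
        apply mul_le_mul_of_nonneg_left _ (by positivity)
        refine h3.trans ?_
        linarith
    _ = η * (x / 3) := by
        field_simp
        ring
    _ = η * M := by
        rw [hx]
        ring

end Pool.Agent.MRS
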