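import Pool.Agent.MRS.Tau

set_option autoImplicit false

/-! Module ENE: energy of the products `∏ p_i * m`.
Cancellation: for `p_i ∈ PP`, `m` primitive, let `T` be a maximal set of indices with `∏_{i ∈ T} star p_i ∣ m`, `m = ∏_T star p_i * m'`.
Then `w = ∏_{i ∉ T} p_i * m'` is primitive (a rational prime `q ∣ w` is `ϖ star ϖ` with `ϖ ∈ PP`; `star ϖ ∤ ∏ p_i`; so `star ϖ ∣ m'`,
`ϖ ∤ m'`, `ϖ = p_i` for some `i ∉ T`, contradiction), and `∏ p_i * m = (∏_T N(p_i)) w`.
For a primitive `w` the number `c(w)` of `((p_i), m)` with `∏ p_i * m` parallel to `w` is `≤ ∑_T 2 τ_{l-t}(w) |S|^t [N(w) ≤ z^{l-t} b / y^t]`, `t = |T|`.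
`c(w)^2 ≤ 2^l ∑_T 4 τ^2 |S|^{2t}`, `|S| ≤ z` (distinct norms), `z ≤ 3y`: total `≤ 16 · 8^l (l+1)^l z^l b`. -/

open Finset

namespace Pool.Agent.MRS

theorem ENE_star_dvd {a b : GI} : star a ∣ star b ↔ a ∣ b := by
  constructor
  · rintro ⟨c, hc⟩
    refine ⟨star c, ?_⟩
    have := congrArg star hc
    rw [star_star, star_mul', star_star] at this
    exact this
  · rintro ⟨c, hc⟩
    exact ⟨star c, by rw [hc, star_mul']⟩

theorem ENE_prime_star {p : GI} (hp : PP p) : Prime (star p) := by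
  have h := PP_prime hp
  refine ⟨fun h0 => h.ne_zero ?_, fun hu => h.not_isUnit ?_, fun a b hab => ?_⟩
  · have := congrArg star h0
    rw [star_star, star_zero] at this
    exact this
  · have := Zsqrtd.norm_eq_one_iff.2 hu
    have h2 : nm (star p) = 1 := this
    rw [nm_star] at h2
    exact Zsqrtd.norm_eq_one_iff.1 h2
  · have h1 : p ∣ star a * star b := by
      rw [← star_mul', ← ENE_star_dvd, star_star]
      exact hab
    rcases h.dvd_or_dvd h1 with h2 | h2
    · left; rw [← ENE_star_dvd, star_star] at h2; exact h2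
    · right; rw [← ENE_star_dvd, star_star] at h2; exact h2

theorem ENE_natCast_dvd {q : ℕ} {w : GI} : (q : GI) ∣ w ↔ (q : ℤ) ∣ w.re ∧ (q : ℤ) ∣ w.im := by
  have h := Zsqrtd.intCast_dvd (d := -1) (q : ℤ) w
  rw [← h]
  push_cast
  rfl

theorem ENE_not_Pr {w : GI} (h : ¬ Pr w) : ∃ q : ℕ, q.Prime ∧ (q : GI) ∣ w := by
  unfold Pr at h
  obtain ⟨q, hq, hqd⟩ := Nat.exists_prime_and_dvd h
  refine ⟨q, hq, ENE_natCast_dvd.2 ⟨?_, ?_⟩⟩
  · exact (Int.natCast_dvd_natCast.2 hqd).trans (Int.gcd_dvd_left ..)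
  · exact (Int.natCast_dvd_natCast.2 hqd).trans (Int.gcd_dvd_right ..)

theorem ENE_Pr_not_dvd {w : GI} (h : Pr w) {q : ℕ} (hq : q.Prime) : ¬ (q : GI) ∣ w := by
  intro hd
  rw [ENE_natCast_dvd] at hd
  have h3 : (q : ℤ) ∣ ((Int.gcd w.re w.im : ℕ) : ℤ) := Int.dvd_coe_gcd hd.1 hd.2
  rw [h] at h3
  have h4 : q ∣ 1 := by exact_mod_cast h3
  exact hq.one_lt.ne' (Nat.dvd_one.1 h4)

theorem ENE_Od_prod {ι : Type} (s : Finset ι) (f : ι → GI) (h : ∀ i ∈ s, Od (f i)) :
    Od (∏ i ∈ s, f i) := by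
  classical
  induction s using Finset.induction_on with
  | empty => rw [prod_empty]; exact Od_one
  | insert a s ha ih =>
    rw [prod_insert ha]
    exact Od_mul (h a (mem_insert_self _ _)) (ih (fun i hi => h i (mem_insert_of_mem hi)))

theorem ENE_nm_prod {ι : Type} (s : Finset ι) (f : ι → GI) :
    nm (∏ i ∈ s, f i) = ∏ i ∈ s, nm (f i) := by
  classical
  induction s using Finset.induction_on with
  | empty => rw [prod_empty, prod_empty]; exact nm_one
  | insert a s ha ih => rw [prod_insert ha, prod_insert ha, nm_mul, ih]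

theorem cancel {l : ℕ} (p : Fin l → GI) (hp : ∀ i, PP (p i)) (m : GI) (hm : Od m) (hm' : Pr m) :
    ∃ (T : Finset (Fin l)) (m' : GI), m = (∏ i ∈ T, star (p i)) * m' ∧
      Pr ((∏ i ∈ Tᶜ, p i) * m') ∧
      (∏ i, p i) * m = ((∏ i ∈ T, nm (p i) : ℕ) : GI) * ((∏ i ∈ Tᶜ, p i) * m') := by
  classical
  -- maximal T
  obtain ⟨T, hT, hmax⟩ := Finset.exists_max_image
    ((univ : Finset (Finset (Fin l))).filter (fun T => (∏ i ∈ T, star (p i)) ∣ m)) card
    ⟨∅, by rw [mem_filter]; exact ⟨mem_univ _, by rw [prod_empty]; exact one_dvd _⟩⟩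
  rw [mem_filter] at hT
  obtain ⟨m', hm1⟩ := hT.2
  have hOdT : Od (∏ i ∈ T, star (p i)) := ENE_Od_prod _ _ (fun i _ => Od_star (hp i).1)
  have hOdm' : Od m' := Od_of_mul hOdT (by rw [← hm1]; exact hm)
  have hOdw : Od ((∏ i ∈ Tᶜ, p i) * m') :=
    Od_mul (ENE_Od_prod _ _ (fun i _ => (hp i).1)) hOdm'
  have hm'Pr : Pr m' := Pr_of_dvd ⟨∏ i ∈ T, star (p i), by rw [hm1, mul_comm]⟩ hm'
  refine ⟨T, m', hm1, ?_, ?_⟩
  · by_contra hc
    obtain ⟨q, hq, hqw⟩ := ENE_not_Pr hc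
    have hq2 : q % 2 = 1 := by
      rcases hq.eq_two_or_odd with h | h
      · exfalso
        rw [h] at hqw
        rw [ENE_natCast_dvd] at hqw
        have h1 := hqw.1
        have h2 := hOdw.1
        push_cast at h1
        omega
      · exact h
    have hq4 : q % 4 = 1 ∨ q % 4 = 3 := by omega
    rcases hq4 with hq4 | hq4
    · obtain ⟨ϖ, hϖ, hϖq⟩ := PP_exists hq hq4
      have hqe : (q : GI) = ϖ * star ϖ := by rw [BAS_mul_star, hϖq]
      have h1 : star ϖ ∣ (∏ i ∈ Tᶜ, p i) * m' := (Dvd.intro_left _ hqe.symm).trans hqw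
      have h2 : ϖ ∣ (∏ i ∈ Tᶜ, p i) * m' := (Dvd.intro _ hqe.symm).trans hqw
      have hnd : ∀ i, ¬ star ϖ ∣ p i := by
        intro i hd
        have h3 : ϖ ∣ star (p i) := by
          rw [← ENE_star_dvd, star_star]
          exact hd
        exact PP_not_dvd_star hϖ (hp i) h3
      have h3 : star ϖ ∣ m' := by
        rcases (ENE_prime_star hϖ).dvd_or_dvd h1 with h | h
        · exfalso
          obtain ⟨i, _, hi⟩ := (ENE_prime_star hϖ).exists_mem_finset_dvd h
          exact hnd i hi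
        · exact h
      rcases (PP_prime hϖ).dvd_or_dvd h2 with h | h
      · obtain ⟨i, hi, hid⟩ := (PP_prime hϖ).exists_mem_finset_dvd h
        have h4 : ϖ = p i := PP_dvd_PP hϖ (hp i) hid
        have hiT : i ∉ T := by rw [mem_compl] at hi; exact hi
        have h5 := hmax (insert i T) (by
          rw [mem_filter]
          refine ⟨mem_univ _, ?_⟩
          rw [prod_insert hiT, hm1, mul_comm]
          rw [← h4]
          exact mul_dvd_mul_left _ h3)
        rw [card_insert_of_notMem hiT] at h5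
        omega
      · -- both divide m'
        obtain ⟨c, hc1⟩ := h
        rw [hc1] at h3
        have h6 : star ϖ ∣ c := by
          rcases (ENE_prime_star hϖ).dvd_or_dvd h3 with h | h
          · exfalso
            have h7 : ϖ ∣ star ϖ := by
              rw [← ENE_star_dvd, star_star]; exact h
            exact PP_not_dvd_star hϖ hϖ h7
          · exact h
        obtain ⟨c', hc'⟩ := h6
        have h8 : (q : GI) ∣ m' := ⟨c', by rw [hc1, hc', hqe, mul_assoc]⟩
        exact ENE_Pr_not_dvd hm'Pr hq h8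
    · have : Fact q.Prime := ⟨hq⟩
      have hprime : Prime (q : GI) := GaussianInt.prime_of_nat_prime_of_mod_four_eq_three q hq4
      rcases hprime.dvd_or_dvd hqw with h | h
      · obtain ⟨i, _, hi⟩ := hprime.exists_mem_finset_dvd h
        exact ENE_Pr_not_dvd (PP_Pr (hp i)) hq hi
      · exact ENE_Pr_not_dvd hm'Pr hq h
  · have h1 : (∏ i, p i) = (∏ i ∈ T, p i) * ∏ i ∈ Tᶜ, p i := (prod_mul_prod_compl T p).symm
    have h2 : ((∏ i ∈ T, nm (p i) : ℕ) : GI) = (∏ i ∈ T, p i) * ∏ i ∈ T, star (p i) := by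
      rw [← prod_mul_distrib, Nat.cast_prod]
      apply prod_congr rfl
      intro i _
      rw [BAS_mul_star]
    rw [h1, h2]
    nth_rewrite 1 [hm1]
    ring

theorem ENE_dt_natCast (a b : ℕ) (v w : GI) : dt ((a : GI) * v) ((b : GI) * w) = a * b * dt v w := by
  unfold dt
  rw [Zsqrtd.re_mul, Zsqrtd.im_mul, Zsqrtd.re_mul, Zsqrtd.im_mul, Zsqrtd.re_natCast,
    Zsqrtd.re_natCast, Zsqrtd.im_natCast, Zsqrtd.im_natCast]
  ring

theorem ENE_card_S {S : Finset GI} (hS : ∀ p ∈ S, PP p) {y z : ℝ} (hy : 1 ≤ y)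
    (hz : y ≤ z) (h : ∀ p ∈ S, y ≤ nm p ∧ (nm p : ℝ) ≤ z) : (S.card : ℝ) ≤ z := by
  have hz0 : 0 ≤ z := by linarith
  have h1 : S.card ≤ (Icc 1 ⌊z⌋₊).card := by
    apply card_le_card_of_injOn nm
    · intro p hp
      rw [mem_coe] at hp
      rw [mem_coe, mem_Icc]
      refine ⟨nm_pos (Od_ne (hS p hp).1), Nat.le_floor (h p hp).2⟩
    · intro p hp q hq hpq
      exact PP_inj (hS p hp) (hS q hq) hpq
  rw [Nat.card_Icc, Nat.add_sub_cancel] at h1
  calc (S.card : ℝ) ≤ (⌊z⌋₊ : ℝ) := by exact_mod_cast h1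
    _ ≤ z := Nat.floor_le hz0

theorem energy : ∃ C : ℝ, 1 ≤ C ∧ ∀ S : Finset GI, (∀ p ∈ S, PP p) →
    ∀ y z : ℝ, 1 ≤ y → y ≤ z → z ≤ 3 * y → (∀ p ∈ S, y ≤ nm p ∧ (nm p : ℝ) ≤ z) → rs S ≤ 1 →
    ∀ (B : Finset GI) (b : ℝ), 1 ≤ b → (∀ m ∈ B, Od m ∧ Pr m ∧ (nm m : ℝ) ≤ b) → ∀ l : ℕ,
    open Classical in
    ((((tup S l ×ˢ B) ×ˢ (tup S l ×ˢ B)).filter (fun q =>
      dt ((∏ i, q.1.1 i) * q.1.2) ((∏ i, q.2.1 i) * q.2.2) = 0)).card : ℝ)
      ≤ C ^ (l + 1) * ((l : ℝ) + 1) ^ l * (z ^ l * b) := by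
  classical
  refine ⟨16, by norm_num, ?_⟩
  intro S hS y z hy hyz hz3 hSn hrs B b hb hB l
  have hz1 : 1 ≤ z := hy.trans hyz
  have hz0 : 0 < z := by linarith
  have hy0 : 0 < y := by linarith
  have hb0 : 0 < b := by linarith
  set D := tup S l ×ˢ B with hD
  have hDmem : ∀ q ∈ D, (∀ i, q.1 i ∈ S) ∧ q.2 ∈ B := by
    intro q hq
    rw [hD, mem_product] at hq
    refine ⟨?_, hq.2⟩
    have := hq.1
    unfold tup at this
    rw [Fintype.mem_piFinset] at this
    exact this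
  -- choice of T and m'
  have hch : ∀ q : (Fin l → GI) × GI, ∃ (T : Finset (Fin l)) (m' : GI), q ∈ D →
      q.2 = (∏ i ∈ T, star (q.1 i)) * m' ∧ Pr ((∏ i ∈ Tᶜ, q.1 i) * m') ∧
      (∏ i, q.1 i) * q.2 = ((∏ i ∈ T, nm (q.1 i) : ℕ) : GI) * ((∏ i ∈ Tᶜ, q.1 i) * m') := by
    intro q
    by_cases hq : q ∈ D
    · obtain ⟨h1, h2⟩ := hDmem q hq
      obtain ⟨T, m', h3⟩ := cancel q.1 (fun i => hS _ (h1 i)) q.2 (hB _ h2).1 (hB _ h2).2.1
      exact ⟨T, m', fun _ => h3⟩
    · exact ⟨∅, 0, fun h => absurd h hq⟩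
  choose Tq mq hTm using hch
  set wq : (Fin l → GI) × GI → GI := fun q => (∏ i ∈ (Tq q)ᶜ, q.1 i) * mq q with hwq
  set Y : Finset (Fin l) → ℝ := fun T => z ^ (Tᶜ).card * b / y ^ T.card with hY
  have hYpos : ∀ T, 0 ≤ Y T := fun T => by
    rw [hY]; positivity
  -- properties of wq
  have hwOd : ∀ q ∈ D, Od (wq q) := by
    intro q hq
    obtain ⟨h1, h2⟩ := hDmem q hq
    obtain ⟨h3, _, _⟩ := hTm q hq
    have h4 : Od (∏ i ∈ Tq q, star (q.1 i)) :=
      ENE_Od_prod _ _ (fun i _ => Od_star (hS _ (h1 i)).1)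
    have h5 : Od (mq q) := Od_of_mul h4 (by rw [← h3]; exact (hB _ h2).1)
    exact Od_mul (ENE_Od_prod _ _ (fun i _ => (hS _ (h1 i)).1)) h5
  have hwnm : ∀ q ∈ D, (nm (wq q) : ℝ) ≤ Y (Tq q) := by
    intro q hq
    obtain ⟨h1, h2⟩ := hDmem q hq
    obtain ⟨h3, _, _⟩ := hTm q hq
    have h4 : (nm q.2 : ℝ) = (∏ i ∈ Tq q, (nm (q.1 i) : ℝ)) * nm (mq q) := by
      have := congrArg nm h3
      rw [nm_mul, ENE_nm_prod] at this
      simp only [nm_star] at this
      rw [this]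
      push_cast
      rfl
    have h5 : y ^ (Tq q).card ≤ ∏ i ∈ Tq q, (nm (q.1 i) : ℝ) := by
      rw [← prod_const]
      exact prod_le_prod (fun _ _ => hy0.le) (fun i _ => (hSn _ (h1 i)).1)
    have h6 : (∏ i ∈ (Tq q)ᶜ, (nm (q.1 i) : ℝ)) ≤ z ^ ((Tq q)ᶜ).card := by
      rw [← prod_const]
      exact prod_le_prod (fun _ _ => Nat.cast_nonneg _) (fun i _ => (hSn _ (h1 i)).2)
    have h7 : (nm (wq q) : ℝ) = (∏ i ∈ (Tq q)ᶜ, (nm (q.1 i) : ℝ)) * nm (mq q) := by
      rw [hwq]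
      simp only
      rw [nm_mul, ENE_nm_prod]
      push_cast
      rfl
    have h8 : y ^ (Tq q).card * (nm (mq q) : ℝ) ≤ b := by
      calc y ^ (Tq q).card * (nm (mq q) : ℝ) ≤ (∏ i ∈ Tq q, (nm (q.1 i) : ℝ)) * nm (mq q) :=
            mul_le_mul_of_nonneg_right h5 (Nat.cast_nonneg _)
        _ = nm q.2 := h4.symm
        _ ≤ b := (hB _ h2).2.2
    rw [h7, hY]
    simp only
    rw [le_div_iff₀ (by positivity)]
    calc (∏ i ∈ (Tq q)ᶜ, (nm (q.1 i) : ℝ)) * nm (mq q) * y ^ (Tq q).card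
        = (∏ i ∈ (Tq q)ᶜ, (nm (q.1 i) : ℝ)) * (y ^ (Tq q).card * nm (mq q)) := by ring
      _ ≤ z ^ ((Tq q)ᶜ).card * b := by
          apply mul_le_mul h6 h8 (by positivity) (by positivity)
  -- parallel vectors
  have hpar : ∀ q ∈ D, ∀ q' ∈ D, dt ((∏ i, q.1 i) * q.2) ((∏ i, q'.1 i) * q'.2) = 0 →
      wq q' = wq q ∨ wq q' = -wq q := by
    intro q hq q' hq' h0
    obtain ⟨_, h2, h3⟩ := hTm q hq
    obtain ⟨_, h2', h3'⟩ := hTm q' hq'
    rw [h3, h3', ENE_dt_natCast] at h0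
    have hne : ∀ q ∈ D, ((∏ i ∈ Tq q, nm (q.1 i) : ℕ) : ℤ) ≠ 0 := by
      intro q hq
      rw [Nat.cast_ne_zero]
      exact prod_ne_zero_iff.2 (fun i _ => (nm_pos (Od_ne (hS _ ((hDmem q hq).1 i)).1)).ne')
    have h4 : dt ((∏ i ∈ (Tq q)ᶜ, q.1 i) * mq q) ((∏ i ∈ (Tq q')ᶜ, q'.1 i) * mq q') = 0 := by
      rcases mul_eq_zero.1 h0 with h | h
      · exact absurd h (mul_ne_zero (hne q hq) (hne q' hq'))
      · exact h
    exact eq_or_neg_of_dt h2 h2' h4
  set W := D.image wq with hW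
  -- counts
  set cp : GI → ℕ := fun w => (D.filter (fun q => wq q = w ∨ wq q = -w)).card with hcp
  have hE : (((D ×ˢ D).filter (fun q : ((Fin l → GI) × GI) × ((Fin l → GI) × GI) =>
      dt ((∏ i, q.1.1 i) * q.1.2) ((∏ i, q.2.1 i) * q.2.2) = 0)).card) ≤ ∑ w ∈ W, cp w ^ 2 := by
    have h1 : ((D ×ˢ D).filter (fun q : ((Fin l → GI) × GI) × ((Fin l → GI) × GI) =>
      dt ((∏ i, q.1.1 i) * q.1.2) ((∏ i, q.2.1 i) * q.2.2) = 0)) ⊆
      W.biUnion (fun w => (D.filter (fun q => wq q = w ∨ wq q = -w)) ×ˢ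
        (D.filter (fun q => wq q = w ∨ wq q = -w))) := by
      intro q hq
      rw [mem_filter, mem_product] at hq
      obtain ⟨⟨h1, h2⟩, h3⟩ := hq
      rw [mem_biUnion]
      refine ⟨wq q.1, mem_image_of_mem _ h1, ?_⟩
      rw [mem_product, mem_filter, mem_filter]
      exact ⟨⟨h1, Or.inl rfl⟩, ⟨h2, hpar _ h1 _ h2 h3⟩⟩
    refine (card_le_card h1).trans (card_biUnion_le.trans (sum_le_sum fun w _ => ?_))
    rw [card_product, sq]
  -- fibres
  set x : Finset (Fin l) → GI → ℝ := fun T w =>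
    if (nm w : ℝ) ≤ Y T then 2 * (S.card : ℝ) ^ T.card * (tau S (Tᶜ).card w : ℝ) else 0 with hx
  have hx0 : ∀ T w, 0 ≤ x T w := by
    intro T w
    rw [hx]
    simp only
    split_ifs
    · positivity
    · exact le_refl _
  have hfib : ∀ w, ∀ T : Finset (Fin l),
      ((D.filter (fun q => (wq q = w ∨ wq q = -w) ∧ Tq q = T)).card : ℝ) ≤ x T w := by
    intro w T
    by_cases hw : (nm w : ℝ) ≤ Y T
    · have hcard : (D.filter (fun q => (wq q = w ∨ wq q = -w) ∧ Tq q = T)).card ≤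
        ((Fintype.piFinset (fun _ : T => S)) ×ˢ
          (((tup S (Tᶜ).card).filter (fun p => (∏ i, p i) ∣ w)) ×ˢ (univ : Finset Bool))).card := by
        apply card_le_card_of_injOn (fun q : (Fin l → GI) × GI =>
          ((fun i : T => q.1 i.1), ((fun j : Fin (Tᶜ).card => q.1 ((Tᶜ).equivFin.symm j).1),
            decide (wq q = w))))
        · intro q hq
          rw [mem_coe, mem_filter] at hq
          obtain ⟨hqD, hqw, hqT⟩ := hq
          obtain ⟨h1, h2⟩ := hDmem q hqD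
          rw [mem_coe, mem_product, mem_product]
          refine ⟨?_, ?_, mem_univ _⟩
          · rw [Fintype.mem_piFinset]
            intro i
            exact h1 _
          · rw [mem_filter]
            constructor
            · unfold tup
              rw [Fintype.mem_piFinset]
              intro i
              exact h1 _
            · have h3 : (∏ j : Fin (Tᶜ).card, q.1 ((Tᶜ).equivFin.symm j).1) = ∏ i ∈ Tᶜ, q.1 i := by
                rw [Equiv.prod_comp (Tᶜ).equivFin.symm (fun i : (Tᶜ : Finset (Fin l)) => q.1 i.1)]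
                exact prod_coe_sort (Tᶜ) (fun i => q.1 i)
              show (∏ j : Fin (Tᶜ).card, q.1 ((Tᶜ).equivFin.symm j).1) ∣ w
              rw [h3]
              have h4 : wq q = (∏ i ∈ Tᶜ, q.1 i) * mq q := by
                rw [hwq]; simp only; rw [hqT]
              rcases hqw with h | h
              · exact ⟨mq q, by rw [← h, h4]⟩
              · refine ⟨-mq q, ?_⟩
                rw [mul_neg, ← h4, h, neg_neg]
        · intro q hq q' hq' hqq
          rw [mem_coe, mem_filter] at hq hq'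
          obtain ⟨hqD, hqw, hqT⟩ := hq
          obtain ⟨hqD', hqw', hqT'⟩ := hq'
          simp only [Prod.mk.injEq] at hqq
          obtain ⟨e1, e2, e3⟩ := hqq
          have e4 : q.1 = q'.1 := by
            funext i
            by_cases hi : i ∈ T
            · exact congrFun e1 ⟨i, hi⟩
            · have hi' : i ∈ Tᶜ := mem_compl.2 hi
              have := congrFun e2 ((Tᶜ).equivFin ⟨i, hi'⟩)
              simpa using this
          have e5 : wq q = wq q' := by
            by_cases h : wq q = w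
            · have h' : wq q' = w := by
                have h1 : decide (wq q = w) = true := decide_eq_true h
                rw [h1] at e3
                exact of_decide_eq_true e3.symm
              rw [h, h']
            · have h' : ¬ wq q' = w := by
                have h1 : decide (wq q = w) = false := decide_eq_false h
                rw [h1] at e3
                exact of_decide_eq_false e3.symm
              rw [hqw.resolve_left h, hqw'.resolve_left h']
          have hne : (∏ i ∈ Tᶜ, q.1 i) ≠ 0 :=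
            prod_ne_zero_iff.2 (fun i _ => Od_ne (hS _ ((hDmem q hqD).1 i)).1)
          have e6 : mq q = mq q' := by
            rw [hwq] at e5
            simp only at e5
            rw [hqT, hqT', ← e4] at e5
            exact mul_left_cancel₀ hne e5
          have e7 : q.2 = q'.2 := by
            rw [(hTm q hqD).1, (hTm q' hqD').1, hqT, hqT', e4, e6]
          exact Prod.ext e4 e7
      rw [card_product, card_product, Fintype.card_piFinset, prod_const, card_univ,
        Fintype.card_coe, Finset.card_univ, Fintype.card_bool] at hcard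
      have h5 : x T w = 2 * (S.card : ℝ) ^ T.card * (tau S (Tᶜ).card w : ℝ) := by
        rw [hx]; simp only; rw [if_pos hw]
      rw [h5]
      have h6 : (((tup S (Tᶜ).card).filter (fun p => (∏ i, p i) ∣ w)).card) =
        tau S (Tᶜ).card w := by
        unfold tau
        rfl
      rw [h6] at hcard
      have h7 : ((D.filter (fun q => (wq q = w ∨ wq q = -w) ∧ Tq q = T)).card : ℝ) ≤
        (S.card : ℝ) ^ T.card * ((tau S (Tᶜ).card w : ℝ) * 2) := by exact_mod_cast hcard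
      linarith
    · have h1 : D.filter (fun q => (wq q = w ∨ wq q = -w) ∧ Tq q = T) = ∅ := by
        rw [filter_eq_empty_iff]
        intro q hq hqq
        obtain ⟨h1, h2⟩ := hqq
        apply hw
        rw [← h2]
        have h3 := hwnm q hq
        rcases h1 with h | h
        · rw [← h]; exact h3
        · rw [h, nm_neg] at h3; exact h3
      rw [h1, card_empty, Nat.cast_zero]
      exact hx0 T w
  have hcpx : ∀ w, (cp w : ℝ) ≤ ∑ T : Finset (Fin l), x T w := by
    intro w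
    have h1 : cp w = ∑ T : Finset (Fin l),
        (D.filter (fun q => (wq q = w ∨ wq q = -w) ∧ Tq q = T)).card := by
      rw [hcp]
      simp only
      rw [card_eq_sum_card_fiberwise (f := Tq) (t := univ) (fun q _ => mem_univ _)]
      apply sum_congr rfl
      intro T _
      rw [filter_filter]
    rw [h1]
    push_cast
    exact sum_le_sum fun T _ => hfib w T
  have hsq : ∀ w, (cp w : ℝ) ^ 2 ≤ 2 ^ l * ∑ T : Finset (Fin l), x T w ^ 2 := by
    intro w
    have h1 : (cp w : ℝ) ^ 2 ≤ (∑ T : Finset (Fin l), x T w) ^ 2 :=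
      pow_le_pow_left₀ (Nat.cast_nonneg _) (hcpx w) 2
    have h2 : (∑ T : Finset (Fin l), x T w) ^ 2 ≤
        ((univ : Finset (Finset (Fin l))).card : ℝ) * ∑ T : Finset (Fin l), x T w ^ 2 :=
      sq_sum_le_card_mul_sum_sq
    have h3 : ((univ : Finset (Finset (Fin l))).card : ℝ) = 2 ^ l := by
      rw [card_univ, Fintype.card_finset, Fintype.card_fin]
      push_cast
      rfl
    rw [h3] at h2
    exact h1.trans h2
  have hT : ∀ T : Finset (Fin l), ∑ w ∈ W, x T w ^ 2 ≤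
      16 * 3 ^ l * (((l : ℝ) + 1) ^ l * (z ^ l * b)) := by
    intro T
    set t := T.card with ht
    have htc : (Tᶜ).card = l - t := by rw [card_compl, Fintype.card_fin]
    have htl : t ≤ l := by
      have := card_le_univ T
      rwa [Fintype.card_fin] at this
    have h1 : ∑ w ∈ W, x T w ^ 2 ≤
        ∑ w ∈ ann 0 (Y T), 4 * ((S.card : ℝ) ^ t) ^ 2 * (tau S (Tᶜ).card w : ℝ) ^ 2 := by
      have h2 : ∑ w ∈ W, x T w ^ 2 = ∑ w ∈ W.filter (fun w => (nm w : ℝ) ≤ Y T), x T w ^ 2 := by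
        rw [sum_filter]
        apply sum_congr rfl
        intro w _
        by_cases h : (nm w : ℝ) ≤ Y T
        · rw [if_pos h]
        · rw [if_neg h]
          have : x T w = 0 := by rw [hx]; simp only; rw [if_neg h]
          rw [this]
          ring
      rw [h2]
      have h3 : W.filter (fun w => (nm w : ℝ) ≤ Y T) ⊆ ann 0 (Y T) := by
        intro w hw
        rw [mem_filter] at hw
        obtain ⟨hw1, hw2⟩ := hw
        rw [hW, mem_image] at hw1
        obtain ⟨q, hq, rfl⟩ := hw1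
        rw [mem_ann]
        refine ⟨hwOd q hq, ?_, hw2⟩
        exact_mod_cast nm_pos (Od_ne (hwOd q hq))
      calc ∑ w ∈ W.filter (fun w => (nm w : ℝ) ≤ Y T), x T w ^ 2
          = ∑ w ∈ W.filter (fun w => (nm w : ℝ) ≤ Y T),
            4 * ((S.card : ℝ) ^ t) ^ 2 * (tau S (Tᶜ).card w : ℝ) ^ 2 := by
            apply sum_congr rfl
            intro w hw
            rw [mem_filter] at hw
            have : x T w = 2 * (S.card : ℝ) ^ T.card * (tau S (Tᶜ).card w : ℝ) := by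
              rw [hx]; simp only; rw [if_pos hw.2]
            rw [this]
            ring
        _ ≤ _ := sum_le_sum_of_subset_of_nonneg h3 (fun _ _ _ => by positivity)
    rw [← mul_sum] at h1
    have h2 := sum_tau_sq S hS hrs (Tᶜ).card (Y T) (hYpos T)
    have h3 : (((Tᶜ).card : ℝ) + 1) ^ (Tᶜ).card ≤ ((l : ℝ) + 1) ^ l := by
      have h4 : ((Tᶜ).card : ℝ) ≤ l := by
        have := card_le_univ (Tᶜ)
        rw [Fintype.card_fin] at this
        exact_mod_cast this
      have h4' : (Tᶜ).card ≤ l := by exact_mod_cast h4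
      have hl1 : (1 : ℝ) ≤ (l : ℝ) + 1 := by
        have : (0 : ℝ) ≤ l := Nat.cast_nonneg l
        linarith
      calc (((Tᶜ).card : ℝ) + 1) ^ (Tᶜ).card ≤ ((l : ℝ) + 1) ^ (Tᶜ).card :=
            pow_le_pow_left₀ (by positivity) (by linarith) _
        _ ≤ ((l : ℝ) + 1) ^ l := pow_le_pow_right₀ hl1 h4'
    have hSz := ENE_card_S hS hy hyz hSn
    have h5 : ((S.card : ℝ) ^ t) ^ 2 * Y T ≤ 3 ^ l * (z ^ l * b) := by
      have h6 : ((S.card : ℝ) ^ t) ^ 2 ≤ (z ^ t) ^ 2 :=
        pow_le_pow_left₀ (by positivity) (pow_le_pow_left₀ (Nat.cast_nonneg _) hSz _) _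
      have h7 : Y T = z ^ (l - t) * b / y ^ t := by rw [hY]; simp only; rw [htc]
      have h8 : z ^ t / y ^ t ≤ 3 ^ l := by
        rw [← div_pow]
        have h9 : z / y ≤ 3 := by rw [div_le_iff₀ hy0]; exact hz3
        calc (z / y) ^ t ≤ 3 ^ t := pow_le_pow_left₀ (by positivity) h9 _
          _ ≤ 3 ^ l := pow_le_pow_right₀ (by norm_num) htl
      have h10 : z ^ t * z ^ (l - t) = z ^ l := by rw [← pow_add]; congr 1; omega
      calc ((S.card : ℝ) ^ t) ^ 2 * Y T ≤ (z ^ t) ^ 2 * Y T :=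
            mul_le_mul_of_nonneg_right h6 (hYpos T)
        _ = (z ^ t / y ^ t) * ((z ^ t * z ^ (l - t)) * b) := by
            rw [h7]; ring
        _ = (z ^ t / y ^ t) * (z ^ l * b) := by rw [h10]
        _ ≤ 3 ^ l * (z ^ l * b) := mul_le_mul_of_nonneg_right h8 (by positivity)
    calc ∑ w ∈ W, x T w ^ 2
        ≤ 4 * ((S.card : ℝ) ^ t) ^ 2 * ∑ w ∈ ann 0 (Y T), (tau S (Tᶜ).card w : ℝ) ^ 2 := h1
      _ ≤ 4 * ((S.card : ℝ) ^ t) ^ 2 * (4 * Y T * (((Tᶜ).card : ℝ) + 1) ^ (Tᶜ).card) :=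
          mul_le_mul_of_nonneg_left h2 (by positivity)
      _ ≤ 4 * ((S.card : ℝ) ^ t) ^ 2 * (4 * Y T * ((l : ℝ) + 1) ^ l) := by
          apply mul_le_mul_of_nonneg_left _ (by positivity)
          exact mul_le_mul_of_nonneg_left h3 (by have := hYpos T; positivity)
      _ = 16 * (((S.card : ℝ) ^ t) ^ 2 * Y T) * ((l : ℝ) + 1) ^ l := by ring
      _ ≤ 16 * (3 ^ l * (z ^ l * b)) * ((l : ℝ) + 1) ^ l := by
          apply mul_le_mul_of_nonneg_right _ (by positivity)
          exact mul_le_mul_of_nonneg_left h5 (by norm_num)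
      _ = _ := by ring
  have hfinal : (∑ w ∈ W, (cp w : ℝ) ^ 2) ≤
      2 ^ l * (2 ^ l * (16 * 3 ^ l * (((l : ℝ) + 1) ^ l * (z ^ l * b)))) := by
    calc (∑ w ∈ W, (cp w : ℝ) ^ 2) ≤ ∑ w ∈ W, 2 ^ l * ∑ T : Finset (Fin l), x T w ^ 2 :=
          sum_le_sum fun w _ => hsq w
      _ = 2 ^ l * ∑ T : Finset (Fin l), ∑ w ∈ W, x T w ^ 2 := by
          rw [← mul_sum, sum_comm]
      _ ≤ 2 ^ l * ∑ T : Finset (Fin l), 16 * 3 ^ l * (((l : ℝ) + 1) ^ l * (z ^ l * b)) :=
          mul_le_mul_of_nonneg_left (sum_le_sum fun T _ => hT T) (by positivity)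
      _ = _ := by
          rw [sum_const, card_univ, Fintype.card_finset, Fintype.card_fin, nsmul_eq_mul]
          push_cast
          rfl
  have hE' : ((((D ×ˢ D).filter (fun q : ((Fin l → GI) × GI) × ((Fin l → GI) × GI) =>
      dt ((∏ i, q.1.1 i) * q.1.2) ((∏ i, q.2.1 i) * q.2.2) = 0)).card : ℕ) : ℝ) ≤
      ∑ w ∈ W, (cp w : ℝ) ^ 2 := by
    exact_mod_cast hE
  refine hE'.trans (hfinal.trans ?_)
  have h1 : (2 : ℝ) ^ l * 2 ^ l * 3 ^ l ≤ 16 ^ l := by
    rw [← mul_pow, ← mul_pow]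
    exact pow_le_pow_left₀ (by norm_num) (by norm_num) _
  calc (2 : ℝ) ^ l * (2 ^ l * (16 * 3 ^ l * (((l : ℝ) + 1) ^ l * (z ^ l * b))))
      = (2 ^ l * 2 ^ l * 3 ^ l) * (16 * (((l : ℝ) + 1) ^ l * (z ^ l * b))) := by ring
    _ ≤ 16 ^ l * (16 * (((l : ℝ) + 1) ^ l * (z ^ l * b))) :=
        mul_le_mul_of_nonneg_right h1 (by positivity)
    _ = _ := by ring

end Pool.Agent.MRS
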