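import Pool.Agent.MRS.Fejer
import Pool.Agent.MRS.DetCount

set_option autoImplicit false

/-! Module MVT: mean value theorem (large sieve type inequality). -/

open Finset

namespace Pool.Agent.MRS

/-- the number of `w` of norm at most `Y` with `|dt z w| = n` -/
theorem MVT_count {z : GI} (hz : Pr z) {Y : ℝ} (hY : (nm z : ℝ) ≤ Y) (n : ℕ) (S : Finset GI)
    (hS : ∀ w ∈ S, (nm w : ℝ) ≤ Y ∧ (dt z w).natAbs = n) : (S.card : ℝ) ≤ 6 * √(Y / nm z) := by
  classical
  have h1 := det_count hz hY (n : ℤ) (S.filter (fun w => dt z w = (n : ℤ))) (by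
    intro w hw
    rw [Finset.mem_filter] at hw
    exact ⟨(hS w hw.1).1, hw.2⟩)
  have h2 := det_count hz hY (-(n : ℤ)) (S.filter (fun w => ¬ dt z w = (n : ℤ))) (by
    intro w hw
    rw [Finset.mem_filter] at hw
    refine ⟨(hS w hw.1).1, ?_⟩
    have h3 := (hS w hw.1).2
    have h4 := hw.2
    omega)
  have h3 : S.card = (S.filter (fun w => dt z w = (n : ℤ))).card
      + (S.filter (fun w => ¬ dt z w = (n : ℤ))).card :=
    (Finset.card_filter_add_card_filter_not _).symm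
  rw [h3]
  push_cast
  linarith

/-- sums over `w` by the value of the determinant -/
theorem MVT_fiber {z : GI} (hz : Pr z) {Y : ℝ} (hY : (nm z : ℝ) ≤ Y) (S : Finset GI)
    (hS : ∀ w ∈ S, (nm w : ℝ) ≤ Y) (f : GI → ℝ) (φ : ℕ → ℝ) (hφ : ∀ n, 0 ≤ φ n)
    (hf : ∀ w ∈ S, f w ≤ φ (dt z w).natAbs) (T : Finset ℕ) (hT : ∀ w ∈ S, (dt z w).natAbs ∈ T) :
    ∑ w ∈ S, f w ≤ 6 * √(Y / nm z) * ∑ n ∈ T, φ n := by
  classical
  rw [← Finset.sum_fiberwise_of_maps_to hT, Finset.mul_sum]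
  apply Finset.sum_le_sum
  intro n _
  calc ∑ w ∈ S.filter (fun w => (dt z w).natAbs = n), f w
      ≤ ∑ w ∈ S.filter (fun w => (dt z w).natAbs = n), φ n := by
        apply Finset.sum_le_sum
        intro w hw
        rw [Finset.mem_filter] at hw
        have := hf w hw.1
        rwa [hw.2] at this
    _ = ((S.filter (fun w => (dt z w).natAbs = n)).card : ℝ) * φ n := by
        rw [Finset.sum_const, nsmul_eq_mul]
    _ ≤ 6 * √(Y / nm z) * φ n := by
        apply mul_le_mul_of_nonneg_right _ (hφ n)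
        apply MVT_count hz hY n
        intro w hw
        rw [Finset.mem_filter] at hw
        exact ⟨hS w hw.1, hw.2⟩

/-- `∑ min(A, B/n²) ≤ 3 √(AB)` -/
theorem MVT_min {A B : ℝ} (hA : 0 < A) (hB : 0 < B) (N : ℕ) :
    ∑ n ∈ Ioo 0 N, min A (B / (n : ℝ) ^ 2) ≤ 3 * √(A * B) := by
  classical
  set T : ℝ := √(B / A) with hT
  have hT0 : 0 < T := Real.sqrt_pos.mpr (by positivity)
  have hsA : √A ≠ 0 := by positivity
  have hsB : √B ≠ 0 := by positivity
  have eA : √A * √A = A := Real.mul_self_sqrt hA.le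
  have eB : √B * √B = B := Real.mul_self_sqrt hB.le
  have hAT : A * T = √(A * B) := by
    rw [hT, Real.sqrt_mul hA.le, Real.sqrt_div hB.le]
    field_simp
    rw [sq, eA]
  have hBT : B / T = √(A * B) := by
    rw [hT, Real.sqrt_mul hA.le, Real.sqrt_div hB.le]
    field_simp
    rw [sq, eB]
  set M : ℕ := ⌊T⌋₊ with hM
  have hM1 : (M : ℝ) ≤ T := Nat.floor_le hT0.le
  have hM2 : T < M + 1 := Nat.lt_floor_add_one T
  have h1 : ∑ n ∈ (Ioo 0 N).filter (fun n => n ≤ M), min A (B / (n : ℝ) ^ 2) ≤ √(A * B) := by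
    calc ∑ n ∈ (Ioo 0 N).filter (fun n => n ≤ M), min A (B / (n : ℝ) ^ 2)
        ≤ ∑ n ∈ (Ioo 0 N).filter (fun n => n ≤ M), A :=
          Finset.sum_le_sum (fun n _ => min_le_left _ _)
      _ = (((Ioo 0 N).filter (fun n => n ≤ M)).card : ℝ) * A := by
          rw [Finset.sum_const, nsmul_eq_mul]
      _ ≤ (M : ℝ) * A := by
          apply mul_le_mul_of_nonneg_right _ hA.le
          have h2 : (Ioo 0 N).filter (fun n => n ≤ M) ⊆ Ioc 0 M := by
            intro n hn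
            rw [Finset.mem_filter, Finset.mem_Ioo] at hn
            rw [Finset.mem_Ioc]
            exact ⟨hn.1.1, hn.2⟩
          have h3 := Finset.card_le_card h2
          rw [Nat.card_Ioc] at h3
          exact_mod_cast (by omega : ((Ioo 0 N).filter (fun n => n ≤ M)).card ≤ M)
      _ ≤ T * A := mul_le_mul_of_nonneg_right hM1 hA.le
      _ = √(A * B) := by rw [mul_comm, hAT]
  have h2 : ∑ n ∈ (Ioo 0 N).filter (fun n => ¬ n ≤ M), min A (B / (n : ℝ) ^ 2)
      ≤ 2 * √(A * B) := by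
    calc ∑ n ∈ (Ioo 0 N).filter (fun n => ¬ n ≤ M), min A (B / (n : ℝ) ^ 2)
        ≤ ∑ n ∈ (Ioo 0 N).filter (fun n => ¬ n ≤ M), B * ((n : ℝ) ^ 2)⁻¹ := by
          apply Finset.sum_le_sum
          intro n _
          rw [← div_eq_mul_inv]
          exact min_le_right _ _
      _ ≤ ∑ n ∈ Ioo M N, B * ((n : ℝ) ^ 2)⁻¹ := by
          apply Finset.sum_le_sum_of_subset_of_nonneg
          · intro n hn
            rw [Finset.mem_filter, Finset.mem_Ioo] at hn
            rw [Finset.mem_Ioo]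
            exact ⟨not_le.mp hn.2, hn.1.2⟩
          · intro n _ _
            positivity
      _ = B * ∑ n ∈ Ioo M N, ((n : ℝ) ^ 2)⁻¹ := by rw [Finset.mul_sum]
      _ ≤ B * (2 / (M + 1)) := mul_le_mul_of_nonneg_left (sum_Ioo_inv_sq_le M N) hB.le
      _ ≤ B * (2 / T) := by
          apply mul_le_mul_of_nonneg_left _ hB.le
          exact div_le_div_of_nonneg_left (by norm_num) hT0 hM2.le
      _ = 2 * √(A * B) := by rw [← hBT]; ring
  rw [← Finset.sum_filter_add_sum_filter_not (Ioo 0 N) (fun n => n ≤ M)]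
  linarith

theorem MVT_dt_le {z w : GI} {Y : ℝ} (hz : (nm z : ℝ) ≤ Y) (hw : (nm w : ℝ) ≤ Y) (hY : 0 ≤ Y) :
    |(dt z w : ℝ)| ≤ Y := by
  apply abs_le_of_sq_le_sq _ hY
  have e4 : ((z.re : ℝ) * w.re + z.im * w.im) ^ 2 + ((z.re : ℝ) * w.im - z.im * w.re) ^ 2
      = nm z * nm w := by
    rw [nm_real z, nm_real w]; ring
  have e5 : (dt z w : ℝ) = (z.re : ℝ) * w.im - z.im * w.re := by
    unfold dt
    push_cast
    ring
  rw [e5]
  have h0 : (0 : ℝ) ≤ nm z := Nat.cast_nonneg _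
  have h1 : (0 : ℝ) ≤ nm w := Nat.cast_nonneg _
  nlinarith [sq_nonneg ((z.re : ℝ) * w.re + z.im * w.im), mul_le_mul hz hw h1 hY]

theorem MVT_natAbs_mem {z w : GI} {Y : ℝ} (hz : (nm z : ℝ) ≤ Y) (hw : (nm w : ℝ) ≤ Y)
    (hY : 0 ≤ Y) (h : dt z w ≠ 0) : (dt z w).natAbs ∈ Ioo 0 (⌊Y⌋₊ + 1) := by
  rw [Finset.mem_Ioo]
  constructor
  · exact Int.natAbs_pos.mpr h
  · rw [Nat.lt_add_one_iff]
    apply Nat.le_floor
    rw [Nat.cast_natAbs]
    push_cast
    exact MVT_dt_le hz hw hY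

theorem MVT_natAbs_sq (m : ℤ) : ((m.natAbs : ℕ) : ℝ) ^ 2 = (m : ℝ) ^ 2 := by
  rw [Nat.cast_natAbs]
  push_cast
  exact sq_abs _

/-- row sums of the kernel over primitive vectors -/
theorem MVT_row {K : ℕ} {Y : ℝ} (hY : 1 ≤ Y) {z : GI} (hz : Pr z) (hzY : (nm z : ℝ) ≤ Y)
    (S : Finset GI) (hS : ∀ w ∈ S, Pr w ∧ (nm w : ℝ) ≤ Y) :
    ∑ w ∈ S, fk K z w ≤ 20 * (K + Y) := by
  classical
  have hz0 : z ≠ 0 := Pr_ne hz
  have hN : (0 : ℝ) < nm z := by exact_mod_cast nm_pos hz0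
  have hK : (0 : ℝ) < (K : ℝ) + 1 := by positivity
  have h1 : ∑ w ∈ S.filter (fun w => dt z w = 0), fk K z w ≤ 2 * ((K : ℝ) + 1) := by
    have hsub : S.filter (fun w => dt z w = 0) ⊆ {z, -z} := by
      intro w hw
      rw [Finset.mem_filter] at hw
      rw [Finset.mem_insert, Finset.mem_singleton]
      exact eq_or_neg_of_dt hz (hS w hw.1).1 hw.2
    calc ∑ w ∈ S.filter (fun w => dt z w = 0), fk K z w
        ≤ ∑ w ∈ S.filter (fun w => dt z w = 0), ((K : ℝ) + 1) := by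
          apply Finset.sum_le_sum
          intro w hw
          rw [Finset.mem_filter] at hw
          exact fk_le hz0 (Pr_ne (hS w hw.1).1)
      _ = ((S.filter (fun w => dt z w = 0)).card : ℝ) * ((K : ℝ) + 1) := by
          rw [Finset.sum_const, nsmul_eq_mul]
      _ ≤ 2 * ((K : ℝ) + 1) := by
          apply mul_le_mul_of_nonneg_right _ hK.le
          have h3 := (Finset.card_le_card hsub).trans (Finset.card_le_two)
          exact_mod_cast h3
  have h2 : ∑ w ∈ S.filter (fun w => ¬ dt z w = 0), fk K z w ≤ 18 * Y := by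
    have hB : 0 < (nm z : ℝ) * Y / ((K : ℝ) + 1) := by positivity
    have h3 := MVT_fiber hz hzY (S.filter (fun w => ¬ dt z w = 0))
      (by
        intro w hw
        rw [Finset.mem_filter] at hw
        exact (hS w hw.1).2)
      (fun w => fk K z w)
      (fun n => min ((K : ℝ) + 1) ((nm z : ℝ) * Y / ((K : ℝ) + 1) / (n : ℝ) ^ 2))
      (by
        intro n
        exact le_min hK.le (by positivity))
      (by
        intro w hw
        rw [Finset.mem_filter] at hw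
        have hw0 := Pr_ne (hS w hw.1).1
        apply le_min
        · exact fk_le hz0 hw0
        · refine (fk_le_dt hz0 hw0 hw.2).trans ?_
          rw [MVT_natAbs_sq, div_div]
          apply div_le_div_of_nonneg_right _ (by positivity)
          exact mul_le_mul_of_nonneg_left (hS w hw.1).2 hN.le)
      (Ioo 0 (⌊Y⌋₊ + 1))
      (by
        intro w hw
        rw [Finset.mem_filter] at hw
        exact MVT_natAbs_mem hzY (hS w hw.1).2 (by linarith) hw.2)
    refine h3.trans ?_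
    have h4 := MVT_min hK hB (⌊Y⌋₊ + 1)
    have h5 : ((K : ℝ) + 1) * ((nm z : ℝ) * Y / ((K : ℝ) + 1)) = nm z * Y := by
      field_simp
    rw [h5] at h4
    calc 6 * √(Y / nm z) * ∑ n ∈ Ioo 0 (⌊Y⌋₊ + 1),
          min ((K : ℝ) + 1) ((nm z : ℝ) * Y / ((K : ℝ) + 1) / (n : ℝ) ^ 2)
        ≤ 6 * √(Y / nm z) * (3 * √(nm z * Y)) := by
          apply mul_le_mul_of_nonneg_left h4
          positivity
      _ = 18 * (√(Y / nm z) * √(nm z * Y)) := by ring
      _ = 18 * Y := by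
          rw [← Real.sqrt_mul (by positivity)]
          have : Y / nm z * (nm z * Y) = Y ^ 2 := by
            field_simp
          rw [this, Real.sqrt_sq (by linarith)]
  rw [← Finset.sum_filter_add_sum_filter_not S (fun w => dt z w = 0)]
  linarith

/-- primitive representative of the direction -/
def MVT_dir (z : GI) : GI := ⟨z.re / (Int.gcd z.re z.im : ℤ), z.im / (Int.gcd z.re z.im : ℤ)⟩

theorem MVT_gcd_pos {z : GI} (hz : z ≠ 0) : 0 < Int.gcd z.re z.im := by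
  rcases Nat.eq_zero_or_pos (Int.gcd z.re z.im) with h | h
  · exfalso
    apply hz
    rw [Int.gcd_eq_zero_iff] at h
    exact Zsqrtd.ext h.1 h.2
  · exact h

theorem MVT_eq (z : GI) : z = ((Int.gcd z.re z.im : ℕ) : GI) * MVT_dir z := by
  have h1 : (Int.gcd z.re z.im : ℤ) * (z.re / (Int.gcd z.re z.im : ℤ)) = z.re :=
    Int.mul_ediv_cancel' (Int.gcd_dvd_left ..)
  have h2 : (Int.gcd z.re z.im : ℤ) * (z.im / (Int.gcd z.re z.im : ℤ)) = z.im :=
    Int.mul_ediv_cancel' (Int.gcd_dvd_right ..)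
  apply Zsqrtd.ext
  · simp [MVT_dir, h1]
  · simp [MVT_dir, h2]

theorem MVT_dir_Pr {z : GI} (hz : z ≠ 0) : Pr (MVT_dir z) := by
  unfold Pr MVT_dir
  exact Int.gcd_ediv_gcd_ediv_gcd (MVT_gcd_pos hz)

theorem MVT_dir_uu {z : GI} (hz : z ≠ 0) : uu (MVT_dir z) = uu z := by
  conv_rhs => rw [MVT_eq z, uu_mul, uu_natCast (MVT_gcd_pos hz).ne', one_mul]

theorem MVT_dir_nm {z : GI} (hz : z ≠ 0) : nm (MVT_dir z) ≤ nm z := by
  conv_rhs => rw [MVT_eq z, nm_mul]
  apply Nat.le_mul_of_pos_left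
  apply nm_pos
  have h := (MVT_gcd_pos hz).ne'
  exact_mod_cast h

theorem MVT_dir_dt {z w : GI} (h : MVT_dir z = MVT_dir w) : dt z w = 0 := by
  have h1 := MVT_eq z
  have h2 := MVT_eq w
  rw [← h] at h2
  set d := MVT_dir z
  rw [h1, h2]
  unfold dt
  simp
  ring

theorem MVT_fk_symm (K : ℕ) (z w : GI) : fk K z w = fk K w z := by
  unfold fk ff
  have h1 : ∑ j ∈ range (K + 1), (uu z * (starRingEnd ℂ) (uu w)) ^ j
      = (starRingEnd ℂ) (∑ j ∈ range (K + 1), (uu w * (starRingEnd ℂ) (uu z)) ^ j) := by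
    rw [map_sum]
    apply Finset.sum_congr rfl
    intro j _
    rw [map_pow, map_mul, Complex.conj_conj]
    ring
  rw [h1, RCLike.norm_conj]

theorem MVT_fk_dir {K : ℕ} {z w : GI} (hz : z ≠ 0) (hw : w ≠ 0) :
    fk K (MVT_dir z) (MVT_dir w) = fk K z w := by
  unfold fk
  rw [MVT_dir_uu hz, MVT_dir_uu hw]

/-- general form, energy = pairs with the same direction -/
theorem mvt : ∃ C : ℝ, 0 < C ∧ ∀ (K : ℕ) (Y : ℝ), 1 ≤ Y → ∀ (ι : Type) (s : Finset ι) (z : ι → GI)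
    (c : ι → ℂ), (∀ i ∈ s, Od (z i) ∧ (nm (z i) : ℝ) ≤ Y) →
    ms K (fun k => ‖∑ i ∈ s, c i * uu (z i) ^ k‖ ^ 2)
      ≤ C * (K + Y) * ∑ i ∈ s, ∑ j ∈ s, if dt (z i) (z j) = 0 then ‖c i‖ * ‖c j‖ else 0 := by
  classical
  refine ⟨20, by norm_num, ?_⟩
  intro K Y hY ι s z c hs
  have hne : ∀ i ∈ s, z i ≠ 0 := fun i hi => Od_ne (hs i hi).1
  let d : ι → GI := fun i => MVT_dir (z i)
  let a : ι → ℝ := fun i => ‖c i‖
  have ha : ∀ i, 0 ≤ a i := fun i => norm_nonneg _
  have h1 : ms K (fun k => ‖∑ i ∈ s, c i * uu (z i) ^ k‖ ^ 2)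
      ≤ ∑ i ∈ s, ∑ j ∈ s, a i * a j * fk K (d i) (d j) := by
    have h2 := ms_expand K s z hne c
    have h3 : ms K (fun k => ‖∑ i ∈ s, c i * uu (z i) ^ k‖ ^ 2)
        ≤ ‖((ms K (fun k => ‖∑ i ∈ s, c i * uu (z i) ^ k‖ ^ 2) : ℝ) : ℂ)‖ := by
      rw [Complex.norm_real]
      exact Real.le_norm_self _
    refine h3.trans ?_
    rw [h2]
    refine (norm_sum_le _ _).trans ?_
    apply Finset.sum_le_sum
    intro i hi
    refine (norm_sum_le _ _).trans ?_
    apply Finset.sum_le_sum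
    intro j hj
    rw [norm_mul, norm_mul, RCLike.norm_conj, Complex.norm_real,
      Real.norm_of_nonneg (fk_nonneg _ _ _)]
    rw [show fk K (d i) (d j) = fk K (z i) (z j) from MVT_fk_dir (hne i hi) (hne j hj)]
  refine h1.trans ?_
  let D : Finset GI := s.image d
  let E : GI → ℝ := fun x => ∑ i ∈ s.filter (fun i => d i = x), a i
  have hmaps : ∀ i ∈ s, d i ∈ D := fun i hi => Finset.mem_image_of_mem d hi
  have h2 : ∑ i ∈ s, ∑ j ∈ s, a i * a j * fk K (d i) (d j)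
      = ∑ x ∈ D, ∑ y ∈ D, E x * E y * fk K x y := by
    rw [← Finset.sum_fiberwise_of_maps_to hmaps]
    apply Finset.sum_congr rfl
    intro x _
    have h3 : ∀ i ∈ s.filter (fun i => d i = x), ∑ j ∈ s, a i * a j * fk K (d i) (d j)
        = ∑ y ∈ D, a i * E y * fk K x y := by
      intro i hi
      rw [← Finset.sum_fiberwise_of_maps_to hmaps]
      apply Finset.sum_congr rfl
      intro y _
      show _ = a i * (∑ j ∈ s.filter (fun j => d j = y), a j) * fk K x y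
      rw [Finset.mul_sum, Finset.sum_mul]
      apply Finset.sum_congr rfl
      intro j hj
      rw [(Finset.mem_filter.mp hi).2, (Finset.mem_filter.mp hj).2]
    rw [Finset.sum_congr rfl h3, Finset.sum_comm]
    apply Finset.sum_congr rfl
    intro y _
    show _ = (∑ i ∈ s.filter (fun i => d i = x), a i) * E y * fk K x y
    rw [Finset.sum_mul, Finset.sum_mul]
  have hD : ∀ x ∈ D, Pr x ∧ (nm x : ℝ) ≤ Y := by
    intro x hx
    obtain ⟨i, hi, rfl⟩ := Finset.mem_image.mp hx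
    refine ⟨MVT_dir_Pr (hne i hi), ?_⟩
    have h3 : (nm (MVT_dir (z i)) : ℝ) ≤ nm (z i) := by exact_mod_cast MVT_dir_nm (hne i hi)
    exact h3.trans (hs i hi).2
  have h3 : ∑ x ∈ D, ∑ y ∈ D, E x * E y * fk K x y ≤ 20 * (K + Y) * ∑ x ∈ D, E x ^ 2 := by
    have h4 : ∑ x ∈ D, ∑ y ∈ D, E x * E y * fk K x y
        ≤ ∑ x ∈ D, ∑ y ∈ D, (E x ^ 2 / 2 * fk K x y + E y ^ 2 / 2 * fk K x y) := by
      apply Finset.sum_le_sum
      intro x _
      apply Finset.sum_le_sum
      intro y _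
      have := fk_nonneg K x y
      nlinarith [mul_nonneg this (sq_nonneg (E x - E y))]
    have h5 : ∑ x ∈ D, ∑ y ∈ D, (E x ^ 2 / 2 * fk K x y + E y ^ 2 / 2 * fk K x y)
        = ∑ x ∈ D, E x ^ 2 * ∑ y ∈ D, fk K x y := by
      have h6 : ∑ x ∈ D, ∑ y ∈ D, E y ^ 2 / 2 * fk K x y
          = ∑ x ∈ D, ∑ y ∈ D, E x ^ 2 / 2 * fk K x y := by
        rw [Finset.sum_comm]
        apply Finset.sum_congr rfl
        intro x _
        apply Finset.sum_congr rfl
        intro y _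
        rw [MVT_fk_symm]
      simp only [Finset.sum_add_distrib]
      rw [h6, ← Finset.sum_add_distrib]
      apply Finset.sum_congr rfl
      intro x _
      rw [← Finset.mul_sum]
      ring
    refine h4.trans ?_
    rw [h5, Finset.mul_sum]
    apply Finset.sum_le_sum
    intro x hx
    have h6 := MVT_row (K := K) hY (hD x hx).1 (hD x hx).2 D hD
    nlinarith [sq_nonneg (E x)]
  have h4 : ∑ x ∈ D, E x ^ 2 = ∑ i ∈ s, ∑ j ∈ s, if d i = d j then a i * a j else 0 := by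
    rw [← Finset.sum_fiberwise_of_maps_to hmaps]
    apply Finset.sum_congr rfl
    intro x _
    have h5 : ∀ i ∈ s.filter (fun i => d i = x), (∑ j ∈ s, if d i = d j then a i * a j else 0)
        = a i * E x := by
      intro i hi
      show _ = a i * ∑ j ∈ s.filter (fun j => d j = x), a j
      rw [← Finset.sum_filter, Finset.mul_sum]
      apply Finset.sum_congr
      · ext j
        rw [Finset.mem_filter, Finset.mem_filter, (Finset.mem_filter.mp hi).2, eq_comm (a := x)]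
      · intro j _
        rfl
    rw [Finset.sum_congr rfl h5, ← Finset.sum_mul, sq]
  have h5 : ∑ x ∈ D, E x ^ 2
      ≤ ∑ i ∈ s, ∑ j ∈ s, if dt (z i) (z j) = 0 then ‖c i‖ * ‖c j‖ else 0 := by
    rw [h4]
    apply Finset.sum_le_sum
    intro i _
    apply Finset.sum_le_sum
    intro j _
    by_cases hij : d i = d j
    · rw [if_pos hij, if_pos (MVT_dir_dt hij)]
    · rw [if_neg hij]
      split_ifs
      · exact mul_nonneg (ha i) (ha j)
      · exact le_rfl
  rw [h2]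
  refine h3.trans ?_
  apply mul_le_mul_of_nonneg_left h5
  positivity

/-- primitive support -/
theorem mvt_prim : ∃ C : ℝ, 0 < C ∧ ∀ (K : ℕ) (Y : ℝ), 1 ≤ Y → ∀ (s : Finset GI) (c : GI → ℂ),
    (∀ z ∈ s, Od z ∧ Pr z ∧ (nm z : ℝ) ≤ Y) →
    ms K (fun k => ‖sp s c k‖ ^ 2) ≤ C * (K + Y) * ∑ z ∈ s, ‖c z‖ ^ 2 := by
  classical
  obtain ⟨C, hC, h⟩ := mvt
  refine ⟨2 * C, by positivity, ?_⟩
  intro K Y hY s c hs
  have h1 := h K Y hY GI s (fun z => z) c (fun z hz => ⟨(hs z hz).1, (hs z hz).2.2⟩)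
  have h2 : ∑ i ∈ s, ∑ j ∈ s, (if dt i j = 0 then ‖c i‖ * ‖c j‖ else 0)
      ≤ 2 * ∑ z ∈ s, ‖c z‖ ^ 2 := by
    have h3 : ∑ i ∈ s, ∑ j ∈ s, (if dt i j = 0 then ‖c i‖ * ‖c j‖ else 0)
        ≤ ∑ i ∈ s, ∑ j ∈ s, ((if dt i j = 0 then ‖c i‖ ^ 2 / 2 else 0)
          + (if dt i j = 0 then ‖c j‖ ^ 2 / 2 else 0)) := by
      apply Finset.sum_le_sum
      intro i _
      apply Finset.sum_le_sum
      intro j _
      split_ifs
      · nlinarith [sq_nonneg (‖c i‖ - ‖c j‖)]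
      · simp
    have h4 : ∀ i ∈ s, (∑ j ∈ s, (if dt i j = 0 then ‖c i‖ ^ 2 / 2 else 0)) ≤ ‖c i‖ ^ 2 := by
      intro i hi
      rw [← Finset.sum_filter, Finset.sum_const, nsmul_eq_mul]
      have hsub : s.filter (fun j => dt i j = 0) ⊆ {i, -i} := by
        intro w hw
        rw [Finset.mem_filter] at hw
        rw [Finset.mem_insert, Finset.mem_singleton]
        exact eq_or_neg_of_dt (hs i hi).2.1 (hs w hw.1).2.1 hw.2
      have h5 : ((s.filter (fun j => dt i j = 0)).card : ℝ) ≤ 2 := by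
        exact_mod_cast (Finset.card_le_card hsub).trans (Finset.card_le_two)
      nlinarith [sq_nonneg (‖c i‖)]
    have h6 : ∑ i ∈ s, ∑ j ∈ s, (if dt i j = 0 then ‖c j‖ ^ 2 / 2 else 0)
        = ∑ i ∈ s, ∑ j ∈ s, (if dt i j = 0 then ‖c i‖ ^ 2 / 2 else 0) := by
      rw [Finset.sum_comm]
      apply Finset.sum_congr rfl
      intro i _
      apply Finset.sum_congr rfl
      intro j _
      have h7 : dt j i = 0 ↔ dt i j = 0 := by
        rw [dt_swap i j, neg_eq_zero]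
      simp only [h7]
    refine h3.trans ?_
    simp only [Finset.sum_add_distrib]
    rw [h6]
    have h7 := Finset.sum_le_sum h4
    linarith
  refine h1.trans ?_
  calc C * (K + Y) * ∑ i ∈ s, ∑ j ∈ s, (if dt i j = 0 then ‖c i‖ * ‖c j‖ else 0)
      ≤ C * (K + Y) * (2 * ∑ z ∈ s, ‖c z‖ ^ 2) := by
        apply mul_le_mul_of_nonneg_left h2
        positivity
    _ = 2 * C * (K + Y) * ∑ z ∈ s, ‖c z‖ ^ 2 := by ring

/-- the sum of the kernel over primitive vectors far from the direction of `z` -/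
theorem kernel_tail : ∃ C : ℝ, 0 < C ∧ ∀ (K : ℕ) (Y : ℝ), 1 ≤ Y → ∀ z : GI, Od z → Pr z →
    Y / 3 ≤ (nm z : ℝ) → (nm z : ℝ) ≤ Y → ∀ D : ℝ, 1 ≤ D →
    open Classical in
    ∑ w ∈ (pan 0 Y).filter (fun w => D < |(dt z w : ℝ)|), fk K z w ≤ C * Y ^ 2 / ((K + 1) * D) := by
  classical
  refine ⟨24, by norm_num, ?_⟩
  intro K Y hY z hzo hz hzY1 hzY D hD
  have hz0 : z ≠ 0 := Pr_ne hz
  have hN : (0 : ℝ) < nm z := by exact_mod_cast nm_pos hz0
  have hK : (0 : ℝ) < (K : ℝ) + 1 := by positivity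
  have hD0 : (0 : ℝ) < D := by linarith
  have hcoef : (0 : ℝ) ≤ Y ^ 2 / ((K : ℝ) + 1) := by positivity
  have h3 := MVT_fiber hz hzY ((pan 0 Y).filter (fun w => D < |(dt z w : ℝ)|))
    (by
      intro w hw
      rw [Finset.mem_filter] at hw
      exact (mem_pan.mp hw.1).2.2.2)
    (fun w => fk K z w)
    (fun n => Y ^ 2 / ((K : ℝ) + 1) * ((n : ℝ) ^ 2)⁻¹)
    (by
      intro n
      positivity)
    (by
      intro w hw
      rw [Finset.mem_filter] at hw
      have hw' := mem_pan.mp hw.1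
      have hw0 : w ≠ 0 := Pr_ne hw'.2.1
      have hdt : dt z w ≠ 0 := by
        intro h0
        have h5 := hw.2
        rw [h0] at h5
        simp at h5
        linarith
      refine (fk_le_dt hz0 hw0 hdt).trans ?_
      rw [MVT_natAbs_sq, ← div_eq_mul_inv, div_div]
      apply div_le_div_of_nonneg_right _ (by positivity)
      rw [sq]
      exact mul_le_mul hzY hw'.2.2.2 (Nat.cast_nonneg _) (by linarith))
    (Ioo ⌊D⌋₊ (⌊Y⌋₊ + 1))
    (by
      intro w hw
      rw [Finset.mem_filter] at hw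
      have hw' := mem_pan.mp hw.1
      have hdt : dt z w ≠ 0 := by
        intro h0
        have h5 := hw.2
        rw [h0] at h5
        simp at h5
        linarith
      rw [Finset.mem_Ioo]
      refine ⟨?_, (Finset.mem_Ioo.mp (MVT_natAbs_mem hzY hw'.2.2.2 (by linarith) hdt)).2⟩
      rw [Nat.floor_lt hD0.le, Nat.cast_natAbs]
      push_cast
      exact hw.2)
  refine h3.trans ?_
  rw [← Finset.mul_sum]
  have h4 := sum_Ioo_inv_sq_le (α := ℝ) ⌊D⌋₊ (⌊Y⌋₊ + 1)
  have h5 : (2 : ℝ) / (⌊D⌋₊ + 1) ≤ 2 / D :=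
    div_le_div_of_nonneg_left (by norm_num) hD0 (Nat.lt_floor_add_one D).le
  have h6 : √(Y / nm z) ≤ 2 := by
    rw [Real.sqrt_le_left (by norm_num)]
    rw [div_le_iff₀ hN]
    linarith
  calc 6 * √(Y / nm z) * (Y ^ 2 / ((K : ℝ) + 1) * ∑ n ∈ Ioo ⌊D⌋₊ (⌊Y⌋₊ + 1), ((n : ℝ) ^ 2)⁻¹)
      ≤ 6 * 2 * (Y ^ 2 / ((K : ℝ) + 1) * (2 / D)) := by
        apply mul_le_mul
        · linarith
        · apply mul_le_mul_of_nonneg_left (h4.trans h5) hcoef
        · apply mul_nonneg hcoef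
          apply Finset.sum_nonneg
          intro n _
          positivity
        · norm_num
    _ = 24 * Y ^ 2 / (((K : ℝ) + 1) * D) := by
        field_simp
        ring

end Pool.Agent.MRS
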