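import Pool.Agent.MRS.LCount

set_option autoImplicit false

/-! Module TKU: Turan-Kubilius.  Expand the square, `card_mult` for `1`, `p`, `p q` (`p ≠ q` in `PP` are coprime primes,
distinct norms): errors `√(b/(N p N q))`, and `∑_{p ∈ P} 1/√(N p) ≤ ∑_{n ≤ Z} 1/√n ≤ 2√Z`. -/

open Finset

namespace Pool.Agent.MRS

theorem tku_sum_inv_sqrt (n : ℕ) : ∑ m ∈ Icc 1 n, 1 / √(m : ℝ) ≤ 2 * √(n : ℝ) := by
  induction n with
  | zero => simp
  | succ n ih =>
    rw [sum_Icc_succ_top (by omega)]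
    have h0 : (0 : ℝ) < √((n + 1 : ℕ) : ℝ) := Real.sqrt_pos.2 (by positivity)
    have h1 : √((n + 1 : ℕ) : ℝ) ^ 2 = n + 1 := by
      rw [Real.sq_sqrt (by positivity)]; push_cast; ring
    have h2 : √(n : ℝ) ^ 2 = n := Real.sq_sqrt (by positivity)
    have h3 : 0 ≤ √(n : ℝ) := Real.sqrt_nonneg _
    have h4 : 1 / √((n + 1 : ℕ) : ℝ) ≤ 2 * √((n + 1 : ℕ) : ℝ) - 2 * √(n : ℝ) := by
      rw [div_le_iff₀ h0]
      nlinarith [sq_nonneg (√((n + 1 : ℕ) : ℝ) - √(n : ℝ))]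
    linarith

theorem tku_inv_sqrt {P : Finset GI} (hP : ∀ p ∈ P, PP p) {Z : ℝ} (hZ1 : 1 ≤ Z)
    (hZ : ∀ p ∈ P, (nm p : ℝ) ≤ Z) : ∑ p ∈ P, 1 / √(nm p : ℝ) ≤ 2 * √Z := by
  have hinj : Set.InjOn nm (P : Set GI) := by
    intro p hp q hq h
    exact PP_inj (hP p hp) (hP q hq) h
  have h1 : ∑ p ∈ P, 1 / √(nm p : ℝ) = ∑ n ∈ P.image nm, 1 / √(n : ℝ) := by
    rw [sum_image hinj]
  have h2 : P.image nm ⊆ Icc 1 ⌊Z⌋₊ := by
    intro n hn
    rw [mem_image] at hn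
    obtain ⟨p, hp, rfl⟩ := hn
    rw [mem_Icc]
    refine ⟨by have := PP_three_le (hP p hp); omega, ?_⟩
    exact Nat.le_floor (hZ p hp)
  rw [h1]
  refine (sum_le_sum_of_subset_of_nonneg h2 (fun _ _ _ => by positivity)).trans ?_
  refine (tku_sum_inv_sqrt _).trans ?_
  have : √(⌊Z⌋₊ : ℝ) ≤ √Z := Real.sqrt_le_sqrt (Nat.floor_le (by linarith))
  linarith

theorem tku_om_eq (P : Finset GI) (z : GI) :
    open Classical in (om P z : ℝ) = ∑ p ∈ P, if p ∣ z then (1 : ℝ) else 0 := by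
  classical
  unfold om
  rw [Finset.sum_boole]

theorem tku_rs_nonneg (P : Finset GI) : 0 ≤ rs P := sum_nonneg (fun _ _ => by positivity)

theorem tku_rs_le {P : Finset GI} (hP : ∀ p ∈ P, PP p) {Z : ℝ} (hZ1 : 1 ≤ Z)
    (hZ : ∀ p ∈ P, (nm p : ℝ) ≤ Z) : rs P ≤ 2 * √Z := by
  refine le_trans ?_ (tku_inv_sqrt hP hZ1 hZ)
  unfold rs
  apply sum_le_sum
  intro p hp
  have h1 : (1 : ℝ) ≤ nm p := by
    have := PP_three_le (hP p hp)
    exact_mod_cast (by omega : 1 ≤ nm p)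
  apply one_div_le_one_div_of_le (Real.sqrt_pos.2 (by linarith))
  rw [Real.sqrt_le_left (by linarith)]
  nlinarith

theorem tku_dvd_mul {p q : GI} (hp : PP p) (hq : PP q) (hpq : p ≠ q) (z : GI) :
    (p ∣ z ∧ q ∣ z) ↔ p * q ∣ z := by
  constructor
  · rintro ⟨⟨w, rfl⟩, h2⟩
    rcases (PP_prime hq).dvd_or_dvd h2 with h | h
    · exact absurd (PP_dvd_PP hq hp h).symm hpq
    · exact mul_dvd_mul_left p h
  · intro h
    exact ⟨(dvd_mul_right _ _).trans h, (dvd_mul_left _ _).trans h⟩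

theorem tk : ∃ C : ℝ, 0 < C ∧ ∀ P : Finset GI, (∀ p ∈ P, PP p) → ∀ Z : ℝ, 1 ≤ Z →
    (∀ p ∈ P, (nm p : ℝ) ≤ Z) → ∀ a b : ℝ, 0 ≤ a → a ≤ b →
    ∑ z ∈ ann a b, ((om P z : ℝ) - rs P) ^ 2 ≤ C * ((b - a) * rs P + √b * Z) := by
  classical
  obtain ⟨K0, hK0, hann⟩ := card_ann
  obtain ⟨K1, hK1, hmul⟩ := card_mult
  set K : ℝ := K0 + K1 with hK
  have hKpos : 0 < K := by positivity
  refine ⟨Real.pi / 4 + 18 * K, by positivity, ?_⟩
  intro P hP Z hZ1 hZ a b ha hab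
  set c0 : ℝ := Real.pi / 4 with hc0
  have hc0pos : 0 < c0 := by positivity
  set R : ℝ := rs P with hR
  have hR0 : 0 ≤ R := tku_rs_nonneg P
  have hR2 : R ≤ 2 * √Z := tku_rs_le hP hZ1 hZ
  set S : ℝ := ∑ p ∈ P, 1 / √(nm p : ℝ) with hS
  have hS0 : 0 ≤ S := sum_nonneg (fun _ _ => by positivity)
  have hS2 : S ≤ 2 * √Z := tku_inv_sqrt hP hZ1 hZ
  have hb0 : 0 ≤ √b := Real.sqrt_nonneg b
  have hZs : √Z ^ 2 = Z := Real.sq_sqrt (by linarith)
  have hZ0 : 1 ≤ √Z := by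
    rw [Real.one_le_sqrt]; exact hZ1
  have hcnt : ∀ d : GI, Od d → |(∑ z ∈ ann a b, if d ∣ z then (1 : ℝ) else 0) - c0 * (b - a) / nm d|
      ≤ K * √b / √(nm d : ℝ) := by
    intro d hd
    have h := hmul a b ha hab d hd
    rw [Finset.sum_boole]
    refine h.trans ?_
    rw [Real.sqrt_div' _ (Nat.cast_nonneg _), mul_div_assoc]
    have : 0 ≤ √b / √(nm d : ℝ) := by positivity
    nlinarith
  have hE0 : |((ann a b).card : ℝ) - c0 * (b - a)| ≤ K * √b := by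
    refine (hann a b ha hab).trans ?_
    nlinarith
  -- first moment
  have hfm : |(∑ z ∈ ann a b, (om P z : ℝ)) - c0 * (b - a) * R| ≤ K * √b * S := by
    simp_rw [tku_om_eq]
    rw [sum_comm]
    have e1 : c0 * (b - a) * R = ∑ p ∈ P, c0 * (b - a) / nm p := by
      rw [hR]; unfold rs; rw [mul_sum]
      apply sum_congr rfl
      intro p _
      ring
    have e2 : K * √b * S = ∑ p ∈ P, K * √b / √(nm p : ℝ) := by
      rw [hS, mul_sum]
      apply sum_congr rfl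
      intro p _
      ring
    rw [e1, e2, ← sum_sub_distrib]
    refine (abs_sum_le_sum_abs _ _).trans ?_
    apply sum_le_sum
    intro p hp
    exact hcnt p (hP p hp).1
  -- second moment
  have hsm : (∑ z ∈ ann a b, (om P z : ℝ) ^ 2) ≤
      c0 * (b - a) * R ^ 2 + c0 * (b - a) * R + K * √b * S ^ 2 + K * √b * S := by
    have e1 : ∀ z, (om P z : ℝ) ^ 2 = ∑ p ∈ P, ∑ q ∈ P, if p ∣ z ∧ q ∣ z then (1 : ℝ) else 0 := by
      intro z
      rw [tku_om_eq, sq, sum_mul_sum]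
      apply sum_congr rfl
      intro p _
      apply sum_congr rfl
      intro q _
      by_cases h3 : p ∣ z <;> by_cases h4 : q ∣ z <;> simp [h3, h4]
    simp_rw [e1]
    rw [sum_comm]
    have hba : 0 ≤ b - a := by linarith
    have e2 : ∀ p ∈ P, ∑ z ∈ ann a b, ∑ q ∈ P, (if p ∣ z ∧ q ∣ z then (1 : ℝ) else 0) ≤
        c0 * (b - a) * (1 / nm p) * R + c0 * (b - a) / nm p + K * √b / √(nm p : ℝ) * S +
          K * √b / √(nm p : ℝ) := by
      intro p hp
      rw [sum_comm]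
      have hp0 : (0 : ℝ) < nm p := by
        have := PP_three_le (hP p hp)
        exact_mod_cast (by omega : 0 < nm p)
      have e3 : ∀ q ∈ P, ∑ z ∈ ann a b, (if p ∣ z ∧ q ∣ z then (1 : ℝ) else 0) ≤
          c0 * (b - a) * (1 / nm p) * (1 / nm q) +
            (if q = p then (c0 * (b - a) / nm p + K * √b / √(nm p : ℝ)) else 0) +
            K * √b / √(nm p : ℝ) * (1 / √(nm q : ℝ)) := by
        intro q hq
        have hq0 : (0 : ℝ) < nm q := by
          have := PP_three_le (hP q hq)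
          exact_mod_cast (by omega : 0 < nm q)
        by_cases hpq : q = p
        · subst hpq
          rw [if_pos rfl]
          have h5 := (abs_le.1 (hcnt q (hP q hq).1)).2
          simp only [and_self]
          have : 0 ≤ c0 * (b - a) * (1 / nm q) * (1 / nm q) := by positivity
          have : 0 ≤ K * √b / √(nm q : ℝ) * (1 / √(nm q : ℝ)) := by positivity
          linarith
        · rw [if_neg hpq, add_zero]
          have h6 : ∀ z : GI, (p ∣ z ∧ q ∣ z) ↔ p * q ∣ z :=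
            tku_dvd_mul (hP p hp) (hP q hq) (Ne.symm hpq)
          simp_rw [h6]
          have h5 := (abs_le.1 (hcnt (p * q) (Od_mul (hP p hp).1 (hP q hq).1))).2
          have h9 : c0 * (b - a) / ((nm (p * q) : ℕ) : ℝ) = c0 * (b - a) * (1 / nm p) * (1 / nm q) := by
            rw [nm_mul]
            push_cast
            field_simp
          have h10 : K * √b / √((nm (p * q) : ℕ) : ℝ) = K * √b / √(nm p : ℝ) * (1 / √(nm q : ℝ)) := by
            rw [nm_mul]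
            push_cast
            rw [Real.sqrt_mul (by positivity)]
            field_simp
          rw [h9, h10] at h5
          linarith
      refine (sum_le_sum e3).trans ?_
      rw [sum_add_distrib, sum_add_distrib, ← mul_sum, sum_ite_eq', if_pos hp, ← mul_sum]
      apply le_of_eq
      rw [hR, hS]
      unfold rs
      ring
    refine (sum_le_sum e2).trans ?_
    rw [sum_add_distrib, sum_add_distrib, sum_add_distrib, ← sum_mul, ← sum_mul, ← mul_sum]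
    have e4 : ∑ p ∈ P, c0 * (b - a) / (nm p : ℝ) = c0 * (b - a) * R := by
      rw [hR]; unfold rs
      rw [mul_sum]
      apply sum_congr rfl
      intro p _
      ring
    have e6 : ∑ p ∈ P, K * √b / √(nm p : ℝ) = K * √b * S := by
      rw [hS, mul_sum]
      apply sum_congr rfl
      intro p _
      ring
    rw [e4, e6]
    have e5 : c0 * (b - a) * (∑ p ∈ P, 1 / (nm p : ℝ)) * R = c0 * (b - a) * R ^ 2 := by
      rw [hR]; unfold rs; ring
    rw [e5]
    apply le_of_eq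
    ring
  have h3 : ∑ z ∈ ann a b, ((om P z : ℝ) - R) ^ 2 =
      ∑ z ∈ ann a b, (om P z : ℝ) ^ 2 - 2 * R * ∑ z ∈ ann a b, (om P z : ℝ) +
        (ann a b).card * R ^ 2 := by
    have : ∀ z : GI, ((om P z : ℝ) - R) ^ 2 = (om P z : ℝ) ^ 2 - 2 * R * (om P z : ℝ) + R ^ 2 := by
      intro z; ring
    simp_rw [this]
    rw [sum_add_distrib, sum_sub_distrib, ← mul_sum, sum_const, nsmul_eq_mul]
  rw [h3]
  have hba : 0 ≤ b - a := by linarith
  have i1 := (abs_le.1 hfm).1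
  have i2 := (abs_le.1 hE0).2
  have j1 : 2 * R * (c0 * (b - a) * R - K * √b * S) ≤ 2 * R * ∑ z ∈ ann a b, (om P z : ℝ) :=
    mul_le_mul_of_nonneg_left (by linarith) (by positivity)
  have j2 : (ann a b).card * R ^ 2 ≤ (c0 * (b - a) + K * √b) * R ^ 2 :=
    mul_le_mul_of_nonneg_right (by linarith) (by positivity)
  have hKb : 0 ≤ K * √b := by positivity
  have hZ00 : 0 ≤ √Z := Real.sqrt_nonneg Z
  have t1 : S ^ 2 ≤ 4 * Z := by
    have : S ^ 2 ≤ (2 * √Z) ^ 2 := pow_le_pow_left₀ hS0 hS2 2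
    rw [mul_pow, hZs] at this
    linarith
  have t2 : S ≤ 2 * Z := by
    have : √Z ≤ √Z ^ 2 := by rw [sq]; exact le_mul_of_one_le_left hZ00 hZ0
    linarith
  have t3 : R * S ≤ 4 * Z := by
    have : R * S ≤ (2 * √Z) * (2 * √Z) := mul_le_mul hR2 hS2 hS0 (by positivity)
    have h8 : (2 * √Z) * (2 * √Z) = 4 * √Z ^ 2 := by ring
    rw [h8, hZs] at this
    exact this
  have t4 : R ^ 2 ≤ 4 * Z := by
    have : R ^ 2 ≤ (2 * √Z) ^ 2 := pow_le_pow_left₀ hR0 hR2 2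
    rw [mul_pow, hZs] at this
    linarith
  have k1 := mul_le_mul_of_nonneg_left t1 hKb
  have k2 := mul_le_mul_of_nonneg_left t2 hKb
  have k3 := mul_le_mul_of_nonneg_left t3 hKb
  have k4 := mul_le_mul_of_nonneg_left t4 hKb
  have k6 : 0 ≤ c0 * (√b * Z) := by positivity
  have k7 : 0 ≤ K * ((b - a) * R) := by positivity
  have fin1 : (∑ z ∈ ann a b, (om P z : ℝ) ^ 2) - 2 * R * ∑ z ∈ ann a b, (om P z : ℝ) +
      (ann a b).card * R ^ 2 ≤ c0 * ((b - a) * R) + 18 * (K * √b * Z) := by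
    have g1 : 2 * R * (c0 * (b - a) * R - K * √b * S) = 2 * (c0 * (b - a) * R ^ 2) - 2 * (K * √b * (R * S)) := by ring
    rw [g1] at j1
    have g2 : (c0 * (b - a) + K * √b) * R ^ 2 = c0 * (b - a) * R ^ 2 + K * √b * R ^ 2 := by ring
    rw [g2] at j2
    have g3 : K * √b * (4 * Z) = 4 * (K * √b * Z) := by ring
    have g4 : K * √b * (2 * Z) = 2 * (K * √b * Z) := by ring
    rw [g3] at k1 k3 k4
    rw [g4] at k2
    have g5 : c0 * (b - a) * R = c0 * ((b - a) * R) := by ring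
    rw [g5] at hsm
    linarith
  refine fin1.trans ?_
  have : (c0 + 18 * K) * ((b - a) * R + √b * Z) = c0 * ((b - a) * R) + 18 * (K * √b * Z) +
      (c0 * (√b * Z) + 18 * (K * ((b - a) * R))) := by ring
  rw [this]
  linarith

theorem tk_sq : ∃ C : ℝ, 0 < C ∧ ∀ P : Finset GI, (∀ p ∈ P, PP p) → ∀ Z : ℝ, 1 ≤ Z →
    (∀ p ∈ P, (nm p : ℝ) ≤ Z) → ∀ a b : ℝ, 0 ≤ a → a ≤ b →
    ∑ z ∈ ann a b, (om P z : ℝ) ^ 2 ≤ C * ((b - a) * (rs P ^ 2 + rs P) + √b * Z) := by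
  obtain ⟨C, hC, htk⟩ := tk
  obtain ⟨K0, hK0, hann⟩ := card_ann
  refine ⟨2 * C + 2 * (Real.pi / 4) + 8 * K0, by positivity, ?_⟩
  intro P hP Z hZ1 hZ a b ha hab
  have h := htk P hP Z hZ1 hZ a b ha hab
  have h1 : ∀ z ∈ ann a b, (om P z : ℝ) ^ 2 ≤ 2 * ((om P z : ℝ) - rs P) ^ 2 + 2 * rs P ^ 2 := by
    intro z _
    nlinarith [sq_nonneg ((om P z : ℝ) - 2 * rs P)]
  have h2 := sum_le_sum h1
  rw [sum_add_distrib, ← mul_sum, sum_const, nsmul_eq_mul] at h2
  have h3 := (abs_le.1 (hann a b ha hab)).2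
  have hR0 : 0 ≤ rs P := tku_rs_nonneg P
  have hR2 : rs P ≤ 2 * √Z := tku_rs_le hP hZ1 hZ
  have hZs : √Z ^ 2 = Z := Real.sq_sqrt (by linarith)
  have hb0 : 0 ≤ √b := Real.sqrt_nonneg b
  have hba : 0 ≤ b - a := by linarith
  have h4 : ((ann a b).card : ℝ) * (2 * rs P ^ 2) ≤ (Real.pi / 4 * (b - a) + K0 * √b) * (2 * rs P ^ 2) :=
    mul_le_mul_of_nonneg_right (by linarith) (by positivity)
  have h5 : rs P ^ 2 ≤ 4 * Z := by nlinarith
  have h6 : K0 * √b * (2 * rs P ^ 2) ≤ K0 * √b * (8 * Z) :=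
    mul_le_mul_of_nonneg_left (by linarith) (by positivity)
  have k5 : 0 ≤ (b - a) * rs P := by positivity
  have k6 : 0 ≤ √b * Z := by positivity
  have k7 : 0 ≤ (b - a) * rs P ^ 2 := by positivity
  have m1 : 0 ≤ C * ((b - a) * rs P ^ 2) := by positivity
  have m2 : 0 ≤ C * (√b * Z) := by positivity
  have m3 : 0 ≤ Real.pi / 4 * ((b - a) * rs P) := by positivity
  have m4 : 0 ≤ Real.pi / 4 * (√b * Z) := by positivity
  have m5 : 0 ≤ K0 * ((b - a) * (rs P ^ 2 + rs P)) := by positivity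
  have m6 : 0 ≤ C * ((b - a) * rs P) := by positivity
  nlinarith

end Pool.Agent.MRS
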