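import Pool.Agent.MRS.Typ
import Pool.Agent.MRS.DetCount

set_option autoImplicit false

/-! Module VAL: from edges to values. -/

open Finset

namespace Pool.Agent.MRS

/-- the sup norm -/
def VAL_mx (z : GI) : ℕ := max z.re.natAbs z.im.natAbs

theorem VAL_mx_sq_le (z : GI) : ((VAL_mx z : ℕ) : ℝ) ^ 2 ≤ (nm z : ℝ) := by
  have h : VAL_mx z ^ 2 ≤ nm z := by
    have h1 : (nm z : ℤ) = z.re ^ 2 + z.im ^ 2 := nm_int z
    have h2 : ((VAL_mx z : ℕ) : ℤ) ^ 2 ≤ (nm z : ℤ) := by
      rw [h1, VAL_mx]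
      rcases le_total z.re.natAbs z.im.natAbs with h | h
      · rw [max_eq_right h, Int.natCast_natAbs, sq_abs]
        nlinarith [sq_nonneg z.re]
      · rw [max_eq_left h, Int.natCast_natAbs, sq_abs]
        nlinarith [sq_nonneg z.im]
    exact_mod_cast h2
  exact_mod_cast h

theorem VAL_mx_pos {z : GI} (hz : z ≠ 0) : 1 ≤ VAL_mx z := by
  by_contra hc
  have h0 : VAL_mx z = 0 := by omega
  have h1 : z.re.natAbs = 0 := by
    have := le_max_left z.re.natAbs z.im.natAbs
    rw [VAL_mx] at h0; omega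
  have h2 : z.im.natAbs = 0 := by
    have := le_max_right z.re.natAbs z.im.natAbs
    rw [VAL_mx] at h0; omega
  apply hz
  apply Zsqrtd.ext
  · simpa using h1
  · simpa using h2

theorem VAL_card_mx (Y : ℝ) (m : ℕ) (hm : 1 ≤ m) :
    (((bl Y).filter (fun z => VAL_mx z = m)).card : ℝ) ≤ 12 * m := by
  classical
  have hsub : ((bl Y).filter (fun z => VAL_mx z = m)) ⊆
      ((({-(m : ℤ), (m : ℤ)} : Finset ℤ) ×ˢ (Icc (-(m : ℤ)) (m : ℤ))) ∪
        ((Icc (-(m : ℤ)) (m : ℤ)) ×ˢ ({-(m : ℤ), (m : ℤ)} : Finset ℤ))).image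
        (fun p : ℤ × ℤ => (⟨p.1, p.2⟩ : GI)) := by
    intro z hz
    rw [Finset.mem_filter] at hz
    obtain ⟨-, hz⟩ := hz
    rw [VAL_mx] at hz
    rw [Finset.mem_image]
    refine ⟨(z.re, z.im), ?_, rfl⟩
    rw [Finset.mem_union, Finset.mem_product, Finset.mem_product, Finset.mem_insert,
      Finset.mem_singleton, Finset.mem_insert, Finset.mem_singleton, Finset.mem_Icc,
      Finset.mem_Icc]
    dsimp only
    have h1 := le_max_left z.re.natAbs z.im.natAbs
    have h2 := le_max_right z.re.natAbs z.im.natAbs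
    rcases le_total z.re.natAbs z.im.natAbs with h | h
    · rw [max_eq_right h] at hz
      right
      omega
    · rw [max_eq_left h] at hz
      left
      omega
  have h1 := (Finset.card_le_card hsub).trans (Finset.card_image_le.trans
    (Finset.card_union_le _ _))
  rw [Finset.card_product, Finset.card_product] at h1
  have h2 : ({-(m : ℤ), (m : ℤ)} : Finset ℤ).card ≤ 2 := Finset.card_le_two
  have h3 : (Icc (-(m : ℤ)) (m : ℤ)).card = 2 * m + 1 := by
    rw [Int.card_Icc]; omega
  rw [h3] at h1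
  have h4 : ((bl Y).filter (fun z => VAL_mx z = m)).card ≤ 12 * m := by
    calc _ ≤ _ := h1
      _ ≤ 2 * (2 * m + 1) + (2 * m + 1) * 2 := by gcongr
      _ ≤ 12 * m := by omega
  exact_mod_cast h4

theorem VAL_sum_bl_le {Y : ℝ} (f : GI → ℝ) (g : ℕ → ℝ) (hg : ∀ m, 0 ≤ g m)
    (hf : ∀ z ∈ bl Y, f z ≤ g (VAL_mx z)) :
    ∑ z ∈ bl Y, f z ≤ ∑ m ∈ Icc 1 ⌊√Y⌋₊, 12 * (m : ℝ) * g m := by
  classical
  have hmaps : ∀ z ∈ bl Y, VAL_mx z ∈ Icc 1 ⌊√Y⌋₊ := by
    intro z hz
    rw [mem_bl] at hz
    rw [Finset.mem_Icc]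
    refine ⟨VAL_mx_pos hz.1, ?_⟩
    apply Nat.le_floor
    apply Real.le_sqrt_of_sq_le
    exact (VAL_mx_sq_le z).trans hz.2
  rw [← Finset.sum_fiberwise_of_maps_to hmaps]
  apply Finset.sum_le_sum
  intro m hm
  rw [Finset.mem_Icc] at hm
  calc ∑ z ∈ (bl Y).filter (fun z => VAL_mx z = m), f z
      ≤ ∑ z ∈ (bl Y).filter (fun z => VAL_mx z = m), g m := by
        apply Finset.sum_le_sum
        intro z hz
        rw [Finset.mem_filter] at hz
        have := hf z hz.1
        rwa [hz.2] at this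
    _ = (((bl Y).filter (fun z => VAL_mx z = m)).card : ℝ) * g m := by
        rw [Finset.sum_const, nsmul_eq_mul]
    _ ≤ 12 * (m : ℝ) * g m := mul_le_mul_of_nonneg_right (VAL_card_mx Y m hm.1) (hg m)

theorem VAL_sum_sqrt_le {T : ℝ} (hT : 0 ≤ T) : ∑ z ∈ bl T, √(T / nm z) ≤ 12 * T := by
  have h1 := VAL_sum_bl_le (Y := T) (fun z => √(T / nm z)) (fun m => √T / m) (fun m => by positivity) (by
    intro z hz
    rw [mem_bl] at hz
    have h2 := VAL_mx_sq_le z
    have h3 : (1 : ℝ) ≤ VAL_mx z := by exact_mod_cast VAL_mx_pos hz.1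
    rw [Real.sqrt_div hT]
    apply div_le_div_of_nonneg_left (Real.sqrt_nonneg _) (by linarith)
    exact Real.le_sqrt_of_sq_le h2)
  refine h1.trans ?_
  have h4 : ∑ m ∈ Icc 1 ⌊√T⌋₊, 12 * (m : ℝ) * (√T / m) = ∑ m ∈ Icc 1 ⌊√T⌋₊, 12 * √T := by
    apply Finset.sum_congr rfl
    intro m hm
    rw [Finset.mem_Icc] at hm
    have : (m : ℝ) ≠ 0 := by
      have : (1 : ℝ) ≤ m := by exact_mod_cast hm.1
      linarith
    field_simp
  rw [h4, Finset.sum_const, Nat.card_Icc, nsmul_eq_mul, Nat.add_sub_cancel]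
  have h5 : ((⌊√T⌋₊ : ℕ) : ℝ) ≤ √T := Nat.floor_le (Real.sqrt_nonneg _)
  have h6 : √T * √T = T := Real.mul_self_sqrt hT
  nlinarith [Real.sqrt_nonneg T]

theorem VAL_Pr_left {x y : GI} (h : (dt x y).natAbs = 1) : Pr x := by
  have h1 : (Int.gcd x.re x.im : ℤ) ∣ dt x y := by
    have a : (Int.gcd x.re x.im : ℤ) ∣ x.re := Int.gcd_dvd_left ..
    have b : (Int.gcd x.re x.im : ℤ) ∣ x.im := Int.gcd_dvd_right ..
    exact dvd_sub (a.mul_right _) (b.mul_right _)
  have h2 : Int.gcd x.re x.im ∣ (dt x y).natAbs := Int.natCast_dvd.1 h1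
  rw [h] at h2
  exact Nat.dvd_one.1 h2

/-- the fibre over the first vertex -/
theorem VAL_fibre (N : ℝ) (B : Finset (GI × GI)) (hB : ∀ e ∈ B, e.1 ∈ bl N ∧ e.2 ∈ bl N ∧
    (dt e.1 e.2).natAbs = 1) (x : GI) (hx : x ∈ bl N) :
    open Classical in
    ((B.filter (fun e => e.1 = x)).card : ℝ) ≤ 6 * √(N / nm x) := by
  classical
  by_cases hne : (B.filter (fun e => e.1 = x)).Nonempty
  · obtain ⟨e0, he0⟩ := hne
    rw [Finset.mem_filter] at he0
    have hpr : Pr x := by
      have := VAL_Pr_left (hB e0 he0.1).2.2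
      rwa [he0.2] at this
    have hY : (nm x : ℝ) ≤ N := (mem_bl.1 hx).2
    have hd1 := det_count hpr hY 1 ((bl N).filter (fun w => dt x w = 1)) (by
      intro w hw
      rw [Finset.mem_filter] at hw
      exact ⟨(mem_bl.1 hw.1).2, hw.2⟩)
    have hd2 := det_count hpr hY (-1) ((bl N).filter (fun w => dt x w = -1)) (by
      intro w hw
      rw [Finset.mem_filter] at hw
      exact ⟨(mem_bl.1 hw.1).2, hw.2⟩)
    have hsub : (B.filter (fun e => e.1 = x)) ⊆
        (((bl N).filter (fun w => dt x w = 1)) ∪ ((bl N).filter (fun w => dt x w = -1))).image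
          (fun w => ((x, w) : GI × GI)) := by
      intro e he
      rw [Finset.mem_filter] at he
      rw [Finset.mem_image]
      refine ⟨e.2, ?_, ?_⟩
      · obtain ⟨-, h2, h3⟩ := hB e he.1
        rw [he.2] at h3
        rcases Int.natAbs_eq (dt x e.2) with h | h
        · rw [h3] at h
          exact Finset.mem_union_left _ (Finset.mem_filter.2 ⟨h2, by simpa using h⟩)
        · rw [h3] at h
          exact Finset.mem_union_right _ (Finset.mem_filter.2 ⟨h2, by simpa using h⟩)
      · rw [← he.2]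
    have hc := (Finset.card_le_card hsub).trans
      (Finset.card_image_le.trans (Finset.card_union_le _ _))
    have hc' : ((B.filter (fun e => e.1 = x)).card : ℝ) ≤
        (((bl N).filter (fun w => dt x w = 1)).card : ℝ) +
          (((bl N).filter (fun w => dt x w = -1)).card : ℝ) := by exact_mod_cast hc
    linarith
  · rw [Finset.not_nonempty_iff_eq_empty] at hne
    rw [hne]
    simp only [Finset.card_empty, Nat.cast_zero]
    positivity

/-- number of edges in terms of the number of values -/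
theorem VAL_few (N : ℝ) (_ : 1 ≤ N) (T : ℕ) (B : Finset (GI × GI)) (A : Finset ℕ)
    (hB : ∀ e ∈ B, e.1 ∈ bl N ∧ e.2 ∈ bl N ∧
    (dt e.1 e.2).natAbs = 1 ∧ (dv e.1).card ≤ T ∧ (dv e.2).card ≤ T)
    (hA : ∀ e ∈ B, ∀ n : ℕ, nm e.1 * nm e.2 = n ^ 2 + 1 → n = 0 ∨ n ∈ A) :
    B.card ≤ 4 * T ^ 2 * (A.card + 1) := by
  classical
  have hval : ∀ e ∈ B, nm e.1 * nm e.2 = ((star e.1 * e.2).re.natAbs) ^ 2 + 1 := by
    intro e he
    obtain ⟨n, h1, h2⟩ := edge_value (hB e he).2.2.1
    have h3 : n = (star e.1 * e.2).re.natAbs := by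
      rw [Int.abs_eq_natAbs] at h2
      exact_mod_cast h2
    rw [h1, h3]
  have h1 := Finset.card_le_mul_card_image (f := fun e : GI × GI => (star e.1 * e.2).re.natAbs)
    B (4 * T ^ 2) (by
      intro n _
      apply edge_mult n T
      intro e he
      rw [Finset.mem_filter] at he
      obtain ⟨-, -, h3, h4, h5⟩ := hB e he.1
      refine ⟨h3, ?_, h4, h5⟩
      rw [hval e he.1, he.2])
  have h2 : B.image (fun e : GI × GI => (star e.1 * e.2).re.natAbs) ⊆ insert 0 A := by
    intro n hn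
    rw [Finset.mem_image] at hn
    obtain ⟨e, he, rfl⟩ := hn
    rw [Finset.mem_insert]
    exact hA e he _ (hval e he)
  have h3 := (Finset.card_le_card h2).trans (Finset.card_insert_le 0 A)
  exact h1.trans (Nat.mul_le_mul_left _ h3)

theorem VAL_im (x y : GI) : (star x * y).im = dt x y := by
  rw [Zsqrtd.im_mul, dt]
  simp only [Zsqrtd.re_star, Zsqrtd.im_star]
  ring

/-- explicit Bezout identity -/
theorem VAL_bezout (x y : GI) :
    (y.im : GI) * x - (x.im : GI) * y = ((dt x y : ℤ) : GI) := by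
  apply Zsqrtd.ext
  · simp [dt]; ring
  · simp; ring

theorem VAL_dvd {x y x' y' : GI} (h : (dt x y).natAbs = 1) (hn : nm x = nm x')
    (hw : star x * y = star x' * y') : star x' ∣ star x := by
  have h0 : star x * (y.im : GI) * x - star x * (x.im : GI) * y = star x * ((dt x y : ℤ) : GI) := by
    rw [← VAL_bezout]; ring
  have h1 : star x' ∣ star x * (y.im : GI) * x := by
    have : star x * (y.im : GI) * x = star x' * (x' * (y.im : GI)) := by
      have e1 := BAS_mul_star x
      have e2 := BAS_mul_star x'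
      rw [hn] at e1
      calc star x * (y.im : GI) * x = (x * star x) * (y.im : GI) := by ring
        _ = (x' * star x') * (y.im : GI) := by rw [e1, e2]
        _ = _ := by ring
    rw [this]
    exact dvd_mul_right _ _
  have h2 : star x' ∣ star x * (x.im : GI) * y := by
    have : star x * (x.im : GI) * y = star x' * (y' * (x.im : GI)) := by
      calc star x * (x.im : GI) * y = (star x * y) * (x.im : GI) := by ring
        _ = (star x' * y') * (x.im : GI) := by rw [hw]
        _ = _ := by ring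
    rw [this]
    exact dvd_mul_right _ _
  have h3 : star x' ∣ star x * ((dt x y : ℤ) : GI) := by
    rw [← h0]
    exact dvd_sub h1 h2
  rcases Int.natAbs_eq (dt x y) with h4 | h4
  · rw [h4, h] at h3
    simpa using h3
  · rw [h4, h] at h3
    simpa using h3

theorem VAL_fib (m n : ℕ) (F : Finset (GI × GI))
    (hF : ∀ e ∈ F, (dt e.1 e.2).natAbs = 1 ∧ nm e.1 = m ∧ (star e.1 * e.2).re.natAbs = n) :
    F.card ≤ 64 := by
  classical
  set Z : Finset GI := {⟨(n : ℤ), 1⟩, ⟨(n : ℤ), -1⟩, ⟨-(n : ℤ), 1⟩, ⟨-(n : ℤ), -1⟩} with hZ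
  have hZc : Z.card ≤ 4 := Finset.card_le_four
  have hmaps : ∀ e ∈ F, star e.1 * e.2 ∈ Z := by
    intro e he
    obtain ⟨h1, -, h2⟩ := hF e he
    have h3 : (star e.1 * e.2).re = (n : ℤ) ∨ (star e.1 * e.2).re = -(n : ℤ) := by omega
    have h4 : (star e.1 * e.2).im = 1 ∨ (star e.1 * e.2).im = -1 := by
      rw [VAL_im]
      omega
    rw [hZ, Finset.mem_insert, Finset.mem_insert, Finset.mem_insert, Finset.mem_singleton]
    simp only [Zsqrtd.ext_iff]
    tauto
  have hfib : ∀ b ∈ Z, (F.filter (fun e => star e.1 * e.2 = b)).card ≤ 4 := by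
    intro b _
    rcases (F.filter (fun e => star e.1 * e.2 = b)).eq_empty_or_nonempty with hE | ⟨e0, he0⟩
    · rw [hE]; simp
    · rw [Finset.mem_filter] at he0
      obtain ⟨h1, h2, -⟩ := hF e0 he0.1
      have hx0 : ∀ x y : GI, (dt x y).natAbs = 1 → x ≠ 0 := by
        rintro x y h rfl
        simp [dt] at h
      set U : Finset GI := {1, -1, ⟨0, 1⟩, ⟨0, -1⟩} with hU
      have hUc : U.card ≤ 4 := Finset.card_le_four
      have hle : (F.filter (fun e => star e.1 * e.2 = b)).card ≤
          (U.image (fun u => star e0.1 * u)).card := by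
        apply Finset.card_le_card_of_injOn (fun e => star e.1)
        · intro e he
          have he' : e ∈ F.filter (fun e => star e.1 * e.2 = b) := he
          rw [Finset.mem_filter] at he'
          obtain ⟨g1, g2, -⟩ := hF e he'.1
          have hw : star e.1 * e.2 = star e0.1 * e0.2 := by rw [he'.2, he0.2]
          have hd1 := VAL_dvd g1 (by rw [g2, h2]) hw
          have hd2 := VAL_dvd h1 (by rw [g2, h2]) hw.symm
          have has : Associated (star e0.1) (star e.1) := associated_of_dvd_dvd hd1 hd2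
          obtain ⟨u, hu⟩ := has
          show star e.1 ∈ _
          rw [Finset.coe_image, Set.mem_image]
          refine ⟨(u : GI), ?_, hu⟩
          rw [Finset.mem_coe, hU, Finset.mem_insert, Finset.mem_insert, Finset.mem_insert,
            Finset.mem_singleton]
          exact BAS_unit u.isUnit
        · intro e he e' he' hee
          have he1 : e ∈ F.filter (fun e => star e.1 * e.2 = b) := he
          have he2 : e' ∈ F.filter (fun e => star e.1 * e.2 = b) := he'
          rw [Finset.mem_filter] at he1 he2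
          have hee' : star e.1 = star e'.1 := hee
          have hx : star e.1 ≠ 0 := by
            intro h
            exact hx0 _ _ (hF e he1.1).1 (star_eq_zero.1 h)
          have hy : e.2 = e'.2 := by
            apply mul_left_cancel₀ hx
            rw [he1.2, hee', he2.2]
          exact Prod.ext (star_injective hee') hy
      exact hle.trans (Finset.card_image_le.trans hUc)
  calc F.card ≤ 4 * Z.card := by
        have := Finset.card_le_mul_card_image_of_maps_to (f := fun e : GI × GI => star e.1 * e.2)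
          (s := F) (t := Z) hmaps 4 hfib
        exact this
    _ ≤ 64 := by omega

/-- edges whose first vertex has many divisors -/
theorem VAL_many {N δ T : ℝ} (hT : open Classical in
    ∑ z ∈ (bl N).filter (fun z => Pr z ∧ T < ((dv z).card : ℝ)), √(N / nm z) ≤ δ * N)
    (B : Finset (GI × GI)) (hB : ∀ e ∈ B, e.1 ∈ bl N ∧ e.2 ∈ bl N ∧
    (dt e.1 e.2).natAbs = 1) (hB' : ∀ e ∈ B, T < ((dv e.1).card : ℝ)) :
    (B.card : ℝ) ≤ 6 * (δ * N) := by
  classical
  set S : Finset GI := (bl N).filter (fun z => Pr z ∧ T < ((dv z).card : ℝ)) with hS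
  have hT' : ∑ z ∈ S, √(N / nm z) ≤ δ * N := by
    refine le_trans (le_of_eq ?_) hT
    refine Finset.sum_congr ?_ fun _ _ => rfl
    rw [hS]
  have hfib : B.card = ∑ x ∈ S, (B.filter (fun e => e.1 = x)).card := by
    apply Finset.card_eq_sum_card_fiberwise
    intro e he
    have he' : e ∈ B := he
    obtain ⟨h1, h2, h3⟩ := hB e he'
    show e.1 ∈ S
    rw [hS, Finset.mem_filter]
    exact ⟨h1, VAL_Pr_left h3, hB' e he'⟩
  calc (B.card : ℝ) = ∑ x ∈ S, ((B.filter (fun e => e.1 = x)).card : ℝ) := by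
        rw [hfib, Nat.cast_sum]
    _ ≤ ∑ x ∈ S, 6 * √(N / nm x) := by
        apply Finset.sum_le_sum
        intro x hx
        rw [hS, Finset.mem_filter] at hx
        refine le_trans (le_of_eq ?_) (VAL_fibre N B hB x hx.1)
        congr 2
    _ = 6 * ∑ x ∈ S, √(N / nm x) := by rw [Finset.mul_sum]
    _ ≤ _ := by linarith

theorem edges_to_values (ε η : ℝ) (hε : 0 < ε) (hη : 0 < η) : ∃ c N0 : ℝ, 0 < c ∧ 1 ≤ N0 ∧
    ∀ N : ℝ, N0 ≤ N → ∀ B : Finset (GI × GI),
    (∀ e ∈ B, (nm e.1 : ℝ) ≤ N ∧ (nm e.2 : ℝ) ≤ N ∧ (dt e.1 e.2).natAbs = 1) →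
    η * N ≤ B.card → ∀ A : Finset ℕ,
    (∀ e ∈ B, ∀ n : ℕ, 0 < n → nm e.1 * nm e.2 = n ^ 2 + 1 → n ∈ A) →
    c * N / (Real.log N) ^ (2 * Real.log 2 + ε) ≤ A.card ∧
    c * N ≤ ∑ a ∈ A, (((a ^ 2 + 1).divisors.filter
      (fun m : ℕ => (m : ℝ) ≤ N ∧ ((a ^ 2 + 1 : ℕ) : ℝ) ≤ m * N)).card : ℝ) := by
  classical
  obtain ⟨N1, hN1, htyp⟩ := typ (ε / 2) (η / 48) (by linarith) (by positivity)
  set γ : ℝ := 2 * Real.log 2 + ε with hγ
  have htend : Filter.Tendsto (fun X : ℝ => X / (Real.log X) ^ γ) Filter.atTop Filter.atTop := by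
    have h1 := isLittleO_log_rpow_atTop (r := 1 / γ) (by
      have := Real.log_pos (one_lt_two)
      positivity)
    have hγ0 : 0 < γ := by
      have := Real.log_pos (one_lt_two)
      positivity
    have h2 : Filter.Tendsto (fun X : ℝ => (Real.log X) ^ γ / X) Filter.atTop (nhds 0) := by
      have h3 := (h1.tendsto_div_nhds_zero).rpow_const (p := γ) (Or.inr hγ0.le)
      rw [Real.zero_rpow hγ0.ne'] at h3
      refine h3.congr' ?_
      filter_upwards [Filter.eventually_gt_atTop (1 : ℝ)] with X hX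
      have hl := Real.log_pos hX
      have hX0 : (0 : ℝ) < X := by linarith
      rw [Real.div_rpow hl.le (by positivity), ← Real.rpow_mul hX0.le, one_div,
        inv_mul_cancel₀ hγ0.ne', Real.rpow_one]
    have h3 : Filter.Tendsto (fun X : ℝ => (Real.log X) ^ γ / X) Filter.atTop
        (nhdsWithin 0 (Set.Ioi 0)) := by
      rw [tendsto_nhdsWithin_iff]
      refine ⟨h2, ?_⟩
      filter_upwards [Filter.eventually_gt_atTop (1 : ℝ)] with X hX
      have := Real.log_pos hX
      have hX0 : (0 : ℝ) < X := by linarith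
      exact div_pos (by positivity) hX0
    have h4 := tendsto_inv_nhdsGT_zero.comp h3
    refine h4.congr (fun X => ?_)
    simp [Function.comp]
  obtain ⟨X1, hX1⟩ := (Filter.tendsto_atTop.1 htend (32 / (3 * η))).exists_forall_of_atTop
  refine ⟨η / 128, max (max N1 X1) (128 / η), by positivity, ?_, ?_⟩
  · exact (by linarith : (1 : ℝ) ≤ N1).trans ((le_max_left _ _).trans (le_max_left _ _))
  intro N hN B hB hBc A hA
  have hNN1 : N1 ≤ N := (le_max_left _ _).trans ((le_max_left _ _).trans hN)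
  have hNX1 : X1 ≤ N := (le_max_right _ _).trans ((le_max_left _ _).trans hN)
  have hNη : 128 / η ≤ N := (le_max_right _ _).trans hN
  have hN3 : (3 : ℝ) ≤ N := hN1.trans hNN1
  have hlog : 0 < Real.log N := Real.log_pos (by linarith)
  have hNpos : 0 < N := by linarith
  have hbig := hX1 N hNX1
  have hBm : ∀ e ∈ B, e.1 ∈ bl N ∧ e.2 ∈ bl N ∧ (dt e.1 e.2).natAbs = 1 := by
    intro e he
    obtain ⟨h1, h2, h3⟩ := hB e he
    have hx : e.1 ≠ 0 := by
      intro h
      simp [dt, h] at h3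
    have hy : e.2 ≠ 0 := by
      intro h
      simp [dt, h] at h3
    exact ⟨mem_bl.2 ⟨hx, h1⟩, mem_bl.2 ⟨hy, h2⟩, h3⟩
  have hval : ∀ e ∈ B, nm e.1 * nm e.2 = ((star e.1 * e.2).re.natAbs) ^ 2 + 1 := by
    intro e he
    obtain ⟨n, h1, h2⟩ := edge_value (hB e he).2.2
    have h3 : n = (star e.1 * e.2).re.natAbs := by
      rw [Int.abs_eq_natAbs] at h2
      exact_mod_cast h2
    rw [h1, h3]
  constructor
  · set T : ℝ := (Real.log N) ^ (Real.log 2 + ε / 2) with hT
    have hT0 : 0 < T := Real.rpow_pos_of_pos hlog _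
    have hTT : T ^ 2 = (Real.log N) ^ γ := by
      rw [hT, ← Real.rpow_natCast, ← Real.rpow_mul hlog.le, hγ]
      congr 1
      push_cast
      ring
    set B1 := B.filter (fun e => T < ((dv e.1).card : ℝ)) with hB1
    set B2 := B.filter (fun e => T < ((dv e.2).card : ℝ)) with hB2
    set B3 := B.filter (fun e => ((dv e.1).card : ℝ) ≤ T ∧ ((dv e.2).card : ℝ) ≤ T) with hB3
    have hcover : B ⊆ (B1 ∪ B2) ∪ B3 := by
      intro e he
      by_cases h1 : T < ((dv e.1).card : ℝ)
      · exact Finset.mem_union_left _ (Finset.mem_union_left _ (Finset.mem_filter.2 ⟨he, h1⟩))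
      · by_cases h2 : T < ((dv e.2).card : ℝ)
        · exact Finset.mem_union_left _ (Finset.mem_union_right _ (Finset.mem_filter.2 ⟨he, h2⟩))
        · exact Finset.mem_union_right _ (Finset.mem_filter.2 ⟨he, not_lt.1 h1, not_lt.1 h2⟩)
    have hcard : (B.card : ℝ) ≤ B1.card + B2.card + B3.card := by
      have h1 := Finset.card_le_card hcover
      have h2 := Finset.card_union_le (B1 ∪ B2) B3
      have h3 := Finset.card_union_le B1 B2
      have h4 : B.card ≤ B1.card + B2.card + B3.card := by omega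
      exact_mod_cast h4
    have hb1 := VAL_many (htyp N hNN1) B1
      (fun e he => hBm e (Finset.mem_filter.1 he).1) (fun e he => (Finset.mem_filter.1 he).2)
    have hb2 := VAL_many (htyp N hNN1) (B2.image Prod.swap)
      (fun e he => by
        rw [Finset.mem_image] at he
        obtain ⟨e', he', rfl⟩ := he
        have h := hBm e' (Finset.mem_filter.1 he').1
        refine ⟨h.2.1, h.1, ?_⟩
        show (dt e'.2 e'.1).natAbs = 1
        rw [dt_swap, Int.natAbs_neg]
        exact h.2.2) (fun e he => by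
        rw [Finset.mem_image] at he
        obtain ⟨e', he', rfl⟩ := he
        exact (Finset.mem_filter.1 he').2)
    rw [Finset.card_image_of_injective _ Prod.swap_injective] at hb2
    have hb3 := VAL_few N (by linarith) ⌊T⌋₊ B3 A (fun e he => by
        rw [hB3, Finset.mem_filter] at he
        have h := hBm e he.1
        exact ⟨h.1, h.2.1, h.2.2, Nat.le_floor he.2.1, Nat.le_floor he.2.2⟩) (fun e he n hn => by
        rw [hB3, Finset.mem_filter] at he
        by_cases hn0 : n = 0
        · exact Or.inl hn0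
        · exact Or.inr (hA e he.1 n (Nat.pos_of_ne_zero hn0) hn))
    have hfl : ((⌊T⌋₊ : ℕ) : ℝ) ≤ T := Nat.floor_le hT0.le
    have hb3' : (B3.card : ℝ) ≤ 4 * ((⌊T⌋₊ : ℕ) : ℝ) ^ 2 * ((A.card : ℝ) + 1) := by
      exact_mod_cast hb3
    have hfl2 : ((⌊T⌋₊ : ℕ) : ℝ) ^ 2 ≤ T ^ 2 := pow_le_pow_left₀ (by positivity) hfl 2
    have hb4 : (B3.card : ℝ) ≤ 4 * T ^ 2 * ((A.card : ℝ) + 1) := by
      refine hb3'.trans (mul_le_mul_of_nonneg_right ?_ (by positivity))
      linarith
    have hmain : 3 * η / 4 * N ≤ 4 * T ^ 2 * ((A.card : ℝ) + 1) := by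
      have : 6 * (η / 48 * N) = η / 8 * N := by ring
      rw [this] at hb1 hb2
      linarith
    rw [hTT] at hmain
    have hLγ : 0 < (Real.log N) ^ γ := Real.rpow_pos_of_pos hlog _
    have h5 : 2 * (3 * η / 32 * (N / (Real.log N) ^ γ)) ≤ (A.card : ℝ) + 1 := by
      have h6 : 2 * (3 * η / 32 * (N / (Real.log N) ^ γ)) =
          (3 * η / 4 * N) / (4 * (Real.log N) ^ γ) := by
        field_simp
        ring
      rw [h6, div_le_iff₀ (by positivity)]
      linarith
    have h7 : 1 ≤ 3 * η / 32 * (N / (Real.log N) ^ γ) := by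
      calc (1 : ℝ) = 3 * η / 32 * (32 / (3 * η)) := by field_simp
        _ ≤ _ := mul_le_mul_of_nonneg_left hbig (by positivity)
    have h8 : η / 128 * N / (Real.log N) ^ γ ≤ 3 * η / 32 * (N / (Real.log N) ^ γ) := by
      have h9 : 0 < N / (Real.log N) ^ γ := by positivity
      have h10 : η / 128 * N / (Real.log N) ^ γ = η / 128 * (N / (Real.log N) ^ γ) := by ring
      rw [h10]
      exact mul_le_mul_of_nonneg_right (by linarith) h9.le
    linarith
  · set nn : GI × GI → ℕ := fun e => (star e.1 * e.2).re.natAbs with hnn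
    set B0 := B.filter (fun e => nn e ≠ 0) with hB0
    set B4 := B.filter (fun e => nn e = 0) with hB4
    have hcov : B.card ≤ B0.card + B4.card := by
      have h1 : B ⊆ B0 ∪ B4 := by
        intro e he
        by_cases h : nn e = 0
        · exact Finset.mem_union_right _ (Finset.mem_filter.2 ⟨he, h⟩)
        · exact Finset.mem_union_left _ (Finset.mem_filter.2 ⟨he, h⟩)
      exact (Finset.card_le_card h1).trans (Finset.card_union_le _ _)
    have hB4c : B4.card ≤ 64 := by
      apply VAL_fib 1 0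
      intro e he
      rw [hB4, Finset.mem_filter] at he
      have h1 := hval e he.1
      have h2 : (star e.1 * e.2).re.natAbs = 0 := he.2
      rw [h2] at h1
      refine ⟨(hB e he.1).2.2, ?_, h2⟩
      exact Nat.eq_one_of_mul_eq_one_right (by simpa using h1)
    set S : Finset (Sigma fun _ : ℕ => ℕ) := A.sigma (fun a => (a ^ 2 + 1).divisors.filter
      (fun m : ℕ => (m : ℝ) ≤ N ∧ ((a ^ 2 + 1 : ℕ) : ℝ) ≤ m * N)) with hS
    have hSc : (S.card : ℝ) = ∑ a ∈ A, (((a ^ 2 + 1).divisors.filter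
      (fun m : ℕ => (m : ℝ) ≤ N ∧ ((a ^ 2 + 1 : ℕ) : ℝ) ≤ m * N)).card : ℝ) := by
      rw [hS, Finset.card_sigma, Nat.cast_sum]
    rw [← hSc]
    have hB0c : B0.card ≤ 64 * S.card := by
      apply Finset.card_le_mul_card_image_of_maps_to
        (f := fun e : GI × GI => (⟨nn e, nm e.1⟩ : Sigma fun _ : ℕ => ℕ))
      · intro e he
        rw [hB0, Finset.mem_filter] at he
        have h1 := hval e he.1
        obtain ⟨h2, h3, h4⟩ := hB e he.1
        rw [hS, Finset.mem_sigma]
        refine ⟨hA e he.1 _ (Nat.pos_of_ne_zero he.2) h1, ?_⟩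
        rw [Finset.mem_filter, Nat.mem_divisors]
        show (nm e.1 ∣ (star e.1 * e.2).re.natAbs ^ 2 + 1 ∧ _) ∧ ((nm e.1 : ℕ) : ℝ) ≤ N ∧
          ((((star e.1 * e.2).re.natAbs ^ 2 + 1 : ℕ)) : ℝ) ≤ (nm e.1 : ℝ) * N
        refine ⟨⟨⟨nm e.2, h1.symm⟩, by positivity⟩, h2, ?_⟩
        rw [← h1]
        push_cast
        exact mul_le_mul_of_nonneg_left h3 (by positivity)
      · intro b _
        apply VAL_fib b.2 b.1
        intro e he
        rw [Finset.mem_filter] at he
        have he1 := (Finset.mem_filter.1 (hB0 ▸ he.1)).1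
        have h2 := he.2
        refine ⟨(hB e he1).2.2, ?_, ?_⟩
        · rw [← h2]
        · rw [← h2]
    have h9 : (B.card : ℝ) ≤ 64 * (S.card : ℝ) + 64 := by
      have : B.card ≤ 64 * S.card + 64 := by omega
      exact_mod_cast this
    have h10 : 128 ≤ N * η := by
      rwa [div_le_iff₀ hη] at hNη
    nlinarith

/-- every factorisation of `a^2 + 1` comes from an edge -/
theorem VAL_exists {a m m' : ℕ} (h : a ^ 2 + 1 = m * m') : ∃ x y : GI, dt x y = 1 ∧
    nm x = m ∧ nm y = m' ∧ (star x * y).re = a := by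
  set α : GI := ⟨(a : ℤ), 1⟩ with hα
  set M : GI := ((m : ℕ) : GI) with hM
  have hstM : star M = M := by
    rw [hM]
    apply Zsqrtd.ext <;> simp
  have hαα : α * star α = ((m * m' : ℕ) : GI) := by
    rw [BAS_mul_star]
    congr 1
    have h1 := nm_int α
    rw [hα] at h1
    have h2 : ((nm α : ℕ) : ℤ) = ((m * m' : ℕ) : ℤ) := by
      rw [← h, hα, h1]
      push_cast
      ring
    exact_mod_cast h2
  have hmpos : 0 < m := by
    rcases Nat.eq_zero_or_pos m with h0 | h0
    · rw [h0, zero_mul] at h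
      omega
    · exact h0
  set d : GI := EuclideanDomain.gcd M α with hd
  have hdM : d ∣ M := EuclideanDomain.gcd_dvd_left _ _
  have hdα : d ∣ α := EuclideanDomain.gcd_dvd_right _ _
  obtain ⟨y, hy⟩ := hdα
  have hbez : d = M * EuclideanDomain.gcdA M α + α * EuclideanDomain.gcdB M α :=
    EuclideanDomain.gcd_eq_gcd_ab M α
  have hsdvd : ∀ u v : GI, u ∣ v → star u ∣ star v := by
    rintro u v ⟨w, rfl⟩
    exact ⟨star w, by rw [star_mul, mul_comm]⟩
  have hdM' : star d ∣ M := by
    have := hsdvd _ _ hdM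
    rwa [hstM] at this
  have hdα : d ∣ α := ⟨y, hy⟩
  have hdα' : star d ∣ star α := hsdvd _ _ hdα
  -- `m ∣ nm d`
  have h1 : M ∣ ((nm d : ℕ) : GI) := by
    rw [← BAS_mul_star]
    set s := EuclideanDomain.gcdA M α
    set t := EuclideanDomain.gcdB M α
    have e1 : d * star d = M * (s * star d + α * t * star s) + (α * star α) * (t * star t) := by
      have e2 : star d = M * star s + star α * star t := by
        conv_lhs => rw [hbez]
        rw [star_add, star_mul, star_mul, hstM]
        ring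
      conv_lhs => rw [hbez]
      rw [add_mul]
      have e3 : α * t * star (M * s + α * t) = α * t * (M * star s + star α * star t) := by
        rw [← hbez, e2]
      have e4 : M * s * star (M * s + α * t) = M * s * star d := by rw [← hbez]
      rw [e3, e4]
      ring
    rw [e1, hαα]
    apply dvd_add (dvd_mul_right _ _)
    push_cast
    rw [mul_assoc]
    exact dvd_mul_right _ _
  have h1' : m ∣ nm d := by
    have h2 : (((m : ℕ) : ℤ) : GI) ∣ (((nm d : ℕ) : ℤ) : GI) := by
      push_cast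
      exact h1
    rw [Zsqrtd.intCast_dvd_intCast] at h2
    exact_mod_cast h2
  -- `nm d ∣ m`
  have h2 : d * star d ∣ M := by
    have g1 : d * star d ∣ M * M := mul_dvd_mul hdM hdM'
    have g2 : d * star d ∣ M * ((m' : ℕ) : GI) := by
      have : M * ((m' : ℕ) : GI) = α * star α := by
        rw [hαα]; push_cast; rfl
      rw [this]
      exact mul_dvd_mul hdα hdα'
    have g3 : d * star d ∣ M * 2 := by
      have k1 : d * star d ∣ M * α := by
        rw [mul_comm d, ]
        exact mul_dvd_mul hdM' hdα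
      have k2 : d * star d ∣ M * star α := mul_dvd_mul hdM hdα'
      have k3 := (dvd_sub k1 k2).mul_right (⟨0, -1⟩ : GI)
      have k4 : (M * α - M * star α) * (⟨0, -1⟩ : GI) = M * 2 := by
        rw [← mul_sub, mul_assoc]
        congr 1
        rw [hα]
        apply Zsqrtd.ext
        · simp [Zsqrtd.re_mul]
        · simp [Zsqrtd.im_mul]
      rwa [k4] at k3
    rcases Nat.even_or_odd m with hm | hm
    · have hm' : m' % 2 = 1 := by
        by_contra hne
        have hm2 : m' % 2 = 0 := by omega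
        obtain ⟨k, hk⟩ := hm
        obtain ⟨l, hl⟩ : ∃ l, m' = 2 * l := ⟨m' / 2, by omega⟩
        rw [hk, hl] at h
        have h3 : (k + k) * (2 * l) = 4 * (k * l) := by ring
        rw [h3] at h
        have h4 : a % 2 = 0 ∨ a % 2 = 1 := by omega
        have h5 : a ^ 2 % 4 = 0 ∨ a ^ 2 % 4 = 1 := by
          rcases h4 with h4 | h4
          · left
            obtain ⟨b, hb⟩ : ∃ b, a = 2 * b := ⟨a / 2, by omega⟩
            rw [hb, mul_pow]
            omega
          · right
            obtain ⟨b, hb⟩ : ∃ b, a = 2 * b + 1 := ⟨a / 2, by omega⟩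
            rw [hb]
            have : (2 * b + 1) ^ 2 = 4 * (b * b + b) + 1 := by ring
            rw [this]
            omega
        omega
      obtain ⟨k, hk⟩ : ∃ k, m' = 2 * k + 1 := ⟨m' / 2, by omega⟩
      have : M = M * ((m' : ℕ) : GI) - M * 2 * ((k : ℕ) : GI) := by
        rw [hk]; push_cast; ring
      rw [this]
      exact dvd_sub g2 (g3.mul_right _)
    · obtain ⟨k, hk⟩ := hm
      have : M = M * M - M * 2 * ((k : ℕ) : GI) := by
        have e : M = 2 * ((k : ℕ) : GI) + 1 := by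
          rw [hM, hk]; push_cast; ring
        conv_rhs => rw [show M * M = M * (2 * ((k : ℕ) : GI) + 1) by rw [← e]]
        ring
      rw [this]
      exact dvd_sub g1 (g3.mul_right _)
  have h2' : nm d ∣ m := by
    rw [BAS_mul_star] at h2
    have h3 : (((nm d : ℕ) : ℤ) : GI) ∣ (((m : ℕ) : ℤ) : GI) := by
      push_cast
      exact h2
    rw [Zsqrtd.intCast_dvd_intCast] at h3
    exact_mod_cast h3
  have hnd : nm d = m := Nat.dvd_antisymm h2' h1'
  refine ⟨star d, y, ?_, by rw [nm_star, hnd], ?_, ?_⟩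
  · rw [← VAL_im, star_star, ← hy, hα]
  · have h3 : nm α = m * m' := by
      have h1 := nm_int α
      rw [hα] at h1
      have h2 : ((nm α : ℕ) : ℤ) = ((m * m' : ℕ) : ℤ) := by
        rw [← h, hα, h1]
        push_cast
        ring
      exact_mod_cast h2
    rw [hy, nm_mul, hnd] at h3
    exact Nat.eq_of_mul_eq_mul_left hmpos h3
  · rw [star_star, ← hy, hα]

theorem total : ∃ C : ℝ, ∀ X : ℝ, 1 ≤ X → ∑ a ∈ Icc 1 ⌊X⌋₊, (((a ^ 2 + 1).divisors.filter
      (fun m : ℕ => (m : ℝ) ≤ X ∧ ((a ^ 2 + 1 : ℕ) : ℝ) ≤ m * X)).card : ℝ) ≤ C * X := by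
  classical
  refine ⟨72, fun X hX => ?_⟩
  set S : Finset (Sigma fun _ : ℕ => ℕ) := (Icc 1 ⌊X⌋₊).sigma (fun a => (a ^ 2 + 1).divisors.filter
      (fun m : ℕ => (m : ℝ) ≤ X ∧ ((a ^ 2 + 1 : ℕ) : ℝ) ≤ m * X)) with hS
  have hSc : (S.card : ℝ) = ∑ a ∈ Icc 1 ⌊X⌋₊, (((a ^ 2 + 1).divisors.filter
      (fun m : ℕ => (m : ℝ) ≤ X ∧ ((a ^ 2 + 1 : ℕ) : ℝ) ≤ m * X)).card : ℝ) := by
    rw [hS, Finset.card_sigma, Nat.cast_sum]
  rw [← hSc]
  set E : Finset (GI × GI) := (bl X ×ˢ bl X).filter (fun e => (dt e.1 e.2).natAbs = 1) with hE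
  have hEm : ∀ e ∈ E, e.1 ∈ bl X ∧ e.2 ∈ bl X ∧ (dt e.1 e.2).natAbs = 1 := by
    intro e he
    rw [hE, Finset.mem_filter, Finset.mem_product] at he
    exact ⟨he.1.1, he.1.2, he.2⟩
  have hex : ∀ b ∈ S, ∃ e : GI × GI, e ∈ E ∧ nm e.1 = b.2 ∧ (star e.1 * e.2).re = b.1 := by
    intro b hb
    rw [hS, Finset.mem_sigma, Finset.mem_filter, Nat.mem_divisors] at hb
    obtain ⟨-, ⟨⟨m', hm'⟩, -⟩, h2, h3⟩ := hb
    obtain ⟨x, y, hxy, hx, hy, hre⟩ := VAL_exists hm'
    refine ⟨(x, y), ?_, hx, hre⟩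
    have hx0 : x ≠ 0 := by
      rintro rfl
      simp [dt] at hxy
    have hy0 : y ≠ 0 := by
      rintro rfl
      simp [dt] at hxy
    rw [hE, Finset.mem_filter, Finset.mem_product]
    refine ⟨⟨mem_bl.2 ⟨hx0, by rw [hx]; exact h2⟩, mem_bl.2 ⟨hy0, ?_⟩⟩, by
      show (dt x y).natAbs = 1
      rw [hxy]; rfl⟩
    rw [hm'] at h3
    push_cast at h3
    have hbpos : (0 : ℝ) < b.2 := by
      have := nm_pos hx0
      rw [hx] at this
      exact_mod_cast this
    rw [hy]
    exact le_of_mul_le_mul_left h3 hbpos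
  choose! φ hφ1 hφ2 hφ3 using hex
  have hle : S.card ≤ E.card := by
    apply Finset.card_le_card_of_injOn φ
    · intro b hb
      exact hφ1 b hb
    · intro b hb b' hb' hbb
      have h1 := hφ2 b hb
      have h2 := hφ2 b' hb'
      have h3 := hφ3 b hb
      have h4 := hφ3 b' hb'
      rw [hbb] at h1 h3
      have e1 : b.2 = b'.2 := by rw [← h1, ← h2]
      have e2 : b.1 = b'.1 := by
        have : (b.1 : ℤ) = b'.1 := by rw [← h3, ← h4]
        exact_mod_cast this
      cases b; cases b'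
      simp only at e1 e2
      rw [e1, e2]
  have hEc : (E.card : ℝ) ≤ 72 * X := by
    have hfib : E.card = ∑ x ∈ bl X, (E.filter (fun e => e.1 = x)).card :=
      Finset.card_eq_sum_card_fiberwise (fun e he => (hEm e he).1)
    calc (E.card : ℝ) = ∑ x ∈ bl X, ((E.filter (fun e => e.1 = x)).card : ℝ) := by
          rw [hfib, Nat.cast_sum]
      _ ≤ ∑ x ∈ bl X, 6 * √(X / nm x) := by
          apply Finset.sum_le_sum
          intro x hx
          refine le_trans (le_of_eq ?_) (VAL_fibre X E hEm x hx)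
          congr 2
      _ = 6 * ∑ x ∈ bl X, √(X / nm x) := by rw [Finset.mul_sum]
      _ ≤ 6 * (12 * X) := by
          have := VAL_sum_sqrt_le (T := X) (by linarith)
          linarith
      _ = 72 * X := by ring
  have hle' : (S.card : ℝ) ≤ E.card := by exact_mod_cast hle
  linarith

end Pool.Agent.MRS
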