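import Pool.Agent.MRS.St
import Pool.Agent.MRS.Mulb

set_option autoImplicit false

/-! Module PLB (L_bound, L_zero): `D(κ,α) = ∑ b_κ(n) n^{-1-α}`.  Partial summation with `sum_bb` and `st_prim C`: `N(z) ≤ T = |κ|^(1/C)` trivially
(`∑ 1/N(z) ≤ C'(1 + log T)`, `log T ≤ B/(C α)`), `N(z) > T` bounded by `∑ n^{1-c} n^{-2}`. -/

open Finset

namespace Pool.Agent.MRS

/-- `∑_{i ≤ N} i^{-(1+c)} ≤ 1 + 1/c` -/
theorem plb_sum_rpow {c : ℝ} (hc : 0 < c) (N : ℕ) :
    ∑ i ∈ Icc 1 N, (i : ℝ) ^ (-(1 + c)) ≤ 1 + 1 / c := by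
  have key : ∀ n : ℕ, ∑ i ∈ Icc 1 (n + 1), (i : ℝ) ^ (-(1 + c)) ≤
      1 + 1 / c - ((n + 1 : ℕ) : ℝ) ^ (-c) / c := by
    intro n
    induction n with
    | zero => simp
    | succ n ih =>
      rw [Finset.sum_Icc_succ_top (by omega)]
      have hN : (0 : ℝ) < ((n + 1 : ℕ) : ℝ) := by positivity
      have hN1 : (0 : ℝ) < ((n + 1 + 1 : ℕ) : ℝ) := by positivity
      set x : ℝ := ((n + 1 : ℕ) : ℝ) with hx
      have hx1 : ((n + 1 + 1 : ℕ) : ℝ) = x + 1 := by rw [hx]; push_cast; ring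
      rw [hx1] at hN1 ⊢
      have h1 : 1 + c / (x + 1) ≤ ((x + 1) / x) ^ c := by
        have hpos : 0 < (x + 1) / x := by positivity
        rw [Real.rpow_def_of_pos hpos]
        have h2 : 1 / (x + 1) ≤ Real.log ((x + 1) / x) := by
          have h3 := Real.one_sub_inv_le_log_of_pos hpos
          have h4 : 1 - ((x + 1) / x)⁻¹ = 1 / (x + 1) := by field_simp; ring
          linarith
        have h5 := Real.add_one_le_exp (Real.log ((x + 1) / x) * c)
        have h6 : 1 / (x + 1) * c ≤ Real.log ((x + 1) / x) * c :=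
          mul_le_mul_of_nonneg_right h2 hc.le
        have h7 : c / (x + 1) = 1 / (x + 1) * c := by ring
        linarith
      have h2 : ((x + 1) / x) ^ c = x ^ (-c) / (x + 1) ^ (-c) := by
        rw [Real.div_rpow hN1.le hN.le, Real.rpow_neg hN.le, Real.rpow_neg hN1.le]
        have a1 : 0 < x ^ c := Real.rpow_pos_of_pos hN _
        have a2 : 0 < (x + 1) ^ c := Real.rpow_pos_of_pos hN1 _
        field_simp
      have h3 : 0 < (x + 1) ^ (-c) := Real.rpow_pos_of_pos hN1 _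
      rw [h2, le_div_iff₀ h3] at h1
      have h4 : (x + 1) ^ (-(1 + c)) = (x + 1) ^ (-c) / (x + 1) := by
        rw [show -(1 + c) = -c - 1 by ring, Real.rpow_sub_one hN1.ne']
      have h5 : (x + 1) ^ (-(1 + c)) ≤ x ^ (-c) / c - (x + 1) ^ (-c) / c := by
        rw [h4, ← sub_div, le_div_iff₀ hc]
        have : (x + 1) ^ (-c) / (x + 1) * c = c / (x + 1) * (x + 1) ^ (-c) := by ring
        rw [this]
        linarith
      linarith
  rcases Nat.eq_zero_or_pos N with h | h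
  · subst h
    simp
    positivity
  · obtain ⟨n, rfl⟩ : ∃ n, N = n + 1 := ⟨N - 1, by omega⟩
    have h1 := key n
    have h2 : 0 ≤ ((n + 1 : ℕ) : ℝ) ^ (-c) / c := by positivity
    linarith

theorem plb_diff {α : ℝ} (h0 : 0 < α) (h1 : α ≤ 1) {x : ℝ} (hx : 1 ≤ x) :
    0 ≤ x ^ (-(1 + α)) - (x + 1) ^ (-(1 + α)) ∧
    x ^ (-(1 + α)) - (x + 1) ^ (-(1 + α)) ≤ 2 * x ^ (-(2 + α)) := by
  have hx0 : 0 < x := by linarith
  have hx1 : 0 < x + 1 := by linarith
  constructor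
  · have := Real.rpow_le_rpow_of_nonpos hx0 (by linarith : x ≤ x + 1) (by linarith : -(1 + α) ≤ 0)
    linarith
  · have h2 := one_add_mul_self_le_rpow_one_add (s := -(1 / (x + 1))) (by
      have : 1 / (x + 1) ≤ 1 := by
        rw [div_le_one hx1]; linarith
      linarith) (p := 1 + α) (by linarith)
    have h3 : 1 + -(1 / (x + 1)) = x / (x + 1) := by field_simp; ring
    rw [h3, Real.div_rpow hx0.le hx1.le] at h2
    have h4 : (x + 1) ^ (-(1 + α)) = x ^ (-(1 + α)) * (x ^ (1 + α) / (x + 1) ^ (1 + α)) := by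
      rw [Real.rpow_neg hx0.le, Real.rpow_neg hx1.le]
      have a1 : 0 < x ^ (1 + α) := Real.rpow_pos_of_pos hx0 _
      field_simp
    have h5 : x ^ (-(2 + α)) = x ^ (-(1 + α)) / x := by
      rw [show -(2 + α) = -(1 + α) - 1 by ring, Real.rpow_sub_one hx0.ne']
    have hp : 0 < x ^ (-(1 + α)) := Real.rpow_pos_of_pos hx0 _
    rw [h4, h5]
    have h6 : x ^ (-(1 + α)) * (1 + (1 + α) * -(1 / (x + 1))) ≤
        x ^ (-(1 + α)) * (x ^ (1 + α) / (x + 1) ^ (1 + α)) := mul_le_mul_of_nonneg_left h2 hp.le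
    have h7 : (1 + α) / (x + 1) ≤ 2 / x := by
      rw [div_le_div_iff₀ hx1 hx0]
      nlinarith
    have h8 : x ^ (-(1 + α)) * ((1 + α) / (x + 1)) ≤ x ^ (-(1 + α)) * (2 / x) :=
      mul_le_mul_of_nonneg_left h7 hp.le
    have h9 : x ^ (-(1 + α)) * (1 + (1 + α) * -(1 / (x + 1))) =
        x ^ (-(1 + α)) - x ^ (-(1 + α)) * ((1 + α) / (x + 1)) := by ring
    have h10 : x ^ (-(1 + α)) * (2 / x) = 2 * (x ^ (-(1 + α)) / x) := by ring
    linarith

/-- partial summation -/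
theorem plb_abel (b : ℕ → ℝ) (hb0 : b 0 = 0) {α : ℝ} (h0 : 0 < α) (h1 : α ≤ 1)
    (hS : ∀ n : ℕ, |∑ m ∈ Icc 1 n, b m| ≤ 2 * n) (N : ℕ) :
    |∑ i ∈ range N, b i * (i : ℝ) ^ (-(1 + α))| ≤
      2 + 2 * ∑ i ∈ Icc 1 N, |∑ m ∈ Icc 1 i, b m| * (i : ℝ) ^ (-(2 + α)) := by
  have hnn : 0 ≤ ∑ i ∈ Icc 1 N, |∑ m ∈ Icc 1 i, b m| * (i : ℝ) ^ (-(2 + α)) :=
    Finset.sum_nonneg (fun i _ => by positivity)
  rcases Nat.eq_zero_or_pos N with hN | hN
  · subst hN
    simp
  have hG : ∀ n : ℕ, ∑ j ∈ range (n + 1), b j = ∑ m ∈ Icc 1 n, b m := by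
    intro n
    induction n with
    | zero => simp [hb0]
    | succ n ih => rw [Finset.sum_range_succ, ih, Finset.sum_Icc_succ_top (by omega)]
  have h2 := Finset.sum_range_by_parts (fun i : ℕ => (i : ℝ) ^ (-(1 + α))) b N
  simp only [smul_eq_mul] at h2
  have h3 : ∑ i ∈ range N, b i * (i : ℝ) ^ (-(1 + α)) =
      ∑ i ∈ range N, (i : ℝ) ^ (-(1 + α)) * b i :=
    Finset.sum_congr rfl (fun i _ => mul_comm _ _)
  rw [h3, h2]
  obtain ⟨n, rfl⟩ : ∃ n, N = n + 1 := ⟨N - 1, by omega⟩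
  simp only [Nat.add_sub_cancel]
  rw [hG n]
  have e1 : |(n : ℝ) ^ (-(1 + α)) * ∑ m ∈ Icc 1 n, b m| ≤ 2 := by
    rw [abs_mul, abs_of_nonneg (by positivity : (0 : ℝ) ≤ (n : ℝ) ^ (-(1 + α)))]
    rcases Nat.eq_zero_or_pos n with hn | hn
    · subst hn
      simp
    · have hn1 : (1 : ℝ) ≤ n := by exact_mod_cast hn
      have hn0 : (0 : ℝ) < n := by linarith
      calc (n : ℝ) ^ (-(1 + α)) * |∑ m ∈ Icc 1 n, b m| ≤ (n : ℝ) ^ (-(1 + α)) * (2 * n) :=
            mul_le_mul_of_nonneg_left (hS n) (by positivity)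
        _ ≤ (n : ℝ) ^ (-1 : ℝ) * (2 * n) := by
            apply mul_le_mul_of_nonneg_right _ (by positivity)
            exact Real.rpow_le_rpow_of_exponent_le hn1 (by linarith)
        _ = 2 := by
            rw [Real.rpow_neg_one]
            field_simp
  have e2 : |∑ i ∈ range n, (((i + 1 : ℕ) : ℝ) ^ (-(1 + α)) - (i : ℝ) ^ (-(1 + α))) *
      ∑ j ∈ range (i + 1), b j| ≤
      2 * ∑ i ∈ Icc 1 (n + 1), |∑ m ∈ Icc 1 i, b m| * (i : ℝ) ^ (-(2 + α)) := by
    refine (Finset.abs_sum_le_sum_abs _ _).trans ?_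
    rw [Finset.mul_sum]
    have h4 : ∑ i ∈ range n, |(((i + 1 : ℕ) : ℝ) ^ (-(1 + α)) - (i : ℝ) ^ (-(1 + α))) *
        ∑ j ∈ range (i + 1), b j| ≤
        ∑ i ∈ range n, 2 * (|∑ m ∈ Icc 1 i, b m| * (i : ℝ) ^ (-(2 + α))) := by
      apply Finset.sum_le_sum
      intro i _
      rw [hG i, abs_mul]
      rcases Nat.eq_zero_or_pos i with hi | hi
      · subst hi
        simp
      · have hi1 : (1 : ℝ) ≤ i := by exact_mod_cast hi
        obtain ⟨g1, g2⟩ := plb_diff h0 h1 hi1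
        have g3 : |((i + 1 : ℕ) : ℝ) ^ (-(1 + α)) - (i : ℝ) ^ (-(1 + α))| ≤
            2 * (i : ℝ) ^ (-(2 + α)) := by
          rw [abs_sub_comm, abs_of_nonneg (by push_cast; exact g1)]
          push_cast
          exact g2
        calc |((i + 1 : ℕ) : ℝ) ^ (-(1 + α)) - (i : ℝ) ^ (-(1 + α))| * |∑ m ∈ Icc 1 i, b m|
            ≤ 2 * (i : ℝ) ^ (-(2 + α)) * |∑ m ∈ Icc 1 i, b m| :=
              mul_le_mul_of_nonneg_right g3 (abs_nonneg _)
          _ = _ := by ring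
    refine h4.trans ?_
    have hsub : range n ⊆ insert 0 (Icc 1 (n + 1)) := by
      intro i hi
      rw [Finset.mem_range] at hi
      rw [Finset.mem_insert, Finset.mem_Icc]
      omega
    calc ∑ i ∈ range n, 2 * (|∑ m ∈ Icc 1 i, b m| * (i : ℝ) ^ (-(2 + α)))
        ≤ ∑ i ∈ insert 0 (Icc 1 (n + 1)), 2 * (|∑ m ∈ Icc 1 i, b m| * (i : ℝ) ^ (-(2 + α))) := by
          apply Finset.sum_le_sum_of_subset_of_nonneg hsub
          intro i _ _
          positivity
      _ = _ := by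
          rw [Finset.sum_insert (by simp)]
          simp
  calc |(n : ℝ) ^ (-(1 + α)) * ∑ m ∈ Icc 1 n, b m -
        ∑ i ∈ range n, (((i + 1 : ℕ) : ℝ) ^ (-(1 + α)) - (i : ℝ) ^ (-(1 + α))) *
          ∑ j ∈ range (i + 1), b j|
      ≤ |(n : ℝ) ^ (-(1 + α)) * ∑ m ∈ Icc 1 n, b m| +
        |∑ i ∈ range n, (((i + 1 : ℕ) : ℝ) ^ (-(1 + α)) - (i : ℝ) ^ (-(1 + α))) *
          ∑ j ∈ range (i + 1), b j| := abs_sub _ _
    _ ≤ _ := add_le_add e1 e2

theorem plb_sum_re (κ : ℤ) (n : ℕ) :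
    ∑ m ∈ Icc 1 n, (bb κ m).re = (1 / 2) * (∑ z ∈ pan 0 n, uu z ^ κ).re := by
  have h := sum_bb κ (n : ℝ) (Nat.cast_nonneg n)
  rw [Nat.floor_natCast] at h
  have h2 := congrArg Complex.re h
  rw [Complex.re_sum] at h2
  rw [h2]
  have e : (1 / 2 : ℂ) = ((1 / 2 : ℝ) : ℂ) := by push_cast; ring
  rw [e, Complex.re_ofReal_mul]

theorem plb_triv (κ : ℤ) (n : ℕ) : |∑ m ∈ Icc 1 n, (bb κ m).re| ≤ 2 * n := by
  rw [plb_sum_re, abs_mul]
  have h1 : |(∑ z ∈ pan 0 n, uu z ^ κ).re| ≤ 4 * n := by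
    refine (Complex.abs_re_le_norm _).trans ?_
    refine (norm_sum_le _ _).trans ?_
    calc ∑ z ∈ pan 0 (n : ℝ), ‖uu z ^ κ‖ ≤ ∑ z ∈ pan 0 (n : ℝ), (1 : ℝ) :=
          Finset.sum_le_sum (fun z _ => norm_uu_zpow_le z κ)
      _ = ((pan 0 (n : ℝ)).card : ℝ) := by rw [Finset.sum_const, nsmul_eq_mul, mul_one]
      _ ≤ ((ann 0 (n : ℝ)).card : ℝ) := by exact_mod_cast Finset.card_le_card (pan_subset _ _)
      _ ≤ 4 * n := card_ann_le 0 (Nat.cast_nonneg n)
  have h2 : |(1 / 2 : ℝ)| = 1 / 2 := abs_of_pos (by norm_num)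
  rw [h2]
  linarith

theorem plb_zero_term (κ : ℤ) : (bb κ 0).re = 0 := by rw [bb_zero]; rfl

theorem L_zero : ∃ K : ℝ, 0 < K ∧ ∀ α : ℝ, 0 < α → α ≤ 1 →
    Summable (fun n : ℕ => (bb 0 n).re * (n : ℝ) ^ (-(1 + α))) ∧
    ∑' n : ℕ, (bb 0 n).re * (n : ℝ) ^ (-(1 + α)) ≤ K / α := by
  refine ⟨10, by norm_num, ?_⟩
  intro α h0 h1
  have hb : ∀ N : ℕ, ∑ i ∈ range N, (bb 0 i).re * (i : ℝ) ^ (-(1 + α)) ≤ 10 / α := by
    intro N
    have h2 := plb_abel (fun n => (bb 0 n).re) (plb_zero_term 0) h0 h1 (plb_triv 0) N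
    have h3 : ∑ i ∈ Icc 1 N, |∑ m ∈ Icc 1 i, (bb 0 m).re| * (i : ℝ) ^ (-(2 + α)) ≤
        2 * (1 + 1 / α) := by
      calc ∑ i ∈ Icc 1 N, |∑ m ∈ Icc 1 i, (bb 0 m).re| * (i : ℝ) ^ (-(2 + α))
          ≤ ∑ i ∈ Icc 1 N, 2 * (i : ℝ) ^ (-(1 + α)) := by
            apply Finset.sum_le_sum
            intro i hi
            rw [Finset.mem_Icc] at hi
            have hi0 : (0 : ℝ) < i := by exact_mod_cast hi.1
            calc |∑ m ∈ Icc 1 i, (bb 0 m).re| * (i : ℝ) ^ (-(2 + α))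
                ≤ 2 * i * (i : ℝ) ^ (-(2 + α)) :=
                  mul_le_mul_of_nonneg_right (plb_triv 0 i) (by positivity)
              _ = 2 * (i : ℝ) ^ (-(1 + α)) := by
                  rw [show -(1 + α) = 1 + -(2 + α) by ring, Real.rpow_add hi0, Real.rpow_one]
                  ring
        _ = 2 * ∑ i ∈ Icc 1 N, (i : ℝ) ^ (-(1 + α)) := by rw [Finset.mul_sum]
        _ ≤ 2 * (1 + 1 / α) := mul_le_mul_of_nonneg_left (plb_sum_rpow h0 N) (by norm_num)
    have h4 : (1 : ℝ) ≤ 1 / α := by rw [le_div_iff₀ h0]; linarith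
    have h5 : 10 / α = 10 * (1 / α) := by ring
    rw [h5]
    have h6 := le_abs_self (∑ i ∈ range N, (bb 0 i).re * (i : ℝ) ^ (-(1 + α)))
    linarith
  have hnn : ∀ n : ℕ, 0 ≤ (bb 0 n).re * (n : ℝ) ^ (-(1 + α)) := by
    intro n
    have : 0 ≤ (bb 0 n).re := (norm_nonneg _).trans (norm_bb_le 0 n)
    positivity
  have hs : Summable (fun n : ℕ => (bb 0 n).re * (n : ℝ) ^ (-(1 + α))) :=
    summable_of_sum_range_le hnn hb
  exact ⟨hs, Real.tsum_le_of_sum_range_le hnn hb⟩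

theorem plb_summable (κ : ℤ) {α : ℝ} (h0 : 0 < α) (h1 : α ≤ 1) :
    Summable (fun n : ℕ => (bb κ n).re * (n : ℝ) ^ (-(1 + α))) := by
  obtain ⟨K, _, hK⟩ := L_zero
  obtain ⟨hs, _⟩ := hK α h0 h1
  refine Summable.of_norm_bounded hs (fun n => ?_)
  rw [norm_mul, Real.norm_eq_abs, Real.norm_eq_abs, abs_of_nonneg (by positivity :
    (0 : ℝ) ≤ (n : ℝ) ^ (-(1 + α)))]
  exact mul_le_mul_of_nonneg_right ((Complex.abs_re_le_norm _).trans (norm_bb_le κ n))
    (by positivity)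

theorem L_bound (B ε : ℝ) (hε : 0 < ε) : ∃ a0 : ℝ, 0 < a0 ∧ ∀ α : ℝ, 0 < α → α ≤ a0 → ∀ κ : ℤ,
    κ ≠ 0 → |(κ : ℝ)| ≤ Real.exp (B / α) →
    |∑' n : ℕ, (bb κ n).re * (n : ℝ) ^ (-(1 + α))| ≤ ε / α := by
  set C : ℝ := 8 * |B| / ε + 1 with hC
  have hC1 : 1 ≤ C := by
    have : 0 ≤ 8 * |B| / ε := by positivity
    rw [hC]; linarith
  have hC0 : 0 < C := by linarith
  obtain ⟨c, K, hc, _, hK, hst⟩ := st_prim C
  set W : ℝ := 6 + K * (1 + 1 / c) with hW
  have hW0 : 0 < W := by positivity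
  refine ⟨min 1 (ε / (2 * W)), by positivity, ?_⟩
  intro α h0 hα κ hκ hκB
  have h1 : α ≤ 1 := hα.trans (min_le_left _ _)
  have h2 : α ≤ ε / (2 * W) := hα.trans (min_le_right _ _)
  have hκ1 : (1 : ℝ) ≤ |(κ : ℝ)| := by
    have : (1 : ℤ) ≤ |κ| := Int.one_le_abs hκ
    exact_mod_cast this
  have hκ0 : (0 : ℝ) < |(κ : ℝ)| := by linarith
  set T : ℝ := |(κ : ℝ)| ^ (1 / C) with hT
  have hT1 : 1 ≤ T := Real.one_le_rpow hκ1 (by positivity)
  have hlogT : Real.log T ≤ |B| / α / C := by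
    rw [hT, Real.log_rpow hκ0]
    have h3 : Real.log |(κ : ℝ)| ≤ |B| / α := by
      calc Real.log |(κ : ℝ)| ≤ B / α := by
            rw [Real.log_le_iff_le_exp hκ0]
            exact hκB
        _ ≤ |B| / α := by gcongr; exact le_abs_self B
    calc 1 / C * Real.log |(κ : ℝ)| ≤ 1 / C * (|B| / α) :=
          mul_le_mul_of_nonneg_left h3 (by positivity)
      _ = |B| / α / C := by ring
  have hbig : ∀ n : ℕ, T ≤ n → |∑ m ∈ Icc 1 n, (bb κ m).re| ≤ K / 2 * (n : ℝ) ^ (1 - c) := by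
    intro n hn
    have hn1 : (1 : ℝ) ≤ n := hT1.trans hn
    have h3 : |(κ : ℝ)| ≤ (n : ℝ) ^ C := by
      calc |(κ : ℝ)| = T ^ C := by
            rw [hT, ← Real.rpow_mul hκ0.le]
            have : 1 / C * C = 1 := by field_simp
            rw [this, Real.rpow_one]
        _ ≤ (n : ℝ) ^ C := Real.rpow_le_rpow (by linarith) hn hC0.le
    have h4 := hst (n : ℝ) hn1 κ hκ h3
    rw [plb_sum_re, abs_mul, abs_of_pos (by norm_num : (0 : ℝ) < 1 / 2)]
    have h5 := (Complex.abs_re_le_norm (∑ z ∈ pan 0 (n : ℝ), uu z ^ κ)).trans h4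
    linarith
  have hb : ∀ N : ℕ, |∑ i ∈ range N, (bb κ i).re * (i : ℝ) ^ (-(1 + α))| ≤ ε / α := by
    intro N
    have h3 := plb_abel (fun n => (bb κ n).re) (plb_zero_term κ) h0 h1 (plb_triv κ) N
    have h4 : ∑ i ∈ Icc 1 N, |∑ m ∈ Icc 1 i, (bb κ m).re| * (i : ℝ) ^ (-(2 + α)) ≤
        2 * (1 + Real.log T) + K / 2 * (1 + 1 / c) := by
      calc ∑ i ∈ Icc 1 N, |∑ m ∈ Icc 1 i, (bb κ m).re| * (i : ℝ) ^ (-(2 + α))
          ≤ ∑ i ∈ Icc 1 N, ((if i ≤ ⌊T⌋₊ then 2 * (i : ℝ)⁻¹ else 0) +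
              K / 2 * (i : ℝ) ^ (-(1 + c))) := by
            apply Finset.sum_le_sum
            intro i hi
            rw [Finset.mem_Icc] at hi
            have hi1 : (1 : ℝ) ≤ i := by exact_mod_cast hi.1
            have hi0 : (0 : ℝ) < i := by linarith
            have hp2 : 0 ≤ (i : ℝ) ^ (-(2 + α)) := by positivity
            split_ifs with hiT
            · have h5 : |∑ m ∈ Icc 1 i, (bb κ m).re| * (i : ℝ) ^ (-(2 + α)) ≤ 2 * (i : ℝ)⁻¹ := by
                calc |∑ m ∈ Icc 1 i, (bb κ m).re| * (i : ℝ) ^ (-(2 + α))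
                    ≤ 2 * i * (i : ℝ) ^ (-(2 : ℝ)) := by
                      apply mul_le_mul (plb_triv κ i) _ hp2 (by positivity)
                      exact Real.rpow_le_rpow_of_exponent_le hi1 (by linarith)
                  _ = 2 * (i : ℝ)⁻¹ := by
                      rw [Real.rpow_neg hi0.le, Real.rpow_two]
                      field_simp
              have h6 : 0 ≤ K / 2 * (i : ℝ) ^ (-(1 + c)) := by positivity
              linarith
            · have hiT' : T ≤ i := by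
                push Not at hiT
                exact (Nat.lt_of_floor_lt hiT).le
              calc |∑ m ∈ Icc 1 i, (bb κ m).re| * (i : ℝ) ^ (-(2 + α))
                  ≤ K / 2 * (i : ℝ) ^ (1 - c) * (i : ℝ) ^ (-(2 : ℝ)) := by
                    apply mul_le_mul (hbig i hiT') _ hp2 (by positivity)
                    exact Real.rpow_le_rpow_of_exponent_le hi1 (by linarith)
                _ = 0 + K / 2 * (i : ℝ) ^ (-(1 + c)) := by
                    rw [mul_assoc, ← Real.rpow_add hi0, zero_add]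
                    congr 2
                    ring
        _ = ∑ i ∈ Icc 1 N, (if i ≤ ⌊T⌋₊ then 2 * (i : ℝ)⁻¹ else 0) +
              K / 2 * ∑ i ∈ Icc 1 N, (i : ℝ) ^ (-(1 + c)) := by
            rw [Finset.sum_add_distrib, Finset.mul_sum]
        _ ≤ 2 * (1 + Real.log T) + K / 2 * (1 + 1 / c) := by
            apply add_le_add
            · have h5 := harmonic_floor_le_one_add_log T hT1
              calc ∑ i ∈ Icc 1 N, (if i ≤ ⌊T⌋₊ then 2 * (i : ℝ)⁻¹ else 0)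
                  = ∑ i ∈ (Icc 1 N).filter (fun i => i ≤ ⌊T⌋₊), 2 * (i : ℝ)⁻¹ := by
                    rw [Finset.sum_filter]
                _ ≤ ∑ i ∈ Icc 1 ⌊T⌋₊, 2 * (i : ℝ)⁻¹ := by
                    apply Finset.sum_le_sum_of_subset_of_nonneg
                    · intro i hi
                      rw [Finset.mem_filter, Finset.mem_Icc] at hi
                      rw [Finset.mem_Icc]
                      omega
                    · intro i _ _
                      positivity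
                _ = 2 * ((harmonic ⌊T⌋₊ : ℚ) : ℝ) := by
                    rw [← Finset.mul_sum, harmonic_eq_sum_Icc]
                    push_cast
                    rfl
                _ ≤ 2 * (1 + Real.log T) := mul_le_mul_of_nonneg_left h5 (by norm_num)
            · exact mul_le_mul_of_nonneg_left (plb_sum_rpow hc N) (by positivity)
    have h5 : 4 * Real.log T ≤ ε / (2 * α) := by
      have h6 : 8 * |B| ≤ ε * C := by
        rw [hC, mul_add, mul_div_assoc']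
        have : ε * (8 * |B|) / ε = 8 * |B| := by field_simp
        rw [this]
        linarith
      calc 4 * Real.log T ≤ 4 * (|B| / α / C) := by linarith
        _ = 8 * |B| / (2 * α * C) := by field_simp; ring
        _ ≤ ε * C / (2 * α * C) := by gcongr
        _ = ε / (2 * α) := by field_simp
    have h6 : W ≤ ε / (2 * α) := by
      rw [le_div_iff₀ (by positivity)]
      rw [le_div_iff₀ (by positivity)] at h2
      linarith
    have h7 : ε / α = ε / (2 * α) + ε / (2 * α) := by field_simp; ring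
    have h8 : (2 : ℝ) + 2 * (2 * (1 + Real.log T) + K / 2 * (1 + 1 / c)) =
        W + 4 * Real.log T := by rw [hW]; ring
    rw [h7]
    calc |∑ i ∈ range N, (bb κ i).re * (i : ℝ) ^ (-(1 + α))| ≤ _ := h3
      _ ≤ 2 + 2 * (2 * (1 + Real.log T) + K / 2 * (1 + 1 / c)) := by linarith
      _ ≤ _ := by rw [h8]; linarith
  have hs := plb_summable κ h0 h1
  have ht := hs.hasSum.tendsto_sum_nat
  exact le_of_tendsto ht.abs (Filter.Eventually.of_forall hb)

end Pool.Agent.MRS
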