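import Pool.Agent.MRS.Man2

set_option autoImplicit false

/-! Module MB2 (chain1), as MA2 (`Chain.lean`). -/

open Finset

namespace Pool.Agent.MRS

theorem MB2_Bd_mono (g : GI → ℂ) (θ : ℂ) {a b : ℝ} (h : a ≤ b) : Bd1 g θ a ⊆ Bd1 g θ b := by
  classical
  intro e he
  unfold Bd1 at he ⊢
  rw [Finset.mem_filter, Finset.mem_product, mem_bl, mem_bl] at he
  rw [Finset.mem_filter, Finset.mem_product, mem_bl, mem_bl]
  exact ⟨⟨⟨he.1.1.1, he.1.1.2.trans h⟩, ⟨he.1.2.1, he.1.2.2.trans h⟩⟩, he.2⟩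

theorem MB2_Od5 : Od (⟨1, 2⟩ : GI) ∧ 5 ≤ nm (⟨1, 2⟩ : GI) := by
  refine ⟨⟨by norm_num, by norm_num⟩, ?_⟩
  have h := nm_int (⟨1, 2⟩ : GI)
  have h2 : (nm (⟨1, 2⟩ : GI) : ℤ) = 5 := by rw [h]; norm_num
  omega

/-- number of scales -/
theorem MB2_scales (Λ : ℝ) (hΛ : 1 ≤ Λ) : ∃ m : ℕ, (3 / 2 : ℝ) ^ m ≤ Λ ∧ Λ < (3 / 2 : ℝ) ^ (m + 1) := by
  have h := exists_nat_pow_near hΛ (by norm_num : (1 : ℝ) < 3 / 2)
  exact h

/-- covering by the annuli -/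
theorem MB2_cover (m : ℕ) (N x : ℝ) (hN : 0 < N) (h1 : N < x) (h2 : x ≤ (3 / 2 : ℝ) ^ (m + 1) * N) :
    ∃ i : ℕ, i ≤ m ∧ (3 / 2 : ℝ) ^ i * N < x ∧ x ≤ 3 * ((3 / 2 : ℝ) ^ i * N) := by
  induction m with
  | zero =>
    refine ⟨0, le_rfl, by simpa using h1, ?_⟩
    norm_num at h2 ⊢
    linarith
  | succ m ih =>
    by_cases h3 : x ≤ (3 / 2 : ℝ) ^ (m + 1) * N
    · obtain ⟨i, hi, h⟩ := ih h3
      exact ⟨i, by omega, h⟩
    · refine ⟨m + 1, le_rfl, not_le.mp h3, ?_⟩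
      rw [pow_succ] at h2
      have h4 : 0 < (3 / 2 : ℝ) ^ (m + 1) * N := by positivity
      nlinarith

theorem chain1 (k : ℕ) (hk : 1 ≤ k) (Λ : ℝ) (hΛ : 1 ≤ Λ) (δ' : ℝ) (hδ : 0 < δ') :
    ∃ η N0 : ℝ, 0 < η ∧ 1 ≤ N0 ∧
    ∀ N : ℝ, N0 ≤ N → ∀ f : ℕ → ℂ, CM f → (∀ n, 0 < n → f n ^ k = 1) → ∀ θ : ℂ, ‖θ‖ = 1 →
    ((Bd1 (gf f) θ (12 * Λ * N)).card : ℝ) < η * N →
    ∃ γ : ℂ, γ ^ k = 1 ∧ open Classical in
      (((pan N (Λ * N)).filter (fun z => gf f z ≠ γ)).card : ℝ) ≤ δ' * N := by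
  classical
  obtain ⟨m, hm1, hm2⟩ := MB2_scales Λ hΛ
  obtain ⟨c, Y0, hc, hY0, hpan⟩ := card_pan
  have hm0 : (0 : ℝ) < (m : ℝ) + 1 := by positivity
  set δ1 : ℝ := min (c / 3) (δ' / (((m : ℝ) + 1) * Λ)) with hδ1
  have hδ1pos : 0 < δ1 := lt_min (by positivity) (by positivity)
  have hδ1c : δ1 ≤ c / 3 := min_le_left _ _
  have hδ1d : δ1 * (((m : ℝ) + 1) * Λ) ≤ δ' := by
    have h := min_le_right (c / 3) (δ' / (((m : ℝ) + 1) * Λ))
    rw [← hδ1, le_div_iff₀ (by positivity)] at h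
    exact h
  obtain ⟨η, N1, hη, hN1, hone⟩ := one_scale1 k hk δ1 hδ1pos
  refine ⟨η, max N1 Y0, hη, hN1.trans (le_max_left _ _), ?_⟩
  intro N hN f hf hfk θ hθ hBd
  have hNN1 : N1 ≤ N := (le_max_left _ _).trans hN
  have hNY0 : Y0 ≤ N := (le_max_right _ _).trans hN
  have hN0 : 0 < N := by linarith
  -- scales
  have hs1 : ∀ i : ℕ, N ≤ (3 / 2 : ℝ) ^ i * N := by
    intro i
    have : (1 : ℝ) ≤ (3 / 2 : ℝ) ^ i := one_le_pow₀ (by norm_num)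
    nlinarith
  have hs2 : ∀ i : ℕ, i ≤ m → (3 / 2 : ℝ) ^ i * N ≤ Λ * N := by
    intro i hi
    apply mul_le_mul_of_nonneg_right _ hN0.le
    exact (pow_le_pow_right₀ (by norm_num) hi).trans hm1
  have hex : ∀ i : ℕ, ∃ γ : ℂ, i ≤ m → γ ^ k = 1 ∧
      (((pan ((3 / 2 : ℝ) ^ i * N) (3 * ((3 / 2 : ℝ) ^ i * N))).filter
        (fun z => gf f z ≠ γ)).card : ℝ) ≤ δ1 * ((3 / 2 : ℝ) ^ i * N) := by
    intro i
    by_cases hi : i ≤ m
    · have h1 : ((Bd1 (gf f) θ (12 * ((3 / 2 : ℝ) ^ i * N))).card : ℝ) < η * ((3 / 2 : ℝ) ^ i * N) := by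
        have h2 : ((Bd1 (gf f) θ (12 * ((3 / 2 : ℝ) ^ i * N))).card : ℝ)
            ≤ ((Bd1 (gf f) θ (12 * Λ * N)).card : ℝ) := by
          exact_mod_cast Finset.card_le_card (MB2_Bd_mono _ _ (by linarith [hs2 i hi]))
        have h3 : η * N ≤ η * ((3 / 2 : ℝ) ^ i * N) := mul_le_mul_of_nonneg_left (hs1 i) hη.le
        linarith
      obtain ⟨γ, hγ1, hγ2⟩ := hone ((3 / 2 : ℝ) ^ i * N) (hNN1.trans (hs1 i)) f hf hfk θ hθ h1
      refine ⟨γ, fun _ => ⟨hγ1, ?_⟩⟩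
      refine le_trans (le_of_eq ?_) hγ2
      congr 2
    · exact ⟨1, fun h => absurd h hi⟩
  choose γ hγ using hex
  -- consecutive values agree
  have hstep : ∀ i : ℕ, i + 1 ≤ m → γ i = γ (i + 1) := by
    intro i hi
    by_contra hne
    obtain ⟨_, h1⟩ := hγ i (by omega)
    obtain ⟨_, h2⟩ := hγ (i + 1) hi
    set Y : ℝ := (3 / 2 : ℝ) ^ (i + 1) * N with hY
    have hYi : (3 / 2 : ℝ) ^ i * N = 2 / 3 * Y := by
      rw [hY, pow_succ]; ring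
    have hY1 : Y0 ≤ Y := hNY0.trans (hs1 (i + 1))
    have hY0' : 0 < Y := by linarith
    have h3 := hpan Y hY1 ⟨1, 2⟩ MB2_Od5.1 MB2_Od5.2 (2 * Y) (by linarith) (by linarith)
    have hsub : (pan Y (2 * Y)).filter (fun z => ¬ (⟨1, 2⟩ : GI) ∣ z) ⊆
        ((pan ((3 / 2 : ℝ) ^ i * N) (3 * ((3 / 2 : ℝ) ^ i * N))).filter
          (fun z => gf f z ≠ γ i)) ∪
        ((pan Y (3 * Y)).filter (fun z => gf f z ≠ γ (i + 1))) := by
      intro z hz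
      rw [Finset.mem_filter, mem_pan] at hz
      rw [Finset.mem_union, Finset.mem_filter, Finset.mem_filter, mem_pan, mem_pan, hYi]
      obtain ⟨⟨ho, hp, ha, hb⟩, _⟩ := hz
      by_cases hg : gf f z = γ i
      · right
        refine ⟨⟨ho, hp, ha, by linarith⟩, ?_⟩
        rw [hg]
        exact hne
      · left
        exact ⟨⟨ho, hp, by linarith, by linarith⟩, hg⟩
    have h4 : (((pan Y (2 * Y)).filter (fun z => ¬ (⟨1, 2⟩ : GI) ∣ z)).card : ℝ) ≤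
        (((pan ((3 / 2 : ℝ) ^ i * N) (3 * ((3 / 2 : ℝ) ^ i * N))).filter
          (fun z => gf f z ≠ γ i)).card : ℝ) +
        (((pan Y (3 * Y)).filter (fun z => gf f z ≠ γ (i + 1))).card : ℝ) := by
      exact_mod_cast (Finset.card_le_card hsub).trans (Finset.card_union_le _ _)
    have h5 : c * Y ≤ (((pan Y (2 * Y)).filter (fun z => ¬ (⟨1, 2⟩ : GI) ∣ z)).card : ℝ) := by
      refine h3.trans (le_of_eq ?_)
      congr 2
    rw [hYi] at h1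
    have h6 : δ1 * (2 / 3 * Y) + δ1 * Y < c * Y := by nlinarith
    rw [hYi] at h4
    linarith
  have hall : ∀ i : ℕ, i ≤ m → γ i = γ 0 := by
    intro i
    induction i with
    | zero => intro _; rfl
    | succ i ih =>
      intro hi
      rw [← hstep i hi]
      exact ih (by omega)
  refine ⟨γ 0, (hγ 0 (by omega)).1, ?_⟩
  have hcov : (pan N (Λ * N)).filter (fun z => gf f z ≠ γ 0) ⊆
      (Finset.range (m + 1)).biUnion (fun i =>
        (pan ((3 / 2 : ℝ) ^ i * N) (3 * ((3 / 2 : ℝ) ^ i * N))).filter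
          (fun z => gf f z ≠ γ i)) := by
    intro z hz
    rw [Finset.mem_filter, mem_pan] at hz
    obtain ⟨⟨ho, hp, ha, hb⟩, hg⟩ := hz
    obtain ⟨i, hi, h1, h2⟩ := MB2_cover m N (nm z) hN0 ha
      (hb.trans (mul_le_mul_of_nonneg_right hm2.le hN0.le))
    rw [Finset.mem_biUnion]
    refine ⟨i, Finset.mem_range.mpr (by omega), ?_⟩
    rw [Finset.mem_filter, mem_pan, hall i hi]
    exact ⟨⟨ho, hp, h1, h2⟩, hg⟩
  have hcount : (((pan N (Λ * N)).filter (fun z => gf f z ≠ γ 0)).card : ℝ) ≤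
      ∑ i ∈ Finset.range (m + 1),
        (((pan ((3 / 2 : ℝ) ^ i * N) (3 * ((3 / 2 : ℝ) ^ i * N))).filter
          (fun z => gf f z ≠ γ i)).card : ℝ) := by
    exact_mod_cast (Finset.card_le_card hcov).trans Finset.card_biUnion_le
  have hsum : ∑ i ∈ Finset.range (m + 1),
        (((pan ((3 / 2 : ℝ) ^ i * N) (3 * ((3 / 2 : ℝ) ^ i * N))).filter
          (fun z => gf f z ≠ γ i)).card : ℝ) ≤ ∑ i ∈ Finset.range (m + 1), δ1 * (Λ * N) := by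
    apply Finset.sum_le_sum
    intro i hi
    rw [Finset.mem_range] at hi
    exact ((hγ i (by omega)).2).trans
      (mul_le_mul_of_nonneg_left (hs2 i (by omega)) hδ1pos.le)
  have hfin : ∑ i ∈ Finset.range (m + 1), δ1 * (Λ * N) = δ1 * (((m : ℝ) + 1) * Λ) * N := by
    rw [Finset.sum_const, Finset.card_range, nsmul_eq_mul]
    push_cast
    ring
  refine hcount.trans (hsum.trans ?_)
  rw [hfin]
  exact mul_le_mul_of_nonneg_right hδ1d hN0.le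

end Pool.Agent.MRS
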