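import Mathlib

set_option autoImplicit false

/-! Module CON: concentration of roots of unity.  `|∑ g|^2 = ∑ Re(g_i conj g_j) ≤ |S|^2 - c_k #{(i,j) : g_i ≠ g_j}`,
`c_k = min_{ζ^k = 1, ζ ≠ 1} (1 - Re ζ) > 0`; average over `i`. -/

open Finset

namespace Pool.Agent.MRS

theorem CON_min (F : Finset ℂ) (hF : ∀ z ∈ F, 0 < 1 - z.re) :
    ∃ c : ℝ, 0 < c ∧ ∀ z ∈ F, c ≤ 1 - z.re := by
  classical
  induction F using Finset.induction_on with
  | empty => exact ⟨1, one_pos, fun z hz => absurd hz (Finset.notMem_empty z)⟩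
  | insert a F _ ih =>
    obtain ⟨c, hc, h⟩ := ih fun z hz => hF z (Finset.mem_insert_of_mem hz)
    refine ⟨min c (1 - a.re), lt_min hc (hF a (Finset.mem_insert_self a F)), fun z hz => ?_⟩
    rcases Finset.mem_insert.1 hz with rfl | hz
    · exact min_le_right _ _
    · exact (min_le_left _ _).trans (h z hz)

theorem CON_gap (k : ℕ) (hk : 1 ≤ k) : ∃ c : ℝ, 0 < c ∧ ∀ z : ℂ, z ^ k = 1 → z ≠ 1 →
    z.re ≤ 1 - c := by
  classical
  obtain ⟨c, hc, h⟩ := CON_min ((Polynomial.nthRootsFinset k (1 : ℂ)).erase 1) (by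
    intro z hz
    rw [Finset.mem_erase, Polynomial.mem_nthRootsFinset (by omega)] at hz
    obtain ⟨hz1, hz2⟩ := hz
    have hn : ‖z‖ = 1 := by
      have h1 : ‖z‖ ^ k = 1 := by rw [← norm_pow, hz2, norm_one]
      exact (pow_eq_one_iff_of_nonneg (norm_nonneg _) (by omega)).1 h1
    have h2 : z.re ≤ 1 := by rw [← hn]; exact Complex.re_le_norm z
    rcases lt_or_eq_of_le h2 with h3 | h3
    · linarith
    · exfalso
      apply hz1
      have h4 : Complex.normSq z = 1 := by rw [Complex.normSq_eq_norm_sq, hn]; norm_num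
      rw [Complex.normSq_apply, h3] at h4
      have h5 : z.im = 0 := by nlinarith [sq_nonneg z.im]
      exact Complex.ext (by simpa using h3) (by simpa using h5))
  refine ⟨c, hc, fun z hz hz1 => ?_⟩
  have := h z (by
    rw [Finset.mem_erase, Polynomial.mem_nthRootsFinset (by omega)]
    exact ⟨hz1, hz⟩)
  linarith

theorem conc (k : ℕ) (hk : 1 ≤ k) (δ' : ℝ) (hδ : 0 < δ') : ∃ δ : ℝ, 0 < δ ∧
    ∀ (ι : Type) (S : Finset ι) (g : ι → ℂ), (∀ i ∈ S, g i ^ k = 1) →
    (1 - δ) * (S.card : ℝ) ^ 2 ≤ ‖∑ i ∈ S, g i‖ ^ 2 →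
    ∃ γ : ℂ, γ ^ k = 1 ∧ open Classical in ((S.filter (fun i => g i ≠ γ)).card : ℝ) ≤ δ' * S.card := by
  classical
  obtain ⟨c, hc, hgap⟩ := CON_gap k hk
  refine ⟨c * δ', mul_pos hc hδ, fun ι S g hg h => ?_⟩
  rcases S.eq_empty_or_nonempty with rfl | hne
  · exact ⟨1, one_pow k, by simp⟩
  by_contra hcon
  push_neg at hcon
  have hn : ∀ i ∈ S, ‖g i‖ = 1 := by
    intro i hi
    have h1 : ‖g i‖ ^ k = 1 := by rw [← norm_pow, hg i hi, norm_one]
    exact (pow_eq_one_iff_of_nonneg (norm_nonneg _) (by omega)).1 h1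
  have hexp : ‖∑ i ∈ S, g i‖ ^ 2 = ∑ i ∈ S, ∑ j ∈ S, (g j * (starRingEnd ℂ) (g i)).re := by
    have h1 : ((‖∑ i ∈ S, g i‖ ^ 2 : ℝ) : ℂ) = (∑ i ∈ S, g i) * (starRingEnd ℂ) (∑ i ∈ S, g i) := by
      rw [Complex.mul_conj, Complex.normSq_eq_norm_sq]
    have h2 : (∑ i ∈ S, g i) * (starRingEnd ℂ) (∑ i ∈ S, g i) =
        ∑ i ∈ S, ∑ j ∈ S, g j * (starRingEnd ℂ) (g i) := by
      rw [map_sum, Finset.mul_sum]
      refine Finset.sum_congr rfl fun i _ => ?_
      rw [Finset.sum_mul]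
    have h3 := congrArg Complex.re (h1.trans h2)
    rw [Complex.ofReal_re] at h3
    rw [h3, Complex.re_sum]
    refine Finset.sum_congr rfl fun i _ => ?_
    rw [Complex.re_sum]
  have hterm : ∀ i ∈ S, ∑ j ∈ S, (g j * (starRingEnd ℂ) (g i)).re ≤
      S.card - c * ((S.filter (fun j => g j ≠ g i)).card : ℝ) := by
    intro i hi
    have h1 : ∀ j ∈ S, (g j * (starRingEnd ℂ) (g i)).re ≤ 1 - if g j ≠ g i then c else 0 := by
      intro j hj
      split_ifs with hji
      · refine hgap _ ?_ ?_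
        · rw [mul_pow, hg j hj, one_mul, ← map_pow, hg i hi, map_one]
        · intro h2
          apply hji
          have h3 : g j * (starRingEnd ℂ) (g i) * g i = g i := by rw [h2, one_mul]
          rw [mul_assoc, Complex.conj_mul', hn i hi] at h3
          simpa using h3
      · push_neg at hji
        rw [hji, Complex.mul_conj, Complex.normSq_eq_norm_sq, hn i hi]
        simp
    refine (Finset.sum_le_sum h1).trans (le_of_eq ?_)
    rw [Finset.sum_sub_distrib, ← Finset.sum_filter]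
    simp only [Finset.sum_const, nsmul_eq_mul]
    ring
  have hlt : ∑ i ∈ S, ∑ j ∈ S, (g j * (starRingEnd ℂ) (g i)).re <
      ∑ i ∈ S, ((S.card : ℝ) - c * (δ' * S.card)) := by
    refine Finset.sum_lt_sum_of_nonempty hne fun i hi => ?_
    refine (hterm i hi).trans_lt ?_
    have h2 := hcon (g i) (hg i hi)
    have h3 : c * (δ' * S.card) < c * ((S.filter (fun j => g j ≠ g i)).card : ℝ) := by
      refine mul_lt_mul_of_pos_left ?_ hc
      convert h2
    linarith
  rw [← hexp, Finset.sum_const, nsmul_eq_mul] at hlt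
  nlinarith

end Pool.Agent.MRS
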