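import Pool.Agent.MRS.Tk
import Pool.Agent.MRS.Mvt

set_option autoImplicit false

/-! Module DEC: Ramare decomposition.  Port of `Pool/Agent/MR/ADecomp.lean`. -/

open Finset

namespace Pool.Agent.MRS

/-- the scale attached to `p` -/
noncomputable def dec_xp (H : ℕ) (N : ℝ) (p : GI) : ℝ := N / Real.exp ((bi H p : ℝ) / H)

theorem dec_exp_le {p : GI} {H : ℕ} (hp : 1 ≤ nm p) (hH : 1 ≤ H) :
    Real.exp ((bi H p : ℝ) / H) ≤ nm p := by
  have hp' : (1 : ℝ) ≤ nm p := by exact_mod_cast hp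
  have hH' : (1 : ℝ) ≤ H := by exact_mod_cast hH
  have hl : 0 ≤ Real.log (nm p : ℝ) := Real.log_nonneg hp'
  rw [← Real.le_log_iff_exp_le (by linarith)]
  rw [div_le_iff₀ (by linarith)]
  have := Nat.floor_le (mul_nonneg (by linarith : (0 : ℝ) ≤ H) hl)
  unfold bi
  linarith

theorem dec_lt_exp {p : GI} {H : ℕ} (hp : 1 ≤ nm p) (hH : 1 ≤ H) :
    (nm p : ℝ) < Real.exp ((bi H p : ℝ) / H) * Real.exp (1 / H) := by
  have hp' : (1 : ℝ) ≤ nm p := by exact_mod_cast hp
  have hH' : (1 : ℝ) ≤ H := by exact_mod_cast hH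
  rw [← Real.exp_add, ← Real.log_lt_iff_lt_exp (by linarith)]
  rw [← add_div, lt_div_iff₀ (by linarith)]
  have := Nat.lt_floor_add_one ((H : ℝ) * Real.log (nm p : ℝ))
  unfold bi
  linarith

theorem dec_exp_one_div {H : ℕ} (hH : 1 ≤ H) : Real.exp (1 / (H : ℝ)) ≤ 1 + 2 / H := by
  have hH' : (1 : ℝ) ≤ H := by exact_mod_cast hH
  have hx0 : 0 ≤ 1 / (H : ℝ) := by positivity
  have hx1 : 1 / (H : ℝ) ≤ 1 := by
    rw [div_le_one (by linarith)]; exact hH'
  have h := Real.abs_exp_sub_one_sub_id_le (x := 1 / (H : ℝ)) (by rw [abs_of_nonneg hx0]; exact hx1)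
  have h2 := (abs_le.1 h).2
  have h3 : (1 / (H : ℝ)) ^ 2 ≤ 1 / (H : ℝ) := by nlinarith
  have h4 : (2 : ℝ) / H = 2 * (1 / H) := by ring
  rw [h4]
  linarith

theorem dec_exp_lt {H : ℕ} (hH : 1 ≤ H) : Real.exp (1 / (H : ℝ)) < 3 := by
  have hH' : (1 : ℝ) ≤ H := by exact_mod_cast hH
  have : Real.exp (1 / (H : ℝ)) ≤ Real.exp 1 := by
    apply Real.exp_le_exp.2
    rw [div_le_one (by linarith)]; exact hH'
  have := Real.exp_one_lt_d9
  linarith

theorem dec_xp_pos {H : ℕ} {N : ℝ} (hN : 1 ≤ N) (p : GI) : 0 < dec_xp H N p :=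
  div_pos (by linarith) (Real.exp_pos _)

/-- range of the norm of the product -/
theorem dec_range {H : ℕ} (hH : 1 ≤ H) {N : ℝ} {p m : GI} (hp : 1 ≤ nm p)
    (h3 : dec_xp H N p < nm m) (h4 : (nm m : ℝ) ≤ 3 * dec_xp H N p) :
    N < nm (p * m) ∧ (nm (p * m) : ℝ) ≤ 3 * (N * Real.exp (1 / (H : ℝ))) := by
  have h1 := dec_exp_le hp hH
  have h2 := dec_lt_exp hp hH
  unfold dec_xp at h3 h4
  rw [nm_mul]
  push_cast
  obtain ⟨E, hE⟩ : ∃ E, E = Real.exp ((bi H p : ℝ) / H) := ⟨_, rfl⟩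
  rw [← hE] at h1 h2 h3 h4
  have hEpos : 0 < E := by rw [hE]; exact Real.exp_pos _
  rw [div_lt_iff₀ hEpos] at h3
  have hm0 : (0 : ℝ) ≤ nm m := by positivity
  constructor
  · calc N < nm m * E := h3
      _ ≤ nm m * nm p := by gcongr
      _ = nm p * nm m := by ring
  · have h5 : (nm m : ℝ) * E ≤ 3 * N := by
      calc (nm m : ℝ) * E ≤ (3 * (N / E)) * E := by gcongr
        _ = 3 * N := by field_simp
    calc (nm p : ℝ) * nm m ≤ (E * Real.exp (1 / (H : ℝ))) * nm m := by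
          gcongr
      _ = (nm m * E) * Real.exp (1 / (H : ℝ)) := by ring
      _ ≤ (3 * N) * Real.exp (1 / (H : ℝ)) := by gcongr
      _ = _ := by ring

theorem dec_of_range {H : ℕ} (hH : 1 ≤ H) {N : ℝ} {p m : GI} (hp : 1 ≤ nm p)
    (h1 : N * Real.exp (1 / (H : ℝ)) < nm (p * m)) (h2 : (nm (p * m) : ℝ) ≤ 3 * N) :
    dec_xp H N p < nm m ∧ (nm m : ℝ) ≤ 3 * dec_xp H N p := by
  have h3 := dec_exp_le hp hH
  have h4 := dec_lt_exp hp hH
  unfold dec_xp
  rw [nm_mul] at h1 h2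
  push_cast at h1 h2
  obtain ⟨E, hE⟩ : ∃ E, E = Real.exp ((bi H p : ℝ) / H) := ⟨_, rfl⟩
  rw [← hE] at h3 h4 ⊢
  have hEpos : 0 < E := by rw [hE]; exact Real.exp_pos _
  have he1 := Real.exp_pos (1 / (H : ℝ))
  have hm0 : (0 : ℝ) ≤ nm m := by positivity
  constructor
  · rw [div_lt_iff₀ hEpos]
    have h5 : N * Real.exp (1 / (H : ℝ)) < (nm m * E) * Real.exp (1 / (H : ℝ)) := by
      have h6 : (nm p : ℝ) * nm m ≤ (E * Real.exp (1 / (H : ℝ))) * nm m := by
        gcongr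
      calc N * Real.exp (1 / (H : ℝ)) < nm p * nm m := h1
        _ ≤ (E * Real.exp (1 / (H : ℝ))) * nm m := h6
        _ = _ := by ring
    exact lt_of_mul_lt_mul_right h5 he1.le
  · have : 3 * (N / E) = (3 * N) / E := by ring
    rw [this, le_div_iff₀ hEpos]
    calc (nm m : ℝ) * E ≤ nm m * nm p := by gcongr
      _ = nm p * nm m := by ring
      _ ≤ 3 * N := h2

theorem dec_nm_natCast (n : ℕ) : nm (n : GI) = n ^ 2 := by
  have h := nm_int (n : GI)
  have h1 : (n : GI).re = n := rfl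
  have h2 : (n : GI).im = 0 := rfl
  rw [h1, h2] at h
  have : ((nm (n : GI) : ℕ) : ℤ) = ((n ^ 2 : ℕ) : ℤ) := by
    rw [h]
    push_cast
    ring
  exact_mod_cast this

theorem dec_mul_star (p : GI) : p * star p = ((nm p : ℕ) : GI) := by
  have h := nm_int p
  ext
  · have h1 : (((nm p : ℕ) : GI)).re = ((nm p : ℕ) : ℤ) := rfl
    rw [h1, h, Zsqrtd.re_mul, Zsqrtd.re_star, Zsqrtd.im_star]
    ring
  · have h1 : (((nm p : ℕ) : GI)).im = 0 := rfl
    rw [h1, Zsqrtd.im_mul, Zsqrtd.re_star, Zsqrtd.im_star]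
    ring

/-- a rational integer dividing a primitive element is a unit -/
theorem dec_prim_dvd {z : GI} (hz : Pr z) {q : ℕ} (h : (q : GI) ∣ z) : q = 1 := by
  obtain ⟨t, rfl⟩ := h
  have h1 : ((q : GI) * t).re = q * t.re := by
    rw [Zsqrtd.re_mul]
    have h1 : (q : GI).re = q := rfl
    have h2 : (q : GI).im = 0 := rfl
    rw [h1, h2]
    ring
  have h2 : ((q : GI) * t).im = q * t.im := by
    rw [Zsqrtd.im_mul]
    have h1 : (q : GI).re = q := rfl
    have h2 : (q : GI).im = 0 := rfl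
    rw [h1, h2]
    ring
  unfold Pr at hz
  rw [h1, h2, Int.gcd_mul_left] at hz
  have := Nat.eq_one_of_mul_eq_one_right hz
  simpa using this

/-- products with primes of the class are primitive unless there is a cancellation -/
theorem dec_Pr_mul {p m : GI} (hp : PP p) (hm' : Pr m) (h : ¬ star p ∣ m) :
    Pr (p * m) := by
  have hp0 : p ≠ 0 := Od_ne hp.1
  by_contra hcon
  obtain ⟨q, hq, hqd⟩ := Nat.exists_prime_and_dvd (n := Int.gcd (p * m).re (p * m).im) hcon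
  have hqr : (q : ℤ) ∣ (p * m).re := (Int.natCast_dvd_natCast.2 hqd).trans (Int.gcd_dvd_left ..)
  have hqi : (q : ℤ) ∣ (p * m).im := (Int.natCast_dvd_natCast.2 hqd).trans (Int.gcd_dvd_right ..)
  have hqz : (q : GI) ∣ p * m := by
    have := (Zsqrtd.intCast_dvd (d := -1) (q : ℤ) (p * m)).2 ⟨hqr, hqi⟩
    simpa using this
  obtain ⟨t, ht⟩ := hqz
  have hpp := PP_prime hp
  have hdvd : p ∣ (q : GI) * t := ⟨m, ht.symm⟩
  rcases hpp.dvd_or_dvd hdvd with hd | hd
  · have h1 : nm p ∣ q ^ 2 := by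
      obtain ⟨s, hs⟩ := hd
      rw [← dec_nm_natCast, hs, nm_mul]
      exact dvd_mul_right _ _
    have h2 : nm p ∣ q := hp.2.2.2.dvd_of_dvd_pow h1
    have h3 : nm p = q := (Nat.prime_dvd_prime_iff_eq hp.2.2.2 hq).1 h2
    apply h
    have h4 : p * m = p * (star p * t) := by
      rw [ht, ← h3, ← dec_mul_star]
      ring
    exact ⟨t, mul_left_cancel₀ hp0 h4⟩
  · obtain ⟨s, hs⟩ := hd
    have h4 : p * m = p * ((q : GI) * s) := by
      rw [ht, hs]
      ring
    have h5 := mul_left_cancel₀ hp0 h4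
    have h6 := dec_prim_dvd hm' ⟨s, h5⟩
    exact hq.one_lt.ne' h6

/-- the window condition -/
def dec_W (H : ℕ) (N : ℝ) (p z : GI) : Prop :=
  ∃ m : GI, z = p * m ∧ dec_xp H N p < nm m ∧ (nm m : ℝ) ≤ 3 * dec_xp H N p

open Classical in
/-- number of primes with the window condition -/
noncomputable def dec_rr (P : Finset GI) (H : ℕ) (N : ℝ) (z : GI) : ℕ :=
  (P.filter (fun p => dec_W H N p z)).card

open Classical in
/-- pairs with cancellation -/
noncomputable def dec_S (P : Finset GI) (H : ℕ) (N : ℝ) : Finset ((_ : GI) × GI) :=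
  P.sigma (fun p => (pan (dec_xp H N p) (3 * dec_xp H N p)).filter (fun m => star p ∣ m))

theorem dec_sum_blocks (G : GI → ℂ) (P : Finset GI) (H : ℕ) (N : ℝ) :
    ∑ v ∈ vs H P, ∑ p ∈ pb H P v, ∑ m ∈ pan (N / Real.exp (v / H)) (3 * (N / Real.exp (v / H))),
      G (p * m) = ∑ p ∈ P, ∑ m ∈ pan (dec_xp H N p) (3 * dec_xp H N p), G (p * m) := by
  rw [← Finset.sum_fiberwise_of_maps_to (s := P) (t := vs H P) (g := bi H)]
  · apply Finset.sum_congr rfl
    intro v hv
    apply Finset.sum_congr rfl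
    intro p hp
    have hp2 : bi H p = v := (mem_filter.1 hp).2
    unfold dec_xp
    rw [hp2]
  · intro p hp
    exact mem_image_of_mem _ hp

/-- the main identity -/
theorem dec_sum_prim (G : GI → ℂ) (P : Finset GI) (hP : ∀ p ∈ P, PP p) {H : ℕ}
    (hH : 1 ≤ H) {N : ℝ} (hN : 1 ≤ N) :
    open Classical in
    ∑ p ∈ P, ∑ m ∈ (pan (dec_xp H N p) (3 * dec_xp H N p)).filter (fun m => ¬ star p ∣ m),
      G (p * m) = ∑ z ∈ pan 0 (9 * N), (dec_rr P H N z : ℂ) * G z := by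
  classical
  have h2 : ∀ p ∈ P, ∑ m ∈ (pan (dec_xp H N p) (3 * dec_xp H N p)).filter (fun m => ¬ star p ∣ m),
      G (p * m) = ∑ z ∈ pan 0 (9 * N), if dec_W H N p z then G z else 0 := by
    intro p hp
    have hpP := hP p hp
    have hp0 : p ≠ 0 := Od_ne hpP.1
    have hp1 : 1 ≤ nm p := nm_pos hp0
    rw [← Finset.sum_filter]
    refine Finset.sum_bij (fun m _ => p * m) ?_ ?_ ?_ ?_
    · intro m hm
      rw [mem_filter, mem_pan] at hm
      obtain ⟨⟨hm1, hm2, hm3, hm4⟩, hm5⟩ := hm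
      have hr := dec_range hH hp1 hm3 hm4
      have he := dec_exp_lt hH
      rw [mem_filter, mem_pan]
      refine ⟨⟨Od_mul hpP.1 hm1, dec_Pr_mul hpP hm2 hm5, by linarith [hr.1], ?_⟩,
        m, rfl, hm3, hm4⟩
      have : 3 * (N * Real.exp (1 / (H : ℝ))) ≤ 9 * N := by nlinarith
      linarith [hr.2]
    · intro a _ b _ hab
      exact mul_left_cancel₀ hp0 hab
    · intro z hz
      rw [mem_filter, mem_pan] at hz
      obtain ⟨⟨hz1, hz2, hz3, hz4⟩, m, rfl, hm1, hm2⟩ := hz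
      refine ⟨m, ?_, rfl⟩
      rw [mem_filter, mem_pan]
      refine ⟨⟨Od_of_mul hpP.1 hz1, Pr_of_dvd (dvd_mul_left _ _) hz2, hm1, hm2⟩, ?_⟩
      rintro ⟨t, rfl⟩
      have h1 : ((nm p : ℕ) : GI) ∣ p * (star p * t) := by
        rw [← mul_assoc, dec_mul_star]
        exact dvd_mul_right _ _
      have h2 := dec_prim_dvd hz2 h1
      have h3 := PP_three_le hpP
      omega
    · intro m _
      rfl
  rw [Finset.sum_congr rfl h2, Finset.sum_comm]
  apply Finset.sum_congr rfl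
  intro z hz
  unfold dec_rr
  rw [← Finset.sum_filter, Finset.sum_const, nsmul_eq_mul]

theorem dec_rr_le (P : Finset GI) (H : ℕ) (N : ℝ) (z : GI) : dec_rr P H N z ≤ om P z := by
  classical
  unfold dec_rr om
  apply card_le_card
  intro p hp
  rw [mem_filter] at hp ⊢
  obtain ⟨m, hm, -⟩ := hp.2
  exact ⟨hp.1, m, hm⟩

theorem dec_rr_eq (P : Finset GI) (hP : ∀ p ∈ P, PP p) {H : ℕ} (hH : 1 ≤ H) {N : ℝ} {z : GI}
    (h1 : N * Real.exp (1 / (H : ℝ)) < nm z) (h2 : (nm z : ℝ) ≤ 3 * N) :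
    dec_rr P H N z = om P z := by
  classical
  refine le_antisymm (dec_rr_le P H N z) ?_
  unfold dec_rr om
  apply card_le_card
  intro p hp
  rw [mem_filter] at hp ⊢
  obtain ⟨hp1, m, rfl⟩ := hp
  have hp0 : 1 ≤ nm p := nm_pos (Od_ne (hP p hp1).1)
  obtain ⟨h3, h4⟩ := dec_of_range hH hp0 h1 h2
  exact ⟨hp1, m, rfl, h3, h4⟩

theorem dec_rr_zero (P : Finset GI) (hP : ∀ p ∈ P, PP p) {H : ℕ} (hH : 1 ≤ H) {N : ℝ}
    {z : GI} (h : (nm z : ℝ) ≤ N ∨ 3 * (N * Real.exp (1 / (H : ℝ))) < nm z) :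
    dec_rr P H N z = 0 := by
  classical
  unfold dec_rr
  rw [card_eq_zero, filter_eq_empty_iff]
  rintro p hp ⟨m, rfl, h3, h4⟩
  have hp0 : 1 ≤ nm p := nm_pos (Od_ne (hP p hp).1)
  have := dec_range hH hp0 h3 h4
  rcases h with h | h
  · linarith [this.1]
  · linarith [this.2]

theorem dec_sum_ite_le {a b c : ℝ} (F : GI → ℝ) (hF : ∀ n, 0 ≤ F n) :
    open Classical in
    ∑ z ∈ pan 0 c, (if z ∈ ann a b then F z else 0) ≤ ∑ z ∈ ann a b, F z := by
  classical
  rw [Finset.sum_ite_mem]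
  exact Finset.sum_le_sum_of_subset_of_nonneg Finset.inter_subset_right (fun n _ _ => hF n)

/-- the coefficients of the primitive part of the error -/
noncomputable def dec_e (f : ℕ → ℂ) (P : Finset GI) (H : ℕ) (N : ℝ) (z : GI) : ℂ :=
  open Classical in
  gf f z * ((if z ∈ pan N (3 * N) then 1 else 0) - (dec_rr P H N z : ℂ) / (rs P : ℂ))

theorem dec_rs_nonneg (P : Finset GI) : 0 ≤ rs P := sum_nonneg (fun p _ => by positivity)

/-- the mean square of the coefficients of the primitive part -/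
theorem dec_l2 : ∃ D : ℝ, 0 < D ∧ ∀ f : ℕ → ℂ, CM f → ∀ P : Finset GI, (∀ p ∈ P, PP p) →
    ∀ Z : ℝ, 1 ≤ Z → (∀ p ∈ P, (nm p : ℝ) ≤ Z) → 1 ≤ rs P → ∀ H : ℕ, 1 ≤ H → ∀ N : ℝ, 1 ≤ N →
    ∑ z ∈ pan 0 (9 * N), ‖dec_e f P H N z‖ ^ 2 ≤ D * (N / rs P + N / H + √N * Z) := by
  classical
  obtain ⟨C1, hC1, htk⟩ := tk
  obtain ⟨C2, hC2, htk2⟩ := tk_sq
  obtain ⟨C3, hC3, hcard⟩ := card_ann
  refine ⟨2 + 2 * C3 + 3 * C1 + 16 * C2, by positivity, ?_⟩
  intro f hf P hP Z hZ1 hZ hL H hH N hN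
  obtain ⟨L, hLdef⟩ : ∃ L, L = rs P := ⟨_, rfl⟩
  rw [← hLdef] at hL ⊢
  have hLpos : 0 < L := by linarith
  have hH' : (1 : ℝ) ≤ H := by exact_mod_cast hH
  obtain ⟨E1, hE1⟩ : ∃ E1, E1 = Real.exp (1 / (H : ℝ)) := ⟨_, rfl⟩
  have hE1a : 1 ≤ E1 := by rw [hE1]; exact Real.one_le_exp (by positivity)
  have hE1b : E1 ≤ 1 + 2 / H := by rw [hE1]; exact dec_exp_one_div hH
  have hE1c : E1 < 3 := by rw [hE1]; exact dec_exp_lt hH
  have hNE : N ≤ N * E1 := by nlinarith
  have hNE3 : N * E1 ≤ 3 * N := by nlinarith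
  have hN3E : 3 * N ≤ 3 * (N * E1) := by linarith
  have hq : ∀ z ∈ pan 0 (9 * N), ‖dec_e f P H N z‖ ^ 2 ≤
      (if z ∈ ann N (N * E1) then (1 + (om P z : ℝ) ^ 2 / L ^ 2) else 0)
      + (if z ∈ ann (N * E1) (3 * N) then (((om P z : ℝ) - L) ^ 2 / L ^ 2) else 0)
      + (if z ∈ ann (3 * N) (3 * (N * E1)) then ((om P z : ℝ) ^ 2 / L ^ 2) else 0) := by
    intro z hz
    rw [mem_pan] at hz
    obtain ⟨hzO, hzP, hz0, hz9⟩ := hz
    have hfn := norm_gf_le hf z
    have hnorm : ‖dec_e f P H N z‖ ^ 2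
        ≤ ((if z ∈ pan N (3 * N) then (1 : ℝ) else 0) - (dec_rr P H N z : ℝ) / L) ^ 2 := by
      rw [dec_e, ← hLdef, norm_mul, mul_pow]
      have h1 : ‖((if z ∈ pan N (3 * N) then (1 : ℂ) else 0) - (dec_rr P H N z : ℂ) / (L : ℂ))‖ ^ 2
          = ((if z ∈ pan N (3 * N) then (1 : ℝ) else 0) - (dec_rr P H N z : ℝ) / L) ^ 2 := by
        have h2 : ((if z ∈ pan N (3 * N) then (1 : ℂ) else 0) - (dec_rr P H N z : ℂ) / (L : ℂ))
            = (((if z ∈ pan N (3 * N) then (1 : ℝ) else 0) - (dec_rr P H N z : ℝ) / L : ℝ) : ℂ) := by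
          push_cast
          split_ifs <;> simp
        rw [h2, Complex.norm_real, Real.norm_eq_abs, sq_abs]
      rw [h1]
      have h3 : ‖gf f z‖ ^ 2 ≤ 1 := by
        have := norm_nonneg (gf f z)
        nlinarith
      calc ‖gf f z‖ ^ 2 * ((if z ∈ pan N (3 * N) then (1 : ℝ) else 0) -
            (dec_rr P H N z : ℝ) / L) ^ 2
          ≤ 1 * ((if z ∈ pan N (3 * N) then (1 : ℝ) else 0) - (dec_rr P H N z : ℝ) / L) ^ 2 := by
            gcongr
        _ = _ := one_mul _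
    refine hnorm.trans ?_
    have hrle : (dec_rr P H N z : ℝ) ≤ om P z := by exact_mod_cast dec_rr_le P H N z
    have hr0 : (0 : ℝ) ≤ dec_rr P H N z := by positivity
    have ho0 : (0 : ℝ) ≤ om P z := by positivity
    have hrL : (dec_rr P H N z : ℝ) / L ≤ (om P z : ℝ) / L := by gcongr
    have hrL0 : 0 ≤ (dec_rr P H N z : ℝ) / L := by positivity
    have hsq : ((dec_rr P H N z : ℝ) / L) ^ 2 ≤ (om P z : ℝ) ^ 2 / L ^ 2 := by
      rw [← div_pow]
      gcongr
    rcases le_or_gt (nm z : ℝ) N with h1 | h1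
    · have hnot : z ∉ pan N (3 * N) := by
        rw [mem_pan]
        intro h
        linarith [h.2.2.1]
      have hn1 : z ∉ ann N (N * E1) := by
        rw [mem_ann]
        intro h
        linarith [h.2.1]
      have hn2 : z ∉ ann (N * E1) (3 * N) := by
        rw [mem_ann]
        intro h
        linarith [h.2.1]
      have hn3 : z ∉ ann (3 * N) (3 * (N * E1)) := by
        rw [mem_ann]
        intro h
        linarith [h.2.1]
      rw [if_neg hnot, dec_rr_zero P hP hH (Or.inl h1), if_neg hn1, if_neg hn2, if_neg hn3]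
      simp
    rcases le_or_gt (nm z : ℝ) (N * E1) with h2 | h2
    · have hn1 : z ∈ ann N (N * E1) := mem_ann.2 ⟨hzO, h1, h2⟩
      have hn2 : z ∉ ann (N * E1) (3 * N) := by
        rw [mem_ann]
        intro h
        linarith [h.2.1]
      have hn3 : z ∉ ann (3 * N) (3 * (N * E1)) := by
        rw [mem_ann]
        intro h
        linarith [h.2.1]
      rw [if_pos hn1, if_neg hn2, if_neg hn3]
      have : ((if z ∈ pan N (3 * N) then (1 : ℝ) else 0) - (dec_rr P H N z : ℝ) / L) ^ 2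
          ≤ 1 + ((dec_rr P H N z : ℝ) / L) ^ 2 := by
        split_ifs
        · nlinarith
        · nlinarith
      linarith
    rcases le_or_gt (nm z : ℝ) (3 * N) with h3 | h3
    · have hn1 : z ∉ ann N (N * E1) := by
        rw [mem_ann]
        intro h
        linarith [h.2.2]
      have hn2 : z ∈ ann (N * E1) (3 * N) := mem_ann.2 ⟨hzO, h2, h3⟩
      have hn3 : z ∉ ann (3 * N) (3 * (N * E1)) := by
        rw [mem_ann]
        intro h
        linarith [h.2.1]
      have hin : z ∈ pan N (3 * N) := mem_pan.2 ⟨hzO, hzP, h1, h3⟩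
      rw [if_neg hn1, if_pos hn2, if_neg hn3, if_pos hin]
      rw [hE1] at h2
      rw [dec_rr_eq P hP hH h2 h3, ← div_pow]
      have : (1 - (om P z : ℝ) / L) ^ 2 = (((om P z : ℝ) - L) / L) ^ 2 := by
        field_simp
        ring
      rw [this]
      simp
    have hnot : z ∉ pan N (3 * N) := by
      rw [mem_pan]
      intro h
      linarith [h.2.2.2]
    have hn1 : z ∉ ann N (N * E1) := by
      rw [mem_ann]
      intro h
      linarith [h.2.2]
    have hn2 : z ∉ ann (N * E1) (3 * N) := by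
      rw [mem_ann]
      intro h
      linarith [h.2.2]
    rw [if_neg hnot, if_neg hn1, if_neg hn2]
    rcases le_or_gt (nm z : ℝ) (3 * (N * E1)) with h4 | h4
    · have hn3 : z ∈ ann (3 * N) (3 * (N * E1)) := mem_ann.2 ⟨hzO, h3, h4⟩
      rw [if_pos hn3]
      simp only [zero_sub, neg_sq, zero_add]
      exact hsq
    · have hn3 : z ∉ ann (3 * N) (3 * (N * E1)) := by
        rw [mem_ann]
        intro h
        linarith [h.2.2]
      rw [if_neg hn3]
      rw [hE1] at h4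
      rw [dec_rr_zero P hP hH (Or.inr h4)]
      simp
  refine (Finset.sum_le_sum hq).trans ?_
  rw [Finset.sum_add_distrib, Finset.sum_add_distrib]
  have hS1 := dec_sum_ite_le (a := N) (b := N * E1) (c := 9 * N)
    (fun z => 1 + (om P z : ℝ) ^ 2 / L ^ 2) (fun z => by positivity)
  have hS2 := dec_sum_ite_le (a := N * E1) (b := 3 * N) (c := 9 * N)
    (fun z => ((om P z : ℝ) - L) ^ 2 / L ^ 2) (fun z => by positivity)
  have hS3 := dec_sum_ite_le (a := 3 * N) (b := 3 * (N * E1)) (c := 9 * N)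
    (fun z => (om P z : ℝ) ^ 2 / L ^ 2) (fun z => by positivity)
  have hT0 := hcard N (N * E1) (by linarith) hNE
  have hT1 := htk2 P hP Z hZ1 hZ N (N * E1) (by linarith) hNE
  have hT2 := htk P hP Z hZ1 hZ (N * E1) (3 * N) (by nlinarith) hNE3
  have hT3 := htk2 P hP Z hZ1 hZ (3 * N) (3 * (N * E1)) (by linarith) hN3E
  rw [← hLdef] at hT1 hT2 hT3
  have hL2 : 1 ≤ L ^ 2 := by nlinarith
  obtain ⟨r, hr⟩ : ∃ r, r = √N := ⟨_, rfl⟩
  have hr0 : 0 ≤ r := by rw [hr]; exact Real.sqrt_nonneg _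
  have hrt : ∀ x : ℝ, x ≤ 9 * N → √x ≤ 3 * r := by
    intro x hx
    have : √(9 * N) = 3 * r := by
      rw [hr, Real.sqrt_mul (by norm_num : (0 : ℝ) ≤ 9)]
      have : √(9 : ℝ) = 3 := by
        rw [show (9 : ℝ) = 3 ^ 2 by norm_num]
        exact Real.sqrt_sq (by norm_num)
      rw [this]
    rw [← this]
    exact Real.sqrt_le_sqrt hx
  have hrt2 : ∀ x : ℝ, x ≤ 4 * N → √x ≤ 2 * r := by
    intro x hx
    have : √(4 * N) = 2 * r := by
      rw [hr, Real.sqrt_mul (by norm_num : (0 : ℝ) ≤ 4)]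
      have : √(4 : ℝ) = 2 := by
        rw [show (4 : ℝ) = 2 ^ 2 by norm_num]
        exact Real.sqrt_sq (by norm_num)
      rw [this]
    rw [← this]
    exact Real.sqrt_le_sqrt hx
  rw [← hr]
  have hZ0 : 0 < Z := by linarith
  have habr : N * E1 - N ≤ 2 * (N / H) := by
    have h1 : N * E1 ≤ N * (1 + 2 / H) := by gcongr
    have h2 : N * (1 + 2 / (H : ℝ)) = N + 2 * (N / H) := by ring
    linarith
  have hcdr : 3 * (N * E1) - 3 * N ≤ 6 * (N / H) := by linarith
  have hNH : 0 ≤ N / H := by positivity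
  have hNL : 0 ≤ N / L := by positivity
  have hrZ : 0 ≤ r * Z := by positivity
  have hrZ1 : r ≤ r * Z := by nlinarith
  -- division of a second moment by `L ^ 2`
  have hdiv : ∀ x s : ℝ, 0 ≤ x → 0 ≤ s →
      C2 * (x * (L ^ 2 + L) + s * Z) / L ^ 2 ≤ C2 * (2 * x + s * Z) := by
    intro x s hx hs
    rw [div_le_iff₀ (by positivity), mul_assoc]
    have h4 : L ^ 2 + L ≤ 2 * L ^ 2 := by nlinarith
    have h5 : x * (L ^ 2 + L) ≤ x * (2 * L ^ 2) := by gcongr
    have h6 : s * Z ≤ s * Z * L ^ 2 := by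
      have : 0 ≤ s * Z := by positivity
      nlinarith
    have h7 : x * (L ^ 2 + L) + s * Z ≤ (2 * x + s * Z) * L ^ 2 := by linarith
    exact mul_le_mul_of_nonneg_left h7 hC2.le
  have hU0 : ((ann N (N * E1)).card : ℝ) ≤ 2 * (N / H) + 2 * C3 * r := by
    have h1 := (abs_le.1 hT0).2
    have h2 : √(N * E1) ≤ 2 * r := hrt2 _ (by linarith)
    have h3 : Real.pi / 4 * (N * E1 - N) ≤ N * E1 - N := by
      have := Real.pi_le_four
      have h4 : 0 ≤ N * E1 - N := by linarith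
      nlinarith
    have h4 : C3 * √(N * E1) ≤ C3 * (2 * r) := by gcongr
    linarith
  have hU1 : ∑ z ∈ ann N (N * E1), (1 + (om P z : ℝ) ^ 2 / L ^ 2)
      ≤ 2 * (N / H) + 2 * C3 * r + C2 * (2 * (2 * (N / H)) + 2 * r * Z) := by
    rw [Finset.sum_add_distrib, ← Finset.sum_div]
    have h1 : ∑ z ∈ ann N (N * E1), (1 : ℝ) = ((ann N (N * E1)).card : ℝ) := by
      rw [Finset.sum_const, nsmul_eq_mul, mul_one]
    rw [h1]
    have h2 : (∑ z ∈ ann N (N * E1), (om P z : ℝ) ^ 2) / L ^ 2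
        ≤ (C2 * ((N * E1 - N) * (L ^ 2 + L) + √(N * E1) * Z)) / L ^ 2 := by gcongr
    have h3 := hdiv (N * E1 - N) (√(N * E1)) (by linarith) (Real.sqrt_nonneg _)
    have h4 : C2 * (2 * (N * E1 - N) + √(N * E1) * Z) ≤
        C2 * (2 * (2 * (N / H)) + 2 * r * Z) := by
      have h5 : √(N * E1) ≤ 2 * r := hrt2 _ (by linarith)
      gcongr
    linarith
  have hU3 : ∑ z ∈ ann (3 * N) (3 * (N * E1)), ((om P z : ℝ) ^ 2 / L ^ 2)
      ≤ C2 * (2 * (6 * (N / H)) + 3 * r * Z) := by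
    rw [← Finset.sum_div]
    have h2 : (∑ z ∈ ann (3 * N) (3 * (N * E1)), (om P z : ℝ) ^ 2) / L ^ 2
        ≤ (C2 * ((3 * (N * E1) - 3 * N) * (L ^ 2 + L) + √(3 * (N * E1)) * Z)) / L ^ 2 := by
      gcongr
    have h3 := hdiv (3 * (N * E1) - 3 * N) (√(3 * (N * E1))) (by linarith) (Real.sqrt_nonneg _)
    have h4 : C2 * (2 * (3 * (N * E1) - 3 * N) + √(3 * (N * E1)) * Z) ≤
        C2 * (2 * (6 * (N / H)) + 3 * r * Z) := by
      have h5 : √(3 * (N * E1)) ≤ 3 * r := hrt _ (by linarith)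
      gcongr
    linarith
  have hU2 : ∑ z ∈ ann (N * E1) (3 * N), (((om P z : ℝ) - L) ^ 2 / L ^ 2)
      ≤ C1 * (3 * (N / L) + 2 * r * Z) := by
    rw [← Finset.sum_div]
    have h2 : (∑ z ∈ ann (N * E1) (3 * N), ((om P z : ℝ) - L) ^ 2) / L ^ 2
        ≤ (C1 * ((3 * N - N * E1) * L + √(3 * N) * Z)) / L ^ 2 := by gcongr
    refine h2.trans ?_
    rw [div_le_iff₀ (by positivity), mul_assoc]
    have h3 : (3 * N - N * E1) * L ≤ 3 * N * L := by
      have : 0 ≤ N * E1 := by nlinarith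
      gcongr
      linarith
    have h4 : 3 * (N / L) * L ^ 2 = 3 * N * L := by
      field_simp
    have h5 : √(3 * N) ≤ 2 * r := hrt2 _ (by linarith)
    have h6 : √(3 * N) * Z ≤ 2 * r * Z := by gcongr
    have h7 : 2 * r * Z ≤ 2 * r * Z * L ^ 2 := by
      have : 0 ≤ 2 * r * Z := by positivity
      nlinarith
    have h8 : (3 * N - N * E1) * L + √(3 * N) * Z ≤ (3 * (N / L) + 2 * r * Z) * L ^ 2 := by
      nlinarith
    exact mul_le_mul_of_nonneg_left h8 hC1.le
  have p1 : 0 ≤ C1 * (N / L) := by positivity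
  have p2 : 0 ≤ C2 * (N / H) := by positivity
  have p3 : 0 ≤ C1 * (r * Z) := by positivity
  have p4 : 0 ≤ C2 * (r * Z) := by positivity
  have p5 : 0 ≤ C3 * (r * Z) := by positivity
  have p6 : C3 * r ≤ C3 * (r * Z) := by gcongr
  have p7 : 0 ≤ C3 * (N / L) := by positivity
  have p8 : 0 ≤ C3 * (N / H) := by positivity
  have p9 : 0 ≤ C2 * (N / L) := by positivity
  have p10 : 0 ≤ C1 * (N / H) := by positivity
  nlinarith

/-- few pairs of parallel products -/
theorem dec_energy (P : Finset GI) (hP : ∀ p ∈ P, PP p) {H : ℕ} (hH : 1 ≤ H) {N : ℝ}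
    (hN : 1 ≤ N) :
    open Classical in
    ∑ i ∈ dec_S P H N, (((dec_S P H N).filter
      (fun j => dt (i.1 * i.2) (j.1 * j.2) = 0)).card : ℝ) ≤ 216 * N * rs P := by
  classical
  have hmem : ∀ i ∈ dec_S P H N, PP i.1 ∧ i.1 ∈ P ∧ ∃ m : GI, i.2 = star i.1 * m ∧ Od m ∧ Pr m ∧
      N < (nm i.1 : ℝ) ^ 2 * nm m ∧ (nm i.1 : ℝ) ^ 2 * nm m ≤ 9 * N := by
    intro i hi
    rw [dec_S, mem_sigma, mem_filter, mem_pan] at hi
    obtain ⟨hi1, ⟨hi2, hi3, hi4, hi5⟩, m, hm⟩ := hi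
    have hp := hP _ hi1
    have hp1 : 1 ≤ nm i.1 := nm_pos (Od_ne hp.1)
    have hr := dec_range hH hp1 hi4 hi5
    have he := dec_exp_lt hH
    have hn : (nm (i.1 * i.2) : ℝ) = (nm i.1 : ℝ) ^ 2 * nm m := by
      rw [hm, nm_mul, nm_mul, nm_star]
      push_cast
      ring
    rw [hn] at hr
    refine ⟨hp, hi1, m, hm, ?_, ?_, hr.1, ?_⟩
    · rw [hm] at hi2
      exact Od_of_mul (Od_star hp.1) hi2
    · exact Pr_of_dvd (by rw [hm]; exact dvd_mul_left _ _) hi3
    · have : 3 * (N * Real.exp (1 / (H : ℝ))) ≤ 9 * N := by nlinarith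
      linarith [hr.2]
  -- number of partners
  have hpart : ∀ i ∈ dec_S P H N, (((dec_S P H N).filter
      (fun j => dt (i.1 * i.2) (j.1 * j.2) = 0)).card : ℝ) ≤ 6 * nm i.1 := by
    intro i hi
    obtain ⟨hip, -, m, him, hmO, hmP, hm1, hm2⟩ := hmem i hi
    have hcard : ((dec_S P H N).filter (fun j => dt (i.1 * i.2) (j.1 * j.2) = 0)).card ≤
        ((Finset.range (3 * nm i.1)) ×ˢ (Finset.univ : Finset Bool)).card := by
      have hkey : ∀ j ∈ (dec_S P H N).filter (fun j => dt (i.1 * i.2) (j.1 * j.2) = 0),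
          PP j.1 ∧ nm j.1 < 3 * nm i.1 ∧ (j.2 = star j.1 * m ∨ j.2 = star j.1 * (-m)) := by
        intro j hj
        rw [mem_filter] at hj
        obtain ⟨hjS, hj0⟩ := hj
        obtain ⟨hjp, -, n, hjn, hnO, hnP, hn1, hn2⟩ := hmem j hjS
        have e1 : i.1 * i.2 = ((nm i.1 : ℕ) : GI) * m := by
          rw [him, ← mul_assoc, dec_mul_star]
        have e2 : j.1 * j.2 = ((nm j.1 : ℕ) : GI) * n := by
          rw [hjn, ← mul_assoc, dec_mul_star]
        have hi1 : 1 ≤ nm i.1 := nm_pos (Od_ne hip.1)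
        have hj1 : 1 ≤ nm j.1 := nm_pos (Od_ne hjp.1)
        have e3 : dt (((nm i.1 : ℕ) : GI) * m) (((nm j.1 : ℕ) : GI) * n) =
            (nm i.1 : ℤ) * (nm j.1 : ℤ) * dt m n := by
          have hre : ∀ (q : ℕ) (t : GI), ((q : GI) * t).re = q * t.re := by
            intro q t
            rw [Zsqrtd.re_mul]
            have h1 : (q : GI).re = q := rfl
            have h2 : (q : GI).im = 0 := rfl
            rw [h1, h2]
            ring
          have him' : ∀ (q : ℕ) (t : GI), ((q : GI) * t).im = q * t.im := by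
            intro q t
            rw [Zsqrtd.im_mul]
            have h1 : (q : GI).re = q := rfl
            have h2 : (q : GI).im = 0 := rfl
            rw [h1, h2]
            ring
          simp only [dt, hre, him']
          ring
        rw [e1, e2, e3] at hj0
        have h0 : dt m n = 0 := by
          rcases mul_eq_zero.1 hj0 with h | h
          · exfalso
            rcases mul_eq_zero.1 h with h' | h'
            · omega
            · omega
          · exact h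
        have hmn := eq_or_neg_of_dt hmP hnP h0
        have hnm : nm n = nm m := by
          rcases hmn with h | h
          · rw [h]
          · rw [h, nm_neg]
        refine ⟨hjp, ?_, ?_⟩
        · rw [hnm] at hn2
          have h1 : (nm j.1 : ℝ) ^ 2 * nm m < (3 * nm i.1 : ℝ) ^ 2 * nm m := by nlinarith
          have hm0 : (0 : ℝ) < nm m := by exact_mod_cast nm_pos (Od_ne hmO)
          have h2 : (nm j.1 : ℝ) ^ 2 < (3 * nm i.1 : ℝ) ^ 2 := lt_of_mul_lt_mul_right h1 hm0.le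
          have h3 : (nm j.1 : ℝ) < 3 * nm i.1 := lt_of_pow_lt_pow_left₀ 2 (by positivity) h2
          exact_mod_cast h3
        · rcases hmn with h | h
          · left
            rw [hjn, h]
          · right
            rw [hjn, h]
      refine Finset.card_le_card_of_injOn
        (fun j => (nm j.1, decide (j.2 = star j.1 * m))) ?_ ?_
      · intro j hj
        obtain ⟨-, h2, -⟩ := hkey j hj
        simp only [Finset.coe_product, Set.mem_prod, Finset.mem_coe, Finset.mem_range,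
          Finset.mem_univ, and_true]
        exact h2
      · intro j hj k hk hjk
        obtain ⟨hj1, -, hj3⟩ := hkey j hj
        obtain ⟨hk1, -, hk3⟩ := hkey k hk
        simp only [Prod.mk.injEq] at hjk
        obtain ⟨hn, hd⟩ := hjk
        have h1 : j.1 = k.1 := PP_inj hj1 hk1 hn
        have h2 : j.2 = k.2 := by
          rw [decide_eq_decide] at hd
          rcases hj3 with h | h
          · rw [h, hd.1 h, h1]
          · rcases hk3 with h' | h'
            · rw [hd.2 h', h', h1]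
            · rw [h, h', h1]
        exact Sigma.ext h1 (heq_of_eq h2)
    rw [card_product, card_range, card_univ, Fintype.card_bool] at hcard
    have : (((dec_S P H N).filter (fun j => dt (i.1 * i.2) (j.1 * j.2) = 0)).card : ℝ) ≤
        ((3 * nm i.1 * 2 : ℕ) : ℝ) := by exact_mod_cast hcard
    push_cast at this
    linarith
  refine (Finset.sum_le_sum hpart).trans ?_
  rw [dec_S, Finset.sum_sigma, rs, Finset.mul_sum]
  apply Finset.sum_le_sum
  intro p hp
  have hpP := hP p hp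
  have hp1 : 1 ≤ nm p := nm_pos (Od_ne hpP.1)
  have hp0 : (0 : ℝ) < nm p := by exact_mod_cast hp1
  simp only [Finset.sum_const, nsmul_eq_mul]
  have hc : (((pan (dec_xp H N p) (3 * dec_xp H N p)).filter (fun m => star p ∣ m)).card : ℝ) ≤
      4 * (9 * N / (nm p : ℝ) ^ 2) := by
    refine le_trans ?_ (card_ann_le 0 (by positivity))
    have hsub : (pan (dec_xp H N p) (3 * dec_xp H N p)).filter (fun m => star p ∣ m) ⊆
        (ann 0 (9 * N / (nm p : ℝ) ^ 2)).image (fun m => star p * m) := by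
      intro x hx
      have hx' : (⟨p, x⟩ : (_ : GI) × GI) ∈ dec_S P H N := by
        rw [dec_S, mem_sigma]
        exact ⟨hp, hx⟩
      obtain ⟨-, -, m, hm, hmO, hmP, hm1, hm2⟩ := hmem _ hx'
      simp only [] at hm hm1 hm2
      rw [mem_image]
      refine ⟨m, mem_ann.2 ⟨hmO, by exact_mod_cast nm_pos (Od_ne hmO), ?_⟩, hm.symm⟩
      rw [le_div_iff₀ (by positivity)]
      linarith
    exact_mod_cast (card_le_card hsub).trans card_image_le
  calc (((pan (dec_xp H N p) (3 * dec_xp H N p)).filter (fun m => star p ∣ m)).card : ℝ) *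
        (6 * nm p) ≤ (4 * (9 * N / (nm p : ℝ) ^ 2)) * (6 * nm p) := by gcongr
    _ = 216 * N * (1 / (nm p : ℝ)) := by
        field_simp
        ring

theorem decomp : ∃ C : ℝ, 0 < C ∧ ∀ f : ℕ → ℂ, CM f → ∀ P : Finset GI, (∀ p ∈ P, PP p) →
    ∀ Z : ℝ, 1 ≤ Z → (∀ p ∈ P, (nm p : ℝ) ≤ Z) → 1 ≤ rs P → ∀ H : ℕ, 1 ≤ H → ∀ N : ℝ, 1 ≤ N →
    ∃ E : ℤ → ℂ, (∀ k : ℤ, sp (pan N (3 * N)) (gf f) k = (1 / (rs P : ℂ)) *
        ∑ v ∈ vs H P, sp (pb H P v) (gf f) k *
          sp (pan (N / Real.exp (v / H)) (3 * (N / Real.exp (v / H)))) (gf f) k + E k) ∧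
      ∀ K : ℕ, ms K (fun k => ‖E k‖ ^ 2) ≤ C * (K + N) * (N / rs P + N / H + √N * Z) := by
  classical
  obtain ⟨D, hD, hl2⟩ := dec_l2
  obtain ⟨C4, hC4, hmp⟩ := mvt_prim
  obtain ⟨C5, hC5, hm⟩ := mvt
  refine ⟨18 * C4 * D + 18 * 216 * C5, by positivity, ?_⟩
  intro f hf P hP Z hZ1 hZ hL H hH N hN
  obtain ⟨L, hLdef⟩ : ∃ L, L = rs P := ⟨_, rfl⟩
  have hl2' := hl2 f hf P hP Z hZ1 hZ hL H hH N hN
  rw [← hLdef] at hL hl2' ⊢
  have hLpos : 0 < L := by linarith
  have hLC : (L : ℂ) ≠ 0 := by exact_mod_cast hLpos.ne'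
  have he9 : 3 * (N * Real.exp (1 / (H : ℝ))) ≤ 9 * N := by
    have := dec_exp_lt hH
    nlinarith
  refine ⟨fun k => sp (pan 0 (9 * N)) (dec_e f P H N) k -
    ∑ i ∈ dec_S P H N, (gf f (i.1 * i.2) / L) * uu (i.1 * i.2) ^ k, ?_, ?_⟩
  · intro k
    obtain ⟨G, hG⟩ : ∃ G : GI → ℂ, G = fun z => gf f z * uu z ^ k := ⟨_, rfl⟩
    have hA : ∑ v ∈ vs H P, sp (pb H P v) (gf f) k *
          sp (pan (N / Real.exp (v / H)) (3 * (N / Real.exp (v / H)))) (gf f) k
        = ∑ z ∈ pan 0 (9 * N), (dec_rr P H N z : ℂ) * G z + ∑ i ∈ dec_S P H N, G (i.1 * i.2) := by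
      rw [← dec_sum_prim G P hP hH hN, dec_S, Finset.sum_sigma, ← Finset.sum_add_distrib]
      have h1 : ∀ p ∈ P, (∑ m ∈ (pan (dec_xp H N p) (3 * dec_xp H N p)).filter
            (fun m => ¬ star p ∣ m), G (p * m) +
          ∑ m ∈ (pan (dec_xp H N p) (3 * dec_xp H N p)).filter (fun m => star p ∣ m), G (p * m)) =
          ∑ m ∈ pan (dec_xp H N p) (3 * dec_xp H N p), G (p * m) := by
        intro p hp
        rw [add_comm]
        exact Finset.sum_filter_add_sum_filter_not _ _ _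
      rw [Finset.sum_congr rfl h1, ← dec_sum_blocks G P H N]
      apply Finset.sum_congr rfl
      intro v hv
      unfold sp
      rw [Finset.sum_mul_sum]
      apply Finset.sum_congr rfl
      intro p hp
      apply Finset.sum_congr rfl
      intro m hm
      have hp0 : p ≠ 0 := Od_ne (hP p (mem_filter.1 hp).1).1
      have hm0 : m ≠ 0 := Od_ne (mem_pan.1 hm).1
      rw [hG]
      simp only []
      rw [gf_mul hf hp0 hm0, uu_mul_zpow]
      ring
    have hB : sp (pan N (3 * N)) (gf f) k =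
        ∑ z ∈ pan 0 (9 * N), if z ∈ pan N (3 * N) then G z else 0 := by
      rw [Finset.sum_ite_mem]
      have : pan 0 (9 * N) ∩ pan N (3 * N) = pan N (3 * N) := by
        rw [Finset.inter_eq_right]
        intro z hz
        rw [mem_pan] at hz ⊢
        exact ⟨hz.1, hz.2.1, by linarith [hz.2.2.1], by linarith [hz.2.2.2]⟩
      rw [this, hG]
      rfl
    rw [hA, hB]
    have hE1 : sp (pan 0 (9 * N)) (dec_e f P H N) k =
        (∑ z ∈ pan 0 (9 * N), if z ∈ pan N (3 * N) then G z else 0) -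
          (1 / (L : ℂ)) * ∑ z ∈ pan 0 (9 * N), (dec_rr P H N z : ℂ) * G z := by
      rw [sp, Finset.mul_sum, ← Finset.sum_sub_distrib]
      apply Finset.sum_congr rfl
      intro z hz
      rw [dec_e, hG, ← hLdef]
      simp only []
      split_ifs
      · ring
      · ring
    have hE2 : ∑ i ∈ dec_S P H N, (gf f (i.1 * i.2) / L) * uu (i.1 * i.2) ^ k =
        (1 / (L : ℂ)) * ∑ i ∈ dec_S P H N, G (i.1 * i.2) := by
      rw [Finset.mul_sum]
      apply Finset.sum_congr rfl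
      intro i hi
      rw [hG]
      simp only []
      ring
    beta_reduce
    rw [hE1, hE2]
    ring
  · intro K
    obtain ⟨Q, hQ⟩ : ∃ Q, Q = N / L + N / H + √N * Z := ⟨_, rfl⟩
    rw [← hQ] at hl2' ⊢
    have hH' : (1 : ℝ) ≤ H := by exact_mod_cast hH
    have hNL : N / L ≤ Q := by
      rw [hQ]
      have h1 : 0 ≤ N / H := by positivity
      have h2 : 0 ≤ √N * Z := by positivity
      linarith
    have hQ0 : 0 ≤ Q := le_trans (by positivity) hNL
    have hK0 : (0 : ℝ) ≤ K := by positivity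
    have hK9 : (K : ℝ) + 9 * N ≤ 9 * (K + N) := by linarith
    have hM1 := hmp K (9 * N) (by linarith) (pan 0 (9 * N)) (dec_e f P H N) (by
      intro z hz
      rw [mem_pan] at hz
      exact ⟨hz.1, hz.2.1, hz.2.2.2⟩)
    have hM2 := hm K (9 * N) (by linarith) ((_ : GI) × GI) (dec_S P H N)
      (fun i => i.1 * i.2) (fun i => gf f (i.1 * i.2) / L) (by
        intro i hi
        rw [dec_S, mem_sigma, mem_filter, mem_pan] at hi
        obtain ⟨hi1, ⟨hi2, hi3, hi4, hi5⟩, -⟩ := hi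
        have hp := hP _ hi1
        have hp1 : 1 ≤ nm i.1 := nm_pos (Od_ne hp.1)
        have hr := dec_range hH hp1 hi4 hi5
        exact ⟨Od_mul hp.1 hi2, by linarith [hr.2]⟩)
    have hen : ∑ i ∈ dec_S P H N, ∑ j ∈ dec_S P H N,
        (if dt (i.1 * i.2) (j.1 * j.2) = 0 then
          ‖gf f (i.1 * i.2) / (L : ℂ)‖ * ‖gf f (j.1 * j.2) / (L : ℂ)‖ else 0) ≤
        216 * (N / L) := by
      have h1 : ∀ z : GI, ‖gf f z / (L : ℂ)‖ ≤ 1 / L := by
        intro z
        rw [norm_div, Complex.norm_real, Real.norm_of_nonneg hLpos.le]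
        have := norm_gf_le hf z
        gcongr
      have h2 : ∀ i ∈ dec_S P H N, ∑ j ∈ dec_S P H N,
          (if dt (i.1 * i.2) (j.1 * j.2) = 0 then
            ‖gf f (i.1 * i.2) / (L : ℂ)‖ * ‖gf f (j.1 * j.2) / (L : ℂ)‖ else 0) ≤
          (1 / L ^ 2) * (((dec_S P H N).filter
            (fun j => dt (i.1 * i.2) (j.1 * j.2) = 0)).card : ℝ) := by
        intro i hi
        rw [← Finset.sum_filter]
        refine (Finset.sum_le_card_nsmul _ _ (1 / L ^ 2) ?_).trans ?_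
        · intro j hj
          calc ‖gf f (i.1 * i.2) / (L : ℂ)‖ * ‖gf f (j.1 * j.2) / (L : ℂ)‖ ≤
              (1 / L) * (1 / L) := by
                gcongr
                · exact h1 _
                · exact h1 _
            _ = 1 / L ^ 2 := by
                field_simp
        · rw [nsmul_eq_mul, mul_comm]
      refine (Finset.sum_le_sum h2).trans ?_
      rw [← Finset.mul_sum]
      have h3 := dec_energy P hP hH hN
      rw [← hLdef] at h3
      calc (1 / L ^ 2) * ∑ i ∈ dec_S P H N, (((dec_S P H N).filter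
            (fun j => dt (i.1 * i.2) (j.1 * j.2) = 0)).card : ℝ) ≤
          (1 / L ^ 2) * (216 * N * L) := by gcongr
        _ = 216 * (N / L) := by field_simp
    have hms : ms K (fun k => ‖sp (pan 0 (9 * N)) (dec_e f P H N) k -
        ∑ i ∈ dec_S P H N, (gf f (i.1 * i.2) / L) * uu (i.1 * i.2) ^ k‖ ^ 2) ≤
        2 * ms K (fun k => ‖sp (pan 0 (9 * N)) (dec_e f P H N) k‖ ^ 2) +
        2 * ms K (fun k => ‖∑ i ∈ dec_S P H N,
          (gf f (i.1 * i.2) / L) * uu (i.1 * i.2) ^ k‖ ^ 2) := by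
      unfold ms
      rw [Finset.mul_sum, Finset.mul_sum, ← Finset.sum_add_distrib]
      apply Finset.sum_le_sum
      intro k hk
      have hw := fw_nonneg hk
      obtain ⟨a, ha⟩ : ∃ a, a = sp (pan 0 (9 * N)) (dec_e f P H N) k := ⟨_, rfl⟩
      obtain ⟨b, hb⟩ : ∃ b, b = ∑ i ∈ dec_S P H N,
          (gf f (i.1 * i.2) / (L : ℂ)) * uu (i.1 * i.2) ^ k := ⟨_, rfl⟩
      beta_reduce
      rw [← ha, ← hb]
      have h1 : ‖a - b‖ ≤ ‖a‖ + ‖b‖ := norm_sub_le _ _
      have h2 : ‖a - b‖ ^ 2 ≤ 2 * ‖a‖ ^ 2 + 2 * ‖b‖ ^ 2 := by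
        have h3 : ‖a - b‖ ^ 2 ≤ (‖a‖ + ‖b‖) ^ 2 := by gcongr
        nlinarith [sq_nonneg (‖a‖ - ‖b‖)]
      calc fw K k * ‖a - b‖ ^ 2 ≤ fw K k * (2 * ‖a‖ ^ 2 + 2 * ‖b‖ ^ 2) := by gcongr
        _ = 2 * (fw K k * ‖a‖ ^ 2) + 2 * (fw K k * ‖b‖ ^ 2) := by ring
    refine hms.trans ?_
    have h1 : ms K (fun k => ‖sp (pan 0 (9 * N)) (dec_e f P H N) k‖ ^ 2) ≤
        C4 * (9 * (K + N)) * (D * Q) := by
      refine hM1.trans ?_
      gcongr
    have h2 : ms K (fun k => ‖∑ i ∈ dec_S P H N,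
          (gf f (i.1 * i.2) / L) * uu (i.1 * i.2) ^ k‖ ^ 2) ≤
        C5 * (9 * (K + N)) * (216 * Q) := by
      refine hM2.trans ?_
      have h3 : 216 * (N / L) ≤ 216 * Q := by linarith
      have h4 := hen.trans h3
      have h5 : 0 ≤ C5 * (K + 9 * N) := by positivity
      have h6 : 0 ≤ 216 * Q := by positivity
      calc _ ≤ C5 * (K + 9 * N) * (216 * Q) := mul_le_mul_of_nonneg_left h4 h5
        _ ≤ C5 * (9 * (K + N)) * (216 * Q) := by gcongr
    calc _ ≤ 2 * (C4 * (9 * (K + N)) * (D * Q)) + 2 * (C5 * (9 * (K + N)) * (216 * Q)) := by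
          linarith
      _ = (18 * C4 * D + 18 * 216 * C5) * (K + N) * Q := by ring

end Pool.Agent.MRS
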