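import Mathlib

set_option autoImplicit false

/-!
# Multiplicative functions of the norm in narrow sectors of the Gaussian integers: definitions
Blueprint: /team-store/mrs_blueprint.md
-/

open Finset

namespace Pool.Agent.MRS

/-- Gaussian integers -/
abbrev GI := GaussianInt

/-- the norm as a natural number -/
def nm (z : GI) : ℕ := (Zsqrtd.norm z).natAbs

/-- real part odd, imaginary part even -/
def Od (z : GI) : Prop := z.re % 2 = 1 ∧ z.im % 2 = 0

/-- primitive vector -/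
def Pr (z : GI) : Prop := Int.gcd z.re z.im = 1

/-- determinant -/
def dt (z w : GI) : ℤ := z.re * w.im - z.im * w.re

/-- `u(z) = z / conj z = z ^ 2 / N(z)` -/
noncomputable def uu (z : GI) : ℂ := (GaussianInt.toComplex z) ^ 2 / (nm z : ℂ)

/-- `Od z` and `a < N(z) ≤ b` -/
noncomputable def ann (a b : ℝ) : Finset GI :=
  open Classical in
  (((Icc (-(⌊b⌋₊ : ℤ)) (⌊b⌋₊ : ℤ)) ×ˢ (Icc (-(⌊b⌋₊ : ℤ)) (⌊b⌋₊ : ℤ))).image
    (fun p : ℤ × ℤ => (⟨p.1, p.2⟩ : GI))).filter
      (fun z => Od z ∧ a < (nm z : ℝ) ∧ (nm z : ℝ) ≤ b)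

/-- primitive elements of `ann a b` -/
noncomputable def pan (a b : ℝ) : Finset GI :=
  open Classical in (ann a b).filter Pr

/-- `∑_{z ∈ s} c(z) u(z)^k` -/
noncomputable def sp (s : Finset GI) (c : GI → ℂ) (k : ℤ) : ℂ := ∑ z ∈ s, c z * uu z ^ k

/-- Fejer weight -/
noncomputable def fw (K : ℕ) (k : ℤ) : ℝ := 1 - |(k : ℝ)| / (K + 1)

/-- weighted mean over `|k| ≤ K` -/
noncomputable def ms (K : ℕ) (F : ℤ → ℝ) : ℝ := ∑ k ∈ Icc (-(K : ℤ)) (K : ℤ), fw K k * F k

/-- completely multiplicative, bounded by `1` -/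
structure CM (f : ℕ → ℂ) : Prop where
  mul : ∀ m n : ℕ, 0 < m → 0 < n → f (m * n) = f m * f n
  norm_le : ∀ n, ‖f n‖ ≤ 1

/-- `G(z) = f(N(z))` -/
noncomputable def gf (f : ℕ → ℂ) (z : GI) : ℂ := f (nm z)

/-- Gaussian primes in the first quadrant, `re` odd, `im` even -/
def PP (z : GI) : Prop := Od z ∧ 0 < z.re ∧ 0 < z.im ∧ (nm z).Prime

/-- number of elements of `P` dividing `z` -/
noncomputable def om (P : Finset GI) (z : GI) : ℕ := open Classical in (P.filter (· ∣ z)).card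

/-- sum of the inverse norms -/
noncomputable def rs (P : Finset GI) : ℝ := ∑ p ∈ P, (1 : ℝ) / nm p

/-- block index: `⌊H log N(p)⌋` -/
noncomputable def bi (H : ℕ) (p : GI) : ℕ := ⌊(H : ℝ) * Real.log (nm p : ℝ)⌋₊

/-- the block `v` -/
noncomputable def pb (H : ℕ) (P : Finset GI) (v : ℕ) : Finset GI := P.filter (fun p => bi H p = v)

/-- the set of block indices -/
noncomputable def vs (H : ℕ) (P : Finset GI) : Finset ℕ := P.image (bi H)

/-- `log P_j` -/
noncomputable def lp (A : ℝ) (j : ℕ) : ℝ := Real.exp (A * 3 ^ j)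

/-- primes of level `j` -/
noncomputable def pset (A : ℝ) (j : ℕ) : Finset GI :=
  open Classical in (ann (Real.exp (lp A j)) (Real.exp ((lp A j) ^ 2))).filter PP

/-- `H_j` -/
noncomputable def HH (A : ℝ) (j : ℕ) : ℕ := ⌈A⌉₊ * 2 ^ j

/-- `α_j` -/
noncomputable def al (ε : ℝ) (j : ℕ) : ℝ := ε * (1 - (1 / 2) ^ j)

/-- all the prime polynomials of level `j` are small at `k` -/
def Good (f : ℕ → ℂ) (A ε : ℝ) (j : ℕ) (k : ℤ) : Prop :=
  ∀ v ∈ vs (HH A j) (pset A j),
    ‖sp (pb (HH A j) (pset A j) v) (gf f) k‖ ≤ Real.exp ((1 - al ε j) * (v / HH A j))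

end Pool.Agent.MRS
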