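import Pool.Agent.MRS.Basic

set_option autoImplicit false

/-! Module DIV: divisors of Gaussian integers, multiplicity of the values `a`. -/

open Finset

namespace Pool.Agent.MRS

/-- all Gaussian divisors of `z` (finite for `z ≠ 0`); `∅` for `z = 0` -/
noncomputable def dv (z : GI) : Finset GI :=
  open Classical in
  (((Icc (-(nm z : ℤ)) (nm z : ℤ)) ×ˢ (Icc (-(nm z : ℤ)) (nm z : ℤ))).image
    (fun p : ℤ × ℤ => (⟨p.1, p.2⟩ : GI))).filter (fun d => z ≠ 0 ∧ d ∣ z)

private theorem abs_re_le (z : GI) : |z.re| ≤ (nm z : ℤ) := by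
  rw [nm_int]
  have h1 : |z.re| ≤ z.re ^ 2 := by
    rw [← sq_abs]
    rcases eq_or_ne z.re 0 with h | h
    · rw [h]; simp
    · have : 1 ≤ |z.re| := Int.one_le_abs h
      nlinarith
  nlinarith [sq_nonneg z.im]

private theorem abs_im_le (z : GI) : |z.im| ≤ (nm z : ℤ) := by
  rw [nm_int]
  have h1 : |z.im| ≤ z.im ^ 2 := by
    rw [← sq_abs]
    rcases eq_or_ne z.im 0 with h | h
    · rw [h]; simp
    · have : 1 ≤ |z.im| := Int.one_le_abs h
      nlinarith
  nlinarith [sq_nonneg z.re]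

theorem mem_dv {z d : GI} : d ∈ dv z ↔ z ≠ 0 ∧ d ∣ z := by
  classical
  rw [dv, Finset.mem_filter]
  constructor
  · exact fun h => h.2
  · rintro ⟨hz, hd⟩
    refine ⟨?_, hz, hd⟩
    rw [Finset.mem_image]
    have hle : (nm d : ℤ) ≤ (nm z : ℤ) := by
      obtain ⟨w, rfl⟩ := hd
      rw [nm_mul]
      have hw : 0 < nm w := nm_pos (right_ne_zero_of_mul hz)
      have : nm d ≤ nm d * nm w := Nat.le_mul_of_pos_right _ hw
      exact_mod_cast this
    have h1 := abs_re_le d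
    have h2 := abs_im_le d
    refine ⟨(d.re, d.im), ?_, rfl⟩
    rw [Finset.mem_product, Finset.mem_Icc, Finset.mem_Icc]
    exact ⟨abs_le.1 (h1.trans hle), abs_le.1 (h2.trans hle)⟩

/-- submultiplicativity, `d ↦ (gcd(d,z), d / gcd(d,z))` -/
theorem card_dv_mul (z w : GI) : (dv (z * w)).card ≤ (dv z).card * (dv w).card := by
  classical
  rw [← Finset.card_product]
  have hsub : dv (z * w) ⊆ (dv z ×ˢ dv w).image (fun p => p.1 * p.2) := by
    intro d hd
    rw [mem_dv] at hd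
    obtain ⟨hzw, hd⟩ := hd
    obtain ⟨a, b, ha, hb, hab⟩ := exists_dvd_and_dvd_of_dvd_mul hd
    rw [Finset.mem_image]
    refine ⟨(a, b), ?_, hab.symm⟩
    rw [Finset.mem_product, mem_dv, mem_dv]
    exact ⟨⟨left_ne_zero_of_mul hzw, ha⟩, right_ne_zero_of_mul hzw, hb⟩
  exact (Finset.card_le_card hsub).trans Finset.card_image_le

/-- all nonzero Gaussian integers with `N(z) ≤ Y` -/
noncomputable def bl (Y : ℝ) : Finset GI :=
  open Classical in
  (((Icc (-(⌊Y⌋₊ : ℤ)) (⌊Y⌋₊ : ℤ)) ×ˢ (Icc (-(⌊Y⌋₊ : ℤ)) (⌊Y⌋₊ : ℤ))).image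
    (fun p : ℤ × ℤ => (⟨p.1, p.2⟩ : GI))).filter (fun z => z ≠ 0 ∧ (nm z : ℝ) ≤ Y)

theorem mem_bl {Y : ℝ} {z : GI} : z ∈ bl Y ↔ z ≠ 0 ∧ (nm z : ℝ) ≤ Y := by
  classical
  rw [bl, Finset.mem_filter]
  constructor
  · exact fun h => h.2
  · rintro ⟨hz, hd⟩
    refine ⟨?_, hz, hd⟩
    rw [Finset.mem_image]
    have hle : (nm z : ℤ) ≤ (⌊Y⌋₊ : ℤ) := by exact_mod_cast Nat.le_floor hd
    have h1 := abs_re_le z
    have h2 := abs_im_le z
    refine ⟨(z.re, z.im), ?_, rfl⟩
    rw [Finset.mem_product, Finset.mem_Icc, Finset.mem_Icc]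
    exact ⟨abs_le.1 (h1.trans hle), abs_le.1 (h2.trans hle)⟩

/-- the sup norm -/
private def mx (z : GI) : ℕ := max z.re.natAbs z.im.natAbs

private theorem mx_sq_le (z : GI) : ((mx z : ℕ) : ℝ) ^ 2 ≤ (nm z : ℝ) := by
  have h : mx z ^ 2 ≤ nm z := by
    have h1 : (nm z : ℤ) = z.re ^ 2 + z.im ^ 2 := nm_int z
    have h2 : ((mx z : ℕ) : ℤ) ^ 2 ≤ (nm z : ℤ) := by
      rw [h1, mx]
      rcases le_total z.re.natAbs z.im.natAbs with h | h
      · rw [max_eq_right h, Int.natCast_natAbs, sq_abs]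
        nlinarith [sq_nonneg z.re]
      · rw [max_eq_left h, Int.natCast_natAbs, sq_abs]
        nlinarith [sq_nonneg z.im]
    exact_mod_cast h2
  exact_mod_cast h

private theorem mx_pos {z : GI} (hz : z ≠ 0) : 1 ≤ mx z := by
  by_contra hc
  have h0 : mx z = 0 := by omega
  have h1 : z.re.natAbs = 0 := by
    have := le_max_left z.re.natAbs z.im.natAbs
    rw [mx] at h0; omega
  have h2 : z.im.natAbs = 0 := by
    have := le_max_right z.re.natAbs z.im.natAbs
    rw [mx] at h0; omega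
  apply hz
  apply Zsqrtd.ext
  · simpa using h1
  · simpa using h2

private theorem card_mx (Y : ℝ) (m : ℕ) (hm : 1 ≤ m) :
    (((bl Y).filter (fun z => mx z = m)).card : ℝ) ≤ 12 * m := by
  classical
  have hsub : ((bl Y).filter (fun z => mx z = m)) ⊆
      ((({-(m : ℤ), (m : ℤ)} : Finset ℤ) ×ˢ (Icc (-(m : ℤ)) (m : ℤ))) ∪
        ((Icc (-(m : ℤ)) (m : ℤ)) ×ˢ ({-(m : ℤ), (m : ℤ)} : Finset ℤ))).image
        (fun p : ℤ × ℤ => (⟨p.1, p.2⟩ : GI)) := by
    intro z hz
    rw [Finset.mem_filter] at hz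
    obtain ⟨-, hz⟩ := hz
    rw [mx] at hz
    rw [Finset.mem_image]
    refine ⟨(z.re, z.im), ?_, rfl⟩
    rw [Finset.mem_union, Finset.mem_product, Finset.mem_product, Finset.mem_insert,
      Finset.mem_singleton, Finset.mem_insert, Finset.mem_singleton, Finset.mem_Icc,
      Finset.mem_Icc]
    dsimp only
    have h1 := le_max_left z.re.natAbs z.im.natAbs
    have h2 := le_max_right z.re.natAbs z.im.natAbs
    rcases le_total z.re.natAbs z.im.natAbs with h | h
    · rw [max_eq_right h] at hz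
      right
      omega
    · rw [max_eq_left h] at hz
      left
      omega
  have h1 := (Finset.card_le_card hsub).trans (Finset.card_image_le.trans
    (Finset.card_union_le _ _))
  rw [Finset.card_product, Finset.card_product] at h1
  have h2 : ({-(m : ℤ), (m : ℤ)} : Finset ℤ).card ≤ 2 := Finset.card_le_two
  have h3 : (Icc (-(m : ℤ)) (m : ℤ)).card = 2 * m + 1 := by
    rw [Int.card_Icc]; omega
  rw [h3] at h1
  have h4 : ((bl Y).filter (fun z => mx z = m)).card ≤ 12 * m := by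
    calc _ ≤ _ := h1
      _ ≤ 2 * (2 * m + 1) + (2 * m + 1) * 2 := by gcongr
      _ ≤ 12 * m := by omega
  exact_mod_cast h4

private theorem sum_bl_le {Y : ℝ} (f : GI → ℝ) (g : ℕ → ℝ) (hg : ∀ m, 0 ≤ g m)
    (hf : ∀ z ∈ bl Y, f z ≤ g (mx z)) :
    ∑ z ∈ bl Y, f z ≤ ∑ m ∈ Icc 1 ⌊√Y⌋₊, 12 * (m : ℝ) * g m := by
  classical
  have hmaps : ∀ z ∈ bl Y, mx z ∈ Icc 1 ⌊√Y⌋₊ := by
    intro z hz
    rw [mem_bl] at hz
    rw [Finset.mem_Icc]
    refine ⟨mx_pos hz.1, ?_⟩
    apply Nat.le_floor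
    apply Real.le_sqrt_of_sq_le
    exact (mx_sq_le z).trans hz.2
  rw [← Finset.sum_fiberwise_of_maps_to hmaps]
  apply Finset.sum_le_sum
  intro m hm
  rw [Finset.mem_Icc] at hm
  calc ∑ z ∈ (bl Y).filter (fun z => mx z = m), f z
      ≤ ∑ z ∈ (bl Y).filter (fun z => mx z = m), g m := by
        apply Finset.sum_le_sum
        intro z hz
        rw [Finset.mem_filter] at hz
        have := hf z hz.1
        rwa [hz.2] at this
    _ = (((bl Y).filter (fun z => mx z = m)).card : ℝ) * g m := by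
        rw [Finset.sum_const, nsmul_eq_mul]
    _ ≤ 12 * (m : ℝ) * g m := mul_le_mul_of_nonneg_right (card_mx Y m hm.1) (hg m)

private theorem sum_sqrt_le {T : ℝ} (hT : 0 ≤ T) : ∑ z ∈ bl T, √(T / nm z) ≤ 12 * T := by
  have h1 := sum_bl_le (Y := T) (fun z => √(T / nm z)) (fun m => √T / m) (fun m => by positivity) (by
    intro z hz
    rw [mem_bl] at hz
    have h2 := mx_sq_le z
    have h3 : (1 : ℝ) ≤ mx z := by exact_mod_cast mx_pos hz.1
    rw [Real.sqrt_div hT]
    apply div_le_div_of_nonneg_left (Real.sqrt_nonneg _) (by linarith)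
    exact Real.le_sqrt_of_sq_le h2)
  refine h1.trans ?_
  have h4 : ∑ m ∈ Icc 1 ⌊√T⌋₊, 12 * (m : ℝ) * (√T / m) = ∑ m ∈ Icc 1 ⌊√T⌋₊, 12 * √T := by
    apply Finset.sum_congr rfl
    intro m hm
    rw [Finset.mem_Icc] at hm
    have : (m : ℝ) ≠ 0 := by
      have : (1 : ℝ) ≤ m := by exact_mod_cast hm.1
      linarith
    field_simp
  rw [h4, Finset.sum_const, Nat.card_Icc, nsmul_eq_mul, Nat.add_sub_cancel]
  have h5 : ((⌊√T⌋₊ : ℕ) : ℝ) ≤ √T := Nat.floor_le (Real.sqrt_nonneg _)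
  have h6 : √T * √T = T := Real.mul_self_sqrt hT
  nlinarith [Real.sqrt_nonneg T]

private theorem sum_inv_le {Y : ℝ} (hY : 1 ≤ Y) :
    ∑ z ∈ bl Y, 1 / (nm z : ℝ) ≤ 12 * (1 + Real.log Y) := by
  have hY0 : 0 ≤ Y := by linarith
  have h1 := sum_bl_le (Y := Y) (fun z => 1 / (nm z : ℝ)) (fun m => 1 / (m : ℝ) ^ 2)
    (fun m => by positivity) (by
    intro z hz
    rw [mem_bl] at hz
    have h2 := mx_sq_le z
    have h3 : (1 : ℝ) ≤ mx z := by exact_mod_cast mx_pos hz.1
    apply div_le_div_of_nonneg_left zero_le_one (by positivity) h2)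
  refine h1.trans ?_
  have h4 : ∑ m ∈ Icc 1 ⌊√Y⌋₊, 12 * (m : ℝ) * (1 / (m : ℝ) ^ 2) =
      12 * ∑ m ∈ Icc 1 ⌊√Y⌋₊, ((m : ℝ))⁻¹ := by
    rw [Finset.mul_sum]
    apply Finset.sum_congr rfl
    intro m hm
    rw [Finset.mem_Icc] at hm
    have : (m : ℝ) ≠ 0 := by
      have : (1 : ℝ) ≤ m := by exact_mod_cast hm.1
      linarith
    field_simp
  rw [h4]
  have h5 : ∑ m ∈ Icc 1 ⌊√Y⌋₊, ((m : ℝ))⁻¹ ≤ 1 + Real.log (⌊√Y⌋₊ : ℝ) := by
    have := harmonic_le_one_add_log ⌊√Y⌋₊
    rw [harmonic_eq_sum_Icc] at this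
    push_cast at this
    exact this
  have h7 : (1 : ℝ) ≤ √Y := by
    rw [Real.one_le_sqrt]; exact hY
  have h8 : 1 ≤ ⌊√Y⌋₊ := Nat.le_floor (by simpa using h7)
  have h6 : Real.log (⌊√Y⌋₊ : ℝ) ≤ Real.log Y := by
    apply Real.log_le_log
    · exact_mod_cast h8
    · have h9 : ((⌊√Y⌋₊ : ℕ) : ℝ) ≤ √Y := Nat.floor_le (Real.sqrt_nonneg _)
      have h10 : √Y * √Y = Y := Real.mul_self_sqrt hY0
      nlinarith
  linarith

/-- `∑_{N(z) ≤ Y} d(z) √(Y/N(z)) ≤ C Y (1 + log Y)` -/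
theorem sum_dv : ∃ C : ℝ, 0 < C ∧ ∀ Y : ℝ, 1 ≤ Y →
    ∑ z ∈ bl Y, ((dv z).card : ℝ) * √(Y / nm z) ≤ C * Y * (1 + Real.log Y) := by
  classical
  refine ⟨144, by norm_num, fun Y hY => ?_⟩
  have hY0 : 0 ≤ Y := by linarith
  have h1 : ∀ z ∈ bl Y, ((dv z).card : ℝ) * √(Y / nm z) =
      ∑ d ∈ bl Y, if d ∣ z then √(Y / nm z) else 0 := by
    intro z hz
    rw [mem_bl] at hz
    rw [← Finset.sum_filter, Finset.sum_const, nsmul_eq_mul]
    congr 3
    ext d
    rw [mem_dv, Finset.mem_filter, mem_bl]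
    constructor
    · rintro ⟨-, hd⟩
      refine ⟨⟨?_, ?_⟩, hd⟩
      · rintro rfl
        exact hz.1 (zero_dvd_iff.1 hd)
      · obtain ⟨w, hw⟩ := hd
        have hw0 : w ≠ 0 := by
          rintro rfl
          apply hz.1
          rw [hw, mul_zero]
        have h2 : nm d ≤ nm z := by
          rw [hw, nm_mul]
          exact Nat.le_mul_of_pos_right _ (nm_pos hw0)
        have h3 : (nm d : ℝ) ≤ nm z := by exact_mod_cast h2
        linarith [hz.2]
    · rintro ⟨-, hd⟩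
      exact ⟨hz.1, hd⟩
  rw [Finset.sum_congr rfl h1, Finset.sum_comm]
  have h2 : ∀ d ∈ bl Y, (∑ z ∈ bl Y, if d ∣ z then √(Y / nm z) else 0) ≤
      12 * Y * (1 / (nm d : ℝ)) := by
    intro d hd
    rw [mem_bl] at hd
    have hd0 : (0 : ℝ) < nm d := by exact_mod_cast nm_pos hd.1
    rw [← Finset.sum_filter]
    have h3 : (bl Y).filter (fun z => d ∣ z) = (bl (Y / nm d)).image (fun w => d * w) := by
      ext z
      rw [Finset.mem_filter, Finset.mem_image, mem_bl]
      constructor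
      · rintro ⟨⟨hz, hzY⟩, w, rfl⟩
        refine ⟨w, ?_, rfl⟩
        rw [mem_bl]
        refine ⟨right_ne_zero_of_mul hz, ?_⟩
        rw [nm_mul] at hzY
        push_cast at hzY
        rw [le_div_iff₀ hd0, mul_comm]
        exact hzY
      · rintro ⟨w, hw, rfl⟩
        rw [mem_bl] at hw
        refine ⟨⟨mul_ne_zero hd.1 hw.1, ?_⟩, dvd_mul_right _ _⟩
        rw [nm_mul]
        push_cast
        have := hw.2
        rw [le_div_iff₀ hd0] at this
        linarith
    rw [h3, Finset.sum_image]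
    · have h4 : ∀ w ∈ bl (Y / nm d), √(Y / (nm (d * w) : ℝ)) = √((Y / nm d) / nm w) := by
        intro w _
        rw [nm_mul]
        push_cast
        rw [div_div]
      rw [Finset.sum_congr rfl h4]
      refine (sum_sqrt_le (by positivity)).trans (le_of_eq ?_)
      ring
    · intro a _ b _ hab
      exact mul_left_cancel₀ hd.1 hab
  refine (Finset.sum_le_sum h2).trans ?_
  rw [← Finset.mul_sum]
  have h5 := sum_inv_le hY
  calc 12 * Y * ∑ z ∈ bl Y, 1 / (nm z : ℝ) ≤ 12 * Y * (12 * (1 + Real.log Y)) := by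
        apply mul_le_mul_of_nonneg_left h5; positivity
    _ = 144 * Y * (1 + Real.log Y) := by ring

/-- edges with a given value: `x * star y` or `star x * y` divides ... ; if `|dt x y| = 1` then
`(Re (star x * y))^2 + 1 = N(x) N(y)` and `x * star y = n ± i`. -/
theorem edge_value {x y : GI} (h : (dt x y).natAbs = 1) :
    ∃ n : ℕ, nm x * nm y = n ^ 2 + 1 ∧ (n : ℤ) = |(star x * y).re| := by
  refine ⟨(star x * y).re.natAbs, ?_, by rw [Int.natCast_natAbs]⟩
  have h1 : (dt x y) ^ 2 = 1 := by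
    rw [← Int.natAbs_sq, h]; norm_num
  have h2 : ((nm x * nm y : ℕ) : ℤ) = (((star x * y).re.natAbs ^ 2 + 1 : ℕ) : ℤ) := by
    have h3 : (star x * y).re = x.re * y.re + x.im * y.im := by
      rw [Zsqrtd.re_mul]
      simp only [Zsqrtd.re_star, Zsqrtd.im_star]
      ring
    rw [dt] at h1
    push_cast
    rw [nm_int, nm_int, sq_abs, h3]
    linear_combination h1
  exact_mod_cast h2

private theorem card_dv_star (z : GI) : (dv (star z)).card = (dv z).card := by
  classical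
  apply Finset.card_bij (fun d _ => star d)
  · intro d hd
    rw [mem_dv] at hd ⊢
    refine ⟨fun h => hd.1 (by rw [h, star_zero]), ?_⟩
    obtain ⟨w, hw⟩ := hd.2
    refine ⟨star w, ?_⟩
    rw [← star_star z, hw, star_mul, mul_comm]
  · intro a _ b _ hab
    exact star_injective hab
  · intro b hb
    rw [mem_dv] at hb
    refine ⟨star b, ?_, star_star b⟩
    rw [mem_dv]
    refine ⟨fun h => hb.1 (by rw [← star_star z, h, star_zero]), ?_⟩
    obtain ⟨w, hw⟩ := hb.2
    refine ⟨star w, ?_⟩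
    rw [hw, star_mul, mul_comm]

/-- number of pairs `(x,y)` with `|dt x y| = 1` and value `n`, both having at most `T` divisors, is at most
`4 T^2` -/
theorem edge_mult (n : ℕ) (T : ℕ) (B : Finset (GI × GI))
    (hB : ∀ e ∈ B, (dt e.1 e.2).natAbs = 1 ∧ nm e.1 * nm e.2 = n ^ 2 + 1 ∧
      (dv e.1).card ≤ T ∧ (dv e.2).card ≤ T) : B.card ≤ 4 * T ^ 2 := by
  classical
  set Z : Finset GI := {⟨(n : ℤ), 1⟩, ⟨(n : ℤ), -1⟩, ⟨-(n : ℤ), 1⟩, ⟨-(n : ℤ), -1⟩} with hZ
  have hZc : Z.card ≤ 4 := Finset.card_le_four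
  have himf : ∀ x y : GI, (star x * y).im = dt x y := by
    intro x y
    rw [Zsqrtd.im_mul, dt]
    simp only [Zsqrtd.re_star, Zsqrtd.im_star]
    ring
  have hmaps : ∀ e ∈ B, star e.1 * e.2 ∈ Z := by
    intro e he
    obtain ⟨h1, h2, -, -⟩ := hB e he
    obtain ⟨m, hm1, hm2⟩ := edge_value h1
    have hmn : m = n := by
      have : m ^ 2 = n ^ 2 := by omega
      exact Nat.pow_left_injective (by norm_num : 2 ≠ 0) this
    subst hmn
    have h3 : (star e.1 * e.2).re = (m : ℤ) ∨ (star e.1 * e.2).re = -(m : ℤ) := by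
      rcases abs_choice (star e.1 * e.2).re with h | h
      · left; rw [hm2, h]
      · right; rw [hm2, h, neg_neg]
    have h4 : (star e.1 * e.2).im = 1 ∨ (star e.1 * e.2).im = -1 := by
      rw [himf]
      omega
    rw [hZ, Finset.mem_insert, Finset.mem_insert, Finset.mem_insert, Finset.mem_singleton]
    simp only [Zsqrtd.ext_iff]
    tauto
  have hfib : ∀ b ∈ Z, (B.filter (fun e => star e.1 * e.2 = b)).card ≤ T ^ 2 := by
    intro b _
    rcases (B.filter (fun e => star e.1 * e.2 = b)).eq_empty_or_nonempty with hE | ⟨e0, he0⟩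
    · rw [hE]; simp
    · rw [Finset.mem_filter] at he0
      obtain ⟨h1, h2, h3, h4⟩ := hB e0 he0.1
      have hb0 : b ≠ 0 := by
        intro hb
        have : (star e0.1 * e0.2).im = 0 := by rw [he0.2, hb]; rfl
        rw [himf] at this
        rw [this] at h1
        simp at h1
      have hdb : (dv b).card ≤ T ^ 2 := by
        rw [← he0.2]
        refine (card_dv_mul _ _).trans ?_
        rw [card_dv_star, pow_two]
        exact Nat.mul_le_mul h3 h4
      refine le_trans ?_ hdb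
      apply Finset.card_le_card_of_injOn (fun e => star e.1)
      · intro e he
        have he' : e ∈ B.filter (fun e => star e.1 * e.2 = b) := he
        rw [Finset.mem_filter] at he'
        show star e.1 ∈ dv b
        rw [mem_dv]
        exact ⟨hb0, ⟨e.2, he'.2.symm⟩⟩
      · intro e he e' he' hee
        have h5 : e ∈ B.filter (fun e => star e.1 * e.2 = b) := he
        have h6 : e' ∈ B.filter (fun e => star e.1 * e.2 = b) := he'
        rw [Finset.mem_filter] at h5 h6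
        have h7 : e.1 = e'.1 := star_injective hee
        have h8 : star e.1 ≠ 0 := by
          intro h
          apply hb0
          rw [← h5.2, h, zero_mul]
        have h9 : e.2 = e'.2 := by
          apply mul_left_cancel₀ h8
          rw [h5.2, h7, h6.2]
        exact Prod.ext h7 h9
  have := Finset.card_le_mul_card_image_of_maps_to hmaps (T ^ 2) hfib
  calc B.card ≤ T ^ 2 * Z.card := this
    _ ≤ T ^ 2 * 4 := Nat.mul_le_mul_left _ hZc
    _ = 4 * T ^ 2 := by ring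

end Pool.Agent.MRS
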