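import Pool.Agent.MRS.Basic

set_option autoImplicit false

/-! Module EDG: one edge at each vector.  `v = i w`.  `dt u v = 1`, `Re(star u * v) = m` can be shifted by `2 N(u)` (add `2u`): take `2N(u) ≤ m < 4N(u)`;
parity: exactly one of `v`, `v + u` has `re` even, `im` odd.  `N(u) N(v) = m^2 + 1`.  Injectivity: `u - u'` is an integer multiple `t v`,
`|u - u'| ≤ |v|`, `|t| = 1` would force `u' = -u`. -/

open Finset

namespace Pool.Agent.MRS

theorem EDG_dt (u w : GI) : dt u ((⟨0, 1⟩ : GI) * w) = u.re * w.re + u.im * w.im := by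
  unfold dt
  have h1 : ((⟨0, 1⟩ : GI) * w).im = w.re := by
    rw [Zsqrtd.im_mul]; ring
  have h2 : ((⟨0, 1⟩ : GI) * w).re = -w.im := by
    rw [Zsqrtd.re_mul]; ring
  rw [h1, h2]
  ring

theorem edge_map {u : GI} (hu : Od u) (hp : Pr u) : ∃ w : GI, Od w ∧ Pr w ∧
    dt u ((⟨0, 1⟩ : GI) * w) = 1 ∧ 4 * nm u ≤ nm w ∧ nm w ≤ 16 * nm u + 1 := by
  obtain ⟨r, s⟩ := u
  have hco : IsCoprime r s := Int.isCoprime_iff_gcd_eq_one.2 hp
  obtain ⟨a, b, hab⟩ := hco
  have hr : r % 2 = 1 := hu.1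
  have hs : s % 2 = 0 := hu.2
  have hN : (nm (⟨r, s⟩ : GI) : ℤ) = r ^ 2 + s ^ 2 := nm_int _
  set N : ℤ := r ^ 2 + s ^ 2 with hNdef
  have hNpos : 0 < N := by
    have : r ≠ 0 := by rintro rfl; simp at hr
    positivity
  -- parity
  obtain ⟨a', b', hab', hb'⟩ : ∃ a' b' : ℤ, r * a' + s * b' = 1 ∧ b' % 2 = 0 := by
    rcases Int.emod_two_eq_zero_or_one b with h | h
    · exact ⟨a, b, by linarith, h⟩
    · refine ⟨a + s, b - r, by linear_combination hab, ?_⟩
      omega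
  have ha' : a' % 2 = 1 := by
    have h1 : (r * a' + s * b') % 2 = 1 := by rw [hab']; rfl
    rw [Int.add_emod, Int.mul_emod, Int.mul_emod s, hr, hs] at h1
    omega
  set m : ℤ := r * b' - s * a' with hm
  -- choose `t` with `2 N ≤ m - 2 t N < 4 N`
  set t : ℤ := m / (2 * N) - 1 with ht
  have h1 : 2 * N * (m / (2 * N)) + m % (2 * N) = m := Int.mul_ediv_add_emod m (2 * N)
  have h2 : 0 ≤ m % (2 * N) := Int.emod_nonneg _ (by positivity)
  have h3 : m % (2 * N) < 2 * N := Int.emod_lt_of_pos _ (by positivity)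
  have h4 : 2 * N ≤ m - 2 * t * N := by rw [ht]; linarith
  have h5 : m - 2 * t * N < 4 * N := by rw [ht]; linarith
  refine ⟨⟨a' + 2 * t * s, b' - 2 * t * r⟩, ⟨?_, ?_⟩, ?_, ?_, ?_, ?_⟩
  · show (a' + 2 * t * s) % 2 = 1
    rw [mul_assoc]; omega
  · show (b' - 2 * t * r) % 2 = 0
    rw [mul_assoc]; omega
  · show Int.gcd (a' + 2 * t * s) (b' - 2 * t * r) = 1
    rw [← Int.isCoprime_iff_gcd_eq_one]
    exact ⟨r, s, by linear_combination hab'⟩
  · rw [EDG_dt]
    show r * (a' + 2 * t * s) + s * (b' - 2 * t * r) = 1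
    linear_combination hab'
  · have h6 : (nm (⟨a' + 2 * t * s, b' - 2 * t * r⟩ : GI) : ℤ) =
        (a' + 2 * t * s) ^ 2 + (b' - 2 * t * r) ^ 2 := nm_int _
    have h7 : N * ((a' + 2 * t * s) ^ 2 + (b' - 2 * t * r) ^ 2) =
        (m - 2 * t * N) ^ 2 + 1 := by
      have h8 : (r * (a' + 2 * t * s) + s * (b' - 2 * t * r)) ^ 2 = 1 := by
        have : r * (a' + 2 * t * s) + s * (b' - 2 * t * r) = 1 := by linear_combination hab'
        rw [this]; norm_num
      rw [hm, hNdef]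
      linear_combination h8
    zify
    rw [h6, hN]
    have h9 : N * (4 * N) ≤ N * ((a' + 2 * t * s) ^ 2 + (b' - 2 * t * r) ^ 2) := by
      rw [h7]
      nlinarith
    exact le_of_mul_le_mul_left h9 hNpos
  · have h6 : (nm (⟨a' + 2 * t * s, b' - 2 * t * r⟩ : GI) : ℤ) =
        (a' + 2 * t * s) ^ 2 + (b' - 2 * t * r) ^ 2 := nm_int _
    have h7 : N * ((a' + 2 * t * s) ^ 2 + (b' - 2 * t * r) ^ 2) =
        (m - 2 * t * N) ^ 2 + 1 := by
      have h8 : (r * (a' + 2 * t * s) + s * (b' - 2 * t * r)) ^ 2 = 1 := by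
        have : r * (a' + 2 * t * s) + s * (b' - 2 * t * r) = 1 := by linear_combination hab'
        rw [this]; norm_num
      rw [hm, hNdef]
      linear_combination h8
    zify
    rw [h6, hN]
    have h9 : N * ((a' + 2 * t * s) ^ 2 + (b' - 2 * t * r) ^ 2) ≤ N * (16 * N + 1) := by
      rw [h7]
      nlinarith
    exact le_of_mul_le_mul_left h9 hNpos

theorem edge_inj {u u' w : GI} (h : dt u ((⟨0, 1⟩ : GI) * w) = 1)
    (h' : dt u' ((⟨0, 1⟩ : GI) * w) = 1) (h1 : 4 * nm u ≤ nm w) (h2 : 4 * nm u' ≤ nm w) : u = u' := by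
  rw [EDG_dt] at h h'
  have e1 := nm_int u
  have e2 := nm_int u'
  have e3 := nm_int w
  zify at h1 h2
  rw [e1, e3] at h1
  rw [e2, e3] at h2
  obtain ⟨r, s⟩ := u
  obtain ⟨r', s'⟩ := u'
  obtain ⟨a, b⟩ := w
  dsimp only at *
  set t : ℤ := s * (r - r') - r * (s - s') with ht
  have hx : r - r' = b * t := by
    rw [ht]
    linear_combination (r' - r) * h + r * (h - h')
  have hy : s - s' = -a * t := by
    rw [ht]
    linear_combination (s' - s) * h + s * (h - h')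
  have hpar : (r - r') ^ 2 + (s - s') ^ 2 + ((r + r') ^ 2 + (s + s') ^ 2) ≤ a ^ 2 + b ^ 2 := by
    have e : (r - r') ^ 2 + (s - s') ^ 2 + ((r + r') ^ 2 + (s + s') ^ 2) =
        2 * (r ^ 2 + s ^ 2) + 2 * (r' ^ 2 + s' ^ 2) := by ring
    rw [e]
    linarith
  have hnt : (r - r') ^ 2 + (s - s') ^ 2 = t ^ 2 * (a ^ 2 + b ^ 2) := by
    rw [hx, hy]; ring
  rw [hnt] at hpar
  have ht0 : t = 0 := by
    by_contra hne
    have h3 : 1 ≤ t ^ 2 := by
      have := sq_pos_of_ne_zero hne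
      linarith
    have h4 : (r + r') ^ 2 + (s + s') ^ 2 ≤ 0 := by
      have h9 : 1 * (a ^ 2 + b ^ 2) ≤ t ^ 2 * (a ^ 2 + b ^ 2) :=
        mul_le_mul_of_nonneg_right h3 (by positivity)
      linarith
    have h5 : r + r' = 0 := by
      have h9 : (r + r') ^ 2 ≤ 0 := by linarith [sq_nonneg (s + s')]
      exact pow_eq_zero_iff (two_ne_zero) |>.1 (le_antisymm h9 (sq_nonneg _))
    have h6 : s + s' = 0 := by
      have h9 : (s + s') ^ 2 ≤ 0 := by linarith [sq_nonneg (r + r')]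
      exact pow_eq_zero_iff (two_ne_zero) |>.1 (le_antisymm h9 (sq_nonneg _))
    have h7 : r' = -r := by linarith
    have h8 : s' = -s := by linarith
    rw [h7, h8] at h'
    linarith
  rw [ht0] at hx hy
  have h5 : r = r' := by linarith
  have h6 : s = s' := by linarith
  rw [h5, h6]

end Pool.Agent.MRS
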