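import Pool.Agent.MRS.Edg

set_option autoImplicit false

/-! Module ED2: edges to even vectors `v = ε (1+i) w`, `ε` a unit.  As `Edg.lean`: `dt u v = 1`, `2N(u) ≤ Re(star u * v) < 4N(u)`, parity: exactly one of `v`, `v + u` has both
coordinates odd; then `v / (1+i)` has odd norm, and a unit multiple of it is in the class `Od`. -/

open Finset

namespace Pool.Agent.MRS

/-- vectors of an edge are primitive -/
theorem ED2_prim {z x : GI} (h : dt z x = 1) : Pr x := by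
  unfold Pr
  have h1 : ((Int.gcd x.re x.im : ℕ) : ℤ) ∣ x.re := Int.gcd_dvd_left ..
  have h2 : ((Int.gcd x.re x.im : ℕ) : ℤ) ∣ x.im := Int.gcd_dvd_right ..
  have h3 : ((Int.gcd x.re x.im : ℕ) : ℤ) ∣ dt z x := by
    unfold dt
    exact dvd_sub (Dvd.dvd.mul_left h2 _) (Dvd.dvd.mul_left h1 _)
  rw [h] at h3
  have h4 : (Int.gcd x.re x.im) ∣ (1 : ℤ).natAbs := Int.natCast_dvd.1 h3
  exact Nat.dvd_one.1 h4

/-- odd vectors with both coordinates odd are `ε (1 + i) w` -/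
theorem ED2_split {c d : ℤ} (hc : c % 2 = 1) (hd : d % 2 = 1) : ∃ w ε : GI, Od w ∧ nm ε = 1 ∧
    ε * ((⟨1, 1⟩ : GI) * w) = ⟨c, d⟩ ∧ 2 * (nm w : ℤ) = c ^ 2 + d ^ 2 := by
  obtain ⟨x, hx⟩ : ∃ x, c + d = 2 * x := ⟨(c + d) / 2, by omega⟩
  obtain ⟨y, hy⟩ : ∃ y, d - c = 2 * y := ⟨(d - c) / 2, by omega⟩
  rcases Int.emod_two_eq_zero_or_one x with h | h
  · -- `x` even, `y` odd
    refine ⟨⟨y, -x⟩, ⟨0, 1⟩, ⟨?_, ?_⟩, ?_, ?_, ?_⟩
    · show y % 2 = 1
      omega
    · show (-x) % 2 = 0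
      omega
    · have h1 := nm_int (⟨0, 1⟩ : GI)
      have h2 : ((nm (⟨0, 1⟩ : GI) : ℕ) : ℤ) = 1 := by
        rw [h1]; norm_num
      exact_mod_cast h2
    · apply Zsqrtd.ext
      · rw [Zsqrtd.re_mul, Zsqrtd.re_mul, Zsqrtd.im_mul]
        dsimp only
        linarith
      · rw [Zsqrtd.im_mul, Zsqrtd.re_mul, Zsqrtd.im_mul]
        dsimp only
        linarith
    · rw [nm_int]
      dsimp only
      have e1 : c = x - y := by linarith
      have e2 : d = x + y := by linarith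
      rw [e1, e2]; ring
  · refine ⟨⟨x, y⟩, 1, ⟨?_, ?_⟩, nm_one, ?_, ?_⟩
    · exact h
    · show y % 2 = 0
      omega
    · rw [one_mul]
      apply Zsqrtd.ext
      · rw [Zsqrtd.re_mul]
        dsimp only
        linarith
      · rw [Zsqrtd.im_mul]
        dsimp only
        linarith
    · rw [nm_int]
      dsimp only
      have e1 : c = x - y := by linarith
      have e2 : d = x + y := by linarith
      rw [e1, e2]; ring

theorem edge_map1 {u : GI} (hu : Od u) (hp : Pr u) : ∃ w ε : GI, Od w ∧ Pr w ∧ nm ε = 1 ∧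
    dt u (ε * ((⟨1, 1⟩ : GI) * w)) = 1 ∧ 2 * nm u ≤ nm w ∧ nm w ≤ 8 * nm u + 1 := by
  obtain ⟨r, s⟩ := u
  have hco : IsCoprime r s := Int.isCoprime_iff_gcd_eq_one.2 hp
  obtain ⟨a, b, hab⟩ := hco
  have hr : r % 2 = 1 := hu.1
  have hs : s % 2 = 0 := hu.2
  have hN : (nm (⟨r, s⟩ : GI) : ℤ) = r ^ 2 + s ^ 2 := nm_int _
  set N : ℤ := r ^ 2 + s ^ 2 with hNdef
  have hNpos : 0 < N := by
    have : r ≠ 0 := by rintro rfl; simp at hr
    positivity
  -- `v = (c, d)`, `r d - s c = 1`, both odd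
  obtain ⟨c, d, hcd, hc⟩ : ∃ c d : ℤ, r * d - s * c = 1 ∧ c % 2 = 1 := by
    rcases Int.emod_two_eq_zero_or_one b with h | h
    · refine ⟨-b + r, a + s, by linear_combination hab, ?_⟩
      omega
    · exact ⟨-b, a, by linear_combination hab, by omega⟩
  have hd : d % 2 = 1 := by
    have h1 : (r * d - s * c) % 2 = 1 := by rw [hcd]; rfl
    rw [Int.sub_emod, Int.mul_emod, Int.mul_emod s, hr, hs] at h1
    omega
  set m : ℤ := r * c + s * d with hm
  set t : ℤ := m / (2 * N) - 1 with ht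
  have h1 : 2 * N * (m / (2 * N)) + m % (2 * N) = m := Int.mul_ediv_add_emod m (2 * N)
  have h2 : 0 ≤ m % (2 * N) := Int.emod_nonneg _ (by positivity)
  have h3 : m % (2 * N) < 2 * N := Int.emod_lt_of_pos _ (by positivity)
  have h4 : 2 * N ≤ m - 2 * t * N := by rw [ht]; linarith
  have h5 : m - 2 * t * N < 4 * N := by rw [ht]; linarith
  have hc' : (c - 2 * t * r) % 2 = 1 := by rw [mul_assoc]; omega
  have hd' : (d - 2 * t * s) % 2 = 1 := by rw [mul_assoc]; omega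
  obtain ⟨w, ε, hw, hε, hv, hnw⟩ := ED2_split hc' hd'
  have hdt : dt (⟨r, s⟩ : GI) (ε * ((⟨1, 1⟩ : GI) * w)) = 1 := by
    rw [hv]
    unfold dt
    show r * (d - 2 * t * s) - s * (c - 2 * t * r) = 1
    linear_combination hcd
  have h7 : N * ((c - 2 * t * r) ^ 2 + (d - 2 * t * s) ^ 2) = (m - 2 * t * N) ^ 2 + 1 := by
    have h8 : (r * (d - 2 * t * s) - s * (c - 2 * t * r)) ^ 2 = 1 := by
      have : r * (d - 2 * t * s) - s * (c - 2 * t * r) = 1 := by linear_combination hcd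
      rw [this]; norm_num
    rw [hm, hNdef]
    linear_combination h8
  rw [← hnw] at h7
  refine ⟨w, ε, hw, ?_, hε, hdt, ?_, ?_⟩
  · refine Pr_of_dvd ?_ (ED2_prim hdt)
    exact Dvd.dvd.mul_left (Dvd.intro_left _ rfl) _
  · zify
    rw [hN]
    have h9 : N * (4 * N) ≤ N * (2 * (nm w : ℤ)) := by
      rw [h7]
      nlinarith
    have h10 := le_of_mul_le_mul_left h9 hNpos
    linarith
  · zify
    rw [hN]
    have h9 : N * (2 * (nm w : ℤ)) ≤ N * (16 * N + 2) := by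
      rw [h7]
      nlinarith
    have h10 := le_of_mul_le_mul_left h9 hNpos
    linarith

theorem edge_inj1 {u u' v : GI} (h : dt u v = 1) (h' : dt u' v = 1) (h1 : 4 * nm u ≤ nm v)
    (h2 : 4 * nm u' ≤ nm v) : u = u' := by
  have hv : ((⟨0, 1⟩ : GI) * ⟨v.im, -v.re⟩) = v := by
    apply Zsqrtd.ext
    · rw [Zsqrtd.re_mul]
      dsimp only
      ring
    · rw [Zsqrtd.im_mul]
      dsimp only
      ring
  have hn : nm (⟨v.im, -v.re⟩ : GI) = nm v := by
    have e1 := nm_int (⟨v.im, -v.re⟩ : GI)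
    have e2 := nm_int v
    dsimp only at e1
    have e3 : ((nm (⟨v.im, -v.re⟩ : GI) : ℕ) : ℤ) = (nm v : ℤ) := by
      rw [e1, e2]; ring
    exact_mod_cast e3
  exact edge_inj (w := ⟨v.im, -v.re⟩) (by rw [hv]; exact h) (by rw [hv]; exact h')
    (by rw [hn]; exact h1) (by rw [hn]; exact h2)

end Pool.Agent.MRS
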