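import Pool.Agent.MRS.Basic

set_option autoImplicit false

/-! Module PTH: paths of odd vectors.  Proof of `path`: strong induction on `n = |dt z w|`, `dt z w = s n`.
If `n = 1` take `x = z`, `y = w`.  If `n ≥ 2`: with `dt z z' = 1` we have `w = a z + s n z'`, `gcd(a,n) = 1`;
choose `0 < l < n`, `l = -a mod n`, and `x` with `n x = l z + w`: `dt z x = s`, `dt x w = s l`.
If `x` is odd, use the edge `(z,x)` and the induction hypothesis for `(x,w)`; if `x` is even use `z - x`,
which is odd, with `dt z (z-x) = -s`, `dt (z-x) w = s (n - l)`, and `n (z-x) = (n-l) z - w`, `(n-l)+1 ≤ n`.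
Hulls are transitive. -/

open Finset

namespace Pool.Agent.MRS

/-- odd norm -/
def On (z : GI) : Prop := (z.re + z.im) % 2 = 1

/-- `x` is in the absolutely convex hull of `z` and `w` -/
def Hul (z w x : GI) : Prop :=
  ∃ s t : ℝ, |s| + |t| ≤ 1 ∧ (x.re : ℝ) = s * z.re + t * w.re ∧ (x.im : ℝ) = s * z.im + t * w.im

theorem PTH_hul_left (z w : GI) : Hul z w z := ⟨1, 0, by simp, by simp, by simp⟩

theorem PTH_hul_right (z w : GI) : Hul z w w := ⟨0, 1, by simp, by simp, by simp⟩

theorem PTH_hul_trans {z w x y v : GI} (hx : Hul z w x) (hy : Hul z w y) (hv : Hul x y v) :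
    Hul z w v := by
  obtain ⟨s1, t1, h1, hx1, hx2⟩ := hx
  obtain ⟨s2, t2, h2, hy1, hy2⟩ := hy
  obtain ⟨s, t, h, hv1, hv2⟩ := hv
  refine ⟨s * s1 + t * s2, s * t1 + t * t2, ?_, ?_, ?_⟩
  · have e1 : |s * s1 + t * s2| ≤ |s| * |s1| + |t| * |s2| := by
      calc |s * s1 + t * s2| ≤ |s * s1| + |t * s2| := abs_add_le _ _
        _ = |s| * |s1| + |t| * |s2| := by rw [abs_mul, abs_mul]
    have e2 : |s * t1 + t * t2| ≤ |s| * |t1| + |t| * |t2| := by
      calc |s * t1 + t * t2| ≤ |s * t1| + |t * t2| := abs_add_le _ _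
        _ = |s| * |t1| + |t| * |t2| := by rw [abs_mul, abs_mul]
    have e3 : |s| * (|s1| + |t1|) ≤ |s| * 1 := mul_le_mul_of_nonneg_left h1 (abs_nonneg _)
    have e4 : |t| * (|s2| + |t2|) ≤ |t| * 1 := mul_le_mul_of_nonneg_left h2 (abs_nonneg _)
    nlinarith
  · rw [hv1, hx1, hy1]; ring
  · rw [hv2, hx2, hy2]; ring

/-- vectors of an edge are primitive -/
theorem PTH_prim {z x : GI} (h : (dt z x).natAbs = 1) : Pr x := by
  unfold Pr
  have h1 : ((Int.gcd x.re x.im : ℕ) : ℤ) ∣ x.re := Int.gcd_dvd_left ..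
  have h2 : ((Int.gcd x.re x.im : ℕ) : ℤ) ∣ x.im := Int.gcd_dvd_right ..
  have h3 : ((Int.gcd x.re x.im : ℕ) : ℤ) ∣ dt z x := by
    unfold dt
    exact dvd_sub (Dvd.dvd.mul_left h2 _) (Dvd.dvd.mul_left h1 _)
  have h4 : (Int.gcd x.re x.im) ∣ (dt z x).natAbs := Int.natCast_dvd.1 h3
  rw [h] at h4
  exact Nat.dvd_one.1 h4

theorem path {α : Type} (σ : GI → α) (n : ℕ) : ∀ z w : GI, On z → On w → Pr z → Pr w →
    (dt z w).natAbs = n → n ≠ 0 → σ z ≠ σ w →
    ∃ x y : GI, On x ∧ On y ∧ Pr x ∧ Pr y ∧ (dt x y).natAbs = 1 ∧ Hul z w x ∧ Hul z w y ∧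
      σ x ≠ σ y := by
  induction n using Nat.strong_induction_on with
  | _ n ih =>
  intro z w hoz how hz hw hn hn0 hσ
  by_cases hn1 : n = 1
  · exact ⟨z, w, hoz, how, hz, hw, by rw [hn, hn1], PTH_hul_left z w, PTH_hul_right z w, hσ⟩
  have hn2 : 2 ≤ n := by omega
  -- Bezout
  obtain ⟨u, v, huv⟩ : IsCoprime z.re z.im := Int.isCoprime_iff_gcd_eq_one.2 hz
  set z' : GI := ⟨-v, u⟩ with hz'
  have hzz' : z.re * u + z.im * v = 1 := by linarith
  obtain ⟨s, hs, hsn⟩ : ∃ s : ℤ, (s = 1 ∨ s = -1) ∧ dt z w = s * n := by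
    rcases Int.natAbs_eq (dt z w) with h | h
    · exact ⟨1, Or.inl rfl, by rw [hn] at h; rw [h]; ring⟩
    · exact ⟨-1, Or.inr rfl, by rw [hn] at h; rw [h]; ring⟩
  set a : ℤ := dt w z' with ha
  have hare : w.re = a * z.re + s * n * (-v) := by
    rw [← hsn, ha]
    unfold dt
    simp only [hz']
    linear_combination (-w.re) * hzz'
  have haim : w.im = a * z.im + s * n * u := by
    rw [← hsn, ha]
    unfold dt
    simp only [hz']
    linear_combination (-w.im) * hzz'
  have hs2 : s * s = 1 := by rcases hs with h | h <;> rw [h] <;> norm_num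
  have hnpos : (0 : ℤ) < n := by omega
  -- gcd(a, n) = 1, only need that n does not divide a
  have hna : ¬ (n : ℤ) ∣ a := by
    rintro ⟨c, hc⟩
    have h1 : (n : ℤ) ∣ w.re := ⟨c * z.re + s * (-v), by rw [hare, hc]; ring⟩
    have h2 : (n : ℤ) ∣ w.im := ⟨c * z.im + s * u, by rw [haim, hc]; ring⟩
    have h3 : (n : ℤ) ∣ ((Int.gcd w.re w.im : ℕ) : ℤ) := Int.dvd_coe_gcd h1 h2
    rw [hw] at h3
    have h4 : n ∣ 1 := by exact_mod_cast h3
    have := Nat.dvd_one.1 h4
    omega
  obtain ⟨l, q, hl0, hln, hlq⟩ : ∃ l q : ℤ, 0 < l ∧ l < n ∧ l + a = n * q := by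
    refine ⟨(-a) % n, a / n + (if a % n = 0 then 0 else 1), ?_, Int.emod_lt_of_pos _ hnpos, ?_⟩
    · have h1 := Int.emod_nonneg (-a) hnpos.ne'
      rcases h1.lt_or_eq with h | h
      · exact h
      · exfalso
        apply hna
        have := Int.dvd_of_emod_eq_zero h.symm
        exact (Int.dvd_neg).1 this
    · have h0 : a % n ≠ 0 := fun h => hna (Int.dvd_of_emod_eq_zero h)
      rw [if_neg h0]
      have h2 := Int.emod_add_mul_ediv (-a) n
      have h3 := Int.emod_add_mul_ediv a n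
      have h4 : (-a) % n = n - a % n := by
        have h5 := Int.emod_nonneg a hnpos.ne'
        have h6 := Int.emod_lt_of_pos a hnpos
        have h7 : (-a) % (n : ℤ) = (n - a % n) % n := by
          apply Int.emod_emod_of_dvd _ (dvd_refl _) |>.symm.trans
          have : (-a : ℤ) = (n - a % n) + n * (-(a / n) - 1) := by linarith
          rw [this, Int.add_mul_emod_self_left]
          simp
        rw [h7]
        apply Int.emod_eq_of_lt
        · omega
        · omega
      rw [h4]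
      linarith
  -- the vector x
  set x : GI := ⟨q * z.re + s * (-v), q * z.im + s * u⟩ with hx
  have hxre : x.re = q * z.re + s * (-v) := rfl
  have hxim : x.im = q * z.im + s * u := rfl
  have hnxre : n * x.re = l * z.re + w.re := by
    rw [hxre, hare]; linear_combination (-z.re) * hlq
  have hnxim : n * x.im = l * z.im + w.im := by
    rw [hxim, haim]; linear_combination (-z.im) * hlq
  have hdzx : dt z x = s := by
    unfold dt
    rw [hxre, hxim]
    linear_combination s * hzz'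
  have hdxw : dt x w = s * l := by
    have h1 : w.re = n * x.re - l * z.re := by linarith
    have h2 : w.im = n * x.im - l * z.im := by linarith
    have h3 := hdzx
    unfold dt at h3 ⊢
    rw [h1, h2]
    linear_combination l * h3
  have hsabs : s.natAbs = 1 := by rcases hs with h | h <;> rw [h] <;> rfl
  have hnR : (0 : ℝ) < n := by exact_mod_cast hnpos
  have hRre : (n : ℝ) * x.re = l * z.re + w.re := by exact_mod_cast hnxre
  have hRim : (n : ℝ) * x.im = l * z.im + w.im := by exact_mod_cast hnxim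
  have hlR : (0 : ℝ) < l := by exact_mod_cast hl0
  have hlnR : (l : ℝ) + 1 ≤ n := by exact_mod_cast hln
  -- general step
  have step : ∀ y : GI, On y → Hul z w y → (dt z y).natAbs = 1 → (dt y w).natAbs < n →
      (dt y w).natAbs ≠ 0 →
      ∃ x y : GI, On x ∧ On y ∧ Pr x ∧ Pr y ∧ (dt x y).natAbs = 1 ∧ Hul z w x ∧ Hul z w y ∧
      σ x ≠ σ y := by
    intro y hoy hhy hdy hdyw hdyw0
    have hpy : Pr y := PTH_prim hdy
    by_cases hσy : σ z = σ y
    · have h1 : σ y ≠ σ w := by rw [← hσy]; exact hσ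
      obtain ⟨x', y', h2, h3, h4, h5, h6, h7, h8, h9⟩ :=
        ih (dt y w).natAbs hdyw y w hoy how hpy hw rfl hdyw0 h1
      exact ⟨x', y', h2, h3, h4, h5, h6, PTH_hul_trans hhy (PTH_hul_right z w) h7,
        PTH_hul_trans hhy (PTH_hul_right z w) h8, h9⟩
    · exact ⟨z, y, hoz, hoy, hz, hpy, hdy, PTH_hul_left z w, hhy, hσy⟩
  by_cases hox : On x
  · apply step x hox
    · refine ⟨l / n, 1 / n, ?_, ?_, ?_⟩
      · rw [abs_of_pos (div_pos hlR hnR), abs_of_pos (div_pos one_pos hnR), ← add_div,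
          div_le_one hnR]
        exact hlnR
      · field_simp; linarith
      · field_simp; linarith
    · rw [hdzx]; exact hsabs
    · rw [hdxw, Int.natAbs_mul, hsabs]; omega
    · rw [hdxw, Int.natAbs_mul, hsabs]; omega
  · apply step (z - x)
    · unfold On at *
      rw [Zsqrtd.re_sub, Zsqrtd.im_sub]
      omega
    · refine ⟨(n - l) / n, -1 / n, ?_, ?_, ?_⟩
      · have h1 : (0 : ℝ) < n - l := by linarith
        rw [abs_of_pos (div_pos h1 hnR), neg_div, abs_neg, abs_of_pos (div_pos one_pos hnR),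
          ← add_div, div_le_one hnR]
        have h2 : (1 : ℝ) ≤ l := by exact_mod_cast hl0
        linarith
      · rw [Zsqrtd.re_sub]; push_cast; field_simp; linarith
      · rw [Zsqrtd.im_sub]; push_cast; field_simp; linarith
    · have h1 : dt z (z - x) = -s := by
        rw [sub_eq_add_neg, dt_add_right, dt_self, dt_neg_right, hdzx, zero_add]
      rw [h1, Int.natAbs_neg]; exact hsabs
    · have h1 : dt (z - x) w = s * (n - l) := by
        rw [sub_eq_add_neg, dt_add_left, dt_neg_left, hdxw, hsn]; ring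
      rw [h1, Int.natAbs_mul, hsabs]; omega
    · have h1 : dt (z - x) w = s * (n - l) := by
        rw [sub_eq_add_neg, dt_add_left, dt_neg_left, hdxw, hsn]; ring
      rw [h1, Int.natAbs_mul, hsabs]; omega

theorem Hul_nm {z w x : GI} (h : Hul z w x) : nm x ≤ max (nm z) (nm w) := by
  obtain ⟨s, t, h1, h2, h3⟩ := h
  have hz := nm_real z
  have hw := nm_real w
  have hx := nm_real x
  set M : ℝ := max (nm z : ℝ) (nm w : ℝ) with hM
  have hzM : (nm z : ℝ) ≤ M := le_max_left _ _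
  have hwM : (nm w : ℝ) ≤ M := le_max_right _ _
  have hM0 : 0 ≤ M := le_trans (Nat.cast_nonneg _) hzM
  have key : (nm x : ℝ) ≤ M := by
    rw [hx, h2, h3]
    set c : ℝ := (z.re : ℝ) * w.re + z.im * w.im with hc
    have hc1 : |c| ≤ M := by
      rw [abs_le]
      constructor
      · nlinarith [sq_nonneg ((z.re : ℝ) + w.re), sq_nonneg ((z.im : ℝ) + w.im)]
      · nlinarith [sq_nonneg ((z.re : ℝ) - w.re), sq_nonneg ((z.im : ℝ) - w.im)]
    have e1 : (s * z.re + t * w.re) ^ 2 + (s * z.im + t * w.im) ^ 2 =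
      s ^ 2 * nm z + t ^ 2 * nm w + 2 * (s * t) * c := by rw [hz, hw, hc]; ring
    rw [e1]
    have e2 : (s * t) * c ≤ |s| * |t| * M := by
      calc (s * t) * c ≤ |(s * t) * c| := le_abs_self _
        _ = |s| * |t| * |c| := by rw [abs_mul, abs_mul]
        _ ≤ |s| * |t| * M := mul_le_mul_of_nonneg_left hc1 (by positivity)
    have e3 : s ^ 2 * nm z ≤ |s| ^ 2 * M := by
      rw [sq_abs]; exact mul_le_mul_of_nonneg_left hzM (sq_nonneg _)
    have e4 : t ^ 2 * nm w ≤ |t| ^ 2 * M := by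
      rw [sq_abs]; exact mul_le_mul_of_nonneg_left hwM (sq_nonneg _)
    have e5 : (|s| + |t|) ^ 2 ≤ 1 := by
      have : 0 ≤ |s| + |t| := by positivity
      nlinarith
    nlinarith
  have : (nm x : ℝ) ≤ ((max (nm z) (nm w) : ℕ) : ℝ) := by
    rw [Nat.cast_max]; exact key
  exact_mod_cast this

theorem Hul_dt {z w x : GI} (h : Hul z w x) :
    (dt z x).natAbs ≤ (dt z w).natAbs ∧ (dt w x).natAbs ≤ (dt z w).natAbs := by
  obtain ⟨s, t, h1, h2, h3⟩ := h
  have hs : |s| ≤ 1 := by linarith [abs_nonneg t]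
  have ht : |t| ≤ 1 := by linarith [abs_nonneg s]
  have conv : ∀ (a b : ℤ) (r : ℝ), |r| ≤ 1 → (a : ℝ) = r * b → a.natAbs ≤ b.natAbs := by
    intro a b r hr hab
    have h4 : |(a : ℝ)| ≤ |(b : ℝ)| := by
      rw [hab, abs_mul]
      calc |r| * |(b : ℝ)| ≤ 1 * |(b : ℝ)| := mul_le_mul_of_nonneg_right hr (abs_nonneg _)
        _ = |(b : ℝ)| := one_mul _
    have h5 : |a| ≤ |b| := by exact_mod_cast h4
    rw [Int.abs_eq_natAbs, Int.abs_eq_natAbs] at h5
    exact_mod_cast h5
  constructor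
  · apply conv _ _ t ht
    unfold dt
    push_cast
    rw [h2, h3]
    ring
  · apply conv _ _ (-s) (by rw [abs_neg]; exact hs)
    unfold dt
    push_cast
    rw [h2, h3]
    ring

/-- number of pairs through given edges: `z` is determined by `(dt z x, dt z y)` -/
theorem hull_card (S : Finset GI) (B : Finset (GI × GI))
    (hB : ∀ e ∈ B, (dt e.1 e.2).natAbs = 1) (d : ℤ) :
    open Classical in
    ((S ×ˢ S).filter (fun p : GI × GI => dt p.1 p.2 = d ∧
      ∃ e ∈ B, Hul p.1 p.2 e.1 ∧ Hul p.1 p.2 e.2)).card ≤ B.card * (2 * d.natAbs + 1) ^ 4 := by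
  classical
  have hdet : ∀ e ∈ B, ∀ z z2 : GI, dt z e.1 = dt z2 e.1 → dt z e.2 = dt z2 e.2 → z = z2 := by
    intro e he z z2 h1 h2
    have h3 := hB e he
    obtain ⟨⟨a, b⟩, ⟨c, f⟩⟩ := e
    unfold dt at *
    simp only at h1 h2 h3
    obtain ⟨s, hs, hsn⟩ : ∃ s : ℤ, s * s = 1 ∧ a * f - b * c = s := by
      rcases Int.natAbs_eq (a * f - b * c) with h | h
      · exact ⟨1, by norm_num, by rw [h3] at h; rw [h]; norm_num⟩
      · exact ⟨-1, by norm_num, by rw [h3] at h; rw [h]; norm_num⟩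
    have k1 : (z.re - z2.re) * s = 0 := by
      rw [← hsn]
      linear_combination (-c) * h1 + a * h2
    have k2 : (z.im - z2.im) * s = 0 := by
      rw [← hsn]
      linear_combination (-f) * h1 + b * h2
    have hs0 : s ≠ 0 := by rintro rfl; norm_num at hs
    apply Zsqrtd.ext
    · have := (mul_eq_zero.1 k1).resolve_right hs0; linarith
    · have := (mul_eq_zero.1 k2).resolve_right hs0; linarith
  have hcover : (S ×ˢ S).filter (fun p : GI × GI => dt p.1 p.2 = d ∧
      ∃ e ∈ B, Hul p.1 p.2 e.1 ∧ Hul p.1 p.2 e.2) ⊆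
      B.biUnion (fun e => (S ×ˢ S).filter (fun p : GI × GI => dt p.1 p.2 = d ∧
        Hul p.1 p.2 e.1 ∧ Hul p.1 p.2 e.2)) := by
    intro p hp
    rw [mem_filter] at hp
    obtain ⟨hp1, hp2, e, he, hp3, hp4⟩ := hp
    rw [mem_biUnion]
    exact ⟨e, he, mem_filter.2 ⟨hp1, hp2, hp3, hp4⟩⟩
  refine (card_le_card hcover).trans (card_biUnion_le.trans ?_)
  rw [← smul_eq_mul, ← sum_const]
  apply sum_le_sum
  intro e he
  set D : Finset ℤ := Icc (-(d.natAbs : ℤ)) (d.natAbs : ℤ) with hD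
  have hDc : D.card = 2 * d.natAbs + 1 := by
    rw [hD, Int.card_Icc]; omega
  have h1 : ((S ×ˢ S).filter (fun p : GI × GI => dt p.1 p.2 = d ∧
      Hul p.1 p.2 e.1 ∧ Hul p.1 p.2 e.2)).card ≤ (D ×ˢ D ×ˢ D ×ˢ D).card := by
    apply card_le_card_of_injOn
      (fun p : GI × GI => (dt p.1 e.1, dt p.1 e.2, dt p.2 e.1, dt p.2 e.2))
    · intro p hp
      rw [mem_coe, mem_filter] at hp
      obtain ⟨_, hp2, hp3, hp4⟩ := hp
      have k1 := Hul_dt hp3
      have k2 := Hul_dt hp4
      rw [hp2] at k1 k2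
      rw [mem_coe]
      simp only [mem_product, hD, mem_Icc]
      omega
    · intro p _ p2 _ hpp
      simp only [Prod.mk.injEq] at hpp
      obtain ⟨g1, g2, g3, g4⟩ := hpp
      exact Prod.ext (hdet e he _ _ g1 g2) (hdet e he _ _ g3 g4)
  rw [card_product, card_product, card_product, hDc] at h1
  refine h1.trans (le_of_eq ?_)
  ring

end Pool.Agent.MRS
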