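import Pool.Agent.MRS.Mvt
import Pool.Agent.MRS.Path
import Pool.Agent.MRS.Divs

set_option autoImplicit false

/-! Module ENL: energy from below.  `ms = ∑_{z,w} G(z) conj G(w) F(z,w)` (`ms_expand`), `∑ F = ms` for `G = 1` is `≥ (#pan)^2` (the term `k = 0`), and
`Re (G(z) conj G(w)) ≥ 1 - 2 [G z ≠ G w]`.  Pairs with `dt = 0`: `w = ± z`, equal values.  Pairs with `|dt| > D`: `kernel_tail` (`Y = 3N`).
Pairs with `0 < |dt| ≤ D` and `G z ≠ G w`: `path` with `σ z = G z` if `z.re` is odd, `σ z = θ conj(G z)` otherwise, gives a bad edge in the hull (of the pair);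
`hull_card`, summed over `|d| ≤ D`; `F ≤ K + 1`. -/

open Finset

namespace Pool.Agent.MRS

/-- bad edges -/
noncomputable def Bd (g : GI → ℂ) (θ : ℂ) (N : ℝ) : Finset (GI × GI) :=
  open Classical in
  ((bl N) ×ˢ (bl N)).filter (fun e => (dt e.1 e.2).natAbs = 1 ∧ On e.1 ∧ On e.2 ∧ g e.1 * g e.2 ≠ θ)

theorem enl_mem_Bd {g : GI → ℂ} {θ : ℂ} {N : ℝ} {e : GI × GI} : e ∈ Bd g θ N ↔
    (e.1 ≠ 0 ∧ (nm e.1 : ℝ) ≤ N) ∧ (e.2 ≠ 0 ∧ (nm e.2 : ℝ) ≤ N) ∧
      (dt e.1 e.2).natAbs = 1 ∧ On e.1 ∧ On e.2 ∧ g e.1 * g e.2 ≠ θ := by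
  classical
  unfold Bd
  rw [Finset.mem_filter, Finset.mem_product, mem_bl, mem_bl]
  tauto

theorem enl_par {x y : GI} (ox : On x) (oy : On y) (h : (dt x y).natAbs = 1) :
    (x.re % 2 = 1 ∧ y.re % 2 = 0) ∨ (x.re % 2 = 0 ∧ y.re % 2 = 1) := by
  unfold On at ox oy
  have hodd : (dt x y) % 2 = 1 := by omega
  unfold dt at hodd
  rcases Int.emod_two_eq_zero_or_one x.re with hx | hx <;>
    rcases Int.emod_two_eq_zero_or_one y.re with hy | hy
  · exfalso
    have : (x.re * y.im - x.im * y.re) % 2 = 0 := by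
      rw [Int.sub_emod, Int.mul_emod, Int.mul_emod x.im, hx, hy]; simp
    omega
  · exact Or.inr ⟨hx, hy⟩
  · exact Or.inl ⟨hx, hy⟩
  · exfalso
    have hx' : x.im % 2 = 0 := by omega
    have hy' : y.im % 2 = 0 := by omega
    have : (x.re * y.im - x.im * y.re) % 2 = 0 := by
      rw [Int.sub_emod, Int.mul_emod, Int.mul_emod x.im, hx', hy']; simp
    omega

theorem enl_edge {f : ℕ → ℂ} (hf : ∀ n, 0 < n → ‖f n‖ = 1) (θ : ℂ) {Y : ℝ} {z w : GI}
    (hz : Od z) (hw : Od w) (pz : Pr z) (pw : Pr w) (nz : (nm z : ℝ) ≤ Y) (nw : (nm w : ℝ) ≤ Y)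
    (hd : dt z w ≠ 0) (hne : gf f z ≠ gf f w) :
    ∃ e ∈ Bd (gf f) θ Y, Hul z w e.1 ∧ Hul z w e.2 := by
  classical
  set σ : GI → ℂ := fun x => if x.re % 2 = 1 then gf f x else θ * (starRingEnd ℂ) (gf f x) with hσ
  have hOnz : On z := by
    have h1 := hz.1
    have h2 := hz.2
    unfold On
    omega
  have hOnw : On w := by
    have h1 := hw.1
    have h2 := hw.2
    unfold On
    omega
  have h1 : σ z ≠ σ w := by
    simp only [hσ]
    rw [if_pos hz.1, if_pos hw.1]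
    exact hne
  obtain ⟨x, y, ox, oy, px, py, hdt, hx, hy, hs⟩ :=
    path σ (dt z w).natAbs z w hOnz hOnw pz pw rfl (by simpa using hd) h1
  have hG : gf f x * gf f y ≠ θ := by
    intro he
    apply hs
    have nx : ‖gf f x‖ = 1 := hf _ (nm_pos (Pr_ne px))
    have ny : ‖gf f y‖ = 1 := hf _ (nm_pos (Pr_ne py))
    have cx : gf f x * (starRingEnd ℂ) (gf f x) = 1 := by
      rw [Complex.mul_conj, Complex.normSq_eq_norm_sq, nx]; norm_num
    have cy : gf f y * (starRingEnd ℂ) (gf f y) = 1 := by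
      rw [Complex.mul_conj, Complex.normSq_eq_norm_sq, ny]; norm_num
    simp only [hσ]
    rcases enl_par ox oy hdt with ⟨h2, h3⟩ | ⟨h2, h3⟩
    · rw [if_pos h2, if_neg (by omega)]
      rw [← he, mul_assoc, cy, mul_one]
    · rw [if_neg (by omega), if_pos h3]
      rw [← he, mul_comm (gf f x), mul_assoc, cx, mul_one]
  have hmax : ∀ u : GI, Hul z w u → (nm u : ℝ) ≤ Y := by
    intro u hu
    have h2 := Hul_nm hu
    rcases le_max_iff.1 h2 with h3 | h3
    · exact le_trans (by exact_mod_cast h3) nz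
    · exact le_trans (by exact_mod_cast h3) nw
  exact ⟨(x, y), enl_mem_Bd.2 ⟨⟨Pr_ne px, hmax x hx⟩, ⟨Pr_ne py, hmax y hy⟩, hdt, ox, oy, hG⟩, hx, hy⟩

/-- the pair has a small determinant and an edge of `B` in the hull -/
def enlN (B : Finset (GI × GI)) (D : ℝ) (z w : GI) : Prop :=
  |(dt z w : ℝ)| ≤ D ∧ ∃ e ∈ B, Hul z w e.1 ∧ Hul z w e.2

theorem enl_count (S : Finset GI) (B : Finset (GI × GI))
    (hB : ∀ e ∈ B, (dt e.1 e.2).natAbs = 1) (D : ℝ) (hD : 1 ≤ D) :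
    open Classical in
    (((S ×ˢ S).filter (fun p : GI × GI => enlN B D p.1 p.2)).card : ℝ) ≤ (2 * D + 1) ^ 5 * B.card := by
  classical
  set n : ℕ := ⌊D⌋₊ with hn
  have hsub : ((S ×ˢ S).filter (fun p : GI × GI => enlN B D p.1 p.2)) ⊆
      (Icc (-(n : ℤ)) (n : ℤ)).biUnion (fun d => (S ×ˢ S).filter (fun p : GI × GI => dt p.1 p.2 = d ∧
      ∃ e ∈ B, Hul p.1 p.2 e.1 ∧ Hul p.1 p.2 e.2)) := by
    intro p hp
    rw [Finset.mem_filter] at hp
    obtain ⟨hp1, hp2, hp3⟩ := hp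
    rw [Finset.mem_biUnion]
    refine ⟨dt p.1 p.2, ?_, ?_⟩
    · have h1 : (((dt p.1 p.2).natAbs : ℕ) : ℝ) ≤ D := by
        rw [Nat.cast_natAbs, Int.cast_abs]; exact hp2
      have h2 : (dt p.1 p.2).natAbs ≤ n := Nat.le_floor h1
      rw [Finset.mem_Icc]
      omega
    · rw [Finset.mem_filter]
      exact ⟨hp1, rfl, hp3⟩
  have h1 := Finset.card_le_card hsub
  have h2 := le_trans h1 Finset.card_biUnion_le
  have h3 : ∑ d ∈ Icc (-(n : ℤ)) (n : ℤ), ((S ×ˢ S).filter (fun p : GI × GI => dt p.1 p.2 = d ∧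
      ∃ e ∈ B, Hul p.1 p.2 e.1 ∧ Hul p.1 p.2 e.2)).card ≤
      ∑ d ∈ Icc (-(n : ℤ)) (n : ℤ), B.card * (2 * n + 1) ^ 4 := by
    apply Finset.sum_le_sum
    intro d hd
    refine le_trans (hull_card S B hB d) ?_
    apply Nat.mul_le_mul_left
    apply Nat.pow_le_pow_left
    rw [Finset.mem_Icc] at hd
    omega
  have h4 := le_trans h2 h3
  rw [Finset.sum_const, Int.card_Icc, smul_eq_mul] at h4
  have h5 : ((n : ℤ) + 1 - (-(n : ℤ))).toNat = 2 * n + 1 := by omega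
  rw [h5] at h4
  have h6 : (((S ×ˢ S).filter (fun p : GI × GI => enlN B D p.1 p.2)).card : ℝ) ≤
      ((2 * n + 1) * (B.card * (2 * n + 1) ^ 4) : ℕ) := by exact_mod_cast h4
  refine le_trans h6 ?_
  push_cast
  have h7 : (n : ℝ) ≤ D := Nat.floor_le (by linarith)
  have h8 : ((2 : ℝ) * n + 1) ^ 5 ≤ (2 * D + 1) ^ 5 := by
    apply pow_le_pow_left₀ (by positivity)
    linarith
  calc ((2 : ℝ) * n + 1) * ((B.card : ℝ) * (2 * n + 1) ^ 4) = (2 * n + 1) ^ 5 * B.card := by ring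
    _ ≤ (2 * D + 1) ^ 5 * B.card := by
      apply mul_le_mul_of_nonneg_right h8 (Nat.cast_nonneg _)

theorem energy_low : ∃ C : ℝ, 0 < C ∧ ∀ f : ℕ → ℂ, CM f → (∀ n, 0 < n → ‖f n‖ = 1) →
    ∀ θ : ℂ, ‖θ‖ = 1 → ∀ N : ℝ, 1 ≤ N → ∀ (K : ℕ) (D : ℝ), 1 ≤ D →
    ((pan N (3 * N)).card : ℝ) ^ 2 - 2 * (K + 1) * (2 * D + 1) ^ 5 * (Bd (gf f) θ (3 * N)).card
      - C * N ^ 3 / ((K + 1) * D) ≤ ms K (fun k => ‖sp (pan N (3 * N)) (gf f) k‖ ^ 2) := by
  classical
  obtain ⟨C, hC, hker⟩ := kernel_tail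
  refine ⟨216 * C, by positivity, ?_⟩
  intro f hf hf1 θ hθ N hN K D hD
  set S := pan N (3 * N) with hS
  have hne : ∀ z ∈ S, z ≠ 0 := fun z hz => Od_ne (mem_pan.1 hz).1
  have e1 := ms_expand K S (fun z => z) hne (gf f)
  have e2 := ms_expand K S (fun z => z) hne (fun _ => 1)
  have hms : ms K (fun k => ‖sp S (gf f) k‖ ^ 2) =
      ∑ z ∈ S, ∑ w ∈ S, (gf f z * (starRingEnd ℂ) (gf f w)).re * fk K z w := by
    have h1 := congrArg Complex.re e1
    simp only [Complex.re_sum, Complex.re_mul_ofReal, Complex.ofReal_re] at h1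
    exact h1
  have hms1 : (S.card : ℝ) ^ 2 ≤ ∑ z ∈ S, ∑ w ∈ S, fk K z w := by
    have h1 := congrArg Complex.re e2
    simp only [Complex.re_sum, Complex.ofReal_re, map_one, one_mul] at h1
    rw [← h1]
    unfold ms
    have h2 : fw K 0 * ‖∑ i ∈ S, uu i ^ (0 : ℤ)‖ ^ 2 ≤
        ∑ k ∈ Icc (-(K : ℤ)) (K : ℤ), fw K k * ‖∑ i ∈ S, uu i ^ k‖ ^ 2 := by
      apply Finset.single_le_sum (f := fun k : ℤ => fw K k * ‖∑ i ∈ S, uu i ^ k‖ ^ 2)
      · intro k hk
        exact mul_nonneg (fw_nonneg hk) (by positivity)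
      · rw [Finset.mem_Icc]; omega
    refine le_trans (le_of_eq ?_) h2
    rw [fw_zero]
    simp
  -- comparison
  have hn1 : ∀ z ∈ S, ‖gf f z‖ = 1 := fun z hz => hf1 _ (nm_pos (hne z hz))
  have hpt : ∀ z ∈ S, ∀ w ∈ S,
      fk K z w - 2 * ((if D < |(dt z w : ℝ)| then fk K z w else 0) +
        (if enlN (Bd (gf f) θ (3 * N)) D z w then ((K : ℝ) + 1) else 0)) ≤
      (gf f z * (starRingEnd ℂ) (gf f w)).re * fk K z w := by
    intro z hz w hw
    have hfk := fk_nonneg K z w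
    have hK : (0 : ℝ) ≤ (K : ℝ) + 1 := by positivity
    obtain ⟨oz, pz, _, nz⟩ := mem_pan.1 hz
    obtain ⟨ow, pw, _, nw⟩ := mem_pan.1 hw
    by_cases heq : gf f z = gf f w
    · have h1 : (gf f z * (starRingEnd ℂ) (gf f w)).re = 1 := by
        rw [heq, Complex.mul_conj, Complex.normSq_eq_norm_sq, hn1 w hw]
        norm_num
      rw [h1, one_mul]
      have h2 : (0 : ℝ) ≤ (if D < |(dt z w : ℝ)| then fk K z w else 0) := by
        split_ifs <;> linarith
      have h3 : (0 : ℝ) ≤ (if enlN (Bd (gf f) θ (3 * N)) D z w then ((K : ℝ) + 1) else 0) := by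
        split_ifs <;> linarith
      linarith
    · have h1 : -1 ≤ (gf f z * (starRingEnd ℂ) (gf f w)).re := by
        have h2 : ‖gf f z * (starRingEnd ℂ) (gf f w)‖ = 1 := by
          rw [norm_mul, hn1 z hz, RCLike.norm_conj, hn1 w hw, one_mul]
        have h3 := Complex.abs_re_le_norm (gf f z * (starRingEnd ℂ) (gf f w))
        rw [h2] at h3
        exact (abs_le.1 h3).1
      have hdt : dt z w ≠ 0 := by
        intro h0
        rcases eq_or_neg_of_dt pz pw h0 with h2 | h2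
        · exact heq (by rw [h2])
        · apply heq
          unfold gf
          rw [h2, nm_neg]
      have h4 : -fk K z w ≤ (gf f z * (starRingEnd ℂ) (gf f w)).re * fk K z w := by
        have := mul_le_mul_of_nonneg_right h1 hfk
        linarith
      refine le_trans ?_ h4
      by_cases hD2 : D < |(dt z w : ℝ)|
      · rw [if_pos hD2, if_neg (by intro h; exact absurd h.1 (not_le.2 hD2))]
        linarith
      · rw [if_neg hD2, if_pos ⟨not_lt.1 hD2, enl_edge hf1 θ oz ow pz pw nz nw hdt heq⟩]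
        have h5 := fk_le (K := K) (hne z hz) (hne w hw)
        linarith
  have hsum := Finset.sum_le_sum (fun z hz => Finset.sum_le_sum (fun w hw => hpt z hz w hw))
  rw [← hms] at hsum
  have hfar : ∑ z ∈ S, ∑ w ∈ S, (if D < |(dt z w : ℝ)| then fk K z w else 0) ≤
      108 * C * N ^ 3 / ((K + 1) * D) := by
    have h1 : ∀ z ∈ S, ∑ w ∈ S, (if D < |(dt z w : ℝ)| then fk K z w else 0) ≤
        C * (3 * N) ^ 2 / ((K + 1) * D) := by
      intro z hz
      obtain ⟨oz, pz, lz, nz⟩ := mem_pan.1 hz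
      rw [← Finset.sum_filter]
      refine le_trans ?_ (hker K (3 * N) (by linarith) z oz pz (by linarith) nz D hD)
      apply Finset.sum_le_sum_of_subset_of_nonneg
      · intro w hw
        rw [Finset.mem_filter] at hw ⊢
        refine ⟨?_, hw.2⟩
        obtain ⟨ow, pw, lw, nw⟩ := mem_pan.1 hw.1
        exact mem_pan.2 ⟨ow, pw, by linarith, nw⟩
      · intro w _ _
        exact fk_nonneg K z w
    have h2 := Finset.sum_le_sum h1
    rw [Finset.sum_const, nsmul_eq_mul] at h2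
    have h3 : (S.card : ℝ) ≤ 4 * (3 * N) :=
      le_trans (by exact_mod_cast Finset.card_le_card (pan_subset N (3 * N)))
        (card_ann_le N (by linarith))
    refine le_trans h2 (le_trans (mul_le_mul_of_nonneg_right h3 (by positivity)) ?_)
    apply le_of_eq
    ring
  have hnear : ∑ z ∈ S, ∑ w ∈ S, (if enlN (Bd (gf f) θ (3 * N)) D z w then ((K : ℝ) + 1) else 0) ≤
      (K + 1) * (2 * D + 1) ^ 5 * (Bd (gf f) θ (3 * N)).card := by
    have h1 : ∑ z ∈ S, ∑ w ∈ S, (if enlN (Bd (gf f) θ (3 * N)) D z w then ((K : ℝ) + 1) else 0) =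
      (((S ×ˢ S).filter (fun p : GI × GI => enlN (Bd (gf f) θ (3 * N)) D p.1 p.2)).card : ℝ) *
        (K + 1) := by
      rw [← Finset.sum_product', ← Finset.sum_filter, Finset.sum_const, nsmul_eq_mul]
    rw [h1]
    have h2 := enl_count S (Bd (gf f) θ (3 * N)) (fun e he => (enl_mem_Bd.1 he).2.2.1) D hD
    have h3 : (0 : ℝ) ≤ (K : ℝ) + 1 := by positivity
    have h4 := mul_le_mul_of_nonneg_right h2 h3
    refine le_trans h4 (le_of_eq ?_)
    ring
  have hsplit : ∑ z ∈ S, ∑ w ∈ S, (fk K z w - 2 * ((if D < |(dt z w : ℝ)| then fk K z w else 0) +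
        (if enlN (Bd (gf f) θ (3 * N)) D z w then ((K : ℝ) + 1) else 0))) =
      ∑ z ∈ S, ∑ w ∈ S, fk K z w -
        2 * (∑ z ∈ S, ∑ w ∈ S, (if D < |(dt z w : ℝ)| then fk K z w else 0) +
          ∑ z ∈ S, ∑ w ∈ S, (if enlN (Bd (gf f) θ (3 * N)) D z w then ((K : ℝ) + 1) else 0)) := by
    simp only [Finset.sum_sub_distrib, Finset.mul_sum, Finset.sum_add_distrib, mul_add]
  rw [hsplit] at hsum
  have hfin : 216 * C * N ^ 3 / ((K + 1) * D) = 2 * (108 * C * N ^ 3 / ((K + 1) * D)) := by ring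
  rw [hfin]
  linarith

end Pool.Agent.MRS
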