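import Pool.Agent.MRS.Path

set_option autoImplicit false

/-! Module PT2: paths through even vectors.  `path1`: take `x, y` from `path` and `v = x + y` (even, primitive since `|dt x v| = 1`):
`σ x ≠ σ v` or `σ y ≠ σ v`. -/

open Finset

namespace Pool.Agent.MRS

/-- `x` is in twice the absolutely convex hull of `z` and `w` -/
def Hul2 (z w x : GI) : Prop :=
  ∃ s t : ℝ, |s| + |t| ≤ 2 ∧ (x.re : ℝ) = s * z.re + t * w.re ∧ (x.im : ℝ) = s * z.im + t * w.im

/-- vectors of an edge are primitive -/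
theorem PT2_prim {z x : GI} (h : (dt z x).natAbs = 1) : Pr x := by
  unfold Pr
  have h1 : ((Int.gcd x.re x.im : ℕ) : ℤ) ∣ x.re := Int.gcd_dvd_left ..
  have h2 : ((Int.gcd x.re x.im : ℕ) : ℤ) ∣ x.im := Int.gcd_dvd_right ..
  have h3 : ((Int.gcd x.re x.im : ℕ) : ℤ) ∣ dt z x := by
    unfold dt
    exact dvd_sub (Dvd.dvd.mul_left h2 _) (Dvd.dvd.mul_left h1 _)
  have h4 : (Int.gcd x.re x.im) ∣ (dt z x).natAbs := Int.natCast_dvd.1 h3
  rw [h] at h4
  exact Nat.dvd_one.1 h4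

theorem PT2_of_Hul {z w x : GI} (h : Hul z w x) : Hul2 z w x := by
  obtain ⟨s, t, h1, h2, h3⟩ := h
  exact ⟨s, t, by linarith, h2, h3⟩

theorem PT2_add {z w x y : GI} (hx : Hul z w x) (hy : Hul z w y) : Hul2 z w (x + y) := by
  obtain ⟨s1, t1, h1, hx1, hx2⟩ := hx
  obtain ⟨s2, t2, h2, hy1, hy2⟩ := hy
  refine ⟨s1 + s2, t1 + t2, ?_, ?_, ?_⟩
  · have e1 := abs_add_le s1 s2
    have e2 := abs_add_le t1 t2
    linarith
  · rw [Zsqrtd.re_add]; push_cast; rw [hx1, hy1]; ring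
  · rw [Zsqrtd.im_add]; push_cast; rw [hx2, hy2]; ring

theorem path1 {α : Type} (σ : GI → α) (z w : GI) (hz : On z) (hw : On w) (pz : Pr z) (pw : Pr w)
    (hd : dt z w ≠ 0) (hne : σ z ≠ σ w) :
    ∃ x v : GI, On x ∧ ¬ On v ∧ Pr x ∧ Pr v ∧ (dt x v).natAbs = 1 ∧ Hul2 z w x ∧ Hul2 z w v ∧
      σ x ≠ σ v := by
  obtain ⟨x, y, ox, oy, px, py, hdt, hx, hy, hs⟩ :=
    path σ (dt z w).natAbs z w hz hw pz pw rfl (by simpa using hd) hne
  have hv : ¬ On (x + y) := by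
    unfold On at *
    rw [Zsqrtd.re_add, Zsqrtd.im_add]
    omega
  have h1 : (dt x (x + y)).natAbs = 1 := by
    rw [dt_add_right, dt_self, zero_add]; exact hdt
  have h2 : (dt y (x + y)).natAbs = 1 := by
    rw [dt_add_right, dt_self, add_zero, dt_swap, Int.natAbs_neg]; exact hdt
  by_cases h : σ x = σ (x + y)
  · exact ⟨y, x + y, oy, hv, py, PT2_prim h1, h2, PT2_of_Hul hy, PT2_add hx hy,
      fun h3 => hs (h.trans h3.symm)⟩
  · exact ⟨x, x + y, ox, hv, px, PT2_prim h1, h1, PT2_of_Hul hx, PT2_add hx hy, h⟩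

theorem Hul2_nm {z w x : GI} (h : Hul2 z w x) : nm x ≤ 4 * max (nm z) (nm w) := by
  obtain ⟨s, t, h1, h2, h3⟩ := h
  have hz := nm_real z
  have hw := nm_real w
  have hx := nm_real x
  set M : ℝ := max (nm z : ℝ) (nm w : ℝ) with hM
  have hzM : (nm z : ℝ) ≤ M := le_max_left _ _
  have hwM : (nm w : ℝ) ≤ M := le_max_right _ _
  have hM0 : 0 ≤ M := le_trans (Nat.cast_nonneg _) hzM
  have key : (nm x : ℝ) ≤ 4 * M := by
    rw [hx, h2, h3]
    set c : ℝ := (z.re : ℝ) * w.re + z.im * w.im with hc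
    have hc1 : |c| ≤ M := by
      rw [abs_le]
      constructor
      · nlinarith [sq_nonneg ((z.re : ℝ) + w.re), sq_nonneg ((z.im : ℝ) + w.im)]
      · nlinarith [sq_nonneg ((z.re : ℝ) - w.re), sq_nonneg ((z.im : ℝ) - w.im)]
    have e1 : (s * z.re + t * w.re) ^ 2 + (s * z.im + t * w.im) ^ 2 =
      s ^ 2 * nm z + t ^ 2 * nm w + 2 * (s * t) * c := by rw [hz, hw, hc]; ring
    rw [e1]
    have e2 : (s * t) * c ≤ |s| * |t| * M := by
      calc (s * t) * c ≤ |(s * t) * c| := le_abs_self _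
        _ = |s| * |t| * |c| := by rw [abs_mul, abs_mul]
        _ ≤ |s| * |t| * M := mul_le_mul_of_nonneg_left hc1 (by positivity)
    have e3 : s ^ 2 * nm z ≤ |s| ^ 2 * M := by
      rw [sq_abs]; exact mul_le_mul_of_nonneg_left hzM (sq_nonneg _)
    have e4 : t ^ 2 * nm w ≤ |t| ^ 2 * M := by
      rw [sq_abs]; exact mul_le_mul_of_nonneg_left hwM (sq_nonneg _)
    have e5 : (|s| + |t|) ^ 2 ≤ 4 := by
      have : 0 ≤ |s| + |t| := by positivity
      nlinarith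
    have e6 : (|s| + |t|) ^ 2 * M ≤ 4 * M := mul_le_mul_of_nonneg_right e5 hM0
    nlinarith
  have : (nm x : ℝ) ≤ ((4 * max (nm z) (nm w) : ℕ) : ℝ) := by
    rw [Nat.cast_mul, Nat.cast_max]
    push_cast
    exact key
  exact_mod_cast this

theorem Hul2_dt {z w x : GI} (h : Hul2 z w x) :
    (dt z x).natAbs ≤ 2 * (dt z w).natAbs ∧ (dt w x).natAbs ≤ 2 * (dt z w).natAbs := by
  obtain ⟨s, t, h1, h2, h3⟩ := h
  have hs : |s| ≤ 2 := by linarith [abs_nonneg t]
  have ht : |t| ≤ 2 := by linarith [abs_nonneg s]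
  have conv : ∀ (a b : ℤ) (r : ℝ), |r| ≤ 2 → (a : ℝ) = r * b → a.natAbs ≤ 2 * b.natAbs := by
    intro a b r hr hab
    have h4 : |(a : ℝ)| ≤ 2 * |(b : ℝ)| := by
      rw [hab, abs_mul]
      exact mul_le_mul_of_nonneg_right hr (abs_nonneg _)
    have h5 : |a| ≤ 2 * |b| := by exact_mod_cast h4
    rw [Int.abs_eq_natAbs, Int.abs_eq_natAbs] at h5
    exact_mod_cast h5
  constructor
  · apply conv _ _ t ht
    unfold dt
    push_cast
    rw [h2, h3]
    ring
  · apply conv _ _ (-s) (by rw [abs_neg]; exact hs)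
    unfold dt
    push_cast
    rw [h2, h3]
    ring

/-- number of pairs through given edges: `z` is determined by `(dt z x, dt z y)` -/
theorem hull_card2 (S : Finset GI) (B : Finset (GI × GI))
    (hB : ∀ e ∈ B, (dt e.1 e.2).natAbs = 1) (d : ℤ) :
    open Classical in
    ((S ×ˢ S).filter (fun p : GI × GI => dt p.1 p.2 = d ∧
      ∃ e ∈ B, Hul2 p.1 p.2 e.1 ∧ Hul2 p.1 p.2 e.2)).card ≤ B.card * (4 * d.natAbs + 1) ^ 4 := by
  classical
  have hdet : ∀ e ∈ B, ∀ z z2 : GI, dt z e.1 = dt z2 e.1 → dt z e.2 = dt z2 e.2 → z = z2 := by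
    intro e he z z2 h1 h2
    have h3 := hB e he
    obtain ⟨⟨a, b⟩, ⟨c, f⟩⟩ := e
    unfold dt at *
    simp only at h1 h2 h3
    obtain ⟨s, hs, hsn⟩ : ∃ s : ℤ, s * s = 1 ∧ a * f - b * c = s := by
      rcases Int.natAbs_eq (a * f - b * c) with h | h
      · exact ⟨1, by norm_num, by rw [h3] at h; rw [h]; norm_num⟩
      · exact ⟨-1, by norm_num, by rw [h3] at h; rw [h]; norm_num⟩
    have k1 : (z.re - z2.re) * s = 0 := by
      rw [← hsn]
      linear_combination (-c) * h1 + a * h2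
    have k2 : (z.im - z2.im) * s = 0 := by
      rw [← hsn]
      linear_combination (-f) * h1 + b * h2
    have hs0 : s ≠ 0 := by rintro rfl; norm_num at hs
    apply Zsqrtd.ext
    · have := (mul_eq_zero.1 k1).resolve_right hs0; linarith
    · have := (mul_eq_zero.1 k2).resolve_right hs0; linarith
  have hcover : (S ×ˢ S).filter (fun p : GI × GI => dt p.1 p.2 = d ∧
      ∃ e ∈ B, Hul2 p.1 p.2 e.1 ∧ Hul2 p.1 p.2 e.2) ⊆
      B.biUnion (fun e => (S ×ˢ S).filter (fun p : GI × GI => dt p.1 p.2 = d ∧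
        Hul2 p.1 p.2 e.1 ∧ Hul2 p.1 p.2 e.2)) := by
    intro p hp
    rw [mem_filter] at hp
    obtain ⟨hp1, hp2, e, he, hp3, hp4⟩ := hp
    rw [mem_biUnion]
    exact ⟨e, he, mem_filter.2 ⟨hp1, hp2, hp3, hp4⟩⟩
  refine (card_le_card hcover).trans (card_biUnion_le.trans ?_)
  rw [← smul_eq_mul, ← sum_const]
  apply sum_le_sum
  intro e he
  set D : Finset ℤ := Icc (-(2 * d.natAbs : ℤ)) (2 * d.natAbs : ℤ) with hD
  have hDc : D.card = 4 * d.natAbs + 1 := by
    rw [hD, Int.card_Icc]; omega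
  have h1 : ((S ×ˢ S).filter (fun p : GI × GI => dt p.1 p.2 = d ∧
      Hul2 p.1 p.2 e.1 ∧ Hul2 p.1 p.2 e.2)).card ≤ (D ×ˢ D ×ˢ D ×ˢ D).card := by
    apply card_le_card_of_injOn
      (fun p : GI × GI => (dt p.1 e.1, dt p.1 e.2, dt p.2 e.1, dt p.2 e.2))
    · intro p hp
      rw [mem_coe, mem_filter] at hp
      obtain ⟨_, hp2, hp3, hp4⟩ := hp
      have k1 := Hul2_dt hp3
      have k2 := Hul2_dt hp4
      rw [hp2] at k1 k2
      rw [mem_coe]
      simp only [mem_product, hD, mem_Icc]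
      omega
    · intro p _ p2 _ hpp
      simp only [Prod.mk.injEq] at hpp
      obtain ⟨g1, g2, g3, g4⟩ := hpp
      exact Prod.ext (hdet e he _ _ g1 g2) (hdet e he _ _ g3 g4)
  rw [card_product, card_product, card_product, hDc] at h1
  refine h1.trans (le_of_eq ?_)
  ring

end Pool.Agent.MRS
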