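import Pool.Agent.MRS.Chain

set_option autoImplicit false

/-! Module MA3: see the text in Man.lean -/

open Finset

namespace Pool.Agent.MRS

/-- the product of a prime of `PP` and a primitive vector not divisible by the conjugate prime is primitive -/
theorem MA3_Pr_mul {q m : GI} (hq : PP q) (hm : Od m) (hp : Pr m) (h : ¬ star q ∣ m) : Pr (q * m) := by
  obtain ⟨T, m', h1, h2, _⟩ := cancel (l := 1) (fun _ => q) (fun _ => hq) m hm hp
  by_cases hT : (0 : Fin 1) ∈ T
  · exfalso
    apply h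
    have : T = {0} := by
      ext i
      rw [Finset.mem_singleton]
      constructor
      · intro _
        exact Subsingleton.elim _ _
      · rintro rfl
        exact hT
    rw [this, Finset.prod_singleton] at h1
    exact ⟨m', h1⟩
  · have : T = ∅ := by
      ext i
      constructor
      · intro hi
        have : i = 0 := Subsingleton.elim _ _
        rw [this] at hi
        exact absurd hi hT
      · intro hi
        simp at hi
    rw [this] at h1 h2
    rw [Finset.prod_empty, one_mul] at h1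
    rw [h1]
    simpa using h2

theorem MA3_I_nm (w : GI) : nm ((⟨0, 1⟩ : GI) * w) = nm w := by
  rw [nm_mul]
  have h := nm_int (⟨0, 1⟩ : GI)
  have h2 : (nm (⟨0, 1⟩ : GI) : ℤ) = 1 := by rw [h]; norm_num
  have h3 : nm (⟨0, 1⟩ : GI) = 1 := by omega
  rw [h3, one_mul]

theorem MA3_I_On {w : GI} (hw : Od w) : On ((⟨0, 1⟩ : GI) * w) := by
  unfold On
  obtain ⟨h1, h2⟩ := hw
  simp
  omega

theorem MA3_On {w : GI} (hw : Od w) : On w := by
  unfold On
  obtain ⟨h1, h2⟩ := hw
  omega

theorem main_edges (k : ℕ) (hk : 1 ≤ k) (p0 : ℕ) : ∃ η N0 : ℝ, 0 < η ∧ 1 ≤ N0 ∧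
    ∀ N : ℝ, N0 ≤ N → ∀ f : ℕ → ℂ, CM f → (∀ n, 0 < n → f n ^ k = 1) → ∀ θ : ℂ, θ ^ k = 1 →
    ((∃ p : ℕ, p ≤ p0 ∧ p.Prime ∧ p % 4 = 1 ∧ f p ≠ 1) ∨ ∀ γ : ℂ, γ ^ k = 1 → γ ^ 2 ≠ θ) →
    η * N ≤ ((Bd (gf f) θ N).card : ℝ) := by
  classical
  obtain ⟨c, Y0, hc, hY0, hpan⟩ := card_pan
  set Λ : ℝ := 20 * ((p0 : ℝ) + 1) with hΛdef
  have hp00 : (0 : ℝ) ≤ p0 := Nat.cast_nonneg _
  have hΛ20 : 20 ≤ Λ := by rw [hΛdef]; linarith
  have hΛ1 : 1 ≤ Λ := by linarith
  obtain ⟨η1, N1, hη1, hN1, hchain⟩ := chain k hk Λ hΛ1 (c / 4) (by positivity)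
  set η2 : ℝ := min η1 (c / 4) with hη2
  have hη2pos : 0 < η2 := lt_min hη1 (by positivity)
  have hL3 : 0 < 3 * Λ := by linarith
  refine ⟨η2 / (3 * Λ), 3 * Λ * max N1 Y0, by positivity, ?_, ?_⟩
  · have h1 : 1 ≤ max N1 Y0 := hN1.trans (le_max_left _ _)
    nlinarith
  intro N hN f hf hfk θ hθ halt
  by_contra hlt
  rw [not_le] at hlt
  set M : ℝ := N / (3 * Λ) with hM
  have hNM : N = 3 * Λ * M := by
    rw [hM]; field_simp
  have hMmax : max N1 Y0 ≤ M := by
    rw [hM, le_div_iff₀ hL3]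
    linarith
  have hMN1 : N1 ≤ M := (le_max_left _ _).trans hMmax
  have hMY0 : Y0 ≤ M := (le_max_right _ _).trans hMmax
  have hM1 : 1 ≤ M := hN1.trans hMN1
  have hM0 : 0 < M := by linarith
  have hMN : Λ * M ≤ N := by rw [hNM]; nlinarith
  have hBd : ((Bd (gf f) θ (3 * Λ * M)).card : ℝ) < η2 * M := by
    rw [← hNM]
    refine hlt.trans_le (le_of_eq ?_)
    rw [hM]
    ring
  have hθn : ‖θ‖ = 1 := by
    have h1 : ‖θ‖ ^ k = 1 := by rw [← norm_pow, hθ, norm_one]
    exact (pow_eq_one_iff_of_nonneg (norm_nonneg _) (by omega)).mp h1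
  obtain ⟨γ, hγ1, hγ2⟩ := hchain M hMN1 f hf hfk θ hθn
    (hBd.trans_le (mul_le_mul_of_nonneg_right (min_le_left _ _) hM0.le))
  have hγ2' : (((pan M (Λ * M)).filter (fun z => gf f z ≠ γ)).card : ℝ) ≤ c / 4 * M := by
    refine le_trans (le_of_eq ?_) hγ2
    congr 2
  have hBd' : ((Bd (gf f) θ N).card : ℝ) < c / 4 * M := by
    rw [hNM]
    exact hBd.trans_le (mul_le_mul_of_nonneg_right (min_le_right _ _) hM0.le)
  have hγ0 : γ ≠ 0 := by
    intro h0
    rw [h0, zero_pow (by omega)] at hγ1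
    exact zero_ne_one hγ1
  set E : Finset GI := (pan M (Λ * M)).filter (fun z => gf f z ≠ γ) with hE
  rcases halt with ⟨p, hpp0, hp, hp4, hfp⟩ | halt
  · -- a prime `p` with `f p ≠ 1`
    obtain ⟨q, hq, hqp⟩ := PP_exists hp hp4
    have hq0 : q ≠ 0 := Od_ne hq.1
    have h1 := hpan M hMY0 (star q) (Od_star hq.1) (by rw [nm_star]; exact PP_three_le hq)
      (11 / 10 * M) le_rfl (by linarith)
    have h1' : c * M ≤ (((pan M (11 / 10 * M)).filter (fun z => ¬ star q ∣ z)).card : ℝ) := by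
      refine h1.trans (le_of_eq ?_)
      congr 2
    set S : Finset GI := (pan M (11 / 10 * M)).filter (fun z => ¬ star q ∣ z) with hS
    have hSsub : S ⊆ E ∪ S.filter (fun z => q * z ∈ E) := by
      intro z hz
      rw [Finset.mem_union]
      by_contra hno
      rw [not_or] at hno
      obtain ⟨hn1, hn2'⟩ := hno
      have hn2 : ¬ q * z ∈ E := fun h => hn2' (Finset.mem_filter.mpr ⟨hz, h⟩)
      rw [hS, Finset.mem_filter, mem_pan] at hz
      obtain ⟨⟨ho, hpz, ha, hb⟩, hd⟩ := hz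
      have hp1 : (nm q : ℝ) ≤ (p0 : ℝ) := by
        rw [hqp]; exact_mod_cast hpp0
      have hp2 : (5 : ℝ) ≤ nm q := by exact_mod_cast PP_three_le hq
      have hzE : gf f z = γ := by
        by_contra hne
        apply hn1
        rw [hE, Finset.mem_filter, mem_pan]
        exact ⟨⟨ho, hpz, ha, by nlinarith⟩, hne⟩
      have hqzE : gf f (q * z) = γ := by
        by_contra hne
        apply hn2
        rw [hE, Finset.mem_filter, mem_pan]
        refine ⟨⟨Od_mul hq.1 ho, MA3_Pr_mul hq ho hpz hd, ?_, ?_⟩, hne⟩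
        · rw [nm_mul]
          push_cast
          nlinarith
        · rw [nm_mul]
          push_cast
          have h5 : (nm q : ℝ) * nm z ≤ p0 * (11 / 10 * M) :=
            mul_le_mul hp1 hb (Nat.cast_nonneg _) hp00
          rw [hΛdef]
          nlinarith
      rw [gf_mul hf hq0 (Od_ne ho), hzE] at hqzE
      have h6 : gf f q = 1 := by
        have : (gf f q - 1) * γ = 0 := by linear_combination hqzE
        rcases mul_eq_zero.mp this with h | h
        · linear_combination h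
        · exact absurd h hγ0
      apply hfp
      rw [← hqp]
      exact h6
    have hcard1 : (S.filter (fun z => q * z ∈ E)).card ≤ E.card := by
      apply Finset.card_le_card_of_injOn (fun z => q * z)
      · intro z hz
        exact (Finset.mem_filter.mp hz).2
      · intro a _ b _ hab
        exact mul_left_cancel₀ hq0 hab
    have h7 : (S.card : ℝ) ≤ (E.card : ℝ) + (E.card : ℝ) := by
      have h8 := (Finset.card_le_card hSsub).trans (Finset.card_union_le _ _)
      exact_mod_cast h8.trans (Nat.add_le_add_left hcard1 _)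
    have h9 : c * M ≤ c / 4 * M + c / 4 * M := by linarith
    have h10 : 0 < c * M := by positivity
    linarith
  · -- `γ ^ 2 = θ`
    have h1 := hpan M hMY0 ⟨1, 2⟩ MA2_Od5.1 MA2_Od5.2
      (11 / 10 * M) le_rfl (by linarith)
    have h1' : c * M ≤ (((pan M (11 / 10 * M)).filter (fun z => ¬ (⟨1, 2⟩ : GI) ∣ z)).card : ℝ) := by
      refine h1.trans (le_of_eq ?_)
      congr 2
    have h1'' : c * M ≤ ((pan M (11 / 10 * M)).card : ℝ) := by
      refine h1'.trans ?_
      exact_mod_cast Finset.card_le_card (Finset.filter_subset _ _)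
    set S : Finset GI := pan M (11 / 10 * M) with hS
    have hwex : ∀ u : GI, ∃ w : GI, (Od u ∧ Pr u) → Od w ∧ Pr w ∧
        dt u ((⟨0, 1⟩ : GI) * w) = 1 ∧ 4 * nm u ≤ nm w ∧ nm w ≤ 16 * nm u + 1 := by
      intro u
      by_cases hu : Od u ∧ Pr u
      · obtain ⟨w, hw⟩ := edge_map hu.1 hu.2
        exact ⟨w, fun _ => hw⟩
      · exact ⟨0, fun h => absurd h hu⟩
    choose w hw using hwex
    have hinj : Set.InjOn w S := by
      intro a ha b hb hab
      rw [hS, Finset.mem_coe, mem_pan] at ha hb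
      obtain ⟨_, _, ha1, ha2, _⟩ := hw a ⟨ha.1, ha.2.1⟩
      obtain ⟨_, _, hb1, hb2, _⟩ := hw b ⟨hb.1, hb.2.1⟩
      rw [← hab] at hb1 hb2
      exact edge_inj ha1 hb1 ha2 hb2
    have hSsub : S ⊆ (E ∪ S.filter (fun z => w z ∈ E)) ∪
        S.filter (fun z => (z, (⟨0, 1⟩ : GI) * w z) ∈ Bd (gf f) θ N) := by
      intro z hz
      rw [Finset.mem_union, Finset.mem_union]
      by_contra hno
      rw [not_or, not_or] at hno
      obtain ⟨⟨hn1, hn2'⟩, hn3'⟩ := hno
      have hn2 : ¬ w z ∈ E := fun h => hn2' (Finset.mem_filter.mpr ⟨hz, h⟩)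
      have hn3 : ¬ (z, (⟨0, 1⟩ : GI) * w z) ∈ Bd (gf f) θ N :=
        fun h => hn3' (Finset.mem_filter.mpr ⟨hz, h⟩)
      rw [hS, mem_pan] at hz
      obtain ⟨ho, hpz, ha, hb⟩ := hz
      obtain ⟨w1, w2, w3, w4, w5⟩ := hw z ⟨ho, hpz⟩
      have w4' : 4 * (nm z : ℝ) ≤ nm (w z) := by exact_mod_cast w4
      have w5' : (nm (w z) : ℝ) ≤ 16 * nm z + 1 := by exact_mod_cast w5
      have hz0 : (0 : ℝ) ≤ nm z := Nat.cast_nonneg _
      have hwup : (nm (w z) : ℝ) ≤ Λ * M := by nlinarith
      have hzup : (nm z : ℝ) ≤ Λ * M := by nlinarith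
      have hzE : gf f z = γ := by
        by_contra hne
        apply hn1
        rw [hE, Finset.mem_filter, mem_pan]
        exact ⟨⟨ho, hpz, ha, hzup⟩, hne⟩
      have hwE : gf f (w z) = γ := by
        by_contra hne
        apply hn2
        rw [hE, Finset.mem_filter, mem_pan]
        exact ⟨⟨w1, w2, by linarith, hwup⟩, hne⟩
      apply hn3
      unfold Bd
      rw [Finset.mem_filter, Finset.mem_product, mem_bl, mem_bl]
      refine ⟨⟨⟨Od_ne ho, hzup.trans hMN⟩, ⟨?_, ?_⟩⟩, ?_, MA3_On ho, MA3_I_On w1, ?_⟩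
      · intro h0
        have h2 := MA3_I_nm (w z)
        rw [show (⟨0, 1⟩ : GI) * w z = 0 from h0, nm_eq_zero.mpr rfl] at h2
        have h3 := nm_pos (Od_ne w1)
        omega
      · show (nm ((⟨0, 1⟩ : GI) * w z) : ℝ) ≤ N
        rw [MA3_I_nm]
        exact hwup.trans hMN
      · rw [w3]
        rfl
      · have h2 : gf f ((⟨0, 1⟩ : GI) * w z) = gf f (w z) := by
          unfold gf
          rw [MA3_I_nm]
        rw [h2, hzE, hwE, ← sq]
        exact halt γ hγ1
    have hcard1 : (S.filter (fun z => w z ∈ E)).card ≤ E.card := by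
      apply Finset.card_le_card_of_injOn w
      · intro z hz
        exact (Finset.mem_filter.mp hz).2
      · intro a ha b hb hab
        exact hinj (Finset.mem_filter.mp ha).1 (Finset.mem_filter.mp hb).1 hab
    have hcard2 : (S.filter (fun z => (z, (⟨0, 1⟩ : GI) * w z) ∈ Bd (gf f) θ N)).card
        ≤ (Bd (gf f) θ N).card := by
      apply Finset.card_le_card_of_injOn (fun z => (z, (⟨0, 1⟩ : GI) * w z))
      · intro z hz
        exact (Finset.mem_filter.mp hz).2
      · intro a _ b _ hab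
        exact (Prod.mk.inj hab).1
    have h7 : (S.card : ℝ) ≤ ((E.card : ℝ) + (E.card : ℝ)) + ((Bd (gf f) θ N).card : ℝ) := by
      have h8 := (Finset.card_le_card hSsub).trans (Finset.card_union_le _ _)
      have h9 := Finset.card_union_le E (S.filter (fun z => w z ∈ E))
      have h10 : S.card ≤ (E.card + E.card) + (Bd (gf f) θ N).card := by omega
      exact_mod_cast h10
    have h10 : 0 < c * M := by positivity
    linarith

end Pool.Agent.MRS
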