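import Pool.Agent.MRS.Chain2
import Pool.Agent.MRS.Edg2
import Pool.Agent.MRS.MainE

set_option autoImplicit false

/-! Module MB3 (main_edges1), as MA3 (copy `MainE.lean`): the relation is `G(u) G(ε(1+i)w) = G(u) f(2) G(w)`, so `f(2) γ² = θ`; each `w` is used by at most `4` vectors `u`. -/

open Finset

namespace Pool.Agent.MRS

/-- the units -/
noncomputable def mb3U : Finset GI := open Classical in {⟨1, 0⟩, ⟨-1, 0⟩, ⟨0, 1⟩, ⟨0, -1⟩}

theorem mb3_card : mb3U.card ≤ 4 := by
  classical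
  unfold mb3U
  exact Finset.card_le_four

theorem mb3_unit {z : GI} (h : nm z = 1) : z ∈ mb3U := by
  classical
  have h1 := nm_int z
  rw [h] at h1
  obtain ⟨a, b⟩ := z
  simp only at h1
  have ha : a ^ 2 ≤ 1 := by push_cast at h1; nlinarith [sq_nonneg b]
  have hb : b ^ 2 ≤ 1 := by push_cast at h1; nlinarith [sq_nonneg a]
  have ha1 : a ≤ 1 := by nlinarith
  have ha2 : -1 ≤ a := by nlinarith
  have hb1 : b ≤ 1 := by nlinarith
  have hb2 : -1 ≤ b := by nlinarith
  unfold mb3U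
  interval_cases a <;> interval_cases b <;> first | (exfalso; norm_num at h1; done) | simp

/-- `N(ε (1 + i) w) = 2 N(w)` -/
theorem mb3_nm {w e : GI} (he : nm e = 1) : nm (e * ((⟨1, 1⟩ : GI) * w)) = 2 * nm w := by
  rw [nm_mul, nm_mul, he]
  have h := nm_int (⟨1, 1⟩ : GI)
  have h2 : (nm (⟨1, 1⟩ : GI) : ℤ) = 2 := by rw [h]; norm_num
  have h3 : nm (⟨1, 1⟩ : GI) = 2 := by omega
  rw [h3, one_mul]

theorem main_edges1 (k : ℕ) (hk : 1 ≤ k) (p0 : ℕ) : ∃ η N0 : ℝ, 0 < η ∧ 1 ≤ N0 ∧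
    ∀ N : ℝ, N0 ≤ N → ∀ f : ℕ → ℂ, CM f → (∀ n, 0 < n → f n ^ k = 1) → ∀ θ : ℂ, θ ^ k = 1 →
    ((∃ p : ℕ, p ≤ p0 ∧ p.Prime ∧ p % 4 = 1 ∧ f p ≠ 1) ∨ ∀ γ : ℂ, γ ^ k = 1 → f 2 * γ ^ 2 ≠ θ) →
    η * N ≤ ((Bd1 (gf f) θ N).card : ℝ) := by
  classical
  obtain ⟨c, Y0, hc, hY0, hpan⟩ := card_pan
  set Λ : ℝ := 20 * ((p0 : ℝ) + 1) with hΛdef
  have hp00 : (0 : ℝ) ≤ p0 := Nat.cast_nonneg _
  have hΛ20 : 20 ≤ Λ := by rw [hΛdef]; linarith
  have hΛ1 : 1 ≤ Λ := by linarith
  obtain ⟨η1, N1, hη1, hN1, hchain⟩ := chain1 k hk Λ hΛ1 (c / 8) (by positivity)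
  set η2 : ℝ := min η1 (c / 4) with hη2
  have hη2pos : 0 < η2 := lt_min hη1 (by positivity)
  have hL3 : 0 < 12 * Λ := by linarith
  refine ⟨η2 / (12 * Λ), 12 * Λ * max N1 Y0, by positivity, ?_, ?_⟩
  · have h1 : 1 ≤ max N1 Y0 := hN1.trans (le_max_left _ _)
    nlinarith
  intro N hN f hf hfk θ hθ halt
  by_contra hlt
  rw [not_le] at hlt
  set M : ℝ := N / (12 * Λ) with hM
  have hNM : N = 12 * Λ * M := by
    rw [hM]; field_simp
  have hMmax : max N1 Y0 ≤ M := by
    rw [hM, le_div_iff₀ hL3]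
    linarith
  have hMN1 : N1 ≤ M := (le_max_left _ _).trans hMmax
  have hMY0 : Y0 ≤ M := (le_max_right _ _).trans hMmax
  have hM1 : 1 ≤ M := hN1.trans hMN1
  have hM0 : 0 < M := by linarith
  have hMN : Λ * M ≤ N := by rw [hNM]; nlinarith
  have hBd : ((Bd1 (gf f) θ (12 * Λ * M)).card : ℝ) < η2 * M := by
    rw [← hNM]
    refine hlt.trans_le (le_of_eq ?_)
    rw [hM]
    ring
  have hθn : ‖θ‖ = 1 := by
    have h1 : ‖θ‖ ^ k = 1 := by rw [← norm_pow, hθ, norm_one]
    exact (pow_eq_one_iff_of_nonneg (norm_nonneg _) (by omega)).mp h1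
  obtain ⟨γ, hγ1, hγ2⟩ := hchain M hMN1 f hf hfk θ hθn
    (hBd.trans_le (mul_le_mul_of_nonneg_right (min_le_left _ _) hM0.le))
  have hγ2' : (((pan M (Λ * M)).filter (fun z => gf f z ≠ γ)).card : ℝ) ≤ c / 8 * M := by
    refine le_trans (le_of_eq ?_) hγ2
    congr 2
  have hBd' : ((Bd1 (gf f) θ N).card : ℝ) < c / 4 * M := by
    rw [hNM]
    exact hBd.trans_le (mul_le_mul_of_nonneg_right (min_le_right _ _) hM0.le)
  have hγ0 : γ ≠ 0 := by
    intro h0
    rw [h0, zero_pow (by omega)] at hγ1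
    exact zero_ne_one hγ1
  set E : Finset GI := (pan M (Λ * M)).filter (fun z => gf f z ≠ γ) with hE
  rcases halt with ⟨p, hpp0, hp, hp4, hfp⟩ | halt
  · -- a prime `p` with `f p ≠ 1`
    obtain ⟨q, hq, hqp⟩ := PP_exists hp hp4
    have hq0 : q ≠ 0 := Od_ne hq.1
    have h1 := hpan M hMY0 (star q) (Od_star hq.1) (by rw [nm_star]; exact PP_three_le hq)
      (11 / 10 * M) le_rfl (by linarith)
    have h1' : c * M ≤ (((pan M (11 / 10 * M)).filter (fun z => ¬ star q ∣ z)).card : ℝ) := by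
      refine h1.trans (le_of_eq ?_)
      congr 2
    set S : Finset GI := (pan M (11 / 10 * M)).filter (fun z => ¬ star q ∣ z) with hS
    have hSsub : S ⊆ E ∪ S.filter (fun z => q * z ∈ E) := by
      intro z hz
      rw [Finset.mem_union]
      by_contra hno
      rw [not_or] at hno
      obtain ⟨hn1, hn2'⟩ := hno
      have hn2 : ¬ q * z ∈ E := fun h => hn2' (Finset.mem_filter.mpr ⟨hz, h⟩)
      rw [hS, Finset.mem_filter, mem_pan] at hz
      obtain ⟨⟨ho, hpz, ha, hb⟩, hd⟩ := hz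
      have hp1 : (nm q : ℝ) ≤ (p0 : ℝ) := by
        rw [hqp]; exact_mod_cast hpp0
      have hp2 : (5 : ℝ) ≤ nm q := by exact_mod_cast PP_three_le hq
      have hzE : gf f z = γ := by
        by_contra hne
        apply hn1
        rw [hE, Finset.mem_filter, mem_pan]
        exact ⟨⟨ho, hpz, ha, by nlinarith⟩, hne⟩
      have hqzE : gf f (q * z) = γ := by
        by_contra hne
        apply hn2
        rw [hE, Finset.mem_filter, mem_pan]
        refine ⟨⟨Od_mul hq.1 ho, MA3_Pr_mul hq ho hpz hd, ?_, ?_⟩, hne⟩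
        · rw [nm_mul]
          push_cast
          nlinarith
        · rw [nm_mul]
          push_cast
          have h5 : (nm q : ℝ) * nm z ≤ p0 * (11 / 10 * M) :=
            mul_le_mul hp1 hb (Nat.cast_nonneg _) hp00
          rw [hΛdef]
          nlinarith
      rw [gf_mul hf hq0 (Od_ne ho), hzE] at hqzE
      have h6 : gf f q = 1 := by
        have : (gf f q - 1) * γ = 0 := by linear_combination hqzE
        rcases mul_eq_zero.mp this with h | h
        · linear_combination h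
        · exact absurd h hγ0
      apply hfp
      rw [← hqp]
      exact h6
    have hcard1 : (S.filter (fun z => q * z ∈ E)).card ≤ E.card := by
      apply Finset.card_le_card_of_injOn (fun z => q * z)
      · intro z hz
        exact (Finset.mem_filter.mp hz).2
      · intro a _ b _ hab
        exact mul_left_cancel₀ hq0 hab
    have h7 : (S.card : ℝ) ≤ (E.card : ℝ) + (E.card : ℝ) := by
      have h8 := (Finset.card_le_card hSsub).trans (Finset.card_union_le _ _)
      exact_mod_cast h8.trans (Nat.add_le_add_left hcard1 _)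
    have h9 : c * M ≤ c / 8 * M + c / 8 * M := by linarith
    have h10 : 0 < c * M := by positivity
    linarith
  · -- `γ ^ 2 = θ`
    have h1 := hpan M hMY0 ⟨1, 2⟩ MA2_Od5.1 MA2_Od5.2
      (11 / 10 * M) le_rfl (by linarith)
    have h1' : c * M ≤ (((pan M (11 / 10 * M)).filter (fun z => ¬ (⟨1, 2⟩ : GI) ∣ z)).card : ℝ) := by
      refine h1.trans (le_of_eq ?_)
      congr 2
    have h1'' : c * M ≤ ((pan M (11 / 10 * M)).card : ℝ) := by
      refine h1'.trans ?_
      exact_mod_cast Finset.card_le_card (Finset.filter_subset _ _)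
    set S : Finset GI := pan M (11 / 10 * M) with hS
    have hwex : ∀ u : GI, ∃ w e : GI, (Od u ∧ Pr u) → Od w ∧ Pr w ∧ nm e = 1 ∧
        dt u (e * ((⟨1, 1⟩ : GI) * w)) = 1 ∧ 2 * nm u ≤ nm w ∧ nm w ≤ 8 * nm u + 1 := by
      intro u
      by_cases hu : Od u ∧ Pr u
      · obtain ⟨w, e, hw⟩ := edge_map1 hu.1 hu.2
        exact ⟨w, e, fun _ => hw⟩
      · exact ⟨0, 0, fun h => absurd h hu⟩
    choose w e hw using hwex
    have hinj : ∀ a ∈ S, ∀ b ∈ S, e a * ((⟨1, 1⟩ : GI) * w a) = e b * ((⟨1, 1⟩ : GI) * w b) →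
        a = b := by
      intro a ha b hb hab
      rw [hS, mem_pan] at ha hb
      obtain ⟨_, _, ha0, ha1, ha2, _⟩ := hw a ⟨ha.1, ha.2.1⟩
      obtain ⟨_, _, hb0, hb1, hb2, _⟩ := hw b ⟨hb.1, hb.2.1⟩
      have h1 := mb3_nm (w := w a) ha0
      have h2 := mb3_nm (w := w b) hb0
      rw [← hab] at hb1 h2
      exact edge_inj1 ha1 hb1 (by omega) (by omega)
    have hSsub : S ⊆ (E ∪ S.filter (fun z => w z ∈ E)) ∪
        S.filter (fun z => (z, e z * ((⟨1, 1⟩ : GI) * w z)) ∈ Bd1 (gf f) θ N) := by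
      intro z hz
      rw [Finset.mem_union, Finset.mem_union]
      by_contra hno
      rw [not_or, not_or] at hno
      obtain ⟨⟨hn1, hn2'⟩, hn3'⟩ := hno
      have hn2 : ¬ w z ∈ E := fun h => hn2' (Finset.mem_filter.mpr ⟨hz, h⟩)
      have hn3 : ¬ (z, e z * ((⟨1, 1⟩ : GI) * w z)) ∈ Bd1 (gf f) θ N :=
        fun h => hn3' (Finset.mem_filter.mpr ⟨hz, h⟩)
      rw [hS, mem_pan] at hz
      obtain ⟨ho, hpz, ha, hb⟩ := hz
      obtain ⟨w1, w2, w0, w3, w4, w5⟩ := hw z ⟨ho, hpz⟩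
      have w4' : 2 * (nm z : ℝ) ≤ nm (w z) := by exact_mod_cast w4
      have w5' : (nm (w z) : ℝ) ≤ 8 * nm z + 1 := by exact_mod_cast w5
      have hz0 : (0 : ℝ) ≤ nm z := Nat.cast_nonneg _
      have hwup : (nm (w z) : ℝ) ≤ Λ * M := by nlinarith
      have hzup : (nm z : ℝ) ≤ Λ * M := by nlinarith
      have hzE : gf f z = γ := by
        by_contra hne
        apply hn1
        rw [hE, Finset.mem_filter, mem_pan]
        exact ⟨⟨ho, hpz, ha, hzup⟩, hne⟩
      have hwE : gf f (w z) = γ := by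
        by_contra hne
        apply hn2
        rw [hE, Finset.mem_filter, mem_pan]
        exact ⟨⟨w1, w2, by linarith, hwup⟩, hne⟩
      have hnv := mb3_nm (w := w z) w0
      have hwpos := nm_pos (Od_ne w1)
      apply hn3
      unfold Bd1
      rw [Finset.mem_filter, Finset.mem_product, mem_bl, mem_bl]
      refine ⟨⟨⟨Od_ne ho, hzup.trans hMN⟩, ⟨?_, ?_⟩⟩, ?_, MA3_On ho, ?_, ?_⟩
      · intro h0
        rw [show e z * ((⟨1, 1⟩ : GI) * w z) = 0 from h0, nm_eq_zero.mpr rfl] at hnv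
        omega
      · show (nm (e z * ((⟨1, 1⟩ : GI) * w z)) : ℝ) ≤ N
        rw [hnv]
        push_cast
        have h2 : 2 * (Λ * M) ≤ N := by rw [hNM]; nlinarith
        linarith
      · show (dt z (e z * ((⟨1, 1⟩ : GI) * w z))).natAbs = 1
        rw [w3]
        rfl
      · intro hon
        have h1 := nm_int (e z * ((⟨1, 1⟩ : GI) * w z))
        rw [hnv] at h1
        have h2 : ((e z * ((⟨1, 1⟩ : GI) * w z)).re + (e z * ((⟨1, 1⟩ : GI) * w z)).im) % 2 = 1 := hon
        generalize (e z * ((⟨1, 1⟩ : GI) * w z)).re = a at h1 h2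
        generalize (e z * ((⟨1, 1⟩ : GI) * w z)).im = b at h1 h2
        have h3 : (a ^ 2 + b ^ 2) % 2 = 0 := by
          rw [← h1]
          push_cast
          omega
        have h4 : (a ^ 2 + b ^ 2) % 2 = (a + b) % 2 := by
          rcases Int.emod_two_eq_zero_or_one a with h | h <;>
            rcases Int.emod_two_eq_zero_or_one b with h' | h' <;>
            simp [pow_two, Int.add_emod, Int.mul_emod, h, h']
        omega
      · show gf f z * gf f (e z * ((⟨1, 1⟩ : GI) * w z)) ≠ θ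
        have h2 : gf f (e z * ((⟨1, 1⟩ : GI) * w z)) = f 2 * gf f (w z) := by
          unfold gf
          rw [hnv, hf.mul 2 _ (by norm_num) hwpos]
        rw [h2, hzE, hwE, show γ * (f 2 * γ) = f 2 * γ ^ 2 from by ring]
        exact halt γ hγ1
    have hcard1 : (S.filter (fun z => w z ∈ E)).card ≤ 4 * E.card := by
      have h1 : (S.filter (fun z => w z ∈ E)).card ≤ (E ×ˢ mb3U).card := by
        apply Finset.card_le_card_of_injOn (fun z => (w z, e z))
        · intro z hz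
          have hz2 := Finset.mem_filter.mp hz
          have hz1 := hz2.1
          rw [hS, mem_pan] at hz1
          obtain ⟨_, _, w0, _⟩ := hw z ⟨hz1.1, hz1.2.1⟩
          rw [Finset.mem_coe, Finset.mem_product]
          exact ⟨hz2.2, mb3_unit w0⟩
        · intro a ha b hb hab
          obtain ⟨h2, h3⟩ := Prod.mk.inj hab
          apply hinj a (Finset.mem_filter.mp ha).1 b (Finset.mem_filter.mp hb).1
          rw [h2, h3]
      rw [Finset.card_product] at h1
      have h2 := Nat.mul_le_mul_left E.card mb3_card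
      omega
    have hcard2 : (S.filter (fun z => (z, e z * ((⟨1, 1⟩ : GI) * w z)) ∈ Bd1 (gf f) θ N)).card
        ≤ (Bd1 (gf f) θ N).card := by
      apply Finset.card_le_card_of_injOn (fun z => (z, e z * ((⟨1, 1⟩ : GI) * w z)))
      · intro z hz
        exact (Finset.mem_filter.mp hz).2
      · intro a _ b _ hab
        exact (Prod.mk.inj hab).1
    have h7 : (S.card : ℝ) ≤ ((E.card : ℝ) + 4 * (E.card : ℝ)) + ((Bd1 (gf f) θ N).card : ℝ) := by
      have h8 := (Finset.card_le_card hSsub).trans (Finset.card_union_le _ _)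
      have h9 := Finset.card_union_le E (S.filter (fun z => w z ∈ E))
      have h10 : S.card ≤ (E.card + 4 * E.card) + (Bd1 (gf f) θ N).card := by omega
      exact_mod_cast h10
    have h10 : 0 < c * M := by positivity
    linarith

end Pool.Agent.MRS
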