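import Pool.Agent.MRS.MainE
import Pool.Agent.MRS.MainE2
import Pool.Agent.MRS.Val

set_option autoImplicit false

/-! Module FI2: both parities of the values. -/

open Finset

namespace Pool.Agent.MRS

theorem FI2_odd {x : GI} (h : On x) : nm x % 2 = 1 := by
  have h1 := nm_int x
  have h2 : ((nm x : ℕ) : ℤ) % 2 = 1 := by
    rw [h1]
    have h3 : (x.re + x.im) % 2 = 1 := h
    have h4 : (x.re ^ 2 + x.im ^ 2) = (x.re + x.im) * (x.re + x.im) - 2 * (x.re * x.im) := by ring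
    rw [h4, Int.sub_mul_emod_self_left, Int.mul_emod, h3]
    norm_num
  omega

theorem FI2_even {x : GI} (h : ¬ On x) : nm x % 2 = 0 := by
  have h1 := nm_int x
  have h2 : ((nm x : ℕ) : ℤ) % 2 = 0 := by
    rw [h1]
    have h3 : (x.re + x.im) % 2 = 0 := by
      have : ¬ (x.re + x.im) % 2 = 1 := h
      omega
    have h4 : (x.re ^ 2 + x.im ^ 2) = (x.re + x.im) * (x.re + x.im) - 2 * (x.re * x.im) := by ring
    rw [h4, Int.sub_mul_emod_self_left, Int.mul_emod, h3]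
    norm_num
  omega

theorem FI2_roots (k : ℕ) [NeZero k] (γ : ℂ) (h : γ ^ k = 1) :
    ∃ i : ZMod k, ((ZMod.toCircle i : Circle) : ℂ) = γ := by
  obtain ⟨i, -, hi⟩ := (Complex.isPrimitiveRoot_exp k (NeZero.ne k)).eq_pow_of_pow_eq_one h
  refine ⟨(i : ZMod k), ?_⟩
  rw [ZMod.toCircle_natCast, ← hi, ← Complex.exp_nat_mul]
  congr 1
  ring

theorem FI2_pow (k : ℕ) [NeZero k] (i : ZMod k) : ((ZMod.toCircle i : Circle) : ℂ) ^ k = 1 := by
  rw [← Circle.coe_pow, ← AddChar.map_nsmul_eq_pow]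
  simp

theorem FI2_inj (k : ℕ) [NeZero k] (a b : ZMod k)
    (h : ((ZMod.toCircle a : Circle) : ℂ) = ((ZMod.toCircle b : Circle) : ℂ)) : a = b :=
  ZMod.injective_toCircle (Circle.ext h)

theorem FI2_CM (k : ℕ) [NeZero k] (g : ℕ → ZMod k)
    (hg : ∀ m n : ℕ, 0 < m → 0 < n → g (m * n) = g m + g n) :
    CM (fun n => ((ZMod.toCircle (g n) : Circle) : ℂ)) := by
  refine ⟨?_, ?_⟩
  · intro m n hm hn
    rw [hg m n hm hn, AddChar.map_add_eq_mul, Circle.coe_mul]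
  · intro n
    rw [Circle.norm_coe]

/-- the values of a set of edges -/
theorem FI2_val (k : ℕ) [NeZero k] (b : ℕ) (hb : b < 2) (X : ℝ) (hX : 1 ≤ X) (g : ℕ → ZMod k)
    (hg : ∀ m n : ℕ, 0 < m → 0 < n → g (m * n) = g m + g n) (j : ZMod k) (x y : GI)
    (hx : x ∈ bl X) (hy : y ∈ bl X) (hpar : (nm x * nm y) % 2 = (b + 1) % 2)
    (hne : gf (fun n => ((ZMod.toCircle (g n) : Circle) : ℂ)) x *
      gf (fun n => ((ZMod.toCircle (g n) : Circle) : ℂ)) y ≠ ((ZMod.toCircle j : Circle) : ℂ))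
    (n : ℕ) (hn0 : 0 < n) (hn : nm x * nm y = n ^ 2 + 1) :
    n ∈ (Icc 1 ⌊X⌋₊).filter (fun a : ℕ => a % 2 = b ∧ g (a ^ 2 + 1) ≠ j) := by
  have hx' := mem_bl.1 hx
  have hy' := mem_bl.1 hy
  rw [Finset.mem_filter, Finset.mem_Icc]
  refine ⟨⟨by omega, ?_⟩, ?_, ?_⟩
  · apply Nat.le_floor
    have h1 : (nm x : ℝ) * (nm y : ℝ) ≤ X * X :=
      mul_le_mul hx'.2 hy'.2 (by positivity) (by linarith)
    have h2 : ((nm x : ℝ) * (nm y : ℝ)) = (n : ℝ) ^ 2 + 1 := by exact_mod_cast hn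
    rw [h2] at h1
    have h3 : (0 : ℝ) ≤ (n : ℝ) := by positivity
    nlinarith
  · rw [hn] at hpar
    have h4 : n % 2 = 0 ∨ n % 2 = 1 := by omega
    rcases h4 with h4 | h4
    · obtain ⟨m, hm⟩ : ∃ m, n = 2 * m := ⟨n / 2, by omega⟩
      rw [hm] at hpar
      have : (2 * m) ^ 2 + 1 = 2 * (2 * m ^ 2) + 1 := by ring
      rw [this] at hpar
      omega
    · obtain ⟨m, hm⟩ : ∃ m, n = 2 * m + 1 := ⟨n / 2, by omega⟩
      rw [hm] at hpar
      have : (2 * m + 1) ^ 2 + 1 = 2 * (2 * m ^ 2 + 2 * m + 1) := by ring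
      rw [this] at hpar
      omega
  · intro hgj
    apply hne
    have h1 : gf (fun n => ((ZMod.toCircle (g n) : Circle) : ℂ)) x *
        gf (fun n => ((ZMod.toCircle (g n) : Circle) : ℂ)) y =
        ((ZMod.toCircle (g (nm x * nm y)) : Circle) : ℂ) := by
      rw [hg _ _ (nm_pos hx'.1) (nm_pos hy'.1), AddChar.map_add_eq_mul, Circle.coe_mul]
      rfl
    rw [h1, hn, hgj]

theorem final2 (k : ℕ) (hk : 2 ≤ k) (p0 : ℕ) (b : ℕ) (hb : b < 2) (ε : ℝ) (hε : 0 < ε) :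
    ∃ c X0 : ℝ, 0 < c ∧ ∀ X : ℝ, X0 ≤ X →
    ∀ (g : ℕ → ZMod k) (j : ZMod k), (∀ m n : ℕ, 0 < m → 0 < n → g (m * n) = g m + g n) →
    ((∃ p : ℕ, p ≤ p0 ∧ p.Prime ∧ p % 4 = 1 ∧ g p ≠ 0) ∨
      ∀ i : ZMod k, 2 * i + (b : ZMod k) * g 2 ≠ j) →
    c * X / (Real.log X) ^ (2 * Real.log 2 + ε) ≤
      (((Icc 1 ⌊X⌋₊).filter (fun a : ℕ => a % 2 = b ∧ g (a ^ 2 + 1) ≠ j)).card : ℝ) ∧
    c * X ≤ ∑ a ∈ (Icc 1 ⌊X⌋₊).filter (fun a : ℕ => a % 2 = b ∧ g (a ^ 2 + 1) ≠ j),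
      (((a ^ 2 + 1).divisors.filter
        (fun m : ℕ => (m : ℝ) ≤ X ∧ ((a ^ 2 + 1 : ℕ) : ℝ) ≤ m * X)).card : ℝ) := by
  classical
  have : NeZero k := ⟨by omega⟩
  have hb' : b = 0 ∨ b = 1 := by omega
  rcases hb' with rfl | rfl
  · obtain ⟨η, N0, hη, hN0, hmain⟩ := main_edges k (by omega) p0
    obtain ⟨c, N1, hc, hN1, hev⟩ := edges_to_values ε η hε hη
    refine ⟨c, max N0 N1, hc, fun X hX g j hg hcond => ?_⟩
    have hX0 : N0 ≤ X := (le_max_left _ _).trans hX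
    have hX1 : N1 ≤ X := (le_max_right _ _).trans hX
    have hedges := hmain X hX0 _ (FI2_CM k g hg) (fun n _ => FI2_pow k (g n))
      ((ZMod.toCircle j : Circle) : ℂ) (FI2_pow k j) (by
      rcases hcond with ⟨p, hp0, hp, hp4, hgp⟩ | h
      · left
        refine ⟨p, hp0, hp, hp4, ?_⟩
        intro h1
        apply hgp
        apply FI2_inj
        rw [AddChar.map_zero_eq_one, Circle.coe_one]
        exact h1
      · right
        intro γ hγ hγ2
        obtain ⟨i, rfl⟩ := FI2_roots k γ hγ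
        apply h i
        apply FI2_inj
        rw [Nat.cast_zero, zero_mul, add_zero, two_mul, AddChar.map_add_eq_mul, Circle.coe_mul,
          ← sq]
        exact hγ2)
    refine hev X hX1 _ ?_ hedges _ ?_
    · intro e he
      rw [Bd, Finset.mem_filter, Finset.mem_product] at he
      exact ⟨(mem_bl.1 he.1.1).2, (mem_bl.1 he.1.2).2, he.2.1⟩
    · intro e he n hn0 hn
      rw [Bd, Finset.mem_filter, Finset.mem_product] at he
      refine FI2_val k 0 (by norm_num) X (hN1.trans hX1) g hg j e.1 e.2 he.1.1 he.1.2 ?_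
        he.2.2.2.2 n hn0 hn
      rw [Nat.mul_mod, FI2_odd he.2.2.1, FI2_odd he.2.2.2.1]
  · obtain ⟨η, N0, hη, hN0, hmain⟩ := main_edges1 k (by omega) p0
    obtain ⟨c, N1, hc, hN1, hev⟩ := edges_to_values ε η hε hη
    refine ⟨c, max N0 N1, hc, fun X hX g j hg hcond => ?_⟩
    have hX0 : N0 ≤ X := (le_max_left _ _).trans hX
    have hX1 : N1 ≤ X := (le_max_right _ _).trans hX
    have hedges := hmain X hX0 _ (FI2_CM k g hg) (fun n _ => FI2_pow k (g n))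
      ((ZMod.toCircle j : Circle) : ℂ) (FI2_pow k j) (by
      rcases hcond with ⟨p, hp0, hp, hp4, hgp⟩ | h
      · left
        refine ⟨p, hp0, hp, hp4, ?_⟩
        intro h1
        apply hgp
        apply FI2_inj
        rw [AddChar.map_zero_eq_one, Circle.coe_one]
        exact h1
      · right
        intro γ hγ hγ2
        obtain ⟨i, rfl⟩ := FI2_roots k γ hγ
        apply h i
        apply FI2_inj
        rw [Nat.cast_one, one_mul, AddChar.map_add_eq_mul, Circle.coe_mul, two_mul,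
          AddChar.map_add_eq_mul, Circle.coe_mul, ← sq, mul_comm]
        exact hγ2)
    refine hev X hX1 _ ?_ hedges _ ?_
    · intro e he
      rw [Bd1, Finset.mem_filter, Finset.mem_product] at he
      exact ⟨(mem_bl.1 he.1.1).2, (mem_bl.1 he.1.2).2, he.2.1⟩
    · intro e he n hn0 hn
      rw [Bd1, Finset.mem_filter, Finset.mem_product] at he
      refine FI2_val k 1 (by norm_num) X (hN1.trans hX1) g hg j e.1 e.2 he.1.1 he.1.2 ?_
        he.2.2.2.2 n hn0 hn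
      rw [Nat.mul_mod, FI2_odd he.2.2.1, FI2_even he.2.2.2.1]

end Pool.Agent.MRS
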