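import Mathlib
import Pool.Agent.H33.Exp.VdC

set_option autoImplicit false

/-! Module KUS: Kusmin-Landau without monotonicity, and the iterated van der Corput inequality. -/

open Finset

namespace Pool.Agent.MRS

open Pool.Agent.H33

lemma kus_inv_sub {x y l : ℝ} (hl : 0 < l) (hx : l ≤ x) (hy : l ≤ y) (hx2 : x ≤ 1 / 2)
    (hy2 : y ≤ 1 / 2) : ‖(1 - ee x)⁻¹ - (1 - ee y)⁻¹‖ ≤ |x - y| / l ^ 2 := by
  have hx0 : 0 < x := lt_of_lt_of_le hl hx
  have hy0 : 0 < y := lt_of_lt_of_le hl hy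
  have h1 := norm_one_sub_ee_ge hx0.le hx2
  have h2 := norm_one_sub_ee_ge hy0.le hy2
  have hne1 : (1 - ee x) ≠ 0 := by
    intro h
    rw [h, norm_zero] at h1
    linarith
  have hne2 : (1 - ee y) ≠ 0 := by
    intro h
    rw [h, norm_zero] at h2
    linarith
  rw [inv_sub_inv hne1 hne2, norm_div, norm_mul]
  have h3 : ‖1 - ee y - (1 - ee x)‖ ≤ 2 * Real.pi * |x - y| := by
    have : 1 - ee y - (1 - ee x) = ee x - ee y := by ring
    rw [this]
    exact norm_ee_sub_ee_le x y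
  have h4 : 16 * l ^ 2 ≤ ‖1 - ee x‖ * ‖1 - ee y‖ := by
    have h5 : 4 * l ≤ ‖1 - ee x‖ := by linarith
    have h6 : 4 * l ≤ ‖1 - ee y‖ := by linarith
    have := mul_le_mul h5 h6 (by positivity) (norm_nonneg _)
    nlinarith
  have hpos : 0 < ‖1 - ee x‖ * ‖1 - ee y‖ := lt_of_lt_of_le (by positivity) h4
  rw [div_le_div_iff₀ hpos (by positivity)]
  have h7 : ‖1 - ee y - (1 - ee x)‖ ≤ 16 * |x - y| := by
    refine h3.trans ?_
    have := Real.pi_le_four
    have := abs_nonneg (x - y)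
    nlinarith
  calc ‖1 - ee y - (1 - ee x)‖ * l ^ 2 ≤ 16 * |x - y| * l ^ 2 :=
        mul_le_mul_of_nonneg_right h7 (by positivity)
    _ = |x - y| * (16 * l ^ 2) := by ring
    _ ≤ _ := mul_le_mul_of_nonneg_left h4 (abs_nonneg _)

/-- Abel summation with `w n = 1/(1 - ee(g(n+1) - g n))`, `|w n - w (n+1)| ≤ C |g(n+2) - 2 g(n+1) + g n| / l^2`. -/
theorem kusmin_var (g : ℕ → ℝ) (k : ℕ) {l V : ℝ} (hl : 0 < l) (hV : 0 ≤ V)
    (h1 : ∀ n < k, l ≤ g (n + 1) - g n) (h2 : ∀ n < k, g (n + 1) - g n ≤ 1 / 2)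
    (h3 : ∀ n, n + 1 < k → |(g (n + 2) - g (n + 1)) - (g (n + 1) - g n)| ≤ V) :
    ‖∑ n ∈ range k, ee (g n)‖ ≤ 1 / l + k * V / l ^ 2 := by
  set w : ℕ → ℂ := fun n => (1 - ee (g (n + 1) - g n))⁻¹ with hw
  have hne : ∀ n < k, (1 - ee (g (n + 1) - g n)) ≠ 0 := by
    intro n hn h
    have := norm_one_sub_ee_ge (hl.le.trans (h1 n hn)) (h2 n hn)
    rw [h, norm_zero] at this
    linarith [h1 n hn]
  have hE : ∀ n < k, ee (g n) = w n * (ee (g n) - ee (g (n + 1))) := by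
    intro n hn
    have : ee (g (n + 1)) = ee (g n) * ee (g (n + 1) - g n) := by
      rw [← ee_add]
      congr 1
      ring
    rw [this, hw]
    field_simp [hne n hn]
  have hwn : ∀ n < k, ‖w n‖ ≤ 1 / (4 * l) := by
    intro n hn
    simp only [hw, norm_inv]
    rw [← one_div]
    apply one_div_le_one_div_of_le (by positivity)
    have := norm_one_sub_ee_ge (hl.le.trans (h1 n hn)) (h2 n hn)
    linarith [h1 n hn]
  -- main claim
  have key : ∀ j, j + 1 ≤ k →
      ‖∑ n ∈ range (j + 1), ee (g n) + w j * ee (g (j + 1))‖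
        ≤ 1 / (4 * l) + j * (V / l ^ 2) := by
    intro j
    induction j with
    | zero =>
      intro hk
      have hk0 : 0 < k := by omega
      have e1 : ∑ n ∈ range (0 + 1), ee (g n) + w 0 * ee (g (0 + 1)) = w 0 * ee (g 0) := by
        rw [zero_add, sum_range_one]
        have := hE 0 hk0
        simp only [zero_add] at this
        linear_combination this
      rw [e1, norm_mul, norm_ee, mul_one]
      simpa using hwn 0 hk0
    | succ j ih =>
      intro hk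
      have ih' := ih (by omega)
      have hj : j + 1 < k := by omega
      have e1 : ∑ n ∈ range (j + 1 + 1), ee (g n) + w (j + 1) * ee (g (j + 1 + 1))
          = (∑ n ∈ range (j + 1), ee (g n) + w j * ee (g (j + 1)))
            + (w (j + 1) - w j) * ee (g (j + 1)) := by
        rw [sum_range_succ]
        have := hE (j + 1) hj
        linear_combination this
      rw [e1]
      refine (norm_add_le _ _).trans ?_
      rw [norm_mul, norm_ee, mul_one]
      have hb := kus_inv_sub hl (h1 (j + 1) hj) (h1 j (by omega)) (h2 (j + 1) hj) (h2 j (by omega))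
      have hb2 : |(g (j + 1 + 1) - g (j + 1)) - (g (j + 1) - g j)| / l ^ 2 ≤ V / l ^ 2 :=
        div_le_div_of_nonneg_right (h3 j hj) (by positivity)
      have hb3 : ‖w (j + 1) - w j‖ ≤ V / l ^ 2 := hb.trans hb2
      push_cast
      linarith
  rcases Nat.eq_zero_or_pos k with hk | hk
  · subst hk
    simp
    exact hl.le
  · obtain ⟨j, rfl⟩ : ∃ j, k = j + 1 := ⟨k - 1, by omega⟩
    have hkey := key j le_rfl
    have e2 : ∑ n ∈ range (j + 1), ee (g n)
        = (∑ n ∈ range (j + 1), ee (g n) + w j * ee (g (j + 1))) - w j * ee (g (j + 1)) := by ring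
    rw [e2]
    refine (norm_sub_le _ _).trans ?_
    rw [norm_mul, norm_ee, mul_one]
    have hw' := hwn j (by omega)
    have h5 : 1 / (4 * l) = 1 / 4 * (1 / l) := by
      field_simp
    have h6 : 0 < 1 / l := by positivity
    have h7 : 0 ≤ V / l ^ 2 := by positivity
    have h8 : ((j + 1 : ℕ) : ℝ) * V / l ^ 2 = j * (V / l ^ 2) + V / l ^ 2 := by
      push_cast
      ring
    rw [h5] at hw' hkey
    rw [h8]
    linarith

/-- difference -/
def Df (q : ℕ) (g : ℕ → ℝ) : ℕ → ℝ := fun i => g (i + q) - g i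

/-- iterated difference -/
def DL : List ℕ → (ℕ → ℝ) → ℕ → ℝ
  | [], g => g
  | q :: qs, g => DL qs (Df q g)

/-- one step of the van der Corput inequality, small shifts are estimated trivially -/
theorem kus_step {g : ℕ → ℝ} {X N H : ℕ} {Y E B B' : ℝ} (hX : X ≤ N) (hY : 1 ≤ Y)
    (hH : 1 ≤ H) (hHN : H ≤ N) (hYE : 1 ≤ Y * E) (hHE : 1 ≤ H * E) (hB0 : 0 ≤ B) (hB'0 : 0 ≤ B')
    (hB' : 6 * E + 4 * B ≤ B' ^ 2)
    (hB : ∀ q : ℕ, 1 ≤ q → q < H → (H : ℝ) ≤ q * Y →
      ‖∑ i ∈ range (X - q), ee (Df q g i)‖ ≤ N * B) :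
    ‖∑ i ∈ range X, ee (g i)‖ ≤ N * B' := by
  classical
  have hHpos : (0 : ℝ) < H := by exact_mod_cast hH
  have hN0 : (0 : ℝ) ≤ N := Nat.cast_nonneg N
  have hXN : (X : ℝ) ≤ N := by exact_mod_cast hX
  have hHN' : (H : ℝ) ≤ N := by exact_mod_cast hHN
  have hY0 : 0 < Y := by linarith
  have hv := vdc_ee g X H hH
  set S : ℝ := ‖∑ n ∈ range X, ee (g n)‖ with hS
  have hS0 : 0 ≤ S := norm_nonneg _
  -- bound for the sum over the shifts
  have hsum : ∑ h ∈ Ico 1 H, ‖∑ n ∈ range (X - h), ee (g (n + h) - g n)‖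
      ≤ N * (H * E) + H * (N * B) := by
    have hterm : ∀ h ∈ Ico 1 H, ‖∑ n ∈ range (X - h), ee (g (n + h) - g n)‖
        ≤ (if (h : ℝ) * Y < H then (N : ℝ) else 0) + N * B := by
      intro h hh
      rw [mem_Ico] at hh
      split_ifs with hc
      · have h1 : ‖∑ n ∈ range (X - h), ee (g (n + h) - g n)‖ ≤ N := by
          calc ‖∑ n ∈ range (X - h), ee (g (n + h) - g n)‖
              ≤ ∑ n ∈ range (X - h), ‖ee (g (n + h) - g n)‖ := norm_sum_le _ _
            _ = ((X - h : ℕ) : ℝ) := by simp [norm_ee]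
            _ ≤ (X : ℝ) := by exact_mod_cast Nat.sub_le _ _
            _ ≤ N := hXN
        have h2 : 0 ≤ (N : ℝ) * B := mul_nonneg hN0 hB0
        linarith
      · rw [not_lt] at hc
        have h1 := hB h hh.1 hh.2 hc
        unfold Df at h1
        linarith
    have hcard : ((((Ico 1 H).filter (fun h : ℕ => (h : ℝ) * Y < H)).card : ℕ) : ℝ) ≤ H * E := by
      have hsub : (Ico 1 H).filter (fun h : ℕ => (h : ℝ) * Y < H) ⊆ Ioc 0 ⌊(H : ℝ) / Y⌋₊ := by
        intro h hh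
        rw [mem_filter, mem_Ico] at hh
        rw [mem_Ioc]
        refine ⟨by omega, ?_⟩
        apply Nat.le_floor
        rw [le_div_iff₀ hY0]
        exact hh.2.le
      calc ((((Ico 1 H).filter (fun h : ℕ => (h : ℝ) * Y < H)).card : ℕ) : ℝ)
          ≤ ((Ioc 0 ⌊(H : ℝ) / Y⌋₊).card : ℝ) := by exact_mod_cast card_le_card hsub
        _ = (⌊(H : ℝ) / Y⌋₊ : ℝ) := by simp
        _ ≤ H / Y := Nat.floor_le (by positivity)
        _ ≤ H * E := by
            rw [div_le_iff₀ hY0]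
            nlinarith
    calc ∑ h ∈ Ico 1 H, ‖∑ n ∈ range (X - h), ee (g (n + h) - g n)‖
        ≤ ∑ h ∈ Ico 1 H, ((if (h : ℝ) * Y < H then (N : ℝ) else 0) + N * B) := sum_le_sum hterm
      _ = (((Ico 1 H).filter (fun h : ℕ => (h : ℝ) * Y < H)).card : ℝ) * N
          + ((H - 1 : ℕ) : ℝ) * (N * B) := by
          rw [sum_add_distrib, ← sum_filter, sum_const, sum_const, nsmul_eq_mul, nsmul_eq_mul,
            Nat.card_Ico]
      _ ≤ (H * E) * N + H * (N * B) := by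
          apply add_le_add
          · exact mul_le_mul_of_nonneg_right hcard hN0
          · apply mul_le_mul_of_nonneg_right _ (mul_nonneg hN0 hB0)
            exact_mod_cast Nat.sub_le _ _
      _ = _ := by ring
  have hsum0 : 0 ≤ ∑ h ∈ Ico 1 H, ‖∑ n ∈ range (X - h), ee (g (n + h) - g n)‖ :=
    sum_nonneg (fun _ _ => norm_nonneg _)
  have h1 : (H : ℝ) * S ^ 2 ≤ (2 * N) * (N + 2 * (N * (H * E) + H * (N * B))) := by
    refine hv.trans ?_
    apply mul_le_mul
    · linarith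
    · linarith
    · have : (0 : ℝ) ≤ X := Nat.cast_nonneg X
      linarith
    · linarith
  have h2 : (H : ℝ) * S ^ 2 ≤ H * (N ^ 2 * (6 * E + 4 * B)) := by
    refine h1.trans ?_
    have e1 : H * ((N : ℝ) ^ 2 * (6 * E + 4 * B)) - (2 * N) * (N + 2 * (N * (H * E) + H * (N * B)))
        = 2 * N ^ 2 * (H * E - 1) := by ring
    have e2 : 0 ≤ 2 * (N : ℝ) ^ 2 * (H * E - 1) := mul_nonneg (by positivity) (by linarith)
    linarith
  have h3 : S ^ 2 ≤ (N * B') ^ 2 := by
    have h4 := le_of_mul_le_mul_left h2 hHpos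
    refine h4.trans ?_
    rw [mul_pow]
    exact mul_le_mul_of_nonneg_left hB' (by positivity)
  exact le_of_sq_le_sq h3 (mul_nonneg hN0 hB'0)

theorem kus_iter_aux (r : ℕ) : ∀ {g : ℕ → ℝ} {X N H : ℕ} {Y E : ℝ}, X ≤ N → 1 ≤ Y → 0 < E → E ≤ 1 →
    1 ≤ H → H ≤ N → 1 ≤ Y * E → 1 ≤ H * E →
    (∀ qs : List ℕ, qs.length = r → (∀ q ∈ qs, 1 ≤ q ∧ q < H ∧ (H : ℝ) ≤ q * Y) →
      ∀ X' : ℕ, X' + qs.sum ≤ X → ‖∑ i ∈ range X', ee (DL qs g i)‖ ≤ N * E) →
    ‖∑ i ∈ range X, ee (g i)‖ ≤ N * (6 * E ^ ((1 : ℝ) / 2 ^ r)) := by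
  induction r with
  | zero =>
    intro g X N H Y E hX hY hE hE1 hH hHN hYE hHE hb
    have h := hb [] rfl (by simp) X (by simp)
    simp only [DL] at h
    refine h.trans ?_
    have : (0 : ℝ) ≤ N := Nat.cast_nonneg N
    norm_num
    nlinarith
  | succ r ih =>
    intro g X N H Y E hX hY hE hE1 hH hHN hYE hHE hb
    set x : ℝ := E ^ ((1 : ℝ) / 2 ^ (r + 1)) with hx
    have hx0 : 0 < x := Real.rpow_pos_of_pos hE _
    have hx2 : E ^ ((1 : ℝ) / 2 ^ r) = x ^ 2 := by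
      rw [hx, ← Real.rpow_two, ← Real.rpow_mul hE.le]
      congr 1
      rw [pow_succ]
      field_simp
    have hEx : E ≤ x ^ 2 := by
      rw [← hx2]
      calc E = E ^ (1 : ℝ) := (Real.rpow_one E).symm
        _ ≤ E ^ ((1 : ℝ) / 2 ^ r) := by
          apply Real.rpow_le_rpow_of_exponent_ge hE hE1
          rw [div_le_one (by positivity)]
          exact one_le_pow₀ (by norm_num)
    apply kus_step (B := 6 * x ^ 2) hX hY hH hHN hYE hHE (by positivity) (by positivity)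
    · nlinarith
    intro q hq1 hq2 hq3
    by_cases hqX : q ≤ X
    · rw [← hx2]
      apply ih (H := H) (Y := Y) ((Nat.sub_le _ _).trans hX) hY hE hE1 hH hHN hYE hHE
      intro qs hqs hq' X' hX'
      have := hb (q :: qs) (by simp [hqs]) (by
        intro p hp
        rw [List.mem_cons] at hp
        rcases hp with rfl | hp
        · exact ⟨hq1, hq2, hq3⟩
        · exact hq' p hp) X' (by
        rw [List.sum_cons]
        omega)
      exact this
    · have : X - q = 0 := by omega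
      rw [this]
      simp
      positivity

/-- Iterated van der Corput inequality: small shifts are estimated trivially.  One step: see
`Pool/Agent/RPS/Vdc4.lean`, `vdc4_step`. -/
theorem vdc_iter (r : ℕ) {g : ℕ → ℝ} {N H : ℕ} {Y E : ℝ} (hY : 1 ≤ Y) (hE : 0 < E) (hE1 : E ≤ 1)
    (hH : 1 ≤ H) (hHN : H ≤ N) (hYE : 1 ≤ Y * E) (hHE : 1 ≤ H * E)
    (hb : ∀ qs : List ℕ, qs.length = r → (∀ q ∈ qs, 1 ≤ q ∧ q < H ∧ (H : ℝ) ≤ q * Y) →
      ∀ X : ℕ, X + qs.sum ≤ N → ‖∑ i ∈ range X, ee (DL qs g i)‖ ≤ N * E) :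
    ‖∑ i ∈ range N, ee (g i)‖ ≤ 16 * N * E ^ ((1 : ℝ) / 2 ^ r) := by
  have h := kus_iter_aux r le_rfl hY hE hE1 hH hHN hYE hHE hb
  refine h.trans ?_
  have h1 : 0 ≤ (N : ℝ) * E ^ ((1 : ℝ) / 2 ^ r) :=
    mul_nonneg (Nat.cast_nonneg N) (Real.rpow_nonneg hE.le _)
  nlinarith

end Pool.Agent.MRS
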