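import Pool.Agent.MRS.Coef
import Pool.Agent.MRS.LevFacts

set_option autoImplicit false

/-! Module LOC: local estimates.  Port of `Pool/Agent/MR/ALoc.lean`.
`loc_one`: `mvt_prim` for `R`, `M = N/e^{v/H}`, `K ≤ M`.
`loc_two`: multiply by `(|Q'| e^{-(1-α')u/H'})^{2l} ≥ 1`, `pow_mvt` with `y = e^{u/H'}`, `z = e^{(u+1)/H'}`, `b = 3M`; `z^l b ≥ 3N ≥ K`.
`meas_large`: `pow_mvt` with `B = {1}`, order `2K`, weights `≥ 1/2` on `|k| ≤ K`. -/

open Finset

namespace Pool.Agent.MRS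

/-- comparison of partial weighted sums -/
theorem loc_compare (K : ℕ) (g G : ℤ → ℂ) (U : Finset ℤ) (hU : U ⊆ Icc (-(K : ℤ)) (K : ℤ))
    (C : ℝ) (hC : 0 ≤ C) (h : ∀ k ∈ U, ‖g k‖ ^ 2 ≤ C * ‖G k‖ ^ 2) :
    ∑ k ∈ U, fw K k * ‖g k‖ ^ 2 ≤ C * ms K (fun k => ‖G k‖ ^ 2) := by
  unfold ms
  rw [Finset.mul_sum]
  calc ∑ k ∈ U, fw K k * ‖g k‖ ^ 2 ≤ ∑ k ∈ U, C * (fw K k * ‖G k‖ ^ 2) := by
        apply Finset.sum_le_sum
        intro k hk
        have := mul_le_mul_of_nonneg_left (h k hk) (fw_nonneg (hU hk))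
        linarith
    _ ≤ _ := by
        apply Finset.sum_le_sum_of_subset_of_nonneg hU
        intro k hk _
        have := fw_nonneg hk
        positivity

theorem loc_exp_three {H : ℕ} (hH : 1 ≤ H) (x : ℝ) :
    Real.exp ((x + 1) / H) ≤ 3 * Real.exp (x / H) := by
  have hH0 : (0 : ℝ) < H := by exact_mod_cast hH
  have h1 : (x + 1) / H = x / H + 1 / H := by ring
  rw [h1, Real.exp_add, mul_comm]
  apply mul_le_mul_of_nonneg_right _ (Real.exp_pos _).le
  have h2 : 1 / (H : ℝ) ≤ 1 := by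
    rw [div_le_one hH0]
    exact_mod_cast hH
  calc Real.exp (1 / H) ≤ Real.exp 1 := Real.exp_le_exp.mpr h2
    _ ≤ 3 := by have := Real.exp_one_lt_d9; linarith

theorem loc_pan {M : ℝ} (hM : 0 ≤ M) : ((pan M (3 * M)).card : ℝ) ≤ 12 * M := by
  have h1 : ((pan M (3 * M)).card : ℝ) ≤ ((ann M (3 * M)).card : ℝ) := by
    exact_mod_cast Finset.card_le_card (pan_subset _ _)
  have h2 := card_ann_le M (b := 3 * M) (by linarith)
  linarith

theorem loc_one : ∃ C : ℝ, 0 < C ∧ ∀ f : ℕ → ℂ, CM f → ∀ (S : Finset GI) (H v : ℕ), 1 ≤ H →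
    ∀ (N α : ℝ) (K : ℕ), (K : ℝ) * Real.exp (v / H) ≤ N → Real.exp (v / H) ≤ N →
    ∀ U : Finset ℤ, U ⊆ Icc (-(K : ℤ)) (K : ℤ) →
    (∀ k ∈ U, ‖sp S (gf f) k‖ ≤ Real.exp ((1 - α) * (v / H))) →
    ∑ k ∈ U, fw K k * ‖sp S (gf f) k *
      sp (pan (N / Real.exp (v / H)) (3 * (N / Real.exp (v / H)))) (gf f) k‖ ^ 2
      ≤ C * N ^ 2 * Real.exp (-2 * α * (v / H)) := by
  obtain ⟨C, hC, hmvt⟩ := mvt_prim
  refine ⟨48 * C, by positivity, ?_⟩
  intro f hf S H v hH N α K hKN hEN U hU hb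
  set x : ℝ := (v : ℝ) / H with hx
  set M : ℝ := N / Real.exp x with hM
  have hE : 0 < Real.exp x := Real.exp_pos _
  have hKM : (K : ℝ) ≤ M := by
    rw [hM, le_div_iff₀ hE]
    exact hKN
  have hM1 : 1 ≤ M := by
    rw [hM, le_div_iff₀ hE, one_mul]
    exact hEN
  have h1 := loc_compare K (fun k => sp S (gf f) k * sp (pan M (3 * M)) (gf f) k)
    (fun k => sp (pan M (3 * M)) (gf f) k) U hU (Real.exp (2 * ((1 - α) * x)))
    (Real.exp_pos _).le (fun k hk => by
      rw [norm_mul, mul_pow]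
      apply mul_le_mul_of_nonneg_right _ (by positivity)
      calc ‖sp S (gf f) k‖ ^ 2 ≤ (Real.exp ((1 - α) * x)) ^ 2 :=
            pow_le_pow_left₀ (norm_nonneg _) (hb k hk) 2
        _ = Real.exp (2 * ((1 - α) * x)) := by
            rw [← Real.exp_nat_mul]
            norm_num)
  refine h1.trans ?_
  have h2 := hmvt K (3 * M) (by linarith) (pan M (3 * M)) (gf f) (by
    intro z hz
    rw [mem_pan] at hz
    exact ⟨hz.1, hz.2.1, hz.2.2.2⟩)
  have h3 : ∑ z ∈ pan M (3 * M), ‖gf f z‖ ^ 2 ≤ 12 * M := by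
    refine le_trans ?_ (loc_pan (by linarith : 0 ≤ M))
    calc ∑ z ∈ pan M (3 * M), ‖gf f z‖ ^ 2 ≤ ∑ z ∈ pan M (3 * M), (1 : ℝ) := by
          apply Finset.sum_le_sum
          intro z _
          exact pow_le_one₀ (norm_nonneg _) (norm_gf_le hf z)
      _ = _ := by rw [Finset.sum_const, nsmul_eq_mul, mul_one]
  have h4 : M ^ 2 = N ^ 2 * Real.exp (-(2 * x)) := by
    rw [hM, div_pow, ← Real.exp_nat_mul, Real.exp_neg]
    push_cast
    rfl
  have h5 : ms K (fun k => ‖sp (pan M (3 * M)) (gf f) k‖ ^ 2) ≤ 48 * C * M ^ 2 := by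
    refine h2.trans ?_
    calc C * (K + 3 * M) * ∑ z ∈ pan M (3 * M), ‖gf f z‖ ^ 2
        ≤ C * (K + 3 * M) * (12 * M) := mul_le_mul_of_nonneg_left h3 (by positivity)
      _ ≤ C * (4 * M) * (12 * M) := by
          apply mul_le_mul_of_nonneg_right _ (by positivity)
          apply mul_le_mul_of_nonneg_left _ hC.le
          linarith
      _ = 48 * C * M ^ 2 := by ring
  calc Real.exp (2 * ((1 - α) * x)) * ms K (fun k => ‖sp (pan M (3 * M)) (gf f) k‖ ^ 2)
      ≤ Real.exp (2 * ((1 - α) * x)) * (48 * C * M ^ 2) :=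
        mul_le_mul_of_nonneg_left h5 (Real.exp_pos _).le
    _ = 48 * C * N ^ 2 * (Real.exp (2 * ((1 - α) * x)) * Real.exp (-(2 * x))) := by
        rw [h4]; ring
    _ = 48 * C * N ^ 2 * Real.exp (-2 * α * x) := by
        rw [← Real.exp_add]
        congr 2
        ring

theorem loc_two : ∃ C : ℝ, 1 ≤ C ∧ ∀ f : ℕ → ℂ, CM f → ∀ (S S' : Finset GI), (∀ p ∈ S', PP p) →
    ∀ (H H' v u l : ℕ), 1 ≤ H → 1 ≤ H' → rs S' ≤ 1 →
    (∀ p ∈ S', Real.exp (u / H') ≤ nm p ∧ (nm p : ℝ) ≤ Real.exp ((u + 1) / H')) →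
    (v : ℝ) / H ≤ l * (u / H') →
    ∀ (N α α' : ℝ) (K : ℕ), (K : ℝ) ≤ N → Real.exp (v / H) ≤ N →
    ∀ U : Finset ℤ, U ⊆ Icc (-(K : ℤ)) (K : ℤ) →
    (∀ k ∈ U, ‖sp S (gf f) k‖ ≤ Real.exp ((1 - α) * (v / H))) →
    (∀ k ∈ U, Real.exp ((1 - α') * (u / H')) ≤ ‖sp S' (gf f) k‖) →
    ∑ k ∈ U, fw K k * ‖sp S (gf f) k *
      sp (pan (N / Real.exp (v / H)) (3 * (N / Real.exp (v / H)))) (gf f) k‖ ^ 2
      ≤ C ^ (l + 1) * N ^ 2 * ((l : ℝ) + 1) ^ l *
        Real.exp (-2 * α * (v / H) + 2 * α' * (l * (u / H')) + 2 * l / H') := by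
  obtain ⟨C, hC, hpow⟩ := pow_mvt
  refine ⟨18 * C, by linarith, ?_⟩
  intro f hf S S' hS' H H' v u l hH hH' hrs hz hl N α α' K hKN hEN U hU hb hb'
  have hH0 : (0 : ℝ) < H' := by exact_mod_cast hH'
  set x : ℝ := (v : ℝ) / H with hx
  set y : ℝ := (u : ℝ) / H' with hy
  set M : ℝ := N / Real.exp x with hM
  have hE : 0 < Real.exp x := Real.exp_pos _
  have hM1 : 1 ≤ M := by
    rw [hM, le_div_iff₀ hE, one_mul]
    exact hEN
  have hM0 : 0 < M := by linarith
  have hy0 : 0 ≤ y := by rw [hy]; positivity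
  set z : ℝ := Real.exp ((u + 1) / H') with hzdef
  have hyz : ((u : ℝ) + 1) / H' = y + 1 / H' := by rw [hy]; ring
  have hzl : z ^ l = Real.exp (l * (y + 1 / H')) := by
    rw [hzdef, hyz, ← Real.exp_nat_mul]
  have hzl0 : 0 < z ^ l := by rw [hzl]; exact Real.exp_pos _
  have hzlE : Real.exp x ≤ z ^ l := by
    rw [hzl]
    apply Real.exp_le_exp.mpr
    have : (0 : ℝ) ≤ l * (1 / H') := by positivity
    linarith
  have hKY : (K : ℝ) ≤ z ^ l * (3 * M) := by
    have h1 : Real.exp x * M = N := by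
      rw [hM]; field_simp
    have h2 : Real.exp x * M ≤ z ^ l * M := mul_le_mul_of_nonneg_right hzlE hM0.le
    have h3 : 0 ≤ z ^ l * M := by positivity
    linarith
  have h2 := hpow f hf S' hS' (Real.exp y) z (Real.one_le_exp hy0) (by
      rw [hzdef, hyz]
      apply Real.exp_le_exp.mpr
      have : (0 : ℝ) ≤ 1 / H' := by positivity
      linarith) (by
      rw [hzdef, hy]
      exact loc_exp_three hH' (u : ℝ)) hz hrs (pan M (3 * M)) (3 * M) (by linarith) (by
      intro m hm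
      rw [mem_pan] at hm
      exact ⟨hm.1, hm.2.1, hm.2.2.2⟩) l K
  set D : ℝ := Real.exp (2 * ((1 - α) * x) - 2 * l * ((1 - α') * y)) with hD
  have h1 := loc_compare K (fun k => sp S (gf f) k * sp (pan M (3 * M)) (gf f) k)
    (fun k => (sp S' (gf f) k) ^ l * sp (pan M (3 * M)) (gf f) k) U hU D
    (Real.exp_pos _).le (fun t ht => by
      rw [norm_mul, mul_pow, norm_mul, mul_pow, ← mul_assoc]
      apply mul_le_mul_of_nonneg_right _ (by positivity)
      have g1 : ‖sp S (gf f) t‖ ^ 2 ≤ Real.exp (2 * ((1 - α) * x)) := by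
        calc ‖sp S (gf f) t‖ ^ 2 ≤ (Real.exp ((1 - α) * x)) ^ 2 :=
              pow_le_pow_left₀ (norm_nonneg _) (hb t ht) 2
          _ = Real.exp (2 * ((1 - α) * x)) := by
              rw [← Real.exp_nat_mul]
              norm_num
      have g2 : Real.exp (2 * l * ((1 - α') * y)) ≤ ‖(sp S' (gf f) t) ^ l‖ ^ 2 := by
        rw [norm_pow, ← pow_mul, mul_comm l 2]
        calc Real.exp (2 * l * ((1 - α') * y)) = (Real.exp ((1 - α') * y)) ^ (2 * l) := by
              rw [← Real.exp_nat_mul]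
              push_cast
              rfl
          _ ≤ _ := pow_le_pow_left₀ (Real.exp_pos _).le (hb' t ht) _
      calc ‖sp S (gf f) t‖ ^ 2 ≤ Real.exp (2 * ((1 - α) * x)) := g1
        _ = D * Real.exp (2 * l * ((1 - α') * y)) := by
            rw [hD, ← Real.exp_add]
            congr 1
            ring
        _ ≤ D * ‖(sp S' (gf f) t) ^ l‖ ^ 2 := mul_le_mul_of_nonneg_left g2 (Real.exp_pos _).le)
  refine h1.trans ?_
  have h3 : M ^ 2 = N ^ 2 * Real.exp (-(2 * x)) := by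
    rw [hM, div_pow, ← Real.exp_nat_mul, Real.exp_neg]
    push_cast
    rfl
  have h4 : (z ^ l) ^ 2 = Real.exp (2 * (l * (y + 1 / H'))) := by
    rw [hzl, ← Real.exp_nat_mul]
    push_cast
    rfl
  have hl0 : (0 : ℝ) ≤ ((l : ℝ) + 1) ^ l := by positivity
  have hC0 : 0 < C := by linarith
  have hCl : 0 < C ^ (l + 1) := by positivity
  have h18 : (18 : ℝ) ≤ 18 ^ (l + 1) := by
    calc (18 : ℝ) = 18 ^ 1 := by norm_num
      _ ≤ 18 ^ (l + 1) := pow_le_pow_right₀ (by norm_num) (by omega)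
  calc D * ms K (fun k => ‖(sp S' (gf f) k) ^ l * sp (pan M (3 * M)) (gf f) k‖ ^ 2)
      ≤ D * (C ^ (l + 1) * ((l : ℝ) + 1) ^ l * (K + z ^ l * (3 * M)) * (z ^ l * (3 * M))) :=
        mul_le_mul_of_nonneg_left h2 (Real.exp_pos _).le
    _ ≤ D * (C ^ (l + 1) * ((l : ℝ) + 1) ^ l * (2 * (z ^ l * (3 * M))) * (z ^ l * (3 * M))) := by
        apply mul_le_mul_of_nonneg_left _ (Real.exp_pos _).le
        apply mul_le_mul_of_nonneg_right _ (by positivity)
        apply mul_le_mul_of_nonneg_left _ (by positivity)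
        linarith
    _ = 18 * (C ^ (l + 1) * N ^ 2 * ((l : ℝ) + 1) ^ l * (D * (Real.exp (2 * (l * (y + 1 / H'))) *
          Real.exp (-(2 * x))))) := by
        have : (2 * (z ^ l * (3 * M))) * (z ^ l * (3 * M)) = 18 * ((z ^ l) ^ 2 * M ^ 2) := by ring
        rw [mul_assoc (C ^ (l + 1) * ((l : ℝ) + 1) ^ l), this, h3, h4]
        ring
    _ = 18 * (C ^ (l + 1) * N ^ 2 * ((l : ℝ) + 1) ^ l *
          Real.exp (-2 * α * x + 2 * α' * (l * y) + 2 * l / H')) := by
        rw [hD, ← Real.exp_add, ← Real.exp_add]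
        congr 3
        ring
    _ ≤ 18 ^ (l + 1) * (C ^ (l + 1) * N ^ 2 * ((l : ℝ) + 1) ^ l *
          Real.exp (-2 * α * x + 2 * α' * (l * y) + 2 * l / H')) := by
        apply mul_le_mul_of_nonneg_right h18
        positivity
    _ = _ := by rw [mul_pow]; ring

theorem meas_large : ∃ C : ℝ, 1 ≤ C ∧ ∀ f : ℕ → ℂ, CM f → ∀ S : Finset GI, (∀ p ∈ S, PP p) →
    ∀ (H v l : ℕ), 1 ≤ H → rs S ≤ 1 →
    (∀ p ∈ S, Real.exp (v / H) ≤ nm p ∧ (nm p : ℝ) ≤ Real.exp ((v + 1) / H)) →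
    ∀ (α : ℝ) (K : ℕ), (K : ℝ) ≤ Real.exp (l * (v / H)) →
    open Classical in
    (((Icc (-(K : ℤ)) (K : ℤ)).filter
      (fun k => Real.exp ((1 - α) * (v / H)) < ‖sp S (gf f) k‖)).card : ℝ)
      ≤ C ^ (l + 1) * ((l : ℝ) + 1) ^ l * Real.exp (2 * α * (l * (v / H)) + 2 * l / H) := by
  classical
  obtain ⟨C, hC, hpow⟩ := pow_mvt
  refine ⟨6 * C, by linarith, ?_⟩
  intro f hf S hS H v l hH hrs hz α K hK
  have hH0 : (0 : ℝ) < H := by exact_mod_cast hH
  have hC0 : 0 < C := by linarith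
  set x : ℝ := (v : ℝ) / H with hx
  have hx0 : 0 ≤ x := by rw [hx]; positivity
  have hRHS : 0 ≤ (6 * C) ^ (l + 1) * ((l : ℝ) + 1) ^ l *
      Real.exp (2 * α * (l * x) + 2 * l / H) := by positivity
  set A : Finset ℤ := (Icc (-(K : ℤ)) (K : ℤ)).filter
      (fun k => Real.exp ((1 - α) * x) < ‖sp S (gf f) k‖) with hA
  have h11 : f 1 = f 1 * f 1 := by
    have := hf.mul 1 1 one_pos one_pos
    simpa using this
  by_cases hf1 : f 1 = 0
  · have hzero : ∀ t, sp S (gf f) t = 0 := by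
      intro t
      unfold sp
      apply Finset.sum_eq_zero
      intro p hp
      have h0 : 0 < nm p := nm_pos (Od_ne (hS p hp).1)
      have h1 := hf.mul (nm p) 1 h0 one_pos
      rw [mul_one, hf1, mul_zero] at h1
      unfold gf
      rw [h1, zero_mul]
    have hAe : A = ∅ := by
      rw [hA, Finset.filter_eq_empty_iff]
      intro t _
      rw [hzero t, norm_zero]
      exact not_lt.mpr (Real.exp_pos _).le
    rw [hAe]
    simpa using hRHS
  · have hf1' : f 1 = 1 := by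
      have : f 1 * (f 1 - 1) = 0 := by
        rw [mul_sub, mul_one, ← h11, sub_self]
      rcases mul_eq_zero.mp this with h | h
      · exact absurd h hf1
      · exact sub_eq_zero.mp h
    have hsp1 : ∀ t, sp {1} (gf f) t = 1 := by
      intro t
      unfold sp gf
      rw [Finset.sum_singleton, nm_one, hf1', uu_one]
      simp
    set z : ℝ := Real.exp ((v + 1) / H) with hzdef
    have hyz : ((v : ℝ) + 1) / H = x + 1 / H := by rw [hx]; ring
    have hzl : z ^ l = Real.exp (l * (x + 1 / H)) := by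
      rw [hzdef, hyz, ← Real.exp_nat_mul]
    have hKY : (K : ℝ) ≤ z ^ l := by
      rw [hzl]
      refine hK.trans (Real.exp_le_exp.mpr ?_)
      have : (0 : ℝ) ≤ l * (1 / H) := by positivity
      linarith
    have h2 := hpow f hf S hS (Real.exp x) z (Real.one_le_exp hx0) (by
        rw [hzdef, hyz]
        apply Real.exp_le_exp.mpr
        have : (0 : ℝ) ≤ 1 / H := by positivity
        linarith) (by
        rw [hzdef, hx]
        exact loc_exp_three hH (v : ℝ)) hz hrs {1} 1 le_rfl (by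
        intro m hm
        rw [mem_singleton] at hm
        subst hm
        refine ⟨Od_one, ?_, ?_⟩
        · unfold Pr
          rfl
        · rw [nm_one]; norm_num) l (2 * K)
    simp_rw [hsp1, mul_one] at h2
    have h3 : (A.card : ℝ) * (1 / 2 * Real.exp (2 * l * ((1 - α) * x))) ≤
        ms (2 * K) (fun k => ‖(sp S (gf f) k) ^ l‖ ^ 2) := by
      unfold ms
      have hsub : A ⊆ Icc (-((2 * K : ℕ) : ℤ)) ((2 * K : ℕ) : ℤ) := by
        intro k hk
        rw [hA, Finset.mem_filter, Finset.mem_Icc] at hk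
        rw [Finset.mem_Icc]
        push_cast
        omega
      calc (A.card : ℝ) * (1 / 2 * Real.exp (2 * l * ((1 - α) * x)))
          = ∑ k ∈ A, (1 / 2 * Real.exp (2 * l * ((1 - α) * x))) := by
            rw [Finset.sum_const, nsmul_eq_mul]
        _ ≤ ∑ k ∈ A, fw (2 * K) k * ‖(sp S (gf f) k) ^ l‖ ^ 2 := by
            apply Finset.sum_le_sum
            intro k hk
            rw [hA, Finset.mem_filter] at hk
            have g2 : Real.exp (2 * l * ((1 - α) * x)) ≤ ‖(sp S (gf f) k) ^ l‖ ^ 2 := by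
              rw [norm_pow, ← pow_mul, mul_comm l 2]
              calc Real.exp (2 * l * ((1 - α) * x)) = (Real.exp ((1 - α) * x)) ^ (2 * l) := by
                    rw [← Real.exp_nat_mul]
                    push_cast
                    rfl
                _ ≤ _ := pow_le_pow_left₀ (Real.exp_pos _).le hk.2.le _
            exact mul_le_mul (fw_half hk.1) g2 (Real.exp_pos _).le
              ((by norm_num : (0 : ℝ) ≤ 1 / 2).trans (fw_half hk.1))
        _ ≤ _ := by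
            apply Finset.sum_le_sum_of_subset_of_nonneg hsub
            intro k hk _
            have := fw_nonneg hk
            positivity
    have h4 : (z ^ l) ^ 2 = Real.exp (2 * (l * (x + 1 / H))) := by
      rw [hzl, ← Real.exp_nat_mul]
      push_cast
      rfl
    have h5 : ms (2 * K) (fun k => ‖(sp S (gf f) k) ^ l‖ ^ 2) ≤
        3 * (C ^ (l + 1) * ((l : ℝ) + 1) ^ l * Real.exp (2 * (l * (x + 1 / H)))) := by
      refine h2.trans ?_
      rw [← h4]
      have hzl0 : 0 < z ^ l := by rw [hzl]; exact Real.exp_pos _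
      calc C ^ (l + 1) * ((l : ℝ) + 1) ^ l * (((2 * K : ℕ) : ℝ) + z ^ l) * z ^ l
          ≤ C ^ (l + 1) * ((l : ℝ) + 1) ^ l * (3 * z ^ l) * z ^ l := by
            apply mul_le_mul_of_nonneg_right _ hzl0.le
            apply mul_le_mul_of_nonneg_left _ (by positivity)
            push_cast
            linarith
        _ = _ := by ring
    have h6 : (A.card : ℝ) ≤ 6 * (C ^ (l + 1) * ((l : ℝ) + 1) ^ l *
        Real.exp (2 * α * (l * x) + 2 * l / H)) := by
      have h7 := h3.trans h5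
      have hE := Real.exp_pos (2 * l * ((1 - α) * x))
      have h8 : Real.exp (2 * (l * (x + 1 / H))) =
          Real.exp (2 * l * ((1 - α) * x)) * Real.exp (2 * α * (l * x) + 2 * l / H) := by
        rw [← Real.exp_add]
        congr 1
        ring
      rw [h8] at h7
      have h9 : (A.card : ℝ) * Real.exp (2 * l * ((1 - α) * x)) ≤
          (6 * (C ^ (l + 1) * ((l : ℝ) + 1) ^ l * Real.exp (2 * α * (l * x) + 2 * l / H))) *
            Real.exp (2 * l * ((1 - α) * x)) := by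
        linarith
      exact le_of_mul_le_mul_right h9 hE
    have h6' : (6 : ℝ) ≤ 6 ^ (l + 1) := by
      calc (6 : ℝ) = 6 ^ 1 := by norm_num
        _ ≤ 6 ^ (l + 1) := pow_le_pow_right₀ (by norm_num) (by omega)
    calc (A.card : ℝ) ≤ 6 * (C ^ (l + 1) * ((l : ℝ) + 1) ^ l *
          Real.exp (2 * α * (l * x) + 2 * l / H)) := h6
      _ ≤ 6 ^ (l + 1) * (C ^ (l + 1) * ((l : ℝ) + 1) ^ l *
          Real.exp (2 * α * (l * x) + 2 * l / H)) := by
          apply mul_le_mul_of_nonneg_right h6'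
          positivity
      _ = _ := by rw [mul_pow]; ring

end Pool.Agent.MRS
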