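import Pool.Agent.MRS.SelB
import Pool.Agent.MRS.St

set_option autoImplicit false

/-! Module MAJ: Selberg majorant.  `D = Z^e`, `e` small; `ν(z) = (∑_{T ⊆ PI D, ∏T ∣ z} l_T)^2` for `z` in the class;
`∑_z ν(z) u(z)^κ = ∑_{T,T'} l_T l_{T'} ∑_{∏(T∪T') ∣ z} u(z)^κ` (`sum_mult`), `κ = 0`: `card_ann`, main term `(3π/4) Z / SS`, `κ ≠ 0`: `st_all (2C)` as
`Z/N ≥ Z^{1/2}`; number of pairs `(T,T')` at most `16 D^2`, `|l_T| ≤ D`.  A prime `p ∈ PP` with `N(p) ≥ Z > D` has only `T = ∅`. -/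

open Finset

namespace Pool.Agent.MRS

theorem MAJ_large {B e R : ℝ} (hB : 0 ≤ B) (he : 0 < e) (h : B ^ (1 / e) ≤ R) : B ≤ R ^ e := by
  have h1 : (B ^ (1 / e)) ^ e ≤ R ^ e := Real.rpow_le_rpow (Real.rpow_nonneg hB _) h he.le
  rwa [← Real.rpow_mul hB, one_div_mul_cancel he.ne', Real.rpow_one] at h1

open Classical in
/-- the sieve sum -/
noncomputable def MAJ_s (D : ℝ) (l : Finset GI → ℝ) (z : GI) : ℝ :=
  ∑ T ∈ (PI D).powerset, if (∏ p ∈ T, p) ∣ z then l T else 0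

open Classical in
theorem MAJ_pair (D Y : ℝ) (κ : ℤ) {T T' : Finset GI} (hT : T ⊆ PI D) (hT' : T' ⊆ PI D) :
    ∑ z ∈ ann 0 Y, (if (∏ p ∈ T, p) ∣ z ∧ (∏ p ∈ T', p) ∣ z then uu z ^ κ else 0) =
      uu (∏ p ∈ T ∪ T', p) ^ κ * ∑ w ∈ ann 0 (Y / nm (∏ p ∈ T ∪ T', p)), uu w ^ κ := by
  have hU : T ∪ T' ⊆ PI D := union_subset hT hT'
  have h1 := sum_mult 0 Y (∏ p ∈ T ∪ T', p) (Od_prod hU) κ
  rw [zero_div] at h1
  rw [← h1, ← sum_filter]
  apply sum_congr _ (fun _ _ => rfl)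
  ext z
  rw [mem_filter, mem_filter, prod_dvd_iff hT, prod_dvd_iff hT', prod_dvd_iff hU]
  constructor
  · rintro ⟨h2, h3, h4⟩
    refine ⟨h2, fun p hp => ?_⟩
    rcases mem_union.1 hp with h | h
    · exact h3 p h
    · exact h4 p h
  · rintro ⟨h2, h3⟩
    exact ⟨h2, fun p hp => h3 p (mem_union_left _ hp), fun p hp => h3 p (mem_union_right _ hp)⟩

theorem MAJ_expand (D Y : ℝ) (κ : ℤ) (l : Finset GI → ℝ) :
    ∑ z ∈ ann 0 Y, (((MAJ_s D l z) ^ 2 : ℝ) : ℂ) * uu z ^ κ =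
      ∑ T ∈ (PI D).powerset, ∑ T' ∈ (PI D).powerset, ((l T * l T' : ℝ) : ℂ) *
        (uu (∏ p ∈ T ∪ T', p) ^ κ * ∑ w ∈ ann 0 (Y / nm (∏ p ∈ T ∪ T', p)), uu w ^ κ) := by
  classical
  have h1 : ∀ z : GI, (((MAJ_s D l z) ^ 2 : ℝ) : ℂ) * uu z ^ κ =
      ∑ T ∈ (PI D).powerset, ∑ T' ∈ (PI D).powerset, ((l T * l T' : ℝ) : ℂ) *
        (if (∏ p ∈ T, p) ∣ z ∧ (∏ p ∈ T', p) ∣ z then uu z ^ κ else 0) := by
    intro z
    unfold MAJ_s
    rw [sq, sum_mul_sum]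
    push_cast
    rw [sum_mul]
    apply sum_congr rfl
    intro T _
    rw [sum_mul]
    apply sum_congr rfl
    intro T' _
    by_cases h2 : (∏ p ∈ T, p) ∣ z
    · by_cases h3 : (∏ p ∈ T', p) ∣ z
      · simp [h2, h3]
      · simp [h3]
    · simp [h2]
  simp_rw [h1]
  rw [sum_comm]
  apply sum_congr rfl
  intro T hT
  rw [sum_comm]
  apply sum_congr rfl
  intro T' hT'
  rw [← mul_sum, ← MAJ_pair D Y κ (mem_powerset.1 hT) (mem_powerset.1 hT')]

/-- the sum of the absolute values of the weights -/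
theorem MAJ_sum_abs (D : ℝ) (hD : 1 ≤ D) (l : Finset GI → ℝ) (h1 : ∀ T, |l T| ≤ D)
    (h2 : ∀ T, l T ≠ 0 → T ⊆ PI D ∧ ∏ p ∈ T, (nm p : ℝ) ≤ D) :
    ∑ T ∈ (PI D).powerset, |l T| ≤ 4 * D ^ 2 := by
  classical
  have hcard := card_adm D hD
  have h3 : ∑ T ∈ (PI D).powerset, |l T| =
      ∑ T ∈ (PI D).powerset.filter (fun T => ∏ p ∈ T, (nm p : ℝ) ≤ D), |l T| := by
    rw [sum_filter]
    apply sum_congr rfl
    intro T _
    split_ifs with h
    · rfl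
    · by_contra hne
      exact h (h2 T (fun h0 => hne (by rw [h0, abs_zero]))).2
  rw [h3]
  calc ∑ T ∈ (PI D).powerset.filter (fun T => ∏ p ∈ T, (nm p : ℝ) ≤ D), |l T|
      ≤ ∑ T ∈ (PI D).powerset.filter (fun T => ∏ p ∈ T, (nm p : ℝ) ≤ D), D :=
        sum_le_sum fun T _ => h1 T
    _ = (((PI D).powerset.filter (fun T => ∏ p ∈ T, (nm p : ℝ) ≤ D)).card : ℝ) * D := by
        rw [sum_const, nsmul_eq_mul]
    _ ≤ (4 * D) * D := by
        apply mul_le_mul_of_nonneg_right _ (by linarith)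
        convert hcard
    _ = 4 * D ^ 2 := by ring

theorem MAJ_bilin (D : ℝ) (hD : 1 ≤ D) (l : Finset GI → ℝ) (h1 : ∀ T, |l T| ≤ D)
    (h2 : ∀ T, l T ≠ 0 → T ⊆ PI D ∧ ∏ p ∈ T, (nm p : ℝ) ≤ D) (F : Finset GI → Finset GI → ℂ)
    (b : ℝ) (hb : 0 ≤ b) (hF : ∀ T T', T ⊆ PI D → ∏ p ∈ T, (nm p : ℝ) ≤ D → T' ⊆ PI D →
      ∏ p ∈ T', (nm p : ℝ) ≤ D → ‖F T T'‖ ≤ b) :
    ‖∑ T ∈ (PI D).powerset, ∑ T' ∈ (PI D).powerset, ((l T * l T' : ℝ) : ℂ) * F T T'‖ ≤
      16 * D ^ 4 * b := by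
  have h3 : ∀ T T', ‖((l T * l T' : ℝ) : ℂ) * F T T'‖ ≤ |l T| * |l T'| * b := by
    intro T T'
    rw [norm_mul, Complex.norm_real, Real.norm_eq_abs, abs_mul]
    by_cases hT : l T = 0
    · simp [hT]
    · by_cases hT' : l T' = 0
      · simp [hT']
      · have := hF T T' (h2 T hT).1 (h2 T hT).2 (h2 T' hT').1 (h2 T' hT').2
        gcongr
  have hs := MAJ_sum_abs D hD l h1 h2
  have hs0 : 0 ≤ ∑ T ∈ (PI D).powerset, |l T| := sum_nonneg fun T _ => abs_nonneg _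
  calc ‖∑ T ∈ (PI D).powerset, ∑ T' ∈ (PI D).powerset, ((l T * l T' : ℝ) : ℂ) * F T T'‖
      ≤ ∑ T ∈ (PI D).powerset, ∑ T' ∈ (PI D).powerset, |l T| * |l T'| * b := by
        refine (norm_sum_le _ _).trans (sum_le_sum fun T _ => ?_)
        exact (norm_sum_le _ _).trans (sum_le_sum fun T' _ => h3 T T')
    _ = (∑ T ∈ (PI D).powerset, |l T|) * (∑ T ∈ (PI D).powerset, |l T|) * b := by
        rw [sum_mul_sum, sum_mul]
        apply sum_congr rfl
        intro T _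
        rw [sum_mul]
    _ ≤ (4 * D ^ 2) * (4 * D ^ 2) * b := by gcongr
    _ = 16 * D ^ 4 * b := by ring

theorem MAJ_union (D : ℝ) {T T' : Finset GI} (hT : T ⊆ PI D)
    (hTn : ∏ p ∈ T, (nm p : ℝ) ≤ D) (hT' : T' ⊆ PI D) (hTn' : ∏ p ∈ T', (nm p : ℝ) ≤ D) :
    1 ≤ (nm (∏ p ∈ T ∪ T', p) : ℝ) ∧ (nm (∏ p ∈ T ∪ T', p) : ℝ) ≤ D ^ 2 := by
  have hone : ∀ U : Finset GI, U ⊆ PI D → 1 ≤ ∏ p ∈ U, (nm p : ℝ) := by
    intro U hU
    have : ∏ p ∈ U, (1 : ℝ) ≤ ∏ p ∈ U, (nm p : ℝ) :=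
      prod_le_prod (fun _ _ => zero_le_one) fun p hp => (PI_nm (hU hp)).le
    simpa using this
  rw [nm_prod]
  refine ⟨hone _ (union_subset hT hT'), ?_⟩
  have h1 := prod_union_inter (s₁ := T) (s₂ := T') (f := fun p : GI => (nm p : ℝ))
  have h2 : 1 ≤ ∏ p ∈ T ∩ T', (nm p : ℝ) := hone _ (inter_subset_left.trans hT)
  have h3 := hone _ (union_subset hT hT')
  have h4 := hone _ hT
  have h5 := hone _ hT'
  calc ∏ p ∈ T ∪ T', (nm p : ℝ) ≤ (∏ p ∈ T ∪ T', (nm p : ℝ)) * ∏ p ∈ T ∩ T', (nm p : ℝ) :=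
        le_mul_of_one_le_right (by linarith) h2
    _ = (∏ p ∈ T, (nm p : ℝ)) * ∏ p ∈ T', (nm p : ℝ) := h1
    _ ≤ D * D := mul_le_mul hTn hTn' (by linarith) (by linarith)
    _ = D ^ 2 := by ring

theorem majorant (C : ℝ) (hC : 0 ≤ C) : ∃ δ K Z0 : ℝ, 0 < δ ∧ 0 < K ∧ 2 ≤ Z0 ∧ ∀ Z : ℝ, Z0 ≤ Z →
    ∃ ν : GI → ℝ, (∀ z, 0 ≤ ν z) ∧ (∀ p : GI, PP p → Z ≤ nm p → 1 ≤ ν p) ∧
      ∑ z ∈ ann 0 (3 * Z), ν z ≤ K * Z / Real.log Z ∧
      ∀ κ : ℤ, κ ≠ 0 → |(κ : ℝ)| ≤ Z ^ C →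
        ‖∑ z ∈ ann 0 (3 * Z), (ν z : ℂ) * uu z ^ κ‖ ≤ Z ^ (1 - δ) := by
  obtain ⟨c, K, hc, hc4, hK, hst⟩ := st_all (2 * C)
  obtain ⟨K1, hK1, hcard⟩ := card_ann
  obtain ⟨cs, D0, hcs, hD0, hSS⟩ := SS_ge
  have hpi := Real.pi_pos
  set e : ℝ := c / 16 with he
  have hepos : 0 < e := by positivity
  refine ⟨c / 2, 3 * Real.pi / 4 / (cs * e) + 128 * K1,
    2 + D0 ^ (1 / e) + (48 * K) ^ (1 / (c / 4)), by positivity, by positivity, ?_, ?_⟩
  · have h1 : 0 ≤ D0 ^ (1 / e) := Real.rpow_nonneg (by linarith) _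
    have h2 : 0 ≤ (48 * K) ^ (1 / (c / 4)) := Real.rpow_nonneg (by positivity) _
    linarith
  intro Z hZ
  have hq1 : 0 ≤ D0 ^ (1 / e) := Real.rpow_nonneg (by linarith) _
  have hq2 : 0 ≤ (48 * K) ^ (1 / (c / 4)) := Real.rpow_nonneg (by positivity) _
  have hZ2 : 2 ≤ Z := by linarith
  have hZ1 : 1 ≤ Z := by linarith
  have hZpos : 0 < Z := by linarith
  set D : ℝ := Z ^ e with hD
  have hDD0 : D0 ≤ D := MAJ_large (by linarith) hepos (by linarith)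
  have hKZ : 48 * K ≤ Z ^ (c / 4) := MAJ_large (by positivity) (by positivity) (by linarith)
  have hD2 : 2 ≤ D := hD0.trans hDD0
  have hD1 : 1 ≤ D := by linarith
  have hDZ : D < Z := by
    have : D < Z ^ (1 : ℝ) := by
      rw [hD]
      apply Real.rpow_lt_rpow_of_exponent_lt (by linarith)
      rw [he]; linarith
    rwa [Real.rpow_one] at this
  have hD4 : D ^ 4 = Z ^ (c / 4) := by
    rw [hD, ← Real.rpow_natCast, ← Real.rpow_mul hZpos.le]
    congr 1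
    rw [he]; push_cast; ring
  have hDsq : D ^ 2 ≤ Z ^ (1 / 2 : ℝ) := by
    rw [hD, ← Real.rpow_natCast, ← Real.rpow_mul hZpos.le]
    apply Real.rpow_le_rpow_of_exponent_le hZ1
    rw [he]; push_cast; linarith
  obtain ⟨l, hl0, hlD, hlne, hlsum⟩ := selberg_abs (PI D) (fun p : GI => (nm p : ℝ))
    (fun p hp => PI_nm hp) D hD1
  refine ⟨fun z => (MAJ_s D l z) ^ 2, fun z => sq_nonneg _, ?_, ?_, ?_⟩
  · -- primes
    intro p hp hZp
    have h1 : MAJ_s D l p = 1 := by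
      unfold MAJ_s
      rw [sum_eq_single_of_mem ∅ (empty_mem_powerset _)]
      · simp [hl0]
      · intro T hT hTne
        rw [if_neg]
        intro hdvd
        obtain ⟨q, hq⟩ := nonempty_iff_ne_empty.2 hTne
        have hqI : q ∈ PI D := mem_powerset.1 hT hq
        have hqp : q ∣ p := (dvd_prod_of_mem (fun p : GI => p) hq).trans hdvd
        obtain ⟨w, hw⟩ := hqp
        have h2 : nm q ∣ nm p := ⟨nm w, by rw [hw, nm_mul]⟩
        have h3 := PI_nm hqI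
        have h4 := (mem_PI.1 hqI).2.2.2
        rcases (Nat.dvd_prime hp.2.2.2).1 h2 with h | h
        · rw [h] at h3; norm_num at h3
        · rw [h] at h4; linarith
    show 1 ≤ (MAJ_s D l p) ^ 2
    rw [h1]; norm_num
  · -- total mass
    have hlog : 0 < Real.log Z := Real.log_pos (by linarith)
    have hSSpos : 0 < SS (PI D) (fun p : GI => (nm p : ℝ)) D := by
      have h1 := hSS D hDD0
      have h2 : 0 < Real.log D := Real.log_pos (by linarith)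
      have : 0 < cs * Real.log D := by positivity
      linarith
    have hsum : ∑ z ∈ ann 0 (3 * Z), (MAJ_s D l z) ^ 2 =
        ∑ T ∈ (PI D).powerset, ∑ T' ∈ (PI D).powerset, l T * l T' *
          ((ann 0 (3 * Z / nm (∏ p ∈ T ∪ T', p))).card : ℝ) := by
      have h1 := MAJ_expand D (3 * Z) 0 l
      simp only [zpow_zero, mul_one, one_mul, sum_const, nsmul_eq_mul] at h1
      have h2 : ((∑ z ∈ ann 0 (3 * Z), (MAJ_s D l z) ^ 2 : ℝ) : ℂ) =
          ((∑ T ∈ (PI D).powerset, ∑ T' ∈ (PI D).powerset, l T * l T' *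
          ((ann 0 (3 * Z / nm (∏ p ∈ T ∪ T', p))).card : ℝ) : ℝ) : ℂ) := by
        push_cast
        push_cast at h1
        exact h1
      exact_mod_cast h2
    have hmain : ∑ T ∈ (PI D).powerset, ∑ T' ∈ (PI D).powerset, l T * l T' *
          (Real.pi / 4 * (3 * Z / nm (∏ p ∈ T ∪ T', p))) =
        Real.pi / 4 * (3 * Z) * (1 / SS (PI D) (fun p : GI => (nm p : ℝ)) D) := by
      rw [← hlsum, mul_sum]
      apply sum_congr rfl
      intro T _
      rw [mul_sum]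
      apply sum_congr rfl
      intro T' _
      rw [nm_prod]
      ring
    have herr : |∑ z ∈ ann 0 (3 * Z), (MAJ_s D l z) ^ 2 -
        Real.pi / 4 * (3 * Z) * (1 / SS (PI D) (fun p : GI => (nm p : ℝ)) D)| ≤
        16 * D ^ 4 * (K1 * √(3 * Z)) := by
      rw [hsum, ← hmain, ← sum_sub_distrib]
      have h1 := MAJ_bilin D hD1 l hlD hlne (fun T T' =>
        (((((ann 0 (3 * Z / nm (∏ p ∈ T ∪ T', p))).card : ℝ) -
          Real.pi / 4 * (3 * Z / nm (∏ p ∈ T ∪ T', p)) : ℝ)) : ℂ)) (K1 * √(3 * Z)) (by positivity) ?_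
      · have h2 : (∑ T ∈ (PI D).powerset, ∑ T' ∈ (PI D).powerset, ((l T * l T' : ℝ) : ℂ) *
            (((((ann 0 (3 * Z / nm (∏ p ∈ T ∪ T', p))).card : ℝ) -
          Real.pi / 4 * (3 * Z / nm (∏ p ∈ T ∪ T', p)) : ℝ)) : ℂ)) =
            ((∑ T ∈ (PI D).powerset, (∑ T' ∈ (PI D).powerset, l T * l T' *
              ((ann 0 (3 * Z / nm (∏ p ∈ T ∪ T', p))).card : ℝ) -
              ∑ T' ∈ (PI D).powerset, l T * l T' *
                (Real.pi / 4 * (3 * Z / nm (∏ p ∈ T ∪ T', p)))) : ℝ) : ℂ) := by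
          rw [Complex.ofReal_sum]
          apply sum_congr rfl
          intro T _
          rw [← sum_sub_distrib, Complex.ofReal_sum]
          apply sum_congr rfl
          intro T' _
          push_cast
          ring
        rw [h2, Complex.norm_real, Real.norm_eq_abs] at h1
        exact h1
      · intro T T' hT hTn hT' hTn'
        rw [Complex.norm_real, Real.norm_eq_abs]
        obtain ⟨hn1, -⟩ := MAJ_union D hT hTn hT' hTn'
        have hnpos : (0 : ℝ) < nm (∏ p ∈ T ∪ T', p) := by linarith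
        have h2 := hcard 0 (3 * Z / nm (∏ p ∈ T ∪ T', p)) le_rfl (by positivity)
        rw [sub_zero] at h2
        refine h2.trans ?_
        apply mul_le_mul_of_nonneg_left _ hK1.le
        apply Real.sqrt_le_sqrt
        exact div_le_self (by positivity) hn1
    have h5 := (abs_le.1 herr).2
    have hbound1 : Real.pi / 4 * (3 * Z) * (1 / SS (PI D) (fun p : GI => (nm p : ℝ)) D) ≤
        3 * Real.pi / 4 / (cs * e) * (Z / Real.log Z) := by
      have h6 : cs * (e * Real.log Z) ≤ SS (PI D) (fun p : GI => (nm p : ℝ)) D := by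
        have := hSS D hDD0
        rwa [hD, Real.log_rpow hZpos, ← hD] at this
      have h7 : 1 / SS (PI D) (fun p : GI => (nm p : ℝ)) D ≤ 1 / (cs * (e * Real.log Z)) :=
        one_div_le_one_div_of_le (by positivity) h6
      calc Real.pi / 4 * (3 * Z) * (1 / SS (PI D) (fun p : GI => (nm p : ℝ)) D) ≤
          Real.pi / 4 * (3 * Z) * (1 / (cs * (e * Real.log Z))) := by gcongr
        _ = 3 * Real.pi / 4 / (cs * e) * (Z / Real.log Z) := by field_simp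
    have hbound2 : 16 * D ^ 4 * (K1 * √(3 * Z)) ≤ 128 * K1 * (Z / Real.log Z) := by
      have h6 : √(3 * Z) ≤ 2 * Z ^ (1 / 2 : ℝ) := by
        rw [Real.sqrt_mul (by norm_num), Real.sqrt_eq_rpow Z]
        have : √3 ≤ 2 := by
          rw [Real.sqrt_le_left (by norm_num)]; norm_num
        gcongr
      have h7 : D ^ 4 * Z ^ (1 / 2 : ℝ) ≤ Z ^ (3 / 4 : ℝ) := by
        rw [hD4, ← Real.rpow_add hZpos]
        apply Real.rpow_le_rpow_of_exponent_le hZ1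
        linarith
      have h8 : Z ^ (3 / 4 : ℝ) ≤ 4 * (Z / Real.log Z) := by
        rw [← mul_div_assoc, le_div_iff₀ hlog]
        have h9 := Real.log_le_rpow_div hZpos.le (by norm_num : (0 : ℝ) < 1 / 4)
        calc Z ^ (3 / 4 : ℝ) * Real.log Z ≤ Z ^ (3 / 4 : ℝ) * (Z ^ (1 / 4 : ℝ) / (1 / 4)) := by gcongr
          _ = 4 * (Z ^ (3 / 4 : ℝ) * Z ^ (1 / 4 : ℝ)) := by ring
          _ = 4 * Z := by
              rw [← Real.rpow_add hZpos]; norm_num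
      calc 16 * D ^ 4 * (K1 * √(3 * Z)) ≤ 16 * D ^ 4 * (K1 * (2 * Z ^ (1 / 2 : ℝ))) := by gcongr
        _ = 32 * K1 * (D ^ 4 * Z ^ (1 / 2 : ℝ)) := by ring
        _ ≤ 32 * K1 * (4 * (Z / Real.log Z)) := by
            apply mul_le_mul_of_nonneg_left (h7.trans h8) (by positivity)
        _ = 128 * K1 * (Z / Real.log Z) := by ring
    calc ∑ z ∈ ann 0 (3 * Z), (MAJ_s D l z) ^ 2 ≤
          3 * Real.pi / 4 / (cs * e) * (Z / Real.log Z) + 128 * K1 * (Z / Real.log Z) := by linarith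
      _ = (3 * Real.pi / 4 / (cs * e) + 128 * K1) * Z / Real.log Z := by ring
  · -- other frequencies
    intro κ hκ0 hκ
    have h1 := MAJ_expand D (3 * Z) κ l
    rw [h1]
    have h2 := MAJ_bilin D hD1 l hlD hlne (fun T T' => uu (∏ p ∈ T ∪ T', p) ^ κ *
      ∑ w ∈ ann 0 (3 * Z / nm (∏ p ∈ T ∪ T', p)), uu w ^ κ) (K * (3 * Z ^ (1 - c)))
      (by positivity) ?_
    · refine h2.trans ?_
      calc 16 * D ^ 4 * (K * (3 * Z ^ (1 - c))) = 48 * K * (D ^ 4 * Z ^ (1 - c)) := by ring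
        _ ≤ Z ^ (c / 4) * (D ^ 4 * Z ^ (1 - c)) := by gcongr
        _ = Z ^ (1 - c / 2) := by
            rw [hD4, ← Real.rpow_add hZpos, ← Real.rpow_add hZpos]
            congr 1
            ring
    · intro T T' hT hTn hT' hTn'
      obtain ⟨hn1, hn2⟩ := MAJ_union D hT hTn hT' hTn'
      have hnpos : (0 : ℝ) < nm (∏ p ∈ T ∪ T', p) := by linarith
      set Y : ℝ := 3 * Z / nm (∏ p ∈ T ∪ T', p) with hY
      have hYlow : Z ^ (1 / 2 : ℝ) ≤ Y := by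
        rw [hY, le_div_iff₀ hnpos]
        calc Z ^ (1 / 2 : ℝ) * nm (∏ p ∈ T ∪ T', p) ≤ Z ^ (1 / 2 : ℝ) * Z ^ (1 / 2 : ℝ) := by
              apply mul_le_mul_of_nonneg_left (hn2.trans hDsq) (by positivity)
          _ = Z := by rw [← Real.rpow_add hZpos]; norm_num
          _ ≤ 3 * Z := by linarith
      have hYhigh : Y ≤ 3 * Z := div_le_self (by positivity) hn1
      have hY1 : 1 ≤ Y := (Real.one_le_rpow hZ1 (by norm_num)).trans hYlow
      have hκY : |(κ : ℝ)| ≤ Y ^ (2 * C) := by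
        refine hκ.trans ?_
        have h3 : Z ^ C = (Z ^ (1 / 2 : ℝ)) ^ (2 * C) := by
          rw [← Real.rpow_mul hZpos.le]; congr 1; ring
        rw [h3]
        exact Real.rpow_le_rpow (by positivity) hYlow (by positivity)
      have h3 := hst Y hY1 κ hκ0 hκY
      rw [norm_mul]
      have h4 : Y ^ (1 - c) ≤ 3 * Z ^ (1 - c) := by
        calc Y ^ (1 - c) ≤ (3 * Z) ^ (1 - c) :=
              Real.rpow_le_rpow (by linarith) hYhigh (by linarith)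
          _ = 3 ^ (1 - c) * Z ^ (1 - c) := Real.mul_rpow (by norm_num) hZpos.le
          _ ≤ 3 * Z ^ (1 - c) := by
              apply mul_le_mul_of_nonneg_right _ (by positivity)
              calc (3 : ℝ) ^ (1 - c) ≤ 3 ^ (1 : ℝ) :=
                    Real.rpow_le_rpow_of_exponent_le (by norm_num) (by linarith)
                _ = 3 := Real.rpow_one 3
      calc ‖uu (∏ p ∈ T ∪ T', p) ^ κ‖ * ‖∑ w ∈ ann 0 Y, uu w ^ κ‖ ≤ 1 * (K * Y ^ (1 - c)) := by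
            apply mul_le_mul (norm_uu_zpow_le _ _) h3 (norm_nonneg _) zero_le_one
        _ = K * Y ^ (1 - c) := one_mul _
        _ ≤ K * (3 * Z ^ (1 - c)) := by gcongr

end Pool.Agent.MRS
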