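import Pool.Agent.MRS.Core
import Pool.Agent.MRS.Enl2
import Pool.Agent.MRS.Conc
import Pool.Agent.MRS.Edg

set_option autoImplicit false

/-! Module MB1 (one_scale1), as MA1 (`Man.lean`). -/

open Finset

namespace Pool.Agent.MRS

/-- lower bound for the number of primitive vectors in the annulus -/
theorem MB1_card_pan : ∃ c Y0 : ℝ, 0 < c ∧ 1 ≤ Y0 ∧ ∀ Y : ℝ, Y0 ≤ Y →
    ∀ b : ℝ, 11 / 10 * Y ≤ b → b ≤ 10 * Y → c * Y ≤ ((pan Y b).card : ℝ) := by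
  classical
  obtain ⟨c, Y0, hc, hY0, h⟩ := card_pan
  refine ⟨c, Y0, hc, hY0, ?_⟩
  intro Y hY b hb1 hb2
  have hOd : Od (⟨1, 2⟩ : GI) := by
    constructor <;> norm_num
  have hnm : 5 ≤ nm (⟨1, 2⟩ : GI) := by
    have h1 := nm_int (⟨1, 2⟩ : GI)
    have h2 : ((nm (⟨1, 2⟩ : GI) : ℕ) : ℤ) = 5 := by
      rw [h1]; norm_num
    omega
  have h1 := h Y hY ⟨1, 2⟩ hOd hnm b hb1 hb2
  refine le_trans h1 ?_
  exact_mod_cast Finset.card_le_card (Finset.filter_subset _ _)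

/-- the mean square splits off the term `k = 0` -/
theorem MB1_ms_split (K : ℕ) (F : ℤ → ℝ) :
    ms K F = F 0 + ∑ k ∈ (Icc (-(K : ℤ)) (K : ℤ)).erase 0, fw K k * F k := by
  unfold ms
  have h0 : (0 : ℤ) ∈ Icc (-(K : ℤ)) (K : ℤ) := by
    rw [Finset.mem_Icc]; omega
  rw [← Finset.add_sum_erase _ _ h0]
  have h1 : fw K 0 = 1 := by
    unfold fw
    simp
  rw [h1, one_mul]

theorem one_scale1 (k : ℕ) (hk : 1 ≤ k) (δ' : ℝ) (hδ : 0 < δ') : ∃ η N0 : ℝ, 0 < η ∧ 1 ≤ N0 ∧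
    ∀ N : ℝ, N0 ≤ N → ∀ f : ℕ → ℂ, CM f → (∀ n, 0 < n → f n ^ k = 1) → ∀ θ : ℂ, ‖θ‖ = 1 →
    ((Bd1 (gf f) θ (12 * N)).card : ℝ) < η * N →
    ∃ γ : ℂ, γ ^ k = 1 ∧ open Classical in
      (((pan N (3 * N)).filter (fun z => gf f z ≠ γ)).card : ℝ) ≤ δ' * N := by
  classical
  obtain ⟨δ, hδ0, hconc⟩ := conc k hk (δ' / 12) (by positivity)
  obtain ⟨C, hC, hen⟩ := energy_low1
  obtain ⟨c, Y0, hc, hY0, hcard⟩ := MB1_card_pan
  have hβ0 : 0 < δ * c ^ 2 / 3 := by positivity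
  obtain ⟨β, hβ⟩ : ∃ β : ℝ, β = δ * c ^ 2 / 3 := ⟨_, rfl⟩
  rw [← hβ] at hβ0
  obtain ⟨h0, hh0, hcore0⟩ := mrs_core β hβ0
  obtain ⟨N1, hN1, hcore⟩ := hcore0 h0 le_rfl
  obtain ⟨D, hD1, hD2⟩ : ∃ D : ℝ, 1 ≤ D ∧ C * h0 / β ≤ D :=
    ⟨max 1 (C * h0 / β), le_max_left _ _, le_max_right _ _⟩
  have hD0 : 0 < D := by linarith
  refine ⟨β / (4 * (4 * D + 1) ^ 5), max Y0 N1, by positivity, le_trans hY0 (le_max_left _ _), ?_⟩
  intro N hN f hf hfk θ hθ hBd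
  have hNY : Y0 ≤ N := le_trans (le_max_left _ _) hN
  have hNN : N1 ≤ N := le_trans (le_max_right _ _) hN
  have hN1' : 1 ≤ N := le_trans hY0 hNY
  have hN0 : 0 < N := by linarith
  have hh00 : 0 < h0 := by linarith
  have hf1 : ∀ n, 0 < n → ‖f n‖ = 1 := by
    intro n hn
    have h1 : ‖f n‖ ^ k = 1 := by
      rw [← norm_pow, hfk n hn, norm_one]
    exact (pow_eq_one_iff_of_nonneg (norm_nonneg _) (by omega)).1 h1
  -- the parameter K
  obtain ⟨K, hKdef⟩ : ∃ K : ℕ, K = ⌊N / h0⌋₊ := ⟨_, rfl⟩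
  have hdiv0 : 0 ≤ N / h0 := by positivity
  have hK1 : (K : ℝ) ≤ N / h0 := by rw [hKdef]; exact Nat.floor_le hdiv0
  have hK2 : N / h0 < (K : ℝ) + 1 := by rw [hKdef]; exact Nat.lt_floor_add_one _
  have hK3 : (K : ℝ) + 1 ≤ 2 * N := by
    have h1 : N / h0 ≤ N := div_le_self hN0.le hh0
    linarith
  have hen1 := hen f hf hf1 θ hθ N hN1' K D hD1
  have hco1 := hcore N hNN f hf K hK1
  rw [MB1_ms_split] at hen1
  -- the size of the annulus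
  obtain ⟨P, hP⟩ : ∃ P : ℝ, P = ((pan N (3 * N)).card : ℝ) := ⟨_, rfl⟩
  have hPc : c * N ≤ P := by
    rw [hP]
    exact hcard N hNY (3 * N) (by linarith) (by linarith)
  have hP12 : P ≤ 12 * N := by
    rw [hP]
    have h1 : ((pan N (3 * N)).card : ℝ) ≤ ((ann N (3 * N)).card : ℝ) := by
      exact_mod_cast Finset.card_le_card (pan_subset _ _)
    have h2 := card_ann_le N (b := 3 * N) (by linarith)
    linarith
  -- bad edges
  have hbad : 2 * ((K : ℝ) + 1) * (4 * D + 1) ^ 5 * ((Bd1 (gf f) θ (12 * N)).card : ℝ) ≤ β * N ^ 2 := by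
    have h5 : 0 < (4 * D + 1) ^ 5 := by positivity
    have hη0 : (0 : ℝ) ≤ β / (4 * (4 * D + 1) ^ 5) * N := by positivity
    have h1 : 2 * ((K : ℝ) + 1) * (4 * D + 1) ^ 5 * ((Bd1 (gf f) θ (12 * N)).card : ℝ)
        ≤ 2 * (2 * N) * (4 * D + 1) ^ 5 * (β / (4 * (4 * D + 1) ^ 5) * N) := by
      apply mul_le_mul _ hBd.le (Nat.cast_nonneg _) (by positivity)
      apply mul_le_mul_of_nonneg_right _ h5.le
      linarith
    refine le_trans h1 (le_of_eq ?_)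
    field_simp
    ring
  -- far pairs
  have hfar : C * N ^ 3 / (((K : ℝ) + 1) * D) ≤ β * N ^ 2 := by
    have h1 : C * N ^ 3 / (((K : ℝ) + 1) * D) ≤ C * N ^ 3 / ((N / h0) * D) := by
      apply div_le_div_of_nonneg_left (by positivity) (by positivity)
      exact mul_le_mul_of_nonneg_right hK2.le hD0.le
    refine le_trans h1 ?_
    have h2 : C * N ^ 3 / ((N / h0) * D) = (C * h0 / D) * N ^ 2 := by
      field_simp
    rw [h2]
    apply mul_le_mul_of_nonneg_right _ (by positivity)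
    rw [div_le_iff₀ hD0]
    rw [div_le_iff₀ hβ0] at hD2
    linarith
  -- the term k = 0
  have hsp : sp (pan N (3 * N)) (gf f) 0 = ∑ z ∈ pan N (3 * N), gf f z := by
    unfold sp
    simp
  have hlow : (1 - δ) * ((pan N (3 * N)).card : ℝ) ^ 2 ≤ ‖∑ z ∈ pan N (3 * N), gf f z‖ ^ 2 := by
    rw [← hsp]
    rw [← hP] at hen1 ⊢
    have h3 : 3 * β * N ^ 2 ≤ δ * P ^ 2 := by
      have h4 : (c * N) ^ 2 ≤ P ^ 2 := by
        apply pow_le_pow_left₀ (by positivity) hPc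
      have h5 : δ * (c * N) ^ 2 ≤ δ * P ^ 2 := mul_le_mul_of_nonneg_left h4 hδ0.le
      have h6 : 3 * β * N ^ 2 = δ * (c * N) ^ 2 := by rw [hβ]; ring
      linarith
    nlinarith [hen1, hco1, hbad, hfar, h3]
  obtain ⟨γ, hγ, hγ2⟩ := hconc GI (pan N (3 * N)) (gf f) (by
    intro z hz
    have hz0 : z ≠ 0 := Od_ne (mem_pan.1 hz).1
    exact hfk (nm z) (nm_pos hz0)) hlow
  refine ⟨γ, hγ, ?_⟩
  refine le_trans hγ2 ?_
  rw [← hP]
  have : δ' / 12 * P ≤ δ' / 12 * (12 * N) := mul_le_mul_of_nonneg_left hP12 (by positivity)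
  linarith

end Pool.Agent.MRS
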