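import Mathlib

set_option autoImplicit false

/-! Module SLA: abstract Selberg weights.  `I` finite set of indices with norms `n i > 1`, level `D`:
`𝒟 = {T ⊆ I : ∏_{i ∈ T} n i ≤ D}`, `h(T) = ∏_{i ∈ T} 1/(n i - 1)`, `S = ∑_{T ∈ 𝒟} h(T)`,
`λ_T = (∏_{i∈T} n i) (-1)^|T| (1/S) ∑_{W ∈ 𝒟, T ⊆ W} h(W)`.  Diagonalisation: `∏_{T ∩ T'} n i = ∑_{V ⊆ T ∩ T'} ∏_V (n i - 1)`
and `∑_{T ⊇ V} λ_T / n_T = (-1)^|V| h(V)/S`. -/

open Finset

namespace Pool.Agent.MRS

/-- the sum `S` -/
noncomputable def SS {ι : Type} [DecidableEq ι] (I : Finset ι) (n : ι → ℝ) (D : ℝ) : ℝ :=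
  open Classical in ∑ T ∈ I.powerset.filter (fun T => ∏ i ∈ T, n i ≤ D), ∏ i ∈ T, 1 / (n i - 1)

open Classical in
/-- the family of admissible sets -/
private noncomputable def DD {ι : Type} [DecidableEq ι] (I : Finset ι) (n : ι → ℝ) (D : ℝ) :
    Finset (Finset ι) :=
  I.powerset.filter (fun T => ∏ i ∈ T, n i ≤ D)

open Classical in
/-- the weights -/
private noncomputable def lam {ι : Type} [DecidableEq ι] (I : Finset ι) (n : ι → ℝ) (D : ℝ)
    (T : Finset ι) : ℝ :=
  (∏ i ∈ T, n i) * (-1) ^ T.card * (1 / SS I n D) *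
    ∑ W ∈ (DD I n D).filter (fun W => T ⊆ W), ∏ i ∈ W, 1 / (n i - 1)

private theorem mem_DD {ι : Type} [DecidableEq ι] (I : Finset ι) (n : ι → ℝ) (D : ℝ)
    (W : Finset ι) : W ∈ DD I n D ↔ W ⊆ I ∧ ∏ i ∈ W, n i ≤ D := by
  simp [DD]

private theorem h_nonneg {ι : Type} [DecidableEq ι] (I : Finset ι) (n : ι → ℝ)
    (hn : ∀ i ∈ I, 1 < n i) {W : Finset ι} (hW : W ⊆ I) : 0 ≤ ∏ i ∈ W, 1 / (n i - 1) := by
  apply Finset.prod_nonneg
  intro i hi
  have := hn i (hW hi)
  apply div_nonneg zero_le_one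
  linarith

private theorem SS_pos {ι : Type} [DecidableEq ι] (I : Finset ι) (n : ι → ℝ)
    (hn : ∀ i ∈ I, 1 < n i) (D : ℝ) (hD : 1 ≤ D) : 0 < SS I n D := by
  have h0 : (∅ : Finset ι) ∈ DD I n D := by
    rw [mem_DD]
    exact ⟨Finset.empty_subset _, by simpa using hD⟩
  have : SS I n D = ∑ T ∈ DD I n D, ∏ i ∈ T, 1 / (n i - 1) := rfl
  rw [this]
  have h1 : ∏ i ∈ (∅ : Finset ι), 1 / (n i - 1) ≤ ∑ T ∈ DD I n D, ∏ i ∈ T, 1 / (n i - 1) := by
    apply Finset.single_le_sum (f := fun T => ∏ i ∈ T, 1 / (n i - 1)) _ h0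
    intro W hW
    exact h_nonneg I n hn ((mem_DD I n D W).1 hW).1
  simp only [Finset.prod_empty] at h1
  linarith

/-- alternating sum over an interval of sets -/
private theorem alt_sum {ι : Type} [DecidableEq ι] (V W : Finset ι) (hVW : V ⊆ W) :
    ∑ T ∈ W.powerset.filter (fun T => V ⊆ T), (-1 : ℝ) ^ T.card =
      if V = W then (-1 : ℝ) ^ V.card else 0 := by
  have h := Finset.prod_add (fun _ : ι => (-1 : ℝ)) (fun i => if i ∈ V then (0 : ℝ) else 1) W
  have h2 : ∀ T ∈ W.powerset, (∏ i ∈ T, (-1 : ℝ)) * ∏ i ∈ W \ T, (if i ∈ V then (0 : ℝ) else 1) =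
      if V ⊆ T then (-1 : ℝ) ^ T.card else 0 := by
    intro T hT
    rw [Finset.mem_powerset] at hT
    rw [Finset.prod_const]
    split_ifs with hV
    · rw [Finset.prod_eq_one, mul_one]
      intro i hi
      rw [Finset.mem_sdiff] at hi
      rw [if_neg]
      intro hiV
      exact hi.2 (hV hiV)
    · obtain ⟨i, hiV, hiT⟩ := Finset.not_subset.1 hV
      rw [Finset.prod_eq_zero (Finset.mem_sdiff.2 ⟨hVW hiV, hiT⟩) (by simp [hiV]), mul_zero]
  rw [Finset.sum_congr rfl h2, ← Finset.sum_filter] at h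
  rw [← h]
  split_ifs with hVW'
  · subst hVW'
    rw [Finset.prod_congr rfl (g := fun _ => (-1 : ℝ)), Finset.prod_const]
    intro i hi
    simp [hi]
  · have : ∃ i ∈ W, i ∉ V := by
      by_contra hc
      push Not at hc
      exact hVW' (Finset.Subset.antisymm hVW hc)
    obtain ⟨i, hiW, hiV⟩ := this
    exact Finset.prod_eq_zero hiW (by simp [hiV])

private theorem lam_sum {ι : Type} [DecidableEq ι] (I : Finset ι) (n : ι → ℝ)
    (hn : ∀ i ∈ I, 1 < n i) (D : ℝ) (V : Finset ι) (_hV : V ⊆ I) :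
    ∑ T ∈ I.powerset.filter (fun T => V ⊆ T), lam I n D T / ∏ i ∈ T, n i =
      if V ∈ DD I n D then (-1) ^ V.card * (1 / SS I n D) * ∏ i ∈ V, 1 / (n i - 1) else 0 := by
  classical
  have h1 : ∀ T ∈ I.powerset.filter (fun T => V ⊆ T), lam I n D T / ∏ i ∈ T, n i =
      ∑ W ∈ DD I n D, if T ⊆ W then
        (-1) ^ T.card * ((1 / SS I n D) * ∏ i ∈ W, 1 / (n i - 1)) else 0 := by
    intro T hT
    rw [Finset.mem_filter, Finset.mem_powerset] at hT
    have hne : (∏ i ∈ T, n i) ≠ 0 := by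
      apply Finset.prod_ne_zero_iff.2
      intro i hi
      have := hn i (hT.1 hi)
      linarith
    rw [← Finset.sum_filter, ← Finset.mul_sum, ← Finset.mul_sum, lam]
    field_simp
  rw [Finset.sum_congr rfl h1, Finset.sum_comm]
  have h2 : ∀ W ∈ DD I n D, (∑ T ∈ I.powerset.filter (fun T => V ⊆ T), if T ⊆ W then
        (-1 : ℝ) ^ T.card * ((1 / SS I n D) * ∏ i ∈ W, 1 / (n i - 1)) else 0) =
      if V = W then (-1) ^ V.card * ((1 / SS I n D) * ∏ i ∈ W, 1 / (n i - 1)) else 0 := by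
    intro W hW
    have hWI := ((mem_DD I n D W).1 hW).1
    rw [← Finset.sum_filter, ← Finset.sum_mul, Finset.filter_filter]
    by_cases hVW : V ⊆ W
    · have h3 : I.powerset.filter (fun T => V ⊆ T ∧ T ⊆ W) =
          W.powerset.filter (fun T => V ⊆ T) := by
        ext T
        simp only [Finset.mem_filter, Finset.mem_powerset]
        constructor
        · rintro ⟨-, h4, h5⟩
          exact ⟨h5, h4⟩
        · rintro ⟨h5, h4⟩
          exact ⟨h5.trans hWI, h4, h5⟩
      rw [h3, alt_sum V W hVW]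
      split_ifs with h4
      · rfl
      · simp
    · have h3 : I.powerset.filter (fun T => V ⊆ T ∧ T ⊆ W) = ∅ := by
        rw [Finset.filter_eq_empty_iff]
        rintro T - ⟨h4, h5⟩
        exact hVW (h4.trans h5)
      rw [h3, Finset.sum_empty, zero_mul, if_neg]
      rintro rfl
      exact hVW (Finset.Subset.refl _)
  rw [Finset.sum_congr rfl h2, Finset.sum_ite_eq]
  split_ifs with h5
  · ring
  · rfl

theorem selberg_abs {ι : Type} [DecidableEq ι] (I : Finset ι) (n : ι → ℝ) (hn : ∀ i ∈ I, 1 < n i)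
    (D : ℝ) (hD : 1 ≤ D) :
    ∃ l : Finset ι → ℝ, l ∅ = 1 ∧ (∀ T, |l T| ≤ D) ∧
      (∀ T, l T ≠ 0 → T ⊆ I ∧ ∏ i ∈ T, n i ≤ D) ∧
      ∑ T ∈ I.powerset, ∑ T' ∈ I.powerset, l T * l T' / ∏ i ∈ T ∪ T', n i = 1 / SS I n D := by
  classical
  have hS := SS_pos I n hn D hD
  have hSeq : SS I n D = ∑ T ∈ DD I n D, ∏ i ∈ T, 1 / (n i - 1) := rfl
  -- monotonicity of the norm
  have hmono : ∀ T W : Finset ι, T ⊆ W → W ⊆ I → ∏ i ∈ T, n i ≤ ∏ i ∈ W, n i := by
    intro T W hTW hWI
    apply Finset.prod_le_prod_of_subset_of_one_le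
    · exact hTW
    · intro i hi
      have := hn i (hWI (hTW hi))
      linarith
    · intro i hi _
      have := hn i (hWI hi)
      linarith
  have hsupp : ∀ T, lam I n D T ≠ 0 → T ⊆ I ∧ ∏ i ∈ T, n i ≤ D := by
    intro T hT
    have hne : ((DD I n D).filter (fun W => T ⊆ W)).Nonempty := by
      by_contra hc
      rw [Finset.not_nonempty_iff_eq_empty] at hc
      apply hT
      rw [lam, hc, Finset.sum_empty, mul_zero]
    obtain ⟨W, hW⟩ := hne
    rw [Finset.mem_filter, mem_DD] at hW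
    exact ⟨hW.2.trans hW.1.1, (hmono T W hW.2 hW.1.1).trans hW.1.2⟩
  refine ⟨lam I n D, ?_, ?_, hsupp, ?_⟩
  · rw [lam]
    simp only [Finset.prod_empty, Finset.card_empty, pow_zero, Finset.empty_subset,
      Finset.filter_true]
    rw [← hSeq]
    field_simp
  · intro T
    by_cases hT : lam I n D T = 0
    · rw [hT, abs_zero]; linarith
    obtain ⟨hTI, hTD⟩ := hsupp T hT
    have hnn : 0 ≤ ∏ i ∈ T, n i := by
      apply Finset.prod_nonneg
      intro i hi
      have := hn i (hTI hi)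
      linarith
    have hsum0 : 0 ≤ ∑ W ∈ (DD I n D).filter (fun W => T ⊆ W), ∏ i ∈ W, 1 / (n i - 1) := by
      apply Finset.sum_nonneg
      intro W hW
      rw [Finset.mem_filter, mem_DD] at hW
      exact h_nonneg I n hn hW.1.1
    have hsum1 : ∑ W ∈ (DD I n D).filter (fun W => T ⊆ W), ∏ i ∈ W, 1 / (n i - 1) ≤
        SS I n D := by
      rw [hSeq]
      apply Finset.sum_le_sum_of_subset_of_nonneg (Finset.filter_subset _ _)
      intro W hW _
      exact h_nonneg I n hn ((mem_DD I n D W).1 hW).1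
    rw [lam, abs_mul, abs_mul, abs_mul, abs_pow, abs_neg, abs_one, one_pow, mul_one,
      abs_of_nonneg hnn, abs_of_nonneg hsum0, abs_of_nonneg (by positivity : 0 ≤ 1 / SS I n D)]
    have h1 : 1 / SS I n D * ∑ W ∈ (DD I n D).filter (fun W => T ⊆ W), ∏ i ∈ W, 1 / (n i - 1) ≤
        1 := by
      rw [div_mul_eq_mul_div, one_mul, div_le_one hS]
      exact hsum1
    rw [mul_assoc]
    calc (∏ i ∈ T, n i) * (1 / SS I n D *
        ∑ W ∈ (DD I n D).filter (fun W => T ⊆ W), ∏ i ∈ W, 1 / (n i - 1))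
        ≤ (∏ i ∈ T, n i) * 1 := mul_le_mul_of_nonneg_left h1 hnn
      _ ≤ D := by linarith
  · -- diagonalisation
    have h1 : ∀ T ∈ I.powerset, ∀ T' ∈ I.powerset,
        lam I n D T * lam I n D T' / ∏ i ∈ T ∪ T', n i =
        ∑ V ∈ I.powerset, (∏ i ∈ V, (n i - 1)) *
          ((if V ⊆ T then lam I n D T / ∏ i ∈ T, n i else 0) *
            (if V ⊆ T' then lam I n D T' / ∏ i ∈ T', n i else 0)) := by
      intro T hT T' hT'
      rw [Finset.mem_powerset] at hT hT'
      have hne : ∀ U : Finset ι, U ⊆ I → (∏ i ∈ U, n i) ≠ 0 := by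
        intro U hU
        apply Finset.prod_ne_zero_iff.2
        intro i hi
        have := hn i (hU hi)
        linarith
      have h2 : (∏ i ∈ T ∪ T', n i) * ∏ i ∈ T ∩ T', n i = (∏ i ∈ T, n i) * ∏ i ∈ T', n i :=
        Finset.prod_union_inter
      have h3 : ∏ i ∈ T ∩ T', n i = ∑ V ∈ (T ∩ T').powerset, ∏ i ∈ V, (n i - 1) := by
        have := Finset.prod_add (fun i => n i - 1) (fun _ => (1 : ℝ)) (T ∩ T')
        simp only [sub_add_cancel, Finset.prod_const_one, mul_one] at this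
        exact this
      have h4 : ∑ V ∈ I.powerset, (∏ i ∈ V, (n i - 1)) *
          ((if V ⊆ T then lam I n D T / ∏ i ∈ T, n i else 0) *
            (if V ⊆ T' then lam I n D T' / ∏ i ∈ T', n i else 0)) =
          ∑ V ∈ (T ∩ T').powerset, (∏ i ∈ V, (n i - 1)) *
            ((lam I n D T / ∏ i ∈ T, n i) * (lam I n D T' / ∏ i ∈ T', n i)) := by
        symm
        have hsub : (T ∩ T').powerset ⊆ I.powerset := by
          apply Finset.powerset_mono.2
          exact Finset.inter_subset_left.trans hT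
        rw [← Finset.sum_subset hsub]
        · apply Finset.sum_congr rfl
          intro V hV
          rw [Finset.mem_powerset] at hV
          rw [if_pos (hV.trans Finset.inter_subset_left),
            if_pos (hV.trans Finset.inter_subset_right)]
        · intro V _ hV
          rw [Finset.mem_powerset] at hV
          by_cases hVT : V ⊆ T
          · by_cases hVT' : V ⊆ T'
            · exact absurd (Finset.subset_inter hVT hVT') hV
            · rw [if_neg hVT', mul_zero, mul_zero]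
          · rw [if_neg hVT, zero_mul, mul_zero]
      rw [h4, ← Finset.sum_mul, ← h3]
      have e1 := hne T hT
      have e2 := hne T' hT'
      have e3 := hne (T ∪ T') (Finset.union_subset hT hT')
      have e4 : ∏ i ∈ T ∩ T', n i =
          ((∏ i ∈ T, n i) * ∏ i ∈ T', n i) / ∏ i ∈ T ∪ T', n i := by
        rw [eq_div_iff e3, ← h2]; ring
      rw [e4]
      field_simp
    rw [Finset.sum_congr rfl (fun T hT => Finset.sum_congr rfl (fun T' hT' => h1 T hT T' hT'))]
    have h5 : ∑ T ∈ I.powerset, ∑ T' ∈ I.powerset, ∑ V ∈ I.powerset, (∏ i ∈ V, (n i - 1)) *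
          ((if V ⊆ T then lam I n D T / ∏ i ∈ T, n i else 0) *
            (if V ⊆ T' then lam I n D T' / ∏ i ∈ T', n i else 0)) =
        ∑ V ∈ I.powerset, (∏ i ∈ V, (n i - 1)) *
          (∑ T ∈ I.powerset.filter (fun T => V ⊆ T), lam I n D T / ∏ i ∈ T, n i) ^ 2 := by
      have h6 : ∀ T ∈ I.powerset, ∑ T' ∈ I.powerset, ∑ V ∈ I.powerset, (∏ i ∈ V, (n i - 1)) *
          ((if V ⊆ T then lam I n D T / ∏ i ∈ T, n i else 0) *
            (if V ⊆ T' then lam I n D T' / ∏ i ∈ T', n i else 0)) =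
          ∑ V ∈ I.powerset, ∑ T' ∈ I.powerset, (∏ i ∈ V, (n i - 1)) *
          ((if V ⊆ T then lam I n D T / ∏ i ∈ T, n i else 0) *
            (if V ⊆ T' then lam I n D T' / ∏ i ∈ T', n i else 0)) := by
        intro T _
        exact Finset.sum_comm
      rw [Finset.sum_congr rfl h6, Finset.sum_comm]
      apply Finset.sum_congr rfl
      intro V _
      rw [Finset.sum_filter, pow_two, Finset.sum_mul_sum, Finset.mul_sum]
      apply Finset.sum_congr rfl
      intro T _
      rw [Finset.mul_sum]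
    rw [h5]
    have h7 : ∀ V ∈ I.powerset, (∏ i ∈ V, (n i - 1)) *
          (∑ T ∈ I.powerset.filter (fun T => V ⊆ T), lam I n D T / ∏ i ∈ T, n i) ^ 2 =
        if V ∈ DD I n D then (1 / SS I n D) ^ 2 * ∏ i ∈ V, 1 / (n i - 1) else 0 := by
      intro V hV
      rw [Finset.mem_powerset] at hV
      rw [lam_sum I n hn D V hV]
      split_ifs with h8
      · have h9 : (∏ i ∈ V, (n i - 1)) * ∏ i ∈ V, 1 / (n i - 1) = 1 := by
          rw [← Finset.prod_mul_distrib]
          apply Finset.prod_eq_one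
          intro i hi
          have := hn i (hV hi)
          have h10 : n i - 1 ≠ 0 := by linarith
          field_simp
        have h11 : ((-1 : ℝ) ^ V.card) ^ 2 = 1 := by
          rw [← pow_mul, mul_comm, pow_mul]; simp
        calc (∏ i ∈ V, (n i - 1)) *
            ((-1) ^ V.card * (1 / SS I n D) * ∏ i ∈ V, 1 / (n i - 1)) ^ 2
            = ((-1 : ℝ) ^ V.card) ^ 2 * (1 / SS I n D) ^ 2 * (∏ i ∈ V, 1 / (n i - 1)) *
              ((∏ i ∈ V, (n i - 1)) * ∏ i ∈ V, 1 / (n i - 1)) := by ring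
          _ = _ := by rw [h9, h11]; ring
      · ring
    rw [Finset.sum_congr rfl h7, ← Finset.sum_filter]
    have h12 : I.powerset.filter (fun V => V ∈ DD I n D) = DD I n D := by
      ext V
      rw [Finset.mem_filter, Finset.mem_powerset]
      constructor
      · exact fun h => h.2
      · exact fun h => ⟨((mem_DD I n D V).1 h).1, h⟩
    rw [h12, ← Finset.mul_sum, ← hSeq]
    field_simp

/-- recursion: adding a prime -/
theorem SS_insert {ι : Type} [DecidableEq ι] (I : Finset ι) (n : ι → ℝ) (j : ι) (hj : j ∉ I)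
    (hn : ∀ i ∈ insert j I, 1 < n i) (D : ℝ) (hD : 0 ≤ D) :
    SS (insert j I) n D = SS I n D + 1 / (n j - 1) * SS I n (D / n j) := by
  classical
  have hj1 := hn j (Finset.mem_insert_self j I)
  rw [SS, SS, SS, Finset.sum_filter, Finset.sum_powerset_insert hj, Finset.sum_filter,
    Finset.sum_filter]
  congr 1
  rw [Finset.mul_sum]
  apply Finset.sum_congr rfl
  intro T hT
  rw [Finset.mem_powerset] at hT
  have hjT : j ∉ T := fun h => hj (hT h)
  rw [Finset.prod_insert hjT, Finset.prod_insert hjT]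
  have hiff : n j * ∏ i ∈ T, n i ≤ D ↔ ∏ i ∈ T, n i ≤ D / n j := by
    rw [le_div_iff₀ (by linarith), mul_comm]
  by_cases h : n j * ∏ i ∈ T, n i ≤ D
  · rw [if_pos h, if_pos (hiff.1 h)]
  · rw [if_neg h, if_neg (fun h' => h (hiff.2 h')), mul_zero]

end Pool.Agent.MRS
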