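import Pool.Agent.MRS.LCount
import Pool.Agent.MRS.SelA

set_option autoImplicit false

/-! Module SLB: `SS ≥ c log D` for the odd Gaussian primes.
For `I ⊆ PI D`: `V(I,x) = ∑ 1/N(z)` over `z ∈ ann 0 x` all of whose prime divisors (in `PI D`) lie in `I` satisfies `V(I,x) ≤ 2 SS I nm x` (`x ≤ D`).  Induction on `I`; for
`insert p I` a second (strong) induction on `⌊x⌋₊`: `V(I ∪ p, x) ≤ V(I,x) + (1/N(p)) V(I ∪ p, x/N(p))` and `SS_insert`:
`V(I∪p,x) ≤ 2 SS(I,x) + (2/n)(SS(I,x/n) + SS(I,x/n²)/(n-1)) ≤ 2 SS(I,x) + (2/(n-1)) SS(I,x/n)`.  `I = ∅`: only `z = ±1`. Then `sum_inv_ge`. -/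

open Finset

namespace Pool.Agent.MRS

/-- one prime from each pair `±p` in the class `Od` (inert primes included) -/
noncomputable def PI (D : ℝ) : Finset GI :=
  open Classical in (ann 0 D).filter (fun z => Prime z ∧ 0 < z.re)

theorem mem_PI {D : ℝ} {p : GI} : p ∈ PI D ↔ Od p ∧ Prime p ∧ 0 < p.re ∧ (nm p : ℝ) ≤ D := by
  unfold PI
  simp only [Finset.mem_filter, mem_ann]
  constructor
  · rintro ⟨⟨h1, _, h3⟩, h4, h5⟩
    exact ⟨h1, h4, h5, h3⟩
  · rintro ⟨h1, h2, h3, h4⟩
    refine ⟨⟨h1, ?_, h4⟩, h2, h3⟩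
    exact_mod_cast nm_pos (Od_ne h1)

/-- a Gaussian integer of norm one is a unit -/
theorem SLB_isUnit {z : GI} : IsUnit z ↔ nm z = 1 := by
  unfold nm
  rw [Zsqrtd.norm_eq_one_iff]

theorem SLB_two_le {p : GI} (hp : Prime p) : 2 ≤ nm p := by
  have h0 := nm_pos hp.ne_zero
  have h1 : nm p ≠ 1 := fun h => hp.not_isUnit (SLB_isUnit.2 h)
  omega

theorem PI_nm {D : ℝ} {p : GI} (hp : p ∈ PI D) : 1 < (nm p : ℝ) := by
  have := SLB_two_le (mem_PI.1 hp).2.1
  have h : (2 : ℝ) ≤ nm p := by exact_mod_cast this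
  linarith

/-- a unit of the class is `1` or `-1` -/
theorem SLB_unit_cases {u : GI} (hu : nm u = 1) (ho : Od u) : u = 1 ∨ u = -1 := by
  have h : (nm u : ℤ) = 1 := by exact_mod_cast hu
  rw [nm_int] at h
  obtain ⟨h1, h2⟩ := ho
  have him : u.im = 0 := by
    by_contra h0
    have h3 : 1 ≤ u.im ^ 2 := by
      have := sq_nonneg u.im
      have h4 : u.im ^ 2 ≠ 0 := pow_ne_zero 2 h0
      omega
    have h5 : u.re ^ 2 = 0 := by
      have := sq_nonneg u.re
      omega
    have h6 : u.re = 0 := by simpa using h5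
    rw [h6] at h1
    omega
  have hre : u.re ^ 2 = 1 := by rw [him] at h; linarith
  have hfac : (u.re - 1) * (u.re + 1) = 0 := by
    have : (u.re - 1) * (u.re + 1) = u.re ^ 2 - 1 := by ring
    rw [this, hre]
    rfl
  have hor : u.re = 1 ∨ u.re = -1 := by
    rcases mul_eq_zero.1 hfac with h | h
    · left
      omega
    · right
      omega
  rcases hor with h3 | h3
  · left
    ext
    · simpa using h3
    · simpa using him
  · right
    ext
    · simpa using h3
    · simpa using him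

theorem SLB_dvd_eq {D : ℝ} {p q : GI} (hp : p ∈ PI D) (hq : q ∈ PI D) (h : p ∣ q) : p = q := by
  obtain ⟨hpo, hpp, hpr, _⟩ := mem_PI.1 hp
  obtain ⟨hqo, hqp, hqr, _⟩ := mem_PI.1 hq
  obtain ⟨u, hu⟩ := h
  have huu : IsUnit u := by
    rcases hqp.irreducible.isUnit_or_isUnit hu with h1 | h1
    · exact absurd h1 hpp.not_isUnit
    · exact h1
  have huo : Od u := by
    rw [hu] at hqo
    exact Od_of_mul hpo hqo
  rcases SLB_unit_cases (SLB_isUnit.1 huu) huo with h1 | h1
  · rw [hu, h1, mul_one]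
  · exfalso
    rw [hu, h1] at hqr
    simp at hqr
    omega

/-- every `z` of the class which is not `±1` is divisible by an element of `PI` -/
theorem exists_PI {D : ℝ} {z : GI} (hz : Od z) (h1 : nm z ≠ 1) (hD : (nm z : ℝ) ≤ D) :
    ∃ p ∈ PI D, p ∣ z := by
  have hz0 := Od_ne hz
  obtain ⟨q, hq, hqz⟩ := WfDvdMonoid.exists_irreducible_factor
    (fun h => h1 (SLB_isUnit.1 h)) hz0
  have hqp : Prime q := hq.prime
  have hodd : nm q % 2 = 1 := by
    obtain ⟨w, rfl⟩ := hqz
    have h4 := Od_nm hz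
    rw [nm_mul] at h4
    by_contra h
    have h2 : 2 ∣ nm q := by omega
    have h3 : 2 ∣ nm q * nm w := Dvd.dvd.mul_right h2 _
    omega
  have hle : nm q ≤ nm z := by
    obtain ⟨w, rfl⟩ := hqz
    rw [nm_mul]
    have hw : w ≠ 0 := by
      rintro rfl
      simp at hz0
    have := nm_pos hw
    nlinarith
  have hqi : (nm q : ℤ) = q.re ^ 2 + q.im ^ 2 := nm_int q
  have hoddi : (q.re ^ 2 + q.im ^ 2) % 2 = 1 := by
    rw [← hqi]
    omega
  -- choose the associate in the class with positive real part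
  have key : ∃ p : GI, Associated q p ∧ Od p ∧ 0 < p.re := by
    have hpar : (q.re % 2 = 1 ∧ q.im % 2 = 0) ∨ (q.re % 2 = 0 ∧ q.im % 2 = 1) := by
      rcases Int.emod_two_eq_zero_or_one q.re with ha | ha <;>
      rcases Int.emod_two_eq_zero_or_one q.im with hb | hb
      · exfalso
        have h5 : (q.re ^ 2 + q.im ^ 2) % 2 = 0 := by
          have h6 : q.re ^ 2 % 2 = 0 := by rw [pow_two, Int.mul_emod, ha]; rfl
          have h7 : q.im ^ 2 % 2 = 0 := by rw [pow_two, Int.mul_emod, hb]; rfl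
          omega
        omega
      · exact Or.inr ⟨ha, hb⟩
      · exact Or.inl ⟨ha, hb⟩
      · exfalso
        have h5 : (q.re ^ 2 + q.im ^ 2) % 2 = 0 := by
          have h6 : q.re ^ 2 % 2 = 1 := by rw [pow_two, Int.mul_emod, ha]; rfl
          have h7 : q.im ^ 2 % 2 = 1 := by rw [pow_two, Int.mul_emod, hb]; rfl
          omega
        omega
    have hI : IsUnit (⟨0, 1⟩ : GI) := by
      rw [SLB_isUnit]
      rfl
    rcases hpar with ⟨ha, hb⟩ | ⟨ha, hb⟩
    · rcases lt_trichotomy q.re 0 with h | h | h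
      · refine ⟨-q, (Associated.refl q).neg_right, Od_neg ⟨ha, hb⟩, ?_⟩
        simp
        omega
      · omega
      · exact ⟨q, Associated.refl q, ⟨ha, hb⟩, h⟩
    · rcases lt_trichotomy q.im 0 with h | h | h
      · refine ⟨q * ⟨0, 1⟩, associated_mul_unit_right q _ hI, ?_, ?_⟩
        · constructor
          · simp
            omega
          · simp
            omega
        · simp
          omega
      · omega
      · refine ⟨-(q * ⟨0, 1⟩), ?_, ?_, ?_⟩
        · exact (associated_mul_unit_right q _ hI).neg_right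
        · constructor
          · simp
            omega
          · simp
            omega
        · simp
          omega
  obtain ⟨p, hqp', hpo, hpr⟩ := key
  refine ⟨p, mem_PI.2 ⟨hpo, hqp'.prime hqp, hpr, ?_⟩, hqp'.symm.dvd.trans hqz⟩
  have hnm : nm p = nm q := by
    obtain ⟨u, hu⟩ := hqp'
    rw [← hu, nm_mul, SLB_isUnit.1 u.isUnit, mul_one]
  rw [hnm]
  have : (nm q : ℝ) ≤ nm z := by exact_mod_cast hle
  linarith

theorem SLB_coprime {D : ℝ} {p q : GI} (hp : p ∈ PI D) (hq : q ∈ PI D) (h : p ≠ q) :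
    IsCoprime p q := by
  rw [(mem_PI.1 hp).2.1.irreducible.coprime_iff_not_dvd]
  exact fun h1 => h (SLB_dvd_eq hp hq h1)

theorem prod_dvd_iff {D : ℝ} {T : Finset GI} (hT : T ⊆ PI D) (z : GI) :
    (∏ p ∈ T, p) ∣ z ↔ ∀ p ∈ T, p ∣ z := by
  constructor
  · intro h p hp
    exact (Finset.dvd_prod_of_mem (fun p : GI => p) hp).trans h
  · intro h
    refine Finset.prod_dvd_of_coprime ?_ h
    intro p hp q hq hpq
    exact SLB_coprime (hT hp) (hT hq) hpq

theorem Od_prod {D : ℝ} {T : Finset GI} (hT : T ⊆ PI D) : Od (∏ p ∈ T, p) := by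
  classical
  induction T using Finset.induction_on with
  | empty => simpa using Od_one
  | insert a s ha ih =>
    rw [Finset.prod_insert ha]
    exact Od_mul (mem_PI.1 (hT (Finset.mem_insert_self a s))).1
      (ih (fun x hx => hT (Finset.mem_insert_of_mem hx)))

theorem nm_prod (T : Finset GI) : (nm (∏ p ∈ T, p) : ℝ) = ∏ p ∈ T, (nm p : ℝ) := by
  classical
  induction T using Finset.induction_on with
  | empty => simp [nm_one]
  | insert a s ha ih =>
    rw [Finset.prod_insert ha, Finset.prod_insert ha, nm_mul, Nat.cast_mul, ih]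

theorem SLB_mem_iff {D : ℝ} {T : Finset GI} (hT : T ⊆ PI D) {q : GI} (hq : q ∈ PI D) :
    q ∣ ∏ p ∈ T, p ↔ q ∈ T := by
  constructor
  · intro h
    obtain ⟨a, ha, hqa⟩ := ((mem_PI.1 hq).2.1.dvd_finsetProd_iff (fun p : GI => p)).1 h
    rw [SLB_dvd_eq hq (hT ha) hqa]
    exact ha
  · intro h
    exact Finset.dvd_prod_of_mem (fun p : GI => p) h

/-- number of admissible sets (injective: `T ↦ ∏ T`) -/
theorem card_adm (D : ℝ) (hD : 1 ≤ D) : open Classical in
    (((PI D).powerset.filter (fun T => ∏ p ∈ T, (nm p : ℝ) ≤ D)).card : ℝ) ≤ 4 * D := by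
  classical
  refine le_trans ?_ (card_ann_le 0 (by linarith : (0 : ℝ) ≤ D))
  norm_cast
  refine Finset.card_le_card_of_injOn (fun T => ∏ p ∈ T, p) ?_ ?_
  · intro T hT
    have hT' := Finset.mem_filter.1 hT
    have hs := Finset.mem_powerset.1 hT'.1
    rw [Finset.mem_coe, mem_ann]
    refine ⟨Od_prod hs, ?_, ?_⟩
    · exact_mod_cast nm_pos (Od_ne (Od_prod hs))
    · rw [nm_prod]
      exact_mod_cast hT'.2
  · intro T hT T' hT' h
    have hs := Finset.mem_powerset.1 (Finset.mem_filter.1 hT).1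
    have hs' := Finset.mem_powerset.1 (Finset.mem_filter.1 hT').1
    have h' : ∏ p ∈ T, p = ∏ p ∈ T', p := h
    ext q
    constructor
    · intro hq
      rw [← SLB_mem_iff hs' (hs hq), ← h', SLB_mem_iff hs (hs hq)]
      exact hq
    · intro hq
      rw [← SLB_mem_iff hs (hs' hq), h', SLB_mem_iff hs' (hs' hq)]
      exact hq

theorem SLB_SS_nonneg {I : Finset GI} {n : GI → ℝ} (hn : ∀ i ∈ I, 1 < n i) (x : ℝ) :
    0 ≤ SS I n x := by
  classical
  unfold SS
  refine Finset.sum_nonneg fun T hT => Finset.prod_nonneg fun i hi => ?_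
  have hs := Finset.mem_powerset.1 (Finset.mem_filter.1 hT).1
  have := hn i (hs hi)
  exact one_div_nonneg.2 (by linarith)

theorem SLB_SS_mono {I : Finset GI} {n : GI → ℝ} (hn : ∀ i ∈ I, 1 < n i) {x y : ℝ}
    (hxy : x ≤ y) : SS I n x ≤ SS I n y := by
  classical
  unfold SS
  refine Finset.sum_le_sum_of_subset_of_nonneg ?_ ?_
  · intro T hT
    have hT' := Finset.mem_filter.1 hT
    exact Finset.mem_filter.2 ⟨hT'.1, hT'.2.trans hxy⟩
  · intro T hT _
    refine Finset.prod_nonneg fun i hi => ?_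
    have hs := Finset.mem_powerset.1 (Finset.mem_filter.1 hT).1
    have := hn i (hs hi)
    exact one_div_nonneg.2 (by linarith)

/-- the elements of norm at most `x` all of whose prime divisors lie in `I` -/
noncomputable def SLB_VS (D : ℝ) (I : Finset GI) (x : ℝ) : Finset GI :=
  open Classical in (ann 0 x).filter (fun z => ∀ p ∈ PI D, p ∣ z → p ∈ I)

/-- the sum of the inverse norms over `SLB_VS` -/
noncomputable def SLB_V (D : ℝ) (I : Finset GI) (x : ℝ) : ℝ :=
  ∑ z ∈ SLB_VS D I x, (1 : ℝ) / nm z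

theorem SLB_mem_VS {D : ℝ} {I : Finset GI} {x : ℝ} {z : GI} :
    z ∈ SLB_VS D I x ↔ (Od z ∧ (nm z : ℝ) ≤ x) ∧ ∀ p ∈ PI D, p ∣ z → p ∈ I := by
  unfold SLB_VS
  simp only [Finset.mem_filter, mem_ann]
  constructor
  · rintro ⟨⟨h1, _, h3⟩, h4⟩
    exact ⟨⟨h1, h3⟩, h4⟩
  · rintro ⟨⟨h1, h3⟩, h4⟩
    exact ⟨⟨h1, by exact_mod_cast nm_pos (Od_ne h1), h3⟩, h4⟩

theorem SLB_V_insert {D : ℝ} {I : Finset GI} {p : GI} (hp : p ∈ PI D) (x : ℝ) :
    SLB_V D (insert p I) x ≤ SLB_V D I x + 1 / nm p * SLB_V D (insert p I) (x / nm p) := by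
  classical
  unfold SLB_V
  have hp1 := PI_nm hp
  have hpo := (mem_PI.1 hp).1
  have hp0 : p ≠ 0 := Od_ne hpo
  rw [← Finset.sum_filter_add_sum_filter_not (SLB_VS D (insert p I) x) (fun z => p ∣ z), add_comm]
  refine add_le_add ?_ ?_
  · refine Finset.sum_le_sum_of_subset_of_nonneg ?_ (fun z _ _ => by positivity)
    intro z hz
    obtain ⟨hz1, hz2⟩ := Finset.mem_filter.1 hz
    obtain ⟨h1, h2⟩ := SLB_mem_VS.1 hz1
    refine SLB_mem_VS.2 ⟨h1, fun q hq hqz => ?_⟩
    rcases Finset.mem_insert.1 (h2 q hq hqz) with h3 | h3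
    · exact absurd (h3 ▸ hqz) hz2
    · exact h3
  · rw [Finset.mul_sum]
    have himg : (SLB_VS D (insert p I) x).filter (fun z => p ∣ z) ⊆
        (SLB_VS D (insert p I) (x / nm p)).image (fun w => p * w) := by
      intro z hz
      obtain ⟨hz1, w, rfl⟩ := Finset.mem_filter.1 hz
      obtain ⟨⟨h1, h1'⟩, h2⟩ := SLB_mem_VS.1 hz1
      refine Finset.mem_image.2 ⟨w, SLB_mem_VS.2 ⟨⟨Od_of_mul hpo h1, ?_⟩, ?_⟩, rfl⟩
      · rw [le_div_iff₀ (by linarith)]
        rw [nm_mul, Nat.cast_mul] at h1'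
        linarith
      · intro q hq hqw
        exact h2 q hq (hqw.mul_left p)
    refine le_trans (Finset.sum_le_sum_of_subset_of_nonneg himg (fun z _ _ => by positivity)) ?_
    rw [Finset.sum_image (fun a _ b _ h => mul_left_cancel₀ hp0 h)]
    refine le_of_eq (Finset.sum_congr rfl fun w _ => ?_)
    rw [nm_mul, Nat.cast_mul, one_div_mul_one_div]

theorem SLB_V_empty {D x : ℝ} (hx : x ≤ D) :
    SLB_V D ∅ x ≤ 2 * SS (∅ : Finset GI) (fun p : GI => (nm p : ℝ)) x := by
  classical
  by_cases h1 : 1 ≤ x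
  · have hSS : SS (∅ : Finset GI) (fun p : GI => (nm p : ℝ)) x = 1 := by
      unfold SS
      rw [Finset.powerset_empty, Finset.filter_singleton]
      simp [h1]
    rw [hSS]
    unfold SLB_V
    have hsub : SLB_VS D ∅ x ⊆ {1, -1} := by
      intro z hz
      obtain ⟨⟨h2, h3⟩, h4⟩ := SLB_mem_VS.1 hz
      by_cases h5 : nm z = 1
      · rcases SLB_unit_cases h5 h2 with h6 | h6 <;> simp [h6]
      · obtain ⟨p, hp, hpz⟩ := exists_PI h2 h5 (h3.trans hx)
        have := h4 p hp hpz
        simp at this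
    refine le_trans (Finset.sum_le_sum_of_subset_of_nonneg hsub (fun z _ _ => by positivity)) ?_
    refine le_trans (Finset.sum_le_card_nsmul _ _ 1 ?_) ?_
    · intro z hz
      have : nm z = 1 := by
        rcases Finset.mem_insert.1 hz with h6 | h6
        · rw [h6, nm_one]
        · rw [Finset.mem_singleton.1 h6, nm_neg, nm_one]
      rw [this]
      norm_num
    · have : (({1, -1} : Finset GI).card : ℝ) ≤ 2 := by exact_mod_cast Finset.card_le_two
      simpa using this
  · have hV : SLB_VS D ∅ x = ∅ := by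
      rw [Finset.eq_empty_iff_forall_notMem]
      intro z hz
      obtain ⟨⟨h2, h3⟩, _⟩ := SLB_mem_VS.1 hz
      have : (1 : ℝ) ≤ nm z := by exact_mod_cast nm_pos (Od_ne h2)
      exact h1 (this.trans h3)
    unfold SLB_V
    rw [hV, Finset.sum_empty]
    have := SLB_SS_nonneg (I := (∅ : Finset GI)) (n := fun p : GI => (nm p : ℝ)) (by simp) x
    linarith

theorem SLB_V_le {D : ℝ} (I : Finset GI) (hI : I ⊆ PI D) :
    ∀ x : ℝ, x ≤ D → SLB_V D I x ≤ 2 * SS I (fun p : GI => (nm p : ℝ)) x := by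
  classical
  induction I using Finset.induction_on with
  | empty =>
    intro x hx
    exact SLB_V_empty hx
  | insert p I hpI ih =>
    have hp : p ∈ PI D := hI (Finset.mem_insert_self p I)
    have hI' : I ⊆ PI D := fun q hq => hI (Finset.mem_insert_of_mem hq)
    have ih' := ih hI'
    have hp1 := PI_nm hp
    have hn : ∀ i ∈ insert p I, 1 < (fun p : GI => (nm p : ℝ)) i := fun i hi => PI_nm (hI hi)
    have hn' : ∀ i ∈ I, 1 < (fun p : GI => (nm p : ℝ)) i := fun i hi => PI_nm (hI' hi)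
    have main : ∀ m : ℕ, ∀ x : ℝ, ⌊x⌋₊ = m → x ≤ D →
        SLB_V D (insert p I) x ≤ 2 * SS (insert p I) (fun p : GI => (nm p : ℝ)) x := by
      intro m
      induction m using Nat.strong_induction_on with
      | _ m ihm =>
        intro x hxm hxD
        by_cases h1 : 1 ≤ x
        · have hfl : ⌊x / nm p⌋₊ < m := by
            rw [Nat.floor_div_natCast, hxm]
            refine Nat.div_lt_self ?_ ?_
            · rw [← hxm]
              exact Nat.floor_pos.2 h1
            · exact_mod_cast hp1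
          have hxp : x / nm p ≤ x := div_le_self (by linarith) hp1.le
          have e1 := ihm _ hfl (x / nm p) rfl (hxp.trans hxD)
          have e2 := ih' x hxD
          have e3 := SLB_V_insert (I := I) hp x
          have e4 := SS_insert I (fun p : GI => (nm p : ℝ)) p hpI hn x (by linarith)
          have e5 := SS_insert I (fun p : GI => (nm p : ℝ)) p hpI hn (x / nm p) (by positivity)
          have e6 : SS I (fun p : GI => (nm p : ℝ)) (x / nm p / nm p) ≤
              SS I (fun p : GI => (nm p : ℝ)) (x / nm p) :=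
            SLB_SS_mono hn' (div_le_self (by positivity) hp1.le)
          have hpos : 0 < (nm p : ℝ) - 1 := by linarith
          rw [e4]
          have e7 : SS (insert p I) (fun p : GI => (nm p : ℝ)) (x / nm p) ≤
              (1 + 1 / ((nm p : ℝ) - 1)) * SS I (fun p : GI => (nm p : ℝ)) (x / nm p) := by
            rw [e5, add_mul, one_mul]
            have : (0 : ℝ) ≤ 1 / ((nm p : ℝ) - 1) := by positivity
            nlinarith [mul_le_mul_of_nonneg_left e6 this]
          have e8 : 1 / (nm p : ℝ) * SLB_V D (insert p I) (x / nm p) ≤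
              1 / (nm p : ℝ) * (2 * ((1 + 1 / ((nm p : ℝ) - 1)) *
                SS I (fun p : GI => (nm p : ℝ)) (x / nm p))) :=
            mul_le_mul_of_nonneg_left (e1.trans (by linarith)) (by positivity)
          have e9 : 1 / (nm p : ℝ) * (2 * ((1 + 1 / ((nm p : ℝ) - 1)) *
                SS I (fun p : GI => (nm p : ℝ)) (x / nm p))) =
              2 * (1 / ((nm p : ℝ) - 1) * SS I (fun p : GI => (nm p : ℝ)) (x / nm p)) := by
            have h2 : (nm p : ℝ) ≠ 0 := by linarith
            have h3 : (nm p : ℝ) - 1 ≠ 0 := hpos.ne'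
            field_simp
            ring
          linarith
        · have hV : SLB_VS D (insert p I) x = ∅ := by
            rw [Finset.eq_empty_iff_forall_notMem]
            intro z hz
            obtain ⟨⟨h2, h3⟩, _⟩ := SLB_mem_VS.1 hz
            have : (1 : ℝ) ≤ nm z := by exact_mod_cast nm_pos (Od_ne h2)
            exact h1 (this.trans h3)
          have hV' : SLB_V D (insert p I) x = 0 := by
            unfold SLB_V
            rw [hV, Finset.sum_empty]
          have := SLB_SS_nonneg hn x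
          rw [hV']
          linarith
    intro x hx
    exact main _ x rfl hx

theorem SS_ge : ∃ c D0 : ℝ, 0 < c ∧ 2 ≤ D0 ∧ ∀ D : ℝ, D0 ≤ D →
    c * Real.log D ≤ SS (PI D) (fun p : GI => (nm p : ℝ)) D := by
  classical
  obtain ⟨c, Y0, hc, hY0, h⟩ := sum_inv_ge
  refine ⟨c / 2, max 2 Y0, by positivity, le_max_left _ _, fun D hD => ?_⟩
  have h1 := h D ((le_max_right _ _).trans hD)
  have h2 := SLB_V_le (PI D) (Finset.Subset.refl _) D le_rfl
  have h3 : SLB_V D (PI D) D = ∑ z ∈ ann 0 D, (1 : ℝ) / nm z := by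
    unfold SLB_V SLB_VS
    rw [Finset.filter_true_of_mem]
    intro z _ p hp _
    exact hp
  rw [h3] at h2
  linarith

end Pool.Agent.MRS
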