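import Pool.Agent.MRS.LCount

set_option autoImplicit false

/-! Module TAU: second moment of `τ_j(w) = #{(p_1,…,p_j) ∈ S^j : ∏ p_i ∣ w}`.  Port of `acoef_sum_sq` and its lemmas in
`Pool/Agent/MR/ACoef.lean`: `∑_w τ_j(w)^2 = ∑_{(p),(p')} #{w : lcm ∣ w} ≤ 4 Y ∑ 1/N(lcm)`, `N(lcm) ≥ N(D) ∏_{p'_i ∤ D} N(p'_i)`. -/

open Finset

namespace Pool.Agent.MRS

/-- tuples -/
noncomputable def tup (S : Finset GI) (l : ℕ) : Finset (Fin l → GI) := Fintype.piFinset (fun _ => S)

/-- `τ_l(w)` -/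
noncomputable def tau (S : Finset GI) (l : ℕ) (w : GI) : ℕ :=
  open Classical in ((tup S l).filter (fun p => (∏ i, p i) ∣ w)).card

theorem mem_tup {S : Finset GI} {l : ℕ} {p : Fin l → GI} : p ∈ tup S l ↔ ∀ i, p i ∈ S :=
  Fintype.mem_piFinset

theorem TAU_nm_prod {ι : Type*} (s : Finset ι) (f : ι → GI) :
    nm (∏ i ∈ s, f i) = ∏ i ∈ s, nm (f i) := by
  classical
  induction s using Finset.induction_on with
  | empty => simp [nm_one]
  | insert a s ha ih => rw [prod_insert ha, prod_insert ha, nm_mul, ih]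

theorem TAU_Od_prod {ι : Type*} (s : Finset ι) (f : ι → GI) (h : ∀ i ∈ s, Od (f i)) :
    Od (∏ i ∈ s, f i) := by
  classical
  induction s using Finset.induction_on with
  | empty => simpa using Od_one
  | insert a s ha ih =>
    rw [prod_insert ha]
    exact Od_mul (h a (mem_insert_self a s)) (ih fun i hi => h i (mem_insert_of_mem hi))

/-- multiples of `d` -/
theorem TAU_card_mult (Y : ℝ) (hY : 0 ≤ Y) (d : GI) (hd : Od d) :
    open Classical in (((ann 0 Y).filter (fun w => d ∣ w)).card : ℝ) ≤ 4 * Y * (1 / nm d) := by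
  classical
  have hnd : (0 : ℝ) < nm d := by exact_mod_cast nm_pos (Od_ne hd)
  have h1 : (ann 0 Y).filter (fun w => d ∣ w) ⊆ (ann 0 (Y / nm d)).image (fun x => d * x) := by
    intro w hw
    rw [mem_filter, mem_ann] at hw
    obtain ⟨⟨ho, h0, hle⟩, x, rfl⟩ := hw
    rw [mem_image]
    refine ⟨x, ?_, rfl⟩
    rw [nm_mul, Nat.cast_mul] at h0 hle
    rw [mem_ann]
    refine ⟨Od_of_mul hd ho, ?_, ?_⟩
    · exact (mul_pos_iff_of_pos_left hnd).1 h0
    · rw [le_div_iff₀ hnd, mul_comm]; exact hle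
  have h2 : (((ann 0 Y).filter (fun w => d ∣ w)).card : ℝ) ≤ ((ann 0 (Y / nm d)).card : ℝ) := by
    exact_mod_cast (card_le_card h1).trans card_image_le
  refine h2.trans ((card_ann_le 0 (by positivity)).trans (le_of_eq ?_))
  ring

theorem TAU_dvd_card (S : Finset GI) (hS : ∀ p ∈ S, PP p) (l : ℕ) (p : Fin l → GI)
    (hp : p ∈ tup S l) :
    open Classical in (S.filter (fun q => q ∣ ∏ i, p i)).card ≤ l := by
  classical
  have h : S.filter (fun q => q ∣ ∏ i, p i) ⊆ (Finset.univ : Finset (Fin l)).image p := by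
    intro q hq
    rw [mem_filter] at hq
    obtain ⟨i, _, hqi⟩ := ((PP_prime (hS q hq.1)).dvd_finsetProd_iff _).1 hq.2
    rw [mem_image]
    exact ⟨i, mem_univ _, (PP_dvd_PP (hS q hq.1) (hS _ (mem_tup.1 hp i)) hqi).symm⟩
  calc (S.filter (fun q => q ∣ ∏ i, p i)).card ≤ ((Finset.univ : Finset (Fin l)).image p).card :=
        card_le_card h
    _ ≤ (Finset.univ : Finset (Fin l)).card := card_image_le
    _ = l := by simp

/-- Weight of a prime relative to `D`. -/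
noncomputable def TAU_w (D q : GI) : ℝ := open Classical in if q ∣ D then 1 else 1 / (nm q : ℝ)

theorem TAU_w_nonneg (D q : GI) : 0 ≤ TAU_w D q := by
  unfold TAU_w
  split_ifs <;> positivity

theorem TAU_sum_w (S : Finset GI) (hS : ∀ p ∈ S, PP p) (hs : rs S ≤ 1) (l : ℕ)
    (p : Fin l → GI) (hp : p ∈ tup S l) : ∑ q ∈ S, TAU_w (∏ i, p i) q ≤ (l : ℝ) + 1 := by
  classical
  have h1 : ∀ q ∈ S, TAU_w (∏ i, p i) q ≤ (if q ∣ ∏ i, p i then 1 else 0) + 1 / (nm q : ℝ) := by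
    intro q _
    unfold TAU_w
    have : (0 : ℝ) ≤ 1 / (nm q : ℝ) := by positivity
    split_ifs <;> linarith
  refine (sum_le_sum h1).trans ?_
  rw [sum_add_distrib, ← sum_filter, sum_const, nsmul_eq_mul, mul_one]
  have h2 := TAU_dvd_card S hS l p hp
  have h3 : ((S.filter (fun q => q ∣ ∏ i, p i)).card : ℝ) ≤ l := by
    have h4 : (S.filter (fun q => q ∣ ∏ i, p i)).card ≤ l := by convert h2
    exact_mod_cast h4
  unfold rs at hs
  linarith

theorem TAU_pair (S : Finset GI) (hS : ∀ p ∈ S, PP p) (l : ℕ) (Y : ℝ) (hY : 0 ≤ Y)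
    (p p' : Fin l → GI) (hp : p ∈ tup S l) (hp' : p' ∈ tup S l) :
    open Classical in
    (((ann 0 Y).filter (fun w => (∏ i, p i) ∣ w ∧ (∏ i, p' i) ∣ w)).card : ℝ) ≤
      4 * Y * (1 / (nm (∏ i, p i) : ℝ)) * ∏ i, TAU_w (∏ i, p i) (p' i) := by
  classical
  set D : GI := ∏ i, p i with hD
  set E : GI := ∏ i, (if p' i ∣ D then 1 else p' i) with hE
  have hDo : Od D := TAU_Od_prod _ _ fun i _ => (hS _ (mem_tup.1 hp i)).1
  have hEo : Od E := by
    apply TAU_Od_prod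
    intro i _
    split_ifs
    · exact Od_one
    · exact (hS _ (mem_tup.1 hp' i)).1
  have hcop : IsCoprime D E := by
    apply IsCoprime.prod_right
    intro i _
    split_ifs with h
    · exact isCoprime_one_right
    · exact ((Irreducible.coprime_iff_not_dvd
        (PP_prime (hS _ (mem_tup.1 hp' i))).irreducible).2 h).symm
  have hED' : E ∣ ∏ i, p' i := by
    apply prod_dvd_prod_of_dvd
    intro i _
    split_ifs
    · exact one_dvd _
    · exact dvd_rfl
  have hsub : (ann 0 Y).filter (fun w => D ∣ w ∧ (∏ i, p' i) ∣ w) ⊆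
      (ann 0 Y).filter (fun w => D * E ∣ w) := by
    intro w hw
    rw [mem_filter] at hw ⊢
    exact ⟨hw.1, hcop.mul_dvd hw.2.1 (hED'.trans hw.2.2)⟩
  have h1 : (((ann 0 Y).filter (fun w => D ∣ w ∧ (∏ i, p' i) ∣ w)).card : ℝ) ≤
      (((ann 0 Y).filter (fun w => D * E ∣ w)).card : ℝ) := by
    exact_mod_cast card_le_card hsub
  refine h1.trans ((TAU_card_mult Y hY (D * E) (Od_mul hDo hEo)).trans (le_of_eq ?_))
  have h9 : ∏ i, TAU_w D (p' i) = 1 / (nm E : ℝ) := by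
    rw [hE, TAU_nm_prod, Nat.cast_prod, one_div, ← Finset.prod_inv_distrib]
    refine Finset.prod_congr rfl fun i _ => ?_
    unfold TAU_w
    split_ifs <;> simp [nm_one]
  rw [h9, nm_mul, Nat.cast_mul, mul_assoc (4 * Y), one_div_mul_one_div]

theorem sum_tau_sq (S : Finset GI) (hS : ∀ p ∈ S, PP p) (hs : rs S ≤ 1) (l : ℕ) (Y : ℝ) (hY : 0 ≤ Y) :
    ∑ w ∈ ann 0 Y, (tau S l w : ℝ) ^ 2 ≤ 4 * Y * ((l : ℝ) + 1) ^ l := by
  classical
  have h1 : ∀ n : GI, (tau S l n : ℝ) ^ 2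
      = ∑ p ∈ tup S l, ∑ p' ∈ tup S l,
        (if (∏ i, p i) ∣ n ∧ (∏ i, p' i) ∣ n then (1 : ℝ) else 0) := by
    intro n
    have h0 : tau S l n = ((tup S l).filter (fun p => (∏ i, p i) ∣ n)).card := by
      unfold tau; congr
    rw [h0, card_filter, Nat.cast_sum, sq, sum_mul_sum]
    refine sum_congr rfl fun p _ => sum_congr rfl fun p' _ => ?_
    split_ifs <;> simp_all
  simp_rw [h1]
  rw [sum_comm]
  have h2 : ∀ p ∈ tup S l, ∑ n ∈ ann 0 Y, ∑ p' ∈ tup S l,
      (if (∏ i, p i) ∣ n ∧ (∏ i, p' i) ∣ n then (1 : ℝ) else 0)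
      ≤ 4 * Y * (1 / (nm (∏ i, p i) : ℝ)) * ((l : ℝ) + 1) ^ l := by
    intro p hp
    rw [sum_comm]
    have h3 : ∀ p' ∈ tup S l, ∑ n ∈ ann 0 Y,
        (if (∏ i, p i) ∣ n ∧ (∏ i, p' i) ∣ n then (1 : ℝ) else 0)
        ≤ 4 * Y * (1 / (nm (∏ i, p i) : ℝ)) * ∏ i, TAU_w (∏ i, p i) (p' i) := by
      intro p' hp'
      refine le_trans (le_of_eq ?_) (TAU_pair S hS l Y hY p p' hp hp')
      rw [card_filter, Nat.cast_sum]
      refine sum_congr rfl fun n _ => ?_
      split_ifs <;> simp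
    refine (sum_le_sum h3).trans ?_
    rw [← mul_sum]
    refine mul_le_mul_of_nonneg_left ?_ (by positivity)
    have h6 : ∑ p' ∈ tup S l, ∏ i, TAU_w (∏ i, p i) (p' i) =
        (∑ q ∈ S, TAU_w (∏ i, p i) q) ^ l := by
      have := Finset.prod_univ_sum (fun _ : Fin l => S) (fun _ q => TAU_w (∏ i, p i) q)
      rw [prod_const, card_univ, Fintype.card_fin] at this
      exact this.symm
    rw [h6]
    exact pow_le_pow_left₀ (sum_nonneg fun q _ => TAU_w_nonneg _ _)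
      (TAU_sum_w S hS hs l p hp) l
  refine (sum_le_sum h2).trans ?_
  rw [← sum_mul, ← mul_sum]
  have h7 : ∑ p ∈ tup S l, 1 / (nm (∏ i, p i) : ℝ) = (rs S) ^ l := by
    have := Finset.prod_univ_sum (fun _ : Fin l => S) (fun (_ : Fin l) (q : GI) => 1 / (nm q : ℝ))
    rw [prod_const, card_univ, Fintype.card_fin] at this
    unfold rs
    rw [this]
    refine sum_congr rfl fun p _ => ?_
    rw [TAU_nm_prod, Nat.cast_prod, one_div, ← Finset.prod_inv_distrib]
    simp only [one_div]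
  rw [h7]
  have hrs0 : 0 ≤ rs S := by
    unfold rs
    exact sum_nonneg fun p _ => by positivity
  have h8 : (rs S) ^ l ≤ 1 := pow_le_one₀ hrs0 hs
  have h10 : 4 * Y * (rs S) ^ l ≤ 4 * Y * 1 := mul_le_mul_of_nonneg_left h8 (by positivity)
  rw [mul_one] at h10
  exact mul_le_mul_of_nonneg_right h10 (by positivity)

end Pool.Agent.MRS
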