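import Pool.Agent.MRS.Major
import Pool.Agent.MRS.Schur
import Pool.Agent.MRS.Large
import Pool.Agent.MRS.LevOne
import Pool.Agent.MRS.Pw

set_option autoImplicit false

/-! Module LAR (large_values): port of `MR/ALarge.lean`: `schur` with `W = ann 0 (3Z)`, `majorant (C+1)`, `card_PP`.
Module TOP (top_bound): port of `MR/ATopB.lean`: `P = PP ∩ (N^θ1, N^{1/4}]`, `H` constant, `rs P ≥ (1/2) log(1/(4θ1)) - C` large (`rs_window`), `split`, `pw` at
`M = N/e^{v/H} ≥ N^{3/4}` (`|k| ≤ N ≤ M^2`), `large_values` with `Z = e^{v/H}`, `|c| ≤ 1`, block `⊆ [Z, 3Z]`. `0 ∉ U` is used for `pw`. -/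

open Finset

namespace Pool.Agent.MRS

theorem top_bound (η : ℝ) (hη : 0 < η) : ∃ ε0 N0 : ℝ, 0 < ε0 ∧ 1 ≤ N0 ∧ ∀ N : ℝ, N0 ≤ N →
    ∀ f : ℕ → ℂ, CM f → ∀ K : ℕ, (K : ℝ) ≤ N → ∀ U : Finset ℤ, U ⊆ Icc (-(K : ℤ)) (K : ℤ) →
    (0 : ℤ) ∉ U → (U.card : ℝ) ≤ N ^ ε0 →
    ∑ k ∈ U, fw K k * ‖sp (pan N (3 * N)) (gf f) k‖ ^ 2 ≤ η * N ^ 2 := by
  classical
  obtain ⟨K0, hK0, hsplit⟩ := split
  obtain ⟨Cm, hCm, hmert⟩ := rs_window
  set L0 : ℝ := 6 * K0 / η + 1 with hL0
  have hL0pos : 1 ≤ L0 := by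
    have : 0 ≤ 6 * K0 / η := by positivity
    linarith
  set H : ℕ := ⌈6 * K0 / η⌉₊ + 2 with hH
  have hH2 : 2 ≤ H := by omega
  have hHr : 6 * K0 / η ≤ H := by
    have := Nat.le_ceil (6 * K0 / η)
    rw [hH]
    push_cast
    linarith
  have hHr2 : (2 : ℝ) ≤ H := by exact_mod_cast hH2
  have hHpos : (0 : ℝ) < H := by linarith
  set θ : ℝ := Real.exp (-(2 * (L0 + Cm))) / 4 with hθ
  have hθpos : 0 < θ := by positivity
  have hθ1 : θ ≤ 1 / 4 := by
    have : Real.exp (-(2 * (L0 + Cm))) ≤ 1 := Real.exp_le_one_iff.2 (by linarith)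
    rw [hθ]
    linarith
  obtain ⟨δ, K1, Z1, hδ, hK1, hZ1, hlv⟩ := large_values (2 / θ) (by positivity)
  set η2 : ℝ := θ * √(η / (16 * K1)) / H with hη2
  have hη2pos : 0 < η2 := by
    have : 0 < √(η / (16 * K1)) := Real.sqrt_pos.2 (by positivity)
    positivity
  have hη2sq : 8 * K1 * (H : ℝ) ^ 2 / θ ^ 2 * η2 ^ 2 = η / 2 := by
    have hs : √(η / (16 * K1)) ^ 2 = η / (16 * K1) := Real.sq_sqrt (by positivity)
    have hθne : θ ≠ 0 := hθpos.ne'
    have hHne : (H : ℝ) ≠ 0 := hHpos.ne'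
    have e1 : 8 * K1 * (H : ℝ) ^ 2 / θ ^ 2 * η2 ^ 2 = 8 * K1 * (√(η / (16 * K1)) ^ 2) := by
      rw [hη2]
      generalize √(η / (16 * K1)) = q
      field_simp
    rw [e1, hs]
    field_simp
    ring
  obtain ⟨M0, hM01, hM0⟩ := pw η2 hη2pos
  -- eventual conditions
  have hev : ∀ᶠ N : ℝ in Filter.atTop, 1 ≤ N ∧ 3 ≤ N ^ θ ∧
      Z1 ≤ N ^ (θ / 2) ∧ M0 ≤ N ^ (3 / 4 : ℝ) ∧ 6 * K0 / η ≤ N ^ (1 / 4 : ℝ) ∧
      2 / θ ≤ Real.log N := by
    refine (Filter.eventually_ge_atTop 1).and ?_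
    refine ((tendsto_rpow_atTop hθpos).eventually_ge_atTop 3).and ?_
    refine ((tendsto_rpow_atTop (by positivity : 0 < θ / 2)).eventually_ge_atTop Z1).and ?_
    refine ((tendsto_rpow_atTop (by norm_num : (0 : ℝ) < 3 / 4)).eventually_ge_atTop M0).and ?_
    refine ((tendsto_rpow_atTop (by norm_num : (0 : ℝ) < 1 / 4)).eventually_ge_atTop _).and ?_
    exact Real.tendsto_log_atTop.eventually_ge_atTop _
  obtain ⟨N1, hN1⟩ := Filter.eventually_atTop.1 hev
  refine ⟨θ * δ / 2, max N1 1, by positivity, le_max_right _ _, ?_⟩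
  intro N hN f hf K hKN U hU hU0 hUc
  obtain ⟨hN1', hNθ, hNZ, hNM, hNs, hNl⟩ := hN1 N ((le_max_left _ _).trans hN)
  have hNpos : 0 < N := by linarith
  have hlogN : 8 ≤ Real.log N := by
    have : 8 ≤ 2 / θ := by
      rw [le_div_iff₀ hθpos]; linarith
    linarith
  have hlogpos : 0 < Real.log N := by linarith
  set P : Finset GI := (ann (N ^ θ) (N ^ (1 / 4 : ℝ))).filter PP with hP
  have hPP : ∀ p ∈ P, PP p := by
    intro p hp
    rw [hP, mem_filter] at hp
    exact hp.2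
  have hPle : ∀ p ∈ P, (nm p : ℝ) ≤ N ^ (1 / 4 : ℝ) := by
    intro p hp
    rw [hP, mem_filter, mem_ann] at hp
    exact hp.1.2.2
  have hPge : ∀ p ∈ P, N ^ θ < (nm p : ℝ) := by
    intro p hp
    rw [hP, mem_filter, mem_ann] at hp
    exact hp.1.2.1
  have hL : L0 ≤ rs P := by
    have h1 := hmert (N ^ θ) (N ^ (1 / 4 : ℝ)) (by linarith)
      (Real.rpow_le_rpow_of_exponent_le hN1' hθ1)
    rw [Real.log_rpow hNpos, Real.log_rpow hNpos] at h1
    have h2 : 1 / 4 * Real.log N / (θ * Real.log N) = Real.exp (2 * (L0 + Cm)) := by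
      rw [hθ, Real.exp_neg]
      field_simp
    rw [h2, Real.log_exp] at h1
    linarith
  have hL1 : 1 ≤ rs P := hL0pos.trans hL
  have hZ1' : (1 : ℝ) ≤ N ^ (1 / 4 : ℝ) := Real.one_le_rpow hN1' (by norm_num)
  -- facts on v
  have hvge : ∀ v ∈ vs H P, θ / 2 * Real.log N ≤ (v : ℝ) / H := by
    intro v hv
    unfold vs at hv
    rw [mem_image] at hv
    obtain ⟨p, hp, rfl⟩ := hv
    rw [le_div_iff₀ hHpos]
    have h1 := Nat.lt_floor_add_one ((H : ℝ) * Real.log (nm p : ℝ))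
    have h2 : θ * Real.log N ≤ Real.log (nm p : ℝ) := by
      rw [← Real.log_rpow hNpos]
      exact Real.log_le_log (by positivity) (hPge p hp).le
    have h3 : (H : ℝ) * (θ * Real.log N) ≤ H * Real.log (nm p : ℝ) := by gcongr
    have h4 : 1 ≤ θ / 2 * Real.log N * H := by
      rw [div_le_iff₀ hθpos] at hNl
      have : 1 ≤ θ / 2 * Real.log N := by linarith
      nlinarith
    unfold bi
    nlinarith
  have hvle : ∀ v ∈ vs H P, (v : ℝ) / H ≤ 1 / 4 * Real.log N := by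
    intro v hv
    unfold vs at hv
    rw [mem_image] at hv
    obtain ⟨p, hp, rfl⟩ := hv
    rw [div_le_iff₀ hHpos]
    have hp1 : (1 : ℝ) ≤ nm p := by
      have := PP_three_le (hPP p hp)
      have h' : 1 ≤ nm p := by omega
      exact_mod_cast h'
    have h1 := Nat.floor_le (mul_nonneg hHpos.le (Real.log_nonneg hp1))
    have h2 : Real.log (nm p : ℝ) ≤ 1 / 4 * Real.log N := by
      rw [← Real.log_rpow hNpos]
      exact Real.log_le_log (by linarith) (hPle p hp)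
    have h3 : (H : ℝ) * Real.log (nm p : ℝ) ≤ H * (1 / 4 * Real.log N) := by gcongr
    unfold bi
    linarith
  have hvcard : ((vs H P).card : ℝ) ≤ H * Real.log N := by
    have h1 : vs H P ⊆ range (⌊(H : ℝ) * (1 / 4 * Real.log N)⌋₊ + 1) := by
      intro v hv
      rw [mem_range, Nat.lt_succ_iff]
      apply Nat.le_floor
      have := hvle v hv
      rw [div_le_iff₀ hHpos] at this
      linarith
    have h2 := card_le_card h1
    rw [card_range] at h2
    have h3 : ((vs H P).card : ℝ) ≤ (⌊(H : ℝ) * (1 / 4 * Real.log N)⌋₊ : ℝ) + 1 := by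
      exact_mod_cast h2
    have h4 := Nat.floor_le (show 0 ≤ (H : ℝ) * (1 / 4 * Real.log N) by positivity)
    nlinarith
  have hkU : ∀ k ∈ U, |(k : ℝ)| ≤ N := by
    intro k hk
    have h1 := mem_Icc.1 (hU hk)
    have h2 : |k| ≤ (K : ℤ) := abs_le.2 h1
    have h3 : |(k : ℝ)| ≤ (K : ℝ) := by exact_mod_cast h2
    exact h3.trans hKN
  have hfw1 : ∀ k, fw K k ≤ 1 := by
    intro k
    unfold fw
    have : 0 ≤ |(k : ℝ)| / (K + 1) := by positivity
    linarith
  have hfw0 : ∀ k ∈ U, 0 ≤ fw K k := by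
    intro k hk
    unfold fw
    have h1 := mem_Icc.1 (hU hk)
    have h2 : |k| ≤ (K : ℤ) := abs_le.2 h1
    have h3 : |(k : ℝ)| ≤ (K : ℝ) := by exact_mod_cast h2
    have h4 : |(k : ℝ)| / (K + 1) ≤ 1 := by
      rw [div_le_one (by positivity)]
      linarith
    linarith
  -- local bounds
  have hR : ∀ v ∈ vs H P, ∀ k ∈ U,
      ‖sp (pan (N / Real.exp (v / H)) (3 * (N / Real.exp (v / H)))) (gf f) k‖
      ≤ η2 * (N / Real.exp (v / H)) := by
    intro v hv k hk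
    have hMge : N ^ (3 / 4 : ℝ) ≤ N / Real.exp (v / H) := by
      rw [le_div_iff₀ (Real.exp_pos _)]
      have h1 : Real.exp ((v : ℝ) / H) ≤ N ^ (1 / 4 : ℝ) := by
        rw [Real.rpow_def_of_pos hNpos]
        apply Real.exp_le_exp.2
        have := hvle v hv
        linarith
      calc N ^ (3 / 4 : ℝ) * Real.exp ((v : ℝ) / H) ≤ N ^ (3 / 4 : ℝ) * N ^ (1 / 4 : ℝ) := by
            gcongr
        _ = N := by
            rw [← Real.rpow_add hNpos]
            norm_num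
    have hk0 : k ≠ 0 := fun h => hU0 (h ▸ hk)
    apply hM0 _ (hNM.trans hMge) k hk0 _ f hf
    calc |(k : ℝ)| ≤ N := hkU k hk
      _ = N ^ (1 : ℝ) := (Real.rpow_one N).symm
      _ ≤ N ^ (3 / 2 : ℝ) := Real.rpow_le_rpow_of_exponent_le hN1' (by norm_num)
      _ = (N ^ (3 / 4 : ℝ)) ^ 2 := by
        rw [← Real.rpow_natCast (N ^ (3 / 4 : ℝ)) 2, ← Real.rpow_mul hNpos.le]
        norm_num
      _ ≤ (N / Real.exp (v / H)) ^ 2 := by
        have : 0 ≤ N ^ (3 / 4 : ℝ) := by positivity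
        gcongr
  have hPv : ∀ v ∈ vs H P, ∑ k ∈ U, ‖sp (pb H P v) (gf f) k‖ ^ 2
      ≤ K1 * (Real.exp (v / H) / (v / H)) ^ 2 := by
    intro v hv
    have h1 := hvge v hv
    have hZge : N ^ (θ / 2) ≤ Real.exp ((v : ℝ) / H) := by
      rw [Real.rpow_def_of_pos hNpos]
      apply Real.exp_le_exp.2
      linarith
    have h2 := hlv (Real.exp ((v : ℝ) / H)) (hNZ.trans hZge) (pb H P v) ?_ (gf f)
      (norm_gf_le hf) U ?_ ?_
    · rw [Real.log_exp] at h2
      exact h2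
    · intro p hp
      obtain ⟨g1, g2, g3⟩ := mem_pb (by omega) hPP hp
      refine ⟨hPP p g1, g2, g3.le.trans ?_⟩
      rw [add_div, Real.exp_add, mul_comm]
      have : Real.exp (1 / (H : ℝ)) ≤ 3 := by
        have h3 : 1 / (H : ℝ) ≤ 1 / 2 := by
          apply one_div_le_one_div_of_le (by norm_num) hHr2
        have h4 : Real.exp (1 / (H : ℝ)) ≤ Real.exp (1 / 2) := Real.exp_le_exp.2 h3
        have h5 : Real.exp (1 / 2) ^ 2 = Real.exp 1 := by
          rw [← Real.exp_nat_mul]; norm_num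
        have h6 := Real.exp_one_lt_d9
        have h7 := Real.exp_pos (1 / 2)
        have h8 : Real.exp (1 / 2) ≤ 3 := by nlinarith
        linarith
      gcongr
    · intro k hk
      calc |(k : ℝ)| ≤ N := hkU k hk
        _ = (N ^ (θ / 2)) ^ (2 / θ) := by
          rw [← Real.rpow_mul hNpos.le]
          have : θ / 2 * (2 / θ) = 1 := by field_simp
          rw [this, Real.rpow_one]
        _ ≤ (Real.exp ((v : ℝ) / H)) ^ (2 / θ) := by
          apply Real.rpow_le_rpow (by positivity) hZge (by positivity)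
    · calc (U.card : ℝ) ≤ N ^ (θ * δ / 2) := hUc
        _ = (N ^ (θ / 2)) ^ δ := by
          rw [← Real.rpow_mul hNpos.le]
          congr 1
          ring
        _ ≤ (Real.exp ((v : ℝ) / H)) ^ δ := by
          apply Real.rpow_le_rpow (by positivity) hZge hδ.le
  have hmain := hsplit f hf P hPP (N ^ (1 / 4 : ℝ)) hZ1' hPle hL1 H (by omega) N hN1' K hKN U hU
  refine hmain.trans ?_
  have hE : K0 * N * (N / rs P + N / H + √N * N ^ (1 / 4 : ℝ)) ≤ η / 2 * N ^ 2 := by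
    have hc : 0 < 6 * K0 / η := by positivity
    have e1 : N / rs P ≤ η / (6 * K0) * N := by
      have : 6 * K0 / η ≤ rs P := by linarith
      calc N / rs P ≤ N / (6 * K0 / η) := by gcongr
        _ = η / (6 * K0) * N := by field_simp
    have e2 : N / H ≤ η / (6 * K0) * N := by
      calc N / H ≤ N / (6 * K0 / η) := by gcongr
        _ = η / (6 * K0) * N := by field_simp
    have e3 : √N * N ^ (1 / 4 : ℝ) ≤ η / (6 * K0) * N := by
      have h5 : N = √N * N ^ (1 / 4 : ℝ) * N ^ (1 / 4 : ℝ) := by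
        rw [Real.sqrt_eq_rpow, ← Real.rpow_add hNpos, ← Real.rpow_add hNpos]; norm_num
      have h6 : 0 < √N * N ^ (1 / 4 : ℝ) := by positivity
      calc √N * N ^ (1 / 4 : ℝ) = η / (6 * K0) * (√N * N ^ (1 / 4 : ℝ) * (6 * K0 / η)) := by
            field_simp
        _ ≤ η / (6 * K0) * (√N * N ^ (1 / 4 : ℝ) * N ^ (1 / 4 : ℝ)) := by gcongr
        _ = η / (6 * K0) * N := by rw [← h5]
    calc K0 * N * (N / rs P + N / H + √N * N ^ (1 / 4 : ℝ))
        ≤ K0 * N * (η / (6 * K0) * N + η / (6 * K0) * N + η / (6 * K0) * N) := by gcongr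
      _ = η / 2 * N ^ 2 := by field_simp; ring
  have hM : 2 * ((vs H P).card : ℝ) * (∑ v ∈ vs H P, ∑ k ∈ U, fw K k * ‖sp (pb H P v) (gf f) k *
        sp (pan (N / Real.exp (v / H)) (3 * (N / Real.exp (v / H)))) (gf f) k‖ ^ 2)
        ≤ η / 2 * N ^ 2 := by
    have h1 : ∀ v ∈ vs H P, ∑ k ∈ U, fw K k * ‖sp (pb H P v) (gf f) k *
        sp (pan (N / Real.exp (v / H)) (3 * (N / Real.exp (v / H)))) (gf f) k‖ ^ 2
        ≤ η2 ^ 2 * N ^ 2 * K1 * (4 / (θ ^ 2 * Real.log N ^ 2)) := by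
      intro v hv
      have h2 := hPv v hv
      have h3 := hvge v hv
      have h3' : 0 < θ / 2 * Real.log N := by positivity
      have h3'' : 0 < (v : ℝ) / H := by linarith
      have hexp : 0 < Real.exp ((v : ℝ) / H) := Real.exp_pos _
      calc ∑ k ∈ U, fw K k * ‖sp (pb H P v) (gf f) k *
              sp (pan (N / Real.exp (v / H)) (3 * (N / Real.exp (v / H)))) (gf f) k‖ ^ 2
          ≤ ∑ k ∈ U, (η2 * (N / Real.exp (v / H))) ^ 2 * ‖sp (pb H P v) (gf f) k‖ ^ 2 := by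
            apply sum_le_sum
            intro k hk
            rw [norm_mul, mul_pow]
            have g1 := hR v hv k hk
            have g2 : ‖sp (pan (N / Real.exp (v / H)) (3 * (N / Real.exp (v / H)))) (gf f) k‖ ^ 2
              ≤ (η2 * (N / Real.exp (v / H))) ^ 2 := pow_le_pow_left₀ (norm_nonneg _) g1 2
            calc fw K k * (‖sp (pb H P v) (gf f) k‖ ^ 2 *
                      ‖sp (pan (N / Real.exp (v / H)) (3 * (N / Real.exp (v / H)))) (gf f) k‖ ^ 2)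
                ≤ 1 * (‖sp (pb H P v) (gf f) k‖ ^ 2 *
                      ‖sp (pan (N / Real.exp (v / H)) (3 * (N / Real.exp (v / H)))) (gf f) k‖ ^ 2) :=
                  mul_le_mul_of_nonneg_right (hfw1 k) (by positivity)
              _ ≤ 1 * (‖sp (pb H P v) (gf f) k‖ ^ 2 * (η2 * (N / Real.exp (v / H))) ^ 2) := by
                  gcongr
              _ = _ := by ring
        _ = (η2 * (N / Real.exp (v / H))) ^ 2 * ∑ k ∈ U, ‖sp (pb H P v) (gf f) k‖ ^ 2 := by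
            rw [mul_sum]
        _ ≤ (η2 * (N / Real.exp (v / H))) ^ 2 * (K1 * (Real.exp (v / H) / (v / H)) ^ 2) := by
            gcongr
        _ = η2 ^ 2 * N ^ 2 * K1 * (1 / ((v : ℝ) / H) ^ 2) := by
            generalize (v : ℝ) / H = w at *
            field_simp
        _ ≤ η2 ^ 2 * N ^ 2 * K1 * (1 / (θ / 2 * Real.log N) ^ 2) := by
            gcongr
        _ = η2 ^ 2 * N ^ 2 * K1 * (4 / (θ ^ 2 * Real.log N ^ 2)) := by
            congr 1
            field_simp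
            norm_num
    have h2 := Finset.sum_le_sum h1
    rw [Finset.sum_const, nsmul_eq_mul] at h2
    have hnn : 0 ≤ η2 ^ 2 * N ^ 2 * K1 * (4 / (θ ^ 2 * Real.log N ^ 2)) := by positivity
    calc 2 * ((vs H P).card : ℝ) * (∑ v ∈ vs H P, ∑ k ∈ U, fw K k * ‖sp (pb H P v) (gf f) k *
            sp (pan (N / Real.exp (v / H)) (3 * (N / Real.exp (v / H)))) (gf f) k‖ ^ 2)
        ≤ 2 * ((vs H P).card : ℝ) * (((vs H P).card : ℝ) *
          (η2 ^ 2 * N ^ 2 * K1 * (4 / (θ ^ 2 * Real.log N ^ 2)))) := by gcongr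
      _ ≤ 2 * (H * Real.log N) * ((H * Real.log N) *
          (η2 ^ 2 * N ^ 2 * K1 * (4 / (θ ^ 2 * Real.log N ^ 2)))) := by gcongr
      _ = (8 * K1 * (H : ℝ) ^ 2 / θ ^ 2 * η2 ^ 2) * N ^ 2 := by
          field_simp; ring
      _ = η / 2 * N ^ 2 := by rw [hη2sq]
  linarith

end Pool.Agent.MRS
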