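import Pool.Agent.MRS.TypA

set_option autoImplicit false

/-! Module TYP, part B: moments of the divisor function over primitive Gaussian integers. -/

open Finset

namespace Pool.Agent.MRS

/-- finite sums are bounded by the Euler product -/
theorem typ_euler {g : ℕ → ℝ} (hg0 : ∀ n, 0 ≤ g n) (hg1 : g 1 = 1)
    (hgm : ∀ m n : ℕ, Nat.Coprime m n → g (m * n) = g m * g n)
    (hs : ∀ p : ℕ, p.Prime → Summable (fun a : ℕ => g (p ^ a))) (N : ℕ) :
    ∑ n ∈ Icc 1 N, g n ≤ ∏ p ∈ (N + 1).primesBelow, ∑' a : ℕ, g (p ^ a) := by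
  have hE := (EulerProduct.summable_and_hasSum_smoothNumbers_prod_primesBelow_tsum
    (f := g) hg1 (fun {m n} h => hgm m n h)
    (fun {p} hp => by
      have := hs p hp
      refine this.congr fun a => ?_
      rw [Real.norm_of_nonneg (hg0 _)]) (N + 1)).2
  rw [← hE.tsum_eq]
  have h4 : ∀ n ∈ Icc 1 N, n ∈ (N + 1).smoothNumbers := by
    intro n hn
    rw [mem_Icc] at hn
    exact Nat.mem_smoothNumbers_of_lt (by omega) (by omega)
  rw [← sum_attach]
  have h5 : ∑ x ∈ (Icc 1 N).attach, g x.1 =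
      ∑ y ∈ ((Icc 1 N).attach).image (fun x => (⟨x.1, h4 _ x.2⟩ : (N + 1).smoothNumbers)),
        g y := by
    rw [sum_image]
    intro a _ b _ hab
    have := congrArg (fun z : (N + 1).smoothNumbers => (z : ℕ)) hab
    exact Subtype.ext this
  rw [h5]
  exact hE.summable.sum_le_tsum _ (fun _ _ => hg0 _)

/-- local factor -/
theorem typ_local {g : ℕ → ℝ} (hg : ∀ n, 0 ≤ g n) {c y : ℝ} (h0 : g 0 = 1) (h1 : g 1 ≤ c * y)
    (hy : 0 ≤ y) (hy1 : y ≤ 1 / 5) (h2 : ∀ a : ℕ, 2 ≤ a → g a ≤ 2 * (a + 1) * y ^ a) :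
    Summable g ∧ ∑' a, g a ≤ Real.exp (c * y + 9 * y ^ 2) := by
  have hb : ∀ a : ℕ, g (a + 2) ≤ 6 * y ^ 2 * (3 / 10) ^ a := by
    intro a
    refine (h2 (a + 2) (by omega)).trans ?_
    have h3 : ∀ a : ℕ, (a : ℝ) + 3 ≤ 3 * (3 / 2) ^ a := by
      intro a
      induction a with
      | zero => norm_num
      | succ n ih => push_cast; rw [pow_succ]; linarith
    have h4 := h3 a
    have h5 : y ^ a ≤ (1 / 5) ^ a := pow_le_pow_left₀ hy hy1 a
    have h6 : ((3 : ℝ) / 10) ^ a = (3 / 2) ^ a * (1 / 5) ^ a := by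
      rw [← mul_pow]; norm_num
    push_cast
    rw [h6, pow_add]
    calc 2 * ((a : ℝ) + 2 + 1) * (y ^ a * y ^ 2) = 2 * y ^ 2 * (((a : ℝ) + 3) * y ^ a) := by ring
      _ ≤ 2 * y ^ 2 * ((3 * (3 / 2) ^ a) * (1 / 5) ^ a) := by gcongr
      _ = _ := by ring
  have hgeo : Summable (fun a : ℕ => 6 * y ^ 2 * (3 / 10 : ℝ) ^ a) :=
    (summable_geometric_of_lt_one (by norm_num) (by norm_num)).mul_left _
  have hs2 : Summable (fun a => g (a + 2)) :=
    Summable.of_nonneg_of_le (fun _ => hg _) hb hgeo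
  have hs : Summable g := (summable_nat_add_iff 2).1 hs2
  refine ⟨hs, ?_⟩
  rw [← hs.sum_add_tsum_nat_add 2]
  have h3 : ∑' a, g (a + 2) ≤ 9 * y ^ 2 := by
    calc ∑' a, g (a + 2) ≤ ∑' a : ℕ, 6 * y ^ 2 * (3 / 10 : ℝ) ^ a := hs2.tsum_le_tsum hb hgeo
      _ = 6 * y ^ 2 * (1 - 3 / 10)⁻¹ := by
          rw [tsum_mul_left, tsum_geometric_of_lt_one (by norm_num) (by norm_num)]
      _ ≤ 9 * y ^ 2 := by nlinarith [sq_nonneg y]
  have h4 := Real.add_one_le_exp (c * y + 9 * y ^ 2)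
  rw [sum_range_succ, sum_range_one, h0]
  linarith

/-- half the number of primitive elements of norm `n` -/
noncomputable def tb (n : ℕ) : ℝ := ((pn n).card : ℝ) / 2

theorem tb_bb (n : ℕ) : bb 0 n = (tb n : ℂ) := by
  simp only [bb, tb, zpow_zero, sum_const, nsmul_eq_mul, mul_one]
  push_cast; ring

theorem tb_nonneg (n : ℕ) : 0 ≤ tb n := by unfold tb; positivity

theorem tb_one : tb 1 = 1 := by
  have h := bb_one 0
  rw [tb_bb] at h
  exact_mod_cast h

theorem tb_mul {m n : ℕ} (h : Nat.Coprime m n) : tb (m * n) = tb m * tb n := by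
  have h := bb_mul 0 h
  rw [tb_bb, tb_bb, tb_bb] at h
  exact_mod_cast h

theorem tb_pp {p a : ℕ} (hp : p.Prime) (ha : 1 ≤ a) (h4 : p % 4 = 1) : tb (p ^ a) = 2 := by
  obtain ⟨q, hq, rfl⟩ := PP_exists hp h4
  have h := bb_prime_pow 0 hq ha
  rw [tb_bb] at h
  simp only [zero_mul, neg_zero, zpow_zero] at h
  have h' : (tb (nm q ^ a) : ℂ) = ((2 : ℝ) : ℂ) := by rw [h]; push_cast; norm_num
  exact_mod_cast h'

theorem tb_pp0 {p a : ℕ} (hp : p.Prime) (ha : 1 ≤ a) (h4 : p % 4 ≠ 1) : tb (p ^ a) = 0 := by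
  have h := bb_prime_pow_zero 0 hp h4 ha
  rw [tb_bb] at h
  exact_mod_cast h

theorem typ_inv_sq (s : Finset ℕ) (hs : ∀ p ∈ s, 1 ≤ p) : ∑ p ∈ s, (1 / (p : ℝ)) ^ 2 ≤ 2 := by
  have hsub : s ⊆ Ioo 0 (s.sup id + 1) := by
    intro p hp
    rw [mem_Ioo]
    refine ⟨hs p hp, Nat.lt_succ_of_le ?_⟩
    exact le_sup (f := id) hp
  calc ∑ p ∈ s, (1 / (p : ℝ)) ^ 2 ≤ ∑ p ∈ Ioo 0 (s.sup id + 1), (1 / (p : ℝ)) ^ 2 :=
        sum_le_sum_of_subset_of_nonneg hsub fun _ _ _ => by positivity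
    _ = ∑ p ∈ Ioo 0 (s.sup id + 1), ((p : ℝ) ^ 2)⁻¹ := by
        apply sum_congr rfl; intro p _; rw [one_div, inv_pow]
    _ ≤ 2 / ((0 : ℕ) + 1) := sum_Ioo_inv_sq_le 0 _
    _ = 2 := by norm_num

/-- moments of the number of divisors of the norm -/
theorem typ_moment (κ : ℝ) (h0 : 0 ≤ κ) (h1 : κ ≤ 1) : ∃ C : ℝ, 0 < C ∧ ∀ x : ℝ, 2 ≤ x →
    ∑ n ∈ Icc 1 ⌊x⌋₊, tb n * (n.divisors.card : ℝ) ^ κ ≤
      C * x * (Real.log x) ^ ((2 : ℝ) ^ κ - 1) := by
  obtain ⟨C1, hC1, hr⟩ := typ_hr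
  obtain ⟨C2, hC2, hm⟩ := typ_mertens
  set f : ℕ → ℝ := fun n => tb n * (n.divisors.card : ℝ) ^ κ with hf
  set c : ℝ := 2 * (2 : ℝ) ^ κ with hc
  have hc0 : 0 < c := by positivity
  refine ⟨C1 * Real.exp (c * C2 + 18), by positivity, fun x hx => ?_⟩
  have hf0 : ∀ n, 0 ≤ f n := fun n => mul_nonneg (tb_nonneg n) (by positivity)
  have hf1 : f 1 = 1 := by simp [hf, tb_one]
  have hfm : ∀ m n : ℕ, Nat.Coprime m n → f (m * n) = f m * f n := by
    intro m n h
    simp only [hf]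
    rw [tb_mul h, Nat.Coprime.card_divisors_mul h]
    push_cast
    rw [Real.mul_rpow (by positivity) (by positivity)]
    ring
  have hdc : ∀ p a : ℕ, p.Prime → ((p ^ a).divisors.card : ℝ) = a + 1 := by
    intro p a hp
    rw [Nat.divisors_prime_pow hp, Finset.card_map, Finset.card_range]
    push_cast; ring
  have hle1 : ∀ a : ℕ, ((a : ℝ) + 1) ^ κ ≤ a + 1 := by
    intro a
    calc ((a : ℝ) + 1) ^ κ ≤ ((a : ℝ) + 1) ^ (1 : ℝ) :=
          Real.rpow_le_rpow_of_exponent_le (by linarith [Nat.cast_nonneg (α := ℝ) a]) h1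
      _ = a + 1 := Real.rpow_one _
  have hfp : ∀ p a : ℕ, p.Prime → 1 ≤ a → f (p ^ a) ≤ 2 * ((p ^ a).divisors.card : ℝ) := by
    intro p a hp ha
    simp only [hf]
    rw [hdc p a hp]
    have h2 := hle1 a
    have h3 : (0 : ℝ) ≤ ((a : ℝ) + 1) ^ κ := by positivity
    by_cases h4 : p % 4 = 1
    · rw [tb_pp hp ha h4]; linarith
    · rw [tb_pp0 hp ha h4]; rw [zero_mul]; positivity
  refine (hr f hf0 hf1 hfm hfp x hx).trans ?_
  have hlogx : 0 < Real.log x := Real.log_pos (by linarith)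
  have hx0 : 0 < x := by linarith
  -- the local factors
  set N := ⌊x⌋₊ with hN
  have hloc : ∀ p : ℕ, p.Prime → Summable (fun a : ℕ => f (p ^ a) / ((p ^ a : ℕ) : ℝ)) ∧
      ∑' a : ℕ, f (p ^ a) / ((p ^ a : ℕ) : ℝ) ≤
        Real.exp (if p % 4 = 1 then c * (1 / (p : ℝ)) + 9 * (1 / (p : ℝ)) ^ 2 else 0) := by
    intro p hp
    by_cases h4 : p % 4 = 1
    · rw [if_pos h4]
      have hp5 : (5 : ℝ) ≤ p := by
        have h2 := hp.two_le
        have : 5 ≤ p := by
          rcases Nat.lt_or_ge p 5 with h | h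
          · interval_cases p <;> simp_all
          · exact h
        exact_mod_cast this
      refine typ_local (g := fun a : ℕ => f (p ^ a) / ((p ^ a : ℕ) : ℝ)) ?_ ?_ ?_ (by positivity) ?_ ?_
      · intro n; exact div_nonneg (hf0 _) (by positivity)
      · simp [hf1]
      · simp only [hf]
        rw [tb_pp hp le_rfl h4, hdc p 1 hp, hc]
        push_cast
        rw [pow_one, show (1 : ℝ) + 1 = 2 by norm_num]
        apply le_of_eq; ring
      · rw [div_le_div_iff₀ (by linarith) (by norm_num)]; linarith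
      · intro a ha
        simp only [hf]
        rw [tb_pp hp (by omega) h4, hdc p a hp]
        push_cast
        rw [div_pow, one_pow, mul_one_div]
        apply div_le_div_of_nonneg_right _ (by positivity)
        have := hle1 a
        linarith
    · rw [if_neg h4, Real.exp_zero]
      have h5 : ∀ a : ℕ, a ≠ 0 → f (p ^ a) / ((p ^ a : ℕ) : ℝ) = 0 := by
        intro a ha
        simp only [hf]
        rw [tb_pp0 hp (by omega) h4]; simp
      constructor
      · apply summable_of_ne_finset_zero (s := {0})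
        intro a ha
        rw [mem_singleton] at ha
        exact h5 a ha
      · rw [tsum_eq_single 0 h5]
        simp [hf1]
  have hE : ∑ n ∈ Icc 1 N, f n / n ≤ Real.exp (c * C2 + 18) * (Real.log x) ^ ((2 : ℝ) ^ κ) := by
    have h2 := typ_euler (g := fun n : ℕ => f n / (n : ℝ)) (fun n => div_nonneg (hf0 n) (by positivity))
      (by simp [hf1]) (by
        intro m n h
        show f (m * n) / ((m * n : ℕ) : ℝ) = f m / m * (f n / n)
        rw [hfm m n h]
        push_cast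
        rw [mul_div_mul_comm]) (fun p hp => (hloc p hp).1) N
    refine h2.trans ?_
    have h3 : ∏ p ∈ (N + 1).primesBelow, ∑' a : ℕ, f (p ^ a) / ((p ^ a : ℕ) : ℝ) ≤
        ∏ p ∈ (N + 1).primesBelow,
          Real.exp (if p % 4 = 1 then c * (1 / (p : ℝ)) + 9 * (1 / (p : ℝ)) ^ 2 else 0) := by
      apply prod_le_prod
      · intro p _
        exact tsum_nonneg fun a => div_nonneg (hf0 _) (by positivity)
      · intro p hp
        exact (hloc p (Nat.prime_of_mem_primesBelow hp)).2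
    refine h3.trans ?_
    rw [← Real.exp_sum, ← sum_filter]
    have h4 : ((N + 1).primesBelow).filter (fun p => p % 4 = 1) =
        (Ioc 2 N).filter (fun p : ℕ => p.Prime ∧ p ≡ 1 [MOD 4]) := by
      ext p
      rw [mem_filter, mem_filter, Nat.mem_primesBelow, mem_Ioc]
      constructor
      · rintro ⟨⟨h5, h6⟩, h7⟩
        refine ⟨⟨?_, by omega⟩, h6, (by show p % 4 = 1 % 4; omega)⟩
        have := h6.two_le
        rcases eq_or_ne p 2 with h | h
        · rw [h] at h7; omega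
        · omega
      · rintro ⟨⟨h5, h6⟩, h7, h8⟩
        have h8' : p % 4 = 1 % 4 := h8
        exact ⟨⟨by omega, h7⟩, by omega⟩
    rw [h4, sum_add_distrib, ← mul_sum, ← mul_sum]
    have h5 := hm x hx
    have h6 := typ_inv_sq ((Ioc 2 N).filter (fun p : ℕ => p.Prime ∧ p ≡ 1 [MOD 4])) (by
      intro p hp
      rw [mem_filter, mem_Ioc] at hp
      omega)
    have h7 : c * ∑ p ∈ (Ioc 2 N).filter (fun p : ℕ => p.Prime ∧ p ≡ 1 [MOD 4]), (1:ℝ) / p +
        9 * ∑ p ∈ (Ioc 2 N).filter (fun p : ℕ => p.Prime ∧ p ≡ 1 [MOD 4]), ((1:ℝ) / p) ^ 2 ≤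
        (2 : ℝ) ^ κ * Real.log (Real.log x) + (c * C2 + 18) := by
      have h8 := mul_le_mul_of_nonneg_left h5 hc0.le
      have e : c * (1 / 2 * Real.log (Real.log x) + C2) =
        (2 : ℝ) ^ κ * Real.log (Real.log x) + c * C2 := by rw [hc]; ring
      linarith
    refine (Real.exp_le_exp.2 h7).trans ?_
    rw [Real.exp_add, mul_comm, Real.rpow_def_of_pos hlogx, mul_comm (Real.log (Real.log x))]
  calc C1 * (x / Real.log x) * ∑ n ∈ Icc 1 N, f n / n
      ≤ C1 * (x / Real.log x) * (Real.exp (c * C2 + 18) * (Real.log x) ^ ((2 : ℝ) ^ κ)) := by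
        gcongr
    _ = C1 * Real.exp (c * C2 + 18) * x * (Real.log x) ^ ((2 : ℝ) ^ κ - 1) := by
        rw [Real.rpow_sub hlogx, Real.rpow_one]
        field_simp

end Pool.Agent.MRS
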