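import Pool.Agent.MRS.Tk
import Pool.Agent.MRS.Divs
import Pool.Agent.MRS.LevFacts
import Pool.Agent.MRS.TypB

set_option autoImplicit false

/-! Module TYP: typical number of divisors (by moments of the divisor function of the norm). -/

open Finset

namespace Pool.Agent.MRS

/-- the sup norm -/
def typ_mx (z : GI) : ℕ := max z.re.natAbs z.im.natAbs

theorem typ_mx_sq_le (z : GI) : ((typ_mx z : ℕ) : ℝ) ^ 2 ≤ (nm z : ℝ) := by
  have h : typ_mx z ^ 2 ≤ nm z := by
    have h1 : (nm z : ℤ) = z.re ^ 2 + z.im ^ 2 := nm_int z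
    have h2 : ((typ_mx z : ℕ) : ℤ) ^ 2 ≤ (nm z : ℤ) := by
      rw [h1, typ_mx]
      rcases le_total z.re.natAbs z.im.natAbs with h | h
      · rw [max_eq_right h, Int.natCast_natAbs, sq_abs]
        nlinarith [sq_nonneg z.re]
      · rw [max_eq_left h, Int.natCast_natAbs, sq_abs]
        nlinarith [sq_nonneg z.im]
    exact_mod_cast h2
  exact_mod_cast h

theorem typ_mx_pos {z : GI} (hz : z ≠ 0) : 1 ≤ typ_mx z := by
  by_contra hc
  have h0 : typ_mx z = 0 := by omega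
  have h1 : z.re.natAbs = 0 := by
    have := le_max_left z.re.natAbs z.im.natAbs
    rw [typ_mx] at h0; omega
  have h2 : z.im.natAbs = 0 := by
    have := le_max_right z.re.natAbs z.im.natAbs
    rw [typ_mx] at h0; omega
  apply hz
  apply Zsqrtd.ext
  · simpa using h1
  · simpa using h2

theorem typ_card_mx (Y : ℝ) (m : ℕ) (hm : 1 ≤ m) :
    (((bl Y).filter (fun z => typ_mx z = m)).card : ℝ) ≤ 12 * m := by
  classical
  have hsub : ((bl Y).filter (fun z => typ_mx z = m)) ⊆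
      ((({-(m : ℤ), (m : ℤ)} : Finset ℤ) ×ˢ (Icc (-(m : ℤ)) (m : ℤ))) ∪
        ((Icc (-(m : ℤ)) (m : ℤ)) ×ˢ ({-(m : ℤ), (m : ℤ)} : Finset ℤ))).image
        (fun p : ℤ × ℤ => (⟨p.1, p.2⟩ : GI)) := by
    intro z hz
    rw [Finset.mem_filter] at hz
    obtain ⟨-, hz⟩ := hz
    rw [typ_mx] at hz
    rw [Finset.mem_image]
    refine ⟨(z.re, z.im), ?_, rfl⟩
    rw [Finset.mem_union, Finset.mem_product, Finset.mem_product, Finset.mem_insert,
      Finset.mem_singleton, Finset.mem_insert, Finset.mem_singleton, Finset.mem_Icc,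
      Finset.mem_Icc]
    dsimp only
    have h1 := le_max_left z.re.natAbs z.im.natAbs
    have h2 := le_max_right z.re.natAbs z.im.natAbs
    rcases le_total z.re.natAbs z.im.natAbs with h | h
    · rw [max_eq_right h] at hz
      right
      omega
    · rw [max_eq_left h] at hz
      left
      omega
  have h1 := (Finset.card_le_card hsub).trans (Finset.card_image_le.trans
    (Finset.card_union_le _ _))
  rw [Finset.card_product, Finset.card_product] at h1
  have h2 : ({-(m : ℤ), (m : ℤ)} : Finset ℤ).card ≤ 2 := Finset.card_le_two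
  have h3 : (Icc (-(m : ℤ)) (m : ℤ)).card = 2 * m + 1 := by
    rw [Int.card_Icc]; omega
  rw [h3] at h1
  have h4 : ((bl Y).filter (fun z => typ_mx z = m)).card ≤ 12 * m := by
    calc _ ≤ _ := h1
      _ ≤ 2 * (2 * m + 1) + (2 * m + 1) * 2 := by gcongr
      _ ≤ 12 * m := by omega
  exact_mod_cast h4

theorem typ_sum_bl_le {Y : ℝ} (f : GI → ℝ) (g : ℕ → ℝ) (hg : ∀ m, 0 ≤ g m)
    (hf : ∀ z ∈ bl Y, f z ≤ g (typ_mx z)) :
    ∑ z ∈ bl Y, f z ≤ ∑ m ∈ Icc 1 ⌊√Y⌋₊, 12 * (m : ℝ) * g m := by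
  classical
  have hmaps : ∀ z ∈ bl Y, typ_mx z ∈ Icc 1 ⌊√Y⌋₊ := by
    intro z hz
    rw [mem_bl] at hz
    rw [Finset.mem_Icc]
    refine ⟨typ_mx_pos hz.1, ?_⟩
    apply Nat.le_floor
    apply Real.le_sqrt_of_sq_le
    exact (typ_mx_sq_le z).trans hz.2
  rw [← Finset.sum_fiberwise_of_maps_to hmaps]
  apply Finset.sum_le_sum
  intro m hm
  rw [Finset.mem_Icc] at hm
  calc ∑ z ∈ (bl Y).filter (fun z => typ_mx z = m), f z
      ≤ ∑ z ∈ (bl Y).filter (fun z => typ_mx z = m), g m := by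
        apply Finset.sum_le_sum
        intro z hz
        rw [Finset.mem_filter] at hz
        have := hf z hz.1
        rwa [hz.2] at this
    _ = (((bl Y).filter (fun z => typ_mx z = m)).card : ℝ) * g m := by
        rw [Finset.sum_const, nsmul_eq_mul]
    _ ≤ 12 * (m : ℝ) * g m := mul_le_mul_of_nonneg_right (typ_card_mx Y m hm.1) (hg m)

theorem typ_sum_sqrt_le {T : ℝ} (hT : 0 ≤ T) : ∑ z ∈ bl T, √(T / nm z) ≤ 12 * T := by
  have h1 := typ_sum_bl_le (Y := T) (fun z => √(T / nm z)) (fun m => √T / m) (fun m => by positivity) (by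
    intro z hz
    rw [mem_bl] at hz
    have h2 := typ_mx_sq_le z
    have h3 : (1 : ℝ) ≤ typ_mx z := by exact_mod_cast typ_mx_pos hz.1
    rw [Real.sqrt_div hT]
    apply div_le_div_of_nonneg_left (Real.sqrt_nonneg _) (by linarith)
    exact Real.le_sqrt_of_sq_le h2)
  refine h1.trans ?_
  have h4 : ∑ m ∈ Icc 1 ⌊√T⌋₊, 12 * (m : ℝ) * (√T / m) = ∑ m ∈ Icc 1 ⌊√T⌋₊, 12 * √T := by
    apply Finset.sum_congr rfl
    intro m hm
    rw [Finset.mem_Icc] at hm
    have : (m : ℝ) ≠ 0 := by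
      have : (1 : ℝ) ≤ m := by exact_mod_cast hm.1
      linarith
    field_simp
  rw [h4, Finset.sum_const, Nat.card_Icc, nsmul_eq_mul, Nat.add_sub_cancel]
  have h5 : ((⌊√T⌋₊ : ℕ) : ℝ) ≤ √T := Nat.floor_le (Real.sqrt_nonneg _)
  have h6 : √T * √T = T := Real.mul_self_sqrt hT
  nlinarith [Real.sqrt_nonneg T]


/-- divisors of a primitive element are determined up to units by their norm -/
theorem typ_assoc {z d e : GI} (hz : Pr z) (hd : d ∣ z) (he : e ∣ z) (h : nm d = nm e) :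
    Associated d e := by
  have hz0 : z ≠ 0 := Pr_ne hz
  have hd0 : d ≠ 0 := fun h0 => hz0 (zero_dvd_iff.1 (h0 ▸ hd))
  have he0 : e ≠ 0 := fun h0 => hz0 (zero_dvd_iff.1 (h0 ▸ he))
  obtain ⟨a, ha⟩ := EuclideanDomain.gcd_dvd_left d e
  obtain ⟨b, hb⟩ := EuclideanDomain.gcd_dvd_right d e
  have hab := EuclideanDomain.gcd_eq_gcd_ab d e
  set g := EuclideanDomain.gcd d e with hg
  have hg0 : g ≠ 0 := by
    intro h0
    rw [h0, zero_mul] at ha
    exact hd0 ha
  have hco : IsCoprime a b := by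
    refine ⟨EuclideanDomain.gcdA d e, EuclideanDomain.gcdB d e, ?_⟩
    apply mul_left_cancel₀ hg0
    linear_combination -hab - EuclideanDomain.gcdA d e * ha - EuclideanDomain.gcdB d e * hb
  have hnab : nm a = nm b := by
    have h1 : nm g * nm a = nm g * nm b := by rw [← nm_mul, ← nm_mul, ← ha, ← hb, h]
    exact Nat.eq_of_mul_eq_mul_left (nm_pos hg0) h1
  obtain ⟨k, hk⟩ := hd
  have hbk : b ∣ k := by
    have h1 : b ∣ a * k := by
      rw [hk, ha, hb, mul_assoc] at he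
      exact (mul_dvd_mul_iff_left hg0).1 he
    exact hco.symm.dvd_of_dvd_mul_left h1
  have habz : a * b ∣ z := by
    rw [hk, ha]
    obtain ⟨l, hl⟩ := hbk
    exact ⟨g * l, by rw [hl]; ring⟩
  have hastar : a ∣ star b := by
    have h1 : a ∣ b * star b := by
      rw [BAS_mul_star, ← hnab, ← BAS_mul_star]
      exact dvd_mul_right _ _
    exact hco.dvd_of_dvd_mul_left h1
  obtain ⟨u, hu⟩ := hastar
  have ha0 : a ≠ 0 := by
    intro h0
    rw [h0, mul_zero] at ha
    exact hd0 ha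
  have hb' : b = star a * star u := by
    have := congrArg star hu
    rwa [star_star, star_mul, mul_comm] at this
  have hpr : Pr ((nm a : ℕ) : GI) := by
    refine Pr_of_dvd ?_ hz
    refine dvd_trans ⟨star u, ?_⟩ habz
    rw [← BAS_mul_star]
    rw [hb']; ring
  have hna : nm a = 1 := by
    unfold Pr at hpr
    simpa using hpr
  have ua : IsUnit a := PMU_unit_of_nm hna
  have ub : IsUnit b := PMU_unit_of_nm (hnab ▸ hna)
  have h1 : Associated d g := by
    rw [ha]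
    exact (associated_mul_unit_left g a ua)
  have h2 : Associated e g := by
    rw [hb]
    exact (associated_mul_unit_left g b ub)
  exact h1.trans h2.symm

theorem typ_dv_card {z : GI} (hz : Pr z) : (dv z).card ≤ 4 * (nm z).divisors.card := by
  classical
  have hz0 : z ≠ 0 := Pr_ne hz
  refine Finset.card_le_mul_card_image_of_maps_to (f := nm) ?_ _ ?_
  · intro d hd
    rw [mem_dv] at hd
    obtain ⟨w, hw⟩ := hd.2
    rw [Nat.mem_divisors]
    refine ⟨?_, (nm_pos hz0).ne'⟩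
    rw [hw, nm_mul]; exact dvd_mul_right _ _
  · intro m _
    rcases ((dv z).filter (fun d => nm d = m)).eq_empty_or_nonempty with h | ⟨d0, hd0⟩
    · rw [h]; simp
    rw [mem_filter, mem_dv] at hd0
    have hsub : (dv z).filter (fun d => nm d = m) ⊆
        ({1, -1, ⟨0, 1⟩, ⟨0, -1⟩} : Finset GI).image (fun u => d0 * u) := by
      intro d hd
      rw [mem_filter, mem_dv] at hd
      obtain ⟨u, hu⟩ := typ_assoc hz hd0.1.2 hd.1.2 (hd0.2.trans hd.2.symm)
      rw [mem_image]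
      refine ⟨u, ?_, hu⟩
      rcases BAS_unit u.isUnit with e | e | e | e <;> rw [e] <;> simp
    refine (card_le_card hsub).trans (card_image_le.trans ?_)
    exact Finset.card_le_four

theorem typ_red {z : GI} (hz : Pr z) : ∃ u w : GI,
    u ∈ ({1, ⟨0, -1⟩, ⟨1, 1⟩, ⟨1, -1⟩} : Finset GI) ∧ Od w ∧ z = u * w := by
  have h1 : z.re % 2 = 0 ∨ z.re % 2 = 1 := by omega
  have h2 : z.im % 2 = 0 ∨ z.im % 2 = 1 := by omega
  have hz' : Int.gcd z.re z.im = 1 := hz
  rcases h1 with h1 | h1 <;> rcases h2 with h2 | h2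
  · exfalso
    have h3 : (2 : ℤ) ∣ ((Int.gcd z.re z.im : ℕ) : ℤ) :=
      Int.dvd_coe_gcd (Int.dvd_of_emod_eq_zero h1) (Int.dvd_of_emod_eq_zero h2)
    rw [hz'] at h3
    omega
  · refine ⟨⟨0, -1⟩, ⟨-z.im, z.re⟩, by simp, ⟨by show (-z.im) % 2 = 1; omega, h1⟩, ?_⟩
    apply Zsqrtd.ext
    · rw [Zsqrtd.re_mul]; show z.re = 0 * (-z.im) + (-1) * (-1) * z.re; ring
    · rw [Zsqrtd.im_mul]; show z.im = 0 * z.re + (-1) * (-z.im); ring
  · refine ⟨1, z, by simp, ⟨h1, h2⟩, (one_mul z).symm⟩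
  · -- both odd
    obtain ⟨x, hx⟩ : ∃ x, z.re + z.im = 2 * x := ⟨(z.re + z.im) / 2, by omega⟩
    obtain ⟨y, hy⟩ : ∃ y, z.im - z.re = 2 * y := ⟨(z.im - z.re) / 2, by omega⟩
    rcases Int.emod_two_eq_zero_or_one x with h3 | h3
    · refine ⟨⟨1, -1⟩, ⟨-y, x⟩, by simp, ⟨by show (-y) % 2 = 1; omega, h3⟩, ?_⟩
      apply Zsqrtd.ext
      · rw [Zsqrtd.re_mul]; show z.re = 1 * (-y) + (-1) * (-1) * x; linarith
      · rw [Zsqrtd.im_mul]; show z.im = 1 * x + (-1) * (-y); linarith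
    · refine ⟨⟨1, 1⟩, ⟨x, y⟩, by simp, ⟨h3, by show y % 2 = 0; omega⟩, ?_⟩
      apply Zsqrtd.ext
      · rw [Zsqrtd.re_mul]; show z.re = 1 * x + (-1) * 1 * y; linarith
      · rw [Zsqrtd.im_mul]; show z.im = 1 * y + 1 * x; linarith

theorem typ_div_mul (m n : ℕ) : (m * n).divisors.card ≤ m.divisors.card * n.divisors.card := by
  rw [Nat.divisors_mul]
  exact Finset.card_mul_le

theorem typ_u_div {u : GI} (hu : u ∈ ({1, ⟨0, -1⟩, ⟨1, 1⟩, ⟨1, -1⟩} : Finset GI)) :
    1 ≤ nm u ∧ (nm u).divisors.card ≤ 2 := by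
  simp only [mem_insert, mem_singleton] at hu
  rcases hu with rfl | rfl | rfl | rfl
  · rw [nm_one]; simp
  · have : nm (⟨0, -1⟩ : GI) = 1 := by
      have := nm_int (⟨0, -1⟩ : GI); simp only at this; omega
    rw [this]; simp
  · have : nm (⟨1, 1⟩ : GI) = 2 := by
      have := nm_int (⟨1, 1⟩ : GI); simp only at this; omega
    rw [this]; decide
  · have : nm (⟨1, -1⟩ : GI) = 2 := by
      have := nm_int (⟨1, -1⟩ : GI); simp only at this; omega
    rw [this]; decide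

/-- number of primitive elements with many divisors -/
theorem typ_count {N T : ℝ} (hN : 0 ≤ N) (hT : 0 < T) (κ : ℝ) (hκ : 0 ≤ κ) :
    open Classical in
    (((bl N).filter (fun z => Pr z ∧ T < ((dv z).card : ℝ))).card : ℝ) ≤
      8 * (8 / T) ^ κ * ∑ n ∈ Icc 1 ⌊N⌋₊, tb n * (n.divisors.card : ℝ) ^ κ := by
  classical
  set B := (bl N).filter (fun z => Pr z ∧ T < ((dv z).card : ℝ)) with hB
  set U : Finset GI := {1, ⟨0, -1⟩, ⟨1, 1⟩, ⟨1, -1⟩} with hU
  set W := (pan 0 N).filter (fun w => T < 8 * ((nm w).divisors.card : ℝ)) with hW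
  have hsub : B ⊆ (U ×ˢ W).image (fun p => p.1 * p.2) := by
    intro z hz
    rw [hB, mem_filter, mem_bl] at hz
    obtain ⟨⟨hz0, hzN⟩, hp, hT'⟩ := hz
    obtain ⟨u, w, hu, hw, rfl⟩ := typ_red hp
    rw [mem_image]
    refine ⟨(u, w), ?_, rfl⟩
    rw [mem_product]
    refine ⟨hu, ?_⟩
    obtain ⟨h1, h2⟩ := typ_u_div hu
    have hw0 : w ≠ 0 := Od_ne hw
    rw [hW, mem_filter, mem_pan]
    rw [nm_mul] at hzN
    have h3 : nm w ≤ nm u * nm w := Nat.le_mul_of_pos_left _ h1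
    have h4 : (nm w : ℝ) ≤ ((nm u * nm w : ℕ) : ℝ) := by exact_mod_cast h3
    refine ⟨⟨hw, Pr_of_dvd (dvd_mul_left _ _) hp, ?_, h4.trans hzN⟩, ?_⟩
    · exact_mod_cast nm_pos hw0
    · refine lt_of_lt_of_le hT' ?_
      have h5 : (dv (u * w)).card ≤ 8 * (nm w).divisors.card := by
        calc (dv (u * w)).card ≤ 4 * (nm (u * w)).divisors.card := typ_dv_card hp
          _ = 4 * (nm u * nm w).divisors.card := by rw [nm_mul]
          _ ≤ 4 * ((nm u).divisors.card * (nm w).divisors.card) :=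
              Nat.mul_le_mul_left _ (typ_div_mul _ _)
          _ ≤ 4 * (2 * (nm w).divisors.card) := by gcongr
          _ = _ := by ring
      exact_mod_cast h5
  have hcard : B.card ≤ 4 * W.card := by
    refine (card_le_card hsub).trans (card_image_le.trans ?_)
    rw [card_product]
    exact Nat.mul_le_mul_right _ Finset.card_le_four
  have hcardR : (B.card : ℝ) ≤ 4 * (W.card : ℝ) := by exact_mod_cast hcard
  have hW1 : (W.card : ℝ) ≤ ∑ w ∈ pan 0 N, (8 * ((nm w).divisors.card : ℝ) / T) ^ κ := by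
    have h1 : (W.card : ℝ) ≤ ∑ w ∈ W, (8 * ((nm w).divisors.card : ℝ) / T) ^ κ := by
      have h2 : (W.card : ℝ) = ∑ w ∈ W, (1 : ℝ) := by simp
      rw [h2]
      apply sum_le_sum
      intro w hw
      rw [hW, mem_filter] at hw
      apply Real.one_le_rpow _ hκ
      rw [one_le_div hT]
      exact hw.2.le
    refine h1.trans ?_
    apply sum_le_sum_of_subset_of_nonneg (filter_subset _ _)
    intro w _ _
    positivity
  have hW2 : ∑ w ∈ pan 0 N, (8 * ((nm w).divisors.card : ℝ) / T) ^ κ =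
      (8 / T) ^ κ * ∑ w ∈ pan 0 N, ((nm w).divisors.card : ℝ) ^ κ := by
    rw [mul_sum]
    apply sum_congr rfl
    intro w _
    rw [← Real.mul_rpow (by positivity) (by positivity)]
    congr 1; ring
  have hW3 : ∑ w ∈ pan 0 N, ((nm w).divisors.card : ℝ) ^ κ ≤
      ∑ n ∈ Icc 1 ⌊N⌋₊, 2 * (tb n * (n.divisors.card : ℝ) ^ κ) := by
    have hmaps : ∀ w ∈ pan 0 N, nm w ∈ Icc 1 ⌊N⌋₊ := by
      intro w hw
      rw [mem_pan] at hw
      rw [mem_Icc]
      exact ⟨nm_pos (Od_ne hw.1), Nat.le_floor hw.2.2.2⟩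
    rw [← Finset.sum_fiberwise_of_maps_to hmaps]
    apply sum_le_sum
    intro n _
    have h1 : ∑ w ∈ (pan 0 N).filter (fun w => nm w = n), ((nm w).divisors.card : ℝ) ^ κ =
        (((pan 0 N).filter (fun w => nm w = n)).card : ℝ) * (n.divisors.card : ℝ) ^ κ := by
      rw [← nsmul_eq_mul, ← sum_const]
      apply sum_congr rfl
      intro w hw
      rw [mem_filter] at hw
      rw [hw.2]
    rw [h1]
    have h2 : ((pan 0 N).filter (fun w => nm w = n)).card ≤ (pn n).card := by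
      apply card_le_card
      intro w hw
      rw [mem_filter, mem_pan] at hw
      rw [mem_pn]
      exact ⟨hw.1.1, hw.1.2.1, hw.2⟩
    have h3 : (((pan 0 N).filter (fun w => nm w = n)).card : ℝ) ≤ 2 * tb n := by
      unfold tb
      have : (((pan 0 N).filter (fun w => nm w = n)).card : ℝ) ≤ ((pn n).card : ℝ) := by
        exact_mod_cast h2
      linarith
    calc _ ≤ (2 * tb n) * (n.divisors.card : ℝ) ^ κ :=
          mul_le_mul_of_nonneg_right h3 (by positivity)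
      _ = _ := by ring
  have h8 : 0 ≤ (8 / T) ^ κ := by positivity
  calc (B.card : ℝ) ≤ 4 * (W.card : ℝ) := hcardR
    _ ≤ 4 * ((8 / T) ^ κ * ∑ n ∈ Icc 1 ⌊N⌋₊, 2 * (tb n * (n.divisors.card : ℝ) ^ κ)) := by
        have := mul_le_mul_of_nonneg_left hW3 h8
        linarith
    _ = _ := by rw [← mul_sum]; ring

theorem typ (ε δ : ℝ) (hε : 0 < ε) (hδ : 0 < δ) : ∃ N0 : ℝ, 3 ≤ N0 ∧ ∀ N : ℝ, N0 ≤ N →
    open Classical in
    ∑ z ∈ (bl N).filter (fun z => Pr z ∧
      (Real.log N) ^ (Real.log 2 + ε) < ((dv z).card : ℝ)), √(N / nm z) ≤ δ * N := by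
  classical
  -- the exponent
  obtain ⟨κ, hκ0, hκ1, hκ2⟩ : ∃ κ : ℝ, 0 < κ ∧ κ ≤ 1 ∧
      (2 : ℝ) ^ κ - 1 < κ * (Real.log 2 + ε) := by
    have hl := Real.log_two_lt_d9
    have hl0 : 0 < Real.log 2 := Real.log_pos (by norm_num)
    refine ⟨min 1 ε, lt_min one_pos hε, min_le_left _ _, ?_⟩
    set κ := min 1 ε with hκ
    have h1 : κ ≤ 1 := min_le_left _ _
    have h2 : κ ≤ ε := min_le_right _ _
    have h0 : 0 < κ := lt_min one_pos hε
    rw [Real.rpow_def_of_pos (by norm_num)]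
    have h3 : |Real.log 2 * κ| ≤ 1 := by
      rw [abs_of_nonneg (by positivity)]; nlinarith
    have h4 := (abs_le.1 (Real.abs_exp_sub_one_sub_id_le h3)).2
    have h5 : (Real.log 2 * κ) ^ 2 < κ * ε := by
      have h6 : Real.log 2 ^ 2 < 1 := by nlinarith
      have h7 : κ * κ ≤ κ * ε := mul_le_mul_of_nonneg_left h2 h0.le
      have h8 : 0 < κ * κ := by positivity
      calc (Real.log 2 * κ) ^ 2 = Real.log 2 ^ 2 * (κ * κ) := by ring
        _ < 1 * (κ * κ) := by gcongr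
        _ ≤ κ * ε := by linarith
    nlinarith
  obtain ⟨C, hC, hm⟩ := typ_moment κ hκ0.le hκ1
  set θ : ℝ := κ * (Real.log 2 + ε) - ((2 : ℝ) ^ κ - 1) with hθ
  have hθ0 : 0 < θ := by rw [hθ]; linarith
  set s : ℝ := δ / 24 with hs
  have hs0 : 0 < s := by positivity
  -- the bound tends to zero
  have hlim : Filter.Tendsto (fun N : ℝ => (8 * 8 ^ κ * C) * (Real.log N) ^ (-θ)) Filter.atTop
      (nhds 0) := by
    have h1 : Filter.Tendsto (fun N : ℝ => (Real.log N) ^ (-θ)) Filter.atTop (nhds 0) :=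
      (tendsto_rpow_neg_atTop hθ0).comp Real.tendsto_log_atTop
    simpa using h1.const_mul (8 * 8 ^ κ * C)
  have hev : ∀ᶠ N : ℝ in Filter.atTop, (8 * 8 ^ κ * C) * (Real.log N) ^ (-θ) ≤ s * (δ / 2) := by
    have := hlim.eventually (gt_mem_nhds (show (0 : ℝ) < s * (δ / 2) by positivity))
    filter_upwards [this] with N hN
    exact hN.le
  obtain ⟨N1, hN1⟩ := Filter.eventually_atTop.1 hev
  refine ⟨max 3 N1, le_max_left _ _, fun N hN => ?_⟩
  have hN3 : 3 ≤ N := (le_max_left _ _).trans hN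
  have hN0 : 0 < N := by linarith
  have hb := hN1 N ((le_max_right _ _).trans hN)
  have hlog : 0 < Real.log N := Real.log_pos (by linarith)
  set T : ℝ := (Real.log N) ^ (Real.log 2 + ε) with hT
  have hT0 : 0 < T := Real.rpow_pos_of_pos hlog _
  set B := (bl N).filter (fun z => Pr z ∧ T < ((dv z).card : ℝ)) with hB
  have hcard : (B.card : ℝ) ≤ s * (δ / 2) * N := by
    have h1 := typ_count hN0.le hT0 κ hκ0.le
    have h2 := hm N (by linarith)
    have h3 : (8 / T) ^ κ = 8 ^ κ * (Real.log N) ^ (-(κ * (Real.log 2 + ε))) := by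
      rw [Real.div_rpow (by norm_num) hT0.le, hT, ← Real.rpow_mul hlog.le,
        Real.rpow_neg hlog.le, div_eq_mul_inv, mul_comm (Real.log 2 + ε) κ]
    calc (B.card : ℝ) ≤ 8 * (8 / T) ^ κ * ∑ n ∈ Icc 1 ⌊N⌋₊, tb n * (n.divisors.card : ℝ) ^ κ := h1
      _ ≤ 8 * (8 / T) ^ κ * (C * N * (Real.log N) ^ ((2 : ℝ) ^ κ - 1)) := by gcongr
      _ = (8 * 8 ^ κ * C) * (Real.log N) ^ (-θ) * N := by
          rw [h3, hθ, show -(κ * (Real.log 2 + ε) - ((2 : ℝ) ^ κ - 1)) =
            -(κ * (Real.log 2 + ε)) + ((2 : ℝ) ^ κ - 1) by ring, Real.rpow_add hlog]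
          ring
      _ ≤ s * (δ / 2) * N := by gcongr
  have hsplit : ∀ z ∈ B, √(N / nm z) ≤
      (if (nm z : ℝ) ≤ s ^ 2 * N then √(N / nm z) else 0) + 1 / s := by
    intro z _
    split_ifs with h
    · have : 0 < 1 / s := by positivity
      linarith
    · push Not at h
      rw [zero_add]
      have h1 : 0 < s ^ 2 * N := by positivity
      have h2 : N / nm z ≤ (1 / s) ^ 2 := by
        rw [div_le_iff₀ (by linarith)]
        calc N = (1 / s) ^ 2 * (s ^ 2 * N) := by field_simp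
          _ ≤ (1 / s) ^ 2 * nm z := by gcongr
      calc √(N / nm z) ≤ √((1 / s) ^ 2) := Real.sqrt_le_sqrt h2
        _ = 1 / s := Real.sqrt_sq (by positivity)
  have hsm : ∑ z ∈ B, (if (nm z : ℝ) ≤ s ^ 2 * N then √(N / nm z) else 0) ≤ δ / 2 * N := by
    rw [← sum_filter]
    have hsub : B.filter (fun z => (nm z : ℝ) ≤ s ^ 2 * N) ⊆ bl (s ^ 2 * N) := by
      intro z hz
      rw [mem_filter, hB, mem_filter, mem_bl] at hz
      rw [mem_bl]
      exact ⟨hz.1.1.1, hz.2⟩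
    calc ∑ z ∈ B.filter (fun z => (nm z : ℝ) ≤ s ^ 2 * N), √(N / nm z)
        ≤ ∑ z ∈ bl (s ^ 2 * N), √(N / nm z) :=
          sum_le_sum_of_subset_of_nonneg hsub (fun _ _ _ => Real.sqrt_nonneg _)
      _ = (1 / s) * ∑ z ∈ bl (s ^ 2 * N), √(s ^ 2 * N / nm z) := by
          rw [mul_sum]
          apply sum_congr rfl
          intro z _
          rw [mul_div_assoc, Real.sqrt_mul (by positivity), Real.sqrt_sq hs0.le]
          field_simp
      _ ≤ (1 / s) * (12 * (s ^ 2 * N)) := by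
          gcongr
          exact typ_sum_sqrt_le (by positivity)
      _ = δ / 2 * N := by rw [hs]; field_simp; ring
  calc ∑ z ∈ B, √(N / nm z)
      ≤ ∑ z ∈ B, ((if (nm z : ℝ) ≤ s ^ 2 * N then √(N / nm z) else 0) + 1 / s) :=
        sum_le_sum hsplit
    _ = ∑ z ∈ B, (if (nm z : ℝ) ≤ s ^ 2 * N then √(N / nm z) else 0) + B.card * (1 / s) := by
        rw [sum_add_distrib, sum_const, nsmul_eq_mul]
    _ ≤ δ / 2 * N + s * (δ / 2) * N * (1 / s) := by gcongr
    _ = δ * N := by field_simp; ring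

end Pool.Agent.MRS
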