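import Pool.Agent.MRS.Hr
import Pool.Agent.MRS.LevFacts
import Pool.Agent.MRS.Mulb

set_option autoImplicit false

/-! Module TYP, part A: moments of the divisor function over primitive Gaussian integers. -/

open Finset

namespace Pool.Agent.MRS

open Chebyshev ArithmeticFunction in
theorem typ_hr_pp : ∃ C : ℝ, 0 < C ∧ ∀ y : ℝ, 1 ≤ y →
    ∑ q ∈ (Icc 1 ⌊y⌋₊).filter IsPrimePow, (q.divisors.card : ℝ) * Real.log q ≤ C * y := by
  refine ⟨2 * Real.log 4 + 864 / Real.log 2 ^ 2, ?_, fun y hy => ?_⟩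
  · have hlog2 : 0 < Real.log 2 := Real.log_pos (by norm_num)
    positivity
  have hlog2 : 0 < Real.log 2 := Real.log_pos (by norm_num)
  have hlogy : 0 ≤ Real.log y := Real.log_nonneg hy
  have hy0 : 0 < y := by linarith
  -- termwise
  have hterm : ∀ q ∈ (Icc 1 ⌊y⌋₊).filter IsPrimePow, (q.divisors.card : ℝ) * Real.log q ≤
      2 * (if q.Prime then Real.log q else 0) +
        2 * (Real.log y / Real.log 2) ^ 2 * (if q.Prime then 0 else vonMangoldt q) := by
    intro q hq
    rw [mem_filter, mem_Icc] at hq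
    obtain ⟨⟨h1, h2⟩, h3⟩ := hq
    split_ifs with hp
    · rw [Nat.Prime.divisors hp, Finset.card_pair hp.one_lt.ne]
      push_cast
      simp
    · rw [isPrimePow_nat_iff] at h3
      obtain ⟨p, k, hp', hk, rfl⟩ := h3
      rw [vonMangoldt_apply_pow hk.ne', vonMangoldt_apply_prime hp']
      have hqy : ((p ^ k : ℕ) : ℝ) ≤ y := by
        calc ((p ^ k : ℕ) : ℝ) ≤ (⌊y⌋₊ : ℝ) := by exact_mod_cast h2
          _ ≤ y := Nat.floor_le hy0.le
      have hp2 : (2 : ℝ) ≤ p := by exact_mod_cast hp'.two_le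
      have hlp : Real.log 2 ≤ Real.log p := Real.log_le_log (by norm_num) hp2
      have hkl : (k : ℝ) * Real.log 2 ≤ Real.log y := by
        calc (k : ℝ) * Real.log 2 ≤ k * Real.log p := by gcongr
          _ = Real.log ((p ^ k : ℕ) : ℝ) := by push_cast; rw [Real.log_pow]
          _ ≤ Real.log y := Real.log_le_log (by exact_mod_cast h1) hqy
      have hkl2 : (k : ℝ) ≤ Real.log y / Real.log 2 := by
        rw [le_div_iff₀ hlog2]; exact hkl
      have hk1 : (1 : ℝ) ≤ k := by exact_mod_cast hk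
      rw [Nat.cast_pow, Real.log_pow, Nat.divisors_prime_pow hp', Finset.card_map,
        Finset.card_range, mul_zero, zero_add, ← mul_assoc]
      apply mul_le_mul_of_nonneg_right _ (by linarith)
      push_cast
      have h4 : (k : ℝ) ^ 2 ≤ (Real.log y / Real.log 2) ^ 2 := by gcongr
      nlinarith
  refine (sum_le_sum hterm).trans ?_
  rw [sum_add_distrib, ← mul_sum, ← mul_sum]
  have h1 : ∑ q ∈ (Icc 1 ⌊y⌋₊).filter IsPrimePow, (if q.Prime then Real.log q else 0) ≤ θ y := by
    rw [← sum_filter, theta]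
    apply sum_le_sum_of_subset_of_nonneg
    · intro q hq
      simp only [mem_filter, mem_Icc, mem_Ioc] at hq ⊢
      exact ⟨⟨by omega, hq.1.1.2⟩, hq.2⟩
    · intro q hq _
      simp only [mem_filter, mem_Ioc] at hq
      exact Real.log_nonneg (by exact_mod_cast hq.1.1)
  have h2 : ∑ q ∈ (Icc 1 ⌊y⌋₊).filter IsPrimePow, (if q.Prime then 0 else vonMangoldt q) ≤
      ψ y - θ y := by
    rw [psi_sub_theta_eq_sum_not_prime]
    have e : ∀ q ∈ (Icc 1 ⌊y⌋₊).filter IsPrimePow, (if q.Prime then (0 : ℝ) else vonMangoldt q) =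
      (if ¬ q.Prime then vonMangoldt q else 0) := by
      intro q _
      split_ifs <;> simp_all
    rw [sum_congr rfl e, ← sum_filter]
    apply sum_le_sum_of_subset_of_nonneg
    · intro q hq
      simp only [mem_filter, mem_Icc, mem_Ioc] at hq ⊢
      exact ⟨⟨by omega, hq.1.1.2⟩, hq.2⟩
    · intro q hq _
      exact vonMangoldt_nonneg
  have h3 := psi_sub_theta_le hy
  have h4 := theta_le_log4_mul_x hy0.le
  have h5 : Real.log y ≤ y ^ ((1 : ℝ) / 6) / (1 / 6) := Real.log_le_rpow_div hy0.le (by norm_num)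
  have h6 : Real.log y ^ 3 ≤ 216 * √y := by
    have e1 : (y ^ ((1 : ℝ) / 6)) ^ 3 = √y := by
      rw [Real.sqrt_eq_rpow, ← Real.rpow_natCast, ← Real.rpow_mul hy0.le]
      norm_num
    calc Real.log y ^ 3 ≤ (y ^ ((1 : ℝ) / 6) / (1 / 6)) ^ 3 := pow_le_pow_left₀ hlogy h5 3
      _ = 216 * (y ^ ((1 : ℝ) / 6)) ^ 3 := by ring
      _ = 216 * √y := by rw [e1]
  have h7 : 2 * (Real.log y / Real.log 2) ^ 2 * (2 * √y * Real.log y) ≤
      864 / Real.log 2 ^ 2 * y := by
    have e1 : 2 * (Real.log y / Real.log 2) ^ 2 * (2 * √y * Real.log y) =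
      4 * √y / Real.log 2 ^ 2 * Real.log y ^ 3 := by ring
    rw [e1]
    calc 4 * √y / Real.log 2 ^ 2 * Real.log y ^ 3 ≤
          4 * √y / Real.log 2 ^ 2 * (216 * √y) := by gcongr
      _ = 864 / Real.log 2 ^ 2 * (√y * √y) := by ring
      _ = 864 / Real.log 2 ^ 2 * y := by rw [Real.mul_self_sqrt hy0.le]
  have h8 : 2 * (Real.log y / Real.log 2) ^ 2 * ∑ q ∈ (Icc 1 ⌊y⌋₊).filter IsPrimePow,
      (if q.Prime then 0 else vonMangoldt q) ≤
      2 * (Real.log y / Real.log 2) ^ 2 * (2 * √y * Real.log y) := by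
    apply mul_le_mul_of_nonneg_left _ (by positivity)
    linarith
  linarith

theorem typ_hr : ∃ C : ℝ, 0 < C ∧ ∀ f : ℕ → ℝ, (∀ n, 0 ≤ f n) → f 1 = 1 →
    (∀ m n : ℕ, Nat.Coprime m n → f (m * n) = f m * f n) →
    (∀ p a : ℕ, p.Prime → 1 ≤ a → f (p ^ a) ≤ 2 * ((p ^ a).divisors.card : ℝ)) → ∀ x : ℝ, 2 ≤ x →
    ∑ n ∈ Icc 1 ⌊x⌋₊, f n ≤ C * (x / Real.log x) * ∑ n ∈ Icc 1 ⌊x⌋₊, f n / n := by
  obtain ⟨C, hC0, hC⟩ := typ_hr_pp
  refine ⟨2 * C + 1, by positivity, ?_⟩
  intro f hf0 hf1 hfm hfp x hx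
  have hx0 : 0 < x := by linarith
  have hlogx : 0 < Real.log x := Real.log_pos (by linarith)
  obtain ⟨N, hN⟩ : ∃ N : ℕ, N = ⌊x⌋₊ := ⟨_, rfl⟩
  rw [← hN]
  have hNx : (N : ℝ) ≤ x := by rw [hN]; exact Nat.floor_le hx0.le
  -- the first sum
  have A : ∑ n ∈ Icc 1 N, f n * Real.log n ≤ 2 * C * x * ∑ n ∈ Icc 1 N, f n / n := by
    have step1 : ∀ n ∈ Icc 1 N, f n * Real.log n ≤
        ∑ p ∈ n.primeFactors, 2 * (f (n / p ^ n.factorization p) *
          (((p ^ n.factorization p).divisors.card : ℝ) *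
            Real.log ((p ^ n.factorization p : ℕ) : ℝ))) := by
      intro n hn
      rw [mem_Icc] at hn
      have hn0 : n ≠ 0 := by omega
      rw [Real.log_nat_eq_sum_factorization, Finsupp.sum, mul_sum, Nat.support_factorization]
      apply sum_le_sum
      intro p hp
      have hpp := Nat.prime_of_mem_primeFactors hp
      have hpd := Nat.dvd_of_mem_primeFactors hp
      have hv : 1 ≤ n.factorization p := (hpp.dvd_iff_one_le_factorization hn0).mp hpd
      have hfac : f n = f (p ^ n.factorization p) * f (n / p ^ n.factorization p) := by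
        conv_lhs => rw [← Nat.ordProj_mul_ordCompl_eq_self n p]
        exact hfm _ _ ((Nat.coprime_ordCompl hpp hn0).pow_left _)
      have h2 := hfp p _ hpp hv
      have hlogp : 0 ≤ Real.log p := Real.log_nonneg (by exact_mod_cast hpp.one_lt.le)
      rw [Nat.cast_pow, Real.log_pow, hfac]
      have h3 : 0 ≤ f (n / p ^ n.factorization p) * (n.factorization p * Real.log p) := by
        have := hf0 (n / p ^ n.factorization p)
        positivity
      calc f (p ^ n.factorization p) * f (n / p ^ n.factorization p) *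
            (n.factorization p * Real.log p)
          = f (p ^ n.factorization p) * (f (n / p ^ n.factorization p) *
            (n.factorization p * Real.log p)) := by ring
        _ ≤ (2 * ((p ^ n.factorization p).divisors.card : ℝ)) *
            (f (n / p ^ n.factorization p) * (n.factorization p * Real.log p)) :=
            mul_le_mul_of_nonneg_right h2 h3
        _ = _ := by ring
    refine (sum_le_sum step1).trans ?_
    rw [sum_sigma']
    have step2 : ∑ a ∈ (Icc 1 N).sigma (fun n => n.primeFactors),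
        2 * (f (a.1 / a.2 ^ a.1.factorization a.2) *
          (((a.2 ^ a.1.factorization a.2).divisors.card : ℝ) *
            Real.log ((a.2 ^ a.1.factorization a.2 : ℕ) : ℝ))) ≤
        ∑ b ∈ (Icc 1 N).sigma (fun m => (Icc 1 (N / m)).filter IsPrimePow),
          2 * (f b.1 * ((b.2.divisors.card : ℝ) * Real.log (b.2 : ℝ))) := by
      have hinj : Set.InjOn (fun a : (Σ _ : ℕ, ℕ) =>
          (⟨a.1 / a.2 ^ a.1.factorization a.2, a.2 ^ a.1.factorization a.2⟩ : (Σ _ : ℕ, ℕ)))
          ((Icc 1 N).sigma (fun n => n.primeFactors) : Set (Σ _ : ℕ, ℕ)) := by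
        rintro ⟨n, p⟩ h1 ⟨n', p'⟩ h2 h
        simp only [coe_sigma, Set.mem_sigma_iff, mem_coe, mem_Icc] at h1 h2
        simp only [Sigma.mk.injEq, heq_eq_eq] at h
        obtain ⟨e1, e2⟩ := h
        have hp := Nat.prime_of_mem_primeFactors h1.2
        have hp' := Nat.prime_of_mem_primeFactors h2.2
        have hv : 1 ≤ n.factorization p :=
          (hp.dvd_iff_one_le_factorization (by omega)).mp (Nat.dvd_of_mem_primeFactors h1.2)
        have hv' : 1 ≤ n'.factorization p' :=
          (hp'.dvd_iff_one_le_factorization (by omega)).mp (Nat.dvd_of_mem_primeFactors h2.2)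
        have hpe : p = p' := by
          have : p ∣ p' ^ n'.factorization p' := by
            rw [← e2]; exact dvd_pow_self p (by omega)
          exact (Nat.prime_dvd_prime_iff_eq hp hp').mp (hp.dvd_of_dvd_pow this)
        have hne : n = n' := by
          rw [← Nat.ordProj_mul_ordCompl_eq_self n p, ← Nat.ordProj_mul_ordCompl_eq_self n' p',
            e1, e2]
        subst hpe hne
        rfl
      rw [← sum_image (f := fun b : (Σ _ : ℕ, ℕ) =>
        2 * (f b.1 * ((b.2.divisors.card : ℝ) * Real.log (b.2 : ℝ)))) hinj]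
      apply sum_le_sum_of_subset_of_nonneg
      · intro b hb
        rw [mem_image] at hb
        obtain ⟨⟨n, p⟩, h1, rfl⟩ := hb
        simp only [mem_sigma, mem_Icc] at h1
        simp only [mem_sigma, mem_Icc, mem_filter]
        have hp := Nat.prime_of_mem_primeFactors h1.2
        have hn0 : n ≠ 0 := by omega
        have hv : 1 ≤ n.factorization p :=
          (hp.dvd_iff_one_le_factorization (by omega)).mp (Nat.dvd_of_mem_primeFactors h1.2)
        have hdvd : p ^ n.factorization p ∣ n := Nat.ordProj_dvd n p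
        have hpos : 0 < p ^ n.factorization p := Nat.pow_pos hp.pos
        have hq1 : 1 ≤ n / p ^ n.factorization p := Nat.div_pos (Nat.le_of_dvd (by omega) hdvd) hpos
        refine ⟨⟨hq1, (Nat.div_le_self _ _).trans h1.1.2⟩, ⟨hpos, ?_⟩, ?_⟩
        · rw [Nat.le_div_iff_mul_le hq1]
          rw [Nat.mul_div_cancel' hdvd]
          exact h1.1.2
        · exact hp.isPrimePow.pow (by omega)
      · intro b hb _
        simp only [mem_sigma, mem_Icc, mem_filter] at hb
        have h1 := hf0 b.1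
        have h2 : 0 ≤ Real.log (b.2 : ℝ) := Real.log_nonneg (by exact_mod_cast hb.2.1.1)
        positivity
    refine step2.trans ?_
    rw [sum_sigma, mul_sum]
    apply sum_le_sum
    intro m hm
    rw [mem_Icc] at hm
    have hm0 : (0 : ℝ) < m := by exact_mod_cast hm.1
    have hmN : (m : ℝ) ≤ N := by exact_mod_cast hm.2
    show ∑ q ∈ (Icc 1 (N / m)).filter IsPrimePow,
      2 * (f m * ((q.divisors.card : ℝ) * Real.log (q : ℝ))) ≤ _
    rw [← mul_sum, ← mul_sum]
    have hfl : N / m = ⌊x / m⌋₊ := by rw [hN, Nat.floor_div_natCast]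
    rw [hfl]
    have h1 := hC (x / m) (by rw [le_div_iff₀ hm0]; linarith)
    have h2 := mul_le_mul_of_nonneg_left h1 (hf0 m)
    calc 2 * (f m * ∑ q ∈ (Icc 1 ⌊x / m⌋₊).filter IsPrimePow, (q.divisors.card : ℝ) * Real.log q)
        ≤ 2 * (f m * (C * (x / m))) := by linarith
      _ = 2 * C * x * (f m / m) := by ring
  have B : ∑ n ∈ Icc 1 N, f n * Real.log (x / n) ≤ x * ∑ n ∈ Icc 1 N, f n / n := by
    rw [mul_sum]
    apply sum_le_sum
    intro n hn
    rw [mem_Icc] at hn
    have hn0 : (0 : ℝ) < n := by exact_mod_cast hn.1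
    have h1 : Real.log (x / n) ≤ x / n := by
      have := Real.log_le_sub_one_of_pos (show 0 < x / n by positivity)
      linarith
    calc f n * Real.log (x / n) ≤ f n * (x / n) := mul_le_mul_of_nonneg_left h1 (hf0 n)
      _ = x * (f n / n) := by ring
  have D : Real.log x * ∑ n ∈ Icc 1 N, f n =
      ∑ n ∈ Icc 1 N, f n * Real.log n + ∑ n ∈ Icc 1 N, f n * Real.log (x / n) := by
    rw [← sum_add_distrib, mul_sum]
    apply sum_congr rfl
    intro n hn
    rw [mem_Icc] at hn
    have hn0 : (0 : ℝ) < n := by exact_mod_cast hn.1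
    rw [Real.log_div hx0.ne' hn0.ne']
    ring
  have E : Real.log x * ∑ n ∈ Icc 1 N, f n ≤ (2 * C + 1) * x * ∑ n ∈ Icc 1 N, f n / n := by
    rw [D]; linarith
  calc ∑ n ∈ Icc 1 N, f n = (Real.log x * ∑ n ∈ Icc 1 N, f n) / Real.log x := by field_simp
    _ ≤ ((2 * C + 1) * x * ∑ n ∈ Icc 1 N, f n / n) / Real.log x := by gcongr
    _ = (2 * C + 1) * (x / Real.log x) * ∑ n ∈ Icc 1 N, f n / n := by ring

/-- Mertens upper bound for primes `1 mod 4` -/
theorem typ_mertens : ∃ C : ℝ, 0 ≤ C ∧ ∀ b : ℝ, 2 ≤ b →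
    ∑ p ∈ (Ioc 2 ⌊b⌋₊).filter (fun p : ℕ => p.Prime ∧ p ≡ 1 [MOD 4]), (1:ℝ) / p ≤
      1 / 2 * Real.log (Real.log b) + C := by
  obtain ⟨C, hC, hM0⟩ := Pool.Agent.MertensAP.mertens_ap_mod 4 (by norm_num)
  have htot : ((Nat.totient 4 : ℕ) : ℝ) = 2 := by
    have : Nat.totient 4 = 2 := by decide
    rw [this]; norm_num
  have hM : ∀ x : ℝ, 1 ≤ x → |∑ k ∈ Finset.Icc 0 ⌊x⌋₊, LFAmc k - Real.log x / 2| ≤ C := by
    intro x hx
    have h := hM0 1 (by norm_num) x hx
    rw [htot, ← LFA_sum_mc] at h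
    exact h
  have hloga : 0 < Real.log 2 := Real.log_pos (by norm_num)
  refine ⟨2 * C / Real.log 2 + |1 / 2 * Real.log (Real.log 2)|, by positivity, ?_⟩
  intro b hab
  have hlogb : 0 < Real.log b := Real.log_pos (by linarith)
  have hlog : ∀ t ∈ Set.Icc 2 b, 0 < Real.log t := fun t ht => Real.log_pos (by linarith [ht.1])
  have hpos : ∀ t ∈ Set.Icc 2 b, 0 < t := fun t ht => by linarith [ht.1]
  have hderiv : ∀ t ∈ Set.Icc 2 b, HasDerivAt (fun t => (Real.log t)⁻¹) (-(t⁻¹) / (Real.log t)^2) t := by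
    intro t ht
    exact (Real.hasDerivAt_log (hpos t ht).ne').inv (hlog t ht).ne'
  have hderiv' : ∀ t ∈ Set.Icc 2 b, deriv (fun t => (Real.log t)⁻¹) t = -(t⁻¹) / (Real.log t)^2 :=
    fun t ht => (hderiv t ht).deriv
  have hcont : ContinuousOn (fun t : ℝ => -(t⁻¹) / (Real.log t)^2) (Set.Icc 2 b) := by
    apply ContinuousOn.div
    · apply ContinuousOn.neg
      apply ContinuousOn.inv₀ continuousOn_id
      intro t ht; exact (hpos t ht).ne'
    · apply ContinuousOn.pow
      apply Real.continuousOn_log.mono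
      intro t ht
      simp only [Set.mem_compl_iff, Set.mem_singleton_iff]
      exact (hpos t ht).ne'
    · intro t ht
      have := hlog t ht
      positivity
  have hint : MeasureTheory.IntegrableOn (deriv (fun t => (Real.log t)⁻¹)) (Set.Icc 2 b) := by
    apply (hcont.integrableOn_Icc).congr_fun _ measurableSet_Icc
    intro t ht
    exact (hderiv' t ht).symm
  have key := sum_mul_eq_sub_sub_integral_mul (𝕜 := ℝ) LFAmc (f := fun t => (Real.log t)⁻¹)
    (a := 2) (b := b)
    (by norm_num) hab (fun t ht => (hderiv t ht).differentiableAt) hint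
  have hfl2 : ⌊(2 : ℝ)⌋₊ = 2 := by norm_num
  have hLHS : ∑ k ∈ Finset.Ioc ⌊(2:ℝ)⌋₊ ⌊b⌋₊, (Real.log (k:ℝ))⁻¹ * LFAmc k
      = ∑ p ∈ (Ioc 2 ⌊b⌋₊).filter (fun p : ℕ => p.Prime ∧ p ≡ 1 [MOD 4]), (1:ℝ) / p := by
    rw [Finset.sum_filter, hfl2]
    apply Finset.sum_congr rfl
    intro k _
    unfold LFAmc
    split_ifs with h
    · have hk : 0 < Real.log k := Real.log_pos (by exact_mod_cast h.1.one_lt)
      have hk0 : (0:ℝ) < k := by exact_mod_cast h.1.pos
      field_simp
    · simp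
  rw [hLHS] at key
  rw [key]
  -- bound the integral
  have hmE : ∀ t ∈ Set.Icc 2 b, ∑ k ∈ Finset.Icc 0 ⌊t⌋₊, LFAmc k ≤ Real.log t / 2 + C := by
    intro t ht
    have := (abs_le.mp (hM t (by linarith [ht.1]))).2
    linarith
  have hint2 : MeasureTheory.IntegrableOn (fun t => deriv (fun t => (Real.log t)⁻¹) t *
      ∑ k ∈ Finset.Icc 0 ⌊t⌋₊, LFAmc k) (Set.Icc 2 b) :=
    integrableOn_mul_sum_Icc LFAmc (by norm_num) hint
  have hint3 : ContinuousOn (fun t : ℝ => -(t⁻¹) / (Real.log t)^2 * (Real.log t / 2 + C))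
      (Set.Icc 2 b) := by
    apply hcont.mul
    apply ContinuousOn.add _ continuousOn_const
    apply ContinuousOn.div_const
    apply Real.continuousOn_log.mono
    intro t ht
    simp only [Set.mem_compl_iff, Set.mem_singleton_iff]
    exact (hpos t ht).ne'
  have hI : ∫ t in Set.Ioc 2 b, -(t⁻¹) / (Real.log t)^2 * (Real.log t / 2 + C) ≤
      ∫ t in Set.Ioc 2 b, deriv (fun t => (Real.log t)⁻¹) t * ∑ k ∈ Finset.Icc 0 ⌊t⌋₊, LFAmc k := by
    apply MeasureTheory.setIntegral_mono_on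
    · exact hint3.integrableOn_Icc.mono_set Set.Ioc_subset_Icc_self
    · exact hint2.mono_set Set.Ioc_subset_Icc_self
    · exact measurableSet_Ioc
    · intro t ht
      have ht' := Set.Ioc_subset_Icc_self ht
      rw [hderiv' t ht']
      have h1 := hmE t ht'
      have h2 : -(t⁻¹) / (Real.log t)^2 ≤ 0 := by
        apply div_nonpos_of_nonpos_of_nonneg
        · have := hpos t ht'
          simp only [Left.neg_nonpos_iff]
          positivity
        · positivity
      nlinarith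
  have hI2 : ∫ t in Set.Ioc 2 b, -(t⁻¹) / (Real.log t)^2 * (Real.log t / 2 + C)
      = (-(1 / 2 * Real.log (Real.log b)) + C * (Real.log b)⁻¹) -
        (-(1 / 2 * Real.log (Real.log 2)) + C * (Real.log 2)⁻¹) := by
    rw [← intervalIntegral.integral_of_le hab]
    apply intervalIntegral.integral_eq_sub_of_hasDerivAt
    · intro t ht
      rw [Set.uIcc_of_le hab] at ht
      have h0 := hpos t ht
      have h1 := hlog t ht
      have h2 : HasDerivAt (fun t => Real.log (Real.log t)) (t⁻¹ / Real.log t) t :=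
        (Real.hasDerivAt_log h0.ne').log h1.ne'
      have h3 := (h2.const_mul (1 / 2)).neg.add ((hderiv t ht).const_mul C)
      refine h3.congr_deriv ?_
      field_simp
      ring
    · apply ContinuousOn.intervalIntegrable
      rw [Set.uIcc_of_le hab]
      exact hint3
  have h1 := (abs_le.mp (hM b (by linarith))).2
  have h2 := (abs_le.mp (hM 2 (by norm_num))).1
  set Eb := ∑ k ∈ Finset.Icc 0 ⌊b⌋₊, LFAmc k with hEb
  set Ea := ∑ k ∈ Finset.Icc 0 ⌊(2:ℝ)⌋₊, LFAmc k with hEa
  have h3 : (Real.log b)⁻¹ * Eb ≤ 1 / 2 + C * (Real.log b)⁻¹ := by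
    have : (Real.log b)⁻¹ * Eb ≤ (Real.log b)⁻¹ * (Real.log b / 2 + C) :=
      mul_le_mul_of_nonneg_left (by linarith) (by positivity)
    have e : (Real.log b)⁻¹ * (Real.log b / 2 + C) = 1 / 2 + C * (Real.log b)⁻¹ := by
      field_simp
    linarith
  have h4 : 1 / 2 - C * (Real.log 2)⁻¹ ≤ (Real.log 2)⁻¹ * Ea := by
    have : (Real.log 2)⁻¹ * (Real.log 2 / 2 - C) ≤ (Real.log 2)⁻¹ * Ea :=
      mul_le_mul_of_nonneg_left (by linarith) (by positivity)
    have e : (Real.log 2)⁻¹ * (Real.log 2 / 2 - C) = 1 / 2 - C * (Real.log 2)⁻¹ := by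
      field_simp
    linarith
  have e2 : 2 * C / Real.log 2 = 2 * (C * (Real.log 2)⁻¹) := by rw [div_eq_mul_inv]; ring
  have h5 := neg_abs_le (1 / 2 * Real.log (Real.log 2))
  rw [e2]
  linarith

end Pool.Agent.MRS
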